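import Pool.Agent.MP_cbe134_nt.FFExact

/-! The depth filtration on letters and adapted generators. -/

open Finset Polynomial Module

namespace Pool.Agent.MP_cbe134_nt.FF

section linalg

variable {k M : Type*} [Field k] [AddCommGroup M] [Module k M]

lemma finrank_sup_eq (A W : Submodule k M) [FiniteDimensional k A] [FiniteDimensional k W] :
    finrank k ↥(A ⊔ W) = finrank k A + finrank k (W.map A.mkQ) := by
  have h1 := LinearMap.finrank_range_add_finrank_ker (A.mkQ.domRestrict W)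
  rw [LinearMap.range_domRestrict, LinearMap.ker_domRestrict, Submodule.ker_mkQ] at h1
  have h2 := Submodule.finrank_sup_add_finrank_inf_eq A W
  have h3 : finrank k (A.comap W.subtype) = finrank k ↥(A ⊓ W) := by
    rw [← Submodule.finrank_map_subtype_eq, Submodule.map_comap_subtype, inf_comm]
  omega

lemma exists_lifts (A W : Submodule k M) [FiniteDimensional k W] (T : Set M)
    (hT : ∀ w, ∃ a : k, a ≠ 0 ∧ a • w ∈ T) :
    ∃ u : Fin (finrank k (W.map A.mkQ)) → M, (∀ i, u i ∈ W ∧ u i ∈ T) ∧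
      W ≤ A ⊔ Submodule.span k (Set.range u) ∧ LinearIndependent k (A.mkQ ∘ u) := by
  let b := Module.finBasis k (W.map A.mkQ)
  have h1 : ∀ i, ∃ w ∈ W, A.mkQ w = b i := fun i => (b i).2
  choose w hw hw' using h1
  choose a ha ha' using hT
  have hli : LinearIndependent k (A.mkQ ∘ fun i => a (w i) • w i) := by
    have := (b.linearIndependent.map' (W.map A.mkQ).subtype (Submodule.ker_subtype _)).units_smul
      fun i => Units.mk0 _ (ha (w i))
    have e : (A.mkQ ∘ fun i => a (w i) • w i) = (fun i => Units.mk0 _ (ha (w i))) •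
        (W.map A.mkQ).subtype ∘ b := by
      ext i
      simp [← hw', Units.smul_def]
    rwa [e]
  refine ⟨fun i => a (w i) • w i, fun i => ⟨W.smul_mem _ (hw i), ha' _⟩, ?_, hli⟩
  have h2 : (Submodule.span k (Set.range fun i => a (w i) • w i)).map A.mkQ = W.map A.mkQ := by
    refine Submodule.eq_of_le_of_finrank_eq (Submodule.map_mono (Submodule.span_le.2 ?_)) ?_
    · rintro _ ⟨i, rfl⟩
      exact W.smul_mem _ (hw i)
    · rw [Submodule.map_span, ← Set.range_comp, finrank_span_eq_card hli, Fintype.card_fin]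
  have h3 := congrArg (Submodule.comap A.mkQ) h2
  rw [Submodule.comap_map_mkQ, Submodule.comap_map_mkQ] at h3
  rw [h3]
  exact le_sup_right

end linalg

variable {F k : Type*} [Field F] [Fintype F] [Field k] [Algebra F k] {t : k}

variable (F t) in
/-- letters of weight `s` and depth at most `r` -/
noncomputable def WW (r s : ℕ) : Submodule k k[X] :=
  BB k (qq F) (s - 1) ⊓ (Seq F t s r).comap (letK F t s)

variable (F t) in
/-- boundary terms of weight `s` and depth at most `r` -/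
noncomputable def Wb (r s : ℕ) : Submodule k k[X] :=
  BB k (qq F) s ⊓ (Slt F t s r).comap (letK F t s)

variable (F t) in
/-- letters of depth at most `r` modulo exact ones -/
noncomputable def QQ (r s : ℕ) : Submodule k k[X] := ExV F t s ⊔ WW F t r s

instance (r s : ℕ) : FiniteDimensional k (WW F t r s) :=
  Submodule.finiteDimensional_of_le inf_le_left

instance (r s : ℕ) : FiniteDimensional k (QQ F t r s) := Submodule.finiteDimensional_sup _ _

variable (F t) in
/-- the number of generators of weight `s` and depth `r` -/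
noncomputable def gg (s r : ℕ) : ℕ := finrank k ((WW F t r s).map (QQ F t (r - 1) s).mkQ)

variable {r r' s s' : ℕ}

lemma WW_mono (h : r ≤ r') : WW F t r s ≤ WW F t r' s :=
  inf_le_inf_left _ (Submodule.comap_mono (Seq_mono h))

lemma WW_le_self : WW F t r s ≤ WW F t s s := inf_le_inf_left _ (Submodule.comap_mono Seq_le_self)

lemma QQ_mono (h : r ≤ r') : QQ F t r s ≤ QQ F t r' s := sup_le_sup_left (WW_mono h) _

lemma QQ_le : QQ F t r s ≤ BB k (qq F) (s - 1) := sup_le (ExV_le s) inf_le_left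

lemma Tr.WW_zero (ht : Tr F t) : WW F t 0 s = ⊥ := by
  rw [WW, Seq_zero_right, Submodule.comap_bot, LinearMap.ker_eq_bot.2 (ht.letK_inj s), inf_bot_eq]

lemma Tr.QQ_zero (ht : Tr F t) : QQ F t 0 s = ExV F t s := by rw [QQ, ht.WW_zero, sup_bot_eq]

lemma gg_eq_zero (h : WW F t r s ≤ QQ F t (r - 1) s) : gg F t s r = 0 := by
  rw [gg, Submodule.finrank_eq_zero, eq_bot_iff, Submodule.map_le_iff_le_comap,
    Submodule.comap_bot, Submodule.ker_mkQ]
  exact h

lemma Tr.gg_zero (ht : Tr F t) : gg F t s 0 = 0 := gg_eq_zero (ht.WW_zero ▸ bot_le)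

lemma gg_of_lt (h : s < r) : gg F t s r = 0 :=
  gg_eq_zero ((WW_le_self.trans (WW_mono (by omega))).trans le_sup_right)

lemma finrank_QQ_succ : finrank k (QQ F t (r + 1) s) = finrank k (QQ F t r s) + gg F t s (r + 1) := by
  have e : QQ F t (r + 1) s = QQ F t r s ⊔ WW F t (r + 1) s := by
    rw [QQ, QQ, sup_assoc, (sup_eq_right (a := WW F t r s)).2 (WW_mono (Nat.le_add_right r 1))]
  rw [gg, Nat.add_sub_cancel, ← finrank_sup_eq, e]

lemma Tr.finrank_QQ (ht : Tr F t) (r : ℕ) :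
    finrank k (QQ F t r s) = finrank k (ExV F t s) + ∑ i ∈ range (r + 1), gg F t s i := by
  induction r with
  | zero => rw [ht.QQ_zero]; simp [ht.gg_zero]
  | succ r ih => rw [finrank_QQ_succ, ih, sum_range_succ _ (r + 1), add_assoc]

variable {u u' : k[X]}

lemma Tr.mul_WW_Wb (ht : Tr F t) (hs : 1 ≤ s) (h : u ∈ WW F t r s) (h' : u' ∈ Wb F t r' s') :
    u * u' ∈ WW F t (r + r') (s + s') :=
  ⟨BB_mono (by omega) (mul_mem_BB two_le_q h.1 h'.1), by
    have := ht.mul_eq_lt h.2 h'.2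
    rwa [lett_mul] at this⟩

lemma Tr.mul_WW_WW (ht : Tr F t) (h : u ∈ WW F t r s) (h' : u' ∈ WW F t r' s') :
    u * u' ∈ WW F t (r + r') (s + s') :=
  ⟨BB_mono (by omega) (mul_mem_BB two_le_q h.1 h'.1), by
    have := ht.mul_eq h.2 h'.2
    rwa [lett_mul] at this⟩

lemma Tr.mul_Wb (ht : Tr F t) (h : u ∈ Wb F t r s) (h' : u' ∈ Wb F t r' s') :
    u * u' ∈ Wb F t (r + r') (s + s') :=
  ⟨mul_mem_BB two_le_q h.1 h'.1, by
    have := ht.mul_lt h.2 h'.2
    rwa [lett_mul] at this⟩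

lemma one_mem_Wb : 1 ∈ Wb F t r 0 :=
  ⟨(mem_BB two_le_q).2 (by simp), by
    change letK F t 0 1 ∈ Slt F t 0 r
    rw [lett_one]
    exact one_mem_Slt⟩

lemma Tr.exists_H' (ht : Tr F t) (hs : 1 ≤ s) :
    ∃ H ∈ WW F t 1 s, SS F t s = letK F t s H ∧ H.eval (t ^ qq F) = 1 := by
  obtain ⟨n, rfl⟩ := Nat.exists_eq_add_of_le' hs
  obtain ⟨H, h1, h2⟩ := ht.exists_H n
  refine ⟨H, ⟨h1, ?_⟩, h2, ?_⟩
  · change letK F t (n + 1) H ∈ Seq F t (n + 1) 1
    rw [← h2]
    exact SS_mem hs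
  · rw [← lett_zero (q := qq F) (t := t) (n + 1), ← SS_zero (F := F) (t := t) (n + 1), h2]

lemma Tr.Z_mem (ht : Tr F t) {j : ℕ} (h1 : 1 ≤ j) (hj : j ≤ qq F) :
    (C (t ^ qq F) - X) ^ j ∈ Wb F t 1 (j * (qq F - 1)) := by
  have hq := two_le_q (F := F)
  have h2 : 1 ≤ j * (qq F - 1) := Nat.mul_pos (by omega) (by omega)
  refine ⟨(mem_BB hq).2 (by rw [natDegree_pow, natDegree_Y]; linarith), ?_⟩
  have h3 : t ^ qq F - t ≠ 0 := by simpa using sub_ne_zero.2 (ht.tq_ne one_ne_zero)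
  have h4 : (C (t ^ qq F) - X) ^ j = (-(t ^ qq F - t)) ^ j • (-cc F t 1) ^ j := by
    rw [← _root_.smul_pow, cc_one, smul_neg, neg_smul, neg_neg, ← C_mul', ← mul_assoc, ← C_mul,
      mul_inv_cancel₀ h3, C_1, one_mul]
  rw [SetLike.mem_coe, Submodule.mem_comap, h4, map_smul, ← ht.rr_small hj, rr_eq h2 (Dvd.intro_left _ rfl)]
  exact Submodule.smul_mem _ _ (psum_mem (SS_mem h2))

lemma degreeLT_le_of_triangular {N : ℕ} {c : k} {W : Submodule k k[X]}
    (h : ∀ j < N, ∃ p : k[X], p.eval c ≠ 0 ∧ p * (C c - X) ^ j ∈ W ⊓ degreeLT k N) :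
    degreeLT k N ≤ W := by
  suffices H : ∀ i j, i + j = N → ∀ v, (C c - X) ^ j * v ∈ degreeLT k N → (C c - X) ^ j * v ∈ W by
    intro u hu
    simpa using H N 0 rfl u (by simpa using hu)
  intro i
  induction i with
  | zero =>
    rintro j rfl v hv
    by_cases h0 : v = 0
    · simp [h0]
    rw [mem_degreeLT, ← natDegree_lt_iff_degree_lt (mul_ne_zero (pow_ne_zero _ (Y_ne _)) h0),
      natDegree_mul (pow_ne_zero _ (Y_ne _)) h0, natDegree_pow, natDegree_Y] at hv
    omega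
  | succ i ih =>
    intro j hj v hv
    obtain ⟨p, hp, hp1, hp2⟩ := h j (by omega)
    obtain ⟨v', hv'⟩ : C c - X ∣ v - (v.eval c / p.eval c) • p := by
      rw [← neg_sub (X : k[X]), neg_dvd, dvd_iff_isRoot, IsRoot.def]
      simp [hp]
    have e : (C c - X) ^ (j + 1) * v' =
        (C c - X) ^ j * v - (v.eval c / p.eval c) • (p * (C c - X) ^ j) := by
      rw [pow_succ, mul_assoc, ← hv', ← smul_mul_assoc]
      ring
    have := ih (j + 1) (by omega) v' (e ▸ sub_mem hv (Submodule.smul_mem _ _ hp2))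
    rw [e] at this
    simpa using add_mem this (Submodule.smul_mem _ (v.eval c / p.eval c) hp1)

lemma Tr.BB_le (ht : Tr F t) (hs : 1 ≤ s)
    (h : ∀ j, j * (qq F - 1) < s → ∃ r', r' + 1 ≤ r ∧
      (C (t ^ qq F) - X) ^ j ∈ Wb F t r' (j * (qq F - 1))) :
    BB k (qq F) (s - 1) ≤ WW F t r s := by
  have hq := two_le_q (F := F)
  refine degreeLT_le_of_triangular (c := t ^ qq F) fun j hj => ?_
  have h1 : j * (qq F - 1) < s := by
    have := (Nat.le_div_iff_mul_le (show 0 < qq F - 1 by omega)).1 (Nat.lt_succ_iff.1 hj)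
    omega
  obtain ⟨r', h2, h3⟩ := h j h1
  obtain ⟨H, h4, -, h5⟩ := ht.exists_H' (s := s - j * (qq F - 1)) (by omega)
  have h6 := ht.mul_WW_Wb (by omega) h4 h3
  rw [show s - j * (qq F - 1) + j * (qq F - 1) = s by omega] at h6
  exact ⟨H, by simp [h5], WW_mono (by omega) h6, h6.1⟩

lemma Tr.Z_pow_mem (ht : Tr F t) (j : ℕ) :
    (C (t ^ qq F) - X) ^ j ∈ Wb F t j (j * (qq F - 1)) := by
  induction j with
  | zero => simpa using one_mem_Wb
  | succ j ih =>
    have := ht.mul_Wb ih (ht.Z_mem le_rfl (by have := two_le_q (F := F); omega))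
    rwa [← pow_add, ← add_mul] at this

lemma Tr.QQ_self (ht : Tr F t) (hs : 1 ≤ s) : QQ F t s s = BB k (qq F) (s - 1) := by
  refine le_antisymm QQ_le ((ht.BB_le hs fun j hj => ⟨j, ?_, ht.Z_pow_mem j⟩).trans le_sup_right)
  have := Nat.mul_le_mul_left j (show 1 ≤ qq F - 1 by have := two_le_q (F := F); omega)
  omega

lemma Tr.QQ_two (ht : Tr F t) (hs : 1 ≤ s) (h : s < qq F ^ 2) :
    QQ F t 2 s = BB k (qq F) (s - 1) := by
  refine le_antisymm QQ_le ((ht.BB_le hs fun j hj => ⟨1, le_rfl, ?_⟩).trans le_sup_right)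
  rcases Nat.eq_zero_or_pos j with rfl | hj0
  · simpa using one_mem_Wb
  refine ht.Z_mem hj0 ?_
  by_contra h1
  obtain ⟨p, hp⟩ : ∃ p, qq F = p + 1 := ⟨qq F - 1, by have := two_le_q (F := F); omega⟩
  rw [hp] at h h1
  rw [hp, Nat.add_sub_cancel] at hj
  have := Nat.mul_le_mul_right p (show p + 2 ≤ j by omega)
  nlinarith

lemma Tr.sum_gg (ht : Tr F t) (hs : 1 ≤ s) (h : QQ F t r s = BB k (qq F) (s - 1)) :
    ∑ i ∈ range (r + 1), gg F t s i + (if (qq F - 1) ∣ s then 1 else 0) =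
      (s + qq F - 1) / qq F := by
  have h1 := ht.finrank_QQ (s := s) r
  have h2 := ht.finrank_ExV hs
  rw [h, finrank_BB] at h1
  obtain ⟨n, rfl⟩ := Nat.exists_eq_add_of_le' hs
  rw [Nat.succ_div] at h2
  rw [Nat.add_sub_cancel] at h1
  omega

lemma Tr.gg_one_of_dvd (ht : Tr F t) (hs : 1 ≤ s) (h : (qq F - 1) ∣ s) : gg F t s 1 = 0 := by
  refine gg_eq_zero fun u hu => Submodule.mem_sup_left ⟨hu.1, ?_⟩
  obtain ⟨a, ha⟩ := Submodule.mem_span_singleton.1 (Seq_one hu.2)
  obtain ⟨E, -, hE⟩ := ht.exists_E s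
  exact ⟨a • E, (ht.rel_iff hs).2 (by rw [map_smul, ← hE, rr_eq hs h, ← ha, map_smul])⟩

lemma Tr.gg_one (ht : Tr F t) (hs : 1 ≤ s)
    (h : ∀ b ∈ BB k (qq F) s, letK F t s b ≠ psum k (SS F t s)) : gg F t s 1 = 1 := by
  obtain ⟨H, h1, h2, -⟩ := ht.exists_H' hs
  have h3 : WW F t 1 s = Submodule.span k {H} := by
    refine le_antisymm (fun u hu => ?_) (by simpa using h1)
    obtain ⟨a, ha⟩ := Submodule.mem_span_singleton.1 (Seq_one hu.2)
    exact Submodule.mem_span_singleton.2 ⟨a, ht.letK_inj s (by rw [map_smul, ← h2, ha])⟩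
  rw [gg, h3, Submodule.map_span, Set.image_singleton, finrank_span_singleton]
  rw [Ne, Submodule.mkQ_apply, Submodule.Quotient.mk_eq_zero, ht.QQ_zero]
  rintro ⟨h4, b, hb⟩
  exact h b (hb.mem_of_e two_le_q (BB_mono (by omega) h4)) (by rw [(ht.rel_iff hs).1 hb, h2])

variable (F) in
/-- `k` is generated by `t` -/
def Gen (t : k) : Prop := ∀ x : k, ∃ d n : F[X], aeval t d ≠ 0 ∧ aeval t d * x = aeval t n

variable (F t) in
/-- evaluation of the coefficients at `t` -/
noncomputable abbrev mp (u : F[X][X]) : k[X] := u.map (aeval t : F[X] →ₐ[F] k).toRingHom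

omit [Fintype F] in
lemma Gen.clear (hg : Gen F t) (u : k[X]) : ∃ a : k, a ≠ 0 ∧ (∃ d : F[X], a = aeval t d) ∧
    a • u ∈ Set.range (mp F t) := by
  induction u using Polynomial.induction_on' with
  | add p p' hp hp' =>
    obtain ⟨_, h1, ⟨d, rfl⟩, v, hv⟩ := hp
    obtain ⟨_, h1', ⟨d', rfl⟩, v', hv'⟩ := hp'
    refine ⟨_, mul_ne_zero h1 h1', ⟨d * d', by simp⟩, C d' * v + C d * v', ?_⟩
    simp only [mp, Polynomial.map_add, Polynomial.map_mul, map_C] at hv hv' ⊢
    rw [hv, hv']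
    simp only [smul_eq_C_mul, C_mul, AlgHom.toRingHom_eq_coe, RingHom.coe_coe]
    ring
  | monomial n a =>
    obtain ⟨d, m, h1, h2⟩ := hg a
    exact ⟨_, h1, ⟨d, rfl⟩, monomial n m, by simp [mp, smul_monomial, h2]⟩

variable (F t) in
/-- a generating letter -/
structure Let where
  /-- weight -/
  wt : ℕ
  /-- depth -/
  dep : ℕ
  /-- index -/
  idx : ℕ
  lt : idx < gg F t wt dep

lemma Let.dep_le (l : Let F t) : l.dep ≤ l.wt := by
  by_contra h
  have := l.lt
  rw [gg_of_lt (by omega)] at this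
  omega

lemma Tr.one_le_dep (ht : Tr F t) (l : Let F t) : 1 ≤ l.dep := by
  by_contra h
  have := l.lt
  rw [show l.dep = 0 by omega, ht.gg_zero] at this
  omega

lemma Tr.one_le_wt (ht : Tr F t) (l : Let F t) : 1 ≤ l.wt := (ht.one_le_dep l).trans l.dep_le

variable (F t) in
/-- a system of adapted generators -/
structure Adapted (P : Let F t → F[X][X]) : Prop where
  mem : ∀ l, mp F t (P l) ∈ WW F t l.dep l.wt
  span : ∀ s r, WW F t r s ≤ ExV F t s ⊔
    Submodule.span k {x | ∃ l : Let F t, l.wt = s ∧ l.dep ≤ r ∧ x = mp F t (P l)}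
  indep : ∀ (s : ℕ) (A : Finset (Let F t)) (c : Let F t → k), (∀ l ∈ A, l.wt = s) →
    ∑ l ∈ A, c l • mp F t (P l) ∈ ExV F t s → ∀ l ∈ A, c l = 0

lemma Tr.exists_adapted (ht : Tr F t) (hg : Gen F t) : ∃ P, Adapted F t P := by
  classical
  have h := fun s r => exists_lifts (QQ F t (r - 1) s) (WW F t r s) (Set.range (mp F t))
    fun w => (hg.clear w).imp fun a ha => ⟨ha.1, ha.2.2⟩
  choose u hu hu1 hu2 using h
  choose v hv using fun s r i => (hu s r i).2
  have hm : ∀ l : Let F t, mp F t (v l.wt l.dep ⟨l.idx, l.lt⟩) ∈ WW F t l.dep l.wt := fun l => by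
    rw [hv]
    exact (hu _ _ _).1
  refine ⟨fun l => v l.wt l.dep ⟨l.idx, l.lt⟩, hm, fun s r => ?_, fun s => ?_⟩
  · induction r with
    | zero => rw [ht.WW_zero]; exact bot_le
    | succ r ih =>
      refine (hu1 s (r + 1)).trans (sup_le (sup_le le_sup_left (ih.trans (sup_le_sup_left
        (Submodule.span_mono ?_) _))) (le_sup_of_le_right (Submodule.span_mono ?_)))
      · rintro _ ⟨l, h1, h2, rfl⟩
        exact ⟨l, h1, by omega, rfl⟩
      · rintro _ ⟨i, rfl⟩
        exact ⟨⟨s, r + 1, i, i.2⟩, rfl, le_rfl, (hv _ _ _).symm⟩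
  · suffices H : ∀ (r : ℕ) (A : Finset (Let F t)) (c : Let F t → k),
        (∀ l ∈ A, l.wt = s ∧ l.dep ≤ r) →
        ∑ l ∈ A, c l • mp F t (v l.wt l.dep ⟨l.idx, l.lt⟩) ∈ ExV F t s → ∀ l ∈ A, c l = 0 from
      fun A c h1 h2 => H s A c (fun l hl => ⟨h1 l hl, h1 l hl ▸ l.dep_le⟩) h2
    intro r
    induction r with
    | zero => exact fun A c h1 _ l hl => absurd (ht.one_le_dep l) (by have := h1 l hl; omega)
    | succ r ih =>
      intro A c h1 h2
      rw [← sum_filter_add_sum_filter_not A fun l => l.dep ≤ r] at h2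
      have h3 : ∑ l ∈ A with l.dep ≤ r, c l • mp F t (v l.wt l.dep ⟨l.idx, l.lt⟩) ∈ QQ F t r s :=
        Submodule.sum_mem _ fun l hl => Submodule.smul_mem _ _ (Submodule.mem_sup_right
          (WW_mono (mem_filter.1 hl).2 ((h1 l (mem_filter.1 hl).1).1 ▸ hm l)))
      have h4 := (add_mem_cancel_left h3).1 (Submodule.mem_sup_left h2)
      let e : Fin (gg F t s (r + 1)) → Let F t := fun i => ⟨s, r + 1, i, i.2⟩
      have he : Function.Injective e := fun i j hij => Fin.ext (congrArg Let.idx hij)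
      have h5 : ∀ l ∈ A, ¬l.dep ≤ r → l ∈ Set.range e := by
        rintro ⟨a, b, i, hi⟩ hl h6
        obtain ⟨h7, h8⟩ := h1 _ hl
        dsimp only at h6 h7 h8
        obtain rfl : b = r + 1 := by omega
        subst h7
        exact ⟨⟨i, hi⟩, rfl⟩
      rw [← sum_preimage e _ he.injOn _ fun l hl h => absurd (h5 l (mem_filter.1 hl).1
        (mem_filter.1 hl).2) h] at h4
      have h6 := linearIndependent_iff'.1 (hu2 s (r + 1)) _ (fun i => c (e i)) (by
        rw [← Submodule.Quotient.mk_eq_zero, ← Submodule.mkQ_apply, map_sum] at h4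
        simp only [map_smul] at h4
        simp only [Function.comp_apply, ← hv]
        exact h4)
      have h7 : ∀ l ∈ A, ¬l.dep ≤ r → c l = 0 := fun l hl h => by
        obtain ⟨i, rfl⟩ := h5 l hl h
        exact h6 i (mem_preimage.2 (mem_filter.2 ⟨hl, h⟩))
      rw [sum_eq_zero (s := A.filter fun l => ¬l.dep ≤ r) fun l hl => by
        rw [h7 l (mem_filter.1 hl).1 (mem_filter.1 hl).2, zero_smul], add_zero] at h2
      intro l hl
      by_cases h : l.dep ≤ r
      · exact ih _ c (fun l hl => ⟨(h1 l (mem_filter.1 hl).1).1, (mem_filter.1 hl).2⟩) h2 l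
          (mem_filter.2 ⟨hl, h⟩)
      · exact h7 l hl h

end Pool.Agent.MP_cbe134_nt.FF
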