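import Pool.Agent.MP_cbe134_nt.FFExact

/-! Linear independence over `k[y]` of solutions of a triangular Frobenius system. -/

open Finset Polynomial

namespace Pool.Agent.MP_cbe134_nt.FF

variable {F k : Type*} [Field F] [Fintype F] [Field k] [Algebra F k] {t : k}
  {S M : Type*} [Fintype S] [AddCommGroup M] [Module k[X] M]

/-- combinations of the `T P` with `len P < n` -/
def Nlow (T : S → M) (len : S → ℕ) (n : ℕ) : Submodule k[X] M where
  carrier := {z | ∃ a : S → k[X], (∀ P, a P ≠ 0 → len P < n) ∧ z = ∑ P, a P • T P}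
  add_mem' := by
    rintro _ _ ⟨a, ha, rfl⟩ ⟨b, hb, rfl⟩
    refine ⟨a + b, fun P hP => ?_, by simp [add_smul, sum_add_distrib]⟩
    by_contra h
    exact hP (by simp [not_not.1 (mt (ha P) h), not_not.1 (mt (hb P) h)])
  zero_mem' := ⟨0, by simp, by simp⟩
  smul_mem' := by
    rintro c _ ⟨a, ha, rfl⟩
    exact ⟨c • a, fun P hP => ha P (right_ne_zero_of_mul hP), by simp [smul_sum, mul_smul]⟩

variable {T U : S → M} {len wt : S → ℕ} {m : S → S → k[X]}

lemma Nlow_mono {n n' : ℕ} (h : n ≤ n') : Nlow (k := k) T len n ≤ Nlow T len n' :=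
  fun _ ⟨a, ha, e⟩ => ⟨a, fun P hP => (ha P hP).trans_le h, e⟩

lemma mem_Nlow {n : ℕ} {P : S} (h : len P < n) : T P ∈ Nlow (k := k) T len n := by
  classical
  refine ⟨Pi.single P 1, fun P' hP => ?_, by simp [Pi.single_apply]⟩
  by_cases e : P' = P
  · rwa [e]
  · simp [e] at hP

lemma sum_mem_of_ne {N : Submodule k[X] M} {a : S → k[X]} {V : S → M}
    (h : ∀ P, a P ≠ 0 → V P ∈ N) : ∑ P, a P • V P ∈ N :=
  Submodule.sum_mem _ fun P _ => by
    by_cases e : a P = 0
    · simp [e]
    · exact N.smul_mem _ (h P e)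

/-- no relation at level `n` modulo lower levels -/
def Top (k : Type*) [Field k] [Module k[X] M] (T : S → M) (len : S → ℕ) (n : ℕ) : Prop :=
  ∀ β : S → k[X], (∀ P, β P ≠ 0 → len P = n) → ∑ P, β P • T P ∈ Nlow (k := k) T len n → β = 0

lemma ind_of_top {V : S → M} (hV : ∀ P, V P - T P ∈ Nlow (k := k) T len (len P)) (n : ℕ)
    (h : ∀ j < n, Top k T len j) (γ : S → k[X]) (h1 : ∀ P, γ P ≠ 0 → len P < n)
    (h2 : ∑ P, γ P • V P = 0) : γ = 0 := by
  induction n with
  | zero => exact funext fun P => not_not.1 fun hP => absurd (h1 P hP) (by omega)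
  | succ n ih =>
    refine ih (fun j hj => h j (by omega)) fun P hP => ?_
    have h3 := h n (by omega) (fun P => if len P = n then γ P else 0)
      (fun P hP => by_contra fun e => hP (if_neg e)) (by
        have e : ∑ P, (if len P = n then γ P else 0) • T P =
            ∑ P, γ P • V P - ∑ P, γ P • (if len P = n then V P - T P else V P) := by
          rw [← sum_sub_distrib]
          exact sum_congr rfl fun P _ => by split_ifs <;> simp [smul_sub]
        rw [e, h2, zero_sub]
        refine neg_mem (sum_mem_of_ne fun P hP => ?_)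
        have := h1 P hP
        split_ifs with e
        · exact e ▸ hV P
        · simpa using add_mem (Nlow_mono (show len P ≤ n by omega) (hV P))
            (mem_Nlow (show len P < n by omega)))
    have h4 := congrFun h3 P
    have := h1 P hP
    by_contra e
    exact hP (by simpa [show len P = n by omega] using h4)

theorem Tr.func_indep (ht : Tr F t) [NoZeroSMulDivisors k[X] M] (σ : M →+ M)
    (hσ : ∀ (r : k[X]) z, σ (r • z) = expand k (qq F) r • σ z)
    (hT : ∀ P, T P = U P + ∑ P', m P P' • U P')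
    (hσT : ∀ P, σ (T P) = (C t - X) ^ wt P • U P)
    (hm : ∀ P P', m P P' ≠ 0 → len P = len P' + 1)
    (hr : ∀ P P', len P = 0 → len P' = 0 → wt P = wt P' → P = P')
    (h0 : ∀ P, len P = 0 → T P ≠ 0)
    (hex : ∀ (n w : ℕ) (c : S → k), (∀ P, c P ≠ 0 → len P = n + 1 ∧ wt P = w) →
      (∀ P' s, wt P' + s = w → ∃ b, Rel (qq F) t s b (∑ P, C (c P) * m P P')) → c = 0)
    (β : S → k[X]) (hβ : ∑ P, β P • T P = 0) : β = 0 := by
  classical
  have hq := two_le_q (F := F)
  have hU : ∀ n P, len P = n → U P - T P ∈ Nlow (k := k) T len (len P) := by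
    intro n
    induction n using Nat.strong_induction_on with
    | _ n ih =>
      intro P hP
      rw [hT P, sub_add_cancel_left]
      refine neg_mem (sum_mem_of_ne fun P' h => ?_)
      have := hm P P' h
      simpa using add_mem (Nlow_mono (show len P' ≤ len P by omega) (ih _ (by omega) P' rfl))
        (mem_Nlow (show len P' < len P by omega))
  replace hU := fun P => hU _ P rfl
  have hσs : ∀ a : S → k[X], σ (∑ P, a P • T P) =
      ∑ P, (expand k (qq F) (a P) * (C t - X) ^ wt P) • U P := fun a => by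
    simp only [map_sum, hσ, hσT, mul_smul]
  have hne : ∀ {a b : k[X]}, expand k (qq F) a * b ≠ 0 → a ≠ 0 := fun h e => h (by simp [e])
  have hσN : ∀ n, ∀ z ∈ Nlow (k := k) T len n, σ z ∈ Nlow (k := k) T len n := by
    rintro n _ ⟨a, ha, rfl⟩
    rw [hσs]
    refine sum_mem_of_ne fun P h => ?_
    have := ha P (hne h)
    simpa using add_mem (Nlow_mono this.le (hU P)) (mem_Nlow this)
  have hTs : ∀ a : S → k[X], ∑ P, a P • T P = ∑ P', (a P' + ∑ P, a P * m P P') • U P' := by
    intro a
    simp only [hT, smul_add, add_smul, sum_add_distrib, smul_sum, sum_smul, mul_smul]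
    rw [sum_comm]
  suffices H : ∀ n, Top k T len n from ind_of_top (by simp) (univ.sup len + 1) (fun j _ => H j) β
    (fun P _ => Nat.lt_succ_of_le (le_sup (mem_univ P))) hβ
  clear hβ β
  intro n
  induction n using Nat.strong_induction_on with
  | _ n ihn =>
  intro β
  induction hN : (univ.filter fun P => β P ≠ 0).card using Nat.strong_induction_on
    generalizing β with
  | _ N ih =>
  intro h1 h2
  by_contra hβ
  obtain ⟨P₀, hP₀, hmax⟩ := exists_max_image (univ.filter fun P => β P ≠ 0) wt (by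
    obtain ⟨P, hP⟩ := Function.ne_iff.1 hβ
    exact ⟨P, by simpa using hP⟩)
  have hf : β P₀ ≠ 0 := by simpa using hP₀
  have h3 := ih _ ?_ (fun P => β P₀ * (expand k (qq F) (β P) * (C t - X) ^ wt P) -
      expand k (qq F) (β P₀) * (C t - X) ^ wt P₀ * β P) rfl
      (fun P hP => h1 P fun e => hP (by simp [e])) ?_
  rotate_left
  · rw [← hN]
    refine card_lt_card ⟨fun P hP => ?_, fun h => ?_⟩
    · simp only [mem_filter, mem_univ, true_and] at hP ⊢
      exact fun e => hP (by simp [e])
    · have := h hP₀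
      simp only [mem_filter, mem_univ, true_and] at this
      exact this (by ring)
  · simp only [sub_smul, sum_sub_distrib, mul_smul (β P₀), mul_smul (_ * _) (β _), ← smul_sum]
    refine sub_mem (Submodule.smul_mem _ _ ?_) (Submodule.smul_mem _ _ h2)
    have := hσN n _ h2
    rw [hσs] at this
    have h4 := sub_mem this (sum_mem_of_ne
      (a := fun P => expand k (qq F) (β P) * (C t - X) ^ wt P) (V := fun P => U P - T P)
      fun P hP => h1 P (hne hP) ▸ hU P)
    simpa only [smul_sub, sum_sub_distrib, sub_sub_cancel] using h4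
  have h4 : ∀ P, ∃ c : k, β P = C c * β P₀ ∧ (c ≠ 0 → len P = n ∧ wt P = wt P₀) := by
    intro P
    by_cases e : β P = 0
    · exact ⟨0, by simp [e], by simp⟩
    obtain ⟨j, hj⟩ := Nat.exists_eq_add_of_le (hmax P (by simpa using e))
    have h5 := congrFun h3 P
    obtain ⟨b, hb, hb'⟩ := rel_of_frac (t := t) (s := j) (g := β P) (e := 0) hq hf
      (mul_left_cancel₀ (pow_ne_zero (wt P) (Y_ne t)) (by
        simp only [hj, pow_add, Pi.zero_apply] at h5
        linear_combination h5))
    have hb0 : b ≠ 0 := fun e' => e (by simp [hb, e'])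
    obtain rfl : j = 0 := by
      by_contra hj0
      exact hb0 (ht.rel_zero (by omega) hb')
    have h6 := hb'.deg hq hb0
    rw [add_zero, zero_add] at h6
    obtain ⟨c, rfl⟩ := natDegree_eq_zero.1 (show b.natDegree = 0 by nlinarith)
    exact ⟨c, hb, fun _ => ⟨h1 P e, hj.symm⟩⟩
  choose c hc hc' using h4
  have hc0 : c P₀ ≠ 0 := fun e => hf (by rw [hc P₀, e, C_0, zero_mul])
  obtain ⟨a, ha, h5⟩ := h2
  rcases n with _ | n
  · rw [sum_eq_zero (s := univ) (f := fun P => a P • T P) fun P _ => by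
      rw [not_not.1 fun h => absurd (ha P h) (by omega), zero_smul], sum_eq_single P₀] at h5
    · exact h0 P₀ (h1 P₀ hf) ((smul_eq_zero.1 h5).resolve_left hf)
    · intro P _ hP
      have : c P = 0 := by_contra fun e => hP (hr _ _ (hc' P e).1 (h1 P₀ hf) (hc' P e).2)
      rw [hc P, this, C_0, zero_mul, zero_smul]
    · simp
  refine hc0 (congrFun (hex n (wt P₀) c hc' fun P' s hs => ?_) P₀)
  have he : ∀ P', len P' ≠ n → ∑ P, C (c P) * m P P' = 0 := fun P' e =>
    sum_eq_zero fun P _ => by
      by_contra h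
      have h6 := hm P P' (right_ne_zero_of_mul h)
      have h7 := (hc' P (C_ne_zero.1 (left_ne_zero_of_mul h))).1
      omega
  have ha' : ∀ P', n ≤ len P' → ∑ P, a P * m P P' = 0 := fun P' e =>
    sum_eq_zero fun P _ => by
      by_contra h
      have h6 := hm P P' (right_ne_zero_of_mul h)
      have h7 := ha P (left_ne_zero_of_mul h)
      omega
  by_cases e : len P' = n
  swap
  · exact ⟨0, by simp [he P' e, Rel]⟩
  have h6 := congrArg σ h5
  rw [hσs, hσs] at h6
  rw [hTs, hTs] at h5
  have h7 := ind_of_top hU (n + 1) ihn (fun P' => expand k (qq F) (β P₀) * (C t - X) ^ wt P₀ *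
      (a P' + ∑ P, a P * m P P') - β P₀ * (expand k (qq F) (a P') * (C t - X) ^ wt P') -
      expand k (qq F) (β P₀) * (C t - X) ^ wt P₀ * β P₀ * ∑ P, C (c P) * m P P') ?_ ?_
  · have h8 := congrFun h7 P'
    obtain ⟨b, -, hb⟩ := rel_of_frac (t := t) (s := s) (g := -a P')
      (e := ∑ P, C (c P) * m P P') hq hf (mul_left_cancel₀ (pow_ne_zero (wt P') (Y_ne t)) (by
        simp only [← hs, pow_add, Pi.zero_apply, ha' P' e.ge, map_neg] at h8 ⊢
        linear_combination h8))
    exact ⟨b, hb⟩
  · intro P hP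
    by_contra h
    refine hP ?_
    simp [not_not.1 (mt (ha P) h), ha' P (by omega), he P (by omega)]
  · have h8 : ∀ P', (expand k (qq F) (β P₀) * (C t - X) ^ wt P₀ * β P₀ * ∑ P, C (c P) * m P P') =
        expand k (qq F) (β P₀) * (C t - X) ^ wt P₀ * (β P' + ∑ P, β P * m P P') -
          β P₀ * (expand k (qq F) (β P') * (C t - X) ^ wt P') := fun P' => by
      have h9 := congrFun h3 P'
      have h10 : ∑ P, β P * m P P' = β P₀ * ∑ P, C (c P) * m P P' := by
        rw [mul_sum]
        exact sum_congr rfl fun P _ => by rw [hc P]; ring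
      simp only [Pi.zero_apply] at h9
      rw [h10]
      linear_combination h9
    simp only [h8, sub_smul, sum_sub_distrib, mul_smul (β P₀), mul_smul (_ * _) (_ + _),
      ← smul_sum, h5, h6, sub_self]

theorem Tr.func_indep' (ht : Tr F t) {E : Type*} [Field E] (φ : k[X] →+* E)
    (hφ : ∀ r, φ r = 0 → r = 0) (σ : E →+* E) (hσ : ∀ r, σ (φ r) = φ (expand k (qq F) r))
    {T U : S → E} (hT : ∀ P, T P = U P + ∑ P', φ (m P P') * U P')
    (hσT : ∀ P, σ (T P) = φ ((C t - X) ^ wt P) * U P)
    (hm : ∀ P P', m P P' ≠ 0 → len P = len P' + 1)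
    (hr : ∀ P P', len P = 0 → len P' = 0 → wt P = wt P' → P = P')
    (h0 : ∀ P, len P = 0 → T P ≠ 0)
    (hex : ∀ (n w : ℕ) (c : S → k), (∀ P, c P ≠ 0 → len P = n + 1 ∧ wt P = w) →
      (∀ P' s, wt P' + s = w → ∃ b, Rel (qq F) t s b (∑ P, C (c P) * m P P')) → c = 0)
    (β : S → k[X]) (hβ : ∑ P, φ (β P) * T P = 0) : β = 0 := by
  let _ : Module k[X] E := Module.compHom _ φ
  have hs : ∀ (r : k[X]) (z : E), r • z = φ r * z := fun _ _ => rfl
  have : NoZeroSMulDivisors k[X] E :=
    ⟨fun {r z} h => (mul_eq_zero.1 ((hs r z).symm.trans h)).imp_left (hφ r)⟩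
  exact ht.func_indep σ.toAddMonoidHom (fun r z => by simp [hs, hσ]) hT hσT hm hr h0 hex β hβ

end Pool.Agent.MP_cbe134_nt.FF
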