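import Pool.Agent.MP_cbe134_nt.FFLetters

/-! Reduction of multiple power sums to words in the generators. -/

open Finset Polynomial Module

namespace Pool.Agent.MP_cbe134_nt.FF

variable {F k : Type*} [Field F] [Fintype F] [Field k] [Algebra F k] {t : k}
  {P : Let F t → F[X][X]}

/-- weight of a word -/
def wtL (L : List (Let F t)) : ℕ := (L.map Let.wt).sum

/-- depth of a word -/
def depL (L : List (Let F t)) : ℕ := (L.map Let.dep).sum

/-- the sequence of a generating letter -/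
noncomputable def la (P : Let F t → F[X][X]) (l : Let F t) : ℕ → k := letK F t l.wt (mp F t (P l))

lemma Tr.word_mem (ht : Tr F t) (hP : Adapted F t P) (L : List (Let F t)) :
    Wlt (la P) L ∈ Slt F t (wtL L) (depL L) := by
  induction L with
  | nil => exact one_mem_Slt
  | cons l L ih => exact psum_mem (ht.mul_eq_lt (hP.mem l).2 ih)

/-- the span of boundary terms times words -/
noncomputable def Rlt (P : Let F t → F[X][X]) (w r : ℕ) : Submodule k (ℕ → k) := Submodule.span k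
  {x | ∃ (s ρ : ℕ) (b : k[X]) (L : List (Let F t)), b ∈ Wb F t ρ s ∧ s + wtL L = w ∧
    ρ + depL L ≤ r ∧ x = letK F t s b * Wlt (la P) L}

lemma Rlt_mono {w r r' : ℕ} (h : r ≤ r') : Rlt P w r ≤ Rlt P w r' :=
  Submodule.span_mono fun _ ⟨s, ρ, b, L, h1, h2, h3, h4⟩ => ⟨s, ρ, b, L, h1, h2, h3.trans h, h4⟩

lemma Tr.psum_mem_Rlt (ht : Tr F t) (hP : Adapted F t P) (L : List (Let F t)) :
    ∀ (s ρ : ℕ) (u : k[X]), 1 ≤ s → u ∈ WW F t ρ s →
      psum k (letK F t s u * Wlt (la P) L) ∈ Rlt P (s + wtL L) (ρ + depL L) := by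
  have key : ∀ L : List (Let F t), (∀ (s ρ : ℕ) (e b : k[X]), 1 ≤ s → e ∈ WW F t ρ s →
      b ∈ Wb F t ρ s → letK F t s b = psum k (letK F t s e) →
        psum k (letK F t s e * Wlt (la P) L) ∈ Rlt P (s + wtL L) (ρ + depL L)) →
      ∀ (s ρ : ℕ) (u : k[X]), 1 ≤ s → u ∈ WW F t ρ s →
        psum k (letK F t s u * Wlt (la P) L) ∈ Rlt P (s + wtL L) (ρ + depL L) := by
    intro L h s ρ u hs hu
    obtain ⟨e, ⟨he, b, hb⟩, v, hv, rfl⟩ := Submodule.mem_sup.1 (hP.span s ρ hu)
    have h1 : v ∈ WW F t ρ s := by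
      refine (Submodule.span_le.2 ?_) hv
      rintro _ ⟨l, rfl, h2, rfl⟩
      exact WW_mono h2 (hP.mem l)
    have h2 : e ∈ WW F t ρ s := (add_mem_cancel_right h1).1 hu
    have h3 := (ht.rel_iff hs).1 hb
    rw [map_add, add_mul, map_add]
    refine add_mem (h s ρ e b hs h2 ⟨hb.mem_of_e two_le_q (BB_mono (by omega) he), ?_⟩ h3) ?_
    · rw [SetLike.mem_coe, Submodule.mem_comap, h3]
      exact psum_mem h2.2
    · refine (Submodule.span_le (p := (Rlt P (s + wtL L) (ρ + depL L)).comap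
        (psum k ∘ₗ LinearMap.mulRight k (Wlt (la P) L) ∘ₗ letK F t s))).2 ?_ hv
      rintro _ ⟨l, rfl, h4, rfl⟩
      refine Submodule.subset_span ⟨0, 0, 1, l :: L, one_mem_Wb, by simp [wtL], ?_, ?_⟩
      · simp only [depL, List.map_cons, List.sum_cons]
        omega
      · rw [lett_one, one_mul]
        rfl
  induction L with
  | nil =>
    refine key _ fun s ρ e b _ _ hb h => ?_
    rw [Wlt_nil, mul_one, ← h]
    exact Submodule.subset_span ⟨s, ρ, b, [], hb, rfl, le_rfl, by rw [Wlt_nil, mul_one]⟩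
  | cons l L ih =>
    refine key _ fun s ρ e b hs he hb h => ?_
    have h1 := psum_mul_psum (letK F t s e) (la P l * Wlt (la P) L)
    rw [← h, ← Wlt_cons, ← map_add (letK F t s), ← mul_assoc, la, lett_mul, ← sub_eq_iff_eq_add] at h1
    rw [← h1]
    refine sub_mem (Submodule.subset_span ⟨s, ρ, b, l :: L, hb, rfl, le_rfl, rfl⟩) ?_
    have h2 := ht.mul_WW_Wb (ht.one_le_wt l) (hP.mem l) hb
    rw [mul_comm, add_comm l.dep, add_comm l.wt] at h2
    have h3 := ih _ _ _ (by omega) (add_mem h2 (ht.mul_WW_WW he (hP.mem l)))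
    rw [← add_mul, add_assoc, add_assoc] at h3
    exact h3

lemma Tr.Slt_le (ht : Tr F t) (hP : Adapted F t P) (w r : ℕ) : Slt F t w r ≤ Rlt P w r := by
  refine Submodule.span_le.2 ?_
  rintro _ ⟨s, h1, rfl, h2, rfl⟩
  refine Rlt_mono h2 ?_
  clear h2
  induction s with
  | nil => exact Submodule.subset_span ⟨0, 0, 1, [], one_mem_Wb, rfl, le_rfl, by
      rw [lett_one, one_mul]; rfl⟩
  | cons a s ih =>
    have ha := h1 a (by simp)
    refine (Submodule.span_le (p := (Rlt P (a :: s).sum (a :: s).length).comap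
      (psum k ∘ₗ LinearMap.mulLeft k (SS F t a)))).2 ?_ (ih fun b hb => h1 b (by simp [hb]))
    rintro _ ⟨s', ρ, b, L, h2, h3, h4, rfl⟩
    obtain ⟨H, h5, h6, -⟩ := ht.exists_H' ha
    have h7 := ht.psum_mem_Rlt hP L _ _ _ (by omega) (ht.mul_WW_Wb ha h5 h2)
    rw [← lett_mul, ← h6, mul_assoc, add_assoc, h3] at h7
    exact Rlt_mono (by simp only [List.length_cons]; omega) h7

end Pool.Agent.MP_cbe134_nt.FF
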