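import Pool.Agent.MP_cbe134_nt.FFAnal
import Pool.Agent.MP_cbe134_nt.FFFunc
import Pool.Agent.MP_cbe134_nt.FFReduce

/-! Linear independence of the generating functions. -/

open Finset Polynomial WithZero Filter Topology

namespace Pool.Agent.MP_cbe134_nt.FF

section trans

variable {ι R R' : Type*} [Semiring R] [Semiring R']

open Classical in
/-- the transition matrix -/
noncomputable def mS (u : ι → R[X]) (A B : ℕ × List ι) : R[X] :=
  A.2.getLast?.elim 0 fun l => if B = (A.1, A.2.dropLast) then u l else 0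

lemma mS_root (u : ι → R[X]) (j : ℕ) (B : ℕ × List ι) : mS u (j, []) B = 0 := by simp [mS]

open Classical in
lemma mS_concat (u : ι → R[X]) (j : ℕ) (L : List ι) (l : ι) (B : ℕ × List ι) :
    mS u (j, L ++ [l]) B = if B = (j, L) then u l else 0 := by simp [mS]

lemma mS_map (f : R →+* R') (u : ι → R[X]) (A B : ℕ × List ι) :
    (mS u A B).map f = mS (fun l => (u l).map f) A B := by
  obtain ⟨j, L⟩ := A
  rcases L.eq_nil_or_concat' with rfl | ⟨L, l, rfl⟩
  · simp [mS_root]
  · rw [mS_concat, mS_concat]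
    split_ifs <;> simp

lemma mS_ne {u : ι → R[X]} {A B : ℕ × List ι} (h : mS u A B ≠ 0) : ∃ l, A = (B.1, B.2 ++ [l]) := by
  obtain ⟨j, L⟩ := A
  rcases L.eq_nil_or_concat' with rfl | ⟨L, l, rfl⟩
  · exact absurd (mS_root _ _ _) h
  · rw [mS_concat] at h
    obtain rfl : B = (j, L) := by_contra fun e => h (if_neg e)
    exact ⟨l, rfl⟩

lemma wtS_concat (q : ℕ) (s : ι → ℕ) (j : ℕ) (L : List ι) (l : ι) :
    wtS q s (j, L ++ [l]) = wtS q s (j, L) + s l := by simp [wtS, add_assoc]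

end trans

lemma Pt.lim_eq {E ι : Type*} [Field E] {q N : ℕ} {t y : LaurentSeries E} {s : ι → ℕ}
    {u : ι → (LaurentSeries E)[X]} {δ : ι → ℕ} (h : Pt q t y N)
    (hu : ∀ l i, O ((u l).coeff i) (δ l)) (hs : ∀ l, (q - 1) * (u l).natDegree + 1 ≤ s l)
    {T : Finset (ℕ × List ι)} (hT : ∀ j L l, (j, L ++ [l]) ∈ T → (j, L) ∈ T) (A : T) :
    lim (xs q t y s u A) = (t - y)⁻¹ ^ wtS q s A * lim (xs q t (y ^ q) s u A) +
      ∑ B : T, (mS u A B).eval y * ((t - y)⁻¹ ^ wtS q s B * lim (xs q t (y ^ q) s u B)) := by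
  obtain ⟨⟨j, L⟩, hA⟩ := A
  rcases L.eq_nil_or_concat' with rfl | ⟨L, l, rfl⟩
  · simp only [mS_root, eval_zero, zero_mul, sum_const_zero, add_zero]
    exact h.lim_root hu hs j
  · rw [h.lim_concat hu hs, sum_eq_single ⟨(j, L), hT _ _ _ hA⟩, mS_concat, if_pos rfl]
    · intro B _ hB
      rw [mS_concat, if_neg fun e => hB (Subtype.ext e), eval_zero, zero_mul]
    · simp

section sigma

variable {k : Type*} [Field k]

lemma algebraMap_eq_C (c : k) : algebraMap k (LaurentSeries k) c = HahnSeries.C c := by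
  rw [HahnSeries.algebraMap_apply', PowerSeries.algebraMap_apply, HahnSeries.ofPowerSeries_C]
  simp

variable (k) in
/-- the substitution `y ↦ y ^ q` -/
noncomputable def sig {q : ℕ} (hq : 2 ≤ q) : LaurentSeries k →+* LaurentSeries k :=
  HahnSeries.embDomainRingHom (AddMonoidHom.mulLeft (q : ℤ))
    (mul_right_injective₀ (by omega)) fun _ _ => mul_le_mul_iff_right₀ (by omega)

variable {q : ℕ} (hq : 2 ≤ q)

lemma sig_theta : sig k hq (theta k) = theta k ^ q := by
  rw [theta, HahnSeries.single_pow]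
  exact HahnSeries.embDomain_single.trans (by simp)

lemma sig_C (c : k) : sig k hq (algebraMap k _ c) = algebraMap k _ c := by
  rw [algebraMap_eq_C]
  exact HahnSeries.embDomainRingHom_C

lemma O_sig {z : LaurentSeries k} {a : ℤ} (h : O z a) : O (sig k hq z) (q * a) := by
  rw [O_iff] at *
  intro n hn
  refine HahnSeries.embDomain_notin_image_support ?_
  rintro ⟨m, hm, rfl⟩
  refine hm (h m ?_)
  change (q : ℤ) * m < _ at hn
  by_contra h1
  nlinarith

lemma sig_aeval (r : k[X]) : sig k hq (aeval (theta k) r) = aeval (theta k) (expand k q r) := by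
  rw [expand_aeval, aeval_def, hom_eval₂, sig_theta, aeval_def]
  congr 1
  exact RingHom.ext (sig_C hq)

lemma exists_O_bound {S : Type*} [Fintype S] (T : S → LaurentSeries k)
    (h : ∀ β : S → k[X], ∑ P, aeval (theta k) (β P) * T P = 0 → β = 0) (c : ℕ) :
    ∃ a : ℕ, ∀ β : S → k[X], (∀ P, (β P).natDegree ≤ c) →
      O (∑ P, aeval (theta k) (β P) * T P) (-a) → β = 0 := by
  have : FiniteDimensional k (degreeLT k (c + 1)) := Module.Finite.of_basis (degreeLT.basis k _)
  let N : ℕ → Submodule k (S → degreeLT k (c + 1)) := fun a =>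
    { carrier := {β | O (∑ P, aeval (theta k) (β P).1 * T P) (-a)}
      add_mem' := fun h1 h2 => by simpa [add_mul, sum_add_distrib] using O.add h1 h2
      zero_mem' := by simpa using O_zero _
      smul_mem' := fun r β h1 => by
        simpa [Algebra.smul_def, mul_sum, mul_assoc] using (O_algebraMap r).mul h1 }
  obtain ⟨a, ha⟩ := IsArtinian.monotone_stabilizes
    (⟨fun a => OrderDual.toDual (N a), fun a b hab β hβ => O.mono hβ (by omega)⟩ :
      ℕ →o (Submodule k (S → degreeLT k (c + 1)))ᵒᵈ)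
  refine ⟨a, fun β h1 h2 => h β (eq_zero_of_O fun b => ?_)⟩
  have h3 : (fun P => ⟨β P, by
      rw [degreeLT_succ_eq_degreeLE, mem_degreeLE]
      exact natDegree_le_iff_degree_le.1 (h1 P)⟩) ∈ N a := h2
  have h4 : N a = N (a + b.natAbs) := ha _ (by omega)
  rw [h4] at h3
  exact O.mono h3 (by omega)

end sigma

variable {F k : Type*} [Field F] [Fintype F] [Field k] [Algebra F k] {t : k}
  {P : Let F t → F[X][X]}

lemma finite_Let (w : ℕ) : {l : Let F t | l.wt ≤ w}.Finite := by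
  refine Set.Finite.of_finite_image (f := fun l => (⟨(l.wt, l.dep), l.idx⟩ : Σ _ : ℕ × ℕ, ℕ))
    (((range (w + 1) ×ˢ range (w + 1)).sigma fun p => range (gg F t p.1 p.2)).finite_toSet.subset
      ?_) ?_
  · rintro _ ⟨l, hl, rfl⟩
    have := l.dep_le
    have h1 : l.wt ≤ w := hl
    simp only [coe_sigma, coe_product, coe_range, Set.mem_sigma_iff, Set.mem_prod, Set.mem_Iio]
    exact ⟨⟨by omega, by omega⟩, l.lt⟩
  · rintro ⟨a, b, c, _⟩ _ ⟨a', b', c', _⟩ _ h
    simp only [Sigma.mk.injEq, Prod.mk.injEq, heq_eq_eq] at h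
    obtain ⟨⟨rfl, rfl⟩, rfl⟩ := h
    rfl

lemma Tr.finite_words (ht : Tr F t) (w : ℕ) : {L : List (Let F t) | wtL L ≤ w}.Finite := by
  induction w with
  | zero =>
    refine (Set.finite_singleton []).subset ?_
    rintro (_ | ⟨l, L⟩) h
    · rfl
    · have := ht.one_le_wt l
      simp [wtL] at h
      omega
  | succ w ih =>
    refine (((finite_Let (w + 1)).image2 List.cons ih).insert []).subset ?_
    rintro (_ | ⟨l, L⟩) h
    · simp
    · have := ht.one_le_wt l
      simp only [wtL, List.map_cons, List.sum_cons, Set.mem_ofPred_eq] at h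
      exact Or.inr ⟨l, by simp only [Set.mem_ofPred_eq]; omega, L, by
        simp only [Set.mem_ofPred_eq, wtL]; omega, rfl⟩

lemma Tr.finite_states (ht : Tr F t) (w : ℕ) :
    {A : ℕ × List (Let F t) | wtS (qq F) Let.wt A ≤ w}.Finite := by
  refine ((Set.finite_Iic w).prod (ht.finite_words w)).subset ?_
  rintro ⟨j, L⟩ h
  have := Nat.mul_le_mul_left j (show 1 ≤ qq F - 1 by have := two_le_q (F := F); omega)
  simp only [wtS, Set.mem_ofPred_eq] at h
  exact ⟨by simp only [Set.mem_Iic]; omega, by simp only [Set.mem_ofPred_eq, wtL]; omega⟩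

/-- the states of weight at most `w` -/
noncomputable def Tr.St (ht : Tr F t) (w : ℕ) : Finset (ℕ × List (Let F t)) :=
  (ht.finite_states w).toFinset

lemma Tr.mem_St (ht : Tr F t) {w : ℕ} {A : ℕ × List (Let F t)} :
    A ∈ ht.St w ↔ wtS (qq F) Let.wt A ≤ w := by simp [Tr.St]

lemma Tr.St_closed (ht : Tr F t) (w j : ℕ) (L : List (Let F t)) (l : Let F t)
    (h : (j, L ++ [l]) ∈ ht.St w) : (j, L) ∈ ht.St w := by
  rw [ht.mem_St] at *
  rw [wtS_concat] at h
  omega

lemma Tr.hex (ht : Tr F t) (hP : Adapted F t P) (w n w₀ : ℕ) (c : ht.St w → k)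
    (h1 : ∀ A, c A ≠ 0 → A.1.2.length = n + 1 ∧ wtS (qq F) Let.wt A.1 = w₀)
    (h2 : ∀ (B : ht.St w) s, wtS (qq F) Let.wt B.1 + s = w₀ →
      ∃ b, Rel (qq F) t s b (∑ A, C (c A) * mS (fun l => mp F t (P l)) A.1 B.1)) : c = 0 := by
  classical
  ext ⟨⟨j, L⟩, hA⟩
  by_contra hc
  obtain ⟨h3, h4⟩ := h1 _ hc
  rcases L.eq_nil_or_concat' with rfl | ⟨L, l, rfl⟩
  · simp at h3
  rw [wtS_concat] at h4
  obtain ⟨b, hb⟩ := h2 ⟨(j, L), ht.St_closed _ _ _ _ hA⟩ l.wt h4
  let c' : ℕ × List (Let F t) → k := fun A => if h : A ∈ ht.St w then c ⟨A, h⟩ else 0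
  have hc' : ∀ A : ht.St w, c A = c' A := fun A => by simp [c']
  let T := (finite_Let (F := F) (t := t) l.wt).toFinset.filter fun l' => l'.wt = l.wt
  have hT : ∀ l', l' ∈ T ↔ l'.wt = l.wt := fun l' => by
    simp only [T, mem_filter, Set.Finite.mem_toFinset, Set.mem_ofPred_eq]
    omega
  have e : ∑ l' ∈ T, c' (j, L ++ [l']) • mp F t (P l') =
      ∑ A : ht.St w, C (c A) * mS (fun l => mp F t (P l)) A.1 (j, L) := by
    simp only [hc']
    rw [sum_coe_sort (ht.St w) fun A => C (c' A) * mS (fun l => mp F t (P l)) A (j, L)]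
    refine sum_of_injOn (fun l' => (j, L ++ [l'])) (fun a _ b _ h => by simpa using h)
      (fun l' hl' => ?_) (fun A hA' h => ?_) fun l' _ => ?_
    · rw [ht.mem_St, wtS_concat] at hA
      rwa [mem_coe, ht.mem_St, wtS_concat, (hT l').1 hl']
    · by_contra h5
      obtain ⟨l', rfl⟩ := mS_ne (right_ne_zero_of_mul h5)
      have h6 := (h1 ⟨_, hA'⟩ (by rw [hc']; exact C_ne_zero.1 (left_ne_zero_of_mul h5))).2
      rw [wtS_concat] at h6
      exact h ⟨l', (hT l').2 (by dsimp only at h6; omega), rfl⟩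
    · rw [mS_concat, if_pos rfl, smul_eq_C_mul]
  refine hc ((hc' _).trans (hP.indep l.wt T (fun l' => c' (j, L ++ [l'])) (fun l' => (hT l').1)
    ⟨Submodule.sum_mem _ fun l' hl' => Submodule.smul_mem _ _ ?_, b, e ▸ hb⟩ l ((hT l).2 rfl)))
  rw [← (hT l').1 hl']
  exact (hP.mem l').1

lemma Tr.deg_pol (ht : Tr F t) (hP : Adapted F t P) (l : Let F t) :
    (qq F - 1) * (P l).natDegree + 1 ≤ l.wt := by
  have h1 := (mem_BB two_le_q).1 (hP.mem l).1
  have h2 := ht.one_le_wt l
  rw [natDegree_map_eq_of_injective (f := (aeval t : F[X] →ₐ[F] k).toRingHom) ht] at h1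
  omega

lemma pt_formal (t : k) : Pt (qq F) (algebraMap k (LaurentSeries k) t) (theta k) 1 := by
  refine ⟨two_le_q, le_rfl, v_theta, O_algebraMap t, ?_, fun a b => ?_⟩
  · rw [← map_pow]
    exact (O_algebraMap _).mono (by simp)
  · let _ := ((algebraMap k (LaurentSeries k)).comp (algebraMap F k)).toAlgebra
    exact sub_pow_q a b

/-- the letters with coefficients in `k((1/y))` -/
noncomputable def uF (P : Let F t → F[X][X]) (l : Let F t) : (LaurentSeries k)[X] :=
  (mp F t (P l)).map (algebraMap k _)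

lemma O_uF (l : Let F t) (i : ℕ) : O ((uF P l).coeff i) ((0 : ℕ) : ℤ) := by
  rw [uF, coeff_map]
  exact O_algebraMap _

lemma Tr.deg_uF (ht : Tr F t) (hP : Adapted F t P) (l : Let F t) :
    (qq F - 1) * (uF P l).natDegree + 1 ≤ l.wt :=
  (Nat.succ_le_succ (Nat.mul_le_mul_left _ (natDegree_map_le.trans natDegree_map_le))).trans
    (ht.deg_pol hP l)

/-- the generating functions -/
noncomputable def TF (P : Let F t → F[X][X]) (A : ℕ × List (Let F t)) : LaurentSeries k :=
  lim (xs (qq F) (algebraMap k _ t) (theta k) Let.wt (uF P) A)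

lemma Tr.sig_TF (ht : Tr F t) (hP : Adapted F t P) (A : ℕ × List (Let F t)) :
    sig k (two_le_q (F := F)) (TF P A) =
      lim (xs (qq F) (algebraMap k _ t) (theta k ^ qq F) Let.wt (uF P) A) := by
  have h := pt_formal (F := F) t
  have hq := two_le_q (F := F)
  refine sub_eq_zero.1 (eq_zero_of_O fun a => ?_)
  obtain ⟨m, hm⟩ : ∃ m : ℕ, kap (qq F) Let.wt (fun _ => 0) A - m ≤ min a 0 :=
    ⟨(kap (qq F) Let.wt (fun _ => 0) A).natAbs + a.natAbs, by omega⟩
  have h1 := O_sig hq ((h.good_xs O_uF (ht.deg_uF hP) A).O_sub h.hQ' m)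
  have h2 := (h.next.good_xs O_uF (ht.deg_uF hP) A).O_sub h.next.hQ' m
  have h3 : ∀ l, (uF P l).map (sig k hq) = uF P l := fun l => by
    rw [uF, Polynomial.map_map]
    congr 1
    exact RingHom.ext (sig_C hq)
  rw [map_sub, map_xs, sig_C, sig_theta] at h1
  simp only [h3, Nat.cast_one, one_mul, mul_one] at h1 h2
  have h4 := h1.sub h2
  rw [sub_sub_sub_cancel_right] at h4
  refine h4.mono ?_
  have : (2 : ℤ) ≤ qq F := by exact_mod_cast hq
  have h5 := hm.trans (min_le_left _ _)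
  have h6 := hm.trans (min_le_right _ _)
  nlinarith

theorem Tr.formal_indep (ht : Tr F t) (hP : Adapted F t P) (w : ℕ) (β : ht.St w → k[X])
    (hβ : ∑ A, aeval (theta k) (β A) * TF P A.1 = 0) : β = 0 := by
  have hinj : ∀ r : k[X], aeval (theta k) r = 0 → r = 0 := fun r hr => by
    by_contra h
    have := v_aeval h
    rw [hr, map_zero] at this
    exact exp_ne_zero this.symm
  have h := pt_formal (F := F) t
  have hq := two_le_q (F := F)
  have hY : algebraMap k (LaurentSeries k) t - theta k ≠ 0 := by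
    simpa using sub_ne_zero.2 (h.ne 0)
  refine ht.func_indep' (aeval (theta k) : k[X] →ₐ[k] LaurentSeries k).toRingHom hinj
    (sig k hq) (sig_aeval hq) (T := fun A : ht.St w => TF P A.1)
    (U := fun A => (algebraMap k _ t - theta k)⁻¹ ^ wtS (qq F) Let.wt A.1 * sig k hq (TF P A.1))
    (len := fun A => A.1.2.length) (wt := fun A => wtS (qq F) Let.wt A.1)
    (m := fun A B => mS (fun l => mp F t (P l)) A.1 B.1)
    (fun A => ?_) (fun A => ?_) (fun A B h => ?_) ?_ ?_ (ht.hex hP w) β hβ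
  · simp only [AlgHom.toRingHom_eq_coe, RingHom.coe_coe, ht.sig_TF hP, ← eval_map_algebraMap,
      mS_map]
    exact h.lim_eq O_uF (ht.deg_uF hP) (ht.St_closed w) A
  · simp only [AlgHom.toRingHom_eq_coe, RingHom.coe_coe, map_pow, map_sub, aeval_C, aeval_X]
    rw [← mul_assoc, ← mul_pow, mul_inv_cancel₀ hY, one_pow, one_mul]
  · obtain ⟨l, hl⟩ := mS_ne h
    simp [hl]
  · rintro ⟨⟨j, L⟩, _⟩ ⟨⟨j', L'⟩, _⟩ h1 h2 h3
    obtain rfl := List.length_eq_zero_iff.1 h1
    obtain rfl := List.length_eq_zero_iff.1 h2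
    simp only [wtS, List.map_nil, List.sum_nil, add_zero] at h3
    obtain rfl := Nat.eq_of_mul_eq_mul_right (by omega) h3
    rfl
  · rintro ⟨⟨j, L⟩, _⟩ h1
    obtain rfl := List.length_eq_zero_iff.1 h1
    simp only [TF, h.lim_root_eq]
    refine pow_ne_zero _ fun e => ?_
    have h2 := h.O_lim_PiS (a := 0) (by rw [← map_pow, ← map_sub]; exact O_algebraMap _)
    rw [e, zero_sub, neg_sub] at h2
    have h3 := h2.add (show O (algebraMap k (LaurentSeries k) t ^ qq F) 0 by
      rw [← map_pow]; exact O_algebraMap _)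
    rw [sub_add_cancel, O, v_theta, exp_le_exp] at h3
    omega

end Pool.Agent.MP_cbe134_nt.FF
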