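import Pool.Agent.MP_cbe134_nt.Defs

/- Truncated multiple zeta values and their limits. -/

open Finset Filter Topology

namespace Pool.Agent.MP_cbe134_nt

/-- truncated multiple harmonic sum over `N > n₁ > ⋯ > n_r > 0` -/
def Zt : List ℕ → ℕ → ℚ
  | [], _ => 1
  | a :: k, N => ∑ n ∈ range N, ((n : ℚ)⁻¹) ^ a * Zt k n

lemma Zt_nil (N : ℕ) : Zt [] N = 1 := rfl

lemma Zt_cons (a : ℕ) (k : List ℕ) (N : ℕ) :
    Zt (a :: k) N = ∑ n ∈ range N, ((n : ℚ)⁻¹) ^ a * Zt k n := rfl

lemma Zt_succ (a : ℕ) (k : List ℕ) (N : ℕ) :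
    Zt (a :: k) (N + 1) = Zt (a :: k) N + ((N : ℚ)⁻¹) ^ a * Zt k N := by
  rw [Zt_cons, sum_range_succ, ← Zt_cons]

lemma Zt_cons_zero (a : ℕ) (k : List ℕ) : Zt (a :: k) 0 = 0 := by simp [Zt_cons]

lemma Zt_nonneg (k : List ℕ) (N : ℕ) : 0 ≤ Zt k N := by
  induction k generalizing N with
  | nil => simp [Zt_nil]
  | cons a k ih => exact sum_nonneg fun n _ => mul_nonneg (by positivity) (ih n)

lemma sum_inv_sqrt_le (N : ℕ) :
    ∑ n ∈ range N, (n : ℝ)⁻¹ * √(n : ℝ) ≤ 2 * √(N : ℝ) := by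
  have key : ∀ N : ℕ, ∑ n ∈ range (N + 1), (n : ℝ)⁻¹ * √(n : ℝ) ≤ 2 * √(N : ℝ) := by
    intro N
    induction N with
    | zero => simp
    | succ N ih =>
      rw [sum_range_succ]
      have h1 : (0 : ℝ) < √((N + 1 : ℕ) : ℝ) := Real.sqrt_pos.2 (by positivity)
      have h2 : √((N + 1 : ℕ) : ℝ) * √((N + 1 : ℕ) : ℝ) = ((N + 1 : ℕ) : ℝ) :=
        Real.mul_self_sqrt (by positivity)
      have h3 : √(N : ℝ) * √(N : ℝ) = N := Real.mul_self_sqrt (by positivity)
      have h4 : (((N + 1 : ℕ) : ℝ))⁻¹ * √((N + 1 : ℕ) : ℝ) = (√((N + 1 : ℕ) : ℝ))⁻¹ := by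
        have : ((N + 1 : ℕ) : ℝ) ≠ 0 := by positivity
        field_simp
        nlinarith
      rw [h4]
      have h5 : (√((N + 1 : ℕ) : ℝ))⁻¹ ≤ 2 * √((N + 1 : ℕ) : ℝ) - 2 * √(N : ℝ) := by
        rw [inv_le_iff_one_le_mul₀ h1]
        push_cast at h2 h1 ⊢
        nlinarith [sq_nonneg (√((N : ℝ) + 1) - √(N : ℝ))]
      linarith
  cases N with
  | zero => simp
  | succ N =>
    refine (key N).trans ?_
    gcongr
    omega

lemma Zt_le (k : List ℕ) (hk : ∀ a ∈ k, 1 ≤ a) (N : ℕ) (hN : 1 ≤ N) :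
    (Zt k N : ℝ) ≤ 2 ^ k.length * √(N : ℝ) := by
  induction k generalizing N with
  | nil =>
    simp only [Zt_nil, List.length_nil, pow_zero, one_mul, Rat.cast_one]
    exact Real.one_le_sqrt.2 (by exact_mod_cast hN)
  | cons a k ih =>
    have ha : 1 ≤ a := hk a (by simp)
    have hk' : ∀ b ∈ k, 1 ≤ b := fun b hb => hk b (by simp [hb])
    rw [Zt_cons]
    push_cast
    calc ∑ n ∈ range N, ((n : ℝ)⁻¹) ^ a * (Zt k n : ℝ)
        ≤ ∑ n ∈ range N, 2 ^ k.length * ((n : ℝ)⁻¹ * √(n : ℝ)) := by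
          refine sum_le_sum fun n _ => ?_
          rcases Nat.eq_zero_or_pos n with rfl | hn
          · simp [zero_pow (by omega : a ≠ 0)]
          · have h1 : ((n : ℝ)⁻¹) ^ a ≤ (n : ℝ)⁻¹ :=
              pow_le_of_le_one (by positivity) (inv_le_one_of_one_le₀ (by exact_mod_cast hn))
                (by omega)
            have h2 := ih hk' n hn
            have h3 : (0 : ℝ) ≤ Zt k n := by exact_mod_cast Zt_nonneg k n
            calc ((n : ℝ)⁻¹) ^ a * (Zt k n : ℝ) ≤ (n : ℝ)⁻¹ * (2 ^ k.length * √(n : ℝ)) := by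
                  gcongr
              _ = _ := by ring
      _ = 2 ^ k.length * ∑ n ∈ range N, (n : ℝ)⁻¹ * √(n : ℝ) := by rw [mul_sum]
      _ ≤ 2 ^ k.length * (2 * √(N : ℝ)) := by gcongr; exact sum_inv_sqrt_le N
      _ = _ := by simp [pow_succ]; ring

lemma summable_term (a : ℕ) (k : List ℕ) (ha : 2 ≤ a) (hk : ∀ a ∈ k, 1 ≤ a) :
    Summable fun n : ℕ => ((n : ℝ)⁻¹) ^ a * (Zt k n : ℝ) := by
  have hs : Summable fun n : ℕ => 2 ^ k.length * ((n : ℝ) ^ (3 / 2 : ℝ))⁻¹ :=
    (Real.summable_nat_rpow_inv.2 (by norm_num)).mul_left _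
  refine Summable.of_nonneg_of_le (fun n => mul_nonneg (by positivity)
    (by exact_mod_cast Zt_nonneg k n)) (fun n => ?_) hs
  rcases Nat.eq_zero_or_pos n with rfl | hn
  · simp [zero_pow (by omega : a ≠ 0)]
  · have hn' : (0 : ℝ) < n := by exact_mod_cast hn
    have h1 : ((n : ℝ)⁻¹) ^ a ≤ ((n : ℝ)⁻¹) ^ 2 :=
      pow_le_pow_of_le_one (by positivity) (inv_le_one_of_one_le₀ (by exact_mod_cast hn)) ha
    have h2 := Zt_le k hk n hn
    have h3 : (0 : ℝ) ≤ Zt k n := by exact_mod_cast Zt_nonneg k n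
    have h4 : ((n : ℝ)⁻¹) ^ 2 * √(n : ℝ) = ((n : ℝ) ^ (3 / 2 : ℝ))⁻¹ := by
      rw [Real.sqrt_eq_rpow, inv_pow, ← Real.rpow_natCast, ← Real.rpow_neg hn'.le,
        ← Real.rpow_neg hn'.le, ← Real.rpow_add hn']
      norm_num
    calc ((n : ℝ)⁻¹) ^ a * (Zt k n : ℝ) ≤ ((n : ℝ)⁻¹) ^ 2 * (2 ^ k.length * √(n : ℝ)) := by
          gcongr
      _ = _ := by rw [← h4]; ring

lemma Zt_bdd (k : List ℕ) (hk : Adm k) : ∃ C : ℝ, ∀ N, (Zt k N : ℝ) ≤ C := by
  cases k with
  | nil => exact ⟨1, fun N => by simp [Zt_nil]⟩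
  | cons a k =>
    have ha : 2 ≤ a := hk.2 a (by simp)
    have hk' : ∀ b ∈ k, 1 ≤ b := fun b hb => hk.1 b (by simp [hb])
    refine ⟨∑' n : ℕ, ((n : ℝ)⁻¹) ^ a * (Zt k n : ℝ), fun N => ?_⟩
    rw [Zt_cons]
    push_cast
    exact (summable_term a k ha hk').sum_le_tsum _
      (fun n _ => mul_nonneg (by positivity) (by exact_mod_cast Zt_nonneg k n))

/-- the set of strictly decreasing positive tuples -/
def Cone (r : ℕ) : Set (Fin r → ℕ) := {n | StrictAnti n ∧ ∀ i, 0 < n i}

open Classical in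
lemma sum_cone (k : List ℕ) (hk : ∀ a ∈ k, 1 ≤ a) (N : ℕ) :
    ∑ n ∈ Fintype.piFinset (fun _ : Fin k.length => range N),
      (Cone k.length).indicator (fun n => ∏ i : Fin k.length, 1 / (n i : ℝ) ^ k.get i) n
      = Zt k N := by
  induction k generalizing N with
  | nil =>
    have : ∀ n : Fin ([] : List ℕ).length → ℕ, n ∈ Cone ([] : List ℕ).length := fun n =>
      ⟨fun i => i.elim0, fun i => i.elim0⟩
    simp only [Set.indicator_of_mem (this _)]
    simp [Zt_nil]
  | cons a k ih =>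
    have ha : 1 ≤ a := hk a (by simp)
    have hk' : ∀ b ∈ k, 1 ≤ b := fun b hb => hk b (by simp [hb])
    rw [Zt_cons]
    push_cast
    have hb : ∑ n ∈ Fintype.piFinset (fun _ : Fin (k.length + 1) => range N),
      (Cone (k.length + 1)).indicator
        (fun n => ∏ i : Fin (k.length + 1), 1 / (n i : ℝ) ^ (a :: k).get i) n =
      ∑ p ∈ range N ×ˢ Fintype.piFinset (fun _ : Fin k.length => range N),
      (Cone (k.length + 1)).indicator
        (fun n => ∏ i : Fin (k.length + 1), 1 / (n i : ℝ) ^ (a :: k).get i)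
          (Fin.cons p.1 p.2) := by
      symm
      refine sum_bij' (fun p _ => Fin.cons p.1 p.2) (fun n _ => (n 0, Fin.tail n)) ?_ ?_ ?_ ?_ ?_
      · intro p hp
        simp only [mem_product, Fintype.mem_piFinset] at hp ⊢
        intro i
        refine Fin.cases ?_ (fun j => ?_) i
        · simpa using hp.1
        · simpa using hp.2 j
      · intro n hn
        simp only [mem_product, Fintype.mem_piFinset] at hn ⊢
        exact ⟨hn 0, fun j => hn j.succ⟩
      · intro p _
        simp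
      · intro n _
        simp
      · intro p _
        rfl
    refine hb.trans ?_
    rw [sum_product]
    refine sum_congr rfl fun m hm => ?_
    have hmN : m < N := mem_range.1 hm
    rw [← ih hk' m, mul_sum]
    symm
    refine sum_subset_zero_on_sdiff ?_ ?_ ?_
    · exact Fintype.piFinset_subset _ _ fun _ => range_subset_range.2 hmN.le
    · intro n hn
      refine Set.indicator_of_notMem (fun h => ?_) _
      refine (mem_sdiff.1 hn).2 ?_
      simp only [Fintype.mem_piFinset, mem_range]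
      intro j
      have := h.1 (Fin.succ_pos j)
      simpa using this
    · intro n hn
      simp only [Fintype.mem_piFinset, mem_range] at hn
      by_cases hc : n ∈ Cone k.length
      · rcases Nat.eq_zero_or_pos m with rfl | hm0
        · have h0 : (Fin.cons 0 n : Fin (k.length + 1) → ℕ) ∉ Cone (k.length + 1) := fun h => by
            simpa using h.2 0
          rw [Set.indicator_of_notMem h0]
          simp [zero_pow (by omega : a ≠ 0)]
        · have h1 : (Fin.cons m n : Fin (k.length + 1) → ℕ) ∈ Cone (k.length + 1) := by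
            refine ⟨?_, fun i => Fin.cases (by simpa using hm0) (fun j => by simpa using hc.2 j) i⟩
            intro i j hij
            revert hij
            refine Fin.cases (fun h => absurd h (by simp)) (fun j => ?_) j
            refine Fin.cases (fun _ => by simpa using hn j) (fun i hij => ?_) i
            simpa using hc.1 (Fin.succ_lt_succ_iff.1 hij)
          rw [Set.indicator_of_mem hc, Set.indicator_of_mem h1, Fin.prod_univ_succ]
          simp
      · have h0 : (Fin.cons m n : Fin (k.length + 1) → ℕ) ∉ Cone (k.length + 1) := fun h => by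
          refine hc ⟨fun i j hij => ?_, fun i => by simpa using h.2 i.succ⟩
          simpa using h.1 (Fin.succ_lt_succ_iff.2 hij)
        rw [Set.indicator_of_notMem h0, Set.indicator_of_notMem hc, mul_zero]

theorem tendsto_Zt (k : List ℕ) (hk : Adm k) :
    Tendsto (fun N => (Zt k N : ℝ)) atTop (𝓝 (mzv k)) := by
  classical
  set f : (Fin k.length → ℕ) → ℝ :=
    (Cone k.length).indicator (fun n => ∏ i : Fin k.length, 1 / (n i : ℝ) ^ k.get i) with hf
  have h1 : mzv k = ∑' n, f n := by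
    rw [hf, ← _root_.tsum_subtype]; rfl
  have hP : Tendsto (fun N => Fintype.piFinset (fun _ : Fin k.length => range N)) atTop atTop := by
    refine tendsto_atTop_finset_of_monotone ?_ ?_
    · intro M N h
      exact Fintype.piFinset_subset _ _ fun _ => range_subset_range.2 h
    · intro n
      refine ⟨(∑ i, n i) + 1, ?_⟩
      simp only [Fintype.mem_piFinset, mem_range]
      intro i
      exact Nat.lt_succ_of_le (single_le_sum (fun _ _ => Nat.zero_le _) (mem_univ i))
  have hf0 : ∀ n, 0 ≤ f n := fun n =>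
    Set.indicator_nonneg (fun n _ => prod_nonneg fun i _ => by positivity) n
  obtain ⟨C, hC⟩ := Zt_bdd k hk
  have hs : Summable f := by
    refine summable_of_sum_le (c := C) hf0 fun s => ?_
    obtain ⟨N, hN⟩ := (hP.eventually (eventually_ge_atTop s)).exists
    refine (sum_le_sum_of_subset_of_nonneg hN fun n _ _ => hf0 n).trans ?_
    rw [hf, sum_cone k hk.1 N]
    exact hC N
  have h2 := (hs.hasSum).comp hP
  rw [h1]
  refine h2.congr fun N => ?_
  exact sum_cone k hk.1 N

lemma mzv_nil : mzv [] = 1 := by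
  have h := tendsto_Zt [] ⟨by simp, by simp⟩
  simp only [Zt_nil, Rat.cast_one] at h
  exact (tendsto_nhds_unique tendsto_const_nhds h).symm

lemma hasSum_mzv (a : ℕ) (k : List ℕ) (hk : Adm (a :: k)) :
    HasSum (fun n : ℕ => ((n : ℝ)⁻¹) ^ a * (Zt k n : ℝ)) (mzv (a :: k)) := by
  have ha : 2 ≤ a := hk.2 a (by simp)
  have hk' : ∀ b ∈ k, 1 ≤ b := fun b hb => hk.1 b (by simp [hb])
  have hs := summable_term a k ha hk'
  have h1 := hs.hasSum.tendsto_sum_nat
  have h2 := tendsto_Zt _ hk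
  simp only [Zt_cons] at h2
  push_cast at h2
  rw [← tendsto_nhds_unique h1 h2]
  exact hs.hasSum

end Pool.Agent.MP_cbe134_nt
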