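import Pool.Agent.MP_cbe134_nt.A1

/- The harmonic product with a one-letter index, and multiplication by even powers of pi. -/

open Finset Filter Topology

namespace Pool.Agent.MP_cbe134_nt

/-- insertions of the letter `a` -/
def ins (a : ℕ) : List ℕ → List (List ℕ)
  | [] => [[a]]
  | b :: k => (a :: b :: k) :: (ins a k).map (b :: ·)

/-- merges of the letter `a` -/
def mer (a : ℕ) : List ℕ → List (List ℕ)
  | [] => []
  | b :: k => ((a + b) :: k) :: (mer a k).map (b :: ·)

lemma sum_map_cons_succ (b : ℕ) (L : List (List ℕ)) (N : ℕ) :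
    ((L.map (b :: ·)).map (Zt · (N + 1))).sum =
      ((L.map (b :: ·)).map (Zt · N)).sum + ((N : ℚ)⁻¹) ^ b * (L.map (Zt · N)).sum := by
  induction L with
  | nil => simp
  | cons w L ih =>
    simp only [List.map_cons, List.sum_cons, ih, Zt_succ]
    ring

lemma sum_map_cons_zero (b : ℕ) (L : List (List ℕ)) :
    ((L.map (b :: ·)).map (Zt · 0)).sum = 0 := by
  induction L with
  | nil => simp
  | cons w L ih => simp only [List.map_cons, List.sum_cons, ih, Zt_cons_zero, add_zero]

lemma Zt_stuffle (a : ℕ) (k : List ℕ) (N : ℕ) :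
    Zt [a] N * Zt k N = ((ins a k).map (Zt · N)).sum + ((mer a k).map (Zt · N)).sum := by
  induction k generalizing N with
  | nil => simp [ins, mer, Zt_nil]
  | cons b k ih =>
    induction N with
    | zero =>
      simp only [ins, mer, List.map_cons, List.sum_cons, sum_map_cons_zero, Zt_cons_zero]
      simp
    | succ N ihN =>
      simp only [ins, mer, List.map_cons, List.sum_cons] at ihN ⊢
      rw [sum_map_cons_succ, sum_map_cons_succ]
      simp only [Zt_succ, Zt_nil]
      have := ih N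
      linear_combination ihN + ((N : ℚ)⁻¹) ^ b * this

lemma mem_ins {a : ℕ} {k w : List ℕ} (h : w ∈ ins a k) :
    w.sum = a + k.sum ∧ w.length = k.length + 1 ∧ (∀ c ∈ w, c = a ∨ c ∈ k) ∧
      (w.head? = some a ∨ w.head? = k.head?) := by
  induction k generalizing w with
  | nil =>
    simp only [ins, List.mem_singleton] at h
    subst h
    simp
  | cons b k ih =>
    simp only [ins, List.mem_cons, List.mem_map] at h
    rcases h with rfl | ⟨u, hu, rfl⟩
    · simp
    · obtain ⟨h1, h2, h3, -⟩ := ih hu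
      refine ⟨by simp [h1]; ring, by simp [h2], ?_, by simp⟩
      intro c hc
      simp only [List.mem_cons] at hc ⊢
      rcases hc with rfl | hc
      · simp
      · rcases h3 c hc with h | h <;> simp [h]

lemma mem_mer {a : ℕ} {k w : List ℕ} (h : w ∈ mer a k) :
    w.sum = a + k.sum ∧ w.length = k.length ∧ (∀ c ∈ w, c ∈ k ∨ ∃ b ∈ k, c = a + b) ∧
      (w.head? = k.head? ∨ ∃ b, w.head? = some (a + b)) := by
  induction k generalizing w with
  | nil => simp [mer] at h
  | cons b k ih =>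
    simp only [mer, List.mem_cons, List.mem_map] at h
    rcases h with rfl | ⟨u, hu, rfl⟩
    · refine ⟨by simp; ring, by simp, ?_, by simp⟩
      intro c hc
      simp only [List.mem_cons] at hc
      rcases hc with rfl | hc
      · exact Or.inr ⟨b, by simp, rfl⟩
      · exact Or.inl (by simp [hc])
    · obtain ⟨h1, h2, h3, -⟩ := ih hu
      refine ⟨by simp [h1]; ring, by simp [h2], ?_, by simp⟩
      intro c hc
      simp only [List.mem_cons] at hc
      rcases hc with rfl | hc
      · simp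
      · rcases h3 c hc with h | ⟨d, hd, h⟩
        · exact Or.inl (by simp [h])
        · exact Or.inr ⟨d, by simp [hd], h⟩

lemma adm_ins {a : ℕ} {k w : List ℕ} (ha : 2 ≤ a) (hk : Adm k) (h : w ∈ ins a k) : Adm w := by
  obtain ⟨-, -, h3, h4⟩ := mem_ins h
  refine ⟨fun c hc => ?_, fun c hc => ?_⟩
  · rcases h3 c hc with rfl | h
    · omega
    · exact hk.1 c h
  · rcases h4 with h | h
    · rw [h] at hc
      simp at hc
      omega
    · exact hk.2 c (h ▸ hc)

lemma adm_mer {a : ℕ} {k w : List ℕ} (ha : 2 ≤ a) (hk : Adm k) (h : w ∈ mer a k) : Adm w := by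
  obtain ⟨-, -, h3, h4⟩ := mem_mer h
  refine ⟨fun c hc => ?_, fun c hc => ?_⟩
  · rcases h3 c hc with h | ⟨b, -, rfl⟩
    · exact hk.1 c h
    · omega
  · rcases h4 with h | ⟨b, h⟩
    · exact hk.2 c (h ▸ hc)
    · rw [h] at hc
      simp at hc
      omega

lemma tendsto_list (L : List (List ℕ)) (hL : ∀ w ∈ L, Adm w) :
    Tendsto (fun N => (((L.map (Zt · N)).sum : ℚ) : ℝ)) atTop (𝓝 (L.map mzv).sum) := by
  induction L with
  | nil => simp
  | cons w L ih =>
    simp only [List.map_cons, List.sum_cons, Rat.cast_add]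
    exact (tendsto_Zt w (hL w (by simp))).add (ih fun u hu => hL u (by simp [hu]))

lemma adm_single {a : ℕ} (ha : 2 ≤ a) : Adm [a] := ⟨by simp; omega, by simpa using ha⟩

theorem mzv_stuffle {a : ℕ} {k : List ℕ} (ha : 2 ≤ a) (hk : Adm k) :
    mzv [a] * mzv k = ((ins a k).map mzv).sum + ((mer a k).map mzv).sum := by
  have h1 := (tendsto_Zt [a] (adm_single ha)).mul (tendsto_Zt k hk)
  have h2 := (tendsto_list _ fun w hw => adm_ins ha hk hw).add
    (tendsto_list _ fun w hw => adm_mer ha hk hw)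
  refine tendsto_nhds_unique h1 (h2.congr fun N => ?_)
  rw [← Rat.cast_add, ← Zt_stuffle, Rat.cast_mul]

lemma mzv_mem_Fil {w : List ℕ} {r k : ℕ} (hw : Adm w) (hs : w.sum = k) (hl : w.length ≤ r) :
    mzv w ∈ Fil r k := Submodule.subset_span ⟨w, hw, hs, hl, rfl⟩

lemma mzv_mem_Zsp {w : List ℕ} {k : ℕ} (hw : Adm w) (hs : w.sum = k) :
    mzv w ∈ Zsp k := Submodule.subset_span ⟨w, hw, hs, rfl⟩

lemma Fil_le_Zsp (r k : ℕ) : Fil r k ≤ Zsp k :=
  Submodule.span_mono fun _ ⟨w, h1, h2, _, h4⟩ => ⟨w, h1, h2, h4⟩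

lemma Fil_mono {r s : ℕ} (h : r ≤ s) (k : ℕ) : Fil r k ≤ Fil s k :=
  Submodule.span_mono fun _ ⟨w, h1, h2, h3, h4⟩ => ⟨w, h1, h2, h3.trans h, h4⟩

lemma length_le_sum (w : List ℕ) (h : ∀ a ∈ w, 1 ≤ a) : w.length ≤ w.sum := by
  induction w with
  | nil => simp
  | cons a w ih =>
    have := h a (by simp)
    have := ih fun b hb => h b (by simp [hb])
    simp only [List.length_cons, List.sum_cons]
    omega

lemma Zsp_le_Fil {r k : ℕ} (h : k ≤ r) : Zsp k ≤ Fil r k :=
  Submodule.span_mono fun _ ⟨w, h1, h2, h4⟩ =>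
    ⟨w, h1, h2, (length_le_sum w h1.1).trans (h2 ▸ h), h4⟩

lemma single_mul_mem {a r k : ℕ} (ha : 2 ≤ a) {x : ℝ} (hx : x ∈ Fil r k) :
    mzv [a] * x ∈ Fil (r + 1) (a + k) := by
  induction hx using Submodule.span_induction with
  | mem x hx =>
    obtain ⟨w, h1, h2, h3, rfl⟩ := hx
    rw [mzv_stuffle ha h1]
    refine add_mem (list_sum_mem ?_) (list_sum_mem ?_)
    · intro x hx
      obtain ⟨u, hu, rfl⟩ := List.mem_map.1 hx
      obtain ⟨e1, e2, -⟩ := mem_ins hu
      exact mzv_mem_Fil (adm_ins ha h1 hu) (by omega) (by omega)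
    · intro x hx
      obtain ⟨u, hu, rfl⟩ := List.mem_map.1 hx
      obtain ⟨e1, e2, -⟩ := mem_mer hu
      exact mzv_mem_Fil (adm_mer ha h1 hu) (by omega) (by omega)
  | zero => simp
  | add x y _ _ hx hy => rw [mul_add]; exact add_mem hx hy
  | smul c x _ hx => rw [mul_smul_comm]; exact Submodule.smul_mem _ c hx

lemma hasSum_single {a : ℕ} (ha : 2 ≤ a) :
    HasSum (fun n : ℕ => 1 / (n : ℝ) ^ a) (mzv [a]) := by
  have := hasSum_mzv a [] (adm_single ha)
  simpa [Zt_nil] using this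

lemma mzv_two : mzv [2] = Real.pi ^ 2 / 6 :=
  (hasSum_single le_rfl).unique hasSum_zeta_two

lemma pi_pow_eq {j : ℕ} (hj : 1 ≤ j) : ∃ q : ℚ, Real.pi ^ (2 * j) = q • mzv [2 * j] := by
  have h1 := hasSum_single (a := 2 * j) (by omega)
  have h2 := h1.unique (hasSum_zeta_nat (k := j) (by omega))
  have h3 : 0 < mzv [2 * j] := by
    refine h1.tsum_eq ▸ h1.summable.tsum_pos (fun n => by positivity) 1 (by simp)
  set c : ℚ := (-1) ^ (j + 1) * 2 ^ (2 * j - 1) * bernoulli (2 * j) / (2 * j).factorial with hc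
  have h4 : mzv [2 * j] = c * Real.pi ^ (2 * j) := by
    rw [h2, hc]
    push_cast
    ring
  have h5 : (c : ℝ) ≠ 0 := fun h => by
    rw [h4, h, zero_mul] at h3
    exact lt_irrefl _ h3
  refine ⟨c⁻¹, ?_⟩
  rw [h4, Rat.smul_def]
  push_cast
  field_simp

lemma pi_pow_mul_mem {j r k : ℕ} {x : ℝ} (hx : x ∈ Fil r k) :
    Real.pi ^ (2 * j) * x ∈ Fil (r + 1) (2 * j + k) := by
  rcases Nat.eq_zero_or_pos j with rfl | hj
  · simpa using Fil_mono (Nat.le_succ r) k hx
  · obtain ⟨q, hq⟩ := pi_pow_eq hj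
    rw [hq, smul_mul_assoc]
    exact Submodule.smul_mem _ _ (single_mul_mem (by omega) hx)

lemma pi_pow_mul_mem_Zsp {j k : ℕ} {x : ℝ} (hx : x ∈ Zsp k) :
    Real.pi ^ (2 * j) * x ∈ Zsp (2 * j + k) :=
  Fil_le_Zsp _ _ (pi_pow_mul_mem (Zsp_le_Fil le_rfl hx))

/-- The space `π² Z_{k-2}`. -/
noncomputable def PiZ (k : ℕ) : Submodule ℚ ℝ :=
  Submodule.span ℚ {x | ∃ m y, m + 2 = k ∧ y ∈ Zsp m ∧ x = Real.pi ^ 2 * y}

/-- From the statement modulo `π²` to the depth drop. -/
theorem reduce_pi (k0 r K : ℕ) (hr : k0 ≤ r)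
    (H : ∀ k, k0 ≤ k → k ≤ K → Zsp k ≤ Fil r k ⊔ PiZ k) :
    ∀ k, k ≤ K → Zsp k ≤ Fil (r + 1) k := by
  have key : ∀ k, k ≤ K → ∀ j, ∀ x ∈ Zsp k, Real.pi ^ (2 * j) * x ∈ Fil (r + 1) (2 * j + k) := by
    intro k
    induction k using Nat.strong_induction_on with
    | _ k ih =>
      intro hK j x hx
      rcases lt_or_ge k k0 with hk | hk
      · exact pi_pow_mul_mem (Zsp_le_Fil (by omega) hx)
      · obtain ⟨y, hy, z, hz, rfl⟩ := Submodule.mem_sup.1 (H k hk hK hx)
        rw [mul_add]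
        refine add_mem (pi_pow_mul_mem hy) ?_
        clear hx
        induction hz using Submodule.span_induction with
        | mem z hz =>
          obtain ⟨m, y, rfl, hy, rfl⟩ := hz
          have := ih m (by omega) (by omega) (j + 1) y hy
          convert this using 1
          · ring_nf
          · ring
        | zero => simp
        | add x y _ _ hx hy => rw [mul_add]; exact add_mem hx hy
        | smul c x _ hx => rw [mul_smul_comm]; exact Submodule.smul_mem _ c hx
  intro k hK x hx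
  simpa using key k hK 0 x hx

end Pool.Agent.MP_cbe134_nt
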