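import Pool.Agent.MP_cbe134_nt.A1

/- Upper triangular matrices, evaluation of noncommutative series. -/

open Finset

namespace Pool.Agent.MP_cbe134_nt

/-- square matrices of size `k + 1` -/
abbrev Mt (k : ℕ) := Matrix (Fin (k + 1)) (Fin (k + 1)) ℚ

/-- matrices supported at least `m` steps above the diagonal -/
def Up {k : ℕ} (m : ℕ) (M : Mt k) : Prop :=
  ∀ i j : Fin (k + 1), (j : ℕ) < i + m → M i j = 0

namespace Up

variable {k m n : ℕ} {M N : Mt k}

lemma zero : Up m (0 : Mt k) := fun _ _ _ => rfl

lemma one : Up 0 (1 : Mt k) := fun i j h => Matrix.one_apply_ne (by rintro rfl; omega)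

lemma add (h : Up m M) (h' : Up m N) : Up m (M + N) := fun i j hij => by
  simp [h i j hij, h' i j hij]

lemma neg (h : Up m M) : Up m (-M) := fun i j hij => by simp [h i j hij]

lemma sub (h : Up m M) (h' : Up m N) : Up m (M - N) := fun i j hij => by
  simp [h i j hij, h' i j hij]

lemma smul (c : ℚ) (h : Up m M) : Up m (c • M) := fun i j hij => by simp [h i j hij]

lemma mono (h : Up m M) (hn : n ≤ m) : Up n M := fun i j hij => h i j (by omega)

lemma mul (h : Up m M) (h' : Up n N) : Up (m + n) (M * N) := fun i j hij => by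
  rw [Matrix.mul_apply]
  refine sum_eq_zero fun l _ => ?_
  by_cases hl : (l : ℕ) < i + m
  · rw [h i l hl, zero_mul]
  · rw [h' l j (by omega), mul_zero]

lemma mul' {p : ℕ} (h : Up m M) (h' : Up n N) (hp : p ≤ m + n) : Up p (M * N) :=
  (h.mul h').mono hp

lemma eq_zero (h : Up (k + 1) M) : M = 0 := by
  ext i j
  exact h i j (by omega)

lemma corner (h : Up m M) (hm : k < m) : M 0 (Fin.last k) = 0 := h _ _ (by simpa using hm)

lemma pow (h : Up 1 M) (n : ℕ) : Up n (M ^ n) := by
  induction n with
  | zero => simpa using one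
  | succ n ih => rw [pow_succ]; exact ih.mul h

lemma sum {ι : Type*} (s : Finset ι) (f : ι → Mt k) (h : ∀ i ∈ s, Up m (f i)) :
    Up m (∑ i ∈ s, f i) := fun i j hij => by
  rw [Matrix.sum_apply]
  exact sum_eq_zero fun l hl => h l hl i j hij

lemma exists_inv (h : Up 1 M) : ∃ L : Mt k, L * (1 - M) = 1 ∧ (1 - M) * L = 1 ∧ Up 0 L := by
  have h0 : M ^ (k + 1) = 0 := (h.pow _).eq_zero
  refine ⟨∑ i ∈ range (k + 1), M ^ i, ?_, ?_, ?_⟩
  · rw [geom_sum_mul_neg, h0, sub_zero]
  · rw [mul_neg_geom_sum, h0, sub_zero]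
  · exact sum _ _ fun i _ => (h.pow i).mono (Nat.zero_le _)

lemma cancel (h : Up 1 M) {A B : Mt k} (e : A * (1 - M) = B * (1 - M)) : A = B := by
  obtain ⟨L, -, h2, -⟩ := h.exists_inv
  calc A = A * (1 - M) * L := by rw [mul_assoc, h2, mul_one]
    _ = B := by rw [e, mul_assoc, h2, mul_one]

end Up

variable {k : ℕ}

/-- the letter: `true` is `X`, `false` is `Y` -/
def lett (X Y : Mt k) : Bool → Mt k
  | true => X
  | false => Y

/-- the monomial of a word; the head of the list is the last letter -/
def mon (X Y : Mt k) : List Bool → Mt k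
  | [] => 1
  | c :: u => mon X Y u * lett X Y c

lemma up_lett {X Y : Mt k} (hX : Up 1 X) (hY : Up 1 Y) (c : Bool) : Up 1 (lett X Y c) := by
  cases c
  · exact hY
  · exact hX

lemma up_mon {X Y : Mt k} (hX : Up 1 X) (hY : Up 1 Y) (u : List Bool) :
    Up u.length (mon X Y u) := by
  induction u with
  | nil => exact Up.one
  | cons c u ih => exact ih.mul (up_lett hX hY c)

lemma mon_append (X Y : Mt k) (u : List Bool) (c : Bool) :
    mon X Y (u ++ [c]) = lett X Y c * mon X Y u := by
  induction u with
  | nil => simp [mon]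
  | cons d u ih => simp [mon, ih, mul_assoc]

/-- all words of length at most `m` -/
def wl : ℕ → List (List Bool)
  | 0 => [[]]
  | m + 1 => [] :: ((wl m).map (true :: ·) ++ (wl m).map (false :: ·))

/-- evaluation of a series truncated at length `m` -/
def ev (X Y : Mt k) (m : ℕ) (f : List Bool → ℚ) : Mt k :=
  ((wl m).map fun u => f u • mon X Y u).sum

lemma ev_zero (X Y : Mt k) (f : List Bool → ℚ) : ev X Y 0 f = f [] • 1 := by
  simp [ev, wl, mon]

lemma ev_succ (X Y : Mt k) (m : ℕ) (f : List Bool → ℚ) :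
    ev X Y (m + 1) f = f [] • 1 + ev X Y m (fun u => f (true :: u)) * X
      + ev X Y m (fun u => f (false :: u)) * Y := by
  simp only [ev, wl, mon, List.map_cons, List.map_append, List.map_map, List.sum_cons,
    List.sum_append, ← List.sum_map_mul_right, smul_mul_assoc, add_assoc]
  rfl

lemma ev_add (X Y : Mt k) (m : ℕ) (f g : List Bool → ℚ) :
    ev X Y m (fun u => f u + g u) = ev X Y m f + ev X Y m g := by
  simp only [ev, add_smul, List.sum_map_add]

lemma ev_smul (X Y : Mt k) (m : ℕ) (t : ℚ) (f : List Bool → ℚ) :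
    ev X Y m (fun u => t * f u) = t • ev X Y m f := by
  simp only [ev, mul_smul, List.smul_sum, List.map_map]
  rfl

lemma ev_zero_fun (X Y : Mt k) (m : ℕ) : ev X Y m (fun _ => 0) = 0 := by
  simp [ev]

lemma up_ev_sub {X Y : Mt k} (hX : Up 1 X) (hY : Up 1 Y) (m : ℕ) (f : List Bool → ℚ) :
    Up (m + 1) (ev X Y (m + 1) f - ev X Y m f) := by
  induction m generalizing f with
  | zero =>
    rw [ev_succ, ev_zero, ev_zero, ev_zero]
    have : f [] • (1 : Mt k) + f [true] • 1 * X + f [false] • 1 * Y - f [] • 1
      = f [true] • X + f [false] • Y := by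
      simp only [smul_mul_assoc, one_mul]; abel
    rw [this]
    exact (hX.smul _).add (hY.smul _)
  | succ m ih =>
    rw [ev_succ X Y (m + 1), ev_succ X Y m f]
    have h1 := (ih fun u => f (true :: u)).mul hX
    have h2 := (ih fun u => f (false :: u)).mul hY
    convert h1.add h2 using 1
    noncomm_ring

lemma ev_stable {X Y : Mt k} (hX : Up 1 X) (hY : Up 1 Y) (f : List Bool → ℚ) :
    ev X Y (k + 1) f = ev X Y k f := sub_eq_zero.1 (up_ev_sub hX hY k f).eq_zero

/-- right multiplication by `t c` -/
def rho (c : Bool) (t : ℚ) (f : List Bool → ℚ) : List Bool → ℚ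
  | [] => 0
  | d :: u => if d = c then t * f u else 0

/-- right multiplication by the inverse of `1 - t c` -/
def geo (c : Bool) (t : ℚ) (f : List Bool → ℚ) : List Bool → ℚ
  | [] => f []
  | d :: u => f (d :: u) + if d = c then t * geo c t f u else 0

/-- right multiplication by `1 + t c` -/
def lin (c : Bool) (t : ℚ) (f : List Bool → ℚ) : List Bool → ℚ := fun u => f u + rho c t f u

/-- the series `1` -/
def dlt : List Bool → ℚ
  | [] => 1
  | _ :: _ => 0

lemma geo_eq (c : Bool) (t : ℚ) (f : List Bool → ℚ) :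
    geo c t f = fun u => f u + rho c t (geo c t f) u := by
  funext u
  cases u <;> simp [geo, rho]

lemma ev_rho {X Y : Mt k} (hX : Up 1 X) (hY : Up 1 Y) (c : Bool) (t : ℚ) (f : List Bool → ℚ) :
    ev X Y k (rho c t f) = ev X Y k f * (t • lett X Y c) := by
  rw [← ev_stable hX hY, ev_succ]
  cases c
  · simp [rho, lett, ev_zero_fun, ev_smul]
  · simp [rho, lett, ev_zero_fun, ev_smul]

lemma ev_geo {X Y : Mt k} (hX : Up 1 X) (hY : Up 1 Y) (c : Bool) (t : ℚ) (f : List Bool → ℚ) :
    ev X Y k (geo c t f) * (1 - t • lett X Y c) = ev X Y k f := by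
  have h : ev X Y k (geo c t f) = ev X Y k f + ev X Y k (geo c t f) * (t • lett X Y c) := by
    conv_lhs => rw [geo_eq, ev_add, ev_rho hX hY]
  rw [mul_sub, mul_one]
  exact sub_eq_of_eq_add h

lemma ev_lin {X Y : Mt k} (hX : Up 1 X) (hY : Up 1 Y) (c : Bool) (t : ℚ) (f : List Bool → ℚ) :
    ev X Y k (lin c t f) = ev X Y k f * (1 + t • lett X Y c) := by
  unfold lin
  rw [ev_add, ev_rho hX hY, mul_add, mul_one]

lemma ev_dlt (X Y : Mt k) (m : ℕ) : ev X Y m dlt = 1 := by
  cases m with
  | zero => simp [ev_zero, dlt]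
  | succ m => simp [ev_succ, dlt, ev_zero_fun]

/-- the matrix of a letter attached to a word `v` read from left to right -/
def lm (k : ℕ) (v : List Bool) (c : Bool) : Mt k :=
  fun i j => if (j : ℕ) = i + 1 ∧ v[(i : ℕ)]? = some c then 1 else 0

lemma up_lm (v : List Bool) (c : Bool) : Up 1 (lm k v c) := fun i j h => by
  simp only [lm]
  rw [if_neg]
  omega

lemma mul_lm_zero (M : Mt k) (v : List Bool) (c : Bool) (i : Fin (k + 1)) :
    (M * lm k v c) i 0 = 0 := by
  rw [Matrix.mul_apply]
  exact sum_eq_zero fun l _ => by simp [lm]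

lemma mul_lm_succ (M : Mt k) (v : List Bool) (c : Bool) (i : Fin (k + 1)) (j : Fin k) :
    (M * lm k v c) i j.succ = if v[(j : ℕ)]? = some c then M i j.castSucc else 0 := by
  rw [Matrix.mul_apply, sum_eq_single j.castSucc]
  · simp [lm]
  · intro l _ hl
    have : ¬ ((j : ℕ) = l) := fun h => hl (Fin.ext (by simp [h]))
    simp [lm, this]
  · simp

lemma ev_entry (v : List Bool) (hv : v.length = k) (m : ℕ) (f : List Bool → ℚ) (j : Fin (k + 1))
    (hj : (j : ℕ) ≤ m) :
    ev (lm k v true) (lm k v false) m f 0 j = f (v.take j).reverse := by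
  induction m generalizing f j with
  | zero =>
    obtain rfl : j = 0 := Fin.ext (by simpa using hj)
    simp [ev_zero]
  | succ m ih =>
    rw [ev_succ]
    revert hj
    refine Fin.cases (fun _ => ?_) (fun j hj => ?_) j
    · simp [mul_lm_zero]
    · have hj' : (j : ℕ) < v.length := by omega
      have h1 : (1 : Mt k) 0 j.succ = 0 := Matrix.one_apply_ne (Fin.succ_ne_zero j).symm
      have h2 : ((j.castSucc : Fin (k + 1)) : ℕ) ≤ m := by simpa using hj
      simp only [Matrix.add_apply, Matrix.smul_apply, h1, mul_lm_succ, ih _ _ h2, Fin.val_succ,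
        List.take_succ_eq_append_getElem hj', List.getElem?_eq_getElem hj', List.reverse_append,
        Fin.val_castSucc]
      cases v[(j : ℕ)] <;> simp

/-- the letter matrices of a word `w` whose head is the last letter -/
def xm (w : List Bool) : Mt w.length := lm _ w.reverse true

/-- the letter matrices of a word `w` whose head is the last letter -/
def ym (w : List Bool) : Mt w.length := lm _ w.reverse false

lemma ev_corner (w : List Bool) (f : List Bool → ℚ) :
    ev (xm w) (ym w) w.length f 0 (Fin.last _) = f w := by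
  rw [xm, ym, ev_entry _ (by simp) _ _ _ (by simp)]
  simp [List.take_of_length_le]

lemma xm_row (w : List Bool) (hw : w.getLast? = some false) (M : Mt w.length) (j) :
    (xm w * M) 0 j = 0 := by
  rw [Matrix.mul_apply]
  refine sum_eq_zero fun l _ => ?_
  have : w.reverse[0]? = some false := by
    rw [← List.head?_eq_getElem?, List.head?_reverse, hw]
  simp only [xm, lm, Fin.val_zero, this]
  simp

lemma ym_col (w : List Bool) (hw : w.head? = some true) (M : Mt w.length) (i) :
    (M * ym w) i (Fin.last _) = 0 := by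
  cases w with
  | nil => simp at hw
  | cons c u =>
    obtain rfl : c = true := by simpa using hw
    have := mul_lm_succ (k := u.length + 1) M (true :: u).reverse false i (Fin.last _)
    refine this.trans ?_
    simp

end Pool.Agent.MP_cbe134_nt
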