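import Pool.Agent.MP_cbe134_nt.B1

/- The refactorization (q - y)(p - x) = (p - a)(q - b) for `p + q = 1`. -/

open Finset

namespace Pool.Agent.MP_cbe134_nt

variable {k : ℕ}

lemma exists_lam {x y : Mt k} (hx : Up 1 x) (hy : Up 1 y) :
    ∃ lam : Mt k, lam = 1 + x * lam + lam * y ∧ Up 0 lam := by
  let s : ℕ → Mt k := fun m => Nat.rec 1 (fun _ L => 1 + x * L + L * y) m
  have hs : ∀ m, s (m + 1) = 1 + x * s m + s m * y := fun m => rfl
  have h0 : ∀ m, Up 0 (s m) := by
    intro m
    induction m with
    | zero => exact Up.one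
    | succ m ih =>
      rw [hs]
      exact (Up.one.add (hx.mul' ih (by omega))).add (ih.mul' hy (by omega))
  have h1 : ∀ m, Up (m + 1) (s (m + 1) - s m) := by
    intro m
    induction m with
    | zero =>
      have : s (0 + 1) - s 0 = x + y := by
        rw [hs]
        change 1 + x * 1 + 1 * y - 1 = _
        noncomm_ring
      rw [this]
      exact hx.add hy
    | succ m ih =>
      have : s (m + 1 + 1) - s (m + 1) = x * (s (m + 1) - s m) + (s (m + 1) - s m) * y := by
        linear_combination (norm := noncomm_ring) hs (m + 1) - hs m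
      rw [this]
      exact (hx.mul' ih (by omega)).add (ih.mul' hy (by omega))
  refine ⟨s k, ?_, h0 k⟩
  rw [← hs]
  exact (sub_eq_zero.1 (h1 k).eq_zero).symm

/-- the data of the refactorization -/
structure Tup (x y a b L R : Mt k) : Prop where
  ua : Up 1 a
  ub : Up 1 b
  uL : Up 0 L
  uR : Up 0 R
  e1 : a - b = x - y
  e2 : a * (1 - b) = (1 - y) * x
  eL : L * (1 - y) = 1
  eR : (1 - x) * R = 1
  la : ∃ M, L * a = x * M
  bR : ∃ M, b * R = M * y

lemma exists_tup {x y : Mt k} (hx : Up 1 x) (hy : Up 1 y) :
    ∃ a b L R, Tup x y a b L R := by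
  obtain ⟨lam, hl, ul⟩ := exists_lam hx hy
  have h1 : Up 1 (1 - lam) := by
    have : 1 - lam = -(x * lam + lam * y) := by
      conv_lhs => rw [hl]
      noncomm_ring
    rw [this]
    exact ((hx.mul' ul (by omega)).add (ul.mul' hy (by omega))).neg
  obtain ⟨mu, m1, m2, um⟩ := h1.exists_inv
  rw [sub_sub_cancel] at m1 m2
  obtain ⟨L, l1, l2, uL⟩ := hy.exists_inv
  obtain ⟨R, r1, r2, uR⟩ := hx.exists_inv
  have ea : 1 - y - mu = mu * x * lam := by
    have : mu * lam = mu * (1 + x * lam + lam * y) := by rw [← hl]
    have h2 : mu * (1 + x * lam + lam * y) = mu + mu * x * lam + (mu * lam) * y := by noncomm_ring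
    rw [h2, m1] at this
    rw [this]
    noncomm_ring
  have eb : 1 - x - mu = lam * y * mu := by
    have : lam * mu = (1 + x * lam + lam * y) * mu := by rw [← hl]
    have h2 : (1 + x * lam + lam * y) * mu = mu + x * (lam * mu) + lam * y * mu := by noncomm_ring
    rw [h2, m2] at this
    rw [this]
    noncomm_ring
  refine ⟨1 - y - mu, 1 - x - mu, L, R, ?_, ?_, uL, uR, by noncomm_ring, ?_, l1, r2, ?_, ?_⟩
  · rw [ea]
    exact (um.mul hx).mul' ul (by omega)
  · rw [eb]
    exact (ul.mul hy).mul' um (by omega)
  · have h2 : (1 - y - mu) * mu = mu * x := by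
      rw [ea, mul_assoc, m2, mul_one]
    have : (1 - y - mu) * (1 - (1 - x - mu)) = (1 - y) * x - mu * x + (1 - y - mu) * mu := by
      noncomm_ring
    rw [this, h2, sub_add_cancel]
  · have h2 : lam * (1 - y) = 1 + x * lam := by
      rw [mul_sub, mul_one, sub_eq_iff_eq_add]
      exact hl
    have h3 : L * mu = 1 - x * (lam * L * mu) := by
      have : (1 + x * lam) * (L * mu) = 1 := by
        rw [← h2, mul_assoc, ← mul_assoc (1 - y), l2, one_mul, m2]
      rw [← this]
      noncomm_ring
    refine ⟨lam - lam * L * mu * x * lam, ?_⟩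
    rw [ea, ← mul_assoc, ← mul_assoc, h3]
    noncomm_ring
  · have h2 : (1 - x) * lam = 1 + lam * y := by
      linear_combination (norm := noncomm_ring) hl
    have h3 : mu * R = 1 - (mu * R * lam) * y := by
      have : (mu * R) * (1 + lam * y) = 1 := by
        rw [← h2, mul_assoc, ← mul_assoc R, r1, one_mul, m1]
      rw [← this]
      noncomm_ring
    refine ⟨lam - lam * y * (mu * R * lam), ?_⟩
    rw [eb]
    linear_combination (norm := noncomm_ring) lam * y * h3

namespace Tup

variable {x y a b L R : Mt k}

lemma refac (T : Tup x y a b L R) (p q : ℚ) (hpq : p + q = 1) :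
    (q • 1 - y) * (p • 1 - x) = (p • 1 - a) * (q • 1 - b) := by
  obtain rfl : q = 1 - p := by linarith
  have ha : a = b + (x - y) := by rw [← T.e1]; abel
  have h2 := T.e2
  have e1 : ((1 - p) • (1 : Mt k) - y) * (p • 1 - x)
      = (p * (1 - p)) • 1 - p • y + p • x - (1 - y) * x := by
    simp only [sub_mul, mul_sub, smul_mul_assoc, mul_smul_comm, one_mul, mul_one]
    module
  have e2 : (p • (1 : Mt k) - a) * ((1 - p) • 1 - b)
      = (p * (1 - p)) • 1 - p • b + p • a - a * (1 - b) := by
    simp only [sub_mul, mul_sub, smul_mul_assoc, mul_smul_comm, one_mul, mul_one]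
    module
  rw [e1, e2, h2]
  have : p • a = p • b + p • x - p • y := by
    rw [ha]; simp only [smul_add, smul_sub]; abel
  rw [this]
  abel

lemma up_conj (T : Tup x y a b L R) (hx : Up 1 x) (hy : Up 1 y) (c : Bool) :
    Up 3 (lett a b c * (1 + x - y) - (1 + x - y) * lett x y c) := by
  have h0 : a = x - y * x + a * b := by
    linear_combination (norm := noncomm_ring) T.e2
  have hb : b = a - x + y := by linear_combination (norm := abel1) -T.e1
  have h1 : Up 2 (a - x) := by
    have : a - x = -(y * x) + a * b := by
      conv_lhs => rw [h0]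
      noncomm_ring
    rw [this]
    exact (hy.mul hx).neg.add (T.ua.mul T.ub)
  have h2 : Up 2 (b - y) := by
    have : b - y = a - x := by rw [hb]; abel
    rwa [this]
  have h3 : Up 3 (a - x - (x * y - y * x)) := by
    have : a - x - (x * y - y * x) = (a - x) * b + x * (b - y) := by
      conv_lhs => rw [h0]
      noncomm_ring
    rw [this]
    exact (h1.mul T.ub).add (hx.mul h2)
  cases c
  · have : b * (1 + x - y) - (1 + x - y) * y =
        (a - x - (x * y - y * x)) + (b - y) * (x - y) := by
      rw [hb]
      noncomm_ring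
    simp only [lett]
    rw [this]
    exact h3.add (h2.mul (hx.sub hy))
  · have : a * (1 + x - y) - (1 + x - y) * x =
        (a - x - (x * y - y * x)) + (a - x) * (x - y) := by
      noncomm_ring
    simp only [lett]
    rw [this]
    exact h3.add (h1.mul (hx.sub hy))

lemma up_mon_conj (T : Tup x y a b L R) (hx : Up 1 x) (hy : Up 1 y) (u : List Bool) :
    Up (u.length + 2) (mon a b u * (1 + x - y) - (1 + x - y) * mon x y u) := by
  induction u with
  | nil =>
    simp only [mon, one_mul, mul_one, sub_self]
    exact Up.zero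
  | cons c u ih =>
    have : mon a b (c :: u) * (1 + x - y) - (1 + x - y) * mon x y (c :: u) =
        mon a b u * (lett a b c * (1 + x - y) - (1 + x - y) * lett x y c)
        + (mon a b u * (1 + x - y) - (1 + x - y) * mon x y u) * lett x y c := by
      simp only [mon]
      noncomm_ring
    rw [this]
    exact ((up_mon T.ua T.ub u).mul' (T.up_conj hx hy c) (by simp)).add
      (ih.mul' (up_lett hx hy c) (by simp))

lemma up_main (T : Tup x y a b L R) (hx : Up 1 x) (hy : Up 1 y) (u : List Bool) :
    Up (u.length + 2) (L * mon a b u * R - (1 + x) * mon x y u * (1 + y)) := by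
  have hL : L = 1 + L * y := by
    have := T.eL
    rw [mul_sub, mul_one, sub_eq_iff_eq_add] at this
    exact this
  have hR : R = 1 + x * R := by
    have := T.eR
    rw [sub_mul, one_mul, sub_eq_iff_eq_add] at this
    exact this
  have h1 : Up 2 (L * (1 + x - y) - (1 + x)) := by
    have : L * (1 + x - y) - (1 + x) = L * y * x + (L * (1 - y) - 1) + (L - (1 + L * y)) * x := by
      noncomm_ring
    rw [this, T.eL, ← hL, sub_self, sub_self, zero_mul, add_zero, add_zero]
    exact (T.uL.mul hy).mul hx
  have h2 : Up 2 (R - (1 + x - y) * (1 + y)) := by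
    have : R - (1 + x - y) * (1 + y) = x * x * R - x * y + y * y + (R - (1 + x * R))
        + x * (R - (1 + x * R)) := by
      noncomm_ring
    rw [this, ← hR, sub_self, mul_zero, add_zero, add_zero]
    exact (((hx.mul hx).mul T.uR).sub (hx.mul hy)).add (hy.mul hy)
  have h1y : Up 0 (1 + y) := Up.one.add (hy.mono (by omega))
  have : L * mon a b u * R - (1 + x) * mon x y u * (1 + y) =
      L * mon a b u * (R - (1 + x - y) * (1 + y))
      + L * (mon a b u * (1 + x - y) - (1 + x - y) * mon x y u) * (1 + y)
      + (L * (1 + x - y) - (1 + x)) * mon x y u * (1 + y) := by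
    noncomm_ring
  rw [this]
  refine (Up.add ?_ ?_).add ?_
  · exact (T.uL.mul (up_mon T.ua T.ub u)).mul' h2 (by omega)
  · exact (T.uL.mul (T.up_mon_conj hx hy u)).mul' h1y (by omega)
  · exact (h1.mul (up_mon hx hy u)).mul' h1y (by omega)

end Tup

/-- admissible words: empty, or starting with `y` and ending with `x` -/
def AdmW (u : List Bool) : Prop := u = [] ∨ (u.head? = some true ∧ u.getLast? = some false)

/-- the structure constants of the difference equation -/
def cst (w : List Bool) (a b L R : Mt w.length) (u : List Bool) : ℚ :=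
  (L * mon a b u * R - mon (xm w) (ym w) u) 0 (Fin.last _)

lemma cst_ne_zero {w : List Bool} (h1 : w.head? = some true) (h2 : w.getLast? = some false)
    {a b L R : Mt w.length} (T : Tup (xm w) (ym w) a b L R) (u : List Bool)
    (h : cst w a b L R u ≠ 0) : u.length + 2 ≤ w.length ∧ AdmW u := by
  have hx : Up 1 (xm w) := up_lm _ _
  have hy : Up 1 (ym w) := up_lm _ _
  constructor
  · by_contra hlt
    apply h
    have h3 := (T.up_main hx hy u).corner (by omega)
    have : L * mon a b u * R - mon (xm w) (ym w) u =
        (L * mon a b u * R - (1 + xm w) * mon (xm w) (ym w) u * (1 + ym w))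
        + xm w * (mon (xm w) (ym w) u * (1 + ym w)) + mon (xm w) (ym w) u * ym w := by
      noncomm_ring
    rw [cst, this, Matrix.add_apply, Matrix.add_apply, h3, xm_row w h2, ym_col w h1]
    simp
  · by_contra hn
    apply h
    have hne : u ≠ [] := fun h => hn (Or.inl h)
    by_cases hh : u.head? = some true
    · obtain ⟨v, c, rfl⟩ := List.eq_nil_or_concat u |>.resolve_left hne
      cases c
      · exact absurd (Or.inr ⟨hh, by simp⟩) hn
      · obtain ⟨M, hM⟩ := T.la
        rw [cst, List.concat_eq_append, mon_append, mon_append, Matrix.sub_apply]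
        simp only [lett]
        rw [← mul_assoc, hM, mul_assoc, mul_assoc, xm_row w h2, xm_row w h2, sub_zero]
    · cases u with
      | nil => exact absurd rfl hne
      | cons c v =>
        cases c
        · obtain ⟨M, hM⟩ := T.bR
          rw [cst, Matrix.sub_apply]
          simp only [mon, lett]
          rw [mul_assoc, mul_assoc, hM, ← mul_assoc, ← mul_assoc, ym_col w h1, ym_col w h1,
            sub_zero]
        · simp at hh

end Pool.Agent.MP_cbe134_nt
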