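import Pool.Agent.MP_cbe134_nt.B2

/- The difference equation and its consequence: the sums `F` are combinations of truncated
multiple zeta values of indices without ones. -/

open Finset

namespace Pool.Agent.MP_cbe134_nt

variable {k : ℕ}

/-- the grading automorphism -/
def th (c : ℚ) (M : Mt k) : Mt k := fun i j => c ^ ((j : ℤ) - (i : ℤ)) * M i j

lemma th_sub (c : ℚ) (M N : Mt k) : th c (M - N) = th c M - th c N := by
  ext i j; simp [th, mul_sub]

lemma th_one (c : ℚ) : th c (1 : Mt k) = 1 := by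
  ext i j
  by_cases h : i = j
  · subst h; simp [th]
  · simp [th, Matrix.one_apply_ne h]

lemma th_mul {c : ℚ} (hc : c ≠ 0) (M N : Mt k) : th c (M * N) = th c M * th c N := by
  ext i j
  simp only [th, Matrix.mul_apply, mul_sum]
  refine sum_congr rfl fun l _ => ?_
  have : c ^ ((j : ℤ) - (i : ℤ)) = c ^ ((l : ℤ) - (i : ℤ)) * c ^ ((j : ℤ) - (l : ℤ)) := by
    rw [← zpow_add₀ hc]; congr 1; ring
  rw [this]; ring

lemma up_th {m : ℕ} (c : ℚ) {M : Mt k} (h : Up m M) : Up m (th c M) := fun i j hij => by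
  simp [th, h i j hij]

lemma th_lm (c : ℚ) (v : List Bool) (d : Bool) : th c (lm k v d) = c • lm k v d := by
  ext i j
  simp only [th, lm, Matrix.smul_apply, smul_eq_mul]
  split_ifs with h
  · rw [h.1]; simp
  · simp

lemma th_corner (c : ℚ) (M : Mt k) : th c M 0 (Fin.last k) = c ^ k * M 0 (Fin.last k) := by
  simp [th]

lemma th_mon {c : ℚ} (hc : c ≠ 0) (X Y : Mt k) (u : List Bool) :
    th c (mon X Y u) = mon (th c X) (th c Y) u := by
  induction u with
  | nil => exact th_one c
  | cons d u ih => cases d <;> simp [mon, lett, th_mul hc, ih]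

lemma mon_smul (t : ℚ) (X Y : Mt k) (u : List Bool) :
    mon (t • X) (t • Y) u = t ^ u.length • mon X Y u := by
  induction u with
  | nil => simp [mon]
  | cons d u ih => cases d <;> simp [mon, lett, ih, pow_succ, smul_smul, mul_comm]

lemma Tup.th {x y a b L R : Mt k} (T : Tup x y a b L R) {c : ℚ} (hc : c ≠ 0) :
    Tup (th c x) (th c y) (th c a) (th c b) (th c L) (th c R) := by
  refine ⟨up_th c T.ua, up_th c T.ub, up_th c T.uL, up_th c T.uR, ?_, ?_, ?_, ?_, ?_, ?_⟩
  · rw [← th_sub, ← th_sub, T.e1]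
  · rw [← th_one c, ← th_sub, ← th_sub, ← th_mul hc, ← th_mul hc, T.e2]
  · rw [← th_one c, ← th_sub, ← th_mul hc, T.eL]
  · rw [← th_one c, ← th_sub, ← th_mul hc, T.eR]
  · obtain ⟨M, hM⟩ := T.la
    exact ⟨_root_.Pool.Agent.MP_cbe134_nt.th c M, by rw [← th_mul hc, ← th_mul hc, hM]⟩
  · obtain ⟨M, hM⟩ := T.bR
    exact ⟨_root_.Pool.Agent.MP_cbe134_nt.th c M, by rw [← th_mul hc, ← th_mul hc, hM]⟩

/-- coefficients of `∏_{n ≤ j} (1 - y/(N-n))⁻¹ (1 - x/n)⁻¹` -/
def AA (N : ℕ) : ℕ → List Bool → ℚ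
  | 0 => dlt
  | j + 1 => geo true ((j + 1 : ℚ)⁻¹) (geo false (((N : ℚ) - (j + 1))⁻¹) (AA N j))

lemma ev_AA {X Y : Mt k} (hX : Up 1 X) (hY : Up 1 Y) (N j : ℕ) :
    ev X Y k (AA N (j + 1)) * (1 - (j + 1 : ℚ)⁻¹ • X) * (1 - ((N : ℚ) - (j + 1))⁻¹ • Y)
      = ev X Y k (AA N j) := by
  have h1 := ev_geo hX hY true ((j + 1 : ℚ)⁻¹) (geo false (((N : ℚ) - (j + 1))⁻¹) (AA N j))
  have h2 := ev_geo hX hY false (((N : ℚ) - (j + 1))⁻¹) (AA N j)
  simp only [lett] at h1 h2
  rw [AA, h1, h2]

lemma swap_factor {x y a b L R : Mt k} {N : ℚ} (hN : N ≠ 0)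
    (T : Tup (N⁻¹ • x) (N⁻¹ • y) a b L R) {n : ℚ} (hn : n ≠ 0) (hn' : N - n ≠ 0) :
    (1 - (N - n)⁻¹ • y) * (1 - n⁻¹ • x) =
      (1 - n⁻¹ • (N • a)) * (1 - (N - n)⁻¹ • (N • b)) := by
  have h := T.refac (n / N) ((N - n) / N) (by field_simp; ring)
  have e1 : (1 - (N - n)⁻¹ • y) = (N / (N - n)) • (((N - n) / N) • (1 : Mt k) - N⁻¹ • y) := by
    rw [smul_sub, smul_smul, smul_smul]
    congr 1
    · rw [show N / (N - n) * ((N - n) / N) = 1 by field_simp, one_smul]
    · congr 1; field_simp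
  have e2 : (1 - n⁻¹ • x) = (N / n) • ((n / N) • (1 : Mt k) - N⁻¹ • x) := by
    rw [smul_sub, smul_smul, smul_smul]
    congr 1
    · rw [show N / n * (n / N) = 1 by field_simp, one_smul]
    · congr 1; field_simp
  have e3 : (1 - (N - n)⁻¹ • (N • b)) = (N / (N - n)) • (((N - n) / N) • (1 : Mt k) - b) := by
    rw [smul_sub, smul_smul, smul_smul]
    congr 1
    · rw [show N / (N - n) * ((N - n) / N) = 1 by field_simp, one_smul]
    · congr 1; field_simp
  have e4 : (1 - n⁻¹ • (N • a)) = (N / n) • ((n / N) • (1 : Mt k) - a) := by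
    rw [smul_sub, smul_smul, smul_smul]
    congr 1
    · rw [show N / n * (n / N) = 1 by field_simp, one_smul]
    · congr 1; field_simp
  rw [e1, e2, e3, e4, smul_mul_smul_comm, smul_mul_smul_comm, h, mul_comm (N / n)]

lemma ev_AA_step {x y a b L R : Mt k} (hx : Up 1 x) (hy : Up 1 y) (M : ℕ)
    (T : Tup ((M + 1 : ℚ)⁻¹ • x) ((M + 1 : ℚ)⁻¹ • y) a b L R) :
    ev x y k (AA (M + 2) (M + 1)) =
      L * ev ((M + 1 : ℚ) • a) ((M + 1 : ℚ) • b) k (AA (M + 1) M) * R := by
  have hN : (M + 1 : ℚ) ≠ 0 := by positivity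
  have ha : Up 1 ((M + 1 : ℚ) • a) := T.ua.smul _
  have hb : Up 1 ((M + 1 : ℚ) • b) := T.ub.smul _
  have key : ∀ j, j ≤ M → (1 - (M + 1 : ℚ)⁻¹ • y) * ev x y k (AA (M + 2) (j + 1))
      * (1 - (j + 1 : ℚ)⁻¹ • x) = ev ((M + 1 : ℚ) • a) ((M + 1 : ℚ) • b) k (AA (M + 1) j) := by
    intro j
    induction j with
    | zero =>
      intro _
      have h := ev_AA hx hy (M + 2) 0
      rw [AA, ev_dlt] at h
      rw [AA, ev_dlt, mul_assoc]
      have e : ((M + 2 : ℕ) : ℚ) - ((0 : ℕ) + 1) = M + 1 := by push_cast; ring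
      rw [e] at h
      exact mul_eq_one_comm.1 h
    | succ j ih =>
      intro hj
      have h1 := ev_AA hx hy (M + 2) (j + 1)
      have h2 := ev_AA ha hb (M + 1) j
      have e : ((M + 2 : ℕ) : ℚ) - ((j + 1 : ℕ) + 1) = (M + 1) - (j + 1) := by push_cast; ring
      have e' : ((M + 1 : ℕ) : ℚ) = M + 1 := by push_cast; ring
      rw [e] at h1
      rw [e'] at h2
      have hj' : (M + 1 : ℚ) - (j + 1) ≠ 0 := by
        have : (j : ℚ) + 1 ≤ M := by exact_mod_cast hj
        linarith
      have h3 := swap_factor hN T (n := j + 1) (by positivity) hj'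
      have h4 := ih (by omega)
      refine (ha.smul (j + 1 : ℚ)⁻¹).cancel ((hb.smul ((M + 1 : ℚ) - (j + 1))⁻¹).cancel ?_)
      rw [h2, ← h4, ← h1, mul_assoc _ (1 - (j + 1 : ℚ)⁻¹ • _), ← h3]
      simp only [mul_assoc]
  rw [← key M le_rfl]
  calc _ = (L * (1 - (M + 1 : ℚ)⁻¹ • y)) * ev x y k (AA (M + 2) (M + 1))
      * ((1 - (M + 1 : ℚ)⁻¹ • x) * R) := by rw [T.eL, T.eR, one_mul, mul_one]
    _ = _ := by simp only [mul_assoc]

lemma ev_sandwich (X Y L R : Mt k) (m : ℕ) (f : List Bool → ℚ) (i j : Fin (k + 1)) :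
    (L * ev X Y m f * R) i j = ((wl m).map fun u => f u * (L * mon X Y u * R) i j).sum := by
  unfold ev
  induction wl m with
  | nil => simp
  | cons u l ih =>
    simp only [List.map_cons, List.sum_cons, mul_add, add_mul, Matrix.add_apply, ih,
      mul_smul_comm, smul_mul_assoc, Matrix.smul_apply, smul_eq_mul]

/-- the sums `F_N (w)` -/
def FF (w : List Bool) (N : ℕ) : ℚ := AA N (N - 1) w

lemma FF_step {w : List Bool} (h1 : w.head? = some true) (h2 : w.getLast? = some false)
    {a b L R : Mt w.length} (T : Tup (xm w) (ym w) a b L R) (N : ℕ) :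
    FF w (N + 1) = FF w N + ((wl w.length).map fun u =>
      cst w a b L R u * (((N : ℚ)⁻¹) ^ (w.length - u.length) * FF u N)).sum := by
  cases N with
  | zero =>
    have : ∀ u, cst w a b L R u * ((((0 : ℕ) : ℚ)⁻¹) ^ (w.length - u.length) * FF u 0) = 0 := by
      intro u
      by_cases h : cst w a b L R u = 0
      · rw [h, zero_mul]
      · have := (cst_ne_zero h1 h2 T u h).1
        simp [zero_pow (by omega : w.length - u.length ≠ 0)]
    simp only [this]
    simp [FF, AA]
  | succ M =>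
    have hx : Up 1 (xm w) := up_lm _ _
    have hy : Up 1 (ym w) := up_lm _ _
    have hN : (M + 1 : ℚ) ≠ 0 := by positivity
    have hc : (M + 1 : ℚ)⁻¹ ≠ 0 := inv_ne_zero hN
    have T' := T.th hc
    rw [xm, ym, th_lm, th_lm, ← xm, ← ym] at T'
    have e1 := ev_AA_step hx hy M T'
    have e2 : FF w (M + 1 + 1) = ev (xm w) (ym w) w.length (AA (M + 2) (M + 1)) 0 (Fin.last _) :=
      (ev_corner w _).symm
    have e3 : FF w (M + 1) = (1 * ev (xm w) (ym w) w.length (AA (M + 1) M) * 1) 0 (Fin.last _) := by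
      rw [one_mul, mul_one]; exact (ev_corner w _).symm
    rw [e2, e1, e3, ev_sandwich, ev_sandwich, ← List.sum_map_add]
    congr 1
    refine List.map_congr_left fun u _ => ?_
    have e4 : mon (xm w) (ym w) u = (M + 1 : ℚ) ^ u.length • th (M + 1 : ℚ)⁻¹ (mon (xm w) (ym w) u) := by
      rw [th_mon hc, xm, ym, th_lm, th_lm, ← mon_smul, smul_smul, smul_smul, mul_inv_cancel₀ hN,
        one_smul, one_smul]
    have e5 : (1 * mon (xm w) (ym w) u * 1) 0 (Fin.last _) =
        (M + 1 : ℚ) ^ u.length * (((M + 1 : ℚ)⁻¹) ^ w.length * mon (xm w) (ym w) u 0 (Fin.last _)) := by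
      rw [one_mul, mul_one, ← th_corner, ← smul_eq_mul, ← Matrix.smul_apply, ← e4]
    rw [e5, mon_smul, ← th_mon hc, mul_smul_comm, smul_mul_assoc, ← th_mul hc, ← th_mul hc,
      Matrix.smul_apply, th_corner, smul_eq_mul]
    have e6 : FF u (M + 1) = AA (M + 1) M u := rfl
    have e7 : cst w a b L R u * ((((M + 1 : ℕ) : ℚ)⁻¹) ^ (w.length - u.length)) =
        cst w a b L R u * ((M + 1 : ℚ) ^ u.length * ((M + 1 : ℚ)⁻¹) ^ w.length) := by
      by_cases h : cst w a b L R u = 0
      · rw [h, zero_mul, zero_mul]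
      · have := (cst_ne_zero h1 h2 T u h).1
        obtain ⟨d, hd⟩ : ∃ d, w.length = d + u.length := ⟨w.length - u.length, by omega⟩
        have e8 : w.length - u.length = d := by omega
        congr 1
        rw [e8, show ((M + 1 : ℚ)⁻¹) ^ w.length = ((M + 1 : ℚ)⁻¹) ^ (d + u.length) by rw [← hd]]
        push_cast
        rw [pow_add, inv_pow _ u.length]
        field_simp
    rw [← mul_assoc (cst w a b L R u), e7, e6, cst, Matrix.sub_apply]
    ring

/-- the span of the truncated sums of weight `k` for indices without ones -/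
def SS (k : ℕ) : Submodule ℚ (ℕ → ℚ) :=
  Submodule.span ℚ {f | ∃ v : List ℕ, (∀ a ∈ v, 2 ≤ a) ∧ v.sum = k ∧ f = Zt v}

/-- the summation operator -/
def sig (a : ℕ) (f : ℕ → ℚ) : ℕ → ℚ := fun N => ∑ n ∈ range N, ((n : ℚ)⁻¹) ^ a * f n

lemma sig_mem {a k : ℕ} (ha : 2 ≤ a) {f : ℕ → ℚ} (hf : f ∈ SS k) : sig a f ∈ SS (a + k) := by
  induction hf using Submodule.span_induction with
  | mem f hf =>
    obtain ⟨v, h1, h2, rfl⟩ := hf
    refine Submodule.subset_span ⟨a :: v, ?_, by simp [h2], rfl⟩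
    intro b hb
    rcases List.mem_cons.1 hb with rfl | hb
    · exact ha
    · exact h1 b hb
  | zero =>
    have : sig a 0 = 0 := by funext N; simp [sig]
    rw [this]; exact zero_mem _
  | add f g _ _ hf hg =>
    have : sig a (f + g) = sig a f + sig a g := by
      funext N; simp [sig, mul_add, sum_add_distrib]
    rw [this]; exact add_mem hf hg
  | smul c f _ hf =>
    have : sig a (c • f) = c • sig a f := by
      funext N; simp [sig, mul_sum, mul_left_comm]
    rw [this]; exact Submodule.smul_mem _ c hf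

lemma AA_nil (N j : ℕ) : AA N j [] = 1 := by
  induction j with
  | zero => rfl
  | succ j ih => simpa [AA, geo] using ih

theorem FF_mem (w : List Bool) (hw : AdmW w) : FF w ∈ SS w.length := by
  induction h : w.length using Nat.strong_induction_on generalizing w with
  | _ k ih =>
    rcases hw with rfl | ⟨h1, h2⟩
    · refine Submodule.subset_span ⟨[], by simp, by simpa using h, ?_⟩
      funext N
      exact AA_nil _ _
    · obtain ⟨a, b, L, R, T⟩ := exists_tup (x := xm w) (y := ym w) (up_lm _ _) (up_lm _ _)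
      have e : FF w = ((wl w.length).map fun u =>
          cst w a b L R u • sig (w.length - u.length) (FF u)).sum := by
        funext N
        rw [Pi.list_sum_apply, List.map_map]
        induction N with
        | zero =>
          have : FF w 0 = 0 := by
            cases w with
            | nil => simp at h1
            | cons c u => rfl
          rw [this]
          symm
          refine List.sum_eq_zero fun x hx => ?_
          obtain ⟨u, -, rfl⟩ := List.mem_map.1 hx
          simp [sig]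
        | succ N ihN =>
          rw [FF_step h1 h2 T, ihN, ← List.sum_map_add]
          congr 1
          refine List.map_congr_left fun u _ => ?_
          simp [sig, sum_range_succ, mul_add]
      rw [e]
      refine list_sum_mem fun f hf => ?_
      obtain ⟨u, -, rfl⟩ := List.mem_map.1 hf
      by_cases hc : cst w a b L R u = 0
      · rw [hc, zero_smul]; exact zero_mem _
      · obtain ⟨h3, h4⟩ := cst_ne_zero h1 h2 T u hc
        refine Submodule.smul_mem _ _ ?_
        have := sig_mem (a := w.length - u.length) (by omega) (ih u.length (by omega) u h4 rfl)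
        rwa [show w.length - u.length + u.length = k by omega] at this

end Pool.Agent.MP_cbe134_nt
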