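import Pool.Agent.MP_cbe134_nt.B3

/- The discretized iterated integral formula of Maesaka, Seki and Watanabe. -/

open Finset

namespace Pool.Agent.MP_cbe134_nt

variable {k : ℕ}

/-- coefficients of `∏_{n ≤ j} (1 + y/(N-n)) (1 - x/n)⁻¹` -/
def AF (N : ℕ) : ℕ → List Bool → ℚ
  | 0 => dlt
  | j + 1 => geo true ((j + 1 : ℚ)⁻¹) (lin false (((N : ℚ) - (j + 1))⁻¹) (AF N j))

lemma ev_AF {X Y : Mt k} (hX : Up 1 X) (hY : Up 1 Y) (N j : ℕ) :
    ev X Y k (AF N (j + 1)) * (1 - (j + 1 : ℚ)⁻¹ • X)
      = ev X Y k (AF N j) * (1 + ((N : ℚ) - (j + 1))⁻¹ • Y) := by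
  have h1 := ev_geo hX hY true ((j + 1 : ℚ)⁻¹) (lin false (((N : ℚ) - (j + 1))⁻¹) (AF N j))
  have h2 := ev_lin hX hY false (((N : ℚ) - (j + 1))⁻¹) (AF N j)
  simp only [lett] at h1 h2
  rw [AF, h1, h2]

lemma ev_AF_step {x y : Mt k} (hx : Up 1 x) (hy : Up 1 y) (M : ℕ) :
    ∃ W : Mt k, ev x y k (AF (M + 2) (M + 1)) = (1 + x * W) * (ev x y k (AF (M + 1) M) +
      ev x y k (geo true (M + 1 : ℚ)⁻¹ (rho false (M + 1 : ℚ)⁻¹ (AF (M + 1) M)))) := by
  have hN : (M + 1 : ℚ) ≠ 0 := by positivity
  set c : ℚ := (M + 1 : ℚ)⁻¹ with hc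
  obtain ⟨G, g1, -, -⟩ := ((hx.smul c).sub (hy.smul c)).exists_inv
  set Mx : Mt k := 1 - (c • x - c • y) with hMx
  have hv : (1 + x * (c • G)) * Mx = 1 + c • y := by
    rw [add_mul, mul_assoc, smul_mul_assoc, g1, hMx, mul_smul_comm, mul_one, one_mul]
    abel
  refine ⟨c • G, ?_⟩
  have key : ∀ j, j ≤ M → ev x y k (AF (M + 2) (j + 1)) * (1 - (j + 1 : ℚ)⁻¹ • x) =
      (1 + x * (c • G)) * ev x y k (AF (M + 1) j) * Mx := by
    intro j
    induction j with
    | zero =>
      intro _
      have h := ev_AF hx hy (M + 2) 0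
      have e : ((M + 2 : ℕ) : ℚ) - ((0 : ℕ) + 1) = M + 1 := by push_cast; ring
      rw [h, e, AF, AF, ev_dlt, mul_one, one_mul, hv]
    | succ j ih =>
      intro hj
      have h1 := ev_AF hx hy (M + 2) (j + 1)
      have h2 := ev_AF hx hy (M + 1) j
      have e : ((M + 2 : ℕ) : ℚ) - ((j + 1 : ℕ) + 1) = (M + 1) - (j + 1) := by push_cast; ring
      have e' : ((M + 1 : ℕ) : ℚ) = M + 1 := by push_cast; ring
      rw [e] at h1
      rw [e'] at h2
      have hj' : (M + 1 : ℚ) - (j + 1) ≠ 0 := by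
        have : (j : ℚ) + 1 ≤ M := by exact_mod_cast hj
        linarith
      have hj0 : (j + 1 : ℚ) ≠ 0 := by positivity
      have h4 := ih (by omega)
      obtain ⟨A, a1, a2, -⟩ := (hx.smul (j + 1 : ℚ)⁻¹).exists_inv
      set al : Mt k := 1 - (j + 1 : ℚ)⁻¹ • x with hal
      set be : Mt k := 1 + ((M + 1 : ℚ) - (j + 1))⁻¹ • y with hbe
      have hM : Mx = ((j + 1 : ℚ) * c) • al + (((M + 1 : ℚ) - (j + 1)) * c) • be := by
        rw [hMx, hal, hbe, smul_sub, smul_add, smul_smul, smul_smul]
        have e1 : (j + 1 : ℚ) * c * (j + 1 : ℚ)⁻¹ = c := by field_simp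
        have e2 : ((M + 1 : ℚ) - (j + 1)) * c * ((M + 1 : ℚ) - (j + 1))⁻¹ = c := by field_simp
        have e3 : (1 : Mt k) = ((j + 1 : ℚ) * c) • (1 : Mt k)
            + (((M + 1 : ℚ) - (j + 1)) * c) • (1 : Mt k) := by
          rw [← add_smul, show (j + 1 : ℚ) * c + ((M + 1 : ℚ) - (j + 1)) * c = 1 by
            rw [hc]; field_simp; ring, one_smul]
        rw [e1, e2]
        conv_lhs => rw [e3]
        abel
      have h5 : Mx * A * be = be * A * Mx := by
        rw [hM]
        simp only [add_mul, mul_add, smul_mul_assoc, mul_smul_comm, mul_assoc, a1, mul_one]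
        rw [← mul_assoc al, a2]
        simp only [one_mul]
      have h6 : ev x y k (AF (M + 2) (j + 1)) =
          (1 + x * (c • G)) * ev x y k (AF (M + 1) j) * Mx * A := by
        rw [← h4, mul_assoc, a2, mul_one]
      have h7 : ev x y k (AF (M + 1) (j + 1)) = ev x y k (AF (M + 1) j) * be * A := by
        rw [← h2, mul_assoc, a2, mul_one]
      rw [h1, h6, h7]
      calc _ = (1 + x * (c • G)) * ev x y k (AF (M + 1) j) * (Mx * A * be) := by
            simp only [mul_assoc]
        _ = _ := by rw [h5]; simp only [mul_assoc]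
  refine (hx.smul c).cancel ?_
  have h8 := ev_geo hx hy true c (rho false c (AF (M + 1) M))
  rw [ev_rho hx hy] at h8
  simp only [lett] at h8
  rw [key M le_rfl, mul_assoc, mul_assoc, add_mul (ev x y k (AF (M + 1) M)), h8, ← mul_add, hMx]
  congr 2
  abel

/-- the flat sums -/
def FL (w : List Bool) (N : ℕ) : ℚ := AF N (N - 1) w

lemma FL_step {w : List Bool} (h2 : w.getLast? = some false) (M : ℕ) :
    FL w (M + 2) = FL w (M + 1) +
      geo true (M + 1 : ℚ)⁻¹ (rho false (M + 1 : ℚ)⁻¹ (AF (M + 1) M)) w := by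
  obtain ⟨W, hW⟩ := ev_AF_step (x := xm w) (y := ym w) (up_lm _ _) (up_lm _ _) M
  have h := congrFun (congrFun hW 0) (Fin.last _)
  rw [add_mul, one_mul, mul_assoc, Matrix.add_apply, xm_row w h2, add_zero, Matrix.add_apply,
    ev_corner, ev_corner, ev_corner] at h
  exact h

/-- the word of an index; the head of the list is the last letter -/
def wd : List ℕ → List Bool
  | [] => []
  | a :: k => List.replicate (a - 1) true ++ false :: wd k

lemma wd_length (k : List ℕ) (hk : ∀ a ∈ k, 1 ≤ a) : (wd k).length = k.sum := by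
  induction k with
  | nil => rfl
  | cons a k ih =>
    have := hk a (by simp)
    simp [wd, ih fun b hb => hk b (by simp [hb])]
    omega

lemma wd_last (a : ℕ) (k : List ℕ) : (wd (a :: k)).getLast? = some false := by
  induction k generalizing a with
  | nil => simp [wd]
  | cons b k ih =>
    rw [wd, List.getLast?_append, List.getLast?_cons, ih b]
    simp

lemma admW_wd (k : List ℕ) (hk : Adm k) : AdmW (wd k) := by
  cases k with
  | nil => exact Or.inl rfl
  | cons a k =>
    refine Or.inr ⟨?_, wd_last a k⟩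
    have ha : 2 ≤ a := hk.2 a (by simp)
    obtain ⟨b, rfl⟩ : ∃ b, a = b + 2 := ⟨a - 2, by omega⟩
    simp [wd, List.replicate_succ]

lemma geo_rho (t : ℚ) (f : List Bool → ℚ) (i : ℕ) (u : List Bool) :
    geo true t (rho false t f) (List.replicate i true ++ false :: u) = t ^ (i + 1) * f u := by
  induction i with
  | zero => simp [geo, rho]
  | succ i ih =>
    simp only [List.replicate_succ, List.cons_append, geo, rho, ih]
    simp
    ring

lemma AF_nil (N j : ℕ) : AF N j [] = 1 := by
  induction j with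
  | zero => rfl
  | succ j ih => simpa [AF, geo, lin, rho] using ih

theorem FL_wd (k : List ℕ) (hk : ∀ a ∈ k, 1 ≤ a) (N : ℕ) : FL (wd k) N = Zt k N := by
  induction k generalizing N with
  | nil => exact AF_nil _ _
  | cons a k ih =>
    have ha := hk a (by simp)
    have ih' := ih fun b hb => hk b (by simp [hb])
    have h0 : dlt (wd (a :: k)) = 0 := by
      cases h : wd (a :: k) with
      | nil => simp [wd] at h
      | cons c u => rfl
    induction N with
    | zero => rw [Zt_cons_zero]; exact h0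
    | succ N ihN =>
      cases N with
      | zero =>
        rw [Zt_succ, Zt_cons_zero]
        simp only [Nat.cast_zero, inv_zero, zero_pow (by omega : a ≠ 0), zero_mul, add_zero]
        exact h0
      | succ M =>
        rw [FL_step (wd_last a k), ihN, Zt_succ a k (M + 1), wd, geo_rho, ← ih' (M + 1),
          show a - 1 + 1 = a by omega]
        push_cast
        rfl

end Pool.Agent.MP_cbe134_nt
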