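import Pool.Agent.MP_cbe134_nt.B4
import Pool.Agent.MP_cbe134_nt.A2

/- The comparison of the two discretizations, and the generation of the multiple zeta values by
indices without ones (Hirose, Maesaka, Seki, Watanabe). -/

open Finset Filter Topology

namespace Pool.Agent.MP_cbe134_nt

lemma geo_nonneg {c : Bool} {t : ℚ} {f : List Bool → ℚ} (ht : 0 ≤ t) (hf : ∀ u, 0 ≤ f u)
    (u : List Bool) : 0 ≤ geo c t f u := by
  induction u with
  | nil => exact hf _
  | cons d u ih =>
    simp only [geo]
    have := hf (d :: u)
    split_ifs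
    · positivity
    · simpa using this

lemma le_geo {c : Bool} {t : ℚ} {f : List Bool → ℚ} (ht : 0 ≤ t) (hf : ∀ u, 0 ≤ f u)
    (u : List Bool) : f u ≤ geo c t f u := by
  cases u with
  | nil => exact le_rfl
  | cons d u =>
    simp only [geo]
    have := geo_nonneg (c := c) ht hf u
    split_ifs
    · exact le_add_of_nonneg_right (by positivity)
    · simp

/-- the weight of the letter `c` at step `i` -/
def wt (N : ℕ) (c : Bool) (i : ℕ) : ℚ := if c then (i + 1 : ℚ)⁻¹ else ((N : ℚ) - (i + 1))⁻¹

/-- the sum of the squares of the weights of `y` -/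
def sg (N j : ℕ) : ℚ := ∑ i ∈ range j, wt N false i ^ 2

section

variable {M : ℕ}

lemma wt_nonneg (c : Bool) {i : ℕ} (hi : i < M) : 0 ≤ wt (M + 1) c i := by
  unfold wt
  split_ifs
  · positivity
  · have : (i : ℚ) < M := by exact_mod_cast hi
    push_cast
    exact inv_nonneg.2 (by linarith)

lemma sum_wt_le (c : Bool) {j : ℕ} (hj : j ≤ M) :
    ∑ i ∈ range j, wt (M + 1) c i ≤ harmonic M := by
  refine (sum_le_sum_of_subset_of_nonneg (range_subset_range.2 hj)
    fun i hi _ => wt_nonneg c (mem_range.1 hi)).trans (le_of_eq ?_)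
  cases c
  · rw [harmonic, ← sum_range_reflect]
    refine sum_congr rfl fun i hi => ?_
    have hi := mem_range.1 hi
    obtain ⟨d, rfl⟩ : ∃ d, M = d + i + 1 := ⟨M - 1 - i, by omega⟩
    rw [show d + i + 1 - 1 - i = d by omega]
    simp only [wt]
    push_cast
    congr 1
    ring
  · simp [harmonic, wt]

lemma AA_true (N j : ℕ) (u : List Bool) :
    AA N (j + 1) (true :: u) = AA N j (true :: u) + wt N true j * AA N (j + 1) u := by
  simp [AA, geo, wt]

lemma AA_false (N j : ℕ) (u : List Bool) :
    AA N (j + 1) (false :: u) =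
      AA N j (false :: u) + wt N false j * geo false (wt N false j) (AA N j) u := by
  simp [AA, geo, wt]

lemma AF_true (N j : ℕ) (u : List Bool) :
    AF N (j + 1) (true :: u) = AF N j (true :: u) + wt N true j * AF N (j + 1) u := by
  simp [AF, geo, wt, lin, rho]

lemma AF_false (N j : ℕ) (u : List Bool) :
    AF N (j + 1) (false :: u) = AF N j (false :: u) + wt N false j * AF N j u := by
  simp [AF, geo, wt, lin, rho]

lemma AA_nonneg {j : ℕ} (hj : j ≤ M) (u : List Bool) : 0 ≤ AA (M + 1) j u := by
  induction j generalizing u with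
  | zero => cases u <;> simp [AA, dlt]
  | succ j ih =>
    exact geo_nonneg (wt_nonneg (M := M) true hj)
      (geo_nonneg (wt_nonneg (M := M) false hj) (ih (by omega))) u

lemma geo_le_AA {j : ℕ} (hj : j + 1 ≤ M) (u : List Bool) :
    geo false (wt (M + 1) false j) (AA (M + 1) j) u ≤ AA (M + 1) (j + 1) u :=
  le_geo (wt_nonneg (M := M) true hj)
    (geo_nonneg (wt_nonneg (M := M) false hj) (AA_nonneg (by omega))) u

lemma harmonic_nonneg' (M : ℕ) : 0 ≤ harmonic M := by
  simpa using sum_wt_le (M := M) true (Nat.zero_le _)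

lemma AA_le (u : List Bool) {j : ℕ} (hj : j ≤ M) : AA (M + 1) j u ≤ harmonic M ^ u.length := by
  have hH := harmonic_nonneg' M
  induction u generalizing j with
  | nil => simp [AA_nil]
  | cons c u ih =>
    have key : ∀ j, j ≤ M →
        AA (M + 1) j (c :: u) ≤ (∑ i ∈ range j, wt (M + 1) c i) * harmonic M ^ u.length := by
      intro j
      induction j with
      | zero => intro _; simp [AA, dlt]
      | succ j ihj =>
        intro hj
        have h1 := ihj (by omega)
        have h2 := wt_nonneg (M := M) c hj
        rw [sum_range_succ, add_mul]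
        cases c
        · rw [AA_false]
          have := (geo_le_AA hj u).trans (ih hj)
          gcongr
        · rw [AA_true]
          have := ih hj
          gcongr
    refine (key j hj).trans ?_
    rw [List.length_cons, pow_succ']
    gcongr
    exact sum_wt_le c hj

lemma sg_nonneg (N j : ℕ) : 0 ≤ sg N j := sum_nonneg fun _ _ => sq_nonneg _

lemma sg_succ (N j : ℕ) : sg N (j + 1) = sg N j + wt N false j ^ 2 := sum_range_succ _ _

lemma one_le_harmonic (hM : 1 ≤ M) : 1 ≤ harmonic M := by
  simpa [wt] using sum_wt_le (M := M) true hM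

lemma delta_bound (hM : 1 ≤ M) (u : List Bool) {j : ℕ} (hj : j ≤ M) :
    0 ≤ AA (M + 1) j u - AF (M + 1) j u ∧
      AA (M + 1) j u - AF (M + 1) j u ≤ u.length * harmonic M ^ u.length * sg (M + 1) j := by
  have hH := one_le_harmonic hM
  induction u generalizing j with
  | nil => simp [AA_nil, AF_nil]
  | cons c u ih =>
    set H := harmonic M with hHdef
    have key : ∀ j, j ≤ M → 0 ≤ AA (M + 1) j (c :: u) - AF (M + 1) j (c :: u) ∧
        AA (M + 1) j (c :: u) - AF (M + 1) j (c :: u) ≤
          u.length * H ^ u.length * sg (M + 1) j * (∑ i ∈ range j, wt (M + 1) c i)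
          + H ^ (u.length + 1) * sg (M + 1) j := by
      intro j
      induction j with
      | zero => intro _; simp [AA, AF, sg]
      | succ j ihj =>
        intro hj
        obtain ⟨h0, h1⟩ := ihj (by omega)
        have h2 := wt_nonneg (M := M) c hj
        have h3 : 0 ≤ ∑ i ∈ range j, wt (M + 1) c i :=
          sum_nonneg fun i hi => wt_nonneg c (by have := mem_range.1 hi; omega)
        have h4 := sg_nonneg (M + 1) j
        have h5 : 0 ≤ H ^ u.length := by positivity
        have h6 : (0 : ℚ) ≤ u.length * H ^ u.length := by positivity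
        rw [sum_range_succ, sg_succ]
        cases c
        · obtain ⟨g0, g1⟩ := ih (j := j) (by omega)
          set t := wt (M + 1) false j with ht
          have g2 : AA (M + 1) j u ≤ geo false t (AA (M + 1) j) u :=
            le_geo h2 (AA_nonneg (by omega)) u
          have g3 : geo false t (AA (M + 1) j) u ≤ AA (M + 1) j u + t * H ^ (u.length + 1) := by
            cases u with
            | nil => exact le_add_of_nonneg_right (by positivity)
            | cons d v =>
              simp only [geo]
              have g4 := (geo_le_AA hj v).trans (AA_le v hj)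
              have g5 : H ^ v.length ≤ H ^ ((d :: v).length + 1) :=
                pow_le_pow_right₀ hH (by simp; omega)
              have g6 := g4.trans g5
              split_ifs
              · gcongr
              · gcongr
                positivity
          rw [AA_false, AF_false, ← ht]
          constructor
          · nlinarith [mul_nonneg h2 (sub_nonneg.2 g2), mul_nonneg h2 g0]
          · have a1 := mul_le_mul_of_nonneg_left g3 h2
            have a2 := mul_le_mul_of_nonneg_left g1 h2
            have a3 : 0 ≤ u.length * H ^ u.length * t ^ 2 *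
              (∑ i ∈ range j, wt (M + 1) false i + t) := by positivity
            nlinarith
        · obtain ⟨g0, g1⟩ := ih (j := j + 1) hj
          rw [sg_succ] at g1
          set t := wt (M + 1) false j with ht
          set r := wt (M + 1) true j with hr
          rw [AA_true, AF_true, ← hr]
          constructor
          · nlinarith [mul_nonneg h2 g0]
          · have a2 := mul_le_mul_of_nonneg_left g1 h2
            have a3 : 0 ≤ u.length * H ^ u.length * t ^ 2 *
              (∑ i ∈ range j, wt (M + 1) true i) := by positivity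
            have a4 : 0 ≤ H ^ (u.length + 1) * t ^ 2 := by positivity
            nlinarith
    obtain ⟨k0, k1⟩ := key j hj
    refine ⟨k0, k1.trans ?_⟩
    have h4 := sg_nonneg (M + 1) j
    have h5 := sum_wt_le c hj
    have : u.length * H ^ u.length * sg (M + 1) j * (∑ i ∈ range j, wt (M + 1) c i) ≤
        u.length * H ^ u.length * sg (M + 1) j * H := by gcongr
    simp only [List.length_cons, Nat.cast_add, Nat.cast_one, pow_succ] at this ⊢
    nlinarith

lemma sg_le {j : ℕ} (hj : j < M) : sg (M + 1) (j + 1) ≤ 2 * wt (M + 1) false j := by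
  have key : ∀ j, j ≤ M → sg (M + 1) j ≤ 2 * ((M + 1 : ℚ) - j)⁻¹ := by
    intro j
    induction j with
    | zero => intro _; simp [sg]; positivity
    | succ j ih =>
      intro hj
      rw [sg_succ]
      have h1 := ih (by omega)
      obtain ⟨d, rfl⟩ : ∃ d, M = d + j + 1 := ⟨M - j - 1, by omega⟩
      have e1 : wt (d + j + 1 + 1) false j = (d + 1 : ℚ)⁻¹ := by
        simp only [wt]; push_cast; congr 1; ring
      have e2 : (((d + j + 1 : ℕ) : ℚ) + 1 - j) = d + 2 := by push_cast; ring
      have e3 : (((d + j + 1 : ℕ) : ℚ) + 1 - (j + 1 : ℕ)) = d + 1 := by push_cast; ring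
      rw [e2] at h1
      rw [e1, e3]
      have : 2 * (d + 2 : ℚ)⁻¹ + (d + 1 : ℚ)⁻¹ ^ 2 ≤ 2 * (d + 1 : ℚ)⁻¹ := by
        rw [← sub_nonneg]
        have : 2 * (d + 1 : ℚ)⁻¹ - (2 * (d + 2 : ℚ)⁻¹ + (d + 1 : ℚ)⁻¹ ^ 2)
          = d / ((d + 1) ^ 2 * (d + 2)) := by field_simp; ring
        rw [this]
        positivity
      linarith
  simpa [wt] using key (j + 1) hj

lemma delta_final (hM : 1 ≤ M) (u : List Bool) :
    FF (true :: u) (M + 1) - FL (true :: u) (M + 1) ≤
      4 * u.length * harmonic M ^ (u.length + 1) / (M + 1) := by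
  have hH := one_le_harmonic hM
  set H := harmonic M with hHdef
  have key : ∀ j, j ≤ M → AA (M + 1) j (true :: u) - AF (M + 1) j (true :: u) ≤
      u.length * H ^ u.length * (2 / (M + 1)) *
        (∑ i ∈ range j, wt (M + 1) true i + ∑ i ∈ range j, wt (M + 1) false i) := by
    intro j
    induction j with
    | zero => intro _; simp [AA, AF]
    | succ j ih =>
      intro hj
      have h1 := ih (by omega)
      have h2 := (delta_bound hM u hj).2
      have h3 := sg_le (M := M) hj
      have h4 : wt (M + 1) true j * wt (M + 1) false j =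
          (wt (M + 1) true j + wt (M + 1) false j) / (M + 1) := by
        have : (j : ℚ) + 1 ≤ M := by exact_mod_cast hj
        have h5 : (M + 1 : ℚ) - (j + 1) ≠ 0 := by linarith
        simp only [wt]
        push_cast
        field_simp
        ring
      have h5 := wt_nonneg (M := M) true hj
      have h6 : u.length * H ^ u.length * sg (M + 1) (j + 1) ≤
          u.length * H ^ u.length * (2 * wt (M + 1) false j) := by gcongr
      have h7 := mul_le_mul_of_nonneg_left (h2.trans h6) h5
      have h8 : wt (M + 1) true j * (u.length * H ^ u.length * (2 * wt (M + 1) false j)) =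
          u.length * H ^ u.length * (2 / (M + 1)) * (wt (M + 1) true j + wt (M + 1) false j) := by
        rw [show wt (M + 1) true j * (u.length * H ^ u.length * (2 * wt (M + 1) false j)) =
          2 * u.length * H ^ u.length * (wt (M + 1) true j * wt (M + 1) false j) by ring, h4]
        ring
      rw [AA_true, AF_true, sum_range_succ, sum_range_succ]
      nlinarith
  refine (key M le_rfl).trans ?_
  have h1 := sum_wt_le (M := M) true le_rfl
  have h2 := sum_wt_le (M := M) false le_rfl
  calc _ ≤ u.length * H ^ u.length * (2 / (M + 1)) * (H + H) := by gcongr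
    _ = _ := by ring

end

lemma tendsto_harm (m : ℕ) :
    Tendsto (fun M : ℕ => ((harmonic M : ℚ) : ℝ) ^ m / (M + 1)) atTop (𝓝 0) := by
  have h1 := Real.tendsto_pow_log_div_mul_add_atTop (Real.exp (-1)) 1 m (Real.exp_pos _).ne'
  have h2 : Tendsto (fun M : ℕ => Real.exp 1 * (M : ℝ)) atTop atTop :=
    tendsto_natCast_atTop_atTop.const_mul_atTop (Real.exp_pos _)
  refine squeeze_zero' (Eventually.of_forall fun M => ?_) ?_ (h1.comp h2)
  · have : (0 : ℝ) ≤ harmonic M := by exact_mod_cast harmonic_nonneg' M
    positivity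
  · filter_upwards [eventually_ge_atTop 1] with M hM
    have h0 : (0 : ℝ) ≤ harmonic M := by exact_mod_cast harmonic_nonneg' M
    have hM' : (M : ℝ) ≠ 0 := by positivity
    have h3 := harmonic_le_one_add_log M
    simp only [Function.comp]
    rw [Real.log_mul (Real.exp_pos _).ne' hM', Real.log_exp, ← mul_assoc, ← Real.exp_add]
    simp only [neg_add_cancel, Real.exp_zero, one_mul]
    gcongr

theorem tendsto_FF (k : List ℕ) (hk : Adm k) :
    Tendsto (fun N => (FF (wd k) N : ℝ)) atTop (𝓝 (mzv k)) := by
  have h1 := tendsto_Zt k hk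
  rcases admW_wd k hk with h | ⟨h, -⟩
  · refine h1.congr fun N => ?_
    rw [← FL_wd k hk.1, h, FF, FL, AA_nil, AF_nil]
  · obtain ⟨u, hu⟩ : ∃ u, wd k = true :: u := by
      cases e : wd k with
      | nil => simp [e] at h
      | cons c u => exact ⟨u, by simpa [e] using h⟩
    have h2 : Tendsto (fun M : ℕ => ((FF (wd k) (M + 1) - Zt k (M + 1) : ℚ) : ℝ)) atTop (𝓝 0) := by
      have h3 := (tendsto_harm (u.length + 1)).const_mul (4 * (u.length : ℝ))
      rw [mul_zero] at h3
      refine squeeze_zero' ?_ ?_ h3
      · filter_upwards [eventually_ge_atTop 1] with M hM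
        rw [← FL_wd k hk.1, hu]
        exact_mod_cast (delta_bound hM (true :: u) le_rfl).1
      · filter_upwards [eventually_ge_atTop 1] with M hM
        rw [← FL_wd k hk.1, hu, ← mul_div_assoc]
        exact_mod_cast delta_final hM u
    rw [← tendsto_add_atTop_iff_nat 1]
    have h4 := h2.add ((tendsto_add_atTop_iff_nat 1).2 h1)
    rw [zero_add] at h4
    refine h4.congr fun M => ?_
    push_cast
    ring

/-- the span of the values of weight `k` without ones -/
noncomputable def No1 (k : ℕ) : Submodule ℚ ℝ :=
  Submodule.span ℚ {x | ∃ v : List ℕ, (∀ a ∈ v, 2 ≤ a) ∧ v.sum = k ∧ x = mzv v}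

lemma adm_of_two_le {v : List ℕ} (h : ∀ a ∈ v, 2 ≤ a) : Adm v :=
  ⟨fun a ha => (by have := h a ha; omega), fun a ha => h a (List.mem_of_mem_head? ha)⟩

lemma lim_of_SS {k : ℕ} {f : ℕ → ℚ} (hf : f ∈ SS k) :
    ∃ z ∈ No1 k, Tendsto (fun N => (f N : ℝ)) atTop (𝓝 z) := by
  induction hf using Submodule.span_induction with
  | mem f hf =>
    obtain ⟨v, h1, h2, rfl⟩ := hf
    exact ⟨mzv v, Submodule.subset_span ⟨v, h1, h2, rfl⟩, tendsto_Zt v (adm_of_two_le h1)⟩
  | zero => exact ⟨0, zero_mem _, by simp⟩
  | add f g _ _ hf hg =>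
    obtain ⟨x, hx, hx'⟩ := hf
    obtain ⟨y, hy, hy'⟩ := hg
    exact ⟨x + y, add_mem hx hy, by simpa using hx'.add hy'⟩
  | smul c f _ hf =>
    obtain ⟨x, hx, hx'⟩ := hf
    refine ⟨c • x, Submodule.smul_mem _ c hx, ?_⟩
    simpa [Rat.smul_def] using hx'.const_mul (c : ℝ)

/-- Every multiple zeta value is a rational combination of values without ones. -/
theorem Zsp_le_No1 (k : ℕ) : Zsp k ≤ No1 k := by
  refine Submodule.span_le.2 ?_
  rintro x ⟨w, h1, h2, rfl⟩
  obtain ⟨z, hz, hz'⟩ := lim_of_SS (FF_mem (wd w) (admW_wd w h1))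
  rw [wd_length w h1.1, h2] at hz
  rw [tendsto_nhds_unique (tendsto_FF w h1) hz']
  exact hz

end Pool.Agent.MP_cbe134_nt
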