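import Pool.Agent.MP_cbe134_nt.BKDefs

/- The Broadhurst-Kreimer coefficient vanishes for `3 r > k + 1`. -/

open MvPowerSeries Finset

namespace Pool.Agent.MP_cbe134_nt

/-- all monomials `X^k Y^r` of `f` satisfy `3 r + c ≤ k` -/
def Slope (f : MvPowerSeries (Fin 2) ℚ) (c : ℤ) : Prop :=
  ∀ n : Fin 2 →₀ ℕ, coeff n f ≠ 0 → 3 * (n 1 : ℤ) + c ≤ n 0

namespace Slope

variable {f g : MvPowerSeries (Fin 2) ℚ} {c d : ℤ}

lemma mono (h : Slope f c) (hd : d ≤ c) : Slope f d := fun n hn => by
  have := h n hn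
  omega

lemma add (h : Slope f c) (h' : Slope g c) : Slope (f + g) c := fun n hn => by
  by_cases h0 : coeff n f = 0
  · exact h' n (by simpa [h0] using hn)
  · exact h n h0

lemma neg (h : Slope f c) : Slope (-f) c := fun n hn => h n (by simpa using hn)

lemma sub (h : Slope f c) (h' : Slope g c) : Slope (f - g) c := by
  rw [sub_eq_add_neg]; exact h.add h'.neg

lemma mul (h : Slope f c) (h' : Slope g d) : Slope (f * g) (c + d) := fun n hn => by
  rw [coeff_mul] at hn
  obtain ⟨p, hp, h0⟩ := exists_ne_zero_of_sum_ne_zero hn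
  have h1 := h _ (left_ne_zero_of_mul h0)
  have h2 := h' _ (right_ne_zero_of_mul h0)
  rw [← mem_antidiagonal.1 hp]
  simp only [Finsupp.add_apply]
  push_cast
  omega

lemma one : Slope 1 0 := fun n hn => by
  rw [coeff_one] at hn
  obtain rfl : n = 0 := by
    by_contra h
    exact hn (if_neg h)
  simp

lemma pow (h : Slope f c) (m : ℕ) : Slope (f ^ m) (m * c) := by
  induction m with
  | zero => simpa using one
  | succ m ih =>
    rw [pow_succ]
    exact (ih.mul h).mono (by push_cast; linarith)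

lemma X0 : Slope (X 0) 1 := fun n hn => by
  rw [coeff_X] at hn
  obtain rfl : n = Finsupp.single 0 1 := by
    by_contra h
    exact hn (if_neg h)
  simp

lemma X1 : Slope (X 1) (-3) := fun n hn => by
  rw [coeff_X] at hn
  obtain rfl : n = Finsupp.single 1 1 := by
    by_contra h
    exact hn (if_neg h)
  simp

lemma inv (h : Slope f 0) (h1 : constantCoeff f = 1) : Slope f⁻¹ 0 := by
  have e : f⁻¹ = 1 + (1 - f) * f⁻¹ := by
    rw [sub_mul, MvPowerSeries.mul_inv_cancel _ (by simp [h1])]
    ring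
  have key : ∀ m, ∀ n : Fin 2 →₀ ℕ, n 0 + n 1 = m → coeff n f⁻¹ ≠ 0 →
      3 * (n 1 : ℤ) + 0 ≤ n 0 := by
    intro m
    induction m using Nat.strong_induction_on with
    | _ m ih =>
      intro n hm hn
      rw [e, map_add] at hn
      by_cases h0 : coeff n (1 : MvPowerSeries (Fin 2) ℚ) = 0
      · rw [h0, zero_add, coeff_mul] at hn
        obtain ⟨p, hp, h2⟩ := exists_ne_zero_of_sum_ne_zero hn
        have h3 := (one.sub h) _ (left_ne_zero_of_mul h2)
        have h4 : p.1 ≠ 0 := fun h5 => left_ne_zero_of_mul h2 (by simp [h5, h1])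
        have h5 : p.1 0 + p.1 1 ≠ 0 := fun h6 => h4 (by
          ext i
          fin_cases i <;> simp <;> omega)
        have h6 := mem_antidiagonal.1 hp
        have h7 := DFunLike.congr_fun h6 0
        have h8 := DFunLike.congr_fun h6 1
        simp only [Finsupp.add_apply] at h7 h8
        have h9 := ih _ (by omega) p.2 rfl (right_ne_zero_of_mul h2)
        omega
      · exact one n h0
  exact fun n hn => key _ n rfl hn

end Slope

lemma slope_BK : Slope serBK (-1) := by
  have h2 : Slope (1 - X 0 ^ 2)⁻¹ 0 :=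
    (Slope.one.sub ((Slope.X0.pow 2).mono (by norm_num))).inv (by simp)
  have h46 : Slope ((1 - X 0 ^ 4) * (1 - X 0 ^ 6))⁻¹ 0 :=
    (((Slope.one.sub ((Slope.X0.pow 4).mono (by norm_num))).mul
      (Slope.one.sub ((Slope.X0.pow 6).mono (by norm_num)))).mono (by norm_num)).inv (by simp)
  have hE : Slope serE 2 := ((Slope.X0.pow 2).mul h2).mono (by norm_num)
  have hO : Slope serO 3 := ((Slope.X0.pow 3).mul h2).mono (by norm_num)
  have hS : Slope serS 12 := ((Slope.X0.pow 12).mul h46).mono (by norm_num)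
  have h1 : Slope (1 + serE * X 1) (-1) :=
    (Slope.one.mono (by norm_num)).add ((hE.mul Slope.X1).mono (by norm_num))
  have h3 : Slope (1 - serO * X 1 + serS * X 1 ^ 2 - serS * X 1 ^ 4) 0 :=
    ((Slope.one.sub ((hO.mul Slope.X1).mono (by norm_num))).add
      ((hS.mul (Slope.X1.pow 2)).mono (by norm_num))).sub
      ((hS.mul (Slope.X1.pow 4)).mono (by norm_num))
  exact (h1.mul (h3.inv (by simp))).mono (by norm_num)

lemma bkCoeff_eq_zero {k r : ℕ} (h : k + 1 < 3 * r) : bkCoeff k r = 0 := by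
  by_contra h0
  have := slope_BK _ h0
  simp at this
  omega

lemma grDim_eq_zero {r k : ℕ} (h : Fil (r + 1) k ≤ Fil r k) : grDim (r + 1) k = 0 := by
  have : (FilPrev (r + 1) k).submoduleOf (Fil (r + 1) k) = ⊤ :=
    Submodule.submoduleOf_eq_top.2 h
  rw [grDim, this]
  exact Module.finrank_zero_of_subsingleton

end Pool.Agent.MP_cbe134_nt
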