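import Pool.Agent.MP_cbe134_nt.Defs

/- The depth-graded pieces and the Broadhurst-Kreimer series, as in the problem file. -/

open MvPowerSeries

namespace Pool.Agent.MP_cbe134_nt

/-- The previous step of the depth filtration: depth at most `r - 1`, and zero for `r = 0`. -/
noncomputable def FilPrev : ℕ → ℕ → Submodule ℚ ℝ
  | 0, _ => ⊥
  | r + 1, k => Fil r k

/-- The dimension of the depth-graded piece `Fil_r Z_k / Fil_{r-1} Z_k`. -/
noncomputable def grDim (r k : ℕ) : ℕ :=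
  Module.finrank ℚ (Fil r k ⧸ (FilPrev r k).submoduleOf (Fil r k))

/-- `E = X² / (1 - X²)`, where `X` is the variable of index `0`. -/
noncomputable def serE : MvPowerSeries (Fin 2) ℚ := X 0 ^ 2 * (1 - X 0 ^ 2)⁻¹

/-- `O = X³ / (1 - X²)`. -/
noncomputable def serO : MvPowerSeries (Fin 2) ℚ := X 0 ^ 3 * (1 - X 0 ^ 2)⁻¹

/-- `S = X¹² / ((1 - X⁴) (1 - X⁶))`. -/
noncomputable def serS : MvPowerSeries (Fin 2) ℚ := X 0 ^ 12 * ((1 - X 0 ^ 4) * (1 - X 0 ^ 6))⁻¹

/-- The Broadhurst-Kreimer series `[1 + E Y] / [1 - O Y + S Y² - S Y⁴]`, where `Y` is the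
variable of index `1`. -/
noncomputable def serBK : MvPowerSeries (Fin 2) ℚ :=
  (1 + serE * X 1) * (1 - serO * X 1 + serS * X 1 ^ 2 - serS * X 1 ^ 4)⁻¹

/-- The coefficient of `X^k Y^r` in the Broadhurst-Kreimer series. -/
noncomputable def bkCoeff (k r : ℕ) : ℚ :=
  coeff (Finsupp.single 0 k + Finsupp.single 1 r) serBK

end Pool.Agent.MP_cbe134_nt
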