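import Mathlib

/- Formal power series operators: integration against `2 du / sqrt (1 - u²)` and `2 du / u`. -/

open Finset PowerSeries

namespace Pool.Agent.MP_cbe134_nt

/-- coefficients of the inverse square root of `1 - u²` -/
noncomputable def sc : ℕ → ℝ
  | 0 => 1
  | 1 => 0
  | n + 2 => sc n * (n + 1) / (n + 2)

/-- the inverse square root of `1 - u²` -/
noncomputable def ss : ℝ⟦X⟧ := mk sc

/-- integration against `2 du / sqrt (1 - u²)` -/
noncomputable def Jop : Module.End ℝ ℝ⟦X⟧ where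
  toFun g := mk fun m => 2 * coeff (m - 1) (ss * g) / m
  map_add' f g := by ext m; simp only [coeff_mk, mul_add, map_add]; ring
  map_smul' c f := by
    ext m
    simp only [coeff_mk, mul_smul_comm, map_smul, RingHom.id_apply, smul_eq_mul]
    ring

/-- integration against `2 du / u` -/
noncomputable def Cop : Module.End ℝ ℝ⟦X⟧ where
  toFun g := mk fun m => 2 * coeff m g / m
  map_add' f g := by ext m; simp only [coeff_mk, mul_add, map_add]; ring
  map_smul' c f := by ext m; simp only [coeff_mk, map_smul, RingHom.id_apply, smul_eq_mul]; ring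

lemma coeff_Jop (g : ℝ⟦X⟧) (m : ℕ) : coeff m (Jop g) = 2 * coeff (m - 1) (ss * g) / m :=
  coeff_mk m fun m => 2 * coeff (m - 1) (ss * g) / m

lemma coeff_Cop (g : ℝ⟦X⟧) (m : ℕ) : coeff m (Cop g) = 2 * coeff m g / m :=
  coeff_mk m fun m => 2 * coeff m g / m

lemma cc_Jop (g : ℝ⟦X⟧) : constantCoeff (Jop g) = 0 := by
  rw [← coeff_zero_eq_constantCoeff_apply, coeff_Jop]; simp

lemma cc_Cop (g : ℝ⟦X⟧) : constantCoeff (Cop g) = 0 := by
  rw [← coeff_zero_eq_constantCoeff_apply, coeff_Cop]; simp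

lemma d_Jop (g : ℝ⟦X⟧) : d⁄dX ℝ (Jop g) = 2 * (ss * g) := by
  ext m
  have : ((m + 1 : ℕ) : ℝ) ≠ 0 := by positivity
  rw [coeff_derivative, coeff_Jop, two_mul (ss * g), map_add, Nat.add_sub_cancel]
  push_cast at this ⊢
  field_simp
  ring

lemma coeff_X_mul_d (g : ℝ⟦X⟧) (m : ℕ) : coeff m (X * d⁄dX ℝ g) = m * coeff m g := by
  cases m with
  | zero => simp
  | succ m => rw [coeff_succ_X_mul, coeff_derivative]; push_cast; ring

lemma d_Cop (g : ℝ⟦X⟧) (hg : constantCoeff g = 0) : X * d⁄dX ℝ (Cop g) = 2 * g := by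
  ext m
  rw [coeff_X_mul_d, coeff_Cop, two_mul g, map_add]
  cases m with
  | zero => simp [hg]
  | succ m =>
    have : ((m + 1 : ℕ) : ℝ) ≠ 0 := by positivity
    field_simp
    ring

lemma ext_X_d {f g : ℝ⟦X⟧} (h : X * d⁄dX ℝ f = X * d⁄dX ℝ g)
    (hc : constantCoeff f = constantCoeff g) : f = g :=
  derivative.ext (mul_left_cancel₀ X_ne_zero h) hc

/-- the series `2 arcsin u` -/
noncomputable def Th : ℝ⟦X⟧ := Jop 1

lemma d_Th : d⁄dX ℝ Th = 2 * ss := by rw [Th, d_Jop, mul_one]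

lemma cc_Th : constantCoeff Th = 0 := cc_Jop 1

lemma Th_mul_J (g : ℝ⟦X⟧) : Th * Jop g = Jop (Th * g) + Jop (Jop g) := by
  refine derivative.ext ?_ (by simp [cc_Jop])
  rw [Derivation.leibniz, map_add, d_Jop, d_Jop, d_Jop, d_Th, smul_eq_mul, smul_eq_mul]
  ring

lemma Th_mul_C (g : ℝ⟦X⟧) (hg : constantCoeff g = 0) :
    Th * Cop g = Cop (Th * g) + Jop (Cop g) := by
  refine ext_X_d ?_ (by simp [cc_Jop, cc_Cop])
  rw [Derivation.leibniz, map_add, mul_add, mul_add, d_Cop _ (by simp [hg]), d_Jop, d_Th,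
    smul_eq_mul, smul_eq_mul]
  linear_combination Th * d_Cop g hg

lemma Th_mul_Jpow (n : ℕ) (g : ℝ⟦X⟧) :
    Th * (Jop ^ n) g = (Jop ^ n) (Th * g) + (n : ℝ) • (Jop ^ (n + 1)) g := by
  induction n with
  | zero => simp
  | succ n ih =>
    rw [pow_succ', Module.End.mul_apply, Th_mul_J, ih, map_add, map_smul, pow_succ' Jop (n + 1),
      pow_succ' Jop n]
    simp only [Module.End.mul_apply]
    push_cast
    rw [add_smul, one_smul, add_assoc]

lemma ss_ode : (1 - X ^ 2) * d⁄dX ℝ ss = X * ss := by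
  have : (1 - X ^ 2) * d⁄dX ℝ ss = d⁄dX ℝ ss - X * (X * d⁄dX ℝ ss) := by ring
  rw [this]
  ext m
  cases m with
  | zero =>
    rw [map_sub, coeff_derivative]
    simp [ss, sc]
  | succ m =>
    rw [map_sub, coeff_succ_X_mul, coeff_succ_X_mul, coeff_X_mul_d, coeff_derivative]
    simp only [ss, coeff_mk, sc]
    push_cast
    have : (m : ℝ) + 2 ≠ 0 := by positivity
    field_simp
    ring

lemma ss_sq : (1 - X ^ 2) * ss ^ 2 = 1 := by
  refine derivative.ext ?_ ?_
  · rw [Derivation.leibniz, map_sub, derivative_pow, derivative_pow, derivative_X, derivative_one,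
      smul_eq_mul, smul_eq_mul]
    push_cast
    linear_combination 2 * ss * ss_ode
  · simp [ss, sc, ← coeff_zero_eq_constantCoeff_apply, sq, coeff_mul]

lemma JJ_ode (g : ℝ⟦X⟧) :
    (1 - X ^ 2) * d⁄dX ℝ (d⁄dX ℝ (Jop (Jop g))) = X * d⁄dX ℝ (Jop (Jop g)) + 4 * g := by
  rw [d_Jop, two_mul, map_add, Derivation.leibniz, d_Jop, smul_eq_mul, smul_eq_mul]
  linear_combination 2 * Jop g * ss_ode + 4 * g * ss_sq

lemma JJ_rec (g : ℝ⟦X⟧) (m : ℕ) :
    ((m : ℝ) + 2) * (m + 1) * coeff (m + 2) (Jop (Jop g)) =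
      (m : ℝ) ^ 2 * coeff m (Jop (Jop g)) + 4 * coeff m g := by
  have h := JJ_ode g
  set h0 := Jop (Jop g)
  have e : d⁄dX ℝ (d⁄dX ℝ h0) = X * d⁄dX ℝ (X * d⁄dX ℝ h0) + C 4 * g := by
    rw [Derivation.leibniz, derivative_X, smul_eq_mul, smul_eq_mul, map_ofNat]
    linear_combination h
  have := congrArg (coeff m) e
  rw [map_add, coeff_X_mul_d, coeff_X_mul_d, coeff_derivative, coeff_derivative, coeff_C_mul]
    at this
  push_cast at this
  linear_combination this

lemma JJ_one (g : ℝ⟦X⟧) : coeff 1 (Jop (Jop g)) = 0 := by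
  rw [coeff_Jop]
  simp [cc_Jop]

lemma sc_nonneg : ∀ n, 0 ≤ sc n
  | 0 => by simp [sc]
  | 1 => by simp [sc]
  | n + 2 => by
    have := sc_nonneg n
    simp only [sc]
    positivity

lemma sc_even_pos : ∀ n, 0 < sc (2 * n)
  | 0 => by simp [sc]
  | n + 1 => by
    have := sc_even_pos n
    rw [show 2 * (n + 1) = 2 * n + 2 by ring]
    simp only [sc]
    positivity

lemma sc_sq_le : ∀ n, sc n ^ 2 * (n + 1) ≤ 1
  | 0 => by simp [sc]
  | 1 => by simp [sc]
  | n + 2 => by
    have h := sc_sq_le n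
    simp only [sc]
    push_cast
    refine le_trans ?_ h
    have h2 : (0 : ℝ) < (n : ℝ) + 2 := by positivity
    rw [div_pow, div_mul_eq_mul_div, div_le_iff₀ (by positivity)]
    have : 0 ≤ sc n ^ 2 * (n + 1) := by positivity
    nlinarith

/-- `g` represents the sequence `c` -/
def Rep (g : ℝ⟦X⟧) (c : ℕ → ℝ) : Prop :=
  ∀ n, coeff (2 * n) g * sc (2 * n) = c n ∧ coeff (2 * n + 1) g = 0

lemma rep_one : Rep 1 fun n => if n = 0 then 1 else 0 := by
  intro n
  cases n with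
  | zero => simp [sc, coeff_one]
  | succ n => simp [coeff_one]

lemma Rep.cop {g : ℝ⟦X⟧} {c : ℕ → ℝ} (h : Rep g c) : Rep (Cop g) fun n => (n : ℝ)⁻¹ * c n := by
  intro n
  beta_reduce
  rw [coeff_Cop, coeff_Cop, (h n).2, ← (h n).1]
  refine ⟨?_, by simp⟩
  rcases Nat.eq_zero_or_pos n with rfl | hn
  · simp
  · push_cast
    field_simp

lemma Rep.jj {g : ℝ⟦X⟧} {c : ℕ → ℝ} (h : Rep g c) :
    Rep (Jop (Jop g)) fun n => ((n : ℝ)⁻¹) ^ 2 * ∑ m ∈ range n, c m := by
  have key : ∀ n : ℕ, (n : ℝ) ^ 2 * (coeff (2 * n) (Jop (Jop g)) * sc (2 * n)) =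
      ∑ m ∈ range n, c m := by
    intro n
    induction n with
    | zero => simp
    | succ n ih =>
      rw [sum_range_succ, ← ih, ← (h n).1, show 2 * (n + 1) = 2 * n + 2 by ring]
      have := JJ_rec g (2 * n)
      simp only [sc]
      push_cast at this ⊢
      have h2 : (2 * (n : ℝ) + 2) ≠ 0 := by positivity
      field_simp
      linear_combination (sc (2 * n) / 2) * this
  intro n
  constructor
  · rcases Nat.eq_zero_or_pos n with rfl | hn
    · simp [cc_Jop]
    · beta_reduce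
      rw [← key n]
      field_simp
  · induction n with
    | zero => exact JJ_one g
    | succ n ih =>
      have := JJ_rec g (2 * n + 1)
      rw [ih, (h n).2] at this
      rw [show 2 * (n + 1) + 1 = 2 * n + 1 + 2 by ring]
      have h2 : (((2 * n + 1 : ℕ) : ℝ) + 2) * (((2 * n + 1 : ℕ) : ℝ) + 1) ≠ 0 := by positivity
      exact (mul_eq_zero.1 (by simpa using this)).resolve_left h2

end Pool.Agent.MP_cbe134_nt
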