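import Pool.Agent.MP_cbe134_nt.C1

/- Evaluation of series with nonnegative summable coefficients at `u = 1`. -/

open Finset PowerSeries Filter Topology

namespace Pool.Agent.MP_cbe134_nt

/-- nonnegative summable coefficients -/
def Good (g : ℝ⟦X⟧) : Prop := (∀ m, 0 ≤ coeff m g) ∧ Summable fun m => coeff m g

/-- the value at `u = 1` -/
noncomputable def evl (g : ℝ⟦X⟧) : ℝ := ∑' m, coeff m g

lemma Good.one : Good 1 := by
  refine ⟨fun m => by rw [coeff_one]; split_ifs <;> norm_num, ?_⟩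
  refine summable_of_ne_finset_zero (s := {0}) fun m hm => ?_
  rw [coeff_one, if_neg (by simpa using hm)]

lemma Good.add {f g : ℝ⟦X⟧} (hf : Good f) (hg : Good g) : Good (f + g) :=
  ⟨fun m => by rw [map_add]; exact add_nonneg (hf.1 m) (hg.1 m),
    by simpa using hf.2.add hg.2⟩

lemma Good.smul {f : ℝ⟦X⟧} (hf : Good f) {c : ℝ} (hc : 0 ≤ c) : Good (c • f) :=
  ⟨fun m => by rw [map_smul]; exact mul_nonneg hc (hf.1 m), by simpa using hf.2.mul_left c⟩

lemma Good.evl_add {f g : ℝ⟦X⟧} (hf : Good f) (hg : Good g) : evl (f + g) = evl f + evl g := by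
  simp only [evl, map_add]
  exact hf.2.tsum_add hg.2

lemma evl_smul (c : ℝ) (f : ℝ⟦X⟧) : evl (c • f) = c * evl f := by
  simp only [evl, map_smul, smul_eq_mul]
  exact tsum_mul_left

lemma Good.sum {ι : Type*} (s : Finset ι) (f : ι → ℝ⟦X⟧) (h : ∀ i ∈ s, Good (f i)) :
    Good (∑ i ∈ s, f i) ∧ evl (∑ i ∈ s, f i) = ∑ i ∈ s, evl (f i) := by
  classical
  induction s using Finset.induction_on with
  | empty => simp [Good, evl, summable_zero]
  | insert a s ha ih =>
    have h1 := h a (mem_insert_self _ _)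
    obtain ⟨h2, h3⟩ := ih fun i hi => h i (mem_insert_of_mem hi)
    rw [sum_insert ha, sum_insert ha, h1.evl_add h2, h3]
    exact ⟨h1.add h2, rfl⟩

lemma Good.norm {f : ℝ⟦X⟧} (hf : Good f) : Summable fun m => ‖coeff m f‖ := by
  simpa [abs_of_nonneg (hf.1 _)] using hf.2

lemma Good.mul {f g : ℝ⟦X⟧} (hf : Good f) (hg : Good g) : Good (f * g) := by
  refine ⟨fun m => ?_, ?_⟩
  · rw [coeff_mul]
    exact sum_nonneg fun p _ => mul_nonneg (hf.1 _) (hg.1 _)
  · simp only [coeff_mul]
    exact (summable_norm_sum_mul_antidiagonal_of_summable_norm hf.norm hg.norm).of_norm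

lemma Good.evl_mul {f g : ℝ⟦X⟧} (hf : Good f) (hg : Good g) : evl (f * g) = evl f * evl g := by
  simp only [evl, coeff_mul]
  exact (tsum_mul_tsum_eq_tsum_sum_antidiagonal_of_summable_norm hf.norm hg.norm).symm

lemma Good.cop {g : ℝ⟦X⟧} (hg : Good g) : Good (Cop g) := by
  have h0 : ∀ m, 0 ≤ coeff m (Cop g) := fun m => by
    rw [coeff_Cop]
    have := hg.1 m
    positivity
  refine ⟨h0, Summable.of_nonneg_of_le h0 (fun m => ?_) (hg.2.mul_left 2)⟩
  rw [coeff_Cop]
  have := hg.1 m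
  rcases Nat.eq_zero_or_pos m with rfl | hm
  · simpa using this
  · exact div_le_self (by positivity) (by exact_mod_cast hm)

lemma sc_le (n : ℕ) : sc n ≤ ((n + 1 : ℝ) ^ (1 / 2 : ℝ))⁻¹ := by
  have h := sc_sq_le n
  have h1 : (0 : ℝ) < n + 1 := by positivity
  rw [← Real.sqrt_eq_rpow, ← Real.sqrt_inv]
  refine Real.le_sqrt_of_sq_le ?_
  rw [← one_div, le_div_iff₀ h1]
  exact h

lemma summable_sc : Summable fun n : ℕ => 2 * sc n / (n + 1) := by
  have hs : Summable fun n : ℕ => 2 * (((n + 1 : ℕ) : ℝ) ^ (3 / 2 : ℝ))⁻¹ :=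
    ((summable_nat_add_iff 1).2 (Real.summable_nat_rpow_inv.2 (by norm_num))).mul_left _
  refine Summable.of_nonneg_of_le (fun n => by have := sc_nonneg n; positivity) (fun n => ?_) hs
  have h1 : (0 : ℝ) < n + 1 := by positivity
  have h2 : (((n + 1 : ℕ) : ℝ) ^ (3 / 2 : ℝ))⁻¹ = ((n + 1 : ℝ) ^ (1 / 2 : ℝ))⁻¹ / (n + 1) := by
    push_cast
    rw [show (3 / 2 : ℝ) = 1 / 2 + 1 by norm_num, Real.rpow_add h1, Real.rpow_one]
    field_simp
  rw [h2, mul_div_assoc]
  gcongr
  exact sc_le n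

lemma tendsto_sc : Tendsto sc atTop (𝓝 0) := by
  refine squeeze_zero sc_nonneg sc_le ?_
  refine tendsto_inv_atTop_zero.comp ((tendsto_rpow_atTop (by norm_num)).comp ?_)
  exact tendsto_atTop_add_const_right _ 1 tendsto_natCast_atTop_atTop

lemma coeff_Th (m : ℕ) : coeff (m + 1) Th = 2 * sc m / (m + 1) := by
  rw [Th, coeff_Jop]
  simp [ss]

lemma good_Th : Good Th := by
  refine ⟨fun m => ?_, ?_⟩
  · cases m with
    | zero => simp [cc_Th]
    | succ m =>
      rw [coeff_Th]
      have := sc_nonneg m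
      positivity
  · rw [← summable_nat_add_iff 1]
    simpa only [coeff_Th] using summable_sc

/-- the Wallis integrals -/
noncomputable def Iw (i : ℕ) : ℝ := ∑' j, 2 * sc j / (i + j + 1)

lemma Iw_le (i j : ℕ) : 2 * sc j / (i + j + 1) ≤ 2 * sc j / (j + 1) := by
  have := sc_nonneg j
  gcongr
  linarith [(Nat.cast_nonneg i : (0 : ℝ) ≤ i)]

lemma summable_Iw (i : ℕ) : Summable fun j : ℕ => 2 * sc j / (i + j + 1) :=
  Summable.of_nonneg_of_le (fun j => by have := sc_nonneg j; positivity) (Iw_le i) summable_sc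

lemma Iw_zero : Iw 0 = evl Th := by
  rw [evl, good_Th.2.tsum_eq_zero_add]
  simp [coeff_Th, cc_Th, Iw]

lemma Iw_rec (i : ℕ) : ((i : ℝ) + 2) * Iw (i + 2) = (i + 1) * Iw i := by
  set T : ℕ → ℝ := fun j => j * sc j / (i + j + 1) with hT
  have hT0 : Tendsto T atTop (𝓝 0) := by
    refine squeeze_zero (fun j => by have := sc_nonneg j; simp only [hT]; positivity)
      (fun j => ?_) tendsto_sc
    have := sc_nonneg j
    simp only [hT]
    rw [div_le_iff₀ (by positivity)]
    nlinarith [(Nat.cast_nonneg i : (0 : ℝ) ≤ i)]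
  have h1 := ((summable_Iw (i + 2)).hasSum.mul_left ((i : ℝ) + 2)).sub
    ((summable_Iw i).hasSum.mul_left ((i : ℝ) + 1))
  have h2 : ∀ J, ∑ j ∈ range J, (((i : ℝ) + 2) * (2 * sc j / (((i + 2 : ℕ) : ℝ) + j + 1))
      - ((i : ℝ) + 1) * (2 * sc j / (i + j + 1))) = -2 * (T J + T (J + 1)) := by
    intro J
    induction J with
    | zero => simp [hT, sc]
    | succ J ih =>
      rw [sum_range_succ, ih]
      simp only [hT, sc]
      push_cast
      field_simp
      ring
  have h3 := h1.tendsto_sum_nat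
  simp only [h2] at h3
  have h4 := (hT0.add ((tendsto_add_atTop_iff_nat 1).2 hT0)).const_mul (-2)
  have := tendsto_nhds_unique h3 h4
  unfold Iw
  linarith

lemma Iw_even (n : ℕ) : Iw (2 * n) = evl Th * sc (2 * n) := by
  induction n with
  | zero => simp [Iw_zero, sc]
  | succ n ih =>
    have := Iw_rec (2 * n)
    rw [show 2 * (n + 1) = 2 * n + 2 by ring]
    simp only [sc]
    have h2 : (((2 * n : ℕ) : ℝ) + 2) ≠ 0 := by positivity
    field_simp
    rw [ih] at this
    linear_combination this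

lemma Good.hasSum_J {g : ℝ⟦X⟧} (hg : Good g) :
    Good (Jop g) ∧ HasSum (fun i => coeff i g * Iw i) (evl (Jop g)) := by
  set F : ℕ × ℕ → ℝ := fun p => coeff p.2 g * (2 * sc p.1 / (p.2 + p.1 + 1)) with hF
  have hF0 : ∀ p, 0 ≤ F p := fun p => by
    have := hg.1 p.2
    have := sc_nonneg p.1
    simp only [hF]
    positivity
  have hs : Summable F := by
    have h1 : Summable fun p : ℕ × ℕ => (2 * sc p.1 / (p.1 + 1)) * coeff p.2 g :=
      summable_mul_of_summable_norm (f := fun j : ℕ => 2 * sc j / (j + 1))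
        (g := fun i => coeff i g) summable_sc.norm hg.norm
    refine Summable.of_nonneg_of_le hF0 (fun p => ?_) h1
    simp only [hF]
    rw [mul_comm]
    exact mul_le_mul_of_nonneg_right (Iw_le _ _) (hg.1 _)
  have hc : ∀ m, coeff (m + 1) (Jop g) = ∑ p ∈ antidiagonal m, F p := by
    intro m
    rw [coeff_Jop, Nat.add_sub_cancel, coeff_mul, mul_sum, sum_div]
    refine sum_congr rfl fun p hp => ?_
    rw [← mem_antidiagonal.1 hp]
    simp only [hF, ss, coeff_mk]
    push_cast
    ring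
  have h1 : HasSum (fun m => coeff (m + 1) (Jop g)) (∑' p, F p) := by
    have := (Finset.HasAntidiagonal.sigmaAntidiagonalEquivProd.hasSum_iff.2 hs.hasSum).sigma
      (fun m => hasSum_fintype _)
    refine this.congr_fun fun m => ?_
    rw [hc, ← Finset.sum_finset_coe]
    rfl
  have h2 : HasSum (fun m => coeff m (Jop g)) (∑' p, F p) := by
    exact (hasSum_nat_add_iff' (f := fun m => coeff m (Jop g)) 1).1
      (by simpa [cc_Jop] using h1)
  refine ⟨⟨fun m => ?_, h2.summable⟩, ?_⟩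
  · cases m with
    | zero => simp [cc_Jop]
    | succ m => rw [hc]; exact sum_nonneg fun p _ => hF0 p
  · rw [evl, h2.tsum_eq]
    have h3 := ((Equiv.prodComm ℕ ℕ).hasSum_iff.2 hs.hasSum).prod_fiberwise
      (g := fun i => coeff i g * Iw i) fun i => (summable_Iw i).hasSum.mul_left _
    exact h3

lemma Good.jop {g : ℝ⟦X⟧} (hg : Good g) : Good (Jop g) := hg.hasSum_J.1

lemma Good.jpow {g : ℝ⟦X⟧} (hg : Good g) (n : ℕ) : Good ((Jop ^ n) g) := by
  induction n with
  | zero => exact hg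
  | succ n ih => rw [pow_succ', Module.End.mul_apply]; exact ih.jop

lemma evl_J_rep {g : ℝ⟦X⟧} {c : ℕ → ℝ} {S : ℝ} (hg : Good g) (h : Rep g c) (hc : HasSum c S) :
    evl (Jop g) = evl Th * S := by
  refine hg.hasSum_J.2.unique ?_
  have h1 : HasSum (fun n => coeff (2 * n) g * Iw (2 * n)) (evl Th * S) := by
    refine (hc.mul_left (evl Th)).congr_fun fun n => ?_
    rw [Iw_even, ← (h n).1]
    ring
  have h2 : HasSum (fun n => coeff (2 * n + 1) g * Iw (2 * n + 1)) 0 := by
    simp only [(h _).2, zero_mul]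
    exact hasSum_zero
  simpa using HasSum.even_add_odd (f := fun i => coeff i g * Iw i) h1 h2

lemma evl_Th_pos : 0 < evl Th := by
  refine good_Th.2.tsum_pos good_Th.1 1 ?_
  rw [coeff_Th 0]
  simp [sc]

end Pool.Agent.MP_cbe134_nt
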