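import Pool.Agent.MP_cbe134_nt.C2
import Pool.Agent.MP_cbe134_nt.B5

/- Block coordinates of indices without ones and the cotangent integral formula. -/

open Finset PowerSeries

namespace Pool.Agent.MP_cbe134_nt

/-- the iterated integral `J^{n₀} C J^{n₁} ⋯ C J^{n_l} 1` -/
noncomputable def W : (l : ℕ) → (Fin (l + 1) → ℕ) → ℝ⟦X⟧
  | 0, n => (Jop ^ n 0) 1
  | l + 1, n => (Jop ^ n 0) (Cop (W l (Fin.tail n)))

/-- raise the first entry -/
def raise : List ℕ → List ℕ
  | [] => []
  | b :: k => (b + 1) :: k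

/-- the index with blocks of twos of lengths `a i`, separated by raisings of the next entry -/
def word : (l : ℕ) → (Fin (l + 1) → ℕ) → List ℕ
  | 0, a => List.replicate (a 0) 2
  | l + 1, a => List.replicate (a 0) 2 ++ raise (word l (Fin.tail a))

lemma good_W (l : ℕ) (n : Fin (l + 1) → ℕ) : Good (W l n) := by
  induction l with
  | zero => exact Good.one.jpow _
  | succ l ih => exact (ih _).cop.jpow _

lemma cc_Jpow {g : ℝ⟦X⟧} (hg : constantCoeff g = 0) (n : ℕ) :
    constantCoeff ((Jop ^ n) g) = 0 := by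
  cases n with
  | zero => exact hg
  | succ n => rw [pow_succ', Module.End.mul_apply, cc_Jop]

lemma cc_W (l : ℕ) (n : Fin (l + 1) → ℕ) (hn : n (Fin.last l) ≠ 0) :
    constantCoeff (W l n) = 0 := by
  cases l with
  | zero =>
    obtain ⟨m, hm⟩ := Nat.exists_eq_succ_of_ne_zero hn
    have : n 0 = m + 1 := hm
    rw [W, this, pow_succ', Module.End.mul_apply, cc_Jop]
  | succ l => exact cc_Jpow (cc_Cop _) _

lemma tail_add_zero {l : ℕ} (n : Fin (l + 2) → ℕ) :
    Fin.tail (n + Pi.single 0 1 : Fin (l + 2) → ℕ) = Fin.tail n := by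
  funext i
  simp [Fin.tail]

lemma tail_add_succ {l : ℕ} (n : Fin (l + 2) → ℕ) (j : Fin (l + 1)) :
    Fin.tail (n + Pi.single j.succ 1 : Fin (l + 2) → ℕ) = Fin.tail n + Pi.single j 1 := by
  funext i
  simp [Fin.tail, Pi.single_apply]

lemma W_add_zero (l : ℕ) (n : Fin (l + 1) → ℕ) : W l (n + Pi.single 0 1) = Jop (W l n) := by
  cases l with
  | zero => simp [W, pow_succ']
  | succ l => simp [W, pow_succ', tail_add_zero]

lemma Th_mul_W (l : ℕ) (n : Fin (l + 1) → ℕ) (hn : l = 0 ∨ n (Fin.last l) ≠ 0) :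
    Th * W l n = ∑ i, ((n i : ℝ) + 1) • W l (n + Pi.single i 1) := by
  induction l with
  | zero =>
    rw [Fin.sum_univ_one, W_add_zero, W, Th_mul_Jpow, mul_one, Th, add_smul, one_smul, add_comm,
      pow_succ', ← Module.End.mul_apply, ← pow_succ, pow_succ']
    rfl
  | succ l ih =>
    have hn' : Fin.tail n (Fin.last l) ≠ 0 := hn.resolve_left (by omega)
    rw [Fin.sum_univ_succ, W_add_zero, W, Th_mul_Jpow, Th_mul_C _ (cc_W _ _ hn'),
      ih _ (Or.inr hn'), map_add, map_sum, map_sum, add_smul, one_smul, pow_succ',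
      ← Module.End.mul_apply (Jop ^ n 0) Jop, ← pow_succ, pow_succ']
    simp only [W, tail_add_succ, map_smul, Module.End.mul_apply, Pi.add_apply,
      Pi.single_eq_of_ne (Fin.succ_ne_zero _).symm, add_zero]
    simp only [Fin.tail]
    abel

lemma evl_Th_W (l : ℕ) (n : Fin (l + 1) → ℕ) (hn : l = 0 ∨ n (Fin.last l) ≠ 0) :
    evl Th * evl (W l n) = ∑ i, ((n i : ℝ) + 1) * evl (W l (n + Pi.single i 1)) := by
  rw [← good_Th.evl_mul (good_W l n), Th_mul_W l n hn,
    (Good.sum _ _ fun i _ => (good_W _ _).smul (by positivity)).2]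
  simp only [evl_smul]

/-- the summands of a multiple zeta value, by the largest summation variable -/
noncomputable def cseq : List ℕ → ℕ → ℝ
  | [], n => if n = 0 then 1 else 0
  | a :: k, n => ((n : ℝ)⁻¹) ^ a * (Zt k n : ℝ)

lemma hasSum_cseq (w : List ℕ) (hw : Adm w) : HasSum (cseq w) (mzv w) := by
  cases w with
  | nil => rw [mzv_nil]; exact hasSum_ite_eq 0 1
  | cons a k => exact hasSum_mzv a k hw

lemma rep_two {g : ℝ⟦X⟧} {w : List ℕ} (h : Rep g (cseq w)) :
    Rep (Jop (Jop g)) (cseq (2 :: w)) := by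
  convert h.jj using 2 with n
  cases w with
  | nil =>
    cases n with
    | zero => simp [cseq]
    | succ n => simp [cseq, Zt_nil]
  | cons a k =>
    simp only [cseq, Zt_cons]
    push_cast
    rfl

lemma rep_twos {g : ℝ⟦X⟧} {w : List ℕ} (h : Rep g (cseq w)) (m : ℕ) :
    Rep ((Jop ^ (2 * m)) g) (cseq (List.replicate m 2 ++ w)) := by
  induction m with
  | zero => exact h
  | succ m ih =>
    rw [show 2 * (m + 1) = 2 * m + 1 + 1 by ring, pow_succ', pow_succ']
    exact rep_two ih

lemma rep_raise {g : ℝ⟦X⟧} {w : List ℕ} (hw : w ≠ []) (h : Rep g (cseq w)) :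
    Rep (Cop g) (cseq (raise w)) := by
  cases w with
  | nil => exact absurd rfl hw
  | cons a k =>
    convert h.cop using 2 with n
    simp only [raise, cseq]
    ring

lemma raise_length (w : List ℕ) : (raise w).length = w.length := by cases w <;> rfl

lemma raise_sum {w : List ℕ} (hw : w ≠ []) : (raise w).sum = w.sum + 1 := by
  cases w with
  | nil => exact absurd rfl hw
  | cons a k => simp [raise]; ring

lemma raise_two_le {w : List ℕ} (hw : ∀ c ∈ w, 2 ≤ c) : ∀ c ∈ raise w, 2 ≤ c := by
  cases w with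
  | nil => simp [raise]
  | cons a k =>
    intro c hc
    rcases List.mem_cons.1 hc with rfl | hc
    · have := hw a (by simp); omega
    · exact hw c (by simp [hc])

lemma word_length (l : ℕ) (a : Fin (l + 1) → ℕ) : (word l a).length = ∑ i, a i := by
  induction l with
  | zero => simp [word]
  | succ l ih => simp [word, raise_length, ih, Fin.sum_univ_succ (n := l + 1), Fin.tail]

lemma word_ne_nil (l : ℕ) (a : Fin (l + 1) → ℕ) (ha : a (Fin.last l) ≠ 0) : word l a ≠ [] := by
  intro h
  have h1 := word_length l a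
  rw [h] at h1
  exact ha (sum_eq_zero_iff.1 h1.symm _ (mem_univ _))

lemma word_two_le (l : ℕ) (a : Fin (l + 1) → ℕ) : ∀ c ∈ word l a, 2 ≤ c := by
  induction l with
  | zero => intro c hc; rw [List.eq_of_mem_replicate hc]
  | succ l ih =>
    intro c hc
    rcases List.mem_append.1 hc with hc | hc
    · rw [List.eq_of_mem_replicate hc]
    · exact raise_two_le (ih _) c hc

lemma word_sum (l : ℕ) (a : Fin (l + 1) → ℕ) (ha : l = 0 ∨ a (Fin.last l) ≠ 0) :
    (word l a).sum = 2 * ∑ i, a i + l := by
  induction l with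
  | zero => simp [word, mul_comm]
  | succ l ih =>
    have ha' : Fin.tail a (Fin.last l) ≠ 0 := ha.resolve_left (by omega)
    rw [word, List.sum_append, raise_sum (word_ne_nil _ _ ha'), ih _ (Or.inr ha'),
      Fin.sum_univ_succ (n := l + 1)]
    simp [Fin.tail]
    ring

lemma word_add_zero (l : ℕ) (a : Fin (l + 1) → ℕ) :
    word l (a + Pi.single 0 1) = 2 :: word l a := by
  cases l with
  | zero => simp [word, List.replicate_succ]
  | succ l => simp [word, List.replicate_succ, tail_add_zero]

lemma exists_word (w : List ℕ) (hw : ∀ c ∈ w, 2 ≤ c) (hne : w ≠ []) :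
    ∃ (l : ℕ) (a : Fin (l + 1) → ℕ), a (Fin.last l) ≠ 0 ∧ w = word l a := by
  induction w with
  | nil => exact absurd rfl hne
  | cons b k ih =>
    obtain ⟨c, rfl⟩ : ∃ c, b = c + 2 := ⟨b - 2, by have := hw b (by simp); omega⟩
    have hk : ∀ c ∈ k, 2 ≤ c := fun c hc => hw c (by simp [hc])
    clear hw hne
    induction c with
    | zero =>
      by_cases h : k = []
      · exact ⟨0, fun _ => 1, by simp, by simp [h, word]⟩
      · obtain ⟨l, a, h1, h2⟩ := ih hk h
        refine ⟨l, a + Pi.single 0 1, ?_, by rw [word_add_zero, h2]⟩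
        simp only [Pi.add_apply]
        omega
    | succ c ihc =>
      obtain ⟨l, a, h1, h2⟩ := ihc
      refine ⟨l + 1, Fin.cons 0 a, by simpa [← Fin.succ_last] using h1, ?_⟩
      simp [word, ← h2, raise]

lemma rep_W (l : ℕ) (a : Fin (l + 1) → ℕ) (ha : l = 0 ∨ a (Fin.last l) ≠ 0) :
    Rep (W l fun i => 2 * a i) (cseq (word l a)) := by
  induction l with
  | zero => simpa [W, word] using rep_twos (w := []) rep_one (a 0)
  | succ l ih =>
    have ha' : Fin.tail a (Fin.last l) ≠ 0 := ha.resolve_left (by omega)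
    exact rep_twos (rep_raise (word_ne_nil _ _ ha') (ih _ (Or.inr ha'))) (a 0)

/-- The cotangent integral formula. -/
theorem evl_W (l : ℕ) (a : Fin (l + 1) → ℕ) (ha : l = 0 ∨ a (Fin.last l) ≠ 0) :
    evl (W l ((fun i => 2 * a i) + Pi.single 0 1)) = evl Th * mzv (word l a) := by
  rw [W_add_zero]
  exact evl_J_rep (good_W _ _) (rep_W l a ha) (hasSum_cseq _ (adm_of_two_le (word_two_le l a)))

lemma evl_Th_sq : evl Th ^ 2 = Real.pi ^ 2 := by
  have h0 := evl_W 0 (fun _ => 0) (Or.inl rfl)
  have h1 := evl_W 0 (fun _ => 1) (Or.inl rfl)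
  have h2 := evl_Th_W 0 (fun _ => 1) (Or.inl rfl)
  have h3 := evl_Th_W 0 (fun _ => 2) (Or.inl rfl)
  rw [Fin.sum_univ_succ, Fin.sum_univ_zero] at h2 h3
  simp only [W, word, Pi.add_apply, Pi.single_eq_same, List.replicate,
    mzv_nil, mzv_two] at h0 h1 h2 h3
  norm_num at h0 h1 h2 h3
  have := evl_Th_pos
  rw [h0] at h2
  rw [h1] at h3
  have h4 : evl Th * (evl Th ^ 2 - Real.pi ^ 2) = 0 := by
    linear_combination evl Th * h2 + 2 * h3
  exact sub_eq_zero.1 ((mul_eq_zero.1 h4).resolve_left this.ne')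

lemma sum_ins_replicate (f : List ℕ → ℚ) (m : ℕ) (v : List ℕ) :
    ((ins 2 (List.replicate m 2 ++ v)).map f).sum =
      m * f (List.replicate (m + 1) 2 ++ v) +
        ((ins 2 v).map fun w => f (List.replicate m 2 ++ w)).sum := by
  induction m generalizing f with
  | zero => simp
  | succ m ih =>
    rw [List.replicate_succ, List.cons_append, ins, List.map_cons, List.sum_cons, List.map_map,
      ih]
    simp only [List.replicate_succ, List.cons_append, Function.comp]
    push_cast
    ring

lemma sum_ins_raise (f : List ℕ → ℚ) {u : List ℕ} (hu : u ≠ []) :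
    ((ins 2 (raise u)).map f).sum + f (raise (2 :: u)) =
      f (2 :: raise u) + ((ins 2 u).map fun w => f (raise w)).sum := by
  cases u with
  | nil => exact absurd rfl hu
  | cons c u =>
    simp only [raise, ins, List.map_cons, List.sum_cons, List.map_map, Function.comp_def]
    ring

lemma sum_ins_word (l : ℕ) (b : Fin (l + 1) → ℕ) (hb : l = 0 ∨ b (Fin.last l) ≠ 0)
    (f : List ℕ → ℚ) : ((ins 2 (word l b)).map f).sum =
      ∑ i, (if i = 0 then (b i : ℚ) + 1 else (b i : ℚ)) * f (word l (b + Pi.single i 1)) := by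
  induction l generalizing f with
  | zero =>
    have := sum_ins_replicate f (b 0) []
    simp only [List.append_nil, ins, List.map_cons, List.map_nil, List.sum_cons, List.sum_nil,
      ← List.replicate_succ'] at this
    simp [word, this, add_mul]
  | succ l ih =>
    have hb' : Fin.tail b (Fin.last l) ≠ 0 := hb.resolve_left (by omega)
    have h1 := sum_ins_raise (fun w => f (List.replicate (b 0) 2 ++ w)) (word_ne_nil _ _ hb')
    have h2 := ih _ (Or.inr hb') fun w => f (List.replicate (b 0) 2 ++ raise w)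
    rw [h2, Fin.sum_univ_succ, ← word_add_zero] at h1
    rw [word, sum_ins_replicate, Fin.sum_univ_succ, Fin.sum_univ_succ (n := l)]
    simp only [word, tail_add_zero, tail_add_succ, Pi.add_apply, Pi.single_eq_same,
      Pi.single_eq_of_ne (Fin.succ_ne_zero _).symm, add_zero, if_true, Fin.succ_ne_zero, if_false]
      at h1 ⊢
    have e : List.replicate (b 0) 2 ++ 2 :: raise (word l (Fin.tail b)) =
        List.replicate (b 0 + 1) 2 ++ raise (word l (Fin.tail b)) := by
      rw [List.replicate_succ', List.append_assoc]; rfl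
    rw [e] at h1
    simp only [Fin.tail] at h1 ⊢
    linear_combination h1

end Pool.Agent.MP_cbe134_nt
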