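import Mathlib

/- Statement of the polynomial vanishing lemma (part D of the depth-drop theorem). -/

open MvPolynomial

namespace Pool.Agent.MP_cbe134_nt

/-- apolar pairing: `pair p f = (p(d) f)(0)` -/
noncomputable def pair {ι : Type} [Fintype ι] (p f : MvPolynomial ι ℚ) : ℚ :=
  ∑ n ∈ p.support, coeff n p * coeff n f * ∏ i, ((n i).factorial : ℚ)

/-- the signed sum `∑ ± X i` -/
noncomputable def sgnSum {ι : Type} [Fintype ι] (η : ι → Bool) : MvPolynomial ι ℚ :=
  ∑ i, if η i then X i else - X i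

/-- the product of the squares of all signed sums -/
noncomputable def Npoly (ι : Type) [Fintype ι] [DecidableEq ι] : MvPolynomial ι ℚ :=
  ∏ η : ι → Bool, sgnSum η ^ 2

/-- the translation derivative -/
noncomputable def Lop {ι : Type} [Fintype ι] (h : MvPolynomial ι ℚ) : MvPolynomial ι ℚ :=
  ∑ i, pderiv i h

/-- Part D: the system `L^a h = 0`, `N(d) (X_T h(X^2)) = 0` has no homogeneous solution of
large degree. -/
def StmtD : Prop :=
  ∀ (ι : Type) [Fintype ι] [DecidableEq ι] (T : Finset ι) (a : ℕ), ∃ K : ℕ, ∀ n : ℕ, K < n →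
    ∀ h : MvPolynomial ι ℚ, h.IsHomogeneous n → Lop^[a] h = 0 →
      (∀ q : MvPolynomial ι ℚ, pair (Npoly ι * q) ((∏ i ∈ T, X i) * expand 2 h) = 0) → h = 0

/-- Part E: the form of part D used in the main argument. -/
def StmtE : Prop :=
  ∀ l : ℕ, ∃ K : ℕ, ∀ d : ℕ, K < d → ∀ B : MvPolynomial (Fin (l + 1)) ℚ, B.IsHomogeneous d →
    (∀ a ∈ B.support, a (Fin.last l) ≠ 0) →
    (∀ b : Fin (l + 1) →₀ ℕ, ∑ i : Fin (l + 1),
      (if i = 0 then (b i : ℚ) + 1 else (b i : ℚ)) * coeff (b + Finsupp.single i 1) B = 0) →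
    (∀ q : MvPolynomial (Fin (l + 1)) ℚ,
      pair (Npoly (Fin (l + 1)) * X (Fin.last l) * q) (X 0 * expand 2 B) = 0) → B = 0

end Pool.Agent.MP_cbe134_nt
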