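import Pool.Agent.MP_cbe134_nt.C3
import Pool.Agent.MP_cbe134_nt.DStmt

/- The differential relation for the values without ones, modulo `π²`. -/

open Finset MvPolynomial

namespace Pool.Agent.MP_cbe134_nt

section Poly

variable {ι : Type} [Fintype ι] [DecidableEq ι]

/-- elementary symmetric functions of the squares of the signed sums -/
noncomputable def Esym (ι : Type) [Fintype ι] [DecidableEq ι] (j : ℕ) : MvPolynomial ι ℚ :=
  ∑ t ∈ powersetCard j (univ : Finset (ι → Bool)), ∏ η ∈ t, sgnSum η ^ 2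

lemma Esym_card : Esym ι (Fintype.card (ι → Bool)) = Npoly ι := by
  rw [Esym, ← card_univ, powersetCard_self, sum_singleton, Npoly]

lemma Esym_rel : ∑ j ∈ range (Fintype.card (ι → Bool) + 1),
    (-(∑ i, X i) ^ 2) ^ (Fintype.card (ι → Bool) - j) * Esym ι j = 0 := by
  have h1 : ∏ η : ι → Bool, (sgnSum η ^ 2 + -(∑ i, (X i : MvPolynomial ι ℚ)) ^ 2) = 0 :=
    prod_eq_zero (mem_univ fun _ => true) (by simp [sgnSum])
  rw [prod_add, sum_powerset, card_univ] at h1
  rw [← h1]
  refine sum_congr rfl fun j _ => ?_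
  rw [Esym, mul_sum]
  refine sum_congr rfl fun t ht => ?_
  rw [prod_const, card_univ_sdiff, (mem_powersetCard.1 ht).2, mul_comm]

omit [DecidableEq ι] in
lemma sgnSum_hom (η : ι → Bool) : (sgnSum η).IsHomogeneous 1 := by
  refine IsHomogeneous.sum _ _ _ fun i _ => ?_
  split_ifs
  · exact isHomogeneous_X _ _
  · exact (isHomogeneous_X _ _).neg

lemma Esym_hom (j : ℕ) : (Esym ι j).IsHomogeneous (2 * j) := by
  refine IsHomogeneous.sum _ _ _ fun t ht => ?_
  have := IsHomogeneous.prod t (fun η => sgnSum η ^ 2) (fun _ => 2)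
    fun η _ => (sgnSum_hom η).pow 2
  rwa [sum_const, (mem_powersetCard.1 ht).2, smul_eq_mul, mul_comm] at this

/-- change the sign of one variable -/
noncomputable def flp (i : ι) : MvPolynomial ι ℚ →ₐ[ℚ] MvPolynomial ι ℚ :=
  aeval fun j => if j = i then -X j else X j

lemma flp_monomial (i : ι) (n : ι →₀ ℕ) (c : ℚ) :
    flp i (monomial n c) = monomial n ((-1) ^ n i * c) := by
  rw [flp, aeval_monomial, monomial_eq, Finsupp.prod_fintype _ _ (by simp),
    Finsupp.prod_fintype _ _ (by simp)]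
  have : ∏ j, (if j = i then -X j else X j : MvPolynomial ι ℚ) ^ n j =
      (∏ j, (if j = i then (-1) ^ n j else 1)) * ∏ j, X j ^ n j := by
    rw [← prod_mul_distrib]
    refine prod_congr rfl fun j _ => ?_
    split_ifs
    · exact neg_pow _ _
    · simp
  rw [this]
  simp
  ring

lemma coeff_flp (i : ι) (p : MvPolynomial ι ℚ) (n : ι →₀ ℕ) :
    coeff n (flp i p) = (-1) ^ n i * coeff n p := by
  induction p using MvPolynomial.induction_on' with
  | monomial m c =>
    rw [flp_monomial, coeff_monomial, coeff_monomial]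
    split_ifs with h
    · rw [h]
    · simp
  | add p q hp hq => simp [hp, hq, mul_add]

/-- change one sign -/
def flipEquiv (i : ι) : (ι → Bool) ≃ (ι → Bool) :=
  Function.Involutive.toPerm (fun η j => if j = i then !η j else η j) fun η => by
    funext j
    by_cases h : j = i <;> simp [h]

lemma flp_sgnSum (i : ι) (η : ι → Bool) : flp i (sgnSum η) = sgnSum (flipEquiv i η) := by
  simp only [sgnSum, map_sum]
  refine sum_congr rfl fun j _ => ?_
  by_cases h : j = i <;> cases h' : η j <;> simp [flp, flipEquiv, h, h'] <;> simp_all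

lemma flp_Esym (i : ι) (j : ℕ) : flp i (Esym ι j) = Esym ι j := by
  have h : ∀ y : (ι → Bool) → MvPolynomial ι ℚ, aeval y (esymm (ι → Bool) ℚ j) =
      ∑ t ∈ powersetCard j (univ : Finset (ι → Bool)), ∏ η ∈ t, y η := fun y => by
    simp [esymm]
  have h2 := h fun η => sgnSum (flipEquiv i η) ^ 2
  rw [Esym, map_sum]
  simp only [map_prod, map_pow, flp_sgnSum]
  rw [← h2, ← h]
  conv_rhs => rw [← rename_esymm _ _ j (flipEquiv i), aeval_rename]
  rfl

lemma Esym_support {j : ℕ} {e : ι →₀ ℕ} (he : e ∈ (Esym ι j).support) :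
    ∃ e' : ι →₀ ℕ, e = 2 • e' ∧ ∑ i, e' i = j := by
  have h0 := mem_support_iff.1 he
  have h1 : ∀ i, Even (e i) := fun i => by
    by_contra h
    have := coeff_flp i (Esym ι j) e
    rw [flp_Esym, (Nat.not_even_iff_odd.1 h).neg_one_pow] at this
    exact h0 (by linarith)
  have h2 : e.degree = 2 * j := by
    by_contra h
    exact h0 ((Esym_hom j).coeff_eq_zero h)
  have h3 : e = 2 • e.mapRange (· / 2) (by simp) := by
    ext i
    obtain ⟨c, hc⟩ := h1 i
    simp only [Finsupp.smul_apply, Finsupp.mapRange_apply, smul_eq_mul]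
    omega
  refine ⟨_, h3, ?_⟩
  rw [h3, Finsupp.degree_eq_sum] at h2
  simp only [Finsupp.smul_apply, smul_eq_mul, ← mul_sum] at h2
  omega

omit [DecidableEq ι] in
lemma pair_add (p q f : MvPolynomial ι ℚ) : pair (p + q) f = pair p f + pair q f := by
  classical
  have h : ∀ r : MvPolynomial ι ℚ, r.support ⊆ p.support ∪ q.support → pair r f =
      ∑ n ∈ p.support ∪ q.support, coeff n r * coeff n f * ∏ i, ((n i).factorial : ℚ) :=
    fun r hr => sum_subset hr fun n _ hn => by simp [notMem_support_iff.1 hn]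
  rw [h _ support_add, h _ subset_union_left, h _ subset_union_right, ← sum_add_distrib]
  exact sum_congr rfl fun n _ => by simp [add_mul]

omit [Fintype ι] [DecidableEq ι] in
lemma mem_support_mul_monomial {p : MvPolynomial ι ℚ} {m n : ι →₀ ℕ} {c : ℚ}
    (h : n ∈ (p * monomial m c).support) : ∃ e ∈ p.support, n = e + m := by
  classical
  have h0 := mem_support_iff.1 h
  rw [coeff_mul_monomial'] at h0
  split_ifs at h0 with hle
  · exact ⟨n - m, mem_support_iff.2 (left_ne_zero_of_mul h0), (tsub_add_cancel_of_le hle).symm⟩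
  · exact absurd rfl h0

end Poly

variable {l : ℕ}

/-- the value attached to a monomial -/
noncomputable def val (n : Fin (l + 1) →₀ ℕ) : ℝ :=
  (∏ i, ((n i).factorial : ℝ)) * evl (W l n)

/-- the evaluation functional -/
noncomputable def Lam (l : ℕ) : MvPolynomial (Fin (l + 1)) ℚ →ₗ[ℚ] ℝ :=
  (basisMonomials (Fin (l + 1)) ℚ).constr ℚ val

lemma Lam_monomial (n : Fin (l + 1) →₀ ℕ) (c : ℚ) : Lam l (monomial n c) = c • val n := by
  have : monomial n c = c • basisMonomials (Fin (l + 1)) ℚ n := by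
    simp [smul_monomial]
  rw [this, map_smul, Lam, Module.Basis.constr_basis]

lemma Lam_sigma (q : MvPolynomial (Fin (l + 1)) ℚ) :
    Lam l ((∑ i, X i) * (X (Fin.last l) * q)) = evl Th * Lam l (X (Fin.last l) * q) := by
  induction q using MvPolynomial.induction_on' with
  | monomial m c =>
    rw [X, monomial_mul, one_mul, sum_mul, map_sum]
    set n := Finsupp.single (Fin.last l) 1 + m with hn
    have h1 := evl_Th_W l n (Or.inr (by simp [hn]))
    simp only [X, monomial_mul, one_mul, Lam_monomial, val]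
    rw [mul_smul_comm, mul_left_comm, h1, mul_sum, smul_sum]
    refine sum_congr rfl fun i _ => ?_
    have e1 : ((Finsupp.single i 1 + n : Fin (l + 1) →₀ ℕ) : Fin (l + 1) → ℕ)
        = (n : Fin (l + 1) → ℕ) + Pi.single i 1 := by
      rw [add_comm _ n, Finsupp.coe_add, Finsupp.single_eq_pi_single]
    rw [e1, ← mul_assoc, ← mul_prod_erase _ _ (mem_univ i),
      ← mul_prod_erase _ (fun j => ((n j).factorial : ℝ)) (mem_univ i)]
    have e2 : ∏ j ∈ univ.erase i, ((((n : Fin (l + 1) → ℕ) + Pi.single i 1 : Fin (l + 1) → ℕ) j).factorial : ℝ) =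
        ∏ j ∈ univ.erase i, ((n j).factorial : ℝ) :=
      prod_congr rfl fun j hj => by simp [Pi.single_eq_of_ne (ne_of_mem_erase hj)]
    rw [e2]
    simp only [Pi.add_apply, Pi.single_eq_same, Nat.factorial_succ]
    push_cast
    congr 1
    ring
  | add p q hp hq => simp only [mul_add, map_add, hp, hq]

lemma Lam_sigma_pow (m : ℕ) (q : MvPolynomial (Fin (l + 1)) ℚ) :
    Lam l ((-(∑ i, X i) ^ 2) ^ m * (X (Fin.last l) * q)) =
      (-Real.pi ^ 2) ^ m * Lam l (X (Fin.last l) * q) := by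
  induction m generalizing q with
  | zero => simp
  | succ m ih =>
    have e : (-(∑ i, X i) ^ 2) ^ (m + 1) * (X (Fin.last l) * q) =
        -((∑ i, X i) * (X (Fin.last l) * ((∑ i, X i) * ((-(∑ i, X i) ^ 2) ^ m * q)))) := by ring
    have e2 : X (Fin.last l) * ((∑ i, X i) * ((-(∑ i, X i) ^ 2) ^ m * q)) =
        (∑ i, X i) * (X (Fin.last l) * ((-(∑ i, X i) ^ 2) ^ m * q)) := by ring
    rw [e, map_neg, Lam_sigma, e2, Lam_sigma, mul_left_comm (X _), ih, ← evl_Th_sq]
    ring

/-- all monomials of `p` have the parity pattern of an index of depth `d` -/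
def PatP (p : MvPolynomial (Fin (l + 1)) ℚ) (d : ℕ) : Prop :=
  ∀ n ∈ p.support, ∃ a : Fin (l + 1) →₀ ℕ, n = 2 • a + Finsupp.single 0 1 ∧
    (l = 0 ∨ a (Fin.last l) ≠ 0) ∧ ∑ i, a i = d

lemma val_pat (a : Fin (l + 1) →₀ ℕ) (ha : l = 0 ∨ a (Fin.last l) ≠ 0) :
    val (2 • a + Finsupp.single 0 1) = evl Th *
      ((∏ i, (((2 • a + Finsupp.single 0 1 : Fin (l + 1) →₀ ℕ) i).factorial : ℚ)) •
        mzv (word l a)) := by
  have e : ((2 • a + Finsupp.single 0 1 : Fin (l + 1) →₀ ℕ) : Fin (l + 1) → ℕ) =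
      (fun i => 2 * a i) + Pi.single 0 1 := by
    rw [Finsupp.coe_add, Finsupp.single_eq_pi_single]; rfl
  rw [val, Rat.smul_def, e, evl_W l a ha]
  simp only [Rat.cast_prod, Rat.cast_natCast]
  ring

lemma Lam_eq_sum (p : MvPolynomial (Fin (l + 1)) ℚ) :
    Lam l p = ∑ n ∈ p.support, coeff n p • val n := by
  conv_lhs => rw [p.as_sum, map_sum]
  simp only [Lam_monomial]

lemma Lam_mem {p : MvPolynomial (Fin (l + 1)) ℚ} {d : ℕ} (hp : PatP p d) :
    (evl Th)⁻¹ * Lam l p ∈ Zsp (2 * d + l) := by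
  rw [Lam_eq_sum, mul_sum]
  refine sum_mem fun n hn => ?_
  obtain ⟨a, rfl, h2, h3⟩ := hp n hn
  rw [mul_smul_comm, val_pat a h2, ← mul_assoc, inv_mul_cancel₀ evl_Th_pos.ne', one_mul]
  refine Submodule.smul_mem _ _ (Submodule.smul_mem _ _ ?_)
  exact mzv_mem_Zsp (adm_of_two_le (word_two_le _ _)) (by rw [word_sum _ _ h2, h3])

lemma patP_Esym (j : ℕ) (a : Fin (l + 1) →₀ ℕ) (c : ℚ) (ha : l = 0 ∨ a (Fin.last l) ≠ 0) :
    PatP (Esym _ j * monomial (2 • a + Finsupp.single 0 1) c) (j + ∑ i, a i) := by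
  intro n hn
  obtain ⟨e, he, rfl⟩ := mem_support_mul_monomial hn
  obtain ⟨e', rfl, h2⟩ := Esym_support he
  refine ⟨e' + a, by rw [smul_add, add_assoc], ?_, by simp [sum_add_distrib, h2]⟩
  refine ha.imp_right fun h => ?_
  simp only [Finsupp.add_apply]
  omega

lemma Lam_N_mem (m a : Fin (l + 1) →₀ ℕ) (c : ℚ) (ha : l = 0 ∨ a (Fin.last l) ≠ 0)
    (hm : Finsupp.single (Fin.last l) 1 + m = 2 • a + Finsupp.single 0 1) :
    (evl Th)⁻¹ * Lam l (Npoly _ * monomial (2 • a + Finsupp.single 0 1) c) ∈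
      PiZ (2 * (Fintype.card (Fin (l + 1) → Bool) + ∑ i, a i) + l) := by
  set D := Fintype.card (Fin (l + 1) → Bool) with hD
  have e : ∀ p : MvPolynomial (Fin (l + 1)) ℚ, p * monomial (2 • a + Finsupp.single 0 1) c =
      X (Fin.last l) * (p * monomial m c) := fun p => by
    rw [mul_left_comm, X, monomial_mul, one_mul, hm]
  have h1 := congrArg (fun p => Lam l (p * monomial (2 • a + Finsupp.single 0 1) c))
    (Esym_rel (ι := Fin (l + 1)))
  simp only [zero_mul, map_zero, sum_mul, map_sum, mul_assoc] at h1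
  simp only [e, Lam_sigma_pow] at h1
  simp only [← e] at h1
  rw [sum_range_succ, ← hD, Nat.sub_self, pow_zero, one_mul, hD, Esym_card, ← hD] at h1
  rw [eq_neg_of_add_eq_zero_right h1, mul_neg, mul_sum]
  refine neg_mem (sum_mem fun j hj => ?_)
  have hj := mem_range.1 hj
  obtain ⟨s, hs⟩ : ∃ s, D = j + s + 1 := ⟨D - j - 1, by omega⟩
  have h2 := pi_pow_mul_mem_Zsp (j := s) (Lam_mem (patP_Esym j a c ha))
  have h3 : (evl Th)⁻¹ * ((-Real.pi ^ 2) ^ (D - j) *
      Lam l (Esym _ j * monomial (2 • a + Finsupp.single 0 1) c)) =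
      ((-1 : ℚ) ^ (s + 1)) • (Real.pi ^ 2 * (Real.pi ^ (2 * s) * ((evl Th)⁻¹ *
        Lam l (Esym _ j * monomial (2 • a + Finsupp.single 0 1) c)))) := by
    rw [show D - j = s + 1 by omega, Rat.smul_def, neg_pow]
    push_cast
    ring
  rw [h3]
  exact Submodule.smul_mem _ _ (Submodule.subset_span ⟨_, _, by omega, h2, rfl⟩)

end Pool.Agent.MP_cbe134_nt
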