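import Pool.Agent.MP_cbe134_nt.DStmt

/- Vanishing orders at the sign points and the cone lemma. -/

open MvPolynomial Finset

namespace Pool.Agent.MP_cbe134_nt

namespace DAux

variable {ι : Type} [Fintype ι] [DecidableEq ι]

/-- the maximal ideal of a point -/
noncomputable def mI (p : ι → ℚ) : Ideal (MvPolynomial ι ℚ) := RingHom.ker (eval p)

/-- the derivative in the direction `p` -/
noncomputable def Lp (p : ι → ℚ) (f : MvPolynomial ι ℚ) : MvPolynomial ι ℚ :=
  ∑ i, C (p i) * pderiv i f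

/-- the sign vector -/
def sg (η : ι → Bool) (i : ι) : ℚ := if η i then 1 else -1

/-- the sign change -/
noncomputable def flip (η : ι → Bool) : MvPolynomial ι ℚ →ₐ[ℚ] MvPolynomial ι ℚ :=
  aeval fun i => C (sg η i) * X i

omit [Fintype ι] [DecidableEq ι] in
theorem X_sub_mem (p : ι → ℚ) (i : ι) : X i - C (p i) ∈ mI p := by
  simp [mI, RingHom.mem_ker]

theorem map_mem_pow {R : Type} [CommRing R] (φ : R →+* R) {I J : Ideal R}
    (h : ∀ f ∈ I, φ f ∈ J) {k : ℕ} {f : R} (hf : f ∈ I ^ k) : φ f ∈ J ^ k := by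
  have h1 := Ideal.mem_map_of_mem φ hf
  rw [Ideal.map_pow] at h1
  exact Ideal.pow_right_mono (Ideal.map_le_iff_le_comap.2 h) k h1

omit [Fintype ι] [DecidableEq ι] in
theorem pderiv_mem_pow (I : Ideal (MvPolynomial ι ℚ)) (i : ι) (k : ℕ) :
    ∀ f ∈ I ^ (k + 1), pderiv i f ∈ I ^ k := by
  induction k with
  | zero => simp
  | succ k ih =>
    intro f hf
    rw [pow_succ] at hf
    refine Submodule.mul_induction_on hf (fun a ha b hb => ?_) (fun a b ha hb => ?_)
    · rw [pderiv_mul]
      refine add_mem ?_ (Ideal.mul_mem_right _ _ ha)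
      rw [pow_succ]
      exact Ideal.mul_mem_mul (ih a ha) hb
    · rw [map_add]
      exact add_mem ha hb

omit [DecidableEq ι] in
theorem Lp_mem_pow (I : Ideal (MvPolynomial ι ℚ)) (p : ι → ℚ) {k : ℕ} {f : MvPolynomial ι ℚ}
    (hf : f ∈ I ^ (k + 1)) : Lp p f ∈ I ^ k :=
  Ideal.sum_mem _ fun i _ => Ideal.mul_mem_left _ _ (pderiv_mem_pow I i k f hf)

omit [DecidableEq ι] in
theorem Lp_hom (p : ι → ℚ) {n : ℕ} {f : MvPolynomial ι ℚ} (hf : f.IsHomogeneous (n + 1)) :
    (Lp p f).IsHomogeneous n :=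
  IsHomogeneous.sum _ _ _ fun _ _ => hf.pderiv.C_mul _

omit [Fintype ι] in
theorem pderiv_pderiv (i j : ι) (f : MvPolynomial ι ℚ) :
    pderiv i (pderiv j f) = pderiv j (pderiv i f) := by
  ext m
  simp only [coeff_pderiv, Finsupp.add_apply, Finsupp.single_apply]
  rw [add_right_comm]
  by_cases h : i = j
  · subst h
    rfl
  · simp only [h, Ne.symm h, if_false, add_zero]
    ring

theorem pderiv_Lp (p : ι → ℚ) (i : ι) (f : MvPolynomial ι ℚ) :
    pderiv i (Lp p f) = Lp p (pderiv i f) := by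
  simp only [Lp, map_sum, pderiv_C_mul, pderiv_pderiv i]

theorem pderiv_Lp_iter (p : ι → ℚ) (i : ι) (a : ℕ) (f : MvPolynomial ι ℚ) :
    pderiv i ((Lp p)^[a] f) = (Lp p)^[a] (pderiv i f) := by
  induction a generalizing f with
  | zero => rfl
  | succ a ih => rw [Function.iterate_succ_apply, Function.iterate_succ_apply, ih, pderiv_Lp]

theorem mult_of_iter (p : ι → ℚ) (n : ℕ) : ∀ (a : ℕ) (h : MvPolynomial ι ℚ), h.IsHomogeneous n →
    (Lp p)^[a] h = 0 → h ∈ mI p ^ (n + 1 - a) := by
  induction n with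
  | zero =>
    intro a h _ ha
    rcases a with _ | a
    · rw [Function.iterate_zero_apply] at ha
      rw [ha]
      exact zero_mem _
    · simp
  | succ n ih =>
    intro a h hh ha
    rcases a with _ | a
    · rw [Function.iterate_zero_apply] at ha
      rw [ha]
      exact zero_mem _
    rcases Nat.lt_or_ge n a with hn | hn
    · rw [show n + 1 + 1 - (a + 1) = 0 by omega]
      simp
    have e1 : (C ((n + 1 : ℕ) : ℚ) : MvPolynomial ι ℚ) * h =
        ∑ i, (X i - C (p i)) * pderiv i h + Lp p h := by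
      rw [Lp, ← sum_add_distrib, map_natCast, ← nsmul_eq_mul, ← hh.sum_X_mul_pderiv]
      exact sum_congr rfl fun i _ => by ring
    have e2 : (C ((n + 1 : ℕ) : ℚ) : MvPolynomial ι ℚ) * h ∈ mI p ^ (n + 1 - a) := by
      rw [e1]
      refine add_mem (Ideal.sum_mem _ fun i _ => ?_) (ih a _ (Lp_hom p hh) ha)
      rw [show n + 1 - a = (n + 1 - (a + 1)) + 1 by omega, pow_succ']
      refine Ideal.mul_mem_mul (X_sub_mem p i) (ih (a + 1) _ hh.pderiv ?_)
      rw [← pderiv_Lp_iter, ha, map_zero]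
    have e3 := Ideal.mul_mem_left _ (C (((n + 1 : ℕ) : ℚ)⁻¹)) e2
    rw [← mul_assoc, ← map_mul, inv_mul_cancel₀ (by positivity), map_one, one_mul] at e3
    rwa [show n + 1 + 1 - (a + 1) = n + 1 - a by omega]

omit [Fintype ι] in
theorem pderiv_expand (i : ι) (f : MvPolynomial ι ℚ) :
    pderiv i (expand 2 f) = X i * (C 2 * expand 2 (pderiv i f)) := by
  induction f using MvPolynomial.induction_on with
  | C a => simp [expand_C]
  | add p q hp hq => simp only [map_add, hp, hq]; ring
  | mul_X p j h =>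
    have : (C 2 : MvPolynomial ι ℚ) = 2 := rfl
    by_cases e : j = i
    · subst e
      simp only [map_mul, expand_X, pderiv_mul, h, pderiv_pow, pderiv_X_self, map_add, this,
        map_one]
      push_cast
      ring
    · simp only [map_mul, expand_X, pderiv_mul, h, pderiv_pow, pderiv_X_of_ne e, map_add, this,
        map_zero]
      ring

omit [Fintype ι] [DecidableEq ι] in
theorem mem_of_X_mul (i : ι) (g : MvPolynomial ι ℚ) (j : ℕ) (h : X i * g ∈ mI 1 ^ j) :
    g ∈ mI (1 : ι → ℚ) ^ j := by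
  induction j with
  | zero => simp
  | succ j ih =>
    have h1 := ih (Ideal.pow_le_pow_right (Nat.le_succ j) h)
    have h2 := Ideal.mul_mem_mul (X_sub_mem (1 : ι → ℚ) i) h1
    rw [← pow_succ'] at h2
    have := sub_mem h h2
    rwa [show X i * g - (X i - C ((1 : ι → ℚ) i)) * g = g by simp [sub_mul]] at this

theorem even_zero (D : ℕ) : ∀ (k : ℕ) (ψ : MvPolynomial ι ℚ), ψ.IsHomogeneous D →
    expand 2 ψ ∈ mI 1 ^ k → D < k → ψ = 0 := by
  induction D with
  | zero =>
    intro k ψ h1 h2 h3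
    rw [← totalDegree_zero_iff_isHomogeneous, totalDegree_eq_zero_iff_eq_C] at h1
    have := Ideal.pow_le_self (by omega) h2
    rw [h1, expand_C, mI, RingHom.mem_ker, eval_C] at this
    rw [h1, this, map_zero]
  | succ D ih =>
    intro k ψ h1 h2 h3
    obtain ⟨k, rfl⟩ : ∃ k', k = k' + 1 := ⟨k - 1, by omega⟩
    have h4 : ∀ i, pderiv i ψ = 0 := fun i => by
      have e1 := pderiv_mem_pow _ i k _ h2
      rw [pderiv_expand] at e1
      have e2 := Ideal.mul_mem_left _ (C (2⁻¹ : ℚ)) (mem_of_X_mul i _ k e1)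
      rw [← mul_assoc, ← map_mul, inv_mul_cancel₀ two_ne_zero, map_one, one_mul] at e2
      exact ih k _ h1.pderiv e2 (by omega)
    have h5 := h1.sum_X_mul_pderiv
    simp only [h4, mul_zero, sum_const_zero] at h5
    exact (smul_eq_zero.1 h5.symm).resolve_left (Nat.succ_ne_zero D)

theorem coeff_flip (η : ι → Bool) (f : MvPolynomial ι ℚ) (d : ι →₀ ℕ) :
    coeff d (flip η f) = (∏ i, sg η i ^ d i) * coeff d f := by
  induction f using MvPolynomial.induction_on' with
  | add p q hp hq => simp only [map_add, coeff_add, hp, hq, mul_add]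
  | monomial n a =>
    have : flip η (monomial n a) = monomial n ((∏ i, sg η i ^ n i) * a) := by
      rw [flip, aeval_monomial, monomial_eq, Finsupp.prod_fintype _ _ (by simp),
        Finsupp.prod_fintype _ _ (by simp)]
      simp only [mul_pow, prod_mul_distrib, map_mul, map_prod, map_pow, algebraMap_eq]
      ring
    rw [this, coeff_monomial, coeff_monomial]
    split_ifs with h
    · rw [h]
    · rw [mul_zero]

omit [Fintype ι] [DecidableEq ι] in
theorem sg_beq (η θ : ι → Bool) (i : ι) : sg (fun j => η j == θ j) i = sg θ i * sg η i := by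
  rcases h1 : η i with _ | _ <;> rcases h2 : θ i with _ | _ <;> simp [sg, h1, h2]

theorem flip_flip (η θ : ι → Bool) (f : MvPolynomial ι ℚ) :
    flip θ (flip η f) = flip (fun j => η j == θ j) f := by
  ext d
  simp only [coeff_flip, sg_beq, mul_pow, prod_mul_distrib, mul_assoc]

theorem flip_eq_zero {η : ι → Bool} {f : MvPolynomial ι ℚ} (h : flip η f = 0) : f = 0 := by
  ext d
  have := coeff_flip η f d
  rw [h, coeff_zero] at this
  refine (mul_eq_zero.1 this.symm).resolve_left (prod_ne_zero_iff.2 fun i _ => pow_ne_zero _ ?_)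
  unfold sg
  split_ifs <;> norm_num

theorem flip_hom (η : ι → Bool) {n : ℕ} {f : MvPolynomial ι ℚ} (hf : f.IsHomogeneous n) :
    (flip η f).IsHomogeneous n := fun d hd => by
  rw [coeff_flip] at hd
  exact hf (right_ne_zero_of_mul hd)

omit [Fintype ι] [DecidableEq ι] in
theorem flip_mem (η : ι → Bool) {k : ℕ} {f : MvPolynomial ι ℚ} (hf : f ∈ mI (sg η) ^ k) :
    flip η f ∈ mI 1 ^ k := by
  refine map_mem_pow (flip η).toRingHom (fun g hg => ?_) hf
  have : (eval (1 : ι → ℚ)).comp (flip η).toRingHom = eval (sg η) := by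
    ext <;> simp [flip]
  rw [mI, RingHom.mem_ker] at hg ⊢
  rw [← hg, ← this]
  rfl

omit [Fintype ι] [DecidableEq ι] in
theorem expand_mem (η : ι → Bool) {k : ℕ} {f : MvPolynomial ι ℚ} (hf : f ∈ mI 1 ^ k) :
    expand 2 f ∈ mI (sg η) ^ k := by
  refine map_mem_pow (expand 2 : MvPolynomial ι ℚ →ₐ[ℚ] _).toRingHom (fun g hg => ?_) hf
  have : (eval (sg η)).comp (expand 2 : MvPolynomial ι ℚ →ₐ[ℚ] _).toRingHom =
      eval (1 : ι → ℚ) := by
    ext i
    · simp [expand_C]
    · simp [sg]
  rw [mI, RingHom.mem_ker] at hg ⊢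
  rw [← hg, ← this]
  rfl

theorem exists_half {Ψ : MvPolynomial ι ℚ} {N : ℕ} (h1 : Ψ.IsHomogeneous N)
    (h2 : ∀ θ, flip θ Ψ = Ψ) :
    ∃ ψ : MvPolynomial ι ℚ, ψ.IsHomogeneous (N / 2) ∧ expand 2 ψ = Ψ := by
  have h3 : ∀ d ∈ Ψ.support, 2 • d.mapRange (· / 2) rfl = d := by
    intro d hd
    ext i
    have e1 := coeff_flip (fun j => decide (j ≠ i)) Ψ d
    rw [h2, prod_eq_single i (fun j _ hj => by simp [sg, hj]) (by simp)] at e1
    have e2 : Even (d i) := by
      by_contra h
      have e3 : sg (fun j => decide (j ≠ i)) i = -1 := by simp [sg]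
      rw [e3, (Nat.not_even_iff_odd.1 h).neg_one_pow] at e1
      exact mem_support_iff.1 hd (by linarith)
    simp only [Finsupp.smul_apply, Finsupp.mapRange_apply, smul_eq_mul]
    exact Nat.two_mul_div_two_of_even e2
  refine ⟨∑ d ∈ Ψ.support, monomial (d.mapRange (· / 2) rfl) (coeff d Ψ),
    IsHomogeneous.sum _ _ _ fun d hd => isHomogeneous_monomial _ ?_, ?_⟩
  · have e1 : d.degree = N := by
      by_contra h
      exact mem_support_iff.1 hd (h1.coeff_eq_zero h)
    rw [← h3 d hd, map_nsmul, smul_eq_mul] at e1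
    omega
  · rw [map_sum]
    conv_rhs => rw [Ψ.as_sum]
    exact sum_congr rfl fun d hd => by rw [expand_monomial, h3 d hd]

/-- A cone over one sign point with large multiplicity at all sign points is zero. -/
theorem cone_zero {G : MvPolynomial ι ℚ} {M m : ℕ} (η₀ : ι → Bool) (h1 : G.IsHomogeneous M)
    (h2 : Lp (sg η₀) G = 0) (h3 : ∀ η : ι → Bool, G ∈ mI (sg η) ^ m)
    (h4 : 2 ^ Fintype.card ι * M < 2 * ((2 ^ Fintype.card ι - 1) * m + M)) : G = 0 := by
  have hc : (univ : Finset (ι → Bool)).card = 2 ^ Fintype.card ι := by simp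
  have e1 : (∏ η, flip η G).IsHomogeneous (∑ _η : ι → Bool, M) :=
    IsHomogeneous.prod _ _ _ fun η _ => flip_hom η h1
  rw [sum_const, hc, smul_eq_mul] at e1
  obtain ⟨ψ, e2, e3⟩ := exists_half e1 fun θ => by
    rw [map_prod]
    simp only [flip_flip]
    have hb : Function.Involutive fun (η : ι → Bool) j => η j == θ j := by
      intro η
      funext j
      change ((η j == θ j) == θ j) = η j
      cases η j <;> cases θ j <;> rfl
    exact hb.bijective.prod_comp fun η => flip η G
  have e4 : ∏ η, flip η G ∈ mI 1 ^ ((2 ^ Fintype.card ι - 1) * m + M) := by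
    rw [← prod_erase_mul _ _ (mem_univ η₀), pow_add]
    refine Ideal.mul_mem_mul ?_ (flip_mem η₀ (mult_of_iter _ M 1 G h1 h2))
    have := Ideal.prod_mem_prod (s := univ.erase η₀) (I := fun _ => mI (1 : ι → ℚ) ^ m)
      (x := fun η => flip η G) fun η _ => flip_mem η (h3 η)
    rwa [prod_const, card_erase_of_mem (mem_univ _), hc, ← pow_mul, mul_comm] at this
  rw [← e3] at e4
  have e5 := even_zero _ _ ψ e2 e4 (by omega)
  rw [e5, map_zero] at e3
  obtain ⟨η, -, hη⟩ := prod_eq_zero_iff.1 e3.symm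
  exact flip_eq_zero hη

end DAux

end Pool.Agent.MP_cbe134_nt
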