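import Pool.Agent.MP_cbe134_nt.D1

/- The polynomial vanishing lemma with an explicit degree bound. -/

open MvPolynomial Finset

namespace Pool.Agent.MP_cbe134_nt

namespace DAux

variable {ι : Type} [Fintype ι] [DecidableEq ι]

omit [DecidableEq ι] in
theorem pair_eq {p : MvPolynomial ι ℚ} (f : MvPolynomial ι ℚ) {s : Finset (ι →₀ ℕ)}
    (hs : p.support ⊆ s) :
    pair p f = ∑ n ∈ s, coeff n p * coeff n f * ∏ i, ((n i).factorial : ℚ) :=
  sum_subset hs fun n _ hn => by rw [notMem_support_iff.1 hn, zero_mul, zero_mul]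

theorem pair_add (p q f : MvPolynomial ι ℚ) : pair (p + q) f = pair p f + pair q f := by
  rw [pair_eq f (support_add (p := p) (q := q)), pair_eq f (subset_union_left (s₂ := q.support)),
    pair_eq f (subset_union_right (s₁ := p.support)), ← sum_add_distrib]
  exact sum_congr rfl fun n _ => by rw [coeff_add]; ring

theorem pair_monomial (n : ι →₀ ℕ) (a : ℚ) (f : MvPolynomial ι ℚ) :
    pair (monomial n a) f = a * coeff n f * ∏ i, ((n i).factorial : ℚ) := by
  rw [pair_eq f support_monomial_subset, sum_singleton, coeff_monomial, if_pos rfl]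

theorem pair_X_mul (i : ι) (p f : MvPolynomial ι ℚ) :
    pair (X i * p) f = pair p (pderiv i f) := by
  induction p using MvPolynomial.induction_on' with
  | add p q hp hq => rw [mul_add, pair_add, pair_add, hp, hq]
  | monomial n a =>
    rw [X, monomial_mul, pair_monomial, pair_monomial, coeff_pderiv, one_mul,
      add_comm (Finsupp.single i 1), ← mul_prod_erase _ _ (mem_univ i),
      ← mul_prod_erase _ (fun j => ((n j).factorial : ℚ)) (mem_univ i),
      prod_congr rfl (g := fun j => ((n j).factorial : ℚ)) fun j hj => by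
        rw [Finsupp.add_apply, Finsupp.single_eq_of_ne (ne_of_mem_erase hj), add_zero]]
    simp only [Finsupp.add_apply, Finsupp.single_eq_same, Nat.factorial_succ]
    push_cast
    ring

theorem pair_sgnSum_mul (η : ι → Bool) (p f : MvPolynomial ι ℚ) :
    pair (sgnSum η * p) f = pair p (Lp (sg η) f) := by
  have h0 : pair (0 : MvPolynomial ι ℚ) f = 0 := by simp [pair]
  have h1 : ∀ (s : Finset ι) (g : ι → MvPolynomial ι ℚ),
      pair (∑ i ∈ s, g i) f = ∑ i ∈ s, pair (g i) f := by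
    intro s g
    induction s using Finset.induction_on with
    | empty => simpa using h0
    | insert a s ha ih => rw [sum_insert ha, sum_insert ha, pair_add, ih]
  have h2 : ∀ q : MvPolynomial ι ℚ, pair (-q) f = - pair q f := fun q => by
    rw [eq_neg_iff_add_eq_zero, ← pair_add, neg_add_cancel, h0]
  have h3 : pair p (Lp (sg η) f) = ∑ i, sg η i * pair p (pderiv i f) := by
    simp only [pair, Lp, coeff_sum, coeff_C_mul, mul_sum, sum_mul]
    rw [sum_comm]
    exact sum_congr rfl fun i _ => sum_congr rfl fun n _ => by ring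
  rw [sgnSum, sum_mul, h1, h3]
  refine sum_congr rfl fun i _ => ?_
  unfold sg
  split_ifs
  · rw [pair_X_mul, one_mul]
  · rw [neg_mul, h2, pair_X_mul, neg_one_mul]

theorem eq_zero_of_pair {f : MvPolynomial ι ℚ} (h : ∀ q, pair q f = 0) : f = 0 := by
  ext n
  have := h (monomial n 1)
  rw [pair_monomial, one_mul] at this
  exact (mul_eq_zero.1 this).resolve_right
    (prod_ne_zero_iff.2 fun i _ => Nat.cast_ne_zero.2 (Nat.factorial_ne_zero _))

theorem peel {M m : ℕ}
    (h4 : 2 ^ Fintype.card ι * M < 2 * ((2 ^ Fintype.card ι - 1) * m + M))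
    (s : Multiset (ι → Bool)) : ∀ G : MvPolynomial ι ℚ, G.IsHomogeneous (M + s.card) →
    (∀ η : ι → Bool, G ∈ mI (sg η) ^ (m + s.card)) →
    (∀ q, pair ((s.map sgnSum).prod * q) G = 0) → G = 0 := by
  induction s using Multiset.induction_on with
  | empty => exact fun G _ _ h => eq_zero_of_pair (by simpa using h)
  | cons η s ih =>
    intro G h1 h2 h3
    rw [Multiset.card_cons, ← add_assoc] at h1 h2
    refine cone_zero η h1 (ih _ (Lp_hom _ h1) (fun θ => Lp_mem_pow _ _ (h2 θ)) fun q => ?_) h2 ?_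
    · rw [← pair_sgnSum_mul, ← mul_assoc, ← h3 q, Multiset.map_cons, Multiset.prod_cons]
    · obtain ⟨Q, hQ⟩ : ∃ Q, 2 ^ Fintype.card ι = Q + 1 :=
        ⟨2 ^ Fintype.card ι - 1, (Nat.sub_add_cancel Nat.one_le_two_pow).symm⟩
      rw [hQ, Nat.add_sub_cancel] at h4 ⊢
      nlinarith

theorem peel_N {M m : ℕ}
    (h4 : 2 ^ Fintype.card ι * M < 2 * ((2 ^ Fintype.card ι - 1) * m + M))
    {G : MvPolynomial ι ℚ} (h1 : G.IsHomogeneous (M + 2 * 2 ^ Fintype.card ι))
    (h2 : ∀ η : ι → Bool, G ∈ mI (sg η) ^ (m + 2 * 2 ^ Fintype.card ι))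
    (h3 : ∀ q, pair (Npoly ι * q) G = 0) : G = 0 := by
  have hc : ((univ : Finset (ι → Bool)).val + univ.val).card = 2 * 2 ^ Fintype.card ι := by
    rw [Multiset.card_add, ← two_mul]
    simp
  refine peel h4 (univ.val + univ.val) G (hc ▸ h1) (hc ▸ h2) fun q => ?_
  rw [← h3 q, Multiset.map_add, Multiset.prod_add, Npoly, prod_pow, sq]
  rfl

theorem Lp_iter_sum (p : ι → ℚ) (a : ℕ) (s : Finset ι) (g : ι → MvPolynomial ι ℚ)
    (h : ∀ i ∈ s, (Lp p)^[a] (g i) = 0) : (Lp p)^[a] (∑ i ∈ s, g i) = 0 := by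
  induction a generalizing g with
  | zero => exact sum_eq_zero h
  | succ a ih =>
    have : Lp p (∑ i ∈ s, g i) = ∑ i ∈ s, Lp p (g i) := by
      simp only [Lp, map_sum, mul_sum]
      exact sum_comm
    rw [Function.iterate_succ_apply, this]
    exact ih _ h

theorem coeff_Lp_one (f : MvPolynomial ι ℚ) (b : ι →₀ ℕ) :
    coeff b (Lp 1 f) = ∑ i, coeff (b + Finsupp.single i 1) f * (b i + 1) := by
  simp [Lp, coeff_sum, coeff_pderiv]

theorem iter_zero (s : Finset ι) : ∀ B : MvPolynomial ι ℚ,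
    (∀ b, coeff b (Lp 1 B) = ∑ i ∈ s, coeff (b + Finsupp.single i 1) B) →
    (Lp 1)^[s.card + 1] B = 0 := by
  induction s using Finset.strongInduction with
  | H s ih =>
    intro B hB
    have e1 : Lp 1 B = ∑ i ∈ s, B.divMonomial (Finsupp.single i 1) := by
      ext b
      simp only [hB, coeff_sum, coeff_divMonomial, add_comm b]
    rw [Function.iterate_succ_apply, e1]
    refine Lp_iter_sum _ _ _ _ fun i hi => ?_
    rw [← card_erase_add_one hi]
    refine ih _ (erase_ssubset hi) _ fun b => ?_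
    have e2 := hB (Finsupp.single i 1 + b)
    rw [coeff_Lp_one, ← add_sum_erase _ _ hi, ← add_sum_erase _ _ (mem_univ i)] at e2
    rw [coeff_Lp_one, ← add_sum_erase _ _ (mem_univ i)]
    simp only [coeff_divMonomial, ← add_assoc]
    rw [sum_congr rfl (g := fun j => coeff (Finsupp.single i 1 + b + Finsupp.single j 1) B *
      ((b j : ℚ) + 1)) fun j hj => by
        rw [Finsupp.add_apply, Finsupp.single_eq_of_ne (ne_of_mem_erase hj), zero_add]] at e2
    simp only [Finsupp.add_apply, Finsupp.single_eq_same] at e2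
    push_cast at e2
    linarith

end DAux

open DAux

theorem stmtE_exp (l d : ℕ) (hd : 2 * 4 ^ (l + 1) ≤ d) (B : MvPolynomial (Fin (l + 1)) ℚ)
    (h1 : B.IsHomogeneous d) (h2 : ∀ a ∈ B.support, a (Fin.last l) ≠ 0)
    (h3 : ∀ b : Fin (l + 1) →₀ ℕ, ∑ i : Fin (l + 1),
      (if i = 0 then (b i : ℚ) + 1 else (b i : ℚ)) * coeff (b + Finsupp.single i 1) B = 0)
    (h4 : ∀ q : MvPolynomial (Fin (l + 1)) ℚ,
      pair (Npoly (Fin (l + 1)) * X (Fin.last l) * q) (X 0 * expand 2 B) = 0) : B = 0 := by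
  have hl : l + 1 < 2 ^ (l + 1) := Nat.lt_two_pow_self
  have h44 : 4 ^ (l + 1) = 2 ^ (l + 1) * 2 ^ (l + 1) := by rw [← mul_pow]; rfl
  obtain ⟨Q, hQ⟩ : ∃ Q, 2 ^ (l + 1) = Q + 1 :=
    ⟨2 ^ (l + 1) - 1, (Nat.sub_add_cancel Nat.one_le_two_pow).symm⟩
  rw [h44, hQ] at hd
  rw [hQ] at hl
  obtain ⟨m, rfl⟩ : ∃ m, d = m + 2 * (Q + 1) + 1 + l := ⟨d - (2 * (Q + 1) + 1 + l), by
    have : 2 * (Q + 1) + 1 + l ≤ d := by nlinarith
    omega⟩
  have e1 := iter_zero (univ.erase 0) B fun b => by
    have := h3 b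
    rw [← add_sum_erase _ _ (mem_univ 0), if_pos rfl,
      sum_congr rfl fun i hi => by rw [if_neg (ne_of_mem_erase hi)]] at this
    rw [coeff_Lp_one, ← add_sum_erase _ _ (mem_univ 0)]
    simp only [mul_comm (coeff _ B)]
    simp only [add_mul, one_mul, sum_add_distrib] at this ⊢
    linarith
  rw [card_erase_of_mem (mem_univ _), card_univ, Fintype.card_fin, Nat.add_sub_cancel] at e1
  have e2 := mult_of_iter _ _ _ B h1 e1
  rw [show m + 2 * (Q + 1) + 1 + l + 1 - (l + 1) = m + 2 * (Q + 1) + 1 by omega] at e2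
  have e3 : (expand 2 B).IsHomogeneous (2 * (m + 2 * (Q + 1) + 1 + l)) :=
    h1.aeval (fun i => X i ^ 2) fun i => isHomogeneous_X_pow i 2
  have e4 : pderiv (Fin.last l) (X 0 * expand 2 B) = 0 := by
    refine peel_N (M := 2 * m + 2 * (Q + 1) + 2 + 2 * l) (m := m) ?_ ?_ (fun η => ?_) fun q => ?_
    · rw [Fintype.card_fin, hQ, Nat.add_sub_cancel]
      nlinarith
    · have := ((isHomogeneous_X ℚ 0).mul e3).pderiv (i := Fin.last l)
      rw [Fintype.card_fin, hQ]
      convert this using 1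
      omega
    · rw [Fintype.card_fin, hQ]
      exact pderiv_mem_pow _ _ _ _ (Ideal.mul_mem_left _ _ (expand_mem η e2))
    · rw [← pair_X_mul, ← h4 q, ← mul_assoc, mul_comm (X _)]
  ext a
  by_contra ha
  have e5 := h2 a (mem_support_iff.2 ha)
  have e6 : Finsupp.single (0 : Fin (l + 1)) 1 + 2 • a - Finsupp.single (Fin.last l) 1 +
      Finsupp.single (Fin.last l) 1 = Finsupp.single 0 1 + 2 • a :=
    Finsupp.sub_add_single_one_cancel (by
      simp only [Finsupp.add_apply, Finsupp.smul_apply, smul_eq_mul]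
      omega)
  have e7 := coeff_pderiv (i := Fin.last l) (X 0 * expand 2 B)
    (Finsupp.single 0 1 + 2 • a - Finsupp.single (Fin.last l) 1)
  rw [e4, e6, coeff_X_mul, coeff_expand_smul _ two_ne_zero, coeff_zero] at e7
  exact ha ((mul_eq_zero.1 e7.symm).resolve_right (by positivity))

theorem stmtE : StmtE := fun l =>
  ⟨2 * 4 ^ (l + 1), fun d hd B => stmtE_exp l d hd.le B⟩

end Pool.Agent.MP_cbe134_nt
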