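import Mathlib

/- Multiple zeta values and the depth filtration, as in the problem file. -/

namespace Pool.Agent.MP_cbe134_nt

/-- An index k₁, …, k_r of positive integers is admissible if `r = 0` or `k₁ ≥ 2`. -/
def Adm (k : List ℕ) : Prop :=
  (∀ a ∈ k, 1 ≤ a) ∧ ∀ a ∈ k.head?, 2 ≤ a

/-- The multiple zeta value `∑_{n₁ > ⋯ > n_r > 0} ∏ 1 / n_i ^ k_i`. -/
noncomputable def mzv (k : List ℕ) : ℝ :=
  ∑' n : {n : Fin k.length → ℕ // StrictAnti n ∧ ∀ i, 0 < n i},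
    ∏ i : Fin k.length, 1 / (n.1 i : ℝ) ^ k.get i

/-- The `ℚ`-span of the multiple zeta values of weight `k`. -/
noncomputable def Zsp (k : ℕ) : Submodule ℚ ℝ :=
  Submodule.span ℚ {x | ∃ w : List ℕ, Adm w ∧ w.sum = k ∧ x = mzv w}

/-- The `ℚ`-span of the multiple zeta values of weight `k` and depth at most `r`. -/
noncomputable def Fil (r k : ℕ) : Submodule ℚ ℝ :=
  Submodule.span ℚ {x | ∃ w : List ℕ, Adm w ∧ w.sum = k ∧ w.length ≤ r ∧ x = mzv w}

end Pool.Agent.MP_cbe134_nt
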