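import Mathlib

/-! Iterated sums of sequences along words. -/

open Finset Polynomial

namespace Pool.Agent.MP_cbe134_nt.FF

section generic

variable {ι R R' : Type*} [CommRing R] [CommRing R']

/-- iterated sum over `d > d₁ > ⋯ > d_r ≥ 0` -/
def Wlt (a : ι → ℕ → R) : List ι → ℕ → R
  | [], _ => 1
  | l :: w, d => ∑ e ∈ range d, a l e * Wlt a w e

variable (R) in
/-- the operator of partial sums -/
def psum : (ℕ → R) →ₗ[R] (ℕ → R) where
  toFun x d := ∑ e ∈ range d, x e
  map_add' x y := by ext d; simp [sum_add_distrib]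
  map_smul' c x := by ext d; simp [mul_sum]

lemma psum_apply (x : ℕ → R) (d : ℕ) : psum R x d = ∑ e ∈ range d, x e := rfl

lemma psum_zero (x : ℕ → R) : psum R x 0 = 0 := by simp [psum_apply]

lemma psum_succ (x : ℕ → R) (d : ℕ) : psum R x (d + 1) = psum R x d + x d := by
  simp [psum_apply, sum_range_succ]

lemma psum_mul_psum (x y : ℕ → R) :
    psum R x * psum R y = psum R (x * psum R y) + psum R ((psum R x + x) * y) := by
  ext d
  induction d with
  | zero => simp [psum_zero]
  | succ d ih =>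
    simp only [Pi.mul_apply, Pi.add_apply, psum_succ] at ih ⊢
    linear_combination ih

lemma eq_psum {x e : ℕ → R} (h0 : x 0 = 0) (h : ∀ d, x (d + 1) = x d + e d) : x = psum R e := by
  ext d
  induction d with
  | zero => rw [h0, psum_zero]
  | succ d ih => rw [h, ih, psum_succ]

lemma Wlt_nil (a : ι → ℕ → R) : Wlt a [] = 1 := rfl

lemma Wlt_cons (a : ι → ℕ → R) (l : ι) (w : List ι) :
    Wlt a (l :: w) = psum R (a l * Wlt a w) := rfl

lemma Wlt_map (f : R →+* R') (a : ι → ℕ → R) (w : List ι) (d : ℕ) :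
    f (Wlt a w d) = Wlt (fun l e => f (a l e)) w d := by
  induction w generalizing d with
  | nil => simp [Wlt]
  | cons l w ih => simp [Wlt, ih]

lemma Wlt_scale (c : R) (s : ι → ℕ) (a : ι → ℕ → R) (w : List ι) (d : ℕ) :
    Wlt (fun l e => c ^ s l * a l e) w d = c ^ (w.map s).sum * Wlt a w d := by
  induction w generalizing d with
  | nil => simp [Wlt]
  | cons l w ih =>
    simp only [Wlt, ih, List.map_cons, List.sum_cons, mul_sum, pow_add]
    exact sum_congr rfl fun e _ => by ring

lemma Wlt_concat_zero (a : ι → ℕ → R) (w : List ι) (l : ι) : Wlt a (w ++ [l]) 0 = 0 := by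
  cases w <;> simp [Wlt]

lemma Wlt_concat_succ (a : ι → ℕ → R) (w : List ι) (l : ι) (d : ℕ) :
    Wlt a (w ++ [l]) (d + 1) = Wlt (fun l e => a l (e + 1)) (w ++ [l]) d +
      a l 0 * Wlt (fun l e => a l (e + 1)) w d := by
  induction w generalizing d with
  | nil => simp [Wlt, sum_range_succ']
  | cons l' w ih =>
    simp only [List.cons_append, Wlt]
    rw [sum_range_succ', Wlt_concat_zero, mul_zero, add_zero, mul_sum, ← sum_add_distrib]
    exact sum_congr rfl fun e _ => by rw [ih]; ring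

end generic

section letters

variable {E E' : Type*} [Field E] [Field E'] (q : ℕ)

/-- `ℓ_d(y) = ∏_{i<d} (t - y^(q^i))` -/
def ell (t y : E) (d : ℕ) : E := ∏ i ∈ range d, (t - y ^ q ^ i)

/-- the letter `u(y^(q^d)) / ℓ_d(y)^s` -/
noncomputable def lett (t y : E) (s : ℕ) : E[X] →ₗ[E] (ℕ → E) where
  toFun u d := u.eval (y ^ q ^ d) / ell q t y d ^ s
  map_add' u v := by ext d; simp [add_div]
  map_smul' c u := by ext d; simp [mul_div_assoc]

variable {q} {t y : E}

lemma lett_apply (s : ℕ) (u : E[X]) (d : ℕ) :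
    lett q t y s u d = u.eval (y ^ q ^ d) / ell q t y d ^ s := rfl

lemma ell_zero : ell q t y 0 = 1 := by simp [ell]

lemma ell_succ (d : ℕ) : ell q t y (d + 1) = ell q t y d * (t - y ^ q ^ d) := by
  simp [ell, prod_range_succ]

lemma ell_succ' (d : ℕ) : ell q t y (d + 1) = (t - y) * ell q t (y ^ q) d := by
  rw [ell, prod_range_succ', mul_comm, pow_zero, pow_one, ell]
  congr 1
  exact prod_congr rfl fun i _ => by rw [← pow_mul, ← pow_succ']

lemma ell_ne (h : ∀ i, t ≠ y ^ q ^ i) (d : ℕ) : ell q t y d ≠ 0 :=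
  prod_ne_zero_iff.2 fun i _ => sub_ne_zero.2 (h i)

lemma map_ell (f : E →+* E') (d : ℕ) : f (ell q t y d) = ell q (f t) (f y) d := by
  simp [ell]

lemma map_lett (f : E →+* E') (s : ℕ) (u : E[X]) (d : ℕ) :
    f (lett q t y s u d) = lett q (f t) (f y) s (u.map f) d := by
  rw [lett_apply, lett_apply, map_div₀, map_pow, map_ell, ← map_pow f y, eval_map, eval₂_hom]

lemma lett_mul (s s' : ℕ) (u u' : E[X]) :
    lett q t y s u * lett q t y s' u' = lett q t y (s + s') (u * u') := by
  ext d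
  simp only [Pi.mul_apply, lett_apply, eval_mul, pow_add]
  rw [div_mul_div_comm]

lemma lett_one : lett q t y 0 1 = 1 := by
  ext d; simp [lett_apply]

lemma lett_pow (s n : ℕ) (u : E[X]) :
    lett q t y s u ^ n = lett q t y (n * s) (u ^ n) := by
  induction n with
  | zero => simp [lett_one]
  | succ n ih => rw [pow_succ, ih, lett_mul, pow_succ, Nat.succ_mul]

lemma lett_succ (s : ℕ) (u : E[X]) (d : ℕ) :
    lett q t y s u (d + 1) = (t - y)⁻¹ ^ s * lett q t (y ^ q) s u d := by
  rw [lett_apply, lett_apply, ell_succ', ← pow_mul, ← pow_succ', mul_pow, inv_pow]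
  rw [div_mul_eq_div_div_swap, div_eq_inv_mul]

lemma lett_zero (s : ℕ) (u : E[X]) : lett q t y s u 0 = u.eval y := by
  simp [lett_apply, ell_zero]

/-- clearing denominators -/
lemma exists_num.{v} {ι A : Type*} [CommRing A] (q : ℕ) (t : A) (s : ι → ℕ) (u : ι → A[X])
    (w : List ι) (d : ℕ) : ∃ n : A[X], ∀ (E : Type v) [Field E] (φ : A →+* E) (y : E),
      (∀ i, φ t ≠ y ^ q ^ i) → n.eval₂ φ y = ell q (φ t) y d ^ (w.map s).sum *
        Wlt (fun l => lett q (φ t) y (s l) ((u l).map φ)) w d := by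
  induction w generalizing d with
  | nil => exact ⟨1, fun E _ φ y _ => by simp [Wlt]⟩
  | cons l w ih =>
    induction d with
    | zero => exact ⟨0, fun E _ φ y _ => by simp [Wlt]⟩
    | succ d ihd =>
      obtain ⟨n, hn⟩ := ihd
      obtain ⟨m, hm⟩ := ih d
      refine ⟨(C t - X ^ q ^ d) ^ (s l + (w.map s).sum) * (n + (u l).comp (X ^ q ^ d) * m),
        fun E _ φ y h => ?_⟩
      have h1 := ell_ne h d
      rw [eval₂_mul, eval₂_add, eval₂_mul, eval₂_pow, eval₂_sub, eval₂_C, eval₂_X_pow, hn E φ y h,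
        hm E φ y h, eval₂_comp, eval₂_X_pow, Wlt_cons, psum_succ, ell_succ, Pi.mul_apply,
        lett_apply, eval_map, List.map_cons, List.sum_cons, mul_pow, pow_add (ell q (φ t) y d)]
      field_simp

end letters

end Pool.Agent.MP_cbe134_nt.FF
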