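import Pool.Agent.MP_cbe134_nt.FFVal
import Pool.Agent.MP_cbe134_nt.FFWords

/-! Convergence of words of letters. -/

open Finset Polynomial WithZero Filter Topology

namespace Pool.Agent.MP_cbe134_nt.FF

section states

variable {E E' ι : Type*} [Field E] [Field E'] (q : ℕ) (t y : E) (s : ι → ℕ) (u : ι → E[X])

/-- the approximants of the period -/
noncomputable def PiS : ℕ → E := lett q t y (q - 1) (C (t ^ q) - X)

/-- the approximants attached to a state -/
noncomputable def xs (P : ℕ × List ι) : ℕ → E :=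
  PiS q t y ^ P.1 * Wlt (fun l => lett q t y (s l) (u l)) P.2

/-- the weight of a state -/
def wtS (P : ℕ × List ι) : ℕ := P.1 * (q - 1) + (P.2.map s).sum

variable {q t y s u}

lemma map_xs (f : E →+* E') (P : ℕ × List ι) (m : ℕ) :
    f (xs q t y s u P m) = xs q (f t) (f y) s (fun l => (u l).map f) P m := by
  simp [xs, PiS, map_lett, Wlt_map]

lemma xs_root (j m : ℕ) : xs q t y s u (j, []) (m + 1) =
    (t - y)⁻¹ ^ wtS q s (j, []) * xs q t (y ^ q) s u (j, []) m := by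
  simp only [xs, wtS, PiS, Pi.mul_apply, Pi.pow_apply, Wlt_nil, lett_succ, Pi.one_apply,
    List.map_nil, List.sum_nil]
  ring

lemma xs_concat (j m : ℕ) (L : List ι) (l : ι) : xs q t y s u (j, L ++ [l]) (m + 1) =
    (t - y)⁻¹ ^ wtS q s (j, L ++ [l]) * xs q t (y ^ q) s u (j, L ++ [l]) m +
      (u l).eval y * ((t - y)⁻¹ ^ wtS q s (j, L) * xs q t (y ^ q) s u (j, L) m) := by
  simp only [xs, wtS, PiS, Pi.mul_apply, Pi.pow_apply, Wlt_concat_succ, lett_succ, lett_zero,
    Wlt_scale]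
  ring

lemma PiS_succ (hf : ∀ a b : E, (a - b) ^ q = a ^ q - b ^ q) (hq : 1 ≤ q)
    (h : ∀ i, t ≠ y ^ q ^ i) (m : ℕ) :
    PiS q t y (m + 1) = PiS q t y m + lett q t y (q - 1) (C (t - t ^ q)) m := by
  have h1 := ell_ne h m
  have h2 := sub_ne_zero.2 (h m)
  simp only [PiS, lett_apply, eval_sub, eval_C, eval_X, ell_succ, mul_pow]
  rw [pow_succ q, pow_mul, ← hf]
  obtain ⟨p, rfl⟩ := Nat.exists_eq_add_of_le' hq
  rw [Nat.add_sub_cancel, pow_succ (t - _)]
  field_simp
  ring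

end states

variable {E : Type*} [Field E]

/-- bounded sequences with small increments -/
def Good (Q κ : ℤ) (x : ℕ → LaurentSeries E) : Prop :=
  (∀ m, O (x m) (Q * κ)) ∧ ∀ m, O (x (m + 1) - x m) (Q * (κ - m))

variable {Q κ κ' : ℤ} {x x' : ℕ → LaurentSeries E}

lemma Good.mul (h : Good Q κ x) (h' : Good Q κ' x') : Good Q (κ + κ') (x * x') := by
  refine ⟨fun m => ((h.1 m).mul (h'.1 m)).mono (by linarith), fun m => ?_⟩
  have e : (x * x') (m + 1) - (x * x') m =
      x (m + 1) * (x' (m + 1) - x' m) + (x (m + 1) - x m) * x' m := by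
    simp only [Pi.mul_apply]
    ring
  rw [e]
  exact (((h.1 _).mul (h'.2 m)).mono (by linarith)).add (((h.2 m).mul (h'.1 m)).mono (by linarith))

lemma good_one : Good Q 0 (1 : ℕ → LaurentSeries E) :=
  ⟨fun _ => by simpa using O_one, fun _ => by simpa using O_zero _⟩

lemma Good.pow (h : Good Q κ x) (n : ℕ) : Good Q (n * κ) (x ^ n) := by
  induction n with
  | zero => simpa using good_one
  | succ n ih => simpa [pow_succ, add_mul] using ih.mul h

lemma good_psum (hQ : 0 ≤ Q) (h : ∀ d : ℕ, O (x d) (Q * (κ - d))) :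
    Good Q κ (psum (LaurentSeries E) x) :=
  ⟨fun _ => O_sum fun d _ => (h d).mono (by nlinarith [Int.natCast_nonneg d]), fun m => by
    rw [psum_succ, add_sub_cancel_left]
    exact h m⟩

lemma summable_of_O' (hQ : 1 ≤ Q) (h : ∀ d : ℕ, O (x d) (Q * (κ - d))) : Summable x := by
  refine summable_of_O fun b => ?_
  filter_upwards [eventually_ge_atTop (κ.natAbs + b.natAbs)] with i hi
  refine (h i).mono ?_
  have h2 : κ - i ≤ 0 := by omega
  have h3 : κ - i ≤ b := by omega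
  nlinarith

/-- the limit of a sequence -/
noncomputable def lim (x : ℕ → LaurentSeries E) : LaurentSeries E := limUnder atTop x

lemma Good.tendsto (hQ : 1 ≤ Q) (h : Good Q κ x) : Tendsto x atTop (𝓝 (lim x)) := by
  have h1 := (summable_of_O' hQ h.2).hasSum.tendsto_sum_nat.add_const (x 0)
  simp only [sum_range_sub, sub_add_cancel] at h1
  exact tendsto_nhds_limUnder ⟨_, h1⟩

lemma O_of_tendsto {z : LaurentSeries E} {a : ℤ} (h : Tendsto x atTop (𝓝 z))
    (h' : ∀ᶠ m in atTop, O (x m) a) : O z a := (isClosed_O a).mem_of_tendsto h h'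

lemma Good.O_sub (hQ : 1 ≤ Q) (h : Good Q κ x) (m : ℕ) : O (lim x - x m) (Q * (κ - m)) := by
  refine O_of_tendsto ((h.tendsto hQ).sub_const _) ?_
  filter_upwards [eventually_ge_atTop m] with n hn
  rw [← sum_Ico_sub _ hn]
  refine O_sum fun i hi => (h.2 i).mono ?_
  have : (m : ℤ) ≤ i := by exact_mod_cast (mem_Ico.1 hi).1
  nlinarith

lemma good_Wlt {ι : Type*} {a : ι → ℕ → LaurentSeries E} {c : ι → ℤ} (hQ : 0 ≤ Q)
    (L : List ι) (h : ∀ l ∈ L, ∀ d : ℕ, O (a l d) (Q * (c l - d))) :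
    Good Q (L.map c).sum (Wlt a L) := by
  induction L with
  | nil => exact good_one
  | cons l L ih =>
    refine good_psum hQ fun d => (((h l (by simp) d).mul
      ((ih fun l hl => h l (by simp [hl])).1 d))).mono ?_
    simp only [List.map_cons, List.sum_cons]
    linarith

/-- admissible evaluation points -/
structure Pt (q : ℕ) (t y : LaurentSeries E) (Q : ℕ) : Prop where
  hq : 2 ≤ q
  hQ : 1 ≤ Q
  hy : Valued.v y = exp (Q : ℤ)
  ht : O t (Q - 1)
  htq : O (t ^ q) Q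
  frob : ∀ a b : LaurentSeries E, (a - b) ^ q = a ^ q - b ^ q

/-- `1 + q + ⋯ + q^(d-1)` -/
def lam (q d : ℕ) : ℕ := ∑ i ∈ range d, q ^ i

lemma lam_spec {q : ℕ} (hq : 2 ≤ q) (d : ℕ) : q ^ d = (q - 1) * lam q d + 1 ∧ d ≤ lam q d := by
  obtain ⟨p, rfl⟩ : ∃ p, q = p + 1 := ⟨q - 1, by omega⟩
  rw [Nat.add_sub_cancel]
  induction d with
  | zero => simp [lam]
  | succ d ih =>
    have : lam (p + 1) (d + 1) = lam (p + 1) d + (p + 1) ^ d := sum_range_succ _ _
    rw [this, pow_succ]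
    exact ⟨by nlinarith [ih.1], by nlinarith [ih.1, ih.2]⟩

variable {q N : ℕ} {t y : LaurentSeries E}

lemma Pt.v_pow (h : Pt q t y N) (n : ℕ) : Valued.v (y ^ n) = exp ((n * N : ℕ) : ℤ) := by
  rw [map_pow, h.hy, ← exp_nsmul]
  simp

lemma Pt.next (h : Pt q t y N) : Pt q t (y ^ q) (q * N) := by
  have h1 : (N : ℤ) ≤ (q * N : ℕ) := by
    exact_mod_cast Nat.le_mul_of_pos_left N (by have := h.hq; omega)
  exact ⟨h.hq, Nat.mul_pos (by have := h.hq; omega) h.hQ, h.v_pow q, h.ht.mono (by omega),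
    h.htq.mono h1, h.frob⟩

lemma Pt.v_sub (h : Pt q t y N) (i : ℕ) :
    Valued.v (t - y ^ q ^ i) = exp ((q ^ i * N : ℕ) : ℤ) := by
  rw [Valuation.map_sub_swap, sub_eq_add_neg]
  refine v_add_of_O (h.v_pow _) (h.ht.neg.mono ?_)
  have : (N : ℤ) ≤ (q ^ i * N : ℕ) := by
    exact_mod_cast Nat.le_mul_of_pos_left N (Nat.pow_pos (by have := h.hq; omega))
  omega

lemma Pt.ne (h : Pt q t y N) (i : ℕ) : t ≠ y ^ q ^ i := fun e => by
  have := h.v_sub i
  rw [e, sub_self, map_zero] at this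
  exact exp_ne_zero this.symm

lemma Pt.v_ell (h : Pt q t y N) (d s : ℕ) :
    Valued.v (ell q t y d ^ s) = exp ((s * lam q d * N : ℕ) : ℤ) := by
  have : Valued.v (ell q t y d) = exp ((lam q d * N : ℕ) : ℤ) := by
    induction d with
    | zero => simp [ell, lam]
    | succ d ih =>
      rw [ell_succ, map_mul, ih, h.v_sub, ← exp_add, lam, lam, sum_range_succ, add_mul,
        Nat.cast_add]
  rw [map_pow, this, ← exp_nsmul]
  simp [mul_assoc]

lemma O_eval {u : (LaurentSeries E)[X]} {a : ℤ} {n : ℕ} (hu : ∀ i, O (u.coeff i) a)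
    (hy : O y n) : O (u.eval y) (a + u.natDegree * n) := by
  rw [eval_eq_sum_range]
  refine O_sum fun i hi => ((hu i).mul (hy.pow i)).mono ?_
  have : (i : ℤ) ≤ u.natDegree := by exact_mod_cast Nat.lt_succ_iff.1 (mem_range.1 hi)
  nlinarith [Int.natCast_nonneg n]

lemma Pt.O_lett (h : Pt q t y N) {u : (LaurentSeries E)[X]} {δ : ℤ} {s : ℕ}
    (hu : ∀ i, O (u.coeff i) (N * δ)) (hs : (q - 1) * u.natDegree + 1 ≤ s) (d : ℕ) :
    O (lett q t y s u d) (N * (δ + s - d)) := by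
  refine ((O_eval hu (h.v_pow (q ^ d)).le).div (h.v_ell d s)).mono ?_
  obtain ⟨h1, h2⟩ := lam_spec h.hq d
  have h3 : u.natDegree * q ^ d + d ≤ s + s * lam q d := by
    have h4 := Nat.mul_le_mul_right (lam q d) hs
    have h5 : u.natDegree ≤ (q - 1) * u.natDegree :=
      Nat.le_mul_of_pos_left _ (by have := h.hq; omega)
    rw [h1]
    nlinarith
  have h4 := Nat.mul_le_mul_left N h3
  zify at h4
  push_cast
  linarith

lemma Pt.O_lett_C (h : Pt q t y N) {c : LaurentSeries E} {a : ℤ} (hc : O c a) (s d : ℕ) :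
    O (lett q t y s (C c) d) a := by
  rw [lett_apply, eval_C]
  exact (hc.div (h.v_ell d s)).mono (by omega)

lemma Pt.PiS_eq (h : Pt q t y N) (m : ℕ) : PiS q t y m =
    (t ^ q - y) + psum (LaurentSeries E) (lett q t y (q - 1) (C (t - t ^ q))) m := by
  induction m with
  | zero => simp [PiS, lett_zero, psum_zero]
  | succ m ih => rw [PiS_succ h.frob (by have := h.hq; omega) h.ne, ih, psum_succ, add_assoc]

lemma Pt.good_PiS (h : Pt q t y N) : Good N q (PiS q t y) := by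
  have hq := h.hq
  have h0 : O (t - t ^ q) N := (h.ht.mono (by omega)).sub h.htq
  have h1 := good_psum (κ := q) (Int.natCast_nonneg N) fun d =>
    (h.O_lett (u := C (t - t ^ q)) (δ := 1) (s := q - 1) (fun i => by
      rw [coeff_C]
      split_ifs
      · simpa using h0
      · exact O_zero _) (by rw [natDegree_C]; omega) d).mono (le_of_eq (by
      rw [Nat.cast_sub (by omega)]
      ring))
  refine ⟨fun m => ?_, fun m => ?_⟩
  · rw [h.PiS_eq]
    exact ((h.htq.sub h.hy.le).mono (by nlinarith [Int.natCast_nonneg N])).add (h1.1 m)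
  · rw [h.PiS_eq, h.PiS_eq, add_sub_add_left_eq_sub]
    exact h1.2 m

lemma Pt.hQ' (h : Pt q t y N) : (1 : ℤ) ≤ N := by exact_mod_cast h.hQ

lemma Pt.O_lim_PiS (h : Pt q t y N) {a : ℤ} (ha : O (t - t ^ q) a) :
    O (lim (PiS q t y) - (t ^ q - y)) a := by
  refine O_of_tendsto ((h.good_PiS.tendsto h.hQ').sub_const _) (Eventually.of_forall fun m => ?_)
  rw [h.PiS_eq, add_sub_cancel_left]
  exact O_sum fun d _ => h.O_lett_C ha _ _

variable {ι : Type*} {s : ι → ℕ} {u : ι → (LaurentSeries E)[X]} {δ : ι → ℕ}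

/-- the size constant of a state -/
def kap (q : ℕ) (s δ : ι → ℕ) (P : ℕ × List ι) : ℤ :=
  P.1 * q + (P.2.map fun l => (δ l + s l : ℤ)).sum

lemma Pt.good_word (h : Pt q t y N) (hu : ∀ l i, O ((u l).coeff i) (δ l))
    (hs : ∀ l, (q - 1) * (u l).natDegree + 1 ≤ s l) (L : List ι) :
    Good N (L.map fun l => (δ l + s l : ℤ)).sum (Wlt (fun l => lett q t y (s l) (u l)) L) :=
  good_Wlt (Int.natCast_nonneg N) _ fun l _ d => h.O_lett
    (fun i => (hu l i).mono (by nlinarith [h.hQ', Int.natCast_nonneg (δ l)])) (hs l) d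

lemma Pt.good_xs (h : Pt q t y N) (hu : ∀ l i, O ((u l).coeff i) (δ l))
    (hs : ∀ l, (q - 1) * (u l).natDegree + 1 ≤ s l) (P : ℕ × List ι) :
    Good N (kap q s δ P) (xs q t y s u P) := (h.good_PiS.pow P.1).mul (h.good_word hu hs _)

lemma Pt.lim_root (h : Pt q t y N) (hu : ∀ l i, O ((u l).coeff i) (δ l))
    (hs : ∀ l, (q - 1) * (u l).natDegree + 1 ≤ s l) (j : ℕ) : lim (xs q t y s u (j, [])) =
      (t - y)⁻¹ ^ wtS q s (j, []) * lim (xs q t (y ^ q) s u (j, [])) := by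
  refine tendsto_nhds_unique ((tendsto_add_atTop_iff_nat 1).2 ((h.good_xs hu hs _).tendsto h.hQ')) ?_
  simp only [xs_root]
  exact ((h.next.good_xs hu hs _).tendsto h.next.hQ').const_mul _

lemma Pt.lim_concat (h : Pt q t y N) (hu : ∀ l i, O ((u l).coeff i) (δ l))
    (hs : ∀ l, (q - 1) * (u l).natDegree + 1 ≤ s l) (j : ℕ) (L : List ι) (l : ι) :
    lim (xs q t y s u (j, L ++ [l])) =
      (t - y)⁻¹ ^ wtS q s (j, L ++ [l]) * lim (xs q t (y ^ q) s u (j, L ++ [l])) +
      (u l).eval y * ((t - y)⁻¹ ^ wtS q s (j, L) * lim (xs q t (y ^ q) s u (j, L))) := by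
  refine tendsto_nhds_unique ((tendsto_add_atTop_iff_nat 1).2 ((h.good_xs hu hs _).tendsto h.hQ')) ?_
  simp only [xs_concat]
  exact (((h.next.good_xs hu hs _).tendsto h.next.hQ').const_mul _).add
    ((((h.next.good_xs hu hs _).tendsto h.next.hQ').const_mul _).const_mul _)

lemma Pt.lim_root_eq (h : Pt q t y N) (j : ℕ) :
    lim (xs q t y s u (j, [])) = lim (PiS q t y) ^ j := by
  have := (h.good_PiS.tendsto h.hQ').pow j
  refine Tendsto.limUnder_eq ?_
  simpa [xs, Wlt_nil, Pi.pow_def] using this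

end Pool.Agent.MP_cbe134_nt.FF
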