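import Pool.Agent.MP_cbe134_nt.FFIndep

/-! Multiple zeta values as limits of multiple power sums. -/

open Finset Polynomial WithZero Filter Topology

namespace Pool.Agent.MP_cbe134_nt.FF

variable {F : Type*} [Field F]

lemma summable_of_finite {ι : Type*} {f : ι → LaurentSeries F}
    (h : ∀ a : ℤ, ∃ s : Finset ι, ∀ i ∉ s, O (f i) a) : Summable f := by
  rw [summable_iff_vanishing]
  intro e he
  obtain ⟨γ, hγ⟩ := Valued.mem_nhds_zero.1 he
  obtain ⟨s, hs⟩ := h (log (MonoidWithZeroHom.ValueGroup₀.embedding γ.1) - 1)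
  refine ⟨s, fun t ht => hγ ?_⟩
  rw [Set.mem_ofPred_eq, Valuation.restrict_lt_iff_lt_embedding]
  refine lt_of_le_of_lt (O_sum fun i hi => hs i (Finset.disjoint_left.1 ht hi)) ?_
  rw [← lt_log_iff_exp_lt (by simp)]
  omega

lemma O_prod {ι : Type*} (s : Finset ι) {f : ι → LaurentSeries F} {g : ι → ℤ}
    (h : ∀ i, O (f i) (g i)) : O (∏ i ∈ s, f i) (∑ i ∈ s, g i) := by
  classical
  induction s using Finset.induction_on with
  | empty => simpa using O_one
  | insert a s ha ih => rw [prod_insert ha, sum_insert ha]; exact (h a).mul ih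

lemma O_inv_pow {a : F[X]} (ha : a ≠ 0) (s : ℕ) :
    O ((aeval (theta F) a)⁻¹ ^ s) (-(s * a.natDegree)) := by
  simpa using (O_one.div (v_aeval ha)).pow s

lemma strictAnti_succ {n : ℕ} (f : Fin (n + 1) → ℕ) :
    StrictAnti f ↔ (∀ i : Fin n, f i.succ < f 0) ∧ StrictAnti fun i : Fin n => f i.succ := by
  refine ⟨fun h => ⟨fun i => h (Fin.succ_pos i), fun i j hij => h (Fin.succ_lt_succ_iff.2 hij)⟩,
    fun h i j hij => ?_⟩
  induction j using Fin.cases with
  | zero => exact absurd hij (Fin.not_lt_zero i)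
  | succ j =>
    induction i using Fin.cases with
    | zero => exact h.1 j
    | succ i => exact h.2 (Fin.succ_lt_succ_iff.1 hij)

variable [Fintype F]

open Classical in
variable (F) in
/-- tuples of monic polynomials of decreasing degrees less than `d` -/
noncomputable def Tup (n d : ℕ) : Finset (Fin n → F[X]) :=
  (Fintype.piFinset fun _ => Low F d).filter
    fun a => (∀ i, (a i).Monic) ∧ StrictAnti fun i => (a i).natDegree

lemma mem_Tup {n d : ℕ} {a : Fin n → F[X]} : a ∈ Tup F n d ↔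
    ((∀ i, (a i).Monic) ∧ StrictAnti fun i => (a i).natDegree) ∧ ∀ i, (a i).natDegree < d := by
  classical
  rw [Tup, mem_filter, Fintype.mem_piFinset, and_comm]
  exact and_congr_right fun h => forall_congr' fun i => by
    rw [mem_Low, natDegree_lt_iff_degree_lt (h.1 i).ne_zero]

lemma sum_Tup_succ {M : Type*} [AddCommMonoid M] (n d : ℕ) (f : (Fin (n + 1) → F[X]) → M) :
    ∑ a ∈ Tup F (n + 1) d, f a =
      ∑ e ∈ range d, ∑ m ∈ Mon F e, ∑ a ∈ Tup F n e, f (Fin.cons m a) := by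
  simp only [← sum_product']
  rw [sum_sigma']
  refine sum_nbij' (fun a => ⟨(a 0).natDegree, a 0, Fin.tail a⟩) (fun x => Fin.cons x.2.1 x.2.2)
    (fun a ha => ?_) (fun x hx => ?_) (by simp) (fun x hx => ?_) (by simp)
  · simp only [mem_Tup, strictAnti_succ, mem_sigma, mem_range, mem_product,
      mem_Mon] at ha ⊢
    exact ⟨ha.2 0, ⟨ha.1.1 0, trivial⟩, ⟨fun i => ha.1.1 _, ha.1.2.2⟩, ha.1.2.1⟩
  · simp only [mem_Tup, strictAnti_succ, mem_sigma, mem_range, mem_product,
      mem_Mon, Fin.forall_fin_succ, Fin.cons_zero, Fin.cons_succ] at hx ⊢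
    obtain ⟨h1, ⟨h2, h3⟩, ⟨h4, h5⟩, h6⟩ := hx
    exact ⟨⟨⟨h2, h4⟩, h3 ▸ h6, h5⟩, h3 ▸ h1, fun i => (h6 i).trans h1⟩
  · obtain ⟨e, m, a⟩ := x
    simp only [mem_sigma, mem_product, mem_Mon] at hx
    simp [hx.2.1.2]

lemma sum_Tup {k : Type*} [Field k] [Algebra F k] (t : k) (s : List ℕ) (d : ℕ) :
    ∑ a ∈ Tup F s.length d, ∏ i : Fin s.length, 1 / aeval t (a i) ^ s.get i =
      Wlt (SS F t) s d := by
  induction s generalizing d with
  | nil =>
    refine (sum_eq_single_of_mem (default : Fin 0 → F[X]) (mem_Tup.2 ⟨⟨nofun, nofun⟩, nofun⟩)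
      fun b _ h => absurd (Subsingleton.elim (α := Fin 0 → F[X]) _ _) h).trans ?_
    simp [Wlt]
  | cons a s ih =>
    refine (sum_Tup_succ s.length d _).trans (sum_congr rfl fun e _ => ?_)
    rw [← ih, SS, sum_mul_sum]
    refine sum_congr rfl fun m _ => sum_congr rfl fun b _ => ?_
    refine (Fin.prod_univ_succ _).trans ?_
    simp

/-- admissible tuples -/
def Adm {n : ℕ} (a : Fin n → F[X]) : Prop :=
  (∀ i, (a i).Monic) ∧ StrictAnti fun i => (a i).natDegree

open Classical in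
variable (F) in
/-- the truncated index sets -/
noncomputable def Tup' (n d : ℕ) : Finset (Subtype (Adm (F := F) (n := n))) :=
  (Tup F n d).subtype Adm

lemma mem_Tup' {n d : ℕ} {a : Subtype (Adm (F := F) (n := n))} :
    a ∈ Tup' F n d ↔ ∀ i, (a.1 i).natDegree < d := by
  classical
  rw [Tup', mem_subtype, mem_Tup]
  exact and_iff_right a.2

lemma summable_mzv {s : List ℕ} (hs : ∀ a ∈ s, 1 ≤ a) :
    Summable fun a : Subtype (Adm (F := F) (n := s.length)) =>
      ∏ i : Fin s.length, 1 / aeval (theta F) (a.1 i) ^ s.get i := by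
  refine summable_of_finite fun b => ⟨Tup' F s.length b.natAbs, fun a ha => ?_⟩
  rw [mem_Tup', not_forall] at ha
  obtain ⟨i, hi⟩ := ha
  simp only [one_div, ← inv_pow]
  refine (O_prod _ fun i => O_inv_pow (a.2.1 i).ne_zero _).mono ?_
  have h2 := single_le_sum (f := fun i => ((s.get i * (a.1 i).natDegree : ℕ) : ℤ))
    (fun _ _ => Int.natCast_nonneg _) (mem_univ i)
  have h3 := Nat.mul_le_mul_right (a.1 i).natDegree (hs _ (s.get_mem i))
  rw [sum_neg_distrib]
  push_cast at h2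
  zify at h3
  omega

lemma tendsto_Tup' (n : ℕ) : Tendsto (Tup' F n) atTop atTop :=
  tendsto_atTop_finset_of_monotone
    (fun _ _ h _ ha => mem_Tup'.2 fun i => (mem_Tup'.1 ha i).trans_le h)
    fun a => ⟨(univ.sup fun i => (a.1 i).natDegree) + 1, mem_Tup'.2
      fun i => Nat.lt_succ_of_le (le_sup (f := fun i => (a.1 i).natDegree) (mem_univ i))⟩

lemma tendsto_mzv {s : List ℕ} (hs : ∀ a ∈ s, 1 ≤ a) :
    Tendsto (Wlt (SS F (theta F)) s) atTop (𝓝 (mzv F s)) := by
  classical
  have h3 : Tendsto (fun T : Finset (Subtype (Adm (F := F) (n := s.length))) => ∑ a ∈ T,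
      ∏ i : Fin s.length, 1 / aeval (theta F) (a.1 i) ^ s.get i) atTop (𝓝 (mzv F s)) :=
    (summable_mzv hs).hasSum
  refine (h3.comp (tendsto_Tup' _)).congr fun d => ?_
  rw [← sum_Tup, Function.comp_apply, Tup']
  exact sum_subtype_of_mem (fun a : Fin s.length → F[X] =>
    ∏ i : Fin s.length, 1 / aeval (theta F) (a i) ^ s.get i) fun a ha => (mem_Tup.1 ha).1

lemma mzv_ne {s : ℕ} (hs : 1 ≤ s) : mzv F [s] ≠ 0 := by
  have h1 := (tendsto_mzv (F := F) (s := [s]) (by simpa using hs)).sub_const 1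
  have h2 := O_of_tendsto (a := -1) h1 (by
    filter_upwards [eventually_ge_atTop 1] with d hd
    obtain ⟨d, rfl⟩ := Nat.exists_eq_add_of_le' hd
    simp only [Wlt, mul_one, sum_range_succ', SS_zero, add_sub_cancel_right]
    refine O_sum fun e _ => O_sum fun a ha => (O_inv_pow (mem_Mon.1 ha).1.ne_zero s).mono ?_
    rw [(mem_Mon.1 ha).2]
    push_cast
    nlinarith)
  intro h
  rw [h, zero_sub, O, Valuation.map_neg, map_one, ← exp_zero, exp_le_exp] at h2
  omega

end Pool.Agent.MP_cbe134_nt.FF
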