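import Pool.Agent.MP_cbe134_nt.FFWords

/-! Carlitz's generating function for power sums. -/

open Finset Polynomial

namespace Pool.Agent.MP_cbe134_nt.FF

section finsets

variable (F : Type*) [Field F] [Fintype F]

lemma finite_low (d : ℕ) : {p : F[X] | p.degree < d}.Finite := by
  have : Finite (degreeLT F d) := Finite.of_equiv _ (degreeLTEquiv F d).toEquiv.symm
  exact (Set.toFinite (degreeLT F d : Set F[X])).subset fun p hp => mem_degreeLT.2 hp

/-- polynomials of degree `< d` -/
noncomputable def Low (d : ℕ) : Finset F[X] := (finite_low F d).toFinset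

/-- monic polynomials of degree `d` -/
noncomputable def Mon (d : ℕ) : Finset F[X] :=
  (Low F d).map ⟨fun z => X ^ d + z, add_right_injective _⟩

variable {F}

lemma mem_Low {d : ℕ} {p : F[X]} : p ∈ Low F d ↔ p.degree < d := by simp [Low]

lemma card_Low (d : ℕ) : (Low F d).card = Fintype.card F ^ d := by
  rw [Low, ← Nat.card_eq_card_finite_toFinset]
  have : Nat.card {p : F[X] | p.degree < d} = Nat.card (degreeLT F d) :=
    Nat.card_congr (Equiv.subtypeEquivRight fun p => mem_degreeLT.symm)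
  rw [this, Nat.card_congr (degreeLTEquiv F d).toEquiv]
  simp

lemma card_Mon (d : ℕ) : (Mon F d).card = Fintype.card F ^ d := by
  rw [Mon, card_map, card_Low]

lemma mem_Mon {d : ℕ} {p : F[X]} : p ∈ Mon F d ↔ p.Monic ∧ p.natDegree = d := by
  rw [Mon, mem_map]
  constructor
  · rintro ⟨z, hz, rfl⟩
    rw [mem_Low] at hz
    refine ⟨monic_X_pow_add hz, ?_⟩
    change (X ^ d + z).natDegree = d
    rw [natDegree_add_eq_left_of_degree_lt (by rwa [degree_X_pow]), natDegree_X_pow]
  · rintro ⟨h1, h2⟩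
    refine ⟨p - X ^ d, mem_Low.2 ?_, by simp⟩
    have := degree_sub_lt_left (p := p) (q := X ^ d)
      (by rw [degree_X_pow, degree_eq_natDegree h1.ne_zero, h2]) h1.ne_zero (by simp [h1.leadingCoeff])
    rwa [degree_eq_natDegree h1.ne_zero, h2] at this

lemma Mon_zero : Mon F 0 = {1} := by
  ext p
  rw [mem_Mon, mem_singleton]
  exact ⟨fun h => h.1.natDegree_eq_zero.1 h.2, by rintro rfl; simp⟩

lemma sum_Low_succ [DecidableEq F] {M : Type*} [AddCommMonoid M] (f : F[X] → M) (d : ℕ) :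
    ∑ z ∈ Low F (d + 1), f z = ∑ z ∈ Low F d, f z + ∑ u : Fˣ, ∑ m ∈ Mon F d, f (C (u : F) * m) := by
  classical
  have hs : Low F d ⊆ Low F (d + 1) := fun p hp =>
    mem_Low.2 ((mem_Low.1 hp).trans (by exact_mod_cast Nat.lt_succ_self d))
  rw [← sum_sdiff hs, add_comm, ← sum_product']
  congr 1
  symm
  refine sum_bij (fun p _ => C (p.1 : F) * p.2) ?_ ?_ ?_ (fun _ _ => rfl)
  · rintro ⟨u, m⟩ h
    obtain ⟨h1, h2⟩ := mem_Mon.1 (mem_product.1 h).2
    have : (C (u : F) * m).degree = d := by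
      rw [degree_C_mul u.ne_zero, degree_eq_natDegree h1.ne_zero, h2]
    rw [mem_sdiff, mem_Low, mem_Low, this]
    exact ⟨by exact_mod_cast Nat.lt_succ_self d, lt_irrefl _⟩
  · rintro ⟨u, m⟩ h ⟨u', m'⟩ h' e
    obtain ⟨h1, -⟩ := mem_Mon.1 (mem_product.1 h).2
    obtain ⟨h1', -⟩ := mem_Mon.1 (mem_product.1 h').2
    have e1 : (u : F) = u' := by
      have := congrArg leadingCoeff e
      simpa [h1.leadingCoeff, h1'.leadingCoeff] using this
    dsimp only at e
    rw [e1] at e
    exact Prod.ext (Units.ext e1) (mul_left_cancel₀ (C_ne_zero.2 u'.ne_zero) e)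
  · intro z hz
    rw [mem_sdiff, mem_Low, mem_Low, not_lt] at hz
    have h0 : z ≠ 0 := by
      rintro rfl
      simp at hz
    have hd : z.natDegree = d := by
      rw [degree_eq_natDegree h0] at hz
      have h1 : z.natDegree < d + 1 := by exact_mod_cast hz.1
      have h2 : d ≤ z.natDegree := by exact_mod_cast hz.2
      omega
    have hl := leadingCoeff_ne_zero.2 h0
    refine ⟨(Units.mk0 _ hl, z * C z.leadingCoeff⁻¹), mem_product.2 ⟨mem_univ _,
      mem_Mon.2 ⟨monic_mul_leadingCoeff_inv h0, ?_⟩⟩, ?_⟩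
    · rw [natDegree_mul_leadingCoeff_inv _ h0, hd]
    · simp only [Units.val_mk0]
      rw [mul_left_comm, ← C_mul, mul_inv_cancel₀ hl, C_1, mul_one]

lemma sum_Mon_sub {M : Type*} [AddCommMonoid M] (f : F[X] → M) {d : ℕ} {x : F[X]}
    (hx : x ∈ Mon F d) : ∑ y ∈ Mon F d, f (x - y) = ∑ z ∈ Low F d, f z := by
  obtain ⟨z0, hz0, rfl⟩ := mem_map.1 hx
  rw [Mon, sum_map]
  refine sum_nbij' (fun z => z0 - z) (fun z => z0 - z) ?_ ?_ (by simp) (by simp) (by simp) <;>
  · intro z hz
    exact mem_Low.2 (lt_of_le_of_lt (degree_sub_le _ _) (max_lt (mem_Low.1 hz0) (mem_Low.1 hz)))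

end finsets

section logder

variable {k α : Type*} [Field k]

lemma prod_mul_geom (A : Finset α) (r : α → k) (h0 : ∀ a ∈ A, r a ≠ 0) :
    ((∏ a ∈ A, (X - C (r a)) : k[X]) : PowerSeries k) *
      PowerSeries.mk (fun n => ∑ a ∈ A, (r a)⁻¹ ^ (n + 1)) =
        -((derivative (∏ a ∈ A, (X - C (r a))) : k[X]) : PowerSeries k) := by
  classical
  induction A using Finset.induction_on with
  | empty => ext n; simp
  | insert a A ha ih =>
    have h1 : PowerSeries.mk (fun n => ∑ b ∈ insert a A, (r b)⁻¹ ^ (n + 1)) =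
        PowerSeries.mk (fun n => (r a)⁻¹ ^ (n + 1)) +
          PowerSeries.mk (fun n => ∑ b ∈ A, (r b)⁻¹ ^ (n + 1)) := by
      ext n; simp [sum_insert ha]
    have h2 : (PowerSeries.X - PowerSeries.C (r a)) *
        PowerSeries.mk (fun n => (r a)⁻¹ ^ (n + 1)) = -1 := by
      have := h0 a (mem_insert_self _ _)
      ext n
      rw [sub_mul, map_sub, PowerSeries.coeff_C_mul, PowerSeries.coeff_mk]
      cases n with
      | zero => simp [this]
      | succ n =>
        rw [PowerSeries.coeff_succ_X_mul, PowerSeries.coeff_mk]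
        simp [PowerSeries.coeff_one, pow_succ' _ (n + 1), this]
    have h3 := ih fun b hb => h0 b (mem_insert_of_mem hb)
    rw [h1, prod_insert ha, derivative_mul]
    simp only [derivative_sub, derivative_X, derivative_C, sub_zero, one_mul, Polynomial.coe_mul,
      Polynomial.coe_add, Polynomial.coe_sub, coe_X, coe_C]
    linear_combination (PowerSeries.X - PowerSeries.C (r a)) * h3 +
      ((∏ a ∈ A, (X - C (r a)) : k[X]) : PowerSeries k) * h2

lemma mul_geom (A : Finset α) (r : α → k) (h0 : ∀ a ∈ A, r a ≠ 0) (hr : Set.InjOn r A)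
    (f : k[X]) (hd : f.natDegree ≤ A.card) (hf : ∀ a ∈ A, f.eval (r a) = 0) :
    (f : PowerSeries k) * PowerSeries.mk (fun n => ∑ a ∈ A, (r a)⁻¹ ^ (n + 1)) =
      -((derivative f : k[X]) : PowerSeries k) := by
  have h1 : ∏ a ∈ A, (X - C (r a)) ∣ f :=
    Finset.prod_dvd_of_coprime (fun a ha b hb hab =>
      isCoprime_X_sub_C_of_isUnit_sub (sub_ne_zero.2 fun e => hab (hr ha hb e)).isUnit)
      fun a ha => dvd_iff_isRoot.2 (hf a ha)
  have h2 := eq_mul_leadingCoeff_of_monic_of_dvd_of_natDegree_le (monic_prod_X_sub_C r A) h1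
    (by rwa [natDegree_finsetProd_X_sub_C_eq_card])
  rw [h2, derivative_mul, derivative_C, mul_zero, add_zero, Polynomial.coe_mul, Polynomial.coe_mul,
    mul_right_comm, prod_mul_geom A r h0, neg_mul]

end logder

end Pool.Agent.MP_cbe134_nt.FF
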