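import Pool.Agent.MP_cbe134_nt.FFDefs

/-! Counting series. -/

open Finset MvPowerSeries

namespace Pool.Agent.MP_cbe134_nt.FF

variable {A B : Type*}

/-- the counting series of a degree function -/
noncomputable def cn (f : A → Fin 2 →₀ ℕ) : MvPowerSeries (Fin 2) ℚ :=
  fun m => (Nat.card {x // f x = m} : ℚ)

/-- finite fibres -/
def FinFib (f : A → Fin 2 →₀ ℕ) : Prop := ∀ m, Finite {x // f x = m}

lemma coeff_cn (f : A → Fin 2 →₀ ℕ) (m : Fin 2 →₀ ℕ) :
    coeff m (cn f) = (Nat.card {x // f x = m} : ℚ) := rfl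

lemma cn_equiv (e : A ≃ B) (f : B → Fin 2 →₀ ℕ) : cn (fun x => f (e x)) = cn f := by
  ext m
  rw [coeff_cn, coeff_cn, Nat.card_congr (e.subtypeEquiv (q := fun x => f x = m) fun _ => Iff.rfl)]

lemma FinFib.comp {f : B → Fin 2 →₀ ℕ} (h : FinFib f) {e : A → B} (he : Function.Injective e) :
    FinFib fun x => f (e x) := fun m =>
  have := h m
  Finite.of_injective (fun x : {x // f (e x) = m} => (⟨e x, x.2⟩ : {x // f x = m}))
    fun _ _ h => Subtype.ext (he (congrArg Subtype.val h))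

lemma cn_sum {f : A ⊕ B → Fin 2 →₀ ℕ} (h : FinFib f) :
    cn f = cn (fun a => f (.inl a)) + cn fun b => f (.inr b) := by
  ext m
  have := h.comp Sum.inl_injective m
  have := h.comp Sum.inr_injective m
  rw [map_add, coeff_cn, coeff_cn, coeff_cn, Nat.card_congr Equiv.subtypeSum, Nat.card_sum,
    Nat.cast_add]

lemma cn_unit (d : Fin 2 →₀ ℕ) : cn (fun _ : Unit => d) = monomial d 1 := by
  classical
  ext m
  rw [coeff_cn, coeff_monomial]
  split_ifs with h
  · subst h
    simp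
  · have : IsEmpty {x : Unit // d = m} := ⟨fun x => h x.2.symm⟩
    simp

lemma finFib_unit (d : Fin 2 →₀ ℕ) : FinFib fun _ : Unit => d := fun _ => inferInstance

lemma cn_prod {f : A → Fin 2 →₀ ℕ} {g : B → Fin 2 →₀ ℕ} (hf : FinFib f) (hg : FinFib g) :
    cn (fun z : A × B => f z.1 + g z.2) = cn f * cn g := by
  classical
  ext m
  let e : {z : A × B // f z.1 + g z.2 = m} ≃
      Σ p : antidiagonal m, {x // f x = p.1.1} × {y // g y = p.1.2} :=
    { toFun := fun z => ⟨⟨(f z.1.1, g z.1.2), mem_antidiagonal.2 z.2⟩, ⟨z.1.1, rfl⟩, ⟨z.1.2, rfl⟩⟩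
      invFun := fun x => ⟨(x.2.1, x.2.2), by rw [x.2.1.2, x.2.2.2, mem_antidiagonal.1 x.1.2]⟩
      left_inv := fun _ => rfl
      right_inv := by
        rintro ⟨⟨⟨a, b⟩, _⟩, ⟨x, hx⟩, ⟨y, hy⟩⟩
        dsimp only at hx hy
        subst hx hy
        rfl }
  have := hf
  have := hg
  unfold FinFib at *
  rw [coeff_mul, coeff_cn, Nat.card_congr e, Nat.card_sigma, ← sum_coe_sort (antidiagonal m)]
  simp only [coeff_cn, Nat.card_prod, Nat.cast_sum, Nat.cast_mul]

lemma cn_shift (d : Fin 2 →₀ ℕ) {f : A → Fin 2 →₀ ℕ} (hf : FinFib f) :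
    cn (fun x => d + f x) = monomial d 1 * cn f := by
  rw [← cn_unit, ← cn_prod (finFib_unit d) hf, ← cn_equiv (Equiv.punitProd A)]
  rfl

lemma cn_nat {f : ℕ → Fin 2 →₀ ℕ} (h : FinFib f) :
    cn f = monomial (f 0) 1 + cn fun j => f (j + 1) := by
  let e : Unit ⊕ ℕ ≃ ℕ :=
    { toFun := Sum.elim (fun _ => 0) Nat.succ
      invFun := fun n => Nat.casesOn n (.inl ()) .inr
      left_inv := by rintro (_ | _) <;> rfl
      right_inv := by rintro (_ | _) <;> rfl }
  rw [← cn_equiv e, cn_sum (h.comp e.injective), ← cn_unit]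
  rfl

lemma cn_list {f : A → Fin 2 →₀ ℕ} (hf : FinFib f) (h : FinFib fun L : List A => (L.map f).sum) :
    cn (fun L : List A => (L.map f).sum) * (1 - cn f) = 1 := by
  let e : Unit ⊕ A × List A ≃ List A :=
    { toFun := Sum.elim (fun _ => []) fun z => z.1 :: z.2
      invFun := fun L => List.casesOn L (.inl ()) fun a L => .inr (a, L)
      left_inv := by rintro (_ | _) <;> rfl
      right_inv := by rintro (_ | _) <;> rfl }
  have h1 := cn_sum (h.comp e.injective)
  rw [cn_equiv e fun L : List A => (L.map f).sum] at h1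
  have h2 := cn_prod hf h
  have h3 := cn_unit 0
  rw [monomial_zero_one] at h3
  have h4 : cn (fun L : List A => (L.map f).sum) = 1 + cn f * cn fun L : List A => (L.map f).sum := by
    rw [← h2, ← h3]
    exact h1
  linear_combination h4

/-- the bidegree -/
noncomputable def dg (w r : ℕ) : Fin 2 →₀ ℕ := Finsupp.single 0 w + Finsupp.single 1 r

lemma dg_eq {w r : ℕ} {m : Fin 2 →₀ ℕ} : dg w r = m ↔ w = m 0 ∧ r = m 1 := by
  simp [dg, Finsupp.ext_iff, Fin.forall_fin_two]

lemma dg_add (w r w' r' : ℕ) : dg (w + w') (r + r') = dg w r + dg w' r' := by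
  rw [dg_eq]
  simp [dg]

lemma dg_sum (a b : A → ℕ) (L : List A) :
    (L.map fun l => dg (a l) (b l)).sum = dg (L.map a).sum (L.map b).sum := by
  induction L with
  | nil => simp [dg]
  | cons l L ih => simp [ih, dg_add]

lemma cn_dg (a b : A → ℕ) :
    cn (fun x => dg (a x) (b x)) = ser fun w r => Nat.card {x // a x = w ∧ b x = r} := by
  ext m
  simp only [coeff_cn, dg_eq]
  rfl

lemma finFib_dg {a : A → ℕ} (b : A → ℕ) (h : ∀ w, {x | a x ≤ w}.Finite) :
    FinFib fun x => dg (a x) (b x) := fun m =>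
  (h (m 0)).subset (s := {x | a x ≤ m 0}) (t := {x | dg (a x) (b x) = m})
    fun _ hx => (dg_eq.1 hx).1.le

lemma finite_mul {p : ℕ} (hp : 1 ≤ p) (w : ℕ) : {j | j * p ≤ w}.Finite :=
  (Set.finite_Iic w).subset fun j (hj : j * p ≤ w) => (Nat.le_mul_of_pos_right j hp).trans hj

lemma cn_period {p : ℕ} (hp : 1 ≤ p) :
    cn (fun j => dg (j * p) (min j 1)) = 1 + X 0 ^ p * (1 - X 0 ^ p)⁻¹ * X 1 := by
  have h0 : FinFib fun j => dg (j * p) 0 := finFib_dg _ (finite_mul hp)
  have h1 := cn_nat h0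
  have h2 := cn_nat (finFib_dg (fun j => min j 1) (finite_mul hp))
  have e1 : ∀ j, dg ((j + 1) * p) 0 = dg p 0 + dg (j * p) 0 := fun j => by
    rw [← dg_add, add_mul, one_mul, add_comm]
  have e2 : ∀ j, dg ((j + 1) * p) (min (j + 1) 1) = dg p 1 + dg (j * p) 0 := fun j => by
    rw [← dg_add, add_mul, one_mul, add_comm, min_eq_right (by omega)]
  have e3 : dg 0 0 = 0 := by simp [dg]
  have e4 : monomial (dg p 0) (1 : ℚ) = X 0 ^ p := by simp [dg, X_pow_eq]
  have e5 : monomial (dg p 1) (1 : ℚ) = X 0 ^ p * X 1 := by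
    rw [X_pow_eq, X_def, monomial_mul_monomial, dg, one_mul]
  simp only [e1, e2, cn_shift _ h0, zero_mul, zero_le, min_eq_left, e3, e4, e5,
    monomial_zero_one] at h1 h2
  have h3 : cn (fun j => dg (j * p) 0) = 1 * (1 - X 0 ^ p)⁻¹ :=
    (MvPowerSeries.eq_mul_inv_iff_mul_eq (by simp [show p ≠ 0 by omega])).2
      (by linear_combination h1)
  rw [h2, h3]
  ring

end Pool.Agent.MP_cbe134_nt.FF
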