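import Mathlib

/- Thakur's multiple zeta values over `F[θ]` and their depth filtration. -/

open Polynomial

namespace Pool.Agent.MP_cbe134_nt.FF

variable (F : Type*) [Field F]

/-- The element `θ = X⁻¹` of `F((X))`, so that `F((X)) = F((1/θ))` is the completion of `F(θ)`
at the infinite place. -/
noncomputable def theta : LaurentSeries F := HahnSeries.single (-1) 1

/-- The field `K = F(θ)` inside `F((1/θ))`. -/
noncomputable def ratField : IntermediateField F (LaurentSeries F) :=
  IntermediateField.adjoin F {theta F}

/-- Thakur's multiple zeta value: the sum of `∏ 1 / a_i ^ s_i` over monic `a_1, …, a_r` in `F[θ]`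
with `deg a_1 > ⋯ > deg a_r`. -/
noncomputable def mzv (s : List ℕ) : LaurentSeries F :=
  ∑' a : {a : Fin s.length → F[X] // (∀ i, (a i).Monic) ∧ StrictAnti fun i => (a i).natDegree},
    ∏ i : Fin s.length, 1 / aeval (theta F) (a.1 i) ^ s.get i

/-- The `K`-span of the multiple zeta values of weight `w` and depth at most `r`. -/
noncomputable def Fil (r w : ℕ) : Submodule (ratField F) (LaurentSeries F) :=
  Submodule.span (ratField F)
    {x | ∃ s : List ℕ, (∀ a ∈ s, 1 ≤ a) ∧ s.sum = w ∧ s.length ≤ r ∧ x = mzv F s}

/-- The previous step of the depth filtration: depth at most `r - 1`, and zero for `r = 0`. -/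
noncomputable def FilPrev : ℕ → ℕ → Submodule (ratField F) (LaurentSeries F)
  | 0, _ => ⊥
  | r + 1, w => Fil F r w

/-- The dimension over `K` of the depth-graded piece `Fil_r Z_w / Fil_{r-1} Z_w`. -/
noncomputable def grDim (r w : ℕ) : ℕ :=
  Module.finrank (ratField F) (Fil F r w ⧸ (FilPrev F r w).submoduleOf (Fil F r w))

/-- The power series `∑ c w r X^w Y^r`, where `X`, `Y` are the variables of index `0`, `1`. -/
noncomputable def ser (c : ℕ → ℕ → ℕ) : MvPowerSeries (Fin 2) ℚ := fun m => (c (m 0) (m 1) : ℚ)

end Pool.Agent.MP_cbe134_nt.FF
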