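import Pool.Agent.MP_cbe134_nt.FFProd

/-! Exact letters. -/

open Finset Polynomial Module

namespace Pool.Agent.MP_cbe134_nt.FF

variable {F k : Type*} [Field F] [Fintype F] [Field k] [Algebra F k] {t : k}

instance (q s : ℕ) : FiniteDimensional k (BB k q s) :=
  Module.Finite.of_basis (degreeLT.basis k _)

lemma finrank_degLT (n : ℕ) : finrank k (degreeLT k n) = n := by
  rw [finrank_eq_card_basis (degreeLT.basis k n), Fintype.card_fin]

lemma finrank_BB (q s : ℕ) : finrank k (BB k q s) = s / (q - 1) + 1 := finrank_degLT _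

lemma Tr.eq_zero (ht : Tr F t) {u : k[X]} (h : ∀ d, u.eval ((t ^ qq F) ^ qq F ^ d) = 0) :
    u = 0 := by
  refine eq_zero_of_infinite_isRoot u (Set.infinite_of_injective_forall_mem
    (f := fun d : ℕ => (t ^ qq F) ^ qq F ^ d) (fun i j e => ?_) h)
  by_contra hij
  refine ht.tq_ne (i := i + 1) (j := j + 1) (by omega) ?_
  simpa only [pow_succ', pow_mul] using e

lemma Tr.letK_inj (ht : Tr F t) (s : ℕ) : Function.Injective (letK F t s) := by
  rw [injective_iff_map_eq_zero]
  refine fun u hu => ht.eq_zero fun d => ?_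
  have := congrFun hu d
  rw [lett_apply, Pi.zero_apply, div_eq_zero_iff] at this
  exact this.resolve_right (pow_ne_zero _ (ht.LL_ne d))

lemma expand_Z : expand k (qq F) (C (t ^ qq F) - X) = (C t - X) ^ qq F := by
  have := map_sub (FiniteField.frobeniusAlgHom F k[X]) (C t) X
  simp only [FiniteField.coe_frobeniusAlgHom] at this
  rw [this, map_sub, expand_C, expand_X, map_pow]

lemma neg_one_pow_q : (-1 : k) ^ (qq F - 1) = 1 := by
  have h := sub_pow_q (F := F) (0 : k) 1
  have hq := two_le_q (F := F)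
  rw [zero_sub, zero_pow (by omega), one_pow, zero_sub,
    show qq F = qq F - 1 + 1 by omega, pow_succ] at h
  simpa using h

/-- the relation `τ b = b + e` -/
def Rel (q : ℕ) (t : k) (s : ℕ) (b e : k[X]) : Prop := expand k q b = (C t - X) ^ s * (b + e)

lemma Tr.rel_iff (ht : Tr F t) {s : ℕ} {b e : k[X]} (hs : 1 ≤ s) :
    Rel (qq F) t s b e ↔ letK F t s b = psum k (letK F t s e) := by
  have key : ∀ d, letK F t s b (d + 1) = letK F t s b d + letK F t s e d ↔
      (expand k (qq F) b - (C t - X) ^ s * (b + e)).eval ((t ^ qq F) ^ qq F ^ d) = 0 := by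
    intro d
    have h1 := ell_ne ht.t_ne d
    have h2 := sub_ne_zero.2 (ht.t_ne d)
    simp only [lett_apply, eval_sub, eval_mul, eval_pow, eval_add, eval_C, eval_X, expand_eval,
      ell_succ, mul_pow, sub_eq_zero]
    rw [← pow_mul _ (qq F ^ d), ← pow_succ, ← add_div, div_eq_div_iff (by positivity)
      (by positivity), mul_comm (ell _ _ _ _ ^ s), ← mul_assoc, mul_left_inj' (by positivity),
      mul_comm]
  constructor
  · intro h
    refine eq_psum ?_ fun d => (key d).2 (by rw [h, sub_self, eval_zero])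
    have := congrArg (eval t) h
    rw [expand_eval, eval_mul, eval_pow, eval_sub, eval_C, eval_X, sub_self,
      zero_pow (by omega), zero_mul] at this
    rw [lett_zero, this]
  · intro h
    refine sub_eq_zero.1 (ht.eq_zero fun d => (key d).1 ?_)
    rw [h, psum_succ]

lemma Tr.rel_zero (ht : Tr F t) {s : ℕ} {b : k[X]} (hs : 1 ≤ s) (h : Rel (qq F) t s b 0) :
    b = 0 := by
  rw [ht.rel_iff hs, map_zero, map_zero] at h
  exact ht.letK_inj s (h.trans (map_zero _).symm)

lemma natDegree_Y (a : k) : (C a - X).natDegree = 1 := by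
  rw [← neg_sub, natDegree_neg, natDegree_X_sub_C]

lemma Y_ne (a : k) : C a - X ≠ 0 := fun h => by simpa [h] using natDegree_Y a

lemma Rel.deg {q s : ℕ} {b e : k[X]} (hq : 2 ≤ q) (h : Rel q t s b e) (hb : b ≠ 0) :
    b.natDegree * q = s + (b + e).natDegree := by
  have h0 : b + e ≠ 0 := fun h0 => by
    rw [Rel, h0, mul_zero, expand_eq_zero (by omega)] at h
    exact hb h
  rw [← natDegree_expand, h, natDegree_mul (pow_ne_zero _ (Y_ne t)) h0, natDegree_pow,
    natDegree_Y, mul_one]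

lemma Rel.mem_of_e {q s : ℕ} {b e : k[X]} (hq : 2 ≤ q) (h : Rel q t s b e)
    (he : e ∈ BB k q s) : b ∈ BB k q s := by
  rw [mem_BB hq] at *
  by_cases hb : b = 0
  · simp [hb]
  have h1 := h.deg hq hb
  have h2 := natDegree_add_le b e
  obtain ⟨p, rfl⟩ : ∃ p, q = p + 1 := ⟨q - 1, by omega⟩
  rw [Nat.add_sub_cancel] at *
  rcases le_total b.natDegree e.natDegree with h3 | h3
  · exact (Nat.mul_le_mul_left _ h3).trans he
  · rw [max_eq_left h3] at h2
    nlinarith

lemma Rel.mem_of_b {s : ℕ} {b e : k[X]} (hs : 1 ≤ s) (h : Rel (qq F) t s b e)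
    (hb : b ∈ BB k (qq F) s) : e ∈ BB k (qq F) (s - 1) := by
  have hq := two_le_q (F := F)
  have hn := neg_one_pow_q (F := F) (k := k)
  rw [mem_BB hq] at *
  by_cases h0 : b = 0
  · rw [Rel, h0, map_zero, zero_add, eq_comm, mul_eq_zero] at h
    simp [h.resolve_left (pow_ne_zero _ (Y_ne t))]
  have h1 := h.deg hq h0
  have h2 := congrArg leadingCoeff h
  rw [leadingCoeff_expand (by omega), leadingCoeff_mul, leadingCoeff_pow, ← neg_sub,
    leadingCoeff_neg, leadingCoeff_X_sub_C] at h2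
  obtain ⟨p, hp⟩ : ∃ p, qq F = p + 1 := ⟨qq F - 1, by omega⟩
  rw [hp] at h1 hq
  rw [hp, Nat.add_sub_cancel] at hb hn ⊢
  have h3 : e = (b + e) - b := by ring
  rcases hb.lt_or_eq with hb | hb
  · have h4 : e.natDegree ≤ b.natDegree := by
      rw [h3]
      exact (natDegree_sub_le _ _).trans (max_le (by nlinarith) le_rfl)
    have := Nat.mul_le_mul_left p h4
    omega
  · have h4 : (b + e).natDegree = b.natDegree := by nlinarith
    rw [← hb, pow_mul, hn, one_pow, one_mul] at h2
    have h5 : b + e ≠ 0 := fun h5 => h0 (by simpa [h5] using h2)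
    have h6 := degree_sub_lt_left (p := b + e) (q := b)
      (by rw [degree_eq_natDegree h5, degree_eq_natDegree h0, h4]) h5 h2.symm
    rw [← h3, degree_eq_natDegree h5, h4] at h6
    by_cases h7 : e = 0
    · simp [h7]
    · have h8 := (natDegree_lt_iff_degree_lt h7).2 h6
      have := Nat.mul_le_mul_left p (Nat.succ_le_of_lt h8)
      rw [Nat.mul_succ] at this
      omega

lemma Z_pow_dvd (j : ℕ) (b : k[X]) (h : (C t - X) ^ (qq F * j + 1) ∣ expand k (qq F) b) :
    (C (t ^ qq F) - X) ^ (j + 1) ∣ b := by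
  have key : ∀ b : k[X], C t - X ∣ expand k (qq F) b → C (t ^ qq F) - X ∣ b := fun b hb => by
    rw [← neg_sub, neg_dvd, dvd_iff_isRoot, IsRoot.def] at hb ⊢
    rwa [expand_eval] at hb
  induction j generalizing b with
  | zero => simpa using key b (by simpa using h)
  | succ j ih =>
    obtain ⟨c, rfl⟩ := key b ((dvd_pow_self _ (by omega)).trans h)
    rw [map_mul, expand_Z, show qq F * (j + 1) + 1 = qq F + (qq F * j + 1) by ring, pow_add,
      mul_dvd_mul_iff_left (pow_ne_zero _ (Y_ne t))] at h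
    rw [pow_succ']
    exact mul_dvd_mul_left _ (ih c h)

variable (F t) in
/-- the exact letters -/
noncomputable def ExV (s : ℕ) : Submodule k k[X] where
  carrier := {e | e ∈ BB k (qq F) (s - 1) ∧ ∃ b, Rel (qq F) t s b e}
  add_mem' := by
    rintro _ _ ⟨h1, b, hb⟩ ⟨h2, c, hc⟩
    refine ⟨add_mem h1 h2, b + c, ?_⟩
    rw [Rel] at *
    rw [map_add, hb, hc]
    ring
  zero_mem' := ⟨zero_mem _, 0, by simp [Rel]⟩
  smul_mem' := by
    rintro a _ ⟨h1, b, hb⟩
    refine ⟨Submodule.smul_mem _ _ h1, a • b, ?_⟩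
    rw [Rel] at *
    rw [map_smul, hb, ← smul_add, mul_smul_comm]

omit [Field F] [Algebra F k] in
lemma ExV_le (s : ℕ) : ExV F t s ≤ BB k (qq F) (s - 1) := fun _ h => h.1

instance (s : ℕ) : FiniteDimensional k (ExV F t s) :=
  Submodule.finiteDimensional_of_le (ExV_le s)

lemma Tr.finrank_ExV (ht : Tr F t) {s : ℕ} (hs : 1 ≤ s) :
    finrank k (ExV F t s) + (s + qq F - 1) / qq F = s / (qq F - 1) + 1 := by
  have hq := two_le_q (F := F)
  obtain ⟨j, hj⟩ : ∃ j, j = (s - 1) / qq F := ⟨_, rfl⟩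
  have hj0 : (s + qq F - 1) / qq F = j + 1 := by
    rw [hj, ← Nat.add_div_right _ (by omega)]
    congr 1
    omega
  have hj1 : qq F * j + 1 ≤ s := by
    have := Nat.mul_div_le (s - 1) (qq F)
    rw [hj]
    omega
  have hj2 : s ≤ qq F * (j + 1) := by
    have := Nat.lt_mul_div_succ (s - 1) (show 0 < qq F by omega)
    rw [hj]
    omega
  have hj3 : j ≤ s / (qq F - 1) := by
    rw [Nat.le_div_iff_mul_le (by omega)]
    have := Nat.mul_le_mul_left j (Nat.sub_le (qq F) 1)
    rw [mul_comm (qq F)] at hj1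
    omega
  obtain ⟨n, hn⟩ := Nat.exists_eq_add_of_le hj3
  obtain ⟨m, hm⟩ := Nat.exists_eq_add_of_le hj2
  let φ : degreeLT k n →ₗ[k] k[X] := (LinearMap.mulLeft k ((C t - X) ^ m) ∘ₗ
    (expand k (qq F)).toLinearMap - LinearMap.mulLeft k ((C (t ^ qq F) - X) ^ (j + 1))) ∘ₗ
      (degreeLT k n).subtype
  have hφ : ∀ c, φ c = (C t - X) ^ m * expand k (qq F) c.1 - (C (t ^ qq F) - X) ^ (j + 1) * c.1 :=
    fun _ => rfl
  have h1 : ∀ c : degreeLT k n, Rel (qq F) t s ((C (t ^ qq F) - X) ^ (j + 1) * c.1) (φ c) := by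
    intro c
    rw [Rel, hφ, map_mul, map_pow, expand_Z, ← pow_mul, hm]
    ring
  have h2 : ∀ c : k[X], c ∈ degreeLT k n ↔ (C (t ^ qq F) - X) ^ (j + 1) * c ∈ BB k (qq F) s := by
    intro c
    by_cases h0 : c = 0
    · simp [h0]
    rw [BB, hn, mem_degreeLT, mem_degreeLT, ← natDegree_lt_iff_degree_lt h0,
      ← natDegree_lt_iff_degree_lt (mul_ne_zero (pow_ne_zero _ (Y_ne _)) h0),
      natDegree_mul (pow_ne_zero _ (Y_ne _)) h0, natDegree_pow, natDegree_Y]
    omega
  have h3 : LinearMap.range φ = ExV F t s := by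
    ext e
    constructor
    · rintro ⟨c, rfl⟩
      exact ⟨(h1 c).mem_of_b hs ((h2 c).1 c.2), _, h1 c⟩
    · rintro ⟨he, b, hb⟩
      obtain ⟨c, rfl⟩ := Z_pow_dvd (t := t) j b ((pow_dvd_pow _ hj1).trans ⟨_, hb⟩)
      have hc := (h2 c).2 (hb.mem_of_e hq (BB_mono (by omega) he))
      refine ⟨⟨c, hc⟩, ?_⟩
      have := (h1 ⟨c, hc⟩).symm.trans hb
      exact add_left_cancel (mul_left_cancel₀ (pow_ne_zero _ (Y_ne t)) this)
  have h4 : Function.Injective φ := by
    rw [injective_iff_map_eq_zero]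
    intro c hc
    have := h1 c
    rw [hc] at this
    exact Subtype.ext ((mul_eq_zero.1 (ht.rel_zero hs this)).resolve_left
      (pow_ne_zero _ (Y_ne _)))
  rw [← h3, LinearMap.finrank_range_of_inj h4, finrank_degLT, hj0, hn]
  omega

/-- solutions in rational functions are polynomials -/
lemma rel_of_frac {q s : ℕ} (hq : 2 ≤ q) {f g e : k[X]} (hf : f ≠ 0)
    (h : f * expand k q g = (C t - X) ^ s * expand k q f * (g + e * f)) :
    ∃ b, g = b * f ∧ Rel q t s b e := by
  classical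
  obtain ⟨f', g', h1, h2, h3⟩ := extract_gcd f g
  have hd : gcd f g ≠ 0 := fun h0 => hf (by rw [h1, h0, zero_mul])
  generalize gcd f g = d at *
  subst h1 h2
  have hf' := right_ne_zero_of_mul hf
  have h4 : f' * expand k q g' = (C t - X) ^ s * expand k q f' * (g' + e * f') := by
    refine mul_left_cancel₀ (mul_ne_zero hd ((expand_ne_zero (p := q) (by omega)).2 hd)) ?_
    simp only [map_mul] at h
    linear_combination h
  have h5 : IsCoprime (expand k q f') (expand k q g') :=
    (isCoprime_expand (by omega)).2 (gcd_isUnit_iff f' g' |>.1 h3)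
  have h6 : expand k q f' ∣ f' := h5.dvd_of_dvd_mul_right ⟨(C t - X) ^ s * (g' + e * f'), by
    rw [h4]; ring⟩
  have h7 := natDegree_le_of_dvd h6 hf'
  rw [natDegree_expand] at h7
  obtain ⟨c, rfl⟩ := natDegree_eq_zero.1 (show f'.natDegree = 0 by nlinarith)
  have hc : c ≠ 0 := C_ne_zero.1 hf'
  have h8 : C c⁻¹ * C c = (1 : k[X]) := by rw [← C_mul, inv_mul_cancel₀ hc, C_1]
  refine ⟨C c⁻¹ * g', by linear_combination (-d * g') * h8, ?_⟩
  rw [expand_C] at h4
  rw [Rel, map_mul, expand_C]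
  linear_combination (C c⁻¹) ^ 2 * h4 - (C c⁻¹ * expand k q g' -
    (C t - X) ^ s * (C c⁻¹ * g' + e * (C c⁻¹ * C c + 1))) * h8

end Pool.Agent.MP_cbe134_nt.FF
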