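import Mathlib

/-! A pigeonhole argument over a finite constant field. -/

open Finset Polynomial

namespace Pool.Agent.MP_cbe134_nt.FF

variable {F : Type*} [Field F]

lemma exists_digits (Q c : ℕ) (a : F[X]) (h : a.degree < (c * Q : ℕ)) :
    ∃ b : F[X][X], b.degree < c ∧ (∀ i, (b.coeff i).natDegree ≤ Q) ∧ b.eval (X ^ Q) = a := by
  induction c generalizing a with
  | zero => exact ⟨0, by simp, by simp, by
      rw [eval_zero, eq_comm, ← degree_eq_bot]; simpa using h⟩
  | succ c ih =>
    have hm : (X ^ Q : F[X]).Monic := monic_X_pow Q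
    obtain ⟨b, h1, h2, h3⟩ := ih (a /ₘ X ^ Q) (by
      by_cases h0 : a /ₘ X ^ Q = 0
      · rw [h0, degree_zero]; exact WithBot.bot_lt_coe _
      have ha : a ≠ 0 := fun e => h0 (by simp [e])
      have h4 : ¬a.degree < (X ^ Q : F[X]).degree := fun e => h0 ((divByMonic_eq_zero_iff hm).2 e)
      rw [degree_X_pow, ← natDegree_lt_iff_degree_lt ha] at h4
      rw [← natDegree_lt_iff_degree_lt ha, add_mul, one_mul] at h
      rw [← natDegree_lt_iff_degree_lt h0, natDegree_divByMonic _ hm, natDegree_X_pow]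
      omega)
    refine ⟨C (a %ₘ X ^ Q) + X * b, ?_, fun i => ?_, ?_⟩
    · refine (degree_add_le _ _).trans_lt (max_lt (degree_C_le.trans_lt (by exact_mod_cast Nat.succ_pos c)) ?_)
      by_cases h0 : b = 0
      · simp [h0]
      rw [← natDegree_lt_iff_degree_lt h0] at h1
      rw [← natDegree_lt_iff_degree_lt (mul_ne_zero X_ne_zero h0), natDegree_X_mul h0]
      omega
    · cases i with
      | zero => simpa using (natDegree_le_natDegree (degree_modByMonic_lt a hm).le)
      | succ i => simpa using h2 i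
    · simp [h3, modByMonic_add_div]

lemma quot_bound {Q δ f : ℕ} {Φ : F[X][X]} (h1 : ∀ i, (Φ.coeff i).natDegree ≤ Q + δ)
    (h2 : (Φ.eval (X ^ Q)).natDegree ≤ f * Q) (i : ℕ) :
    ((Φ /ₘ (X - C (X ^ Q))).coeff i).natDegree ≤ (f - (i + 1)) * Q + δ := by
  have e := modByMonic_add_div Φ (X - C (X ^ Q : F[X]))
  rw [modByMonic_X_sub_C_eq_C_eval] at e
  generalize Φ /ₘ (X - C (X ^ Q)) = h at *
  have key : ∀ (z a b : F[X]) (n : ℕ), X ^ Q * z = a - b → a.natDegree ≤ n * Q + δ →
      b.natDegree ≤ Q + δ → z.natDegree ≤ (n - 1) * Q + δ := by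
    intro z a b n h ha hb
    by_cases h0 : z = 0
    · simp [h0]
    have h3 := natDegree_sub_le a b
    rw [← h, natDegree_X_pow_mul _ h0] at h3
    rcases n with _ | n
    · omega
    · rw [add_mul, one_mul] at ha
      rw [Nat.add_sub_cancel]
      omega
  induction i with
  | zero =>
    have e0 := congrArg (coeff · 0) e
    simp only [coeff_add, coeff_C_zero, mul_coeff_zero, coeff_sub, coeff_X_zero] at e0
    exact key _ (Φ.eval (X ^ Q)) (Φ.coeff 0) f (by linear_combination -e0) (by omega) (h1 0)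
  | succ i ih =>
    have e0 := congrArg (coeff · (i + 1)) e
    simp only [coeff_add, coeff_C_succ, coeff_X_sub_C_mul] at e0
    exact key _ (h.coeff i) (Φ.coeff (i + 1)) _ (by linear_combination -e0) ih (h1 _)

theorem pigeon [Finite F] {S : Type*} [Fintype S] (n : S → F[X][X]) (α : ℕ → S → F[X])
    (Q : ℕ → ℕ) (hQ : Function.Injective Q) (c f : ℕ)
    (hα : ∀ J P, (α J P).degree < (c * Q J : ℕ))
    (hr : ∀ J, (∑ P, α J P * (n P).eval (X ^ Q J)).natDegree ≤ f * Q J)
    (hind : ∀ β : S → F[X][X], (∀ P, (β P).natDegree ≤ c + 1) →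
      (∑ P, β P * n P).natDegree ≤ f + 2 → β = 0) : ∃ J, α J = 0 := by
  classical
  choose a ha1 ha2 ha3 using fun J P => exists_digits (Q J) c (α J P) (hα J P)
  replace ha1 := fun J P => natDegree_le_iff_degree_le.2 (ha1 J P).le
  let D := univ.sup fun P => (n P).natDegree
  let δ := univ.sup fun P => (n P).support.sup fun i => ((n P).coeff i).natDegree
  have hδ : ∀ P i, ((n P).coeff i).natDegree ≤ δ := fun P i => by
    by_cases h : (n P).coeff i = 0
    · simp [h]
    · exact (le_sup (f := fun i => ((n P).coeff i).natDegree) (mem_support_iff.2 h)).trans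
        (le_sup (f := fun P => (n P).support.sup fun i => ((n P).coeff i).natDegree) (mem_univ P))
  let Φ : ℕ → F[X][X] := fun J => ∑ P, a J P * n P
  have h1 : ∀ J i, ((Φ J).coeff i).natDegree ≤ Q J + δ := fun J i => by
    rw [finsetSum_coeff]
    refine natDegree_sum_le_of_forall_le _ _ fun P _ => ?_
    rw [coeff_mul]
    exact natDegree_sum_le_of_forall_le _ _ fun p _ =>
      natDegree_mul_le.trans (add_le_add (ha2 J P _) (hδ P _))
  have h2 : ∀ J, ((Φ J).eval (X ^ Q J)).natDegree ≤ f * Q J := fun J => by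
    simpa [Φ, eval_finsetSum, ha3] using hr J
  let h : ℕ → F[X][X] := fun J => Φ J /ₘ (X - C (X ^ Q J))
  have h3 : ∀ J, (h J).natDegree ≤ c + D := fun J =>
    (natDegree_le_natDegree (degree_divByMonic_le _ _)).trans
      (natDegree_sum_le_of_forall_le _ _ fun P _ => natDegree_mul_le.trans
        (add_le_add (ha1 J P) (le_sup (f := fun P => (n P).natDegree) (mem_univ P))))
  obtain ⟨J, J', hJ, e⟩ := Finite.exists_ne_map_eq_of_infinite
    fun J (i : Fin (c + D + 1)) (j : Fin (δ + 1)) => ((h J).coeff (f + i)).coeff j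
  have h4 : (h J - h J').natDegree ≤ f := by
    rw [natDegree_le_iff_coeff_eq_zero]
    intro i hi
    obtain ⟨i, rfl⟩ := Nat.exists_eq_add_of_le hi.le
    rw [coeff_sub, sub_eq_zero]
    by_cases h5 : i < c + D + 1
    · ext j
      by_cases h6 : j < δ + 1
      · exact congrFun (congrFun e ⟨i, h5⟩) ⟨j, h6⟩
      · have h7 := fun J => quot_bound (h1 J) (h2 J) (f + i)
        simp only [show f - (f + i + 1) = 0 by omega, zero_mul, zero_add] at h7
        rw [coeff_eq_zero_of_natDegree_lt ((h7 J).trans_lt (by omega)),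
          coeff_eq_zero_of_natDegree_lt ((h7 J').trans_lt (by omega))]
    · rw [coeff_eq_zero_of_natDegree_lt ((h3 J).trans_lt (by omega)),
        coeff_eq_zero_of_natDegree_lt ((h3 J').trans_lt (by omega))]
  have h5 := hind (fun P => (X - C (X ^ Q J')) * a J P - (X - C (X ^ Q J)) * a J' P)
    (fun P => (natDegree_sub_le _ _).trans (max_le
      (natDegree_mul_le.trans (by rw [natDegree_X_sub_C]; have := ha1 J P; omega))
      (natDegree_mul_le.trans (by rw [natDegree_X_sub_C]; have := ha1 J' P; omega)))) (by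
    have e1 : ∀ J, C ((Φ J).eval (X ^ Q J)) + (X - C (X ^ Q J)) * h J = Φ J := fun J => by
      rw [← modByMonic_X_sub_C_eq_C_eval, modByMonic_add_div]
    have e2 : ∑ P, ((X - C (X ^ Q J')) * a J P - (X - C (X ^ Q J)) * a J' P) * n P =
        (X - C (X ^ Q J)) * (X - C (X ^ Q J')) * (h J - h J') +
        ((X - C (X ^ Q J')) * C ((Φ J).eval (X ^ Q J)) -
          (X - C (X ^ Q J)) * C ((Φ J').eval (X ^ Q J'))) := by
      have e3 : ∑ P, ((X - C (X ^ Q J')) * a J P - (X - C (X ^ Q J)) * a J' P) * n P =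
          (X - C (X ^ Q J')) * Φ J - (X - C (X ^ Q J)) * Φ J' := by
        simp only [Φ, mul_sum, ← sum_sub_distrib]
        exact sum_congr rfl fun P _ => by ring
      rw [e3]
      linear_combination (X - C (X ^ Q J)) * e1 J' - (X - C (X ^ Q J')) * e1 J
    rw [e2]
    refine (natDegree_add_le _ _).trans (max_le (natDegree_mul_le.trans ?_)
      ((natDegree_sub_le _ _).trans (max_le ?_ ?_)))
    · rw [natDegree_mul (X_sub_C_ne_zero _) (X_sub_C_ne_zero _), natDegree_X_sub_C,
        natDegree_X_sub_C]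
      omega
    all_goals exact natDegree_mul_le.trans (by rw [natDegree_X_sub_C, natDegree_C]; omega))
  refine ⟨J, funext fun P => ?_⟩
  have h6 := congrArg (eval (X ^ Q J)) (congrFun h5 P)
  simp only [eval_sub, eval_mul, eval_X, eval_C, sub_self, zero_mul, sub_zero, ha3, Pi.zero_apply,
    eval_zero, mul_eq_zero, sub_eq_zero] at h6
  refine h6.resolve_left fun e => hJ (hQ ?_)
  simpa using congrArg natDegree e

end Pool.Agent.MP_cbe134_nt.FF
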