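import Pool.Agent.MP_cbe134_nt.FFFormal
import Pool.Agent.MP_cbe134_nt.FFPigeon

/-! Linear independence of the values. -/

open Finset Polynomial WithZero Filter Topology

namespace Pool.Agent.MP_cbe134_nt.FF

universe u

lemma exists_num_xs {ι A : Type*} [CommRing A] (q : ℕ) (t : A) (s : ι → ℕ) (v : ι → A[X])
    (B : ℕ × List ι) (d w : ℕ) (hw : wtS q s B ≤ w) : ∃ n : A[X], ∀ (E : Type u) [Field E]
      (φ : A →+* E) (y : E), (∀ i, φ t ≠ y ^ q ^ i) → n.eval₂ φ y = ell q (φ t) y d ^ w *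
        xs q (φ t) y s (fun l => (v l).map φ) B d := by
  obtain ⟨n, hn⟩ := exists_num.{u} q t s v B.2 d
  obtain ⟨r, rfl⟩ := Nat.exists_eq_add_of_le hw
  refine ⟨(C (t ^ q) - X ^ q ^ d) ^ B.1 * (∏ i ∈ range d, (C t - X ^ q ^ i)) ^ r * n,
    fun E _ φ y h => ?_⟩
  have h1 := ell_ne h d
  have h2 : eval₂ φ y (∏ i ∈ range d, (C t - X ^ q ^ i)) = ell q (φ t) y d := by
    simp [eval₂_finsetProd, ell]
  rw [eval₂_mul, eval₂_mul, eval₂_pow, eval₂_pow, hn E φ y h, h2, eval₂_sub, eval₂_C, eval₂_X_pow,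
    map_pow, xs, PiS, Pi.mul_apply, Pi.pow_apply, lett_apply, eval_sub, eval_C, eval_X]
  simp only [wtS, div_pow, pow_add, ← pow_mul, mul_comm (q - 1)]
  field_simp

lemma exists_eval_bound {F : Type*} [Field F] (n : F[X][X]) :
    ∃ c, ∀ Q, 1 ≤ Q → (n.eval (X ^ Q)).natDegree ≤ c * Q := by
  induction n using Polynomial.induction_on' with
  | add p p' hp hp' =>
    obtain ⟨c, hc⟩ := hp
    obtain ⟨c', hc'⟩ := hp'
    refine ⟨c + c', fun Q hQ => ?_⟩
    rw [eval_add, add_mul]
    exact (natDegree_add_le _ _).trans (max_le ((hc Q hQ).trans (by omega))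
      ((hc' Q hQ).trans (by omega)))
  | monomial n a =>
    refine ⟨a.natDegree + n, fun Q hQ => ?_⟩
    rw [eval_monomial, ← pow_mul]
    refine natDegree_mul_le.trans ?_
    rw [natDegree_X_pow]
    nlinarith

lemma natDegree_le_of_O {F : Type*} [Field F] {p : F[X]} {n : ℕ} (h : O (aeval (theta F) p) n) :
    p.natDegree ≤ n := by
  by_cases h0 : p = 0
  · simp [h0]
  · rw [O, v_aeval h0, exp_le_exp] at h
    exact_mod_cast h

lemma O_aeval' {F : Type*} [Field F] (p : F[X]) : O (aeval (theta F) p) p.natDegree :=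
  O_aeval p fun _ hi => by exact_mod_cast le_natDegree_of_ne_zero hi

variable {F k : Type u} [Field F] [Fintype F] [Field k] [Algebra F k] {t : k}
  {P : Let F t → F[X][X]}

variable (F) in
/-- evaluation at `θ` -/
noncomputable abbrev evT : F[X] →+* LaurentSeries F :=
  (aeval (theta F) : F[X] →ₐ[F] LaurentSeries F).toRingHom

lemma pt_eval (J : ℕ) : Pt (qq F) (theta F) (theta F ^ qq F ^ (J + 1)) (qq F ^ (J + 1)) := by
  have hq := two_le_q (F := F)
  have h1 : qq F ≤ qq F ^ (J + 1) := Nat.le_self_pow (by omega) _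
  exact ⟨hq, by omega, v_theta_pow _, O_theta.mono (by omega),
    (O_theta_pow _).mono (by exact_mod_cast h1), sub_pow_q⟩

/-- the letters with coefficients in `F((1/θ))` -/
noncomputable def uL (P : Let F t → F[X][X]) (l : Let F t) : (LaurentSeries F)[X] :=
  (P l).map (evT F)

/-- sizes of the coefficients -/
noncomputable def del (P : Let F t → F[X][X]) (l : Let F t) : ℕ :=
  (P l).support.sup fun i => ((P l).coeff i).natDegree

lemma O_uL (l : Let F t) (i : ℕ) : O ((uL P l).coeff i) (del P l) := by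
  rw [uL, coeff_map]
  by_cases h : (P l).coeff i = 0
  · rw [h, map_zero]
    exact O_zero _
  · refine (O_aeval' _).mono ?_
    exact_mod_cast le_sup (f := fun i => ((P l).coeff i).natDegree) (mem_support_iff.2 h)

lemma Tr.deg_uL (ht : Tr F t) (hP : Adapted F t P) (l : Let F t) :
    (qq F - 1) * (uL P l).natDegree + 1 ≤ l.wt :=
  (Nat.succ_le_succ (Nat.mul_le_mul_left _ natDegree_map_le)).trans (ht.deg_pol hP l)

/-- the tails -/
noncomputable def TL (P : Let F t → F[X][X]) (J : ℕ) (A : ℕ × List (Let F t)) : LaurentSeries F :=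
  lim (xs (qq F) (theta F) (theta F ^ qq F ^ (J + 1)) Let.wt (uL P) A)

/-- the transferred coefficients -/
noncomputable def alp (P : Let F t → F[X][X]) (T : Finset (ℕ × List (Let F t))) (w : ℕ)
    (c : T → F[X]) : ℕ → T → F[X]
  | 0 => c
  | J + 1 => fun B => (X - X ^ qq F ^ (J + 1)) ^ (w - wtS (qq F) Let.wt B.1) *
      (alp P T w c J B + ∑ A, alp P T w c J A * (mS P A.1 B.1).eval (X ^ qq F ^ (J + 1)))

lemma Tr.alp_rel (ht : Tr F t) (hP : Adapted F t P) {w : ℕ} {c : ht.St w → F[X]}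
    (h : ∑ A, evT F (c A) * TL P 0 A.1 = 0) (J : ℕ) :
    ∑ A, evT F (alp P _ w c J A) * TL P J A.1 = 0 := by
  induction J with
  | zero => exact h
  | succ J ih =>
    have h1 := pt_eval (F := F) J
    have hY : theta F - theta F ^ qq F ^ (J + 1) ≠ 0 := by simpa using sub_ne_zero.2 (h1.ne 0)
    have h2 := h1.lim_eq O_uL (ht.deg_uL hP) (ht.St_closed w)
    simp only [← pow_mul, ← pow_succ] at h2
    simp only [TL, h2, mul_add, sum_add_distrib, mul_sum] at ih
    rw [sum_comm, ← sum_add_distrib] at ih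
    rw [← mul_zero ((theta F - theta F ^ qq F ^ (J + 1)) ^ w), ← ih, mul_sum]
    refine sum_congr rfl fun B _ => ?_
    obtain ⟨r, hr⟩ := Nat.exists_eq_add_of_le (ht.mem_St.1 B.2)
    have h3 : ∀ A : ht.St w, eval (theta F ^ qq F ^ (J + 1)) (mS (uL P) A.1 B.1) =
        evT F ((mS P A.1 B.1).eval (X ^ qq F ^ (J + 1))) := fun A => by
      rw [← eval₂_hom, ← eval_map, mS_map]
      simp
      rfl
    have h4 : (theta F - theta F ^ qq F ^ (J + 1)) ^ w * (theta F - theta F ^ qq F ^ (J + 1))⁻¹ ^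
        wtS (qq F) Let.wt B.1 = evT F ((X - X ^ qq F ^ (J + 1)) ^ (w - wtS (qq F) Let.wt B.1)) := by
      rw [show w - wtS (qq F) Let.wt B.1 = r by omega]
      nth_rewrite 1 [hr]
      simp only [AlgHom.toRingHom_eq_coe, RingHom.coe_coe, map_pow, map_sub, aeval_X]
      rw [pow_add _ (wtS _ _ _), mul_right_comm, ← mul_pow, mul_inv_cancel₀ hY, one_pow, one_mul]
    simp only [alp, TL, map_mul, map_add, map_sum, h3, ← h4, ← mul_assoc, ← sum_mul]
    ring

lemma Tr.alp_top (ht : Tr F t) {w : ℕ} (c : ht.St w → F[X]) (J : ℕ) (B : ht.St w)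
    (hB : wtS (qq F) Let.wt B.1 = w) : alp P _ w c J B = c B := by
  induction J with
  | zero => rfl
  | succ J ih =>
    simp only [alp]
    rw [hB, Nat.sub_self, pow_zero, one_mul, ih, sum_eq_zero, add_zero]
    intro A _
    have : mS P A.1 B.1 = 0 := by
      by_contra h
      obtain ⟨l, hl⟩ := mS_ne h
      have h1 := ht.mem_St.1 A.2
      have h2 := ht.one_le_wt l
      rw [hl, wtS_concat, hB] at h1
      omega
    simp [this]

lemma alp_deg (T : Finset (ℕ × List (Let F t))) (w : ℕ) (c : T → F[X]) :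
    ∃ b, ∀ J A, (alp P T w c J A).natDegree ≤ b * qq F ^ (J + 1) := by
  choose e he using fun A B : T => exists_eval_bound (mS P A.1 B.1)
  have hq := two_le_q (F := F)
  let b := w + (univ.sup fun p : T × T => e p.1 p.2) + univ.sup fun A => (c A).natDegree
  refine ⟨b, fun J => ?_⟩
  induction J with
  | zero =>
    intro A
    have : (c A).natDegree ≤ b :=
      (le_sup (f := fun A => (c A).natDegree) (mem_univ A)).trans (Nat.le_add_left _ _)
    exact this.trans (Nat.le_mul_of_pos_right _ (by positivity))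
  | succ J ih =>
    intro B
    have h1 : 1 ≤ qq F ^ (J + 1) := Nat.one_le_pow _ _ (by omega)
    have h2 : ((X - X ^ qq F ^ (J + 1) : F[X]) ^ (w - wtS (qq F) Let.wt B.1)).natDegree ≤
        w * qq F ^ (J + 1) := natDegree_pow_le.trans (Nat.mul_le_mul (Nat.sub_le _ _)
      ((natDegree_sub_le _ _).trans (by simpa using h1)))
    have h3 : (alp P T w c J B + ∑ A, alp P T w c J A *
        (mS P A.1 B.1).eval (X ^ qq F ^ (J + 1))).natDegree ≤
        b * qq F ^ (J + 1) + (univ.sup fun p : T × T => e p.1 p.2) * qq F ^ (J + 1) :=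
      (natDegree_add_le _ _).trans (max_le ((ih B).trans (Nat.le_add_right _ _))
        (natDegree_sum_le_of_forall_le _ _ fun A _ => natDegree_mul_le.trans (add_le_add (ih A)
          ((he A B _ h1).trans (Nat.mul_le_mul_right _
            (le_sup (f := fun p : T × T => e p.1 p.2) (mem_univ (A, B))))))))
    refine natDegree_mul_le.trans ((add_le_add h2 h3).trans ?_)
    have h4 : w + (univ.sup fun p : T × T => e p.1 p.2) ≤ b := Nat.le_add_right _ _
    have h5 := Nat.mul_le_mul_right (qq F ^ (J + 1)) h4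
    have h6 := Nat.mul_le_mul_left (b * qq F ^ (J + 1)) hq
    rw [pow_succ _ (J + 1)]
    nlinarith

theorem Tr.indep_poly (ht : Tr F t) (hP : Adapted F t P) {w : ℕ} (c : ht.St w → F[X])
    (h : ∑ A, evT F (c A) * TL P 0 A.1 = 0) (B : ht.St w) (hB : wtS (qq F) Let.wt B.1 = w) :
    c B = 0 := by
  have hq := two_le_q (F := F)
  obtain ⟨b, hb⟩ := alp_deg (P := P) _ w c
  obtain ⟨a, ha⟩ := exists_O_bound _ (ht.formal_indep hP w) (b + 1 + 1)
  obtain ⟨κ, hκ⟩ : ∃ κ : ℕ, ∀ A : ht.St w, kap (qq F) Let.wt (del P) A.1 ≤ κ ∧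
      kap (qq F) Let.wt (fun _ => 0) A.1 ≤ κ := by
    refine ⟨univ.sup fun A : ht.St w => (kap (qq F) Let.wt (del P) A.1).toNat +
      (kap (qq F) Let.wt (fun _ => 0) A.1).toNat, fun A => ?_⟩
    have := le_sup (f := fun A : ht.St w => (kap (qq F) Let.wt (del P) A.1).toNat +
      (kap (qq F) Let.wt (fun _ => 0) A.1).toNat) (mem_univ A)
    omega
  obtain ⟨m, hm⟩ : ∃ m, m = a + b + κ + 2 := ⟨_, rfl⟩
  obtain ⟨f, hf⟩ : ∃ f, f + m = (w + 1) * lam (qq F) m + b + κ := by
    have := (lam_spec hq m).2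
    exact ⟨(w + 1) * lam (qq F) m - m + b + κ, by
      have : m ≤ (w + 1) * lam (qq F) m := by nlinarith
      omega⟩
  choose n hn using fun A : ht.St w => exists_num_xs.{u} (qq F) (X : F[X]) Let.wt P A.1 m (w + 1)
    ((ht.mem_St.1 A.2).trans (Nat.le_succ w))
  refine (pigeon n (alp P _ w c) (fun J => qq F ^ (J + 1))
    (fun i j e => by simpa using Nat.pow_right_injective hq e) (b + 1) f (fun J A => by
      have h1 : 1 ≤ qq F ^ (J + 1) := Nat.one_le_pow _ _ (by omega)
      have h2 := hb J A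
      exact degree_le_natDegree.trans_lt (by exact_mod_cast (by nlinarith))) (fun J => ?_)
      fun β h1 h2 => ?_).elim fun J hJ => by
    rw [← ht.alp_top (P := P) c J B hB, hJ, Pi.zero_apply]
  · have h1 := pt_eval (F := F) J
    have e0 : evT F X = theta F := aeval_X _
    have h2 : ∀ A, evT F ((n A).eval (X ^ qq F ^ (J + 1))) =
        ell (qq F) (theta F) (theta F ^ qq F ^ (J + 1)) m ^ (w + 1) *
          xs (qq F) (theta F) (theta F ^ qq F ^ (J + 1)) Let.wt (uL P) A.1 m := fun A => by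
      rw [← eval₂_hom, map_pow, e0, hn A _ (evT F) _ (e0 ▸ h1.ne), e0]
      rfl
    refine natDegree_le_of_O ?_
    change O (evT F _) _
    simp only [map_sum, map_mul, h2]
    rw [← sub_zero (∑ _, _), ← mul_zero (ell (qq F) (theta F) (theta F ^ qq F ^ (J + 1)) m ^
      (w + 1)), ← ht.alp_rel hP h J, mul_sum, ← sum_sub_distrib]
    refine O_sum fun A _ => ?_
    rw [mul_left_comm, ← mul_sub, ← mul_sub, ← neg_sub, mul_neg, mul_neg]
    refine (O.mul (h1.v_ell m (w + 1)).le ((O_aeval' _).mul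
      ((h1.good_xs O_uL (ht.deg_uL hP) A.1).O_sub h1.hQ' m))).neg.mono ?_
    have h3 := hb J A
    have h4 := mul_le_mul_of_nonneg_left (hκ A).1 (Int.natCast_nonneg (qq F ^ (J + 1)))
    have h5 := congrArg (· * qq F ^ (J + 1)) hf
    zify at h3 h5
    push_cast at h4 ⊢
    linarith
  · have h3 := pt_formal (F := F) t
    let φ : F[X] →+* LaurentSeries k :=
      (algebraMap k _).comp (aeval t : F[X] →ₐ[F] k).toRingHom
    have e0 : φ X = algebraMap k _ t := by simp [φ]
    have h4 : ∀ A, aeval (theta k) (mp F t (n A)) =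
        ell (qq F) (algebraMap k _ t) (theta k) m ^ (w + 1) *
          xs (qq F) (algebraMap k _ t) (theta k) Let.wt (uF P) A.1 m := fun A => by
      rw [aeval_def, eval₂_map, hn A _ φ _ (e0 ▸ h3.ne), e0]
      simp only [φ, ← Polynomial.map_map]
      rfl
    have h5 := ha (fun A => mp F t (β A)) (fun A => natDegree_map_le.trans (h1 A)) (by
      have h6 := (O_aeval' (mp F t (∑ A, β A * n A))).mono
        (show _ ≤ ((f + 2 : ℕ) : ℤ) by exact_mod_cast natDegree_map_le.trans h2)
      simp only [Polynomial.map_sum, Polynomial.map_mul, map_sum, map_mul, h4, mul_left_comm _ (_ ^ _),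
        ← mul_sum] at h6
      rw [mul_comm] at h6
      have h7 := h6.of_mul (h3.v_ell m (w + 1))
      have h8 : O (∑ A : ht.St w, aeval (theta k) (mp F t (β A)) * (TF P A.1 -
          xs (qq F) (algebraMap k _ t) (theta k) Let.wt (uF P) A.1 m)) (-a) := O_sum fun A _ => by
        refine ((O_aeval' _).mul ((h3.good_xs O_uF (ht.deg_uF hP) A.1).O_sub h3.hQ' m)).mono ?_
        have h9 : (mp F t (β A)).natDegree ≤ b + 1 + 1 := natDegree_map_le.trans (h1 A)
        have := (hκ A).2
        push_cast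
        omega
      have h9 := h8.add (h7.mono (show _ ≤ (-a : ℤ) by
        rw [mul_one]
        omega))
      simpa only [mul_sub, sum_sub_distrib, sub_add_cancel] using h9)
    exact funext fun A => map_injective (aeval t : F[X] →ₐ[F] k).toRingHom ht
      ((congrFun h5 A).trans (Polynomial.map_zero _).symm)

end Pool.Agent.MP_cbe134_nt.FF
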