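import Pool.Agent.MP_cbe134_nt.FFValues
import Pool.Agent.MP_cbe134_nt.FFCount

/-! The depth-graded dimensions. -/

open Finset Polynomial Module

namespace Pool.Agent.MP_cbe134_nt.FF

section frob

variable {F k : Type*} [Field F] [Fintype F] [Field k] [Algebra F k] {t : k}

lemma frob_apply (x : k) : (frp F k 1).toRingHom x = x ^ qq F := by
  simpa using frp_apply (F := F) 1 x

lemma Slt_pow {w r : ℕ} {x : ℕ → k} (hx : x ∈ Slt F t w r) :
    x ^ qq F ∈ Slt F t (w * qq F) r := by
  have hq := two_le_q (F := F)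
  induction hx using Submodule.span_induction with
  | mem x hx =>
    obtain ⟨s, h1, rfl, h2, rfl⟩ := hx
    refine Submodule.subset_span ⟨s.map (· * qq F), ?_, ?_, by simpa using h2, ?_⟩
    · simp only [List.mem_map]
      rintro _ ⟨a, ha, rfl⟩
      exact Nat.mul_pos (h1 a ha) (by omega)
    · simpa using List.sum_map_mul_right s id (qq F)
    · ext d
      clear h1 h2
      induction s generalizing d with
      | nil => simp [Wlt]
      | cons a s ih =>
        simp only [Pi.pow_apply, Wlt, List.map_cons, sum_pow_q, mul_pow] at ih ⊢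
        refine sum_congr rfl fun e _ => ?_
        rw [ih, SS, SS, sum_pow_q]
        simp only [pow_mul]
  | zero => rw [zero_pow (by omega)]; exact zero_mem _
  | add x y _ _ hx hy =>
    have : (x + y) ^ qq F = x ^ qq F + y ^ qq F := by
      ext d
      simp only [Pi.pow_apply, Pi.add_apply, ← frob_apply, map_add]
    rw [this]
    exact add_mem hx hy
  | smul c x _ hx =>
    rw [_root_.smul_pow]
    exact Submodule.smul_mem _ _ hx

lemma Wb_pow {r s : ℕ} {b : k[X]} (h : b ∈ Wb F t r s) : b ^ qq F ∈ Wb F t r (s * qq F) := by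
  refine ⟨(mem_BB two_le_q).2 ?_, ?_⟩
  · have := Nat.mul_le_mul_right (qq F) ((mem_BB two_le_q).1 h.1)
    rw [natDegree_pow]
    linarith
  · have := Slt_pow h.2
    rwa [lett_pow, mul_comm (qq F)] at this

lemma Tr.Z_pow_mem' (ht : Tr F t) (j : ℕ) : ∀ r, j * (qq F - 1) + 1 < qq F ^ (r + 1) →
    (C (t ^ qq F) - X) ^ j ∈ Wb F t r (j * (qq F - 1)) := by
  have hq := two_le_q (F := F)
  induction j using Nat.strong_induction_on with
  | _ j ih =>
    intro r h
    rcases Nat.eq_zero_or_pos j with rfl | hj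
    · simpa using one_mem_Wb
    have h1 := Nat.div_add_mod j (qq F)
    have h2 := Nat.mod_lt j (show 0 < qq F by omega)
    have h3 := Nat.div_lt_self hj hq
    generalize j / qq F = i at *
    generalize j % qq F = c at *
    obtain ⟨p, hp⟩ : ∃ p, qq F = p + 1 := ⟨qq F - 1, by omega⟩
    have hp' : qq F - 1 = p := by omega
    rcases Nat.eq_zero_or_pos c with rfl | hc
    · have := Wb_pow (ih i h3 r
        (lt_of_le_of_lt (Nat.succ_le_succ (Nat.mul_le_mul_right _ h3.le)) h))
      rwa [← pow_mul, mul_right_comm, mul_comm i, ← add_zero (qq F * i), h1] at this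
    · subst h1
      rw [hp'] at h
      have h4 : p ≤ c * p := Nat.le_mul_of_pos_left _ hc
      rcases r with _ | r
      · rw [zero_add, pow_one] at h
        nlinarith [Nat.zero_le (qq F * i * p)]
      · have h5 : i * (qq F - 1) + 1 < qq F ^ (r + 1) := by
          rw [pow_succ'] at h
          rw [hp']
          refine Nat.lt_of_mul_lt_mul_left (a := qq F) ?_
          nlinarith
        have := ht.mul_Wb (Wb_pow (ih i h3 r h5)) (ht.Z_mem hc h2.le)
        rwa [← pow_mul, ← pow_add, mul_right_comm, ← add_mul, mul_comm i] at this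

lemma Tr.gg_small (ht : Tr F t) {w r : ℕ} (h : w < qq F ^ r) : gg F t w (r + 1) = 0 := by
  rcases Nat.eq_zero_or_pos w with rfl | hw
  · exact gg_of_lt (by omega)
  rcases r with _ | r
  · simp at h
    omega
  refine gg_eq_zero (inf_le_left.trans ((ht.BB_le hw fun j hj => ⟨r, le_rfl, ?_⟩).trans le_sup_right))
  exact ht.Z_pow_mem' j r (by omega)

lemma card_Let (s r : ℕ) : Nat.card {l : Let F t // l.wt = s ∧ l.dep = r} = gg F t s r := by
  rw [← Nat.card_fin (gg F t s r)]
  refine (Nat.card_congr (Equiv.ofBijective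
    (fun i : Fin (gg F t s r) => (⟨⟨s, r, i, i.2⟩, rfl, rfl⟩ : {l : Let F t // l.wt = s ∧ l.dep = r}))
    ⟨fun i j h => Fin.ext (congrArg (fun x => x.1.idx) h), ?_⟩)).symm
  rintro ⟨⟨a, b, i, hi⟩, rfl, rfl⟩
  exact ⟨⟨i, hi⟩, rfl⟩

lemma Tr.series (ht : Tr F t) :
    ser (fun w r => Nat.card {A : ℕ × List (Let F t) // wtS (qq F) Let.wt A = w ∧
      depS Let.dep A = r}) = (1 + MvPowerSeries.X 0 ^ (qq F - 1) *
        (1 - MvPowerSeries.X 0 ^ (qq F - 1))⁻¹ * MvPowerSeries.X 1) * (1 - ser (gg F t))⁻¹ := by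
  have hq : 1 ≤ qq F - 1 := by have := two_le_q (F := F); omega
  have h1 := finFib_dg (A := Let F t) Let.dep finite_Let
  have h2 := finFib_dg (A := List (Let F t)) depL ht.finite_words
  have h3 := cn_list h1 (by simp only [dg_sum]; exact h2)
  have h4 := cn_prod (finFib_dg (fun j => min j 1) (finite_mul hq)) h2
  simp only [dg_sum] at h3
  simp only [← dg_add] at h4
  rw [cn_dg Let.wt] at h3
  simp only [card_Let] at h3
  rw [MvPowerSeries.eq_mul_inv_iff_mul_eq, ← cn_dg, ← cn_period hq]
  · refine (congrArg (· * _) h4).trans ?_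
    rw [mul_assoc]
    exact (congrArg (_ * ·) h3).trans (mul_one _)
  · have : MvPowerSeries.constantCoeff (ser (gg F t)) = (gg F t 0 0 : ℚ) := rfl
    simp [this, ht.gg_zero]

end frob

universe u

variable {F : Type u} [Field F] [Fintype F] {P : Let F (tK F) → F[X][X]}

lemma finrank_span_states (hP : Adapted F (tK F) P) (w : ℕ) (p : ℕ → Prop) :
    finrank (ratField F) (Submodule.span (ratField F)
      (TL P 0 '' {A | wtS (qq F) Let.wt A = w ∧ p (depS Let.dep A)})) =
    {A : ℕ × List (Let F (tK F)) | wtS (qq F) Let.wt A = w ∧ p (depS Let.dep A)}.ncard := by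
  have h1 : {A : ℕ × List (Let F (tK F)) | wtS (qq F) Let.wt A = w ∧ p (depS Let.dep A)}.Finite :=
    (tr_tK.finite_states w).subset fun A hA => hA.1.le
  have := h1.fintype
  rw [Set.image_eq_range, finrank_span_eq_card ((indep hP w).mono fun A hA => hA.1),
    ← Nat.card_coe_set_eq, Nat.card_eq_fintype_card]

lemma grDim_eq (hP : Adapted F (tK F) P) (r w : ℕ) : grDim F r w =
    Nat.card {A : ℕ × List (Let F (tK F)) // wtS (qq F) Let.wt A = w ∧ depS Let.dep A = r} := by
  have h1 := tr_tK.finite_states (F := F) w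
  have h2 : FilPrev F r w = Submodule.span (ratField F)
      (TL P 0 '' {A | wtS (qq F) Let.wt A = w ∧ depS Let.dep A < r}) := by
    cases r with
    | zero => simp [FilPrev]
    | succ r => simp only [FilPrev, Fil_eq hP, Nat.lt_succ_iff]
  have h3 : FilPrev F r w ≤ Fil F r w := by
    rw [h2, Fil_eq hP]
    exact Submodule.span_mono (Set.image_mono fun A hA => ⟨hA.1, hA.2.le⟩)
  have : FiniteDimensional (ratField F) (Fil F r w) := by
    rw [Fil_eq hP]
    exact FiniteDimensional.span_of_finite _ ((h1.subset fun A hA => hA.1.le).image _)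
  have h4 := Submodule.finrank_quotient_add_finrank ((FilPrev F r w).submoduleOf (Fil F r w))
  rw [(Submodule.submoduleOfEquivOfLe h3).finrank_eq, ← grDim, h2, Fil_eq hP,
    finrank_span_states hP w (· < r), finrank_span_states hP w (· ≤ r)] at h4
  have h5 := Set.ncard_union_eq (s := {A : ℕ × List (Let F (tK F)) |
    wtS (qq F) Let.wt A = w ∧ depS Let.dep A = r}) (t := {A : ℕ × List (Let F (tK F)) |
    wtS (qq F) Let.wt A = w ∧ depS Let.dep A < r})
    (Set.disjoint_left.2 fun A h h' => h'.2.ne h.2) (h1.subset fun A hA => hA.1.le)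
    (h1.subset fun A hA => hA.1.le)
  rw [← Set.ofPred_or] at h5
  simp only [← and_or_left, ← le_iff_eq_or_lt] at h5
  exact Nat.add_right_cancel (h4.trans h5)

theorem main (F : Type u) [Field F] [Fintype F] :
    ser (fun w r => grDim F r w) = (1 + MvPowerSeries.X 0 ^ (qq F - 1) *
      (1 - MvPowerSeries.X 0 ^ (qq F - 1))⁻¹ * MvPowerSeries.X 1) * (1 - ser (gg F (tK F)))⁻¹ := by
  obtain ⟨P, hP⟩ := tr_tK.exists_adapted (gen_tK (F := F))
  simp only [grDim_eq hP]
  exact tr_tK.series

end Pool.Agent.MP_cbe134_nt.FF
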