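import Pool.Agent.MP_cbe134_nt.FFSums

/-! The spaces of multiple power sums are closed under products. -/

open Finset Polynomial

namespace Pool.Agent.MP_cbe134_nt.FF

variable {F k : Type*} [Field F] [Fintype F] [Field k] [Algebra F k] {t : k}

variable (F t) in
/-- the span of the sequences `S_{<d}(s)` of weight `w` and depth at most `r` -/
noncomputable def Slt (w r : ℕ) : Submodule k (ℕ → k) := Submodule.span k
  {x | ∃ s : List ℕ, (∀ a ∈ s, 1 ≤ a) ∧ s.sum = w ∧ s.length ≤ r ∧ x = Wlt (SS F t) s}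

variable (F t) in
/-- the span of the sequences `S_d(s)` of weight `w` and depth at most `r` -/
noncomputable def Seq (w r : ℕ) : Submodule k (ℕ → k) := Submodule.span k
  {x | ∃ (a : ℕ) (s : List ℕ), 1 ≤ a ∧ (∀ a ∈ s, 1 ≤ a) ∧ a + s.sum = w ∧ s.length + 1 ≤ r ∧
    x = SS F t a * Wlt (SS F t) s}

variable {w w' r r' : ℕ} {x y : ℕ → k}

lemma Slt_mono (h : r ≤ r') : Slt F t w r ≤ Slt F t w r' :=
  Submodule.span_mono fun _ ⟨s, h1, h2, h3, h4⟩ => ⟨s, h1, h2, h3.trans h, h4⟩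

lemma Seq_mono (h : r ≤ r') : Seq F t w r ≤ Seq F t w r' :=
  Submodule.span_mono fun _ ⟨a, s, h0, h1, h2, h3, h4⟩ => ⟨a, s, h0, h1, h2, h3.trans h, h4⟩

lemma one_mem_Slt : 1 ∈ Slt F t 0 r := Submodule.subset_span ⟨[], by simp, rfl, by simp, rfl⟩

lemma SS_mem {a : ℕ} (ha : 1 ≤ a) : SS F t a ∈ Seq F t a 1 :=
  Submodule.subset_span ⟨a, [], ha, by simp, by simp, by simp, by simp [Wlt_nil]⟩

lemma psum_mem (hx : x ∈ Seq F t w r) : psum k x ∈ Slt F t w r := by
  refine (Submodule.span_le (p := (Slt F t w r).comap (psum k))).2 ?_ hx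
  rintro _ ⟨a, s, h0, h1, h2, h3, rfl⟩
  exact Submodule.subset_span ⟨a :: s, by simpa using ⟨h0, h1⟩, by simpa using h2,
    by simpa using h3, rfl⟩

lemma SS_mul_mem {a : ℕ} (ha : 1 ≤ a) (hx : x ∈ Slt F t w r) :
    SS F t a * x ∈ Seq F t (a + w) (r + 1) := by
  refine (Submodule.span_le (p := (Seq F t (a + w) (r + 1)).comap
    (LinearMap.mulLeft k (SS F t a)))).2 ?_ hx
  rintro _ ⟨s, h1, h2, h3, rfl⟩
  exact Submodule.subset_span ⟨a, s, ha, h1, by rw [h2], by omega, rfl⟩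

variable (F t) in
/-- the double sums behind the sum shuffle -/
noncomputable def TT (a b c d : ℕ) : k := ∑ x ∈ Mon F d, ∑ y ∈ Mon F d,
  (aeval t x)⁻¹ ^ a * (aeval t y)⁻¹ ^ b * (aeval t (x - y))⁻¹ ^ c

lemma RR_mem {c : ℕ} (hc : 1 ≤ c) : RR F t c ∈ Slt F t c 1 := by
  rw [RR_eq hc]
  exact Submodule.smul_mem _ _ (psum_mem (SS_mem hc))

lemma TT_right (a c : ℕ) : TT F t a 0 c = SS F t a * RR F t c := by
  ext d
  simp only [TT, pow_zero, mul_one, Pi.mul_apply, SS, sum_mul]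
  refine sum_congr rfl fun x hx => ?_
  rw [← mul_sum, sum_Mon_sub (fun z => (aeval t z)⁻¹ ^ c) hx, RR]

lemma TT_symm (a b c : ℕ) : TT F t a b c = (-1 : k) ^ c • TT F t b a c := by
  ext d
  simp only [TT, Pi.smul_apply, smul_eq_mul, mul_sum]
  rw [sum_comm]
  refine sum_congr rfl fun x _ => sum_congr rfl fun y _ => ?_
  rw [← neg_sub x y, map_neg, inv_neg, neg_pow]
  ring

lemma Tr.TT_rec (ht : Tr F t) (a b c : ℕ) : TT F t (a + 1) (b + 1) c =
    (if c = 0 then SS F t (a + b + 2) else 0) + TT F t a (b + 1) (c + 1) -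
      TT F t (a + 1) b (c + 1) := by
  classical
  ext d
  have h1 : (if c = 0 then SS F t (a + b + 2) else 0) d = ∑ x ∈ Mon F d, ∑ y ∈ Mon F d,
      if x = y then (aeval t x)⁻¹ ^ (a + b + 2) * 0 ^ c else 0 := by
    rw [sum_congr rfl fun x hx => by rw [sum_ite_eq, if_pos hx]]
    split_ifs with h
    · simp [h, SS]
    · simp [h]
  simp only [Pi.sub_apply, Pi.add_apply, h1, TT, ← sum_add_distrib, ← sum_sub_distrib]
  refine sum_congr rfl fun x hx => sum_congr rfl fun y hy => ?_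
  have hx0 := ht.aeval_ne (mem_Mon.1 hx).1.ne_zero
  have hy0 := ht.aeval_ne (mem_Mon.1 hy).1.ne_zero
  split_ifs with h
  · subst h
    rw [sub_self, map_zero, inv_zero]
    ring
  · have h0 := ht.aeval_ne (sub_ne_zero.2 h)
    rw [map_sub] at h0 ⊢
    simp only [pow_succ]
    field_simp
    ring

lemma Tr.TT_mem (ht : Tr F t) (n : ℕ) : ∀ a b c, a + b = n + 1 → (1 ≤ c ∨ 1 ≤ a ∧ 1 ≤ b) →
    TT F t a b c ∈ Seq F t (a + b + c) 2 := by
  have h0 : ∀ a c, 1 ≤ a → 1 ≤ c → TT F t a 0 c ∈ Seq F t (a + c) 2 := fun a c ha hc => by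
    rw [TT_right]
    exact SS_mul_mem ha (RR_mem hc)
  induction n with
  | zero =>
    intro a b c h1 h2
    rcases Nat.eq_zero_or_pos a with rfl | ha
    · rw [TT_symm, zero_add]
      exact Submodule.smul_mem _ _ (h0 b c (by omega) (by omega))
    · obtain rfl : b = 0 := by omega
      exact h0 a c ha (by omega)
  | succ n ih =>
    intro a b c h1 h2
    rcases a with _ | a
    · rw [TT_symm, zero_add]
      exact Submodule.smul_mem _ _ (h0 b c (by omega) (by omega))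
    rcases b with _ | b
    · exact h0 _ c (by omega) (by omega)
    rw [ht.TT_rec]
    refine Submodule.sub_mem _ (Submodule.add_mem _ ?_ ?_) ?_
    · split_ifs with h
      · rw [show a + 1 + (b + 1) + c = a + b + 2 by omega]
        exact Seq_mono (by omega) (SS_mem (by omega))
      · exact Submodule.zero_mem _
    · convert ih a (b + 1) (c + 1) (by omega) (by omega) using 2
      omega
    · convert ih (a + 1) b (c + 1) (by omega) (by omega) using 2
      omega

lemma Tr.chen (ht : Tr F t) {a b : ℕ} (ha : 1 ≤ a) (hb : 1 ≤ b) :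
    SS F t a * SS F t b ∈ Seq F t (a + b) 2 := by
  have := ht.TT_mem (a + b - 1) a b 0 (by omega) (Or.inr ⟨ha, hb⟩)
  have e : SS F t a * SS F t b = TT F t a b 0 := by
    ext d
    simp [TT, SS, sum_mul_sum]
  rwa [e]

/-- products of spans -/
lemma mul_mem_of_span {S T : Set (ℕ → k)} {P : Submodule k (ℕ → k)}
    (h : ∀ x ∈ S, ∀ y ∈ T, x * y ∈ P) (hx : x ∈ Submodule.span k S)
    (hy : y ∈ Submodule.span k T) : x * y ∈ P := by
  have : Submodule.span k S * Submodule.span k T ≤ P := by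
    rw [Submodule.span_mul_span, Submodule.span_le]
    rintro _ ⟨x, hx, y, hy, rfl⟩
    exact h x hx y hy
  exact this (Submodule.mul_mem_mul hx hy)

variable (F t) in
/-- closure under products below total weight `n` -/
def Clos (n : ℕ) : Prop := ∀ w w' r r' x y, w + w' < n → x ∈ Slt F t w r → y ∈ Slt F t w' r' →
  x * y ∈ Slt F t (w + w') (r + r')

lemma Clos.p2 {n : ℕ} (h : Clos F t n) (hw : w + w' ≤ n) (hx : x ∈ Seq F t w r)
    (hy : y ∈ Slt F t w' r') : x * y ∈ Seq F t (w + w') (r + r') := by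
  refine mul_mem_of_span (T := Slt F t w' r') ?_ hx (Submodule.subset_span hy)
  rintro _ ⟨a, s, h0, h1, rfl, h3, rfl⟩ y hy
  rw [mul_assoc, add_assoc]
  exact Seq_mono (by omega) (SS_mul_mem h0 (h s.sum w' s.length r' _ y (by omega)
    (Submodule.subset_span ⟨s, h1, rfl, le_rfl, rfl⟩) hy))

lemma Clos.p3 (ht : Tr F t) {n : ℕ} (h : Clos F t n) (hw : w + w' ≤ n) (hx : x ∈ Seq F t w r)
    (hy : y ∈ Seq F t w' r') : x * y ∈ Seq F t (w + w') (r + r') := by
  refine mul_mem_of_span ?_ hx hy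
  rintro _ ⟨a, s, h0, h1, rfl, h3, rfl⟩ _ ⟨a', s', h0', h1', rfl, h3', rfl⟩
  rw [mul_mul_mul_comm, add_add_add_comm]
  exact Seq_mono (by omega) (h.p2 (by omega) (ht.chen h0 h0')
    (h s.sum s'.sum s.length s'.length _ _ (by omega)
      (Submodule.subset_span ⟨s, h1, rfl, le_rfl, rfl⟩)
      (Submodule.subset_span ⟨s', h1', rfl, le_rfl, rfl⟩)))

lemma Tr.clos (ht : Tr F t) (n : ℕ) : Clos F t n := by
  induction n with
  | zero => intro _ _ _ _ _ _ h; omega
  | succ n ih =>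
    intro w w' r r' x y hw hx hy
    refine mul_mem_of_span ?_ hx hy
    rintro _ ⟨s, h1, rfl, h3, rfl⟩ _ ⟨s', h1', rfl, h3', rfl⟩
    rcases s with _ | ⟨a, s⟩
    · rw [Wlt_nil, one_mul]
      exact Submodule.subset_span ⟨s', h1', by simp, by omega, rfl⟩
    rcases s' with _ | ⟨a', s'⟩
    · rw [Wlt_nil, mul_one]
      exact Submodule.subset_span ⟨a :: s, h1, by simp, by omega, rfl⟩
    have e1 : SS F t a * Wlt (SS F t) s ∈ Seq F t (a :: s).sum r :=
      Submodule.subset_span ⟨a, s, h1 a (by simp), fun b hb => h1 b (by simp [hb]), by simp,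
        by simpa using h3, rfl⟩
    have e2 : SS F t a' * Wlt (SS F t) s' ∈ Seq F t (a' :: s').sum r' :=
      Submodule.subset_span ⟨a', s', h1' a' (by simp), fun b hb => h1' b (by simp [hb]), by simp,
        by simpa using h3', rfl⟩
    rw [Wlt_cons, Wlt_cons, psum_mul_psum, add_mul]
    refine Submodule.add_mem _ (psum_mem (ih.p2 (by omega) e1 (psum_mem e2)))
      (psum_mem (Submodule.add_mem _ ?_ (ih.p3 ht (by omega) e1 e2)))
    rw [mul_comm, add_comm (a :: s).sum, add_comm r]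
    exact ih.p2 (by omega) e2 (psum_mem e1)

lemma Tr.mul_lt (ht : Tr F t) (hx : x ∈ Slt F t w r) (hy : y ∈ Slt F t w' r') :
    x * y ∈ Slt F t (w + w') (r + r') := ht.clos _ _ _ _ _ _ _ (Nat.lt_succ_self _) hx hy

lemma Tr.mul_eq_lt (ht : Tr F t) (hx : x ∈ Seq F t w r) (hy : y ∈ Slt F t w' r') :
    x * y ∈ Seq F t (w + w') (r + r') := (ht.clos _).p2 le_rfl hx hy

lemma Tr.mul_eq (ht : Tr F t) (hx : x ∈ Seq F t w r) (hy : y ∈ Seq F t w' r') :
    x * y ∈ Seq F t (w + w') (r + r') := (ht.clos _).p3 ht le_rfl hx hy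

lemma length_le_sum {s : List ℕ} (h : ∀ a ∈ s, 1 ≤ a) : s.length ≤ s.sum := by
  simpa using List.card_nsmul_le_sum s 1 h

lemma Seq_le_self : Seq F t w r ≤ Seq F t w w :=
  Submodule.span_mono fun _ ⟨a, s, h0, h1, h2, _, h4⟩ =>
    ⟨a, s, h0, h1, h2, by have := length_le_sum h1; omega, h4⟩

lemma Seq_zero_right : Seq F t w 0 = ⊥ := by
  rw [Seq, Submodule.span_eq_bot]
  rintro _ ⟨a, s, -, -, -, h, -⟩
  omega

lemma Seq_zero_left : Seq F t 0 r = ⊥ := eq_bot_iff.2 (Seq_le_self.trans Seq_zero_right.le)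

lemma Slt_zero_right (hw : 1 ≤ w) : Slt F t w 0 = ⊥ := by
  rw [Slt, Submodule.span_eq_bot]
  rintro _ ⟨s, -, h1, h, -⟩
  obtain rfl : s = [] := List.length_eq_zero_iff.1 (by omega)
  simp at h1
  omega

lemma Seq_one : Seq F t w 1 ≤ Submodule.span k {SS F t w} := by
  refine Submodule.span_mono ?_
  rintro _ ⟨a, s, -, -, h1, h, rfl⟩
  obtain rfl : s = [] := List.length_eq_zero_iff.1 (by omega)
  simp at h1
  simp [Wlt_nil, h1]

end Pool.Agent.MP_cbe134_nt.FF
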