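import Pool.Agent.MP_cbe134_nt.FFCarlitz

/-! Carlitz's additive polynomials. -/

open Finset Polynomial

namespace Pool.Agent.MP_cbe134_nt.FF

/-- the size of the constant field -/
abbrev qq (F : Type*) [Fintype F] : ℕ := Fintype.card F

variable {F k : Type*} [Field F] [Fintype F] [Field k] [Algebra F k] {t : k}

lemma two_le_q : 2 ≤ qq F := Fintype.one_lt_card

variable (F k) in
/-- the map `x ↦ x ^ q ^ j` -/
noncomputable def frp (j : ℕ) : k →ₐ[F] k := FiniteField.frobeniusAlgHom F k ^ j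

lemma frp_apply (j : ℕ) (x : k) : frp F k j x = x ^ qq F ^ j := by
  rw [frp, AlgHom.coe_pow, FiniteField.coe_frobeniusAlgHom, pow_iterate]

lemma sub_pow_qpow (j : ℕ) (x y : k) : (x - y) ^ qq F ^ j = x ^ qq F ^ j - y ^ qq F ^ j := by
  simp only [← frp_apply, map_sub]

lemma sub_pow_q (x y : k) : (x - y) ^ qq F = x ^ qq F - y ^ qq F := by
  simpa using sub_pow_qpow (F := F) 1 x y

lemma sum_pow_q {α : Type*} (A : Finset α) (f : α → k) :
    (∑ a ∈ A, f a) ^ qq F = ∑ a ∈ A, f a ^ qq F := by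
  have := map_sum (frp F k 1) f A
  simpa only [frp_apply, pow_one] using this

variable (F) in
/-- transcendence of `t` -/
def Tr (t : k) : Prop := Function.Injective (aeval t : F[X] →ₐ[F] k)

omit [Fintype F] in
lemma Tr.pow_inj (ht : Tr F t) {i j : ℕ} (h : t ^ i = t ^ j) : i = j := by
  have : (X ^ i : F[X]) = X ^ j := ht (by simpa using h)
  simpa using congrArg natDegree this

lemma Tr.tq_ne (ht : Tr F t) {i j : ℕ} (h : i ≠ j) : t ^ qq F ^ i ≠ t ^ qq F ^ j :=
  fun e => h (Nat.pow_right_injective two_le_q (ht.pow_inj e))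

lemma Tr.t_ne (ht : Tr F t) (i : ℕ) : t ≠ (t ^ qq F) ^ qq F ^ i := by
  have := ht.tq_ne (Nat.zero_ne_add_one i)
  rwa [pow_zero, pow_one, pow_succ', pow_mul] at this

variable (F t) in
/-- the Carlitz factorial -/
noncomputable def DD (i : ℕ) : k := ∏ j ∈ range i, (t ^ qq F ^ i - t ^ qq F ^ j)

variable (F t) in
/-- `ℓ_d` -/
noncomputable def LL (d : ℕ) : k := ell (qq F) t (t ^ qq F) d

lemma Tr.DD_ne (ht : Tr F t) (i : ℕ) : DD F t i ≠ 0 :=
  prod_ne_zero_iff.2 fun _ hj => sub_ne_zero.2 (ht.tq_ne (mem_range.1 hj).ne')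

lemma Tr.LL_ne (ht : Tr F t) (d : ℕ) : LL F t d ≠ 0 := ell_ne ht.t_ne d

lemma DD_succ (i : ℕ) : DD F t (i + 1) = (t ^ qq F ^ (i + 1) - t) * DD F t i ^ qq F := by
  rw [DD, DD, prod_range_succ', mul_comm, pow_zero, pow_one, ← prod_pow]
  congr 1
  refine prod_congr rfl fun j _ => ?_
  rw [sub_pow_q, ← pow_mul, ← pow_mul, ← pow_succ, ← pow_succ]

omit [Algebra F k] [Field F] in
lemma LL_succ (d : ℕ) : LL F t (d + 1) = LL F t d * (t - t ^ qq F ^ (d + 1)) := by
  rw [LL, ell_succ, ← pow_mul, ← pow_succ', LL]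

variable (F t) in
/-- coefficients of Carlitz's polynomials -/
noncomputable def aa (i j : ℕ) : k := (DD F t i * LL F t j ^ qq F ^ i)⁻¹

lemma Tr.aa_left (ht : Tr F t) (i j : ℕ) :
    aa F t (i + 1) j * (t ^ qq F ^ (i + 1) - t) = aa F t i j ^ qq F := by
  have h1 := ht.DD_ne (i + 1)
  rw [DD_succ] at h1
  have h2 := left_ne_zero_of_mul h1
  have h3 := ht.DD_ne i
  have h4 := ht.LL_ne j
  rw [aa, aa, DD_succ, inv_pow, mul_pow, ← pow_mul, ← pow_succ]
  field_simp

lemma Tr.aa_right (ht : Tr F t) (i j : ℕ) :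
    aa F t i (j + 1) * (t ^ qq F ^ i - t ^ qq F ^ (i + j + 1)) = aa F t i j := by
  have h2 : t ^ qq F ^ i - t ^ qq F ^ (i + j + 1) ≠ 0 := sub_ne_zero.2 (ht.tq_ne (by omega))
  have h3 := ht.DD_ne i
  have h4 := ht.LL_ne j
  rw [aa, aa, LL_succ, mul_pow, sub_pow_qpow, ← pow_mul, ← pow_add,
    show j + 1 + i = i + j + 1 by omega]
  field_simp

variable (F t) in
/-- Carlitz's polynomial `ψ_d` -/
noncomputable def psi (d : ℕ) : k[X] :=
  ∑ p ∈ antidiagonal d, C (aa F t p.1 p.2) * X ^ qq F ^ p.1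

omit [Field F] [Algebra F k] in
lemma eval_psi (d : ℕ) (x : k) :
    (psi F t d).eval x = ∑ p ∈ antidiagonal d, aa F t p.1 p.2 * x ^ qq F ^ p.1 := by
  simp [psi, eval_finsetSum]

lemma Tr.psi_mul (ht : Tr F t) (d : ℕ) (x : k) : (psi F t (d + 1)).eval (t * x) =
    t * (psi F t (d + 1)).eval x + (psi F t d).eval x ^ qq F := by
  simp only [eval_psi, Nat.sum_antidiagonal_succ, sum_pow_q, mul_add, mul_sum, pow_zero, pow_one]
  rw [add_assoc, ← sum_add_distrib, mul_left_comm]
  congr 1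
  refine sum_congr rfl fun p _ => ?_
  rw [mul_pow, mul_pow, ← ht.aa_left, ← pow_mul, ← pow_succ]
  ring

lemma Tr.psi_one (ht : Tr F t) (d : ℕ) : (psi F t d).eval 1 = if d = 0 then 1 else 0 := by
  induction d with
  | zero => simp [eval_psi, aa, DD, LL, ell]
  | succ d ih =>
    have h2 : t - t ^ qq F ^ (d + 1) ≠ 0 := by
      simpa using sub_ne_zero.2 (ht.tq_ne (Nat.zero_ne_add_one d))
    have h3 : ∑ p ∈ antidiagonal (d + 1), aa F t p.1 p.2 * (t ^ qq F ^ p.1 - t) =
        (psi F t d).eval 1 ^ qq F := by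
      simp [eval_psi, Nat.sum_antidiagonal_succ, sum_pow_q, ht.aa_left]
    have h4 : ∑ p ∈ antidiagonal (d + 1), aa F t p.1 p.2 * (t ^ qq F ^ p.1 - t ^ qq F ^ (d + 1)) =
        (psi F t d).eval 1 := by
      simp only [eval_psi, Nat.sum_antidiagonal_succ', sub_self, mul_zero, zero_add, one_pow,
        mul_one]
      refine sum_congr rfl fun p hp => ?_
      rw [← mem_antidiagonal.1 hp, ht.aa_right]
    have h5 : (psi F t (d + 1)).eval 1 * (t - t ^ qq F ^ (d + 1)) = 0 := by
      have : (psi F t d).eval 1 ^ qq F = (psi F t d).eval 1 := by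
        rw [ih]
        have := two_le_q (F := F)
        split_ifs
        · simp
        · rw [zero_pow (by omega)]
      rw [← h4, eq_comm, ← sub_eq_zero] at this
      rw [← this, h4, ← h3, ← h4, ← sum_sub_distrib, eval_psi, sum_mul]
      exact sum_congr rfl fun p _ => by ring
    simpa [h2] using h5

lemma Tr.psi_pow (ht : Tr F t) (j d : ℕ) (h : j ≤ d) :
    (psi F t d).eval (t ^ j) = if j = d then 1 else 0 := by
  induction j generalizing d with
  | zero => rw [pow_zero, ht.psi_one]; simp [eq_comm]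
  | succ j ih =>
    obtain ⟨d, rfl⟩ : ∃ e, d = e + 1 := ⟨d - 1, by omega⟩
    rw [pow_succ', ht.psi_mul, ih _ (by omega), ih _ (by omega), if_neg (by omega)]
    have := two_le_q (F := F)
    by_cases e : j = d
    · simp [e]
    · simp [e, show qq F ≠ 0 by omega]

variable (F t) in
/-- `ψ_d` as an `F`-linear map -/
noncomputable def psiL (d : ℕ) : k →ₗ[F] k :=
  ∑ p ∈ antidiagonal d, aa F t p.1 p.2 • (frp F k p.1).toLinearMap

lemma psiL_apply (d : ℕ) (x : k) : psiL F t d x = (psi F t d).eval x := by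
  simp [psiL, eval_psi, frp_apply]

lemma Tr.psi_low (ht : Tr F t) {d : ℕ} {z : F[X]} (hz : z ∈ Low F d) :
    (psi F t d).eval (aeval t z) = 0 := by
  rw [← psiL_apply, aeval_eq_sum_range, map_sum]
  refine sum_eq_zero fun i hi => ?_
  by_cases h0 : z.coeff i = 0
  · simp [h0]
  · have : i < d := by exact_mod_cast (le_degree_of_ne_zero h0).trans_lt (mem_Low.1 hz)
    rw [map_smul, psiL_apply, ht.psi_pow i d this.le, if_neg this.ne, smul_zero]

lemma Tr.psi_mon (ht : Tr F t) {d : ℕ} {a : F[X]} (ha : a ∈ Mon F d) :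
    (psi F t d).eval (aeval t a) = 1 := by
  obtain ⟨z, hz, rfl⟩ := mem_map.1 ha
  change (psi F t d).eval (aeval t (X ^ d + z)) = 1
  rw [← psiL_apply, map_add, map_add, psiL_apply, psiL_apply, ht.psi_low hz, aeval_X_pow,
    ht.psi_pow d d le_rfl]
  simp

omit [Algebra F k] in
lemma natDegree_psi (d : ℕ) : (psi F t d).natDegree ≤ qq F ^ d :=
  natDegree_sum_le_of_forall_le _ _ fun p hp => (natDegree_C_mul_X_pow_le _ _).trans
    (Nat.pow_le_pow_right (by have := two_le_q (F := F); omega)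
      (by have := mem_antidiagonal.1 hp; omega))

lemma derivative_psi (d : ℕ) : derivative (psi F t d) = C (LL F t d)⁻¹ := by
  have hq : ((qq F : ℕ) : k) = 0 := by
    rw [← map_natCast (algebraMap F k), FiniteField.cast_card_eq_zero, map_zero]
  rw [psi, map_sum, sum_eq_single (0, d)]
  · simp [aa, DD]
  · rintro ⟨i, j⟩ hp hne
    have : i ≠ 0 := by
      rintro rfl
      exact hne (by simpa using hp)
    rw [derivative_C_mul_X_pow, Nat.cast_pow, hq, zero_pow this]
    simp
  · simp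

omit [Algebra F k] in
lemma coeff_psi_zero (d : ℕ) : (psi F t d).coeff 0 = 0 := by
  have := two_le_q (F := F)
  rw [coeff_zero_eq_eval_zero, eval_psi]
  exact sum_eq_zero fun p _ => by rw [zero_pow (by positivity), mul_zero]

variable (F t) in
/-- the universal coefficients -/
noncomputable def cc (i : ℕ) : k[X] :=
  C (DD F t i)⁻¹ * ∏ j ∈ range i, (C (t ^ qq F ^ i) - X ^ qq F ^ j)

omit [Algebra F k] in
lemma natDegree_cc (i : ℕ) : (qq F - 1) * (cc F t i).natDegree + 1 ≤ qq F ^ i := by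
  have h1 : (cc F t i).natDegree ≤ ∑ j ∈ range i, qq F ^ j :=
    (natDegree_C_mul_le _ _).trans ((natDegree_prod_le _ _).trans (sum_le_sum fun j _ =>
      (natDegree_sub_le _ _).trans (by simp)))
  have h2 := Nat.geomSum_eq (two_le_q (F := F)) i
  have h3 : 1 ≤ qq F ^ i := Nat.one_le_pow _ _ (by have := two_le_q (F := F); omega)
  have h4 := Nat.mul_div_le (qq F ^ i - 1) (qq F - 1)
  have h5 := Nat.mul_le_mul_left (qq F - 1) (h1.trans h2.le)
  omega

lemma Tr.lett_cc (ht : Tr F t) (i d : ℕ) : lett (qq F) t (t ^ qq F) (qq F ^ i) (cc F t i) d =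
    if i ≤ d then aa F t i (d - i) else 0 := by
  have e : ∀ j, ((t ^ qq F) ^ qq F ^ d) ^ qq F ^ j = t ^ qq F ^ (d + 1 + j) := fun j => by
    rw [← pow_mul, ← pow_mul]
    congr 1
    ring
  rw [lett_apply, cc]
  simp only [eval_mul, eval_C, eval_prod, eval_sub, eval_pow, eval_X, e]
  split_ifs with h
  · obtain ⟨j, rfl⟩ := Nat.exists_eq_add_of_le' h
    have h1 : ell (qq F) t (t ^ qq F) (j + i) ^ qq F ^ i = LL F t j ^ qq F ^ i *
        ∏ l ∈ range i, (t ^ qq F ^ i - t ^ qq F ^ (j + i + 1 + l)) := by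
      rw [ell, prod_range_add, mul_pow, ← prod_pow (range i)]
      congr 1
      refine prod_congr rfl fun l _ => ?_
      rw [sub_pow_qpow, ← pow_mul, ← pow_mul]
      congr 2
      ring
    have h2 : ∏ l ∈ range i, (t ^ qq F ^ i - t ^ qq F ^ (j + i + 1 + l)) ≠ 0 :=
      prod_ne_zero_iff.2 fun l _ => sub_ne_zero.2 (ht.tq_ne (by omega))
    have h3 := ht.DD_ne i
    have h4 := ht.LL_ne j
    rw [h1, aa, Nat.add_sub_cancel]
    field_simp
  · rw [prod_eq_zero (i := i - (d + 1)) (mem_range.2 (by omega))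
      (by rw [show d + 1 + (i - (d + 1)) = i by omega, sub_self])]
    simp

lemma Tr.coeff_psi_mul (ht : Tr F t) (d n : ℕ) (G : PowerSeries k) :
    PowerSeries.coeff n ((psi F t d : PowerSeries k) * G) = ∑ i ∈ range (n + 1),
      if qq F ^ i ≤ n then lett (qq F) t (t ^ qq F) (qq F ^ i) (cc F t i) d *
        PowerSeries.coeff (n - qq F ^ i) G else 0 := by
  have h1 : PowerSeries.coeff n ((psi F t d : PowerSeries k) * G) = ∑ i ∈ range (d + 1),
      if qq F ^ i ≤ n then lett (qq F) t (t ^ qq F) (qq F ^ i) (cc F t i) d *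
        PowerSeries.coeff (n - qq F ^ i) G else 0 := by
    rw [psi, Nat.sum_antidiagonal_eq_sum_range_succ_mk, ← coeToPowerSeries.ringHom_apply, map_sum,
      sum_mul, map_sum]
    refine sum_congr rfl fun i hi => ?_
    rw [ht.lett_cc, if_pos (Nat.lt_succ_iff.1 (mem_range.1 hi)), coeToPowerSeries.ringHom_apply,
      Polynomial.coe_mul, coe_C, Polynomial.coe_pow, coe_X, mul_assoc, PowerSeries.coeff_C_mul,
      PowerSeries.coeff_X_pow_mul']
    simp
  rw [h1, sum_subset (range_subset_range.2 (by omega : d + 1 ≤ n + d + 1)),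
    sum_subset (range_subset_range.2 (by omega : n + 1 ≤ n + d + 1))]
  · intro i _ hi
    have := Nat.lt_pow_self (two_le_q (F := F)) (n := i)
    rw [if_neg (by simp at hi; omega)]
  · intro i _ hi
    rw [ht.lett_cc, if_neg (c := i ≤ d) (by simp at hi; omega)]
    simp

end Pool.Agent.MP_cbe134_nt.FF
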