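import Pool.Agent.MP_cbe134_nt.FFPsi

/-! Power sums as letters. -/

open Finset Polynomial

namespace Pool.Agent.MP_cbe134_nt.FF

variable {F k : Type*} [Field F] [Fintype F] [Field k] [Algebra F k] {t : k}

variable (F t) in
/-- the power sum `S_d(s)` -/
noncomputable def SS (s d : ℕ) : k := ∑ a ∈ Mon F d, (aeval t a)⁻¹ ^ s

variable (F t) in
/-- the power sum over all polynomials of degree `< d` -/
noncomputable def RR (s d : ℕ) : k := ∑ z ∈ Low F d, (aeval t z)⁻¹ ^ s

variable (F t) in
/-- letters at the point `θ^q` -/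
noncomputable abbrev letK (s : ℕ) : k[X] →ₗ[k] (ℕ → k) := lett (qq F) t (t ^ qq F) s

variable (k) in
/-- polynomials of degree at most `s / (q - 1)` -/
noncomputable def BB (q s : ℕ) : Submodule k k[X] := degreeLT k (s / (q - 1) + 1)

lemma mem_BB {q s : ℕ} (hq : 2 ≤ q) {u : k[X]} : u ∈ BB k q s ↔ (q - 1) * u.natDegree ≤ s := by
  rw [BB, degreeLT_succ_eq_degreeLE, mem_degreeLE, mul_comm, ← Nat.le_div_iff_mul_le (by omega),
    natDegree_le_iff_degree_le]

lemma mul_mem_BB {q s s' : ℕ} (hq : 2 ≤ q) {u u' : k[X]} (h : u ∈ BB k q s) (h' : u' ∈ BB k q s') :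
    u * u' ∈ BB k q (s + s') := by
  rw [mem_BB hq] at *
  have := Nat.mul_le_mul_left (q - 1) (natDegree_mul_le (p := u) (q := u'))
  rw [mul_add] at this
  omega

lemma BB_mono {q s s' : ℕ} (h : s ≤ s') : BB k q s ≤ BB k q s' :=
  degreeLT_mono (Nat.succ_le_succ (Nat.div_le_div_right h))

omit [Fintype F] in
lemma Tr.aeval_ne (ht : Tr F t) {a : F[X]} (h : a ≠ 0) : aeval t a ≠ 0 :=
  fun e => h (ht (by simpa using e))

lemma Tr.SS_rec (ht : Tr F t) (n d : ℕ) : SS F t (n + 1) d = (if n = 0 then (LL F t d)⁻¹ else 0) +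
    ∑ i ∈ range (n + 1), if qq F ^ i ≤ n then letK F t (qq F ^ i) (cc F t i) d *
      SS F t (n - qq F ^ i + 1) d else 0 := by
  have h := mul_geom (Mon F d) (fun a => aeval t a) (fun a ha => ht.aeval_ne (mem_Mon.1 ha).1.ne_zero)
    ht.injOn (psi F t d - 1) (by
      rw [card_Mon]
      exact (natDegree_sub_le _ _).trans (max_le (natDegree_psi d) (by simp)))
    (fun a ha => by simp [ht.psi_mon ha])
  have h2 := congrArg (PowerSeries.coeff n) h
  rw [Polynomial.coe_sub, sub_mul, map_sub, ht.coeff_psi_mul, derivative_sub, derivative_psi] at h2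
  simp only [PowerSeries.coeff_mk, Polynomial.coe_one, one_mul, derivative_one, sub_zero, coe_C,
    map_neg, PowerSeries.coeff_C] at h2
  simp only [SS]
  linear_combination -h2

lemma Tr.SS_one (ht : Tr F t) : SS F t 1 = letK F t 1 1 := by
  ext d
  rw [ht.SS_rec 0 d]
  simp [lett_apply, LL]

omit [Algebra F k] in
lemma cc_mem (i : ℕ) : cc F t i ∈ BB k (qq F) (qq F ^ i - 1) := by
  have := natDegree_cc (F := F) (t := t) i
  rw [mem_BB two_le_q]
  omega

lemma Tr.exists_H (ht : Tr F t) (n : ℕ) :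
    ∃ H ∈ BB k (qq F) n, SS F t (n + 1) = letK F t (n + 1) H := by
  suffices h : SS F t (n + 1) ∈ (BB k (qq F) n).map (letK F t (n + 1)) by
    obtain ⟨H, h1, h2⟩ := h
    exact ⟨H, h1, h2.symm⟩
  induction n using Nat.strong_induction_on with
  | _ n ih =>
    rcases Nat.eq_zero_or_pos n with rfl | hn
    · exact ⟨1, (mem_BB two_le_q).2 (by simp), ht.SS_one.symm⟩
    · have : SS F t (n + 1) = ∑ i ∈ range (n + 1), if qq F ^ i ≤ n then
          letK F t (qq F ^ i) (cc F t i) * SS F t (n - qq F ^ i + 1) else 0 := by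
        ext d
        rw [ht.SS_rec, if_neg hn.ne', zero_add, Finset.sum_apply]
        exact sum_congr rfl fun i _ => by split_ifs <;> rfl
      rw [this]
      refine Submodule.sum_mem _ fun i _ => ?_
      split_ifs with hi
      · have h1 : 1 ≤ qq F ^ i := Nat.one_le_pow _ _ (by have := two_le_q (F := F); omega)
        obtain ⟨H, h2, h3⟩ := ih (n - qq F ^ i) (by omega)
        refine ⟨cc F t i * H, BB_mono (by omega) (mul_mem_BB two_le_q (cc_mem i) h2), ?_⟩
        rw [← h3, lett_mul]
        congr 2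
        omega
      · exact Submodule.zero_mem _

variable (F t) in
/-- the coefficients of `x / (ℓ_d ψ_d(x))` -/
noncomputable def rr (n d : ℕ) : k := if n = 0 then 1 else -RR F t n d

lemma Tr.rr_rec (ht : Tr F t) {n : ℕ} (hn : 1 ≤ n) : rr F t n = -∑ i ∈ range (n + 1),
    if qq F ^ (i + 1) ≤ n + 1 then letK F t (qq F ^ (i + 1) - 1) (cc F t (i + 1)) *
      rr F t (n + 1 - qq F ^ (i + 1)) else 0 := by
  classical
  ext d
  have hX : psi F t d = X * (psi F t d).divX := by
    rw [← add_zero (X * _), ← C_0, ← coeff_psi_zero (F := F) (t := t) d, X_mul_divX_add]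
  have h := mul_geom ((Low F d).erase 0) (fun a => aeval t a)
    (fun a ha => ht.aeval_ne (mem_erase.1 ha).1) ht.injOn (psi F t d).divX (by
      rw [card_erase_of_mem (mem_Low.2 (by simp)), card_Low, natDegree_divX_eq_natDegree_tsub_one]
      exact Nat.sub_le_sub_right (natDegree_psi d) 1)
    (fun a ha => by
      have := ht.psi_low (mem_erase.1 ha).2
      rw [hX, eval_mul, eval_X] at this
      exact (mul_eq_zero.1 this).resolve_left (ht.aeval_ne (mem_erase.1 ha).1))
  have h1 : PowerSeries.mk (fun n => rr F t n d) = 1 - PowerSeries.X *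
      PowerSeries.mk (fun n => ∑ a ∈ (Low F d).erase 0, (aeval t a)⁻¹ ^ (n + 1)) := by
    ext m
    cases m with
    | zero => simp [rr]
    | succ m =>
      rw [map_sub, PowerSeries.coeff_succ_X_mul, PowerSeries.coeff_mk, PowerSeries.coeff_mk,
        sum_erase _ (by simp)]
      simp [rr, RR, PowerSeries.coeff_one]
  have h2 : (psi F t d : PowerSeries k) * PowerSeries.mk (fun n => rr F t n d) =
      PowerSeries.X * PowerSeries.C (LL F t d)⁻¹ := by
    have h3 := derivative_psi (F := F) (t := t) d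
    rw [hX, derivative_mul, derivative_X, one_mul] at h3
    rw [h1, hX, ← coe_C, ← h3]
    simp only [Polynomial.coe_mul, Polynomial.coe_add, coe_X]
    linear_combination (-PowerSeries.X ^ 2) * h
  have h3 := congrArg (PowerSeries.coeff (n + 1)) h2
  rw [ht.coeff_psi_mul, PowerSeries.coeff_succ_X_mul, PowerSeries.coeff_C, if_neg (by omega),
    sum_range_succ', pow_zero, if_pos (by omega)] at h3
  simp only [PowerSeries.coeff_mk, Nat.add_sub_cancel] at h3
  have h4 := ht.LL_ne d
  have h5 : lett (qq F) t (t ^ qq F) 1 (cc F t 0) d * LL F t d = 1 := by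
    simp only [lett_apply, cc, DD, LL] at h4 ⊢
    simp [h4]
  rw [Pi.neg_apply, Finset.sum_apply]
  have h6 : ∀ i ∈ range (n + 1), (if qq F ^ (i + 1) ≤ n + 1 then
      letK F t (qq F ^ (i + 1) - 1) (cc F t (i + 1)) * rr F t (n + 1 - qq F ^ (i + 1)) else 0) d =
      LL F t d * if qq F ^ (i + 1) ≤ n + 1 then
        lett (qq F) t (t ^ qq F) (qq F ^ (i + 1)) (cc F t (i + 1)) d *
          rr F t (n + 1 - qq F ^ (i + 1)) d else 0 := fun i _ => by
    split_ifs
    · have h7 : 1 ≤ qq F ^ (i + 1) := Nat.one_le_pow _ _ (by have := two_le_q (F := F); omega)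
      obtain ⟨m, hm⟩ := Nat.exists_eq_add_of_le' h7
      simp only [Pi.mul_apply, lett_apply, LL] at h4 ⊢
      rw [hm, Nat.add_sub_cancel, pow_succ]
      field_simp
    · simp
  rw [sum_congr rfl h6, ← mul_sum]
  linear_combination LL F t d * h3 - rr F t n d * h5

lemma Tr.exists_E (ht : Tr F t) (n : ℕ) : ∃ E ∈ BB k (qq F) n, rr F t n = letK F t n E := by
  suffices h : rr F t n ∈ (BB k (qq F) n).map (letK F t n) by
    obtain ⟨H, h1, h2⟩ := h
    exact ⟨H, h1, h2.symm⟩
  induction n using Nat.strong_induction_on with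
  | _ n ih =>
    rcases Nat.eq_zero_or_pos n with rfl | hn
    · exact ⟨1, (mem_BB two_le_q).2 (by simp), by rw [lett_one]; ext d; simp [rr]⟩
    · rw [ht.rr_rec hn]
      refine Submodule.neg_mem _ (Submodule.sum_mem _ fun i _ => ?_)
      split_ifs with hi
      · have h1 : 1 < qq F ^ (i + 1) := Nat.one_lt_pow (by omega) two_le_q
        obtain ⟨H, h2, h3⟩ := ih (n + 1 - qq F ^ (i + 1)) (by omega)
        refine ⟨cc F t (i + 1) * H, BB_mono (by omega) (mul_mem_BB two_le_q (cc_mem _) h2), ?_⟩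
        rw [← h3, lett_mul]
        congr 2
        omega
      · exact Submodule.zero_mem _

lemma Tr.rr_small (ht : Tr F t) {j : ℕ} (hj : j ≤ qq F) :
    rr F t (j * (qq F - 1)) = letK F t (j * (qq F - 1)) ((-cc F t 1) ^ j) := by
  have hq := two_le_q (F := F)
  induction j with
  | zero => simp only [zero_mul, pow_zero, lett_one]; ext d; simp [rr]
  | succ j ih =>
    obtain ⟨p, hp⟩ : ∃ p, qq F = p + 1 := ⟨qq F - 1, by omega⟩
    have hp' : qq F - 1 = p := by omega
    rw [hp'] at ih ⊢
    have h1 : 1 ≤ (j + 1) * p := Nat.mul_pos (by omega) (by omega)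
    rw [ht.rr_rec h1, sum_eq_single 0, zero_add, pow_one, if_pos (by nlinarith),
      show (j + 1) * p + 1 - qq F = j * p by rw [hp, add_mul]; omega, ih (by omega), lett_mul,
      ← map_neg, hp', show p + j * p = (j + 1) * p by ring]
    · congr 1
      ring
    · intro i _ hi
      rw [if_neg]
      have h2 : qq F ^ 2 ≤ qq F ^ (i + 1) := Nat.pow_le_pow_right (by omega) (by omega)
      have h3 : (j + 1) * p ≤ qq F * p := Nat.mul_le_mul_right _ hj
      rw [hp] at h2 h3 ⊢
      nlinarith
    · simp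

omit [Algebra F k] [Field F] in
lemma cc_one : cc F t 1 = C (t ^ qq F - t)⁻¹ * (C (t ^ qq F) - X) := by
  simp [cc, DD]

lemma RR_eq {s : ℕ} (hs : 1 ≤ s) :
    RR F t s = (if (qq F - 1) ∣ s then -1 else 0 : k) • psum k (SS F t s) := by
  classical
  rw [← map_smul]
  refine eq_psum ?_ fun d => ?_
  · refine sum_eq_zero fun z hz => ?_
    have : z = 0 := by simpa [mem_Low] using hz
    simp [this, show s ≠ 0 by omega]
  · rw [RR, sum_Low_succ, RR]
    congr 1
    have h1 := congrArg (algebraMap F k) (FiniteField.sum_pow_units F s)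
    rw [← Equiv.sum_comp (Equiv.inv Fˣ)] at h1
    rw [map_sum, apply_ite (algebraMap F k), map_neg, map_one, map_zero] at h1
    rw [Pi.smul_apply, smul_eq_mul, ← h1, sum_mul]
    refine sum_congr rfl fun u _ => ?_
    rw [SS, mul_sum]
    refine sum_congr rfl fun m _ => ?_
    simp [mul_pow, mul_comm]

lemma rr_eq {s : ℕ} (hs : 1 ≤ s) (h : (qq F - 1) ∣ s) : rr F t s = psum k (SS F t s) := by
  ext d
  rw [rr, if_neg (by omega), RR_eq hs, if_pos h]
  simp

lemma SS_zero (s : ℕ) : SS F t s 0 = 1 := by simp [SS, Mon_zero]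

end Pool.Agent.MP_cbe134_nt.FF
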