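import Pool.Agent.MP_cbe134_nt.FFDefs

/-! Sizes of Laurent series in `1/θ`. -/

namespace Pool.Agent.MP_cbe134_nt.FF

open WithZero Polynomial Filter Topology

variable {F : Type*} [Field F]

/-- `|x| ≤ |θ| ^ a` -/
def O (x : LaurentSeries F) (a : ℤ) : Prop := Valued.v x ≤ exp a

variable {x y : LaurentSeries F} {a b : ℤ}

lemma O.mono (h : O x a) (hab : a ≤ b) : O x b := le_trans h (exp_le_exp.2 hab)

lemma O_zero (a : ℤ) : O (0 : LaurentSeries F) a := by simp [O]

lemma O.add (h : O x a) (h' : O y a) : O (x + y) a := Valuation.map_add_le _ h h'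

lemma O.neg (h : O x a) : O (-x) a := by simpa [O] using h

lemma O.sub (h : O x a) (h' : O y a) : O (x - y) a := Valuation.map_sub_le _ h h'

lemma O.mul (h : O x a) (h' : O y b) : O (x * y) (a + b) := by
  unfold O at *
  rw [map_mul, exp_add]
  exact mul_le_mul' h h'

lemma O.pow (h : O x a) (n : ℕ) : O (x ^ n) (n * a) := by
  unfold O at *
  rw [map_pow, ← nsmul_eq_mul, exp_nsmul]
  exact pow_le_pow_left' h n

lemma O_sum {ι : Type*} {s : Finset ι} {f : ι → LaurentSeries F} (h : ∀ i ∈ s, O (f i) a) :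
    O (∑ i ∈ s, f i) a := Valuation.map_sum_le _ h

lemma O_iff : O x a ↔ ∀ n : ℤ, n < -a → x.coeff n = 0 := by
  rw [← LaurentSeries.valuation_le_iff_coeff_lt_eq_zero, neg_neg, O]

lemma v_theta : Valued.v (theta F) = exp 1 := by
  simpa [theta] using LaurentSeries.valuation_single_zpow F (-1)

lemma v_theta_pow (n : ℕ) : Valued.v (theta F ^ n) = exp (n : ℤ) := by
  rw [map_pow, v_theta, ← exp_nsmul]
  simp

lemma v_theta_zpow (n : ℤ) : Valued.v (theta F ^ n) = exp n := by
  rw [map_zpow₀, v_theta, ← exp_zsmul]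
  simp

lemma theta_ne : theta F ≠ 0 := by
  intro h
  have := v_theta (F := F)
  rw [h, map_zero] at this
  exact exp_ne_zero this.symm

lemma O_theta_pow (n : ℕ) : O (theta F ^ n) n := (v_theta_pow n).le

lemma O_theta_zpow (n : ℤ) : O (theta F ^ n) n := (v_theta_zpow n).le

lemma O_theta : O (theta F) 1 := v_theta.le

lemma O_one : O (1 : LaurentSeries F) 0 := by simp [O]

lemma coeff_algebraMap (c : F) (n : ℤ) :
    (algebraMap F (LaurentSeries F) c).coeff n = if n = 0 then c else 0 := by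
  rw [HahnSeries.algebraMap_apply', PowerSeries.algebraMap_apply, HahnSeries.ofPowerSeries_C,
    HahnSeries.C_apply, HahnSeries.coeff_single]
  simp

lemma O_algebraMap (c : F) : O (algebraMap F (LaurentSeries F) c) 0 := by
  rw [O_iff]
  intro n hn
  rw [coeff_algebraMap, if_neg (by omega)]

lemma v_algebraMap {c : F} (hc : c ≠ 0) : Valued.v (algebraMap F (LaurentSeries F) c) = 1 := by
  refine le_antisymm (O_algebraMap c) ?_
  have h := O_algebraMap (F := F) c⁻¹
  unfold O at h
  rw [map_inv₀, map_inv₀, exp_zero] at h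
  exact (inv_le_one₀ (zero_lt_iff.2 ((Valuation.ne_zero_iff _).2 (by simpa using hc)))).1 h

lemma exists_v (hx : x ≠ 0) : ∃ a : ℤ, Valued.v x = exp a :=
  ⟨log (Valued.v x), (exp_log ((Valuation.ne_zero_iff _).2 hx)).symm⟩

lemma exists_O (x : LaurentSeries F) : ∃ a : ℕ, O x a := by
  by_cases hx : x = 0
  · exact ⟨0, hx ▸ O_zero _⟩
  · obtain ⟨a, ha⟩ := exists_v hx
    exact ⟨a.toNat, O.mono ha.le (Int.self_le_toNat a)⟩

lemma eq_zero_of_O (h : ∀ a, O x a) : x = 0 := by
  by_contra hx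
  obtain ⟨a, ha⟩ := exists_v hx
  have := h (a - 1)
  rw [O, ha, exp_le_exp] at this
  omega

lemma O.of_mul (h : O (x * y) a) (hy : Valued.v y = exp b) : O x (a - b) := by
  unfold O at *
  rw [map_mul, hy] at h
  rw [exp_sub, le_div_iff₀ (zero_lt_iff.2 exp_ne_zero)]
  exact h

lemma O.div (h : O x a) (hy : Valued.v y = exp b) : O (x / y) (a - b) := by
  have hy0 : y ≠ 0 := by
    rintro rfl
    rw [map_zero] at hy
    exact exp_ne_zero hy.symm
  exact O.of_mul (y := y) (by rwa [div_mul_cancel₀ _ hy0]) hy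

lemma v_add_of_O (hx : Valued.v x = exp a) (hy : O y (a - 1)) : Valued.v (x + y) = exp a := by
  rw [Valuation.map_add_eq_of_lt_left _ (lt_of_le_of_lt hy (hx ▸ exp_lt_exp.2 (by omega))), hx]

lemma exists_lead (h : O x 0) : ∃ c : F, O (x - algebraMap F (LaurentSeries F) c) (-1) := by
  refine ⟨x.coeff 0, O_iff.2 fun n hn => ?_⟩
  rw [HahnSeries.coeff_sub, coeff_algebraMap]
  split_ifs with h0
  · rw [h0, sub_self]
  · rw [O_iff.1 h n (by omega), sub_zero]

lemma O_aeval (p : F[X]) {d : ℤ} (hd : ∀ i, p.coeff i ≠ 0 → (i : ℤ) ≤ d) :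
    O (aeval (theta F) p) d := by
  rw [aeval_def, eval₂_eq_sum, Polynomial.sum]
  refine O_sum fun i hi => ?_
  have := (O_algebraMap (p.coeff i)).mul (O_theta_pow (F := F) i)
  exact this.mono (by simpa using hd i (mem_support_iff.1 hi))

lemma v_aeval {p : F[X]} (hp : p ≠ 0) : Valued.v (aeval (theta F) p) = exp (p.natDegree : ℤ) := by
  conv_lhs => rw [← eraseLead_add_C_mul_X_pow p, add_comm]
  rw [map_add]
  refine v_add_of_O ?_ (O_aeval _ fun i hi => ?_)
  · rw [map_mul, aeval_C, aeval_X_pow, map_mul, v_algebraMap (leadingCoeff_ne_zero.2 hp),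
      v_theta_pow, one_mul]
  · have := lt_natDegree_of_mem_eraseLead_support (mem_support_iff.2 hi)
    omega

variable (F) in
/-- the polynomials in `θ` -/
noncomputable def AA : Subalgebra F (LaurentSeries F) := (aeval (theta F)).range

lemma theta_mem : theta F ∈ AA F := ⟨X, by simp⟩

lemma v_of_mem (hx : x ∈ AA F) (h0 : x ≠ 0) : ∃ n : ℕ, Valued.v x = exp (n : ℤ) := by
  obtain ⟨p, rfl⟩ := hx
  exact ⟨_, v_aeval (by rintro rfl; simp at h0)⟩

lemma eq_zero_of_mem (hx : x ∈ AA F) (h : O x a) (ha : a < 0) : x = 0 := by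
  by_contra h0
  obtain ⟨n, hn⟩ := v_of_mem hx h0
  rw [O, hn, exp_le_exp] at h
  omega

lemma O.of_mul_mem (h : O (x * y) a) (hy : y ∈ AA F) (h0 : y ≠ 0) : O x a := by
  obtain ⟨n, hn⟩ := v_of_mem hy h0
  exact (h.of_mul hn).mono (by omega)

lemma coeff_C_mul_theta_pow (c : F) (j : ℕ) (n : ℤ) :
    (algebraMap F (LaurentSeries F) c * theta F ^ j).coeff n = if n = -j then c else 0 := by
  rw [HahnSeries.algebraMap_apply', PowerSeries.algebraMap_apply, HahnSeries.ofPowerSeries_C,
    HahnSeries.C_apply, theta, HahnSeries.single_pow, HahnSeries.single_mul_single,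
    HahnSeries.coeff_single]
  simp

lemma exists_polypart (E : ℕ) (h : ∀ l : ℕ, l < E → x.coeff ((l : ℤ) + 1) = 0) :
    ∃ y ∈ AA F, O (x - y) (-E) := by
  obtain ⟨d, hd⟩ := exists_O x
  refine ⟨∑ j ∈ Finset.range (d + 1), algebraMap F _ (x.coeff (-(j : ℤ))) * theta F ^ j,
    sum_mem fun j _ => mul_mem (algebraMap_mem _ _) (pow_mem theta_mem _), O_iff.2 fun n hn => ?_⟩
  rw [HahnSeries.coeff_sub, HahnSeries.coeff_sum]
  simp only [coeff_C_mul_theta_pow]
  rcases lt_or_ge 0 n with h0 | h0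
  · rw [Finset.sum_eq_zero fun j _ => if_neg (by omega), sub_zero]
    have := h (n - 1).toNat (by omega)
    rwa [show (((n - 1).toNat : ℕ) : ℤ) + 1 = n by omega] at this
  · rw [Finset.sum_eq_single (-n).toNat (fun j _ hj => if_neg (by omega)), if_pos (by omega),
      show -(((-n).toNat : ℕ) : ℤ) = n by omega, sub_self]
    intro hj
    rw [Finset.mem_range] at hj
    rw [if_pos (by omega)]
    exact O_iff.1 hd _ (by omega)

lemma isClosed_O (a : ℤ) : IsClosed {x : LaurentSeries F | O x a} := by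
  have h : {x : LaurentSeries F | O x a} =
      (fun x => x * theta F ^ (-a)) ⁻¹' 
        ((Valued.v : Valuation (LaurentSeries F) ℤᵐ⁰).integer : Set (LaurentSeries F)) := by
    ext x
    constructor
    · intro hx
      have h0 : O (x * theta F ^ (-a)) 0 := by simpa using O.mul hx (O_theta_zpow (-a))
      exact h0
    · intro hx
      have h0 : O (x * theta F ^ (-a)) 0 := hx
      simpa using h0.of_mul (v_theta_zpow (-a))
  rw [h]
  exact (Valued.isClosed_integer _).preimage (continuous_mul_const _)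

lemma O_of_hasSum {f : ℕ → LaurentSeries F} (hf : HasSum f x) (h : ∀ i, O (f i) a) : O x a :=
  (isClosed_O a).mem_of_tendsto hf (Eventually.of_forall fun _ => O_sum fun i _ => h i)

lemma summable_of_O {f : ℕ → LaurentSeries F} (h : ∀ a : ℤ, ∀ᶠ i in atTop, O (f i) a) :
    Summable f := by
  rw [summable_iff_vanishing]
  intro e he
  obtain ⟨γ, hγ⟩ := Valued.mem_nhds_zero.1 he
  obtain ⟨n, hn⟩ := eventually_atTop.1
    (h (log (MonoidWithZeroHom.ValueGroup₀.embedding γ.1) - 1))
  refine ⟨Finset.range n, fun t ht => hγ ?_⟩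
  rw [Set.mem_ofPred_eq, Valuation.restrict_lt_iff_lt_embedding]
  refine lt_of_le_of_lt (O_sum fun i hi => hn i ?_) ?_
  · have := Finset.disjoint_left.1 ht hi
    simpa using this
  · rw [← lt_log_iff_exp_lt (by simp)]
    omega

end Pool.Agent.MP_cbe134_nt.FF
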