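import Pool.Agent.MP_cbe134_nt.FFBridge

/-! A basis adapted to the depth filtration. -/

open Finset Polynomial WithZero Filter Topology

namespace Pool.Agent.MP_cbe134_nt.FF

universe u

variable {F : Type u} [Field F]

variable (F) in
/-- `θ` as an element of `F(θ)` -/
noncomputable def tK : ratField F := ⟨theta F, IntermediateField.mem_adjoin_simple_self F _⟩

variable (F) in
/-- the inclusion of `F(θ)` -/
noncomputable abbrev io : ratField F →+* LaurentSeries F := algebraMap _ _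

lemma io_tK : io F (tK F) = theta F := rfl

lemma io_aeval (p : F[X]) : io F (aeval (tK F) p) = aeval (theta F) p :=
  (aeval_algebraMap_apply (LaurentSeries F) (tK F) p).symm

lemma tr_tK : Tr F (tK F) := by
  rw [Tr, injective_iff_map_eq_zero]
  intro p hp
  by_contra h
  have := v_aeval h
  rw [← io_aeval, hp, map_zero, map_zero] at this
  exact exp_ne_zero this.symm

lemma gen_tK : Gen F (tK F) := by
  intro x
  obtain ⟨r, s, h⟩ := (IntermediateField.mem_adjoin_simple_iff F _).1 x.2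
  by_cases h0 : aeval (theta F) s = 0
  · refine ⟨1, 0, by simp, ?_⟩
    rw [h0, div_zero] at h
    simpa using h
  · refine ⟨s, r, fun e => h0 (by rw [← io_aeval, e, map_zero]), (io F).injective ?_⟩
    rw [map_mul, io_aeval, io_aeval, show io F x = _ from h, mul_div_cancel₀ _ h0]

/-- limits of sequences of rational functions -/
def HasLim (x : ℕ → ratField F) (z : LaurentSeries F) : Prop :=
  Tendsto (fun d => io F (x d)) atTop (𝓝 z)

variable {x y : ℕ → ratField F} {z z' : LaurentSeries F}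

lemma HasLim.mul (h : HasLim x z) (h' : HasLim y z') : HasLim (x * y) (z * z') := by
  simpa [HasLim] using Tendsto.mul h h'

lemma HasLim.add (h : HasLim x z) (h' : HasLim y z') : HasLim (x + y) (z + z') := by
  simpa [HasLim] using Tendsto.add h h'

lemma HasLim.smul (h : HasLim x z) (c : ratField F) : HasLim (c • x) (c • z) := by
  simpa only [HasLim, Pi.smul_apply, smul_eq_mul, map_mul, Algebra.smul_def]
    using Tendsto.const_mul (io F c) h

lemma HasLim.unique (h : HasLim x z) (h' : HasLim x z') : z = z' := tendsto_nhds_unique h h'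

lemma lim_mem {G : Set (ℕ → ratField F)} {N : Submodule (ratField F) (LaurentSeries F)}
    (h : ∀ x ∈ G, ∃ z ∈ N, HasLim x z) (hx : x ∈ Submodule.span (ratField F) G) :
    ∃ z ∈ N, HasLim x z := by
  induction hx using Submodule.span_induction with
  | mem x hx => exact h x hx
  | zero => exact ⟨0, N.zero_mem, by simp [HasLim]⟩
  | add x y _ _ hx hy =>
    obtain ⟨z, h1, h2⟩ := hx
    obtain ⟨z', h1', h2'⟩ := hy
    exact ⟨_, N.add_mem h1 h1', h2.add h2'⟩
  | smul c x _ hx =>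
    obtain ⟨z, h1, h2⟩ := hx
    exact ⟨_, N.smul_mem c h1, h2.smul c⟩

variable [Fintype F]

lemma hasLim_mzv {s : List ℕ} (hs : ∀ a ∈ s, 1 ≤ a) : HasLim (Wlt (SS F (tK F)) s) (mzv F s) := by
  refine (tendsto_mzv hs).congr fun d => ?_
  rw [Wlt_map]
  congr 1
  ext1 a
  ext1 e
  simp only [SS, map_sum, map_pow, map_inv₀, io_aeval]

lemma lim_Slt {w r : ℕ} (hx : x ∈ Slt F (tK F) w r) : ∃ z ∈ Fil F r w, HasLim x z := by
  refine lim_mem ?_ hx
  rintro _ ⟨s, h1, h2, h3, rfl⟩
  exact ⟨_, Submodule.subset_span ⟨s, h1, h2, h3, rfl⟩, hasLim_mzv h1⟩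

lemma pt_zero : Pt (qq F) (theta F) (theta F ^ qq F) (qq F) := by
  simpa using pt_eval (F := F) 0

lemma io_lett (s : ℕ) (v : (ratField F)[X]) (d : ℕ) : io F (letK F (tK F) s v d) =
    lett (qq F) (theta F) (theta F ^ qq F) s (v.map (io F)) d := by
  rw [map_lett, map_pow, io_tK]

lemma hasLim_small {s : ℕ} (hs : 1 ≤ s) {v : (ratField F)[X]} (hv : v ∈ BB _ (qq F) (s - 1)) :
    HasLim (letK F (tK F) s v) 0 := by
  choose c hc using fun i => exists_O ((v.map (io F)).coeff i)
  have h := pt_zero (F := F)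
  have h1 := (mem_BB two_le_q).1 hv
  have h2 := Nat.mul_le_mul_left (qq F - 1) (natDegree_map_le (p := v) (f := io F))
  refine (summable_of_O' h.hQ' (h.O_lett (δ := ((v.map (io F)).support.sup c : ℕ)) (s := s)
    (fun i => ?_) (by omega))).tendsto_atTop_zero.congr fun d => (io_lett _ _ _).symm
  by_cases h0 : (v.map (io F)).coeff i = 0
  · rw [h0]
    exact O_zero _
  · have h3 := (le_sup (f := c) (mem_support_iff.2 h0)).trans
      (Nat.le_mul_of_pos_left _ (show 0 < qq F from h.hQ))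
    exact (hc i).mono (by exact_mod_cast h3)

variable (F) in
/-- the period -/
noncomputable def per : LaurentSeries F := lim (PiS (qq F) (theta F) (theta F ^ qq F))

lemma hasLim_Z (j : ℕ) :
    HasLim (letK F (tK F) (j * (qq F - 1)) ((C (tK F ^ qq F) - X) ^ j)) (per F ^ j) := by
  have h := pt_zero (F := F)
  refine ((h.good_PiS.tendsto h.hQ').pow j).congr fun d => ?_
  rw [← lett_pow, Pi.pow_apply, map_pow, io_lett]
  rw [PiS, Polynomial.map_sub, map_C, map_X, map_pow (io F), io_tK]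

lemma hasLim_BB {s : ℕ} {b : (ratField F)[X]} (hb : b ∈ BB _ (qq F) s) :
    ∃ (c : ratField F) (j : ℕ), (c ≠ 0 → s = j * (qq F - 1)) ∧
      HasLim (letK F (tK F) s b) (c • per F ^ j) := by
  have hq := two_le_q (F := F)
  rw [mem_BB hq] at hb
  rcases hb.lt_or_eq with h | h
  · exact ⟨0, 0, by simp, by
      simpa using hasLim_small (by omega) ((mem_BB hq).2 (by omega))⟩
  obtain ⟨j, hj⟩ : ∃ j, b.natDegree = j := ⟨_, rfl⟩
  rw [hj, mul_comm] at h
  subst h
  have h1 : ((C (tK F ^ qq F) - X) ^ j).natDegree = j := by rw [natDegree_pow, natDegree_Y, mul_one]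
  have h2 : ((C (tK F ^ qq F) - X) ^ j).coeff j ≠ 0 := by
    have := leadingCoeff_ne_zero.2 (pow_ne_zero j (Y_ne (tK F ^ qq F)))
    rwa [leadingCoeff, h1] at this
  refine ⟨b.coeff j / ((C (tK F ^ qq F) - X) ^ j).coeff j, j, fun _ => rfl, ?_⟩
  have h3 := (hasLim_Z j).smul (b.coeff j / ((C (tK F ^ qq F) - X) ^ j).coeff j)
  rw [← map_smul] at h3
  generalize (C (tK F ^ qq F) - X) ^ j = Z at *
  rcases Nat.eq_zero_or_pos j with rfl | hj0
  · rw [eq_C_of_natDegree_eq_zero h1, smul_C, coeff_C_zero, smul_eq_mul, div_mul_cancel₀ _ h2,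
      ← eq_C_of_natDegree_eq_zero hj] at h3
    rwa [eq_C_of_natDegree_eq_zero h1, coeff_C_zero]
  have h4 : (b - (b.coeff j / Z.coeff j) • Z).natDegree ≤ j - 1 := by
    rw [natDegree_le_iff_coeff_eq_zero]
    intro i hi
    rcases (show j ≤ i by omega).eq_or_lt with rfl | hi
    · simp [h2]
    · simp [coeff_eq_zero_of_natDegree_lt (hj.trans_lt hi),
        coeff_eq_zero_of_natDegree_lt (h1.trans_lt hi)]
  have h5 := (hasLim_small (s := j * (qq F - 1)) (Nat.mul_pos hj0 (by omega))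
    (v := b - (b.coeff j / Z.coeff j) • Z) ((mem_BB hq).2 (by
      obtain ⟨i, rfl⟩ := Nat.exists_eq_add_of_le' hj0
      have := Nat.mul_le_mul_left (qq F - 1) h4
      rw [Nat.add_sub_cancel] at this
      rw [add_mul, mul_comm i]
      omega))).add h3
  rwa [← map_add, sub_add_cancel, zero_add] at h5

lemma hasLim_zeta {s : ℕ} (hs : 1 ≤ s) : HasLim (psum _ (SS F (tK F) s)) (mzv F [s]) := by
  have := hasLim_mzv (F := F) (s := [s]) (by simpa using hs)
  rwa [Wlt_cons, Wlt_nil, mul_one] at this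

lemma gg_one {s : ℕ} (hs : 1 ≤ s) (h : ¬(qq F - 1) ∣ s) : gg F (tK F) s 1 = 1 := by
  refine tr_tK.gg_one hs fun b hb e => ?_
  obtain ⟨c, j, h1, h2⟩ := hasLim_BB hb
  have h3 : c = 0 := by_contra fun h3 => h (h1 h3 ▸ Dvd.intro_left _ rfl)
  rw [e, h3, zero_smul] at h2
  exact mzv_ne hs ((hasLim_zeta hs).unique h2)

lemma exists_per {j : ℕ} (hj : 1 ≤ j) :
    ∃ x ∈ Slt F (tK F) (j * (qq F - 1)) 1, HasLim x (per F ^ j) := by
  have hq := two_le_q (F := F)
  have hs : 1 ≤ j * (qq F - 1) := Nat.mul_pos hj (by omega)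
  obtain ⟨E, h1, h2⟩ := tr_tK.exists_E (F := F) (j * (qq F - 1))
  obtain ⟨c, i, h3, h4⟩ := hasLim_BB h1
  rw [← h2, rr_eq hs (Dvd.intro_left _ rfl)] at h4
  have h5 : c ≠ 0 := fun e => mzv_ne hs (by rw [(hasLim_zeta hs).unique h4, e, zero_smul])
  obtain rfl := Nat.eq_of_mul_eq_mul_right (by omega) (h3 h5)
  refine ⟨_, Submodule.smul_mem _ c⁻¹ (psum_mem (SS_mem hs)), ?_⟩
  have := h4.smul c⁻¹
  rwa [smul_smul, inv_mul_cancel₀ h5, one_smul] at this

variable {P : Let F (tK F) → F[X][X]}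

/-- the value of a word -/
noncomputable def valW (P : Let F (tK F) → F[X][X]) (L : List (Let F (tK F))) : LaurentSeries F :=
  lim (Wlt (fun l => lett (qq F) (theta F) (theta F ^ qq F) l.wt (uL P l)) L)

lemma tendsto_valW (hP : Adapted F (tK F) P) (L : List (Let F (tK F))) :
    Tendsto (Wlt (fun l => lett (qq F) (theta F) (theta F ^ qq F) l.wt (uL P l)) L) atTop
      (𝓝 (valW P L)) := (pt_zero.good_word O_uL (tr_tK.deg_uL hP) L).tendsto pt_zero.hQ'

lemma hasLim_word (hP : Adapted F (tK F) P) (L : List (Let F (tK F))) :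
    HasLim (Wlt (la P) L) (valW P L) := by
  refine (tendsto_valW hP L).congr fun d => ?_
  rw [Wlt_map]
  congr 1
  ext1 l
  ext1 e
  rw [la, io_lett, mp, Polynomial.map_map, uL,
    show evT F = (io F).comp (aeval (tK F) : F[X] →ₐ[F] _).toRingHom from
      RingHom.ext fun p => (io_aeval p).symm]

lemma TL_eq (hP : Adapted F (tK F) P) (A : ℕ × List (Let F (tK F))) :
    TL P 0 A = per F ^ A.1 * valW P A.2 := by
  rw [TL, zero_add, pow_one]
  exact (((pt_zero.good_PiS.tendsto pt_zero.hQ').pow A.1).mul (tendsto_valW hP A.2)).limUnder_eq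

/-- the depth of a state -/
def depS {ι : Type*} (r : ι → ℕ) (A : ℕ × List ι) : ℕ := min A.1 1 + (A.2.map r).sum

lemma Fil_eq (hP : Adapted F (tK F) P) (r w : ℕ) : Fil F r w = Submodule.span (ratField F)
    (TL P 0 '' {A | wtS (qq F) Let.wt A = w ∧ depS Let.dep A ≤ r}) := by
  refine le_antisymm (Submodule.span_le.2 ?_) (Submodule.span_le.2 ?_)
  · rintro _ ⟨s, h1, h2, h3, rfl⟩
    refine (lim_mem (N := Submodule.span (ratField F)
      (TL P 0 '' {A | wtS (qq F) Let.wt A = w ∧ depS Let.dep A ≤ r})) ?_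
      (tr_tK.Slt_le hP w r (Submodule.subset_span ⟨s, h1, h2, h3, rfl⟩))).elim
        fun z hz => by rw [(hasLim_mzv h1).unique hz.2]; exact hz.1
    clear h1 h2 h3 s
    rintro _ ⟨s, ρ, b, L, h4, h5, h6, rfl⟩
    obtain ⟨c, j, h7, h8⟩ := hasLim_BB h4.1
    by_cases h0 : 1 ≤ s ∧ ρ = 0
    · have h9 : letK F (tK F) s b ∈ Slt F (tK F) s ρ := h4.2
      rw [h0.2, Slt_zero_right h0.1, Submodule.mem_bot] at h9
      exact ⟨0, zero_mem _, by simp [h9, HasLim]⟩
    refine ⟨_, ?_, h8.mul (hasLim_word hP L)⟩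
    by_cases hc : c = 0
    · simp [hc]
    rw [smul_mul_assoc]
    refine Submodule.smul_mem _ _ (Submodule.subset_span ⟨(j, L), ⟨?_, ?_⟩, TL_eq hP _⟩)
    · rw [← h5, h7 hc]
      rfl
    · have h9 := h7 hc
      have hq := two_le_q (F := F)
      have h10 := Nat.mul_le_mul_left j (show 1 ≤ qq F - 1 by omega)
      simp only [depS, depL] at h6 ⊢
      omega
  · rintro _ ⟨⟨j, L⟩, ⟨rfl, h2⟩, rfl⟩
    obtain ⟨x, h3, h4⟩ : ∃ x ∈ Slt F (tK F) (j * (qq F - 1)) (min j 1), HasLim x (per F ^ j) := by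
      rcases Nat.eq_zero_or_pos j with rfl | hj
      · exact ⟨1, by simpa using one_mem_Slt, by simp [HasLim]⟩
      · rw [min_eq_right hj]
        exact exists_per hj
    obtain ⟨z, h5, h6⟩ := lim_Slt (Slt_mono h2 (tr_tK.mul_lt h3 (tr_tK.word_mem hP L)))
    rwa [TL_eq hP, (h4.mul (hasLim_word hP L)).unique h6]

theorem indep (hP : Adapted F (tK F) P) (w : ℕ) :
    LinearIndepOn (ratField F) (TL P 0) {A | wtS (qq F) Let.wt A = w} := by
  classical
  have ht := tr_tK (F := F)
  rw [linearIndepOn_iff']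
  intro T c hT h
  let c' : ht.St w → ratField F := fun A => if A.1 ∈ T then c A else 0
  choose d n hd hn using fun A => gen_tK (c' A)
  have h1 : ∑ A : ht.St w, c' A • TL P 0 A.1 = 0 := by
    rw [sum_coe_sort (ht.St w) fun A => (if A ∈ T then c A else 0) • TL P 0 A, ← h]
    simp only [ite_smul, zero_smul, ← sum_filter]
    congr 1
    ext A
    simpa using fun hA => ht.mem_St.2 (le_of_eq (hT hA))
  have h2 : ∀ A, aeval (tK F) ((∏ B ∈ univ.erase A, d B) * n A) =
      (∏ B, aeval (tK F) (d B)) * c' A := fun A => by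
    rw [map_mul, ← hn, map_prod, ← mul_assoc, prod_erase_mul _ _ (mem_univ A)]
  intro A hA
  have h3 := ht.indep_poly hP (fun A => (∏ B ∈ univ.erase A, d B) * n A) (by
    refine Eq.trans ?_ (smul_eq_zero_of_right (∏ B, aeval (tK F) (d B)) h1)
    rw [smul_sum]
    refine sum_congr rfl fun A _ => ?_
    rw [smul_smul, ← h2, Algebra.smul_def, io_aeval]
    rfl) ⟨A, ht.mem_St.2 (le_of_eq (hT hA))⟩ (hT hA)
  have h4 := h2 ⟨A, ht.mem_St.2 (le_of_eq (hT hA))⟩
  rw [h3, map_zero, eq_comm, mul_eq_zero] at h4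
  simpa [c', hA] using h4.resolve_left (prod_ne_zero_iff.2 fun B _ => hd B)

end Pool.Agent.MP_cbe134_nt.FF
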