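import Pool.Agent.MP_cbe134_nt.C4

/- The depth drop, from the polynomial vanishing lemma. -/

open Finset MvPolynomial

namespace Pool.Agent.MP_cbe134_nt

variable {l : ℕ}

/-- the generating polynomial of the values of `φ` on indices without ones -/
noncomputable def Bpoly (φ : ℝ →ₗ[ℚ] ℚ) (l d : ℕ) : MvPolynomial (Fin (l + 1)) ℚ :=
  ∑ a ∈ finsuppAntidiag (univ : Finset (Fin (l + 1))) d,
    monomial a (if a (Fin.last l) ≠ 0 then φ (mzv (word l a)) else 0)

lemma coeff_Bpoly (φ : ℝ →ₗ[ℚ] ℚ) (d : ℕ) (a : Fin (l + 1) →₀ ℕ) :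
    coeff a (Bpoly φ l d) =
      if ∑ i, a i = d ∧ a (Fin.last l) ≠ 0 then φ (mzv (word l a)) else 0 := by
  simp only [Bpoly, coeff_sum, coeff_monomial, sum_ite_eq', mem_finsuppAntidiag, subset_univ,
    and_true]
  by_cases h : ∑ i, a i = d
  · simp [h]
  · simp [h]

lemma coeff_Bpoly_pos (φ : ℝ →ₗ[ℚ] ℚ) {d : ℕ} {a : Fin (l + 1) →₀ ℕ} (h1 : ∑ i, a i = d)
    (h2 : a (Fin.last l) ≠ 0) : coeff a (Bpoly φ l d) = φ (mzv (word l a)) := by
  rw [coeff_Bpoly, if_pos ⟨h1, h2⟩]

lemma coeff_Bpoly_neg (φ : ℝ →ₗ[ℚ] ℚ) {d : ℕ} {a : Fin (l + 1) →₀ ℕ}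
    (h : ¬ (∑ i, a i = d ∧ a (Fin.last l) ≠ 0)) : coeff a (Bpoly φ l d) = 0 := by
  rw [coeff_Bpoly, if_neg h]

lemma Bpoly_hom (φ : ℝ →ₗ[ℚ] ℚ) (d : ℕ) : (Bpoly φ l d).IsHomogeneous d :=
  IsHomogeneous.sum _ _ _ fun a ha => isHomogeneous_monomial _ (by
    rw [Finsupp.degree_eq_sum]; exact (mem_finsuppAntidiag.1 ha).1)

lemma Bpoly_stuffle (φ : ℝ →ₗ[ℚ] ℚ) (d : ℕ) (h1 : PiZ (2 * d + l) ≤ LinearMap.ker φ)
    (h2 : ∀ w : List ℕ, (∀ c ∈ w, 2 ≤ c) → w.sum = 2 * d + l → w.length < d → φ (mzv w) = 0)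
    (b : Fin (l + 1) →₀ ℕ) : ∑ i : Fin (l + 1), (if i = 0 then (b i : ℚ) + 1 else (b i : ℚ)) *
      coeff (b + Finsupp.single i 1) (Bpoly φ l d) = 0 := by
  have hs : ∀ i, ∑ j, (b + Finsupp.single i 1 : Fin (l + 1) →₀ ℕ) j = ∑ j, b j + 1 := fun i => by
    simp [sum_add_distrib, Finsupp.single_apply]
  by_cases hd : ∑ j, b j + 1 = d
  swap
  · exact sum_eq_zero fun i _ => by
      rw [coeff_Bpoly_neg φ (fun h => hd (hs i ▸ h.1)), mul_zero]
  by_cases hb : l = 0 ∨ b (Fin.last l) ≠ 0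
  · have hw := word_two_le l b
    have e1 := mzv_stuffle le_rfl (adm_of_two_le hw)
    have e2 := sum_ins_word l b hb fun w => φ (mzv w)
    have e3 : φ (mzv [2] * mzv (word l b)) = 0 := by
      refine h1 ?_
      have : mzv [2] * mzv (word l b) = (1 / 6 : ℚ) • (Real.pi ^ 2 * mzv (word l b)) := by
        rw [mzv_two, Rat.smul_def]; push_cast; ring
      rw [this]
      refine Submodule.smul_mem _ _ (Submodule.subset_span ⟨_, _, ?_,
        mzv_mem_Zsp (adm_of_two_le hw) rfl, rfl⟩)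
      rw [word_sum _ _ hb]
      omega
    have e4 : φ ((mer 2 (word l b)).map mzv).sum = 0 := by
      rw [map_list_sum, List.map_map]
      refine List.sum_eq_zero fun x hx => ?_
      obtain ⟨w, hw', rfl⟩ := List.mem_map.1 hx
      obtain ⟨m1, m2, m3, -⟩ := mem_mer hw'
      refine h2 w (fun c hc => ?_) ?_ ?_
      · rcases m3 c hc with h | ⟨b, -, rfl⟩
        · exact hw c h
        · omega
      · rw [m1, word_sum _ _ hb]; omega
      · rw [m2, word_length]; omega
    rw [e1, map_add, e4, add_zero, map_list_sum, List.map_map] at e3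
    rw [← e3]
    refine Eq.trans ?_ e2.symm
    refine sum_congr rfl fun i _ => ?_
    rw [coeff_Bpoly_pos φ ((hs i).trans hd), Finsupp.coe_add, Finsupp.single_eq_pi_single]
    rcases hb with rfl | hb
    · have : i = Fin.last 0 := Subsingleton.elim (α := Fin 1) _ _
      simp [this]
    · simp only [Finsupp.add_apply]
      omega
  · push Not at hb
    refine sum_eq_zero fun i _ => ?_
    by_cases hi : i = Fin.last l
    · subst hi
      have : Fin.last l ≠ 0 := fun h => hb.1 (by simpa using congrArg Fin.val h)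
      simp [this, hb.2]
    · rw [coeff_Bpoly_neg, mul_zero]
      simp [hb.2, Finsupp.single_apply, hi]

lemma coeff_X_expand (B : MvPolynomial (Fin (l + 1)) ℚ) (a : Fin (l + 1) →₀ ℕ) :
    coeff (2 • a + Finsupp.single 0 1) (X 0 * expand 2 B) = coeff a B := by
  rw [add_comm (2 • a), coeff_X_mul, coeff_expand_smul _ (by norm_num)]

lemma exists_of_coeff_ne {B : MvPolynomial (Fin (l + 1)) ℚ} {n : Fin (l + 1) →₀ ℕ}
    (h : coeff n (X 0 * expand 2 B) ≠ 0) :
    ∃ a, n = 2 • a + Finsupp.single 0 1 ∧ coeff a B ≠ 0 := by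
  rw [mul_comm, X] at h
  obtain ⟨e, he, rfl⟩ := mem_support_mul_monomial (mem_support_iff.2 h)
  obtain ⟨a, ha, rfl⟩ := mem_image.1 (support_expand_subset _ he)
  exact ⟨a, rfl, mem_support_iff.1 ha⟩

lemma pair_eq (φ : ℝ →ₗ[ℚ] ℚ) {d : ℕ} (hd : d ≠ 0) {p : MvPolynomial (Fin (l + 1)) ℚ}
    (hp : PatP p d) : pair p (X 0 * expand 2 (Bpoly φ l d)) = φ ((evl Th)⁻¹ * Lam l p) := by
  rw [Lam_eq_sum, mul_sum, map_sum, pair]
  refine sum_congr rfl fun n hn => ?_
  obtain ⟨a, rfl, h2, h3⟩ := hp n hn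
  rw [mul_smul_comm, val_pat a h2, ← mul_assoc, inv_mul_cancel₀ evl_Th_pos.ne', one_mul,
    coeff_X_expand, coeff_Bpoly, if_pos, map_smul, map_smul, smul_eq_mul, smul_eq_mul]
  · ring
  · refine ⟨h3, ?_⟩
    rcases h2 with rfl | h2
    · rw [Fin.sum_univ_succ, Fin.sum_univ_zero, add_zero] at h3
      exact fun h => hd (h3.symm.trans h)
    · exact h2

lemma Bpoly_pair (φ : ℝ →ₗ[ℚ] ℚ) {d : ℕ} (hd : d ≠ 0) (h1 : PiZ (2 * d + l) ≤ LinearMap.ker φ)
    (q : MvPolynomial (Fin (l + 1)) ℚ) :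
    pair (Npoly (Fin (l + 1)) * X (Fin.last l) * q) (X 0 * expand 2 (Bpoly φ l d)) = 0 := by
  induction q using MvPolynomial.induction_on' with
  | add p q hp hq => rw [mul_add, pair_add, hp, hq, add_zero]
  | monomial m c =>
    rw [mul_assoc, show X (Fin.last l) * monomial m c =
      monomial (Finsupp.single (Fin.last l) 1 + m) c by rw [X, monomial_mul, one_mul]]
    by_cases h : ∃ n ∈ (Npoly (Fin (l + 1)) *
        monomial (Finsupp.single (Fin.last l) 1 + m) c).support,
        coeff n (X 0 * expand 2 (Bpoly φ l d)) ≠ 0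
    · obtain ⟨n, hn, hn'⟩ := h
      obtain ⟨e, he, rfl⟩ := mem_support_mul_monomial hn
      rw [← Esym_card] at he
      obtain ⟨e', rfl, he'⟩ := Esym_support he
      obtain ⟨a, ha, ha'⟩ := exists_of_coeff_ne hn'
      rw [coeff_Bpoly] at ha'
      have ha2 : ∑ i, a i = d := by
        by_contra h
        exact ha' (if_neg fun h' => h h'.1)
      have hpt : ∀ i, 2 * e' i + (Finsupp.single (Fin.last l) 1 + m : Fin (l + 1) →₀ ℕ) i =
          2 * a i + (Finsupp.single 0 1 : Fin (l + 1) →₀ ℕ) i := fun i => by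
        simpa using DFunLike.congr_fun ha i
      have hle : ∀ i, (Finsupp.single 0 1 : Fin (l + 1) →₀ ℕ) i ≤ 1 := fun i => by
        rw [Finsupp.single_apply]; split_ifs <;> omega
      have hm : Finsupp.single (Fin.last l) 1 + m = 2 • (a - e') + Finsupp.single 0 1 := by
        ext i
        have := hpt i
        have := hle i
        simp only [Finsupp.add_apply, Finsupp.smul_apply, Finsupp.tsub_apply, smul_eq_mul] at *
        omega
      have hv : l = 0 ∨ (a - e') (Fin.last l) ≠ 0 := by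
        by_cases hl : l = 0
        · exact Or.inl hl
        · refine Or.inr ?_
          have h3 := DFunLike.congr_fun hm (Fin.last l)
          have : (0 : Fin (l + 1)) ≠ Fin.last l := fun h => hl (by simpa using congrArg Fin.val h.symm)
          simp only [Finsupp.add_apply, Finsupp.smul_apply, smul_eq_mul, Finsupp.single_eq_same,
            Finsupp.single_eq_of_ne' this] at h3
          omega
      have hsum : Fintype.card (Fin (l + 1) → Bool) + ∑ i, (a - e') i = d := by
        rw [← he', ← ha2, ← sum_add_distrib]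
        refine sum_congr rfl fun i _ => ?_
        have := hpt i
        have := hle i
        simp only [Finsupp.tsub_apply]
        omega
      have h4 := Lam_N_mem m (a - e') c hv hm
      have h5 := patP_Esym (Fintype.card (Fin (l + 1) → Bool)) (a - e') c hv
      rw [hsum] at h4 h5
      rw [Esym_card] at h5
      rw [hm, pair_eq φ hd h5]
      exact h1 h4
    · push Not at h
      exact sum_eq_zero fun n hn => by rw [h n hn, mul_zero, zero_mul]

/-- The polynomial vanishing statement with an explicit degree bound. -/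
def StmtK (K : ℕ → ℕ) : Prop :=
  ∀ l d : ℕ, K l ≤ d → ∀ B : MvPolynomial (Fin (l + 1)) ℚ, B.IsHomogeneous d →
    (∀ a ∈ B.support, a (Fin.last l) ≠ 0) →
    (∀ b : Fin (l + 1) →₀ ℕ, ∑ i : Fin (l + 1),
      (if i = 0 then (b i : ℚ) + 1 else (b i : ℚ)) * coeff (b + Finsupp.single i 1) B = 0) →
    (∀ q : MvPolynomial (Fin (l + 1)) ℚ,
      pair (Npoly (Fin (l + 1)) * X (Fin.last l) * q) (X 0 * expand 2 B) = 0) → B = 0

theorem mod_pi {K : ℕ → ℕ} (hK : StmtK K) (k r : ℕ)
    (hr : ∀ l, l + 2 * r + 2 ≤ k → K l ≤ r + 1) : Zsp k ≤ Fil r k ⊔ PiZ k := by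
  intro x hx
  by_contra hn
  obtain ⟨φ, hφ, hker⟩ := Submodule.exists_le_ker_of_notMem hn
  have h1 : PiZ k ≤ LinearMap.ker φ := le_sup_right.trans hker
  have h2 : Fil r k ≤ LinearMap.ker φ := le_sup_left.trans hker
  have key : ∀ d, ∀ w : List ℕ, (∀ c ∈ w, 2 ≤ c) → w.sum = k → w.length = d → φ (mzv w) = 0 := by
    intro d
    induction d using Nat.strong_induction_on with
    | _ d ih =>
      intro w hw hs hl
      rcases le_or_gt d r with hd | hd
      · exact h2 (mzv_mem_Fil (adm_of_two_le hw) hs (hl ▸ hd))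
      · obtain ⟨l, a, ha, rfl⟩ := exists_word w hw (by rintro rfl; simp at hl; omega)
        rw [word_length] at hl
        rw [word_sum _ _ (Or.inr ha), hl] at hs
        have hKl := hr l (by omega)
        subst hs
        have hB := hK l d (by omega) (Bpoly φ l d) (Bpoly_hom φ d)
          (fun a ha => by
            have := mem_support_iff.1 ha
            rw [coeff_Bpoly] at this
            by_contra h
            exact this (if_neg fun h' => h'.2 h))
          (Bpoly_stuffle φ d h1 fun w h3 h4 h5 => ih _ h5 w h3 h4 rfl)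
          (Bpoly_pair φ (by omega) h1)
        have := coeff_Bpoly φ d (Finsupp.equivFunOnFinite.symm a)
        rw [hB, coeff_zero, if_pos ⟨hl, ha⟩] at this
        exact this.symm
  have h3 : No1 k ≤ LinearMap.ker φ := by
    refine Submodule.span_le.2 ?_
    rintro x ⟨w, h3, h4, rfl⟩
    exact key _ w h3 h4 rfl
  exact hφ (h3 (Zsp_le_No1 k hx))

theorem depth_drop {K : ℕ → ℕ} (hK : StmtK K) (k r : ℕ)
    (hr : ∀ l, l + 2 * r + 2 ≤ k → K l ≤ r + 1) : Zsp k ≤ Fil (r + 1) k :=
  reduce_pi 0 r k (Nat.zero_le _)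
    (fun m _ h2 => mod_pi hK m r fun l hl => hr l (by omega)) k le_rfl

end Pool.Agent.MP_cbe134_nt
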