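import Pool.Agent.Mg.Fcbe134.G7b3fcf

namespace Pool.Agent.Results.MP_cbe134_nt.LinearisedFour

open Pool.Agent.MP_cbe134_nt PowerSeries

/-- The dimension of the linearised double shuffle space in depth four is the one predicted by
the Broadhurst-Kreimer series, in every degree. -/
theorem result : (PowerSeries.mk fun d => (Module.finrank ℚ (V.DS 4 d) : ℚ)) *
    ((1 - X ^ 2) * (1 - X ^ 6) * (1 - X ^ 8) * (1 - X ^ 12)) =
    X ^ 8 * (1 + 2 * X ^ 4 + X ^ 6 + X ^ 8 + 2 * X ^ 10 + X ^ 14 - X ^ 16) := by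
  have h : (PowerSeries.mk fun d => (Module.finrank ℚ (V.DS 4 d) : ℚ)) = V.ser4 := by
    ext d
    rw [coeff_mk, V.ds4_eq]
  have g : ∀ m : ℕ, 0 < m → V.gs m * (1 - X ^ m) = 1 := fun m hm =>
    PowerSeries.inv_mul_cancel _ (by simp [hm.ne'])
  rw [h, V.ser4]
  have h2 := g 2 (by norm_num)
  have h6 := g 6 (by norm_num)
  have h8 := g 8 (by norm_num)
  have h12 := g 12 (by norm_num)
  calc _ = X ^ 8 * (1 + 2 * X ^ 4 + X ^ 6 + X ^ 8 + 2 * X ^ 10 + X ^ 14 - X ^ 16) *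
        (V.gs 2 * (1 - X ^ 2)) * (V.gs 6 * (1 - X ^ 6)) * (V.gs 8 * (1 - X ^ 8)) *
        (V.gs 12 * (1 - X ^ 12)) := by ring
    _ = _ := by rw [h2, h6, h8, h12]; ring

end Pool.Agent.Results.MP_cbe134_nt.LinearisedFour
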