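import Pool.Agent.MP_cbe134_nt.VD1

/- Dimension bounds for graded families of subspaces. -/

namespace Pool.Agent.MP_cbe134_nt.V

open Finset.HasAntidiagonal

/-- the dimension is finite and at most `q` -/
def a1_B (V : Submodule ℚ ℝ) (q : ℚ) : Prop :=
  FiniteDimensional ℚ V ∧ (Module.finrank ℚ V : ℚ) ≤ q

theorem a1_mono {V W : Submodule ℚ ℝ} {q q' : ℚ} (h : a1_B W q) (h1 : V ≤ W) (h2 : q ≤ q') :
    a1_B V q' := by
  have := h.1
  refine ⟨Submodule.finiteDimensional_of_le h1, le_trans ?_ (h.2.trans h2)⟩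
  exact_mod_cast Submodule.finrank_mono h1

theorem a1_zero : a1_B 0 0 := ⟨inferInstanceAs (FiniteDimensional ℚ (⊥ : Submodule ℚ ℝ)), by
  rw [Submodule.zero_eq_bot, finrank_bot, Nat.cast_zero]⟩

theorem a1_range {ι : Type} [Fintype ι] (b : ι → ℝ) :
    a1_B (Submodule.span ℚ (Set.range b)) (Fintype.card ι) :=
  ⟨FiniteDimensional.span_of_finite ℚ (Set.finite_range b), by
    exact_mod_cast finrank_range_le_card b⟩

theorem a1_single (v : ℝ) : a1_B (Submodule.span ℚ {v}) 1 := by
  have := a1_range fun _ : Unit => v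
  rwa [Set.range_const, Fintype.card_unit, Nat.cast_one] at this

theorem a1_add {V W : Submodule ℚ ℝ} {a b : ℚ} (h : a1_B V a) (h' : a1_B W b) :
    a1_B (V + W) (a + b) := by
  have := h.1
  have := h'.1
  rw [Submodule.add_eq_sup]
  refine ⟨inferInstance, le_trans ?_ (add_le_add h.2 h'.2)⟩
  exact_mod_cast Submodule.finrank_add_le_finrank_add_finrank V W

theorem a1_sum {ι : Type} {s : Finset ι} {V : ι → Submodule ℚ ℝ} {a : ι → ℚ}
    (h : ∀ i ∈ s, a1_B (V i) (a i)) : a1_B (∑ i ∈ s, V i) (∑ i ∈ s, a i) := by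
  classical
  induction s using Finset.induction_on with
  | empty => exact a1_zero
  | insert i s hi ih =>
    rw [Finset.sum_insert hi, Finset.sum_insert hi]
    exact a1_add (h i (Finset.mem_insert_self i s))
      (ih fun j hj => h j (Finset.mem_insert_of_mem hj))

theorem a1_sum_eq {ι : Type} (s : Finset ι) (V : ι → Submodule ℚ ℝ) :
    ∑ i ∈ s, V i = ⨆ i ∈ s, V i := by
  classical
  induction s using Finset.induction_on with
  | empty => simp
  | insert i s hi ih => rw [Finset.sum_insert hi, Finset.iSup_insert, ih, Submodule.add_eq_sup]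

theorem a1_basis {V : Submodule ℚ ℝ} (h : FiniteDimensional ℚ V) :
    ∃ b : Fin (Module.finrank ℚ V) → ℝ, V = Submodule.span ℚ (Set.range b) := by
  refine ⟨V.subtype ∘ Module.finBasis ℚ V, ?_⟩
  rw [Set.range_comp, ← Submodule.map_span, Module.Basis.span_eq, Submodule.map_subtype_top]

theorem a1_mul {V W : Submodule ℚ ℝ} {a b : ℚ} (h : a1_B V a) (h' : a1_B W b) :
    a1_B (V * W) (a * b) := by
  obtain ⟨v, hv⟩ := a1_basis h.1
  obtain ⟨w, hw⟩ := a1_basis h'.1
  refine a1_mono (a1_range fun p : _ × _ => v p.1 * w p.2) ?_ ?_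
  · refine (mul_le_mul' hv.le hw.le).trans ?_
    rw [Submodule.span_mul_span]
    refine Submodule.span_mono ?_
    rintro _ ⟨_, ⟨i, rfl⟩, _, ⟨j, rfl⟩, rfl⟩
    exact ⟨(i, j), rfl⟩
  · rw [Fintype.card_prod, Fintype.card_fin, Fintype.card_fin, Nat.cast_mul]
    exact mul_le_mul h.2 h'.2 (Nat.cast_nonneg _) ((Nat.cast_nonneg _).trans h.2)

theorem a1_sq {V : Submodule ℚ ℝ} {a : ℚ} (h : a1_B V a) : a1_B (V * V) ((a * a + a) / 2) := by
  obtain ⟨v, hv⟩ := a1_basis h.1
  refine a1_mono (a1_range (Sym2.lift ⟨fun i j => v i * v j, fun i j => mul_comm _ _⟩)) ?_ ?_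
  · refine (mul_le_mul' hv.le hv.le).trans ?_
    rw [Submodule.span_mul_span]
    refine Submodule.span_mono ?_
    rintro _ ⟨_, ⟨i, rfl⟩, _, ⟨j, rfl⟩, rfl⟩
    exact ⟨s(i, j), rfl⟩
  · rw [Sym2.card, Fintype.card_fin, Nat.cast_choose_two]
    have h1 := h.2
    have h2 : (0 : ℚ) ≤ Module.finrank ℚ V := Nat.cast_nonneg _
    push_cast
    nlinarith

theorem Bd.add {x y : Gr} {s t : PowerSeries ℚ} (hx : Bd x s) (hy : Bd y t) :
    Bd (x + y) (s + t) := fun k => by
  rw [map_add, map_add]
  exact a1_add (hx k) (hy k)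

theorem Bd.mul {x y : Gr} {s t : PowerSeries ℚ} (hx : Bd x s) (hy : Bd y t) :
    Bd (x * y) (s * t) := fun k => by
  rw [PowerSeries.coeff_mul, PowerSeries.coeff_mul]
  exact a1_sum fun p _ => a1_mul (hx p.1) (hy p.2)

theorem a1_diag (f : ℕ → ℚ) (k : ℕ) :
    ∑ p ∈ antidiagonal k, (if p.1 = p.2 then f p.1 else 0) = if Even k then f (k / 2) else 0 := by
  split_ifs with h
  · obtain ⟨m, rfl⟩ := h
    rw [Finset.sum_eq_single_of_mem (m, m) (mem_antidiagonal.2 rfl), if_pos rfl]
    · congr 1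
      omega
    · intro p hp hne
      have := mem_antidiagonal.1 hp
      exact if_neg fun e => hne (Prod.ext (by dsimp only; omega) (by dsimp only; omega))
  · exact Finset.sum_eq_zero fun p hp => if_neg fun e => h ⟨p.1, by
      have := mem_antidiagonal.1 hp
      omega⟩

theorem Bd.sq {x : Gr} {s : PowerSeries ℚ} (hx : Bd x s) :
    Bd (x ^ 2) ((1 / 2 : ℚ) • (s ^ 2 + sq2 s)) := fun k => by
  obtain ⟨q, hq⟩ : ∃ q : ℕ × ℕ → ℚ, ∀ p, q p = if p.1 < p.2 then
      PowerSeries.coeff p.1 s * PowerSeries.coeff p.2 s else if p.1 = p.2 then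
      (PowerSeries.coeff p.1 s * PowerSeries.coeff p.1 s + PowerSeries.coeff p.1 s) / 2 else 0 :=
    ⟨_, fun _ => rfl⟩
  have h1 : a1_B (∑ p ∈ antidiagonal k, if p.1 ≤ p.2 then
      PowerSeries.coeff p.1 x * PowerSeries.coeff p.2 x else 0) (∑ p ∈ antidiagonal k, q p) :=
    a1_sum fun p _ => by
      rw [hq]
      rcases lt_trichotomy p.1 p.2 with h | h | h
      · rw [if_pos h.le, if_pos h]
        exact a1_mul (hx _) (hx _)
      · rw [if_pos h.le, if_neg h.not_lt, if_pos h, ← h]
        exact a1_sq (hx _)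
      · rw [if_neg h.not_ge, if_neg h.not_gt, if_neg h.ne']
        exact a1_zero
  refine a1_mono h1 ?_ (le_of_eq ?_)
  · rw [pow_two, PowerSeries.coeff_mul, a1_sum_eq, a1_sum_eq]
    refine iSup₂_le fun p hp => ?_
    by_cases h : p.1 ≤ p.2
    · exact le_iSup₂_of_le p hp (by rw [if_pos h])
    · refine le_iSup₂_of_le p.swap (mem_antidiagonal.2 ?_) ?_
      · rw [← mem_antidiagonal.1 hp]
        exact add_comm _ _
      · rw [if_pos (show p.swap.1 ≤ p.swap.2 from (not_le.1 h).le), mul_comm]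
        exact le_rfl
  · have h2 : ∑ p ∈ antidiagonal k, q p + ∑ p ∈ antidiagonal k, q p =
        PowerSeries.coeff k (s ^ 2 + sq2 s) := by
      rw [map_add, pow_two, PowerSeries.coeff_mul, sq2, PowerSeries.coeff_mk,
        ← a1_diag fun i => PowerSeries.coeff i s, ← Finset.sum_add_distrib (s := antidiagonal k)
          (f := fun p => PowerSeries.coeff p.1 s * PowerSeries.coeff p.2 s)]
      nth_rewrite 2 [← Finset.Nat.sum_antidiagonal_swap]
      rw [← Finset.sum_add_distrib]
      refine Finset.sum_congr rfl fun p _ => ?_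
      simp only [hq, Prod.fst_swap, Prod.snd_swap]
      rcases lt_trichotomy p.1 p.2 with h | h | h
      · simp [h, h.ne, h.ne', h.not_gt]
      · simp [← h]
      · simp [h, h.ne', h.not_gt, mul_comm]
    rw [PowerSeries.coeff_smul, ← h2, smul_eq_mul]
    ring

theorem bd_one : Bd 1 1 := fun k => by
  change a1_B _ _
  rw [PowerSeries.coeff_one, PowerSeries.coeff_one]
  split_ifs
  · rw [Submodule.one_eq_span]
    exact a1_single 1
  · exact a1_zero

theorem a1_const {m : ℕ} (hm : 0 < m) :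
    PowerSeries.constantCoeff (1 - PowerSeries.X ^ m : PowerSeries ℚ) ≠ 0 := by
  simp [hm.ne']

theorem a1_gs {m : ℕ} (hm : 0 < m) : gs m = 1 + PowerSeries.X ^ m * gs m := by
  have := PowerSeries.mul_inv_cancel _ (a1_const hm)
  rw [← this, gs]
  ring

theorem a1_gs_two (k : ℕ) : PowerSeries.coeff k (gs 2) = if Even k then 1 else 0 := by
  induction k using Nat.strong_induction_on with
  | _ k ih =>
    rw [a1_gs two_pos, map_add, PowerSeries.coeff_one, PowerSeries.coeff_X_pow_mul']
    rcases k with _ | _ | k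
    · simp
    · simp
    · rw [if_neg (by omega), if_pos (by omega), zero_add, ih _ (by omega)]
      exact if_congr (by rw [Nat.even_iff, Nat.even_iff]; omega) rfl rfl

theorem bd_Ev : Bd Ev eS := fun k => by
  rw [Ev, eS, PowerSeries.coeff_mk, PowerSeries.coeff_X_pow_mul', a1_gs_two]
  by_cases h : Even k ∧ 2 ≤ k
  · rw [if_pos h, if_pos h.2, if_pos (by have := h.1; rw [Nat.even_iff] at this ⊢; omega)]
    exact a1_single _
  · rw [if_neg h]
    exact a1_mono a1_zero le_rfl (by split_ifs <;> norm_num)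

/-- odd single zeta values of weight at least `m` -/
noncomputable def a1_O (m : ℕ) : Gr :=
  PowerSeries.mk fun k => if Odd k ∧ m ≤ k then Submodule.span ℚ {mzv [k]} else ⊥

theorem a1_O_eq {m : ℕ} (hm : Odd m) :
    a1_O m = PowerSeries.monomial m (Submodule.span ℚ {mzv [m]}) + a1_O (m + 2) := by
  ext1 k
  rw [map_add, a1_O, a1_O, PowerSeries.coeff_mk, PowerSeries.coeff_mk, PowerSeries.coeff_monomial]
  by_cases h : k = m
  · rw [if_pos h, h, if_pos ⟨hm, le_rfl⟩, if_neg (fun e => by omega), ← Submodule.zero_eq_bot,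
      add_zero]
  · rw [if_neg h, zero_add]
    refine if_congr (and_congr_right fun hk => ?_) rfl rfl
    rw [Nat.odd_iff] at hk hm
    omega

theorem a1_idem (x : Gr) : x + x = x := by
  ext1 k
  rw [map_add, Submodule.add_eq_sup, sup_idem]

theorem a1_pow (z y : Gr) (j : ℕ) : (z + y) ^ (j + 1) = z * (z + y) ^ j + y ^ (j + 1) := by
  induction j with
  | zero => simp
  | succ j ih =>
    calc (z + y) ^ (j + 1 + 1) = z * (z + y) ^ (j + 1) + y * (z + y) ^ (j + 1) := by ring
      _ = z * (z + y) ^ (j + 1) + y * (z * (z + y) ^ j + y ^ (j + 1)) := by rw [← ih]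
      _ = z * z * (z + y) ^ j + (z * y * (z + y) ^ j + z * y * (z + y) ^ j) + y ^ (j + 1 + 1) := by
        ring
      _ = z * (z + y) ^ (j + 1) + y ^ (j + 1 + 1) := by
        rw [a1_idem]
        ring

theorem a1_monomial (m : ℕ) (v : ℝ) :
    Bd (PowerSeries.monomial m (Submodule.span ℚ {v})) (PowerSeries.X ^ m) := fun k => by
  change a1_B _ _
  rw [PowerSeries.coeff_monomial, PowerSeries.coeff_X_pow]
  split_ifs
  · exact a1_single v
  · exact a1_zero

theorem a1_O_pow (j : ℕ) : ∀ m, Odd m → Bd (a1_O m ^ j)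
    (PowerSeries.X ^ (m * j) * ∏ i ∈ Finset.range j, gs (2 * (i + 1))) := by
  induction j with
  | zero => intro m _; simpa using bd_one
  | succ j ih =>
    have key : ∀ k n m, Odd m → k < m + n → a1_B (PowerSeries.coeff k (a1_O m ^ (j + 1)))
        (PowerSeries.coeff k (PowerSeries.X ^ (m * (j + 1)) *
          ∏ i ∈ Finset.range (j + 1), gs (2 * (i + 1)))) := by
      intro k n
      induction n with
      | zero =>
        intro m _ hk
        rw [PowerSeries.coeff_X_pow_mul', if_neg (by nlinarith), pow_succ', PowerSeries.coeff_mul,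
          Finset.sum_eq_zero fun p hp => ?_]
        · exact a1_zero
        · have := mem_antidiagonal.1 hp
          rw [a1_O, PowerSeries.coeff_mk, if_neg (fun e => by omega), ← Submodule.zero_eq_bot,
            zero_mul]
      | succ n ihn =>
        intro m hm hk
        have e : (PowerSeries.X ^ (m * (j + 1)) * ∏ i ∈ Finset.range (j + 1), gs (2 * (i + 1)) :
            PowerSeries ℚ) = PowerSeries.X ^ m * (PowerSeries.X ^ (m * j) *
              ∏ i ∈ Finset.range j, gs (2 * (i + 1))) + PowerSeries.X ^ ((m + 2) * (j + 1)) *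
              ∏ i ∈ Finset.range (j + 1), gs (2 * (i + 1)) := by
          rw [Finset.prod_range_succ]
          nth_rewrite 1 [a1_gs (m := 2 * (j + 1)) (by omega)]
          ring
        rw [e, map_add, a1_O_eq hm, a1_pow, ← a1_O_eq hm, map_add]
        exact a1_add ((a1_monomial m _).mul (ih m hm) k)
          (ihn (m + 2) (hm.add_even even_two) (by omega))
    exact fun m hm k => key k (k + 1) m hm (by omega)

theorem bd_Od_pow (j : ℕ) : Bd (Od ^ j) (pS j) := a1_O_pow j 3 (by decide)

end Pool.Agent.MP_cbe134_nt.V
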