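import Pool.Agent.MP_cbe134_nt.VZ1

/- The depth-graded pieces are spanned by monomials with at most one even zeta value. -/

namespace Pool.Agent.MP_cbe134_nt.V

/-- the order on graded families -/
def va2_le (x y : Gr) : Prop := x + y = y

/-- the depth filtration as a graded family -/
noncomputable def va2_F (r : ℕ) : Gr := PowerSeries.mk fun k => Fil r k

theorem va2_iff {x y : Gr} :
    va2_le x y ↔ ∀ k, PowerSeries.coeff k x ≤ PowerSeries.coeff k y := by
  unfold va2_le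
  rw [PowerSeries.ext_iff]
  refine forall_congr' fun k => ?_
  rw [map_add, Submodule.add_eq_sup, sup_eq_right]

theorem va2_refl (x : Gr) : va2_le x x := va2_iff.2 fun _ => le_rfl

theorem va2_le.trans {x y z : Gr} (h : va2_le x y) (h' : va2_le y z) : va2_le x z :=
  va2_iff.2 fun k => (va2_iff.1 h k).trans (va2_iff.1 h' k)

theorem va2_le.add {x y z : Gr} (h : va2_le x z) (h' : va2_le y z) : va2_le (x + y) z := by
  unfold va2_le at *
  rw [add_assoc, h', h]

theorem va2_le.left {x y : Gr} (h : va2_le x y) (z : Gr) : va2_le x (y + z) := by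
  unfold va2_le at *
  rw [← add_assoc, h]

theorem va2_le.right {x z : Gr} (h : va2_le x z) (y : Gr) : va2_le x (y + z) := by
  rw [add_comm]
  exact h.left y

theorem va2_le.mul {x y z w : Gr} (h : va2_le x y) (h' : va2_le z w) :
    va2_le (x * z) (y * w) := by
  have h1 : va2_le (x * z) (y * z) := by
    unfold va2_le at *
    rw [← add_mul, h]
  have h2 : va2_le (y * z) (y * w) := by
    unfold va2_le at *
    rw [← mul_add, h']
  exact h1.trans h2

theorem va2_of_eq {x y : Gr} (z : Gr) (h : y = x + z) : va2_le x y :=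
  h ▸ (va2_refl x).left z

theorem va2_mul_le {x y z : Gr} (h : ∀ i j, PowerSeries.coeff i x * PowerSeries.coeff j y ≤
    PowerSeries.coeff (i + j) z) : va2_le (x * y) z := by
  refine va2_iff.2 fun k => ?_
  rw [PowerSeries.coeff_mul]
  refine Finset.sum_induction _ (· ≤ PowerSeries.coeff k z) (fun a b ha hb => sup_le ha hb)
    bot_le fun p hp => ?_
  rw [← Finset.HasAntidiagonal.mem_antidiagonal.1 hp]
  exact h _ _

theorem va2_le_mul (x y : Gr) (i j : ℕ) : PowerSeries.coeff i x * PowerSeries.coeff j y ≤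
    PowerSeries.coeff (i + j) (x * y) := by
  rw [PowerSeries.coeff_mul]
  exact Finset.single_le_sum
    (f := fun p : ℕ × ℕ => PowerSeries.coeff p.1 x * PowerSeries.coeff p.2 y)
    (fun _ _ => bot_le) (a := (i, j)) (Finset.HasAntidiagonal.mem_antidiagonal.2 rfl)

theorem va2_FF (p q : ℕ) : va2_le (va2_F p * va2_F q) (va2_F (p + q)) :=
  va2_mul_le fun i j => by
    simp only [va2_F, PowerSeries.coeff_mk]
    exact Fil_mul p i q j

theorem va2_mulF {x y : Gr} {p q r : ℕ} (h : va2_le x (va2_F p)) (h' : va2_le y (va2_F q))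
    (e : p + q = r) : va2_le (x * y) (va2_F r) :=
  e ▸ (h.mul h').trans (va2_FF p q)

theorem va2_Od : va2_le Od (va2_F 1) := by
  refine va2_iff.2 fun k => ?_
  simp only [va2_F, Od, PowerSeries.coeff_mk]
  split_ifs with h
  · exact Submodule.span_le.2 (Set.singleton_subset_iff.2
      (mzv_mem_Fil (adm_single (by omega)) (by simp) (by simp)))
  · exact bot_le

theorem va2_Ev : va2_le Ev (va2_F 1) := by
  refine va2_iff.2 fun k => ?_
  simp only [va2_F, Ev, PowerSeries.coeff_mk]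
  split_ifs with h
  · exact Submodule.span_le.2 (Set.singleton_subset_iff.2
      (mzv_mem_Fil (adm_single (by omega)) (by simp) (by simp)))
  · exact bot_le

theorem va2_G {r : ℕ} {G : Gr} (h : Gens r G) : va2_le G (va2_F r) :=
  va2_iff.2 fun k => by
    simp only [va2_F, PowerSeries.coeff_mk]
    exact (h k).1

theorem va2_one : va2_le 1 (va2_F 0) := by
  refine va2_iff.2 fun k => ?_
  simp only [va2_F, PowerSeries.coeff_mk, PowerSeries.coeff_one]
  split_ifs with h
  · rw [Submodule.one_le, ← mzv_nil]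
    exact mzv_mem_Fil ⟨by simp, by simp⟩ (by simp [h]) (by simp)
  · exact bot_le

theorem va2_zero (k : ℕ) : Fil 0 k ≤ PowerSeries.coeff k (1 : Gr) := by
  refine Submodule.span_le.2 ?_
  rintro _ ⟨w, -, h2, h3, rfl⟩
  obtain rfl : w = [] := List.length_eq_zero_iff.1 (Nat.le_zero.1 h3)
  obtain rfl : 0 = k := h2
  rw [mzv_nil, PowerSeries.coeff_one, if_pos rfl]
  exact Submodule.one_le.1 le_rfl

theorem va2_F1 : va2_le (va2_F 1) (va2_F 0 + (Od + Ev)) := by
  refine va2_iff.2 fun k => ?_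
  simp only [va2_F, Od, Ev, map_add, PowerSeries.coeff_mk, Submodule.add_eq_sup]
  refine Submodule.span_le.2 ?_
  rintro _ ⟨w, h1, h2, h3, rfl⟩
  match w, h1, h2, h3 with
  | [], h1, h2, _ => exact Submodule.mem_sup_left (mzv_mem_Fil h1 h2 le_rfl)
  | [a], h1, h2, _ =>
    obtain rfl : a = k := by simpa using h2
    have h4 : 2 ≤ a := h1.2 a (by simp)
    refine Submodule.mem_sup_right ?_
    rcases Nat.even_or_odd a with h | h
    · refine Submodule.mem_sup_right ?_
      rw [if_pos ⟨h, h4⟩]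
      exact Submodule.mem_span_singleton_self _
    · refine Submodule.mem_sup_left ?_
      rw [if_pos ⟨h, by obtain ⟨m, rfl⟩ := h; omega⟩]
      exact Submodule.mem_span_singleton_self _
  | _ :: _ :: _, _, _, h3 => simp at h3

theorem va2_pi {j : ℕ} (hj : 1 ≤ j) : ∃ q : ℚ, mzv [2 * j] = q • Real.pi ^ (2 * j) := by
  obtain ⟨q, hq⟩ := pi_pow_eq hj
  have h0 : q ≠ 0 := by
    rintro rfl
    rw [zero_smul] at hq
    exact pow_ne_zero _ Real.pi_ne_zero hq
  exact ⟨q⁻¹, by rw [hq, smul_smul, inv_mul_cancel₀ h0, one_smul]⟩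

theorem va2_EvEv : va2_le (Ev * Ev) (va2_F 1) := by
  refine va2_mul_le fun i j => ?_
  simp only [va2_F, Ev, PowerSeries.coeff_mk]
  split_ifs with h h'
  · obtain ⟨⟨a, rfl⟩, ha⟩ := h
    obtain ⟨⟨b, rfl⟩, hb⟩ := h'
    rw [Submodule.span_mul_span, Set.singleton_mul_singleton, ← two_mul, ← two_mul]
    refine Submodule.span_le.2 (Set.singleton_subset_iff.2 ?_)
    obtain ⟨q, hq⟩ := va2_pi (j := a) (by omega)
    obtain ⟨q', hq'⟩ := va2_pi (j := b) (by omega)
    obtain ⟨q'', hq''⟩ := pi_pow_eq (j := a + b) (by omega)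
    rw [hq, hq', smul_mul_smul_comm, ← pow_add, ← mul_add, hq'']
    exact Submodule.smul_mem _ _ (Submodule.smul_mem _ _
      (mzv_mem_Fil (adm_single (by omega)) (by simp) (by simp)))
  · simp
  · simp
  · simp

section main

variable {G2 G3 G4 : Gr}

theorem va2_TT (p q : ℕ) (h : p + q ≤ 4) :
    va2_le (Tm G2 G3 G4 p * Tm G2 G3 G4 q) (Tm G2 G3 G4 (p + q)) := by
  have h13 : va2_le (Tm G2 G3 G4 1 * Tm G2 G3 G4 3) (Tm G2 G3 G4 4) :=
    va2_of_eq (G4 + G2 ^ 2) (by simp only [Tm]; ring)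
  have h12 : va2_le (Tm G2 G3 G4 1 * Tm G2 G3 G4 2) (Tm G2 G3 G4 3) :=
    va2_of_eq G3 (by simp only [Tm]; ring)
  have h11 : va2_le (Tm G2 G3 G4 1 * Tm G2 G3 G4 1) (Tm G2 G3 G4 2) :=
    va2_of_eq G2 (by simp only [Tm]; ring)
  have h22 : va2_le (Tm G2 G3 G4 2 * Tm G2 G3 G4 2) (Tm G2 G3 G4 4) := by
    have e : Tm G2 G3 G4 2 * Tm G2 G3 G4 2 = (G2 ^ 2 + G2 * Od ^ 2 + Od ^ 4) + G2 * Od ^ 2 := by
      simp only [Tm]; ring
    rw [e]
    exact (va2_of_eq (G4 + G3 * Od) (by simp only [Tm]; ring)).add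
      (va2_of_eq (G4 + G3 * Od + G2 ^ 2 + Od ^ 4) (by simp only [Tm]; ring))
  have h0 : Tm G2 G3 G4 0 = 1 := rfl
  rcases Nat.eq_zero_or_pos p with rfl | hp
  · rw [h0, one_mul, zero_add]
    exact va2_refl _
  rcases Nat.eq_zero_or_pos q with rfl | hq
  · rw [h0, mul_one, add_zero]
    exact va2_refl _
  have hp4 : p ≤ 3 := by omega
  have hq4 : q ≤ 3 := by omega
  interval_cases p <;> interval_cases q
  · exact h11
  · exact h12
  · exact h13
  · exact mul_comm (Tm G2 G3 G4 1) _ ▸ h12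
  · exact h22
  · omega
  · exact mul_comm (Tm G2 G3 G4 1) _ ▸ h13
  · omega
  · omega

theorem va2_T (h2 : Gens 2 G2) (h3 : Gens 3 G3) (h4 : Gens 4 G4) (r : ℕ) (hr : r ≤ 4) :
    va2_le (Tm G2 G3 G4 r) (va2_F r) := by
  have o2 : va2_le (Od ^ 2) (va2_F 2) := pow_two Od ▸ va2_mulF va2_Od va2_Od rfl
  have o3 : va2_le (Od ^ 3) (va2_F 3) := pow_succ Od 2 ▸ va2_mulF o2 va2_Od rfl
  have o4 : va2_le (Od ^ 4) (va2_F 4) := pow_succ Od 3 ▸ va2_mulF o3 va2_Od rfl
  have g2 : va2_le (G2 ^ 2) (va2_F 4) := pow_two G2 ▸ va2_mulF (va2_G h2) (va2_G h2) rfl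
  interval_cases r
  · exact va2_one
  · exact va2_Od
  · exact (va2_G h2).add o2
  · exact ((va2_G h3).add (va2_mulF (va2_G h2) va2_Od rfl)).add o3
  · exact ((((va2_G h4).add (va2_mulF (va2_G h3) va2_Od rfl)).add g2).add
      (va2_mulF (va2_G h2) o2 rfl)).add o4

theorem va2_prod (h2 : Gens 2 G2) (h3 : Gens 3 G3) (h4 : Gens 4 G4) (p q : ℕ)
    (h : p + q + 2 ≤ 4) (hp : va2_le (va2_F (p + 1)) (va2_F p + Sm G2 G3 G4 (p + 1)))
    (hq : va2_le (va2_F (q + 1)) (va2_F q + Sm G2 G3 G4 (q + 1))) :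
    va2_le (va2_F (p + 1) * va2_F (q + 1)) (va2_F (p + q + 1) + Sm G2 G3 G4 (p + q + 1 + 1)) := by
  have hT := va2_T h2 h3 h4
  have hS : va2_le (Sm G2 G3 G4 (p + 1)) (va2_F (p + 1)) :=
    (hT _ (by omega)).add (va2_mulF va2_Ev (hT p (by omega)) (by omega))
  refine (hp.mul (va2_refl _)).trans ?_
  rw [add_mul]
  refine ((va2_mulF (va2_refl _) (va2_refl _) (by omega)).left _).add ?_
  refine ((va2_refl _).mul hq).trans ?_
  rw [mul_add]
  refine ((va2_mulF hS (va2_refl _) (by omega)).left _).add ?_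
  have e : Sm G2 G3 G4 (p + 1) * Sm G2 G3 G4 (q + 1) =
      Tm G2 G3 G4 (p + 1) * Tm G2 G3 G4 (q + 1) + Ev * (Tm G2 G3 G4 (p + 1) * Tm G2 G3 G4 q) +
        Ev * (Tm G2 G3 G4 p * Tm G2 G3 G4 (q + 1)) +
          Ev * Ev * (Tm G2 G3 G4 p * Tm G2 G3 G4 q) := by
    simp only [Sm]
    ring
  have e' : Sm G2 G3 G4 (p + q + 1 + 1) =
      Tm G2 G3 G4 (p + q + 1 + 1) + Ev * Tm G2 G3 G4 (p + q + 1) := rfl
  rw [e, e']
  have a1 := va2_TT (G2 := G2) (G3 := G3) (G4 := G4) (p + 1) (q + 1) (by omega)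
  have a2 := va2_TT (G2 := G2) (G3 := G3) (G4 := G4) (p + 1) q (by omega)
  have a3 := va2_TT (G2 := G2) (G3 := G3) (G4 := G4) p (q + 1) (by omega)
  rw [show p + 1 + (q + 1) = p + q + 1 + 1 by omega] at a1
  rw [show p + 1 + q = p + q + 1 by omega] at a2
  exact ((((a1.left _).right _).add ((((va2_refl Ev).mul a2).right _).right _)).add
    ((((va2_refl Ev).mul a3).right _).right _)).add
    ((va2_mulF va2_EvEv (va2_mulF (hT p (by omega)) (hT q (by omega)) rfl) (by omega)).left _)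

theorem va2_step {r : ℕ} {G S : Gr} (hG : Gens (r + 1) G) (hS : va2_le G S)
    (h : ∀ p q, p + q + 1 = r → va2_le (va2_F (p + 1) * va2_F (q + 1)) (va2_F r + S)) :
    va2_le (va2_F (r + 1)) (va2_F r + S) := by
  refine va2_iff.2 fun k => ?_
  have h1 := (hG k).2
  rw [va2_F, PowerSeries.coeff_mk]
  refine h1.trans (sup_le (sup_le ?_ ?_) (va2_iff.1 (hS.right _) k))
  · have h2 := va2_iff.1 ((va2_refl (va2_F r)).left S) k
    rwa [va2_F, PowerSeries.coeff_mk] at h2
  · refine iSup_le fun p => iSup_le fun q => iSup_le fun i => iSup_le fun j => iSup_le ?_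
    rintro ⟨hp, hq, hpq, rfl⟩
    obtain ⟨p, rfl⟩ : ∃ p', p = p' + 1 := ⟨p - 1, by omega⟩
    obtain ⟨q, rfl⟩ : ∃ q', q = q' + 1 := ⟨q - 1, by omega⟩
    refine le_trans ?_ (va2_iff.1 (h p q (by omega)) (i + j))
    have h2 := va2_le_mul (va2_F (p + 1)) (va2_F (q + 1)) i j
    rwa [va2_F, va2_F, PowerSeries.coeff_mk, PowerSeries.coeff_mk] at h2

theorem va2_main (h2 : Gens 2 G2) (h3 : Gens 3 G3) (h4 : Gens 4 G4) (r : ℕ) (hr : r + 1 ≤ 4) :
    va2_le (va2_F (r + 1)) (va2_F r + Sm G2 G3 G4 (r + 1)) := by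
  induction r using Nat.strong_induction_on with
  | _ r ih =>
    have h : ∀ p q, p + q + 1 = r →
        va2_le (va2_F (p + 1) * va2_F (q + 1)) (va2_F r + Sm G2 G3 G4 (r + 1)) := by
      rintro p q rfl
      exact va2_prod h2 h3 h4 p q (by omega) (ih p (by omega) (by omega))
        (ih q (by omega) (by omega))
    have hr' : r ≤ 3 := by omega
    interval_cases r
    · have e : Sm G2 G3 G4 (0 + 1) = Od + Ev := by simp only [Sm, Tm, mul_one]
      rw [e]
      exact va2_F1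
    · exact va2_step h2 (((va2_refl G2).left _).left _) h
    · exact va2_step h3 ((((va2_refl G3).left _).left _).left _) h
    · exact va2_step h4 ((((((va2_refl G4).left _).left _).left _).left _).left _) h

end main

theorem Fil_le_Sm {G2 G3 G4 : Gr} (h2 : Gens 2 G2) (h3 : Gens 3 G3) (h4 : Gens 4 G4)
    (r : ℕ) (hr : r ≤ 4) (k : ℕ) :
    Fil r k ≤ FilPrev r k ⊔ PowerSeries.coeff k (Sm G2 G3 G4 r) := by
  cases r with
  | zero => exact (va2_zero k).trans le_sup_right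
  | succ r =>
    have h := va2_iff.1 (va2_main h2 h3 h4 r hr) k
    rwa [map_add, va2_F, va2_F, PowerSeries.coeff_mk, PowerSeries.coeff_mk] at h

theorem grDim_le {r k : ℕ} {W : Submodule ℚ ℝ} [FiniteDimensional ℚ W]
    (h : Fil r k ≤ FilPrev r k ⊔ W) : grDim r k ≤ Module.finrank ℚ W := by
  have h1 : FilPrev r k ≤ Fil r k := by
    cases r with
    | zero => exact bot_le
    | succ r => exact Fil_mono (Nat.le_succ r) k
  have : FiniteDimensional ℚ (W ⊓ Fil r k : Submodule ℚ ℝ) :=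
    Submodule.finiteDimensional_of_le inf_le_left
  let f : (W ⊓ Fil r k : Submodule ℚ ℝ) →ₗ[ℚ] (Fil r k ⧸ (FilPrev r k).submoduleOf (Fil r k)) :=
    ((FilPrev r k).submoduleOf (Fil r k)).mkQ.comp (Submodule.inclusion inf_le_right)
  have hf : Function.Surjective f := by
    intro y
    obtain ⟨x, rfl⟩ := Submodule.mkQ_surjective _ y
    obtain ⟨p, hp, w, hw, e⟩ := Submodule.mem_sup.1 (h x.2)
    have hw' : w ∈ Fil r k := by
      rw [eq_sub_of_add_eq' e]
      exact sub_mem x.2 (h1 hp)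
    refine ⟨⟨w, hw, hw'⟩, (Submodule.Quotient.eq _).2 ?_⟩
    show w - x ∈ FilPrev r k
    rw [← e, sub_add_cancel_right]
    exact neg_mem hp
  exact (LinearMap.finrank_le_finrank_of_surjective hf).trans (Submodule.finrank_mono inf_le_left)

end Pool.Agent.MP_cbe134_nt.V
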