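import Pool.Agent.MP_cbe134_nt.VD1

/- Coefficients of the Broadhurst-Kreimer series and the counting identities. -/

open PowerSeries

namespace Pool.Agent.MP_cbe134_nt.V

theorem a3_gs {m : ℕ} (hm : m ≠ 0) : (1 - X ^ m) * gs m = 1 :=
  PowerSeries.mul_inv_cancel _ (by simp [hm])

/-- the inclusion of the first variable -/
def a3_e : Unit ↪ Fin 2 := ⟨fun _ => 0, fun _ _ _ => rfl⟩

/-- power series in the first variable -/
noncomputable def a3_i : PowerSeries ℚ →ₐ[ℚ] MvPowerSeries (Fin 2) ℚ := MvPowerSeries.rename a3_e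

theorem a3_X : a3_i X = MvPowerSeries.X 0 := MvPowerSeries.rename_X a3_e ()

theorem a3_igs {m : ℕ} (hm : m ≠ 0) : a3_i (gs m) = (1 - MvPowerSeries.X 0 ^ m)⁻¹ := by
  rw [MvPowerSeries.eq_inv_iff_mul_eq_one (by simp [hm]), mul_comm]
  simpa only [map_mul, map_sub, map_one, map_pow, a3_X] using congrArg a3_i (a3_gs hm)

theorem a3_coeff (B : PowerSeries ℚ) (k r s : ℕ) :
    MvPowerSeries.coeff (Finsupp.single 0 k + Finsupp.single 1 r)
      (a3_i B * MvPowerSeries.X 1 ^ s) = if r = s then coeff k B else 0 := by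
  rw [MvPowerSeries.X_pow_eq]
  split_ifs with h
  · subst h
    rw [MvPowerSeries.coeff_add_mul_monomial, mul_one]
    have := MvPowerSeries.coeff_embDomain_rename a3_e B (Finsupp.single () k)
    rwa [Finsupp.embDomain_single] at this
  · rw [MvPowerSeries.coeff_mul_monomial]
    split_ifs with h1
    · rw [mul_one]
      refine MvPowerSeries.coeff_rename_eq_zero a3_e B ?_
      rintro ⟨x, hx⟩
      have h2 := DFunLike.congr_fun hx 1
      have h3 := h1 1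
      rw [Finsupp.mapDomain_of_notMem_range _ _ fun ⟨_, h⟩ => zero_ne_one (α := Fin 2) h] at h2
      simp at h2 h3
      omega
    · rfl

theorem a3_ring {A : Type} [CommRing A] (O E S Y I : A)
    (h : (1 - O * Y + S * Y ^ 2 - S * Y ^ 4) * I = 1) : ∃ T, (1 + E * Y) * I =
      1 * Y ^ 0 + (O + E * 1) * Y ^ 1 + (O ^ 2 - S + E * O) * Y ^ 2 +
      (O ^ 3 - 2 * O * S + E * (O ^ 2 - S)) * Y ^ 3 +
      (O ^ 4 - 3 * O ^ 2 * S + S ^ 2 + S + E * (O ^ 3 - 2 * O * S)) * Y ^ 4 + Y ^ 5 * T :=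
  ⟨E * (O ^ 4 - 3 * O ^ 2 * S + S ^ 2 + S) - (-O * (O ^ 4 - 3 * O ^ 2 * S + S ^ 2 + S) +
    S * (O ^ 3 - 2 * O * S) - S * O + S * (O ^ 4 - 3 * O ^ 2 * S + S ^ 2 + S - (O ^ 2 - S)) * Y -
    S * (O ^ 3 - 2 * O * S) * Y ^ 2 - S * (O ^ 4 - 3 * O ^ 2 * S + S ^ 2 + S) * Y ^ 3) *
    (1 + E * Y) * I, by
    linear_combination (1 + E * Y) * (1 + O * Y + (O ^ 2 - S) * Y ^ 2 +
      (O ^ 3 - 2 * O * S) * Y ^ 3 + (O ^ 4 - 3 * O ^ 2 * S + S ^ 2 + S) * Y ^ 4) * h⟩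

theorem bkCoeff_eq (k r : ℕ) (hr : r ≤ 4) : bkCoeff k r = coeff k (bS r) := by
  have hO : serO = a3_i oS := by rw [oS, map_mul, map_pow, a3_X, a3_igs two_ne_zero, serO]
  have hE : serE = a3_i eS := by rw [eS, map_mul, map_pow, a3_X, a3_igs two_ne_zero, serE]
  have hS : serS = a3_i cS := by
    rw [cS, map_mul, map_mul, map_pow, a3_X, a3_igs (by norm_num), a3_igs (by norm_num), serS,
      MvPowerSeries.mul_inv_rev]
    ring
  obtain ⟨T, hT⟩ := a3_ring serO serE serS (MvPowerSeries.X 1) _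
    (MvPowerSeries.mul_inv_cancel _ (by simp))
  have h : serBK = a3_i (bS 0) * MvPowerSeries.X 1 ^ 0 + a3_i (bS 1) * MvPowerSeries.X 1 ^ 1 +
      a3_i (bS 2) * MvPowerSeries.X 1 ^ 2 + a3_i (bS 3) * MvPowerSeries.X 1 ^ 3 +
      a3_i (bS 4) * MvPowerSeries.X 1 ^ 4 + MvPowerSeries.X 1 ^ 5 * T := by
    rw [serBK, hT, hO, hE, hS]
    simp only [bS, uS, map_add, map_sub, map_mul, map_pow, map_one, map_ofNat]
  rw [bkCoeff, h]
  simp only [map_add, a3_coeff]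
  rw [MvPowerSeries.X_pow_dvd_iff.1 (dvd_mul_right _ T) _ (by simp; omega)]
  interval_cases r <;> simp

theorem a3_gs_eq {m : ℕ} (hm : m ≠ 0) {P : PowerSeries ℚ} (h : (1 - X ^ m) * P = 1 - X ^ 24) :
    gs m = P * gs 24 := by
  linear_combination (-gs m) * a3_gs (m := 24) (by norm_num) + P * gs 24 * a3_gs hm -
    gs m * gs 24 * h

theorem a3_12 : gs 12 = (1 + X ^ 12) * gs 24 := a3_gs_eq (by norm_num) (by ring)

theorem a3_8 : gs 8 = (1 + X ^ 8 + X ^ 16) * gs 24 := a3_gs_eq (by norm_num) (by ring)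

theorem a3_6 : gs 6 = (1 + X ^ 6) * (1 + X ^ 12) * gs 24 := a3_gs_eq (by norm_num) (by ring)

theorem a3_4 : gs 4 = (1 + X ^ 4) * (1 + X ^ 8 + X ^ 16) * gs 24 := a3_gs_eq (by norm_num) (by ring)

theorem a3_2 : gs 2 = (1 + X ^ 2) * (1 + X ^ 4) * (1 + X ^ 8 + X ^ 16) * gs 24 :=
  a3_gs_eq (by norm_num) (by ring)

theorem a3_sq (s : PowerSeries ℚ) : sq2 s = expand 2 two_ne_zero s := by
  ext k
  simp only [sq2, coeff_mk, coeff_expand, even_iff_two_dvd]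

theorem a3_exp {m : ℕ} (hm : m ≠ 0) : expand 2 two_ne_zero (gs m) = gs (2 * m) := by
  rw [gs.eq_1 (2 * m), PowerSeries.eq_inv_iff_mul_eq_one (by simp [hm]), mul_comm]
  simpa only [map_mul, map_sub, map_one, map_pow, expand_X, ← pow_mul] using
    congrArg (expand 2 two_ne_zero) (a3_gs hm)

theorem a3_sq2 : sq2 (X ^ 2 * ser2) = X ^ 16 * gs 4 * gs 12 := by
  simp only [a3_sq, ser2, map_mul, map_pow, expand_X, a3_exp two_ne_zero,
    a3_exp (show 6 ≠ 0 by norm_num)]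
  ring

theorem count_one : pS 1 = uS 1 := by
  simp [pS, uS, oS]

theorem count_two : X ^ 2 * ser2 + pS 2 = uS 2 := by
  simp only [pS, uS, oS, cS, ser2, Finset.prod_range_succ, Finset.prod_range_zero, Nat.reduceAdd,
    Nat.reduceMul, a3_2, a3_4, a3_6]
  ring

theorem count_three : X ^ 3 * ser3 + X ^ 2 * ser2 * pS 1 + pS 3 = uS 3 := by
  simp only [pS, uS, oS, cS, ser2, ser3, Finset.prod_range_succ, Finset.prod_range_zero,
    Nat.reduceAdd, Nat.reduceMul, a3_2, a3_4, a3_6]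
  ring

theorem count_four : X ^ 4 * ser4 + X ^ 3 * ser3 * pS 1 +
    (1 / 2 : ℚ) • ((X ^ 2 * ser2) ^ 2 + sq2 (X ^ 2 * ser2)) + X ^ 2 * ser2 * pS 2 + pS 4 =
      uS 4 := by
  have h2 : ∀ s : PowerSeries ℚ, 2 * (1 / 2 : ℚ) • s = s := fun s => by
    rw [two_mul, ← add_smul]; norm_num
  have h0 : (2 : PowerSeries ℚ) ≠ 0 := fun h => by
    simpa [map_ofNat] using congrArg constantCoeff h
  refine mul_left_cancel₀ h0 ?_
  simp only [mul_add, h2]
  rw [a3_sq2]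
  have h := a3_gs (m := 24) (by norm_num)
  have h3 : 2 * cS - X ^ 16 * gs 4 * gs 12 =
      (2 * cS - X ^ 16 * gs 4 * gs 12) * ((1 - X ^ 24) * gs 24) ^ 2 := by rw [h, one_pow, mul_one]
  simp only [pS, uS, oS, cS, ser2, ser3, ser4, Finset.prod_range_succ, Finset.prod_range_zero,
    Nat.reduceAdd, Nat.reduceMul, a3_2, a3_4, a3_6, a3_8, a3_12] at h3 ⊢
  linear_combination -h3

end Pool.Agent.MP_cbe134_nt.V
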