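import Pool.Agent.MP_cbe134_nt.VPoly

/- The apolar pairing and the dimension count for the intersection of two eigenspaces. -/

open MvPolynomial Matrix

namespace Pool.Agent.MP_cbe134_nt.V

/-- the apolar pairing `∑ α! f_α g_α` -/
noncomputable def Bp (n : ℕ) : Pn n →ₗ[ℚ] Pn n →ₗ[ℚ] ℚ :=
  (basisMonomials (Fin n) ℚ).constr ℚ fun α =>
    (α.prod fun _ k => (k.factorial : ℚ)) • lcoeff ℚ α

variable {n d : ℕ}

theorem apol_mon (α : Fin n →₀ ℕ) (c : ℚ) (g : Pn n) :
    Bp n (monomial α c) g = c * (∏ i, ((α i).factorial : ℚ)) * coeff α g := by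
  have h1 : Bp n (monomial α 1) = (α.prod fun _ k => (k.factorial : ℚ)) • lcoeff ℚ α := by
    rw [Bp, ← (basisMonomials (Fin n) ℚ).constr_basis ℚ
      (fun α => (α.prod fun _ k => (k.factorial : ℚ)) • lcoeff ℚ α) α, coe_basisMonomials]
  have h2 : (monomial α c : Pn n) = c • monomial α 1 := by rw [smul_monomial, smul_eq_mul, mul_one]
  rw [h2, map_smul, h1, Finsupp.prod_fintype _ _ (by simp)]
  simp [mul_assoc]

theorem apol_X (i : Fin n) (f g : Pn n) : Bp n (f * X i) g = Bp n f (pderiv i g) := by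
  induction f using MvPolynomial.induction_on' with
  | add p q hp hq => rw [add_mul, map_add, map_add, LinearMap.add_apply, LinearMap.add_apply, hp, hq]
  | monomial α c =>
    have h1 : ∏ j, (((α + Finsupp.single i 1 : Fin n →₀ ℕ) j).factorial : ℚ) =
        (∏ j, ((α j).factorial : ℚ)) * (α i + 1) := by
      rw [← Finset.mul_prod_erase _ _ (Finset.mem_univ i),
        ← Finset.mul_prod_erase _ (fun j => ((α j).factorial : ℚ)) (Finset.mem_univ i),
        Finset.prod_congr rfl (g := fun j => ((α j).factorial : ℚ)) fun j hj => by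
          simp [Finsupp.single_apply, (Finset.ne_of_mem_erase hj).symm]]
      simp only [Finsupp.add_apply, Finsupp.single_eq_same, Nat.factorial_succ]
      push_cast
      ring
    rw [X, monomial_mul, mul_one, apol_mon, apol_mon, coeff_pderiv, h1]
    ring

theorem apol_chain (A : Mx n) (i : Fin n) (g : Pn n) :
    pderiv i (sub A g) = ∑ j, (A j i : ℚ) • sub A (pderiv j g) := by
  induction g using MvPolynomial.induction_on with
  | C a => simp [sub]
  | add p q hp hq => simp only [map_add, hp, hq, smul_add, Finset.sum_add_distrib]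
  | mul_X p k hp =>
    have h1 : pderiv i (sub A (X k)) = C (A k i : ℚ) := by
      simp [sub, Pi.single_apply]
    have h2 : ∑ j, (A j i : ℚ) • sub A (p * pderiv j (X k : Pn n)) = sub A p * C (A k i : ℚ) := by
      rw [Finset.sum_eq_single k (fun j _ hj => by rw [pderiv_X_of_ne hj.symm]; simp) (by simp),
        pderiv_X_self, mul_one, smul_eq_C_mul, mul_comm]
    simp only [pderiv_mul, map_add, smul_add, Finset.sum_add_distrib, h2]
    rw [map_mul, pderiv_mul, hp, h1, Finset.sum_mul]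
    simp only [map_mul, smul_mul_assoc]

theorem Bp_sub (A : Mx n) (f g : Pn n) : Bp n (sub Aᵀ f) g = Bp n f (sub A g) := by
  induction f using MvPolynomial.induction_on generalizing g with
  | C a =>
    have h1 : coeff 0 (sub A g) = coeff 0 g := by
      have h2 := eval_sub A g 0
      rw [show mv A 0 = 0 from funext fun i => by simp [mv], eval_zero, constantCoeff_eq] at h2
      exact h2
    rw [show sub Aᵀ (C a) = C a by simp [sub], C_apply, apol_mon, apol_mon, h1]
  | add p q hp hq => simp only [map_add, LinearMap.add_apply, hp, hq]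
  | mul_X p i hp =>
    have h1 : sub Aᵀ (p * X i) = ∑ j, (A j i : ℚ) • (sub Aᵀ p * X j) := by
      rw [map_mul, show sub Aᵀ (X i) = ∑ j, C (A j i : ℚ) * X j by simp [sub], Finset.mul_sum]
      exact Finset.sum_congr rfl fun j _ => by rw [smul_eq_C_mul]; ring
    rw [h1, apol_X, apol_chain]
    simp only [map_sum, map_smul, LinearMap.sum_apply, LinearMap.smul_apply, apol_X, hp]

theorem apol_def {f : Pn n} (h : Bp n f f = 0) : f = 0 := by
  have h1 : Bp n f f = ∑ α ∈ f.support, coeff α f * (∏ i, ((α i).factorial : ℚ)) * coeff α f := by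
    conv_lhs => enter [1, 2]; rw [f.as_sum]
    simp only [map_sum, LinearMap.sum_apply, apol_mon]
  have h2 : ∀ α : Fin n →₀ ℕ, 0 < ∏ i, ((α i).factorial : ℚ) := fun α => by positivity
  rw [h1, Finset.sum_eq_zero_iff_of_nonneg fun α _ => by
    rw [mul_right_comm]; exact mul_nonneg (mul_self_nonneg _) (h2 α).le] at h
  by_contra h0
  obtain ⟨α, hα⟩ := support_nonempty.2 h0
  have h3 := mem_support_iff.1 hα
  exact mul_ne_zero (mul_ne_zero h3 (h2 α).ne') h3 (h α hα)

theorem Bp_dim (L W : Submodule ℚ (Pn n)) (hL : L ≤ Hd n d) (hW : W ≤ Hd n d)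
    (h : ∀ f ∈ L, ∀ g ∈ W, Bp n f g = 0) :
    Module.finrank ℚ L + Module.finrank ℚ W ≤ Module.finrank ℚ (Hd n d) := by
  have := fin_of_le hL
  have := fin_of_le hW
  have h1 : L ⊓ W = ⊥ := eq_bot_iff.2 fun f hf => apol_def (h f hf.1 f hf.2)
  rw [← Submodule.finrank_sup_add_finrank_inf_eq, h1, finrank_bot, add_zero]
  exact Submodule.finrank_mono (sup_le hL hW)

theorem red_dim (p : Pn n →ₗ[ℚ] Pn n) (hp : ∀ g ∈ Hd n d, p g ∈ Hd n d)
    (hpp : ∀ g ∈ Hd n d, p (p g) = p g) (L U Rx Ry : Submodule ℚ (Pn n)) (hL : L ≤ Hd n d)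
    (hU : ∀ g, g ∈ U ↔ g ∈ Hd n d ∧ p g = g) (hx : Rx ≤ U) (hy : Ry ≤ U)
    (oN : ∀ f ∈ L, ∀ g ∈ Hd n d, p g = 0 → Bp n f g = 0)
    (ox : ∀ f ∈ L, ∀ g ∈ Rx, Bp n f g = 0) (oy : ∀ f ∈ L, ∀ g ∈ Ry, Bp n f g = 0) :
    Module.finrank ℚ L + Module.finrank ℚ Rx + Module.finrank ℚ Ry ≤
      Module.finrank ℚ U + Module.finrank ℚ (Rx ⊓ Ry : Submodule ℚ (Pn n)) := by
  have hUH : U ≤ Hd n d := fun g hg => ((hU g).1 hg).1
  have hR : Rx ⊔ Ry ≤ U := sup_le hx hy
  have hN : Hd n d ⊓ LinearMap.ker p ≤ Hd n d := inf_le_left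
  have := fin_of_le hUH
  have := fin_of_le hN
  have := fin_of_le (hx.trans hUH)
  have := fin_of_le (hy.trans hUH)
  have h1 : U ⊓ (Hd n d ⊓ LinearMap.ker p) = ⊥ :=
    eq_bot_iff.2 fun g hg => ((hU g).1 hg.1).2.symm.trans hg.2.2
  have h2 : Hd n d ≤ U ⊔ (Hd n d ⊓ LinearMap.ker p) := fun g hg => by
    rw [← add_sub_cancel (p g) g]
    exact Submodule.add_mem_sup ((hU _).2 ⟨hp g hg, hpp g hg⟩)
      ⟨Submodule.sub_mem _ hg (hp g hg), by
        rw [SetLike.mem_coe, LinearMap.mem_ker, map_sub, hpp g hg, sub_self]⟩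
  have h3 := Submodule.finrank_mono h2
  have h4 := Submodule.finrank_sup_add_finrank_inf_eq U (Hd n d ⊓ LinearMap.ker p)
  have h5 := Submodule.finrank_sup_add_finrank_inf_eq (Rx ⊔ Ry) (Hd n d ⊓ LinearMap.ker p)
  have h6 := Submodule.finrank_sup_add_finrank_inf_eq Rx Ry
  have h7 := Bp_dim L ((Rx ⊔ Ry) ⊔ (Hd n d ⊓ LinearMap.ker p)) hL (sup_le (hR.trans hUH) hN)
    fun f hf => (show _ ≤ LinearMap.ker (Bp n f) from
      sup_le (sup_le (ox f hf) (oy f hf)) fun g hg => oN f hf g hg.1 hg.2)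
  rw [eq_bot_iff.2 ((inf_le_inf_right _ hR).trans h1.le), finrank_bot] at h5
  omega

end Pool.Agent.MP_cbe134_nt.V
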