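import Pool.Agent.MP_cbe134_nt.VD2

/- General lemmas on the vanishing of first cohomology. -/

namespace Pool.Agent.MP_cbe134_nt.V

variable {G : Type} [Group G] {E : Type} [AddCommGroup E] [Module ℚ E]
  {S P N K W : Subgroup G} {ρ : G → E →ₗ[ℚ] E} {T F : Submodule ℚ E}

theorem mem_cnj {a g : G} : a ∈ cnj P g ↔ g⁻¹ * a * g ∈ P := Iff.rfl

theorem mem_Fx {v : E} : v ∈ Fx N ρ T ↔ v ∈ T ∧ ∀ a ∈ N, ρ a v = v := Iff.rfl

theorem Act.mono (h : P ≤ S) (hA : Act S ρ) : Act P ρ := by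
  exact ⟨hA.1, fun a ha b hb => hA.2 a (h ha) b (h hb)⟩

theorem Stb.mono (h : P ≤ S) (hT : Stb S ρ T) : Stb P ρ T := by
  exact fun a ha => hT a (h ha)

theorem stb_top : Stb S ρ ⊤ := by
  exact fun _ _ _ _ => Submodule.mem_top

theorem V0.mono (h : P ≤ S) (hF : F ≤ T) (h0 : V0 P ρ T) : V0 S ρ F := by
  exact fun v hv e => h0 v (hF hv) fun a ha => e a (h ha)

theorem stb_Fx (hN : N ≤ S) (hA : Act S ρ) (hT : Stb S ρ T)
    (hn : ∀ g ∈ S, ∀ a ∈ N, g⁻¹ * a * g ∈ N) : Stb S ρ (Fx N ρ T) := by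
  intro g hg v hv
  refine ⟨hT g hg v hv.1, fun a ha => ?_⟩
  have e : a * g = g * (g⁻¹ * a * g) := by group
  rw [← hA.2 a (hN ha) g hg, e, hA.2 g hg _ (hN (hn g hg a ha)), hv.2 _ (hn g hg a ha)]

theorem c1_red (hP : P ≤ S) (hA : Act S ρ) (hT : Stb S ρ T) (h1 : V1 P ρ T)
    (h : ∀ c : G → E, (∀ a ∈ S, c a ∈ T) → (∀ a ∈ S, ∀ b ∈ S, c (a * b) = c a + ρ a (c b)) →
      (∀ a ∈ P, c a = 0) → ∃ v ∈ T, ∀ a ∈ S, c a = ρ a v - v) : V1 S ρ T := by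
  intro c hc hcc
  obtain ⟨v, hv, e⟩ := h1 c (fun a ha => hc a (hP ha)) fun a ha b hb => hcc a (hP ha) b (hP hb)
  obtain ⟨w, hw, e'⟩ := h (fun a => c a - (ρ a v - v))
    (fun a ha => sub_mem (hc a ha) (sub_mem (hT a ha v hv) hv))
    (fun a ha b hb => by
      rw [hcc a ha b hb, hA.2 a ha b hb, map_sub, map_sub]
      abel)
    (fun a ha => by rw [e a ha, sub_self])
  refine ⟨v + w, add_mem hv hw, fun a ha => ?_⟩
  rw [map_add, sub_eq_iff_eq_add.1 (e' a ha)]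
  abel

theorem c1_fix (hP : P ≤ S) {c : G → E}
    (hcc : ∀ a ∈ S, ∀ b ∈ S, c (a * b) = c a + ρ a (c b)) (hz : ∀ a ∈ P, c a = 0) {g p : G}
    (hg : g ∈ S) (hp : p ∈ P) (hp' : g⁻¹ * p * g ∈ P) : ρ p (c g) = c g := by
  have e : p * g = g * (g⁻¹ * p * g) := by group
  have h2 := hcc p (hP hp) g hg
  rw [e, hcc g hg _ (hP hp'), hz _ hp', hz _ hp, map_zero, add_zero, zero_add] at h2
  exact h2.symm

theorem amal1 (hP : P ≤ S) (hA : Act S ρ) (hT : Stb S ρ T) (h1 : V1 P ρ T)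
    (h0 : ∀ g ∈ S, V0 (P ⊓ cnj P g) ρ T) : V1 S ρ T := by
  refine c1_red hP hA hT h1 fun c hc hcc hz => ⟨0, zero_mem _, fun g hg => ?_⟩
  rw [map_zero, sub_zero]
  exact h0 g hg (c g) (hc g hg) fun p hp => c1_fix hP hcc hz hg hp.1 hp.2

theorem ext1 (hN : N ≤ S) (hK : K ≤ S) (hA : Act S ρ) (hT : Stb S ρ T)
    (hn : ∀ g ∈ S, ∀ a ∈ N, g⁻¹ * a * g ∈ N) (hd : ∀ g ∈ S, ∃ a ∈ N, ∃ k ∈ K, g = a * k)
    (h1 : V1 N ρ T) (h2 : V1 K ρ (Fx N ρ T)) : V1 S ρ T := by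
  refine c1_red hN hA hT h1 fun c hc hcc hz => ?_
  have hf : ∀ k ∈ S, c k ∈ Fx N ρ T := fun k hk =>
    ⟨hc k hk, fun a ha => c1_fix hN hcc hz hk ha (hn k hk a ha)⟩
  obtain ⟨v, hv, e⟩ := h2 c (fun k hk => hf k (hK hk))
    fun a ha b hb => hcc a (hK ha) b (hK hb)
  refine ⟨v, hv.1, fun g hg => ?_⟩
  obtain ⟨a, ha, k, hk, rfl⟩ := hd g hg
  rw [hcc a (hN ha) k (hK hk), hz a ha, zero_add, (hf k (hK hk)).2 a ha, e k hk,
    hA.2 a (hN ha) k (hK hk), (stb_Fx hN hA hT hn k (hK hk) v hv).2 a ha]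

theorem c1_one (hA : Act S ρ) {c : G → E}
    (hcc : ∀ a ∈ S, ∀ b ∈ S, c (a * b) = c a + ρ a (c b)) : c 1 = 0 := by
  have h := hcc 1 (one_mem _) 1 (one_mem _)
  rw [one_mul, hA.1] at h
  exact left_eq_add.1 h

theorem cyc1 (τ : G) (hA : Act (Subgroup.zpowers τ) ρ)
    (hs : ∀ v ∈ T, ∃ u ∈ T, ρ τ u - u = v) : V1 (Subgroup.zpowers τ) ρ T := by
  intro c hc hcc
  obtain ⟨u, hu, e⟩ := hs (c τ) (hc τ (Subgroup.mem_zpowers τ))
  refine ⟨u, hu, ?_⟩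
  have h1 := c1_one hA hcc
  rw [Subgroup.zpowers_eq_closure] at hA hcc ⊢
  intro a ha
  induction ha using Subgroup.closure_induction with
  | mem x hx => rw [Set.mem_singleton_iff.1 hx, e]
  | one => rw [h1, hA.1, sub_self]
  | mul x y hx hy ex ey =>
    rw [hcc x hx y hy, ex, ey, hA.2 x hx y hy, map_sub]
    abel
  | inv x hx ex =>
    have h2 := hcc x⁻¹ (inv_mem hx) x hx
    rw [inv_mul_cancel, h1, ex, map_sub, ← hA.2 _ (inv_mem hx) x hx, inv_mul_cancel, hA.1] at h2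
    rw [eq_neg_of_add_eq_zero_left h2.symm, neg_sub]

theorem fin1 (hS : (S : Set G).Finite) (hA : Act S ρ) : V1 S ρ T := by
  intro c hc hcc
  haveI : Fintype S := hS.fintype
  have hn : (Fintype.card S : ℚ) ≠ 0 := Nat.cast_ne_zero.2 Fintype.card_ne_zero
  refine ⟨-(Fintype.card S : ℚ)⁻¹ • ∑ s : S, c s,
    Submodule.smul_mem _ _ (Submodule.sum_mem _ fun s _ => hc s s.2), fun a ha => ?_⟩
  have h2 : ∀ s : S, c ((Equiv.mulLeft (⟨a, ha⟩ : S) s : S) : G) = c a + ρ a (c s) :=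
    fun s => hcc a ha s s.2
  have h1 := Equiv.sum_comp (Equiv.mulLeft (⟨a, ha⟩ : S)) fun s : S => c s
  rw [Finset.sum_congr rfl fun s _ => h2 s, Finset.sum_add_distrib, Finset.sum_const,
    Finset.card_univ, ← map_sum, ← Nat.cast_smul_eq_nsmul ℚ] at h1
  rw [map_smul, ← smul_sub, eq_sub_of_add_eq' h1, sub_sub_cancel_left, neg_smul_neg, smul_smul,
    inv_mul_cancel₀ hn, one_smul]

theorem ses1 (h0 : V0m S ρ F) (h1 : V1 S ρ ⊤) : V1 S ρ F := by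
  intro c hc hcc
  obtain ⟨v, -, e⟩ := h1 c (fun _ _ => Submodule.mem_top) hcc
  exact ⟨v, h0 v fun a ha => e a ha ▸ hc a ha, e⟩

theorem ses2 (hA : Act S ρ) (h1 : V1m S ρ F) (h2 : V2 S ρ ⊤) : V2 S ρ F := by
  intro c hc hcc
  obtain ⟨β, -, e⟩ := h2 c (fun _ _ _ _ => Submodule.mem_top) hcc
  obtain ⟨v, hv⟩ := h1 β fun a ha b hb => e a ha b hb ▸ hc a ha b hb
  refine ⟨fun a => β a - (ρ a v - v), hv, fun a ha b hb => ?_⟩
  dsimp only
  rw [e a ha b hb, hA.2 a ha b hb, map_sub, map_sub]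
  abel

theorem V0.cnj (hS : S ≤ W) (hA : Act W ρ) (hT : Stb W ρ T) {g : G} (hg : g ∈ W)
    (h : V0 S ρ T) : V0 (cnj S g) ρ T := by
  intro v hv e
  have h1 := h (ρ g⁻¹ v) (hT _ (inv_mem hg) v hv) fun s hs => by
    have h2 : s * g⁻¹ = g⁻¹ * (g * s * g⁻¹) := by group
    have h3 : g * s * g⁻¹ ∈ V.cnj S g := by
      rw [mem_cnj]
      simpa [mul_assoc] using hs
    rw [← hA.2 s (hS hs) _ (inv_mem hg), h2,
      hA.2 _ (inv_mem hg) _ (mul_mem (mul_mem hg (hS hs)) (inv_mem hg)), e _ h3]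
  rw [← hA.1 v, ← mul_inv_cancel g, hA.2 g hg _ (inv_mem hg), h1, map_zero]

theorem V1.cnj (hS : S ≤ W) (hA : Act W ρ) (hT : Stb W ρ T) {g : G} (hg : g ∈ W)
    (h : V1 S ρ T) : V1 (cnj S g) ρ T := by
  intro c hc hcc
  have h3 : ∀ s ∈ S, g * s * g⁻¹ ∈ V.cnj S g := fun s hs => by
    rw [mem_cnj]
    simpa [mul_assoc] using hs
  obtain ⟨v, hv, e⟩ := h (fun s => ρ g⁻¹ (c (g * s * g⁻¹)))
    (fun s hs => hT _ (inv_mem hg) _ (hc _ (h3 s hs))) fun s hs t ht => by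
      have h4 : g * (s * t) * g⁻¹ = g * s * g⁻¹ * (g * t * g⁻¹) := by group
      have h2 : g⁻¹ * (g * s * g⁻¹) = s * g⁻¹ := by group
      rw [h4, hcc _ (h3 s hs) _ (h3 t ht), map_add,
        ← hA.2 _ (inv_mem hg) _ (mul_mem (mul_mem hg (hS hs)) (inv_mem hg)), h2,
        hA.2 s (hS hs) _ (inv_mem hg)]
  refine ⟨ρ g v, hT g hg v hv, fun a ha => ?_⟩
  have h5 : g⁻¹ * a * g ∈ S := ha
  have h6 : g * (g⁻¹ * a * g) * g⁻¹ = a := by group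
  have h7 : g * (g⁻¹ * a * g) = a * g := by group
  have h8 : a ∈ W := h6 ▸ mul_mem (mul_mem hg (hS h5)) (inv_mem hg)
  have h9 := congrArg (ρ g) (e _ h5)
  rwa [h6, ← hA.2 g hg _ (inv_mem hg), mul_inv_cancel, hA.1, map_sub, ← hA.2 g hg _ (hS h5), h7,
    hA.2 a h8 g hg] at h9

theorem V1.of_bij {E' : Type} [AddCommGroup E'] [Module ℚ E'] {ρ' : G → E' →ₗ[ℚ] E'}
    {T' : Submodule ℚ E'} (φ : E →ₗ[ℚ] E') (hφ : Set.BijOn φ T T') (hT : Stb S ρ T)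
    (hρ : ∀ a ∈ S, ∀ v ∈ T, φ (ρ a v) = ρ' a (φ v)) (h : V1 S ρ' T') : V1 S ρ T := by
  intro c hc hcc
  obtain ⟨v', hv', e⟩ := h (fun a => φ (c a)) (fun a ha => hφ.mapsTo (hc a ha))
    fun a ha b hb => by rw [hcc a ha b hb, map_add, hρ a ha _ (hc b hb)]
  obtain ⟨v, hv, rfl⟩ := hφ.surjOn hv'
  refine ⟨v, hv, fun a ha => hφ.injOn (hc a ha) (sub_mem (hT a ha v hv) hv) ?_⟩
  rw [e a ha, map_sub, hρ a ha v hv]

theorem V2.of_bij {E' : Type} [AddCommGroup E'] [Module ℚ E'] {ρ' : G → E' →ₗ[ℚ] E'}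
    {T' : Submodule ℚ E'} (φ : E →ₗ[ℚ] E') (hφ : Set.BijOn φ T T') (hT : Stb S ρ T)
    (hρ : ∀ a ∈ S, ∀ v ∈ T, φ (ρ a v) = ρ' a (φ v)) (h : V2 S ρ' T') : V2 S ρ T := by
  intro c hc hcc
  obtain ⟨β', hβ, e⟩ := h (fun a b => φ (c a b)) (fun a ha b hb => hφ.mapsTo (hc a ha b hb))
    fun a ha b hb d hd => by
      rw [← hρ a ha _ (hc b hb d hd), ← map_add, ← map_add, hcc a ha b hb d hd]
  have h1 : ∀ a, ∃ v, a ∈ S → v ∈ T ∧ φ v = β' a := fun a => by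
    by_cases ha : a ∈ S
    · obtain ⟨v, hv, e'⟩ := hφ.surjOn (hβ a ha)
      exact ⟨v, fun _ => ⟨hv, e'⟩⟩
    · exact ⟨0, fun h' => absurd h' ha⟩
  choose β hb using h1
  refine ⟨β, fun a ha => (hb a ha).1, fun a ha b hb' => hφ.injOn (hc a ha b hb')
    (add_mem (sub_mem (hT a ha _ (hb b hb').1) (hb _ (mul_mem ha hb')).1) (hb a ha).1) ?_⟩
  rw [e a ha b hb', map_add, map_sub, hρ a ha _ (hb b hb').1, (hb b hb').2, (hb a ha).2,
    (hb _ (mul_mem ha hb')).2]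

theorem V2.aut {G' : Type} [Group G'] (θ : G' ≃* G) (h : V2 ⊤ ρ T) :
    V2 ⊤ (fun g => ρ (θ g)) T := by
  intro c hc hcc
  obtain ⟨β, hβ, e⟩ := h (fun a b => c (θ.symm a) (θ.symm b))
    (fun a _ b _ => hc _ trivial _ trivial) fun a _ b _ d _ => by
      have h1 := hcc (θ.symm a) trivial (θ.symm b) trivial (θ.symm d) trivial
      simpa only [MulEquiv.apply_symm_apply, map_mul] using h1
  refine ⟨fun a => β (θ a), fun a _ => hβ _ trivial, fun a _ b _ => ?_⟩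
  simpa only [MulEquiv.symm_apply_apply, map_mul] using e (θ a) trivial (θ b) trivial

theorem V1.map {G' : Type} [Group G'] (ι : G' →* G) {S' : Subgroup G'}
    (h : V1 S' (fun g => ρ (ι g)) T) : V1 (S'.map ι) ρ T := by
  intro c hc hcc
  obtain ⟨v, hv, e⟩ := h (fun a => c (ι a)) (fun a ha => hc _ ⟨a, ha, rfl⟩)
    fun a ha b hb => by rw [map_mul, hcc _ ⟨a, ha, rfl⟩ _ ⟨b, hb, rfl⟩]
  refine ⟨v, hv, ?_⟩
  rintro _ ⟨a, ha, rfl⟩
  exact e a ha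

/-- action through a sign character -/
theorem sgn1 (χ : G → ℚ) (hχ : ∀ a ∈ S, χ a = 1 ∨ χ a = -1)
    (hm : ∀ a ∈ S, ∀ b ∈ S, χ (a * b) = χ a * χ b) (hρ : ∀ a ∈ S, ∀ v ∈ T, ρ a v = χ a • v)
    {r : G} (hr : r ∈ S) (hr' : χ r = -1)
    (hadd : ∀ c : G → E, (∀ a ∈ S, ∀ b ∈ S, χ a = 1 → χ b = 1 → c (a * b) = c a + c b) →
      ∀ a ∈ S, χ a = 1 → c a = 0) : V1 S ρ T := by
  intro c hc hcc
  have hz := hadd c fun a ha b hb ea _ => by
    rw [hcc a ha b hb, hρ a ha _ (hc b hb), ea, one_smul]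
  have hv : (-(1 / 2 : ℚ)) • c r ∈ T := Submodule.smul_mem _ _ (hc r hr)
  refine ⟨_, hv, fun a ha => ?_⟩
  rw [hρ a ha _ hv]
  rcases hχ a ha with e | e
  · rw [hz a ha e, e, one_smul, sub_self]
  · have h1 : a * r⁻¹ ∈ S := mul_mem ha (inv_mem hr)
    have h2 := hm _ h1 r hr
    rw [inv_mul_cancel_right, e, hr'] at h2
    have h3 : χ (a * r⁻¹) = 1 := by linarith
    have h4 := hcc _ h1 r hr
    rw [inv_mul_cancel_right, hz _ h1 h3, zero_add, hρ _ h1 _ (hc r hr), h3, one_smul] at h4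
    rw [h4, e]
    module

/-- first cohomology of functions on a set with finite stabilisers -/
theorem shapiro1 {X : Type} (act : G → X → X) (h1 : ∀ x, act 1 x = x)
    (hm : ∀ a b x, act (a * b) x = act a (act b x)) (Vx : Set X)
    (hV : ∀ a, ∀ x ∈ Vx, act a x ∈ Vx) (hfin : ∀ x ∈ Vx, {a | act a x = x}.Finite)
    (hA : Act ⊤ ρ) (hT : Stb ⊤ ρ T) (b : G → X → E) (hb : ∀ a, ∀ x ∈ Vx, b a x ∈ T)
    (hc : ∀ a a', ∀ x ∈ Vx, b (a * a') x = b a x + ρ a (b a' (act a⁻¹ x))) :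
    ∃ β : X → E, (∀ x ∈ Vx, β x ∈ T) ∧
      ∀ a, ∀ x ∈ Vx, b a x = ρ a (β (act a⁻¹ x)) - β x := by
  have hi : ∀ a x, act a⁻¹ (act a x) = x := fun a x => by rw [← hm, inv_mul_cancel, h1]
  have hi' : ∀ a x, act a (act a⁻¹ x) = x := fun a x => by rw [← hm, mul_inv_cancel, h1]
  let s : Setoid X := ⟨fun x y => ∃ g, act g x = y, fun x => ⟨1, h1 x⟩,
    fun ⟨g, e⟩ => ⟨g⁻¹, e ▸ hi g _⟩, fun ⟨g, e⟩ ⟨g', e'⟩ => ⟨g' * g, by rw [hm, e, e']⟩⟩
  obtain ⟨o, ho, ho'⟩ : ∃ o : X → X, (∀ x, ∃ g, act g (o x) = x) ∧ ∀ a x, o (act a x) = o x :=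
    ⟨fun x => (Quotient.mk s x).out, fun x => Quotient.mk_out (s := s) x,
      fun a x => congrArg Quotient.out (Quotient.sound (s := s) ⟨a⁻¹, hi a x⟩)⟩
  choose γ hγ using ho
  have hoV : ∀ x ∈ Vx, o x ∈ Vx := fun x hx => by
    rw [← hi (γ x) (o x), hγ]
    exact hV _ x hx
  have h2 : ∀ y, ∃ v, y ∈ Vx → v ∈ T ∧ ∀ a, act a y = y → b a y = ρ a v - v := fun y => by
    by_cases hy : y ∈ Vx
    · let St : Subgroup G :=
        { carrier := {a | act a y = y}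
          mul_mem' := fun {a a'} ha ha' => by
            change act (a * a') y = y
            rw [hm, show act a' y = y from ha', show act a y = y from ha]
          one_mem' := h1 y
          inv_mem' := fun {a} ha => by
            change act a⁻¹ y = y
            conv_lhs => rw [← show act a y = y from ha]
            exact hi a y }
      obtain ⟨v, hv, e⟩ := fin1 (S := St) (T := T) (hfin y hy) (hA.mono le_top) (fun a => b a y)
        (fun a _ => hb a y hy) fun a ha a' _ => by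
          rw [hc a a' y hy, show act a⁻¹ y = y from St.inv_mem ha]
      exact ⟨v, fun _ => ⟨hv, e⟩⟩
    · exact ⟨0, fun h => absurd h hy⟩
  choose v hv using h2
  have key : ∀ y ∈ Vx, ∀ g g', act g y = act g' y →
      ρ g (v y) - b g (act g y) = ρ g' (v y) - b g' (act g y) := fun y hy g g' e => by
    have h3 : act (g⁻¹ * g') y = y := by rw [hm, ← e, hi]
    have h4 := hc g (g⁻¹ * g') _ (hV g y hy)
    rw [mul_inv_cancel_left, hi, (hv y hy).2 _ h3, map_sub, ← hA.2 g trivial _ trivial,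
      mul_inv_cancel_left] at h4
    rw [h4]
    abel
  refine ⟨fun x => ρ (γ x) (v (o x)) - b (γ x) x, fun x hx =>
    sub_mem (hT _ trivial _ (hv _ (hoV x hx)).1) (hb _ x hx), fun a x hx => ?_⟩
  have h5 := hγ (act a⁻¹ x)
  rw [ho'] at h5
  have h6 := key (o x) (hoV x hx) (γ x) (a * γ (act a⁻¹ x)) (by rw [hγ, hm, h5, hi'])
  rw [hγ] at h6
  dsimp only
  rw [ho', h6, hc a _ x hx, hA.2 a trivial _ trivial, map_sub]
  abel

end Pool.Agent.MP_cbe134_nt.V
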