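import Pool.Agent.MP_cbe134_nt.VC1

/- General lemmas on the vanishing of second cohomology. -/

namespace Pool.Agent.MP_cbe134_nt.V

variable {G : Type} [Group G] {E : Type} [AddCommGroup E] [Module ℚ E]
  {S P N K : Subgroup G} {ρ : G → E →ₗ[ℚ] E} {T : Submodule ℚ E}

/-- the cocycle identity -/
def c2_Co (S : Subgroup G) (ρ : G → E →ₗ[ℚ] E) (c : G → G → E) : Prop :=
  ∀ a ∈ S, ∀ b ∈ S, ∀ e ∈ S, ρ a (c b e) + c a (b * e) = c (a * b) e + c a b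

theorem c2_cob (hA : Act S ρ) {c : G → G → E} (hc : c2_Co S ρ c) (β : G → E) :
    c2_Co S ρ fun a b => c a b + (ρ a (β b) - β (a * b) + β a) := fun a ha b hb e he => by
  have h := hc a ha b hb e he
  simp only [map_add, map_sub, hA.2 a ha b hb, mul_assoc]
  linear_combination (norm := abel) h

theorem c2_norm (hP : P ≤ S) (hA : Act S ρ) (hT : Stb S ρ T) (h2 : V2 P ρ T)
    (H : ∀ c : G → G → E, (∀ a ∈ S, ∀ b ∈ S, c a b ∈ T) → c2_Co S ρ c →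
      (∀ a ∈ P, ∀ b ∈ P, c a b = 0) → ∃ f : G → E, (∀ a ∈ S, f a ∈ T) ∧
        ∀ a ∈ S, ∀ b ∈ S, f a + ρ a (f b) + c a b = f (a * b)) : V2 S ρ T := by
  classical
  intro c hc hc'
  obtain ⟨β, h3, h4⟩ := h2 c (fun a ha b hb => hc a (hP ha) b (hP hb))
    fun a ha b hb e he => hc' a (hP ha) b (hP hb) e (hP he)
  have h5 : ∀ a, (if a ∈ P then -β a else 0) ∈ T := fun a => by
    split_ifs with h
    · exact neg_mem (h3 a h)
    · exact zero_mem _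
  obtain ⟨f, h6, h7⟩ := H _
    (fun a ha b hb => add_mem (hc a ha b hb) (add_mem (sub_mem (hT a ha _ (h5 b)) (h5 _)) (h5 a)))
    (c2_cob hA hc' fun a => if a ∈ P then -β a else 0) fun a ha b hb => by
      rw [if_pos ha, if_pos hb, if_pos (mul_mem ha hb), h4 a ha b hb, map_neg]
      abel
  refine ⟨fun a => -(f a + if a ∈ P then -β a else 0), fun a ha => neg_mem (add_mem (h6 a ha) (h5 a)),
    fun a ha b hb => ?_⟩
  have h8 := h7 a ha b hb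
  simp only [map_neg, map_add]
  linear_combination (norm := abel) h8

theorem c2_ex (hP : P ≤ S) (hT : Stb S ρ T) (h1 : ∀ g ∈ S, V1 (P ⊓ cnj P g) ρ T)
    {c : G → G → E} (hc : ∀ a ∈ S, ∀ b ∈ S, c a b ∈ T) (hc' : c2_Co S ρ c)
    (h0 : ∀ a ∈ P, ∀ b ∈ P, c a b = 0) : ∃ e : G → E, ∀ g ∈ S, e g ∈ T ∧
      ∀ p ∈ P, ∀ p' ∈ P, p * g = g * p' → ρ p (e g) = e g + (c g p' - c p g) := by
  have _ := hT
  have key : ∀ g, ∃ v, g ∈ S → v ∈ T ∧
      ∀ p ∈ P, ∀ p' ∈ P, p * g = g * p' → ρ p v = v + (c g p' - c p g) := by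
    intro g
    by_cases hg : g ∈ S
    swap
    · exact ⟨0, fun h => absurd h hg⟩
    obtain ⟨v, hv, hv'⟩ := h1 g hg (fun p => c g (g⁻¹ * p * g) - c p g)
      (fun p hp => sub_mem (hc g hg _ (hP hp.2)) (hc p (hP hp.1) g hg)) fun p hp q hq => by
        have e1 := hc' p (hP hp.1) q (hP hq.1) g hg
        have e2 := hc' g hg _ (hP hp.2) _ (hP hq.2)
        have e3 := hc' p (hP hp.1) g hg _ (hP hq.2)
        rw [h0 p hp.1 q hq.1] at e1
        rw [h0 _ hp.2 _ hq.2, map_zero, show g * (g⁻¹ * p * g) = p * g by group,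
          show g⁻¹ * p * g * (g⁻¹ * q * g) = g⁻¹ * (p * q) * g by group] at e2
        rw [show g * (g⁻¹ * q * g) = q * g by group] at e3
        rw [map_sub]
        linear_combination (norm := abel) e1 + e2 - e3
    refine ⟨v, fun _ => ⟨hv, fun p hp p' hp' e => ?_⟩⟩
    have e1 : g⁻¹ * p * g = p' := by rw [mul_assoc, e, inv_mul_cancel_left]
    have e2 := hv' p ⟨hp, show g⁻¹ * p * g ∈ P from e1 ▸ hp'⟩
    rw [e1] at e2
    rw [e2]
    abel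
  choose e he using key
  exact ⟨e, he⟩

theorem c2_fix (hP : P ≤ S) (hA : Act S ρ) {c : G → G → E} (hc' : c2_Co S ρ c) {e : G → E}
    (he : ∀ g ∈ S, e g ∈ T ∧
      ∀ p ∈ P, ∀ p' ∈ P, p * g = g * p' → ρ p (e g) = e g + (c g p' - c p g))
    {g h p : G} (hg : g ∈ S) (hh : h ∈ S) (hp : p ∈ P) (hp' : g⁻¹ * p * g ∈ P)
    (hp'' : (g * h)⁻¹ * p * (g * h) ∈ P) :
    ρ p (c g h + (ρ g (e h) - e (g * h) + e g)) = c g h + (ρ g (e h) - e (g * h) + e g) := by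
  have a1 : p * g = g * (g⁻¹ * p * g) := by group
  have a2 : g⁻¹ * p * g * h = h * ((g * h)⁻¹ * p * (g * h)) := by group
  have a3 : p * (g * h) = g * h * ((g * h)⁻¹ * p * (g * h)) := by group
  generalize (g * h)⁻¹ * p * (g * h) = p'' at *
  generalize g⁻¹ * p * g = p' at *
  have e1 := hc' p (hP hp) g hg h hh
  have e2 := hc' g hg p' (hP hp') h hh
  have e3 := hc' g hg h hh p'' (hP hp'')
  rw [← a1] at e2
  rw [← a2] at e3
  rw [map_add, map_add, map_sub, ← hA.2 p (hP hp) g hg, a1, hA.2 g hg p' (hP hp'),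
    (he g hg).2 p hp p' hp' a1, (he h hh).2 p' hp' p'' hp'' a2,
    (he _ (mul_mem hg hh)).2 p hp p'' hp'' a3, map_add, map_sub]
  linear_combination (norm := abel) e1 - e2 + e3

theorem c2_seq (w : ℤ → E) (hw : ∀ i, w i ∈ T) :
    ∃ u : ℤ → E, u 0 = 0 ∧ (∀ i, u i ∈ T) ∧ ∀ i, u (i + 1) = u i + w i := by
  refine ⟨fun i => ∑ k ∈ Finset.range i.toNat, w k - ∑ k ∈ Finset.range (-i).toNat, w (-(k + 1)),
    by simp, fun i => sub_mem (sum_mem fun _ _ => hw _) (sum_mem fun _ _ => hw _), fun i => ?_⟩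
  obtain ⟨n, rfl⟩ | ⟨n, rfl⟩ : (∃ n : ℕ, i = n) ∨ ∃ n : ℕ, i = -(n + 1) := by
    rcases i with n | n
    · exact Or.inl ⟨n, rfl⟩
    · exact Or.inr ⟨n, rfl⟩
  · simp only [show ((n : ℤ) + 1).toNat = n + 1 by omega, show (-((n : ℤ) + 1)).toNat = 0 by omega,
      show (-(n : ℤ)).toNat = 0 by omega, Int.toNat_natCast, Finset.sum_range_succ,
      Finset.sum_range_zero, sub_zero]
  · simp only [show (-((n : ℤ) + 1) + 1).toNat = 0 by omega,
      show (-(-((n : ℤ) + 1) + 1)).toNat = n by omega, show (-((n : ℤ) + 1)).toNat = 0 by omega,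
      show (-(-((n : ℤ) + 1))).toNat = n + 1 by omega, Finset.sum_range_succ,
      Finset.sum_range_zero]
    abel

theorem c2_fin (hS : (S : Set G).Finite) : V2 S ρ T := by
  intro c hc hc'
  have hm : ∀ a, a ∈ hS.toFinset ↔ a ∈ S := fun a => hS.mem_toFinset
  have h0 : (hS.toFinset.card : ℚ) ≠ 0 := by
    exact_mod_cast Finset.card_ne_zero.2 ⟨1, (hm 1).2 (one_mem S)⟩
  refine ⟨fun a => (hS.toFinset.card : ℚ)⁻¹ • ∑ e ∈ hS.toFinset, c a e,
    fun a ha => Submodule.smul_mem _ _ (sum_mem fun e he => hc a ha e ((hm e).1 he)),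
    fun a ha b hb => ?_⟩
  have h1 : ∑ e ∈ hS.toFinset, c a (b * e) = ∑ e ∈ hS.toFinset, c a e :=
    Finset.sum_equiv (Equiv.mulLeft b) (fun e => by
      rw [hm, hm, Equiv.coe_mulLeft, S.mul_mem_cancel_left hb]) fun _ _ => rfl
  have h2 := Finset.sum_congr rfl fun e (he : e ∈ hS.toFinset) => hc' a ha b hb e ((hm e).1 he)
  rw [Finset.sum_add_distrib, Finset.sum_add_distrib, h1, Finset.sum_const, ← map_sum,
    ← Nat.cast_smul_eq_nsmul ℚ] at h2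
  rw [map_smul, ← smul_sub, ← smul_add, eq_inv_smul_iff₀ h0]
  linear_combination (norm := abel) -h2

theorem amal2 (hP : P ≤ S) (hA : Act S ρ) (hT : Stb S ρ T) (h2 : V2 P ρ T)
    (h1 : ∀ g ∈ S, V1 (P ⊓ cnj P g) ρ T)
    (h0 : ∀ g ∈ S, ∀ h ∈ S, V0 (P ⊓ cnj P g ⊓ cnj P h) ρ T) : V2 S ρ T := by
  refine c2_norm hP hA hT h2 fun c hc hc' hc0 => ?_
  obtain ⟨e, he⟩ := c2_ex hP hT h1 hc hc' hc0
  refine ⟨e, fun a ha => (he a ha).1, fun g hg h hh => ?_⟩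
  have := h0 g hg _ (mul_mem hg hh) _ (add_mem (hc g hg h hh) (add_mem (sub_mem
    (hT g hg _ (he h hh).1) (he _ (mul_mem hg hh)).1) (he g hg).1))
    fun p hp => c2_fix hP hA hc' he hg hh hp.1.1 hp.1.2 hp.2
  linear_combination (norm := abel) this

theorem ext2 (hN : N ≤ S) (hK : K ≤ S) (hA : Act S ρ) (hT : Stb S ρ T)
    (hn : ∀ g ∈ S, ∀ a ∈ N, g⁻¹ * a * g ∈ N) (κ : G → G)
    (hκ : ∀ g ∈ S, κ g ∈ K ∧ g * (κ g)⁻¹ ∈ N) (hκm : ∀ a ∈ S, ∀ b ∈ S, κ (a * b) = κ a * κ b)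
    (h1 : V1 N ρ T) (h2 : V2 N ρ T) (hK2 : V2 K ρ (Fx N ρ T)) : V2 S ρ T := by
  refine c2_norm hN hA hT h2 fun c hc hc' hc0 => ?_
  obtain ⟨e₀, he₀⟩ := c2_ex hN hT (fun g hg => by
    rwa [inf_eq_left.2 (show N ≤ cnj N g from fun a ha => hn g hg a ha)]) hc hc' hc0
  obtain ⟨γ, h3, h4⟩ := hK2 (fun g h => c g h + (ρ g (e₀ h) - e₀ (g * h) + e₀ g))
    (fun g hg h hh => ⟨add_mem (hc g (hK hg) h (hK hh)) (add_mem (sub_mem
      (hT g (hK hg) _ (he₀ h (hK hh)).1) (he₀ _ (hK (mul_mem hg hh))).1) (he₀ g (hK hg)).1),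
      fun p hp => c2_fix hN hA hc' he₀ (hK hg) (hK hh) hp (hn g (hK hg) p hp)
        (hn _ (hK (mul_mem hg hh)) p hp)⟩)
    fun a ha b hb e he => c2_cob hA hc' e₀ a (hK ha) b (hK hb) e (hK he)
  refine ⟨fun g => ρ (g * (κ g)⁻¹) (e₀ (κ g) - γ (κ g)) + c (g * (κ g)⁻¹) (κ g),
    fun g hg => add_mem (hT _ (hN (hκ g hg).2) _ (sub_mem (he₀ _ (hK (hκ g hg).1)).1
      (h3 _ (hκ g hg).1).1)) (hc _ (hN (hκ g hg).2) _ (hK (hκ g hg).1)), fun g hg h hh => ?_⟩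
  obtain ⟨hk, hn1⟩ := hκ g hg
  obtain ⟨hk', hn2⟩ := hκ h hh
  simp only [hκm g hg h hh]
  generalize κ g = k at *
  generalize κ h = k' at *
  obtain ⟨n, rfl⟩ : ∃ n, g = n * k := ⟨g * k⁻¹, by group⟩
  obtain ⟨n', rfl⟩ : ∃ n, h = n * k' := ⟨h * k'⁻¹, by group⟩
  rw [mul_inv_cancel_right] at hn1 hn2
  have hm : k * n' * k⁻¹ ∈ N := by simpa using hn k⁻¹ (inv_mem (hK hk)) n' hn2
  have a1 : k * n' * k⁻¹ * k = k * n' := by group
  rw [mul_inv_cancel_right, mul_inv_cancel_right,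
    show n * k * (n' * k') * (k * k')⁻¹ = n * (k * n' * k⁻¹) by group]
  generalize k * n' * k⁻¹ = m at *
  have e1 := hc' _ hg n' (hN hn2) k' (hK hk')
  have e2 := hc' _ (hN (mul_mem hn1 hm)) k (hK hk) k' (hK hk')
  have e3 := hc' n (hN hn1) k (hK hk) n' (hN hn2)
  have e4 := hc' n (hN hn1) m (hN hm) k (hK hk)
  have e5 := congrArg (ρ (n * m)) (h4 k hk k' hk')
  have e6 := congrArg (ρ n) ((he₀ k (hK hk)).2 m hm n' hn2 a1)
  have e7 : ∀ v, ρ (n * k) (ρ n' v) = ρ (n * m) (ρ k v) := fun v => by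
    rw [← hA.2 _ hg _ (hN hn2), ← hA.2 _ (hN (mul_mem hn1 hm)) _ (hK hk), mul_assoc, mul_assoc, a1]
  have e8 : ρ (n * m) (γ k) = ρ n (γ k) := by
    rw [hA.2 _ (hN hn1) _ (hN hm), (h3 k hk).2 m hm]
  rw [hc0 n hn1 m hm, a1] at e4
  rw [mul_assoc n m k, a1, ← mul_assoc n k n'] at e2
  rw [← hA.2 _ (hN hn1) _ (hN hm)] at e6
  simp only [map_add, map_sub, e7] at e5 e6 ⊢
  linear_combination (norm := abel) e1 - e2 - e3 + e4 + e5 - e6 + e8

theorem cyc2 (τ : G) (hτ : ¬ IsOfFinOrder τ) (hA : Act (Subgroup.zpowers τ) ρ)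
    (hT : Stb (Subgroup.zpowers τ) ρ T) : V2 (Subgroup.zpowers τ) ρ T := by
  refine c2_norm (P := ⊥) bot_le hA hT (c2_fin (by simp)) fun c hc hc' hc0 => ?_
  have hz : ∀ i : ℤ, τ ^ i ∈ Subgroup.zpowers τ := fun i => ⟨i, rfl⟩
  have h1 : τ ∈ Subgroup.zpowers τ := Subgroup.mem_zpowers τ
  obtain ⟨u, u0, hu, hu'⟩ := c2_seq (fun i => c (τ ^ i) τ) fun i => hc _ (hz i) _ h1
  have hl := Function.leftInverse_invFun (injective_zpow_iff_not_isOfFinOrder.2 hτ)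
  refine ⟨fun g => u (Function.invFun (fun i : ℤ => τ ^ i) g), fun _ _ => hu _, ?_⟩
  rintro _ ⟨i, rfl⟩ _ ⟨j, rfl⟩
  simp only [← zpow_add, hl i, hl j, hl (i + j)]
  have step : ∀ j, u i + ρ (τ ^ i) (u (j + 1)) + c (τ ^ i) (τ ^ (j + 1)) - u (i + (j + 1)) =
      u i + ρ (τ ^ i) (u j) + c (τ ^ i) (τ ^ j) - u (i + j) := fun j => by
    have := hc' _ (hz i) _ (hz j) _ h1
    rw [← zpow_add] at this
    rw [← add_assoc, hu', hu', map_add, zpow_add_one]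
    linear_combination (norm := abel) this
  rw [← sub_eq_zero]
  induction j using Int.induction_on with
  | zero =>
    have := hc' _ (hz i) 1 (one_mem _) 1 (one_mem _)
    rw [hc0 1 (one_mem _) 1 (one_mem _), map_zero, mul_one, mul_one, zero_add,
      left_eq_add] at this
    simp [u0, this]
  | succ j ih => rw [step, ih]
  | pred j ih => rw [← step, sub_add_cancel, ih]

theorem fin2 (hS : (S : Set G).Finite) (hA : Act S ρ) : V2 S ρ T := by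
  have _ := hA
  exact c2_fin hS

end Pool.Agent.MP_cbe134_nt.V
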