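import Pool.Agent.MP_cbe134_nt.VC1
import Pool.Agent.MP_cbe134_nt.VPoly

/- The actions on polynomials, the parabolic subgroup and dehomogenisation. -/

open MvPolynomial Matrix

namespace Pool.Agent.MP_cbe134_nt.V

variable {n d : ℕ}

theorem dt_one : dt (1 : GLz n) = 1 := by
  simp [dt]

theorem dt_mul (a b : GLz n) : dt (a * b) = dt a * dt b := by
  simp [dt]

theorem dt_pm (a : GLz n) : dt a = 1 ∨ dt a = -1 := by
  rcases Int.isUnit_iff.1 (isUnits_det_units a) with h | h <;> simp [dt, h]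

theorem dt_sq (a : GLz n) : dt a * dt a = 1 := by
  rcases dt_pm a with h | h <;> simp [h]

theorem dt_inv (a : GLz n) : dt a⁻¹ = dt a := by
  rw [← mul_one (dt a⁻¹), ← dt_sq a, ← mul_assoc, ← dt_mul, inv_mul_cancel, dt_one, one_mul]

theorem c3_rho (g : GLz n) (f : Pn n) : rho g f = dt g • sub (g : Mx n)ᵀ f := rfl

theorem c3_rhoI (g : GLz n) (f : Pn n) : rhoI g f = sub ((g⁻¹ : GLz n) : Mx n) f := rfl

theorem act_rho : Act ⊤ (rho (n := n)) := by
  refine ⟨fun v => ?_, fun a _ b _ v => ?_⟩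
  · rw [c3_rho, dt_one, Units.val_one, transpose_one, sub_one, one_smul]
  · rw [c3_rho, c3_rho, c3_rho, map_smul, sub_sub, smul_smul, dt_mul, Units.val_mul, transpose_mul]

theorem stb_rho : Stb ⊤ (rho (n := n)) (Hd n d) :=
  fun _ _ _ hv => Submodule.smul_mem _ _ (sub_mem _ hv)

theorem act_rhoI : Act ⊤ (rhoI (n := n)) := by
  refine ⟨fun v => ?_, fun a _ b _ v => ?_⟩
  · rw [c3_rhoI, inv_one, Units.val_one, sub_one]
  · rw [c3_rhoI, c3_rhoI, c3_rhoI, sub_sub, _root_.mul_inv_rev, Units.val_mul]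

theorem stb_rhoI : Stb ⊤ (rhoI (n := n)) (Hd n d) :=
  fun _ _ _ hv => sub_mem _ hv

/-- the inverse transpose -/
def c3_tr (g : GLz n) : GLz n :=
  ⟨((g⁻¹ : GLz n) : Mx n)ᵀ, (g : Mx n)ᵀ, by rw [← transpose_mul, Units.mul_inv, transpose_one],
    by rw [← transpose_mul, Units.inv_mul, transpose_one]⟩

/-- the inverse transpose as an automorphism -/
def c3_theta (n : ℕ) : GLz n ≃* GLz n where
  toFun := c3_tr
  invFun := c3_tr
  left_inv _ := Units.ext rfl
  right_inv _ := Units.ext rfl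
  map_mul' a b := Units.ext (by
    change (((a * b)⁻¹ : GLz n) : Mx n)ᵀ = ((a⁻¹ : GLz n) : Mx n)ᵀ * ((b⁻¹ : GLz n) : Mx n)ᵀ
    rw [_root_.mul_inv_rev, Units.val_mul, transpose_mul])

theorem v2_rhoD (h : V2 ⊤ (rho (n := n)) (Hd n d)) : V2 ⊤ (rhoD (n := n)) (Hd n d) := by
  convert V2.aut (c3_theta n) h using 2 with g
  have h1 : dt (c3_theta n g) = dt g := by
    rw [← dt_inv g]
    exact congrArg Int.cast (det_transpose _)
  rw [rho, h1]
  rfl

theorem mem_Fixv {s : Set (Fin n → ℤ)} {g : GLz n} :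
    g ∈ Fixv s ↔ ∀ v ∈ s, (g : Mx n) *ᵥ v = v := Iff.rfl

theorem mem_Par {g : GLz (n + 1)} :
    g ∈ Par n ↔ ∀ i, (g : Mx (n + 1)) i 0 = if i = 0 then 1 else 0 := by
  simp only [Par, mem_Fixv, Set.mem_singleton_iff, forall_eq]
  simp [bv, funext_iff, Pi.single_apply]

theorem c3_eval_aeval {m : ℕ} (φ : Fin m → Pn n) (f : Pn m) (x : Fin n → ℚ) :
    eval x (aeval φ f) = eval (fun j => eval x (φ j)) f := by
  induction f using MvPolynomial.induction_on with
  | C c => simp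
  | add p q hp hq => simp only [map_add, hp, hq]
  | mul_X p j hp => simp only [map_mul, hp, aeval_X, eval_X]

theorem eval_aff (g : GLz (n + 1)) (f : Pn n) (x : Fin n → ℚ) :
    eval x (aff g f) = dt g * eval (fun j => ((g : Mx (n + 1)) 0 j.succ : ℚ) +
      ∑ i : Fin n, ((g : Mx (n + 1)) i.succ j.succ : ℚ) * x i) f := by
  rw [aff, LinearMap.smul_apply, smul_eval, AlgHom.toLinearMap_apply, c3_eval_aeval]
  simp

theorem c3_00 {g : GLz (n + 1)} (hg : g ∈ Par n) : (g : Mx (n + 1)) 0 0 = 1 := by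
  simpa using mem_Par.1 hg 0

theorem c3_s0 {g : GLz (n + 1)} (hg : g ∈ Par n) (i : Fin n) : (g : Mx (n + 1)) i.succ 0 = 0 := by
  simpa using mem_Par.1 hg i.succ

theorem act_aff : Act (Par n) aff := by
  refine ⟨fun v => poly_ext fun x => ?_, fun a ha b _ v => poly_ext fun x => ?_⟩
  · simp [eval_aff, dt_one, Matrix.one_apply, (Fin.succ_ne_zero _).symm]
  · rw [eval_aff, eval_aff, eval_aff, dt_mul, mul_assoc]
    congr 4
    funext j
    simp only [Units.val_mul, Matrix.mul_apply, Fin.sum_univ_succ, c3_00 ha, c3_s0 ha, one_mul,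
      zero_mul, zero_add, Int.cast_add, Int.cast_sum, Int.cast_mul, mul_add, Finset.mul_sum,
      Finset.sum_mul, Finset.sum_add_distrib, add_assoc]
    rw [Finset.sum_comm]
    congr 2
    · exact Finset.sum_congr rfl fun _ _ => mul_comm _ _
    · exact Finset.sum_congr rfl fun _ _ => Finset.sum_congr rfl fun _ _ => by ring

theorem c3_deg {m : ℕ} {φ : Fin m → Pn n} (hφ : ∀ j, (φ j).totalDegree ≤ 1) {f : Pn m}
    (hf : f.totalDegree ≤ d) : aeval φ f ∈ Ld n d := by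
  rw [mem_restrictTotalDegree, f.as_sum, map_sum]
  refine totalDegree_finsetSum_le fun s hs => ?_
  rw [aeval_monomial, ← Algebra.smul_def]
  refine (totalDegree_smul_le _ _).trans ((totalDegree_finsetProd _ _).trans
    (le_trans (Finset.sum_le_sum fun j _ => ?_) ((le_totalDegree hs).trans hf)))
  exact (totalDegree_pow _ _).trans ((Nat.mul_le_mul_left _ (hφ j)).trans (mul_one _).le)

theorem aff_mem_Ld (g : GLz (n + 1)) {f : Pn n} (hf : f ∈ Ld n d) : aff g f ∈ Ld n d := by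
  refine Submodule.smul_mem _ _ (c3_deg (fun j => ?_) ((mem_restrictTotalDegree _ _ _).1 hf))
  refine (totalDegree_add _ _).trans (max_le (by rw [totalDegree_C]; exact zero_le_one)
    (totalDegree_finsetSum_le fun i _ => (totalDegree_mul _ _).trans ?_))
  rw [totalDegree_C, totalDegree_X]

theorem dt_par {g : GLz (n + 1)} (hg : g ∈ Par n) :
    dt g = ((lowM (g : Mx (n + 1))).det : ℚ) := by
  rw [dt, det_succ_column_zero, Fin.sum_univ_succ]
  simp [c3_00 hg, c3_s0 hg, lowM]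

theorem trl_mem_Par (a : Fin n → ℤ) : trl a ∈ Par n := by
  refine mem_Par.2 fun i => ?_
  simp [trl, trM, Matrix.one_apply]

theorem emb_mem_Par (D : GLz n) : emb n D ∈ Par n := by
  refine mem_Par.2 fun i => ?_
  refine Fin.cases ?_ (fun k => ?_) i <;> simp [emb, embM]

theorem lowM_emb (D : GLz n) : lowM ((emb n D : GLz (n + 1)) : Mx (n + 1)) = (D : Mx n) := by
  ext i j
  simp [lowM, emb, embM]

theorem lowM_trl (a : Fin n → ℤ) : lowM ((trl a : GLz (n + 1)) : Mx (n + 1)) = 1 := by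
  ext i j
  simp [lowM, trl, trM, Matrix.one_apply]

theorem dt_trl (a : Fin n → ℤ) : dt (trl a) = 1 := by
  rw [dt_par (trl_mem_Par a), lowM_trl, det_one, Int.cast_one]

theorem dt_emb (D : GLz n) : dt (emb n D) = dt D := by
  rw [dt_par (emb_mem_Par D), lowM_emb, dt]

/-- the first row without its first entry -/
def c3_row (g : GLz (n + 1)) : Fin n → ℤ := fun j => (g : Mx (n + 1)) 0 j.succ

theorem c3_row_trl (a : Fin n → ℤ) : c3_row (trl a) = a := by
  funext j
  simp [c3_row, trl, trM, (Fin.succ_ne_zero _).symm]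

theorem c3_row_emb (D : GLz n) : c3_row (emb n D) = 0 := by
  funext j
  simp [c3_row, emb, embM]

theorem c3_eval_aff (g : GLz (n + 1)) (f : Pn n) (x : Fin n → ℚ) :
    eval x (aff g f) =
      dt g * eval (fun j => (c3_row g j : ℚ) + mv (lowM (g : Mx (n + 1)))ᵀ x j) f :=
  eval_aff g f x

theorem eval_aff_trl (a : Fin n → ℤ) (f : Pn n) (x : Fin n → ℚ) :
    eval x (aff (trl a) f) = eval (fun j => x j + a j) f := by
  simp only [c3_eval_aff, dt_trl, one_mul, c3_row_trl, lowM_trl, transpose_one, mv_one, add_comm]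

theorem aff_emb (D : GLz n) : aff (emb n D) = rho D := by
  refine LinearMap.ext fun f => poly_ext fun x => ?_
  simp only [c3_eval_aff, dt_emb, c3_row_emb, lowM_emb, c3_rho, smul_eval, eval_sub, Pi.zero_apply,
    Int.cast_zero, zero_add]

theorem Trn_le_Par (J : Set (Fin n)) : Trn J ≤ Par n := by
  rintro _ ⟨a, -, rfl⟩
  exact trl_mem_Par a

theorem trl_inj {a b : Fin n → ℤ} (h : trl a = trl b) : a = b := by
  rw [← c3_row_trl a, h, c3_row_trl]

theorem c3_low_mul {a : GLz (n + 1)} (ha : a ∈ Par n) (b : GLz (n + 1)) :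
    lowM ((a * b : GLz (n + 1)) : Mx (n + 1)) = lowM (a : Mx (n + 1)) * lowM (b : Mx (n + 1)) := by
  ext i j
  simp [lowM, Matrix.mul_apply, Fin.sum_univ_succ, c3_s0 ha]

theorem c3_row_mul {a : GLz (n + 1)} (ha : a ∈ Par n) (b : GLz (n + 1)) :
    c3_row (a * b) = c3_row b + c3_row a ᵥ* lowM (b : Mx (n + 1)) := by
  funext j
  simp [c3_row, lowM, Matrix.mul_apply, Fin.sum_univ_succ, c3_00 ha, vecMul, dotProduct]

theorem c3_ext {a b : GLz (n + 1)} (ha : a ∈ Par n) (hb : b ∈ Par n) (h1 : c3_row a = c3_row b)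
    (h2 : lowM (a : Mx (n + 1)) = lowM (b : Mx (n + 1))) : a = b := by
  refine Units.ext (Matrix.ext fun i j => ?_)
  refine Fin.cases ?_ (fun j' => ?_) j
  · rw [mem_Par.1 ha, mem_Par.1 hb]
  · refine Fin.cases ?_ (fun i' => ?_) i
    · exact congrFun h1 j'
    · exact congrFun (congrFun h2 i') j'

theorem c3_low_one : lowM ((1 : GLz (n + 1)) : Mx (n + 1)) = 1 := by
  rw [← trl_zero, lowM_trl]

theorem par_dec {g : GLz (n + 1)} (hg : g ∈ Par n) :
    ∃ (D : GLz n) (a : Fin n → ℤ), (D : Mx n) = lowM (g : Mx (n + 1)) ∧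
      g = trl a * emb n D := by
  have h1 : lowM ((g⁻¹ : GLz (n + 1)) : Mx (n + 1)) * lowM (g : Mx (n + 1)) = 1 := by
    rw [← c3_low_mul (inv_mem hg), inv_mul_cancel, c3_low_one]
  refine ⟨⟨lowM (g : Mx (n + 1)), lowM ((g⁻¹ : GLz (n + 1)) : Mx (n + 1)),
    mul_eq_one_comm.1 h1, h1⟩, c3_row g ᵥ* lowM ((g⁻¹ : GLz (n + 1)) : Mx (n + 1)), rfl,
    c3_ext hg (mul_mem (trl_mem_Par _) (emb_mem_Par _)) ?_ ?_⟩
  · rw [c3_row_mul (trl_mem_Par _), c3_row_emb, c3_row_trl, lowM_emb, zero_add, vecMul_vecMul, h1,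
      vecMul_one]
  · rw [c3_low_mul (trl_mem_Par _), lowM_trl, lowM_emb, Matrix.one_mul]

theorem par_conj {g : GLz (n + 1)} (hg : g ∈ Par n) (a : Fin n → ℤ) :
    g⁻¹ * trl a * g = trl (a ᵥ* lowM (g : Mx (n + 1))) := by
  rw [mul_assoc, inv_mul_eq_iff_eq_mul]
  refine c3_ext (mul_mem (trl_mem_Par _) hg) (mul_mem hg (trl_mem_Par _)) ?_ ?_
  · rw [c3_row_mul (trl_mem_Par _), c3_row_mul hg, c3_row_trl, c3_row_trl, lowM_trl, vecMul_one,
      add_comm]
  · rw [c3_low_mul (trl_mem_Par _), c3_low_mul hg, lowM_trl, lowM_trl, Matrix.one_mul,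
      Matrix.mul_one]

theorem exists_kappa : ∃ κ : GLz (n + 1) → GLz (n + 1),
    (∀ g ∈ Par n, κ g ∈ (emb n).range ∧ g * (κ g)⁻¹ ∈ Trn (Set.univ : Set (Fin n))) ∧
      ∀ a ∈ Par n, ∀ b ∈ Par n, κ (a * b) = κ a * κ b := by
  choose! D t h1 h2 using fun (g : GLz (n + 1)) (hg : g ∈ Par n) => par_dec hg
  refine ⟨fun g => emb n (D g), fun g hg => ⟨⟨_, rfl⟩, t g, fun j hj => absurd trivial hj,
    mul_inv_eq_of_eq_mul (h2 g hg)⟩, fun a ha b hb => ?_⟩
  rw [← map_mul]
  refine congrArg _ (Units.ext ?_)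
  rw [Units.val_mul, h1 a ha, h1 b hb, h1 _ (mul_mem ha hb), c3_low_mul ha]

/-- dehomogenisation -/
noncomputable def c3_phi (n : ℕ) : Pn (n + 1) →ₐ[ℚ] Pn n :=
  aeval (Fin.cons (α := fun _ => Pn n) 1 X)

theorem c3_eval_phi (f : Pn (n + 1)) (x : Fin n → ℚ) :
    eval x (c3_phi n f) = eval (Fin.cons (α := fun _ => ℚ) 1 x) f := by
  rw [c3_phi, c3_eval_aeval]
  congr 2
  funext j
  refine Fin.cases ?_ (fun k => ?_) j <;> simp

theorem c3_phi_inj {f : Pn (n + 1)} (hf : f ∈ Hd (n + 1) d) (h : c3_phi n f = 0) : f = 0 := by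
  refine (mul_eq_zero.1 (poly_ext (f := X 0 * f) (g := 0) fun y => ?_)).resolve_left (X_ne_zero 0)
  by_cases h0 : y 0 = 0
  · simp [h0]
  · have h1 : y = y 0 • Fin.cons (α := fun _ => ℚ) 1 fun j => y j.succ / y 0 := by
      funext j
      refine Fin.cases ?_ (fun k => ?_) j <;> simp [mul_div_cancel₀ _ h0]
    rw [map_mul, h1, eval_smul_Hd hf, ← c3_eval_phi, h]
    simp

theorem c3_phi_bij : Set.BijOn (c3_phi n).toLinearMap (Hd (n + 1) d) (Ld n d) := by
  refine ⟨fun f hf => c3_deg (fun j => ?_) (IsHomogeneous.totalDegree_le hf),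
    fun f hf g hg h => sub_eq_zero.1 (c3_phi_inj (Submodule.sub_mem _ hf hg)
      ((map_sub _ _ _).trans (sub_eq_zero.2 h))), fun f hf => ?_⟩
  · refine Fin.cases ?_ (fun k => ?_) j <;> simp
  · refine ⟨∑ j ∈ Finset.range (d + 1), X 0 ^ (d - j) * rename Fin.succ (homogeneousComponent j f),
      sum_mem fun j hj => ?_, ?_⟩
    · have h1 := (isHomogeneous_X_pow (R := ℚ) (0 : Fin (n + 1)) (d - j)).mul
        ((homogeneousComponent_isHomogeneous j f).rename_isHomogeneous (f := Fin.succ))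
      rwa [Nat.sub_add_cancel (Nat.lt_succ_iff.1 (Finset.mem_range.1 hj))] at h1
    · have h1 : ∀ p : Pn n, c3_phi n (rename Fin.succ p) = p := fun p => by
        rw [c3_phi, aeval_rename]
        exact aeval_X_left_apply p
      have h2 : c3_phi n (X 0) = 1 := by simp [c3_phi]
      simp only [AlgHom.toLinearMap_apply, map_sum, map_mul, map_pow, h1, h2, one_pow, one_mul]
      conv_rhs => rw [← sum_homogeneousComponent f]
      refine (Finset.sum_subset (Finset.range_mono (Nat.succ_le_succ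
        ((mem_restrictTotalDegree _ _ _).1 hf))) fun j _ hj => ?_).symm
      exact homogeneousComponent_eq_zero _ _ (by simpa [Nat.succ_le_iff] using hj)

theorem c3_phi_rho {g : GLz (n + 1)} (hg : g ∈ Par n) (f : Pn (n + 1)) :
    c3_phi n (rho g f) = aff g (c3_phi n f) := by
  refine poly_ext fun x => ?_
  rw [c3_eval_phi, eval_aff, c3_eval_phi, c3_rho, smul_eval, eval_sub]
  congr 3
  funext j
  refine Fin.cases ?_ (fun k => ?_) j <;> simp [mv, Fin.sum_univ_succ, c3_00 hg, c3_s0 hg]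

theorem dehom1 {S : Subgroup (GLz (n + 1))} (hS : S ≤ Par n) (h : V1 S aff (Ld n d)) :
    V1 S rho (Hd (n + 1) d) :=
  V1.of_bij _ c3_phi_bij (stb_rho.mono le_top) (fun _ ha v _ => c3_phi_rho (hS ha) v) h

theorem dehom2 {S : Subgroup (GLz (n + 1))} (hS : S ≤ Par n) (h : V2 S aff (Ld n d)) :
    V2 S rho (Hd (n + 1) d) :=
  V2.of_bij _ c3_phi_bij (stb_rho.mono le_top) (fun _ ha v _ => c3_phi_rho (hS ha) v) h

end Pool.Agent.MP_cbe134_nt.V
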