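import Pool.Agent.MP_cbe134_nt.VC2
import Pool.Agent.MP_cbe134_nt.VC3

/- Cohomology of translation groups acting on polynomials; top-degree parts. -/

open MvPolynomial Matrix

namespace Pool.Agent.MP_cbe134_nt.V

variable {n d : ℕ}

theorem c4_eval (φ : Fin n → Pn n) (x : Fin n → ℚ) (f : Pn n) :
    eval x (aeval φ f) = eval (fun j => eval x (φ j)) f := by
  induction f using MvPolynomial.induction_on with
  | C a => simp
  | add p q hp hq => simp only [map_add, hp, hq]
  | mul_X p l hp => simp only [map_mul, hp, aeval_X, eval_X]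

theorem c4_trl (a : Fin n → ℤ) (f : Pn n) :
    aff (trl a) f = aeval (fun j => X j + C (a j : ℚ) : Fin n → Pn n) f :=
  poly_ext fun x => by
    rw [eval_aff_trl, c4_eval]
    simp

theorem c4_fix {K : Set (Fin n)} {a : Fin n → ℤ} (h : ∀ j ∈ K, a j = 0) {f : Pn n}
    (hf : f ∈ Sp K) : aff (trl a) f = f := by
  rw [c4_trl]
  have : supported ℚ K ≤ AlgHom.equalizer
      (aeval (fun j => X j + C (a j : ℚ) : Fin n → Pn n)) (AlgHom.id ℚ (Pn n)) := by
    refine Algebra.adjoin_le ?_
    rintro _ ⟨j, hj, rfl⟩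
    change aeval _ (X j) = X j
    simp [h j hj]
  exact this hf

theorem c4_row (a : Fin n → ℤ) (i : Fin n) :
    ((trl a : GLz (n + 1)) : Mx (n + 1)) 0 i.succ = a i := by
  simp [trl, trM, (Fin.succ_ne_zero i).symm]

theorem c4_pow (a : Fin n → ℤ) (k : ℤ) : trl (k • a) = trl a ^ k :=
  map_zpow (MonoidHom.mk' (fun a : Multiplicative (Fin n → ℤ) => trl a.toAdd)
    fun _ _ => trl_add _ _) (Multiplicative.ofAdd a) k

theorem c4_one (j : Fin n) : Trn {j} = Subgroup.zpowers (trl (Pi.single j (1 : ℤ))) := by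
  ext g
  constructor
  · rintro ⟨a, ha, rfl⟩
    refine ⟨a j, (c4_pow _ _).symm.trans (congrArg trl (funext fun i => ?_))⟩
    by_cases h : i = j
    · simp [h]
    · simp [h, ha i h]
  · rintro ⟨k, rfl⟩
    exact ⟨k • Pi.single j 1, fun i (h : ¬ i = j) => by simp [h], (c4_pow _ _).symm⟩

theorem sp_univ : Sp (Set.univ : Set (Fin n)) = ⊤ := by
  rw [Sp, supported_univ, Algebra.top_toSubmodule]

theorem stb_trn (J K : Set (Fin n)) : Stb (Trn J) aff (Sp K) := by
  rintro _ ⟨a, -, rfl⟩ f hf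
  rw [c4_trl]
  have : supported ℚ K ≤ (supported ℚ K).comap
      (aeval (fun j => X j + C (a j : ℚ) : Fin n → Pn n)) := by
    refine Algebra.adjoin_le ?_
    rintro _ ⟨j, hj, rfl⟩
    change aeval _ (X j) ∈ supported ℚ K
    rw [aeval_X]
    exact add_mem (X_mem_supported.2 hj) ((supported ℚ K).algebraMap_mem _)
  exact this hf

theorem fx_trn (J K : Set (Fin n)) : Fx (Trn J) aff (Sp K) = Sp (K \ J) := by
  ext f
  rw [mem_Fx]
  constructor
  · rintro ⟨h1, h2⟩
    refine mem_supported.2 fun i hi => ⟨mem_supported.1 h1 hi, fun hJ => ?_⟩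
    refine not_mem_vars (indep_of_shift fun x => ?_) hi
    have := h2 (trl (Pi.single i 1)) ⟨_, fun j hj => Pi.single_eq_of_ne
      (fun e : j = i => hj (e ▸ hJ)) _, rfl⟩
    conv_rhs => rw [← this, eval_aff_trl]
    refine congrArg (fun y => eval y f) (funext fun j => ?_)
    by_cases h : j = i
    · simp [h]
    · simp [h]
  · intro h
    refine ⟨supported_mono Set.sdiff_subset h, ?_⟩
    rintro _ ⟨a, ha, rfl⟩
    exact c4_fix (fun j hj => ha j hj.2) h

theorem shift_surj {K : Set (Fin n)} {j : Fin n} (hj : j ∈ K) {f : Pn n} (hf : f ∈ Sp K) :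
    ∃ u ∈ Sp K, aff (trl (Pi.single j 1)) u - u = f := by
  change f ∈ (Sp K).map (aff (trl (Pi.single j 1)) - LinearMap.id)
  rw [f.as_sum]
  refine Submodule.sum_mem _ fun e he => ?_
  have hq : monomial (e.erase j) (coeff e f) ∈ Sp (K \ {j}) := by
    refine mem_supported.2 fun i hi => ?_
    rw [vars_monomial (mem_support_iff.1 he), Finsupp.support_erase] at hi
    obtain ⟨h1, h2⟩ := Finset.mem_erase.1 hi
    exact ⟨mem_supported.1 hf ((mem_vars_iff_mem_support i).2 ⟨e, he, h2⟩), h1⟩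
  have e1 : monomial e (coeff e f) = X j ^ e j * monomial (e.erase j) (coeff e f) := by
    rw [← monomial_single_add, Finsupp.single_add_erase]
  rw [e1]
  generalize monomial (e.erase j) (coeff e f) = q at hq
  generalize e j = m
  have e2 := c4_fix (a := Pi.single j 1) (fun i hi => Pi.single_eq_of_ne hi.2 _) hq
  have hB : Polynomial.aeval (X j : Pn n) (Polynomial.bernoulli (m + 1)) ∈ supported ℚ K :=
    Algebra.adjoin_le (S := supported ℚ K) (Set.singleton_subset_iff.2 (X_mem_supported.2 hj))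
      (Polynomial.aeval_mem_adjoin_singleton ℚ _)
  refine ⟨((m : ℚ) + 1)⁻¹ • (Polynomial.aeval (X j : Pn n) (Polynomial.bernoulli (m + 1)) * q),
    Submodule.smul_mem _ _ ((supported ℚ K).mul_mem hB
      (supported_mono Set.sdiff_subset hq)), ?_⟩
  have e3 := congrArg (Polynomial.aeval (X j : Pn n)) (Polynomial.bernoulli_comp_one_add_X (m + 1))
  rw [Polynomial.aeval_comp] at e3
  simp only [map_add, map_one, Polynomial.aeval_X, map_nsmul, map_pow, Nat.add_sub_cancel] at e3
  rw [map_smul, LinearMap.sub_apply, LinearMap.id_apply, c4_trl, map_mul, ← c4_trl _ q, e2,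
    ← Polynomial.aeval_algHom_apply, aeval_X, Pi.single_eq_same, Int.cast_one, C_1,
    add_comm (X j) 1, e3, add_mul, add_sub_cancel_left, ← Nat.cast_smul_eq_nsmul ℚ,
    smul_mul_assoc, smul_smul, Nat.cast_succ, inv_mul_cancel₀ (by positivity), one_smul]

theorem c4_v12 (J : Set (Fin n)) :
    ∀ K : Set (Fin n), J ⊆ K → V1 (Trn J) aff (Sp K) ∧ V2 (Trn J) aff (Sp K) := by
  have hA : ∀ J : Set (Fin n), Act (Trn J) aff := fun J => act_aff.mono (Trn_le_Par J)
  induction J, J.toFinite using Set.Finite.induction_on with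
  | empty =>
    have : ((Trn (∅ : Set (Fin n)) : Subgroup _) : Set (GLz (n + 1))).Finite := by
      refine (Set.finite_singleton (trl 0)).subset ?_
      rintro _ ⟨a, ha, rfl⟩
      exact congrArg trl (funext fun j => ha j (Set.notMem_empty j))
    exact fun K _ => ⟨fin1 this (hA _), fin2 this (hA _)⟩
  | @insert j J hj _ ih =>
    intro K hK
    have mono : ∀ {I I' : Set (Fin n)}, I ⊆ I' → Trn I ≤ Trn I' := by
      rintro I I' h _ ⟨a, ha, rfl⟩
      exact ⟨a, fun i hi => ha i fun e => hi (h e), rfl⟩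
    have hN : Trn {j} ≤ Trn (insert j J) := mono (Set.singleton_subset_iff.2 (Set.mem_insert _ _))
    have hJ : Trn J ≤ Trn (insert j J) := mono (Set.subset_insert _ _)
    have hn : ∀ g ∈ Trn (insert j J), ∀ a ∈ Trn {j}, g⁻¹ * a * g ∈ Trn {j} := by
      rintro _ ⟨b, -, rfl⟩ _ ⟨a, ha, rfl⟩
      rw [← trl_neg, ← trl_add, ← trl_add, neg_add_cancel_comm]
      exact ⟨a, ha, rfl⟩
    have i1 := ih (K \ {j}) fun i hi => ⟨hK (Or.inr hi), fun e => hj (e ▸ hi)⟩
    rw [← fx_trn] at i1
    have h1 : V1 (Trn {j}) aff (Sp K) := by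
      rw [c4_one]
      exact cyc1 _ (c4_one j ▸ hA _) fun v hv => shift_surj (hK (Set.mem_insert _ _)) hv
    have h2 : V2 (Trn {j}) aff (Sp K) := by
      rw [c4_one]
      refine cyc2 _ (fun h => ?_) (c4_one j ▸ hA _) (c4_one j ▸ stb_trn _ _)
      obtain ⟨k, hk, e⟩ := isOfFinOrder_iff_pow_eq_one.1 h
      rw [← zpow_natCast, ← c4_pow, ← trl_zero] at e
      have := congrFun (trl_inj e) j
      simp at this
      omega
    let κ : GLz (n + 1) → GLz (n + 1) := fun g =>
      trl (Function.update (fun i => (g : Mx (n + 1)) 0 i.succ) j 0)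
    have hκ : ∀ a, κ (trl a) = trl (Function.update a j 0) := fun a => by
      simp only [κ, c4_row]
    have hκ1 : ∀ g ∈ Trn (insert j J), κ g ∈ Trn J ∧ g * (κ g)⁻¹ ∈ Trn {j} := by
      rintro _ ⟨a, ha, rfl⟩
      rw [hκ, ← trl_neg, ← trl_add]
      refine ⟨⟨_, fun i hi => ?_, rfl⟩, ⟨_, fun i (hi : ¬ i = j) => by simp [hi], rfl⟩⟩
      by_cases h : i = j
      · simp [h]
      · rw [Function.update_of_ne h]
        exact ha i fun e => e.elim h hi
    refine ⟨ext1 hN hJ (hA _) (stb_trn _ _) hn (fun g hg => ⟨_, (hκ1 g hg).2, _, (hκ1 g hg).1,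
      (inv_mul_cancel_right _ _).symm⟩) h1 i1.1,
      ext2 hN hJ (hA _) (stb_trn _ _) hn κ hκ1 ?_ h1 h2 i1.2⟩
    rintro _ ⟨a, -, rfl⟩ _ ⟨b, -, rfl⟩
    rw [← trl_add, hκ, hκ, hκ, ← trl_add]
    refine congrArg trl (funext fun i => ?_)
    by_cases h : i = j
    · simp [h]
    · simp [h]

theorem v1_trn {J K : Set (Fin n)} (h : J ⊆ K) : V1 (Trn J) aff (Sp K) :=
  (c4_v12 J K h).1

theorem v2_trn {J K : Set (Fin n)} (h : J ⊆ K) : V2 (Trn J) aff (Sp K) :=
  (c4_v12 J K h).2

/-- Polynomials of degree at most `m - c`. -/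
noncomputable def c4_L (n c m : ℕ) : Submodule ℚ (Pn n) :=
  restrictSupport ℚ {e | e.degree + c ≤ m}

theorem c4_mem {c m : ℕ} {f : Pn n} : f ∈ c4_L n c m ↔ ∀ e ∈ f.support, e.degree + c ≤ m :=
  Iff.rfl

theorem c4_Ld {c m : ℕ} {f : Pn n} : f ∈ c4_L n c (m + c) ↔ f ∈ Ld n m := by
  rw [c4_mem]
  exact forall₂_congr fun e _ => Nat.add_le_add_iff_right

theorem c4_le {c m c' m' : ℕ} (h : m + c' ≤ m' + c) {f : Pn n} (hf : f ∈ c4_L n c m) :
    f ∈ c4_L n c' m' := fun e he => by
  have := c4_mem.1 hf e he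
  change e.degree + c' ≤ m'
  omega

theorem c4_X {c m : ℕ} (i : Fin n) {f : Pn n} (hf : f ∈ c4_L n c m) :
    X i * f ∈ c4_L n c (m + 1) := by
  refine c4_mem.2 fun e he => ?_
  rw [support_X_mul] at he
  obtain ⟨e', h1, rfl⟩ := Finset.mem_map.1 he
  have := c4_mem.1 hf e' h1
  rw [addLeftEmbedding_apply, map_add, Finsupp.degree_single]
  omega

theorem c4_hc {c m k : ℕ} {f : Pn n} (hf : f ∈ c4_L n c m) (h : m < k + c) :
    homogeneousComponent k f = 0 :=
  homogeneousComponent_eq_zero' _ _ fun e he => by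
    have := c4_mem.1 hf e he
    omega

theorem c4_taylor (T : Pn n →ₐ[ℚ] Pn n) (D : Derivation ℚ (Pn n) (Pn n)) (a : Fin n → ℚ)
    (hT : ∀ j, T (X j) = X j + C (a j)) (hD : ∀ j, D (X j) = C (a j)) {m : ℕ} {f : Pn n}
    (hf : f ∈ Ld n m) : T f - f ∈ c4_L n 1 m ∧ T f - f - D f ∈ c4_L n 2 m := by
  have key : ∀ k, ∀ e : Fin n →₀ ℕ, e.degree = k → T (monomial e 1) - monomial e 1 ∈ c4_L n 1 k ∧
      T (monomial e 1) - monomial e 1 - D (monomial e 1) ∈ c4_L n 2 k := by
    intro k
    induction k with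
    | zero =>
      intro e he
      rw [(Finsupp.degree_eq_zero_iff e).1 he]
      simp
    | succ k ih =>
      intro e he
      obtain ⟨i, hi⟩ : ∃ i, e i ≠ 0 := by
        by_contra h
        push Not at h
        rw [show e = 0 from Finsupp.ext h, map_zero] at he
        omega
      obtain ⟨e', rfl⟩ := exists_add_of_le (Finsupp.single_le_iff.2 (Nat.one_le_iff_ne_zero.2 hi))
      rw [map_add, Finsupp.degree_single] at he
      have he' : e'.degree = k := by omega
      obtain ⟨h1, h2⟩ := ih e' he'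
      have h0 : (monomial e' 1 : Pn n) ∈ c4_L n 0 k :=
        (monomial_mem_restrictSupport ℚ).2 (Or.inl he'.le)
      rw [monomial_single_add, pow_one]
      generalize (monomial e' 1 : Pn n) = x at h0 h1 h2
      constructor
      · have : T (X i * x) - X i * x = X i * (T x - x) + a i • ((T x - x) + x) := by
          rw [map_mul, hT, smul_eq_C_mul]
          ring
        rw [this]
        exact add_mem (c4_X i h1) (Submodule.smul_mem _ _
          (add_mem (c4_le (by omega) h1) (c4_le (by omega) h0)))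
      · have : T (X i * x) - X i * x - D (X i * x) =
            X i * (T x - x - D x) + a i • (T x - x) := by
          rw [map_mul, hT, smul_eq_C_mul, D.leibniz, hD, smul_eq_mul, smul_eq_mul]
          ring
        rw [this]
        exact add_mem (c4_X i h2) (Submodule.smul_mem _ _ (c4_le (by omega) h1))
  rw [Ld, restrictTotalDegree, restrictSupport_eq_span] at hf
  induction hf using Submodule.span_induction with
  | mem x hx =>
    obtain ⟨e, he, rfl⟩ := hx
    have he' : e.degree ≤ m := he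
    exact ⟨c4_le (by omega) (key _ e rfl).1, c4_le (by omega) (key _ e rfl).2⟩
  | zero => simp
  | add x y _ _ h1 h2 =>
    refine ⟨?_, ?_⟩
    · convert add_mem h1.1 h2.1 using 1
      rw [map_add]
      ring
    · convert add_mem h1.2 h2.2 using 1
      rw [map_add, map_add]
      ring
  | smul c x _ h1 =>
    refine ⟨?_, ?_⟩
    · rw [map_smul, ← smul_sub]
      exact Submodule.smul_mem _ _ h1.1
    · rw [map_smul, D.map_smul, ← smul_sub, ← smul_sub]
      exact Submodule.smul_mem _ _ h1.2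

theorem top_aff (g : GLz (n + 1)) {m : ℕ} {f : Pn n} (hf : f ∈ Ld n m) :
    homogeneousComponent m (aff g f) =
      dt g • sub (lowM (g : Mx (n + 1)))ᵀ (homogeneousComponent m f) := by
  have h := (c4_taylor (aeval fun j => X j + C ((g : Mx (n + 1)) 0 j.succ : ℚ))
    (mkDerivation ℚ fun j => C ((g : Mx (n + 1)) 0 j.succ : ℚ)) _ (fun j => aeval_X _ j)
    (fun j => mkDerivation_X _ _ j) hf).1
  have h1 := c4_hc h (Nat.lt_succ_self m)
  rw [map_sub, sub_eq_zero] at h1
  rw [← h1, ← sub_homogeneousComponent, ← map_smul]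
  refine congrArg _ (poly_ext fun x => ?_)
  rw [eval_aff, smul_eval, eval_sub, c4_eval]
  refine congrArg (fun y => dt g * eval y f) (funext fun j => ?_)
  simp [mv, lowM, add_comm]

theorem mem_Ld_pred {m : ℕ} {f : Pn n} (hf : f ∈ Ld n (m + 1))
    (h : homogeneousComponent (m + 1) f = 0) : f ∈ Ld n m := by
  intro e he
  have h1 : e.degree ≤ m + 1 := hf he
  have h2 := coeff_homogeneousComponent (m + 1) f e
  rw [h, coeff_zero] at h2
  change e.degree ≤ m
  by_contra h3
  rw [if_pos (by omega)] at h2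
  exact mem_support_iff.1 he h2.symm

theorem c4_top {f : Pn n}
    (h : ∀ m, d ≤ m → f ∈ Ld n (m + 1) → homogeneousComponent (m + 1) f = 0) : f ∈ Ld n d := by
  by_contra h1
  rw [mem_restrictTotalDegree, not_le] at h1
  obtain ⟨m, hm⟩ : ∃ m, f.totalDegree = m + 1 := ⟨f.totalDegree - 1, by omega⟩
  have h2 : f ∈ Ld n (m + 1) := (mem_restrictTotalDegree _ _ _).2 hm.le
  have h3 := (mem_restrictTotalDegree _ _ _).1 (mem_Ld_pred h2 (h m (by omega) h2))
  omega

theorem v0m_of {S : Subgroup (GLz (n + 1))} (hS : S ≤ Par n) {i j : Fin n} (hij : i ≠ j)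
    {t r : GLz (n + 1)} (ht : t ∈ S) (ht' : lowM (t : Mx (n + 1)) = 1 + Matrix.single j i 1)
    (hr : r ∈ S)
    (hr' : lowM (r : Mx (n + 1)) = Matrix.diagonal (Function.update 1 i (-1))) (d : ℕ) :
    V0m S aff (Ld n d) := by
  intro v hv
  refine c4_top fun m hm h2 => ?_
  have key : ∀ a ∈ S, ((lowM (a : Mx (n + 1))).det : ℚ) • sub (lowM (a : Mx (n + 1)))ᵀ
      (homogeneousComponent (m + 1) v) = homogeneousComponent (m + 1) v := fun a ha => by
    rw [← dt_par (hS ha), ← top_aff a h2, ← sub_eq_zero, ← map_sub]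
    exact c4_hc ((c4_Ld (c := 0)).2 (hv a ha)) (by omega)
  have k1 := key t ht
  have k2 := key r hr
  have d1 : (1 + Matrix.single j i 1 : Mx n).det = 1 := det_transvection_of_ne j i hij.symm 1
  have d2 : (Matrix.diagonal (Function.update 1 i (-1)) : Mx n).det = -1 := by
    rw [det_diagonal, Finset.prod_update_of_mem (Finset.mem_univ i)]
    simp
  rw [ht', d1, transpose_add, transpose_one, transpose_single, Int.cast_one, one_smul] at k1
  rw [hr', d2, diagonal_transpose, Int.cast_neg, Int.cast_one, neg_one_smul,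
    neg_eq_iff_eq_neg] at k2
  exact kill hij one_ne_zero k1 k2

/-- first order Taylor formula for a unit translation -/
theorem taylor_trl (j : Fin n) {m : ℕ} {f : Pn n} (hf : f ∈ Ld n (m + 1)) :
    aff (trl (Pi.single j 1)) f - f ∈ Ld n m ∧
      homogeneousComponent m (aff (trl (Pi.single j 1)) f - f) =
        pderiv j (homogeneousComponent (m + 1) f) := by
  obtain ⟨h1, h2⟩ := c4_taylor
    (aeval fun i => X i + C (((Pi.single j 1 : Fin n → ℤ) i : ℤ) : ℚ)) (pderiv j) _
    (fun i => aeval_X _ i) (fun i => by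
      by_cases h : i = j
      · simp [h]
      · simp [h]) hf
  rw [← c4_trl] at h1 h2
  refine ⟨c4_Ld.1 h1, ?_⟩
  have h3 := c4_hc h2 (k := m) (by omega)
  rw [map_sub, sub_eq_zero] at h3
  rw [h3]
  ext e
  rw [coeff_homogeneousComponent, coeff_pderiv, coeff_pderiv, coeff_homogeneousComponent,
    map_add, Finsupp.degree_single]
  by_cases h : e.degree = m
  · rw [if_pos h, if_pos (by omega)]
  · rw [if_neg h, if_neg (by omega), zero_mul]

theorem mem_Ld_succ {f : Pn n} (h : ∀ j, aff (trl (Pi.single j 1)) f - f ∈ Ld n d) :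
    f ∈ Ld n (d + 1) := by
  refine c4_top fun m hm h2 => ?_
  have e := (homogeneousComponent_isHomogeneous (m + 1) f).sum_X_mul_pderiv
  rw [Finset.sum_eq_zero fun j _ => by
    rw [← (taylor_trl j h2).2, c4_hc ((c4_Ld (c := 0)).2 (h j)) (by omega), mul_zero],
    ← Nat.cast_smul_eq_nsmul ℚ, eq_comm, smul_eq_zero] at e
  exact e.resolve_left (by positivity)

end Pool.Agent.MP_cbe134_nt.V
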