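import Pool.Agent.MP_cbe134_nt.VC2
import Pool.Agent.MP_cbe134_nt.VC3

/- Stabilisers of two and three vectors. -/

open MvPolynomial Matrix

namespace Pool.Agent.MP_cbe134_nt.V

variable {n : ℕ}

/-- a two by two block placed at the coordinates `i`, `j` -/
def c5_M (i j : Fin n) (x y z w : ℤ) : Mx n :=
  1 + Matrix.single i i (x - 1) + Matrix.single i j y + Matrix.single j i z +
    Matrix.single j j (w - 1)

theorem c5_mv {i j : Fin n} (hij : i ≠ j) (x y z w : ℤ) (u : Fin n → ℤ) (k : Fin n) :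
    (c5_M i j x y z w *ᵥ u) k =
      if k = i then x * u i + y * u j else if k = j then z * u i + w * u j else u k := by
  simp only [c5_M, Matrix.add_mulVec, Matrix.one_mulVec, Matrix.single_mulVec, Pi.add_apply,
    Function.update_apply, Pi.zero_apply]
  split_ifs with h1 h2 h2
  · exact absurd (h1.symm.trans h2) hij
  · subst h1
    ring
  · subst h2
    ring
  · ring

theorem c5_mul {i j : Fin n} (hij : i ≠ j) {x y z w : ℤ} (h : x * w - y * z = 1) :
    c5_M i j x y z w * c5_M i j w (-y) (-z) x = 1 := by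
  refine Matrix.ext_iff_mulVec.2 fun u => funext fun k => ?_
  rw [← Matrix.mulVec_mulVec, Matrix.one_mulVec]
  simp only [c5_mv hij, if_true, if_neg hij.symm]
  split_ifs with h1 h2
  · subst h1
    linear_combination u k * h
  · subst h2
    linear_combination u k * h
  · rfl

theorem clear {i j : Fin n} (hij : i ≠ j) (v : Fin n → ℤ) : ∃ g : GLz n,
    ((g : Mx n) *ᵥ v) j = 0 ∧ (∀ (w : Fin n → ℤ) (k : Fin n), k ≠ i → k ≠ j →
      ((g : Mx n) *ᵥ w) k = w k) ∧
    ∀ w : Fin n → ℤ, w i = 0 → w j = 0 → (g : Mx n) *ᵥ w = w := by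
  obtain ⟨a, b, ha, hb, hu⟩ := extract_gcd (v i) (v j)
  obtain ⟨x, y, hxy⟩ := (gcd_isUnit_iff a b).1 hu
  generalize GCDMonoid.gcd (v i) (v j) = c at ha hb
  refine ⟨⟨c5_M i j x y (-b) a, c5_M i j a (-y) (- -b) x, c5_mul hij (by linear_combination hxy),
    ?_⟩, ?_, fun w k h1 h2 => ?_, fun w h1 h2 => funext fun k => ?_⟩
  · have h := c5_mul hij (x := a) (y := -y) (z := - -b) (w := x) (by linear_combination hxy)
    rwa [neg_neg y, neg_neg (-b)] at h
  · simp only [c5_mv hij, if_true, if_neg hij.symm]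
    rw [ha, hb]
    ring
  · simp only [c5_mv hij, if_neg h1, if_neg h2]
  · simp only [c5_mv hij, h1, h2]
    split_ifs with h3 h4
    · rw [h3, h1]
      ring
    · rw [h4, h2]
      ring
    · rfl

theorem cnj_Fixv (s : Set (Fin n → ℤ)) (g : GLz n) :
    cnj (Fixv s) g = Fixv ((fun v => (g : Mx n) *ᵥ v) '' s) := by
  ext a
  rw [mem_cnj, mem_Fixv, mem_Fixv, Set.forall_mem_image]
  refine forall₂_congr fun v _ => ?_
  rw [Units.val_mul, Units.val_mul, ← Matrix.mulVec_mulVec, ← Matrix.mulVec_mulVec]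
  constructor
  · intro h
    have h1 := congrArg (fun u => (g : Mx n) *ᵥ u) h
    simp only [Matrix.mulVec_mulVec] at h1
    rw [← mul_assoc, Units.mul_inv, one_mul, ← Matrix.mulVec_mulVec] at h1
    exact h1
  · intro h
    rw [h, Matrix.mulVec_mulVec, Units.inv_mul, Matrix.one_mulVec]

theorem c5_back (s : Set (Fin n → ℤ)) (g : GLz n) :
    cnj (Fixv ((fun v => (g : Mx n) *ᵥ v) '' s)) g⁻¹ = Fixv s := by
  rw [cnj_Fixv, Set.image_image]
  simp only [Matrix.mulVec_mulVec, Units.inv_mul, Matrix.one_mulVec, Set.image_id']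

theorem c5_anti {s t : Set (Fin n → ℤ)} (h : s ⊆ t) : Fixv t ≤ Fixv s :=
  fun _ hg v hv => hg v (h hv)

theorem c5_hyp {i k : Fin n} (hik : i ≠ k) {s : Set (Fin n → ℤ)} (hs : ∀ v ∈ s, v k = 0) :
    V0 (Fixv s) (rho (n := n)) ⊤ := by
  intro f _ hf
  have e1 : ∀ c d : ℤ, c + d = 0 →
      Matrix.transvection i k c * Matrix.transvection i k d = (1 : Mx n) := fun c d h => by
    rw [Matrix.transvection_mul_transvection_same _ _ hik, h, Matrix.transvection_zero]
  have e2 : Matrix.diagonal (Function.update 1 k (-1)) *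
      Matrix.diagonal (Function.update 1 k (-1)) = (1 : Mx n) := by
    rw [Matrix.diagonal_mul_diagonal, ← Matrix.diagonal_one]
    congr 1
    funext l
    by_cases hl : l = k
    · subst hl
      simp
    · simp [hl]
  have h1 := hf ⟨Matrix.transvection i k 1, Matrix.transvection i k (-1), e1 _ _ (by ring),
    e1 _ _ (by ring)⟩ (fun v hv => by
      simp [Matrix.transvection, Matrix.add_mulVec, Matrix.single_mulVec, hs v hv])
  have h2 := hf ⟨_, _, e2, e2⟩ (fun v hv => funext fun l => by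
    by_cases hl : l = k
    · subst hl
      simp [Matrix.mulVec_diagonal, hs v hv]
    · simp [Matrix.mulVec_diagonal, hl])
  refine kill hik.symm one_ne_zero ?_ ?_
  · simp only [rho, dt, Matrix.det_transvection_of_ne _ _ hik, Int.cast_one, one_smul,
      AlgHom.toLinearMap_apply] at h1
    simpa only [Matrix.transvection, Matrix.transpose_add, Matrix.transpose_one,
      Matrix.transpose_single] using h1
  · have e3 : (Matrix.diagonal (Function.update 1 k (-1)) : Mx n).det = -1 := by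
      rw [Matrix.det_diagonal, Finset.prod_update_of_mem (Finset.mem_univ k)]
      simp
    simp only [rho, dt, e3, Matrix.diagonal_transpose, LinearMap.smul_apply,
      AlgHom.toLinearMap_apply, Int.cast_neg, Int.cast_one, neg_one_smul] at h2
    exact neg_eq_iff_eq_neg.1 h2

theorem c5_hyp' {i k : Fin n} (hik : i ≠ k) {s : Set (Fin n → ℤ)} (g : GLz n)
    (hs : ∀ v ∈ s, ((g : Mx n) *ᵥ v) k = 0) : V0 (Fixv s) (rho (n := n)) ⊤ := by
  rw [← c5_back s g]
  refine V0.cnj le_top act_rho stb_top (Subgroup.mem_top _) (c5_hyp hik ?_)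
  rintro _ ⟨v, hv, rfl⟩
  exact hs v hv

theorem c5_two (v : Fin 4 → ℤ) : ∃ p : GLz 4, (p : Mx 4) *ᵥ bv 0 = bv 0 ∧
    ((p : Mx 4) *ᵥ v) 2 = 0 ∧ ((p : Mx 4) *ᵥ v) 3 = 0 := by
  obtain ⟨g1, a1, -, a3⟩ := clear (i := 2) (j := 3) (by decide) v
  obtain ⟨g2, b1, b2, b3⟩ := clear (i := 1) (j := 2) (by decide) ((g1 : Mx 4) *ᵥ v)
  refine ⟨g2 * g1, ?_, ?_, ?_⟩ <;> rw [Units.val_mul, ← Matrix.mulVec_mulVec]
  · rw [a3 _ rfl rfl, b3 _ rfl rfl]
  · exact b1
  · rw [b2 _ _ (by decide) (by decide), a1]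

theorem v0_triple (v w : Fin 4 → ℤ) : V0 (Fixv {bv 0, v, w}) (rho (n := 4)) ⊤ := by
  obtain ⟨p, a1, a2, a3⟩ := c5_two v
  obtain ⟨g, b1, -, b3⟩ := clear (i := 2) (j := 3) (by decide) ((p : Mx 4) *ᵥ w)
  refine c5_hyp' (i := 0) (k := 3) (by decide) (g * p) ?_
  rintro u (rfl | rfl | rfl) <;> rw [Units.val_mul, ← Matrix.mulVec_mulVec]
  · rw [a1, b3 _ rfl rfl]
    rfl
  · rw [b3 _ a2 a3, a3]
  · exact b1

theorem v0_pair (v : Fin 3 → ℤ) : V0 (Fixv {bv 0, v}) (rho (n := 3)) ⊤ := by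
  obtain ⟨g, b1, -, b3⟩ := clear (i := 1) (j := 2) (by decide) v
  refine c5_hyp' (i := 0) (k := 2) (by decide) g ?_
  rintro u (rfl | rfl)
  · rw [b3 _ rfl rfl]
    rfl
  · exact b1

theorem c5_par {d : ℕ} (hQ : V1 (Fixv {bv 0, bv 1}) (rho (n := 4)) (Hd 4 d)) :
    V1 (Fixv {bv 0}) (rho (n := 4)) (Hd 4 d) := by
  refine amal1 (c5_anti (by simp)) (act_rho.mono le_top) (stb_rho.mono le_top) hQ fun g hg => ?_
  refine V0.mono ?_ le_top (v0_triple (bv 1) ((g : Mx 4) *ᵥ bv 1))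
  rw [cnj_Fixv, Set.image_pair, hg _ rfl]
  exact le_inf (c5_anti (by simp [Set.insert_subset_iff]))
    (c5_anti (by simp [Set.insert_subset_iff]))

theorem v1_pair {d : ℕ} (hQ : V1 (Fixv {bv 0, bv 1}) (rho (n := 4)) (Hd 4 d))
    (v : Fin 4 → ℤ) : V1 (Fixv {bv 0, v}) (rho (n := 4)) (Hd 4 d) := by
  obtain ⟨p, a1, a2, a3⟩ := c5_two v
  rw [← c5_back _ p, Set.image_pair, a1]
  refine V1.cnj le_top act_rho stb_rho (Subgroup.mem_top _) ?_
  generalize (p : Mx 4) *ᵥ v = u at a2 a3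
  have e : u = u 0 • bv 0 + u 1 • bv 1 := by
    funext k
    fin_cases k <;> simp [bv, a2, a3]
  generalize u 0 = a, u 1 = b at e
  subst e
  by_cases hb : b = 0
  · convert c5_par hQ using 1
    refine le_antisymm (c5_anti (by simp)) fun g hg => ?_
    rintro u (rfl | rfl)
    · exact hg _ rfl
    · rw [hb, zero_smul, add_zero, Matrix.mulVec_smul, hg _ rfl]
  · convert hQ using 1
    refine le_antisymm (fun g hg => ?_) fun g hg => ?_
    · have h0 := hg _ (Or.inl rfl)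
      have h1 := hg _ (Or.inr rfl)
      rintro u (rfl | rfl)
      · exact h0
      · rw [Matrix.mulVec_add, Matrix.mulVec_smul, Matrix.mulVec_smul, h0] at h1
        exact smul_right_injective _ hb (add_left_cancel h1)
    · have h0 := hg _ (Or.inl rfl)
      have h1 := hg _ (Or.inr rfl)
      rintro u (rfl | rfl)
      · exact h0
      · rw [Matrix.mulVec_add, Matrix.mulVec_smul, Matrix.mulVec_smul, h0, h1]

theorem c5_inf (g : GLz (n + 1)) :
    Par n ⊓ cnj (Par n) g = Fixv {bv 0, (g : Mx (n + 1)) *ᵥ bv 0} := by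
  rw [Par, cnj_Fixv, Set.image_singleton]
  refine le_antisymm (fun a ha => ?_) (le_inf (c5_anti (by simp)) (c5_anti (by simp)))
  rintro u (rfl | rfl)
  · exact ha.1 _ rfl
  · exact ha.2 _ rfl

theorem v2_top_of {d : ℕ} (hQ : V1 (Fixv {bv 0, bv 1}) (rho (n := 4)) (Hd 4 d))
    (hP : V2 (Par 3) rho (Hd 4 d)) : V2 ⊤ (rho (n := 4)) (Hd 4 d) := by
  refine amal2 le_top act_rho stb_rho hP (fun g _ => ?_) fun g _ h _ => ?_
  · rw [c5_inf]
    exact v1_pair hQ _
  · refine V0.mono ?_ le_top (v0_triple ((g : Mx 4) *ᵥ bv 0) ((h : Mx 4) *ᵥ bv 0))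
    rw [c5_inf, Par, cnj_Fixv, Set.image_singleton]
    exact le_inf (c5_anti (by simp [Set.insert_subset_iff])) (c5_anti (by simp))

theorem v1_top3_of {m : ℕ} (hP : V1 (Par 2) rho (Hd 3 m)) :
    V1 ⊤ (rho (n := 3)) (Hd 3 m) := by
  refine amal1 le_top act_rho stb_rho hP fun g _ => ?_
  rw [c5_inf]
  exact V0.mono le_rfl le_top (v0_pair _)

end Pool.Agent.MP_cbe134_nt.V
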