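import Pool.Agent.MP_cbe134_nt.VC4
import Pool.Agent.MP_cbe134_nt.VC5

/- First cohomology of the stabiliser of two basis vectors and of `GL₃(ℤ)`. -/

open MvPolynomial Matrix

namespace Pool.Agent.MP_cbe134_nt.V

theorem c6_tors {E : Type} [AddCommGroup E] [Module ℚ E] {v : E} {m : ℕ} (hm : m ≠ 0)
    (h : m • v = 0) : v = 0 := by
  have h1 : (m : ℚ) • v = 0 := by rwa [Nat.cast_smul_eq_nsmul]
  exact (smul_eq_zero.1 h1).resolve_left (Nat.cast_ne_zero.2 hm)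

theorem add_van_GL2 {E : Type} [AddCommGroup E] [Module ℚ E] (c : GLz 2 → E)
    (hc : ∀ a b, dt a = 1 → dt b = 1 → c (a * b) = c a + c b) (a : GLz 2) (ha : dt a = 1) :
    c a = 0 := by
  have hd : ∀ g : SpecialLinearGroup (Fin 2) ℤ, dt (SpecialLinearGroup.toGL g) = 1 := by
    intro g
    have h : ((SpecialLinearGroup.toGL g : GLz 2) : Mx 2).det = 1 := g.2
    rw [dt, h, Int.cast_one]
  let φ : SpecialLinearGroup (Fin 2) ℤ →* Multiplicative E := MonoidHom.mk'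
    (fun g => Multiplicative.ofAdd (c (SpecialLinearGroup.toGL g))) fun g g' => by
      rw [map_mul, hc _ _ (hd g) (hd g'), ofAdd_add]
  have ht : ∀ (g : SpecialLinearGroup (Fin 2) ℤ) (m : ℕ), m ≠ 0 → g ^ m = 1 → φ g = 1 := by
    intro g m hm hg
    have h1 : φ g ^ m = 1 := by rw [← map_pow, hg, map_one]
    have h2 : m • (φ g).toAdd = 0 := by rw [← toAdd_pow, h1, toAdd_one]
    exact Multiplicative.toAdd.injective (c6_tors hm h2)
  have hS : φ ModularGroup.S = 1 := ht _ 4 (by norm_num) (by decide)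
  have hST : φ (ModularGroup.S * ModularGroup.T) = 1 := ht _ 6 (by norm_num) (by decide)
  have hT : φ ModularGroup.T = 1 := by rwa [map_mul, hS, one_mul] at hST
  have hk : φ.ker = ⊤ := by
    rw [eq_top_iff, ← SpecialLinearGroup.SL2Z_generators, Subgroup.closure_le]
    rintro _ (rfl | rfl)
    · exact hS
    · exact hT
  have hdet : (a : Mx 2).det = 1 := by
    have h : (((a : Mx 2).det : ℤ) : ℚ) = 1 := ha
    exact_mod_cast h
  have hm : (⟨a, hdet⟩ : SpecialLinearGroup (Fin 2) ℤ) ∈ φ.ker := by rw [hk]; trivial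
  have he : SpecialLinearGroup.toGL (⟨a, hdet⟩ : SpecialLinearGroup (Fin 2) ℤ) = a :=
    Units.ext rfl
  have h3 : Multiplicative.ofAdd (c (SpecialLinearGroup.toGL
    (⟨a, hdet⟩ : SpecialLinearGroup (Fin 2) ℤ))) = 1 := hm
  rw [he] at h3
  exact Multiplicative.ofAdd.injective h3

theorem add_van_P2 {E : Type} [AddCommGroup E] [Module ℚ E] (c : GLz 3 → E)
    (hc : ∀ a ∈ Par 2, ∀ b ∈ Par 2, dt a = 1 → dt b = 1 → c (a * b) = c a + c b)
    (a : GLz 3) (ha : a ∈ Par 2) (ha' : dt a = 1) : c a = 0 := by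
  have he : ∀ D : GLz 2, dt D = 1 → c (emb 2 D) = 0 :=
    add_van_GL2 (fun D => c (emb 2 D)) fun D D' h h' => by
      rw [map_mul]
      exact hc _ (emb_mem_Par D) _ (emb_mem_Par D') (by rwa [dt_emb]) (by rwa [dt_emb])
  have h1 : c 1 = 0 := by
    have h := he 1 dt_one
    rwa [map_one] at h
  have hs : dt (-1 : GLz 2) = 1 := by simp [dt, Matrix.det_fin_two]
  have ht : ∀ x : Fin 2 → ℤ, c (trl x) = 0 := by
    intro x
    have h2 := par_conj (emb_mem_Par (-1 : GLz 2)) x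
    rw [lowM_emb, Units.coe_neg_one, Matrix.vecMul_neg, Matrix.vecMul_one] at h2
    have h3 : trl x * emb 2 (-1) = emb 2 (-1) * trl (-x) := by
      rw [← h2]
      group
    have hs' : dt (emb 2 (-1)) = 1 := by rwa [dt_emb]
    have h4 := hc _ (trl_mem_Par x) _ (emb_mem_Par (-1)) (dt_trl x) hs'
    rw [h3, hc _ (emb_mem_Par (-1)) _ (trl_mem_Par (-x)) hs' (dt_trl _), he _ hs, zero_add,
      add_zero] at h4
    have h5 := hc _ (trl_mem_Par x) _ (trl_mem_Par (-x)) (dt_trl _) (dt_trl _)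
    rw [← trl_add, add_neg_cancel, trl_zero, h1, h4] at h5
    exact c6_tors (m := 2) (by norm_num) (by rw [two_nsmul, ← h5])
  obtain ⟨D, x, -, rfl⟩ := par_dec ha
  have hD : dt D = 1 := by rwa [dt_mul, dt_trl, one_mul, dt_emb] at ha'
  rw [hc _ (trl_mem_Par x) _ (emb_mem_Par D) (dt_trl x) (by rwa [dt_emb]), ht, he D hD, add_zero]

theorem c6_col {n : ℕ} {g : GLz n} {j : Fin n} (h : (g : Mx n) *ᵥ bv j = bv j) (i : Fin n) :
    (g : Mx n) i j = if i = j then 1 else 0 := by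
  have h1 := congrFun h i
  simpa [bv, Pi.single_apply] using h1

theorem c6_col' {n : ℕ} {g : GLz n} {j : Fin n}
    (h : ∀ i, (g : Mx n) i j = if i = j then 1 else 0) : (g : Mx n) *ᵥ bv j = bv j := by
  funext i
  simpa [bv, Pi.single_apply] using h i

theorem c6_aff_sp {n : ℕ} {K : Set (Fin n)} {g : GLz (n + 1)}
    (h : ∀ j ∈ K, (g : Mx (n + 1)) *ᵥ bv j.succ = bv j.succ) {f : Pn n} (hf : f ∈ Sp K) :
    aff g f = dt g • f := by
  have hf' : f ∈ Algebra.adjoin ℚ (X '' K) := hf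
  have key : (aeval fun j : Fin n => C ((g : Mx (n + 1)) 0 j.succ : ℚ) +
      ∑ i : Fin n, C ((g : Mx (n + 1)) i.succ j.succ : ℚ) * X i : Pn n →ₐ[ℚ] Pn n) f = f := by
    induction hf' using Algebra.adjoin_induction with
    | mem x hx =>
      obtain ⟨j, hj, rfl⟩ := hx
      simp [c6_col (h j hj), (Fin.succ_ne_zero j).symm, apply_ite]
    | algebraMap r => simp
    | add x y hx hy ihx ihy => rw [map_add, ihx hx, ihy hy]
    | mul x y hx hy ihx ihy => rw [map_mul, ihx hx, ihy hy]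
  rw [aff, LinearMap.smul_apply, AlgHom.toLinearMap_apply, key]

/-- an elementary matrix -/
def c6_tv {n : ℕ} {i j : Fin n} (h : i ≠ j) : GLz n :=
  ⟨1 + Matrix.single j i 1, 1 - Matrix.single j i 1,
    by simp [add_mul, mul_sub, Matrix.single_mul_single_of_ne _ _ _ _ h],
    by simp [sub_mul, mul_add, Matrix.single_mul_single_of_ne _ _ _ _ h]⟩

theorem c6_rf_sq {n : ℕ} (i : Fin n) :
    (Matrix.diagonal (Function.update 1 i (-1)) : Mx n) *
      Matrix.diagonal (Function.update 1 i (-1)) = 1 := by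
  rw [Matrix.diagonal_mul_diagonal, ← Matrix.diagonal_one]
  congr 1
  funext k
  by_cases hk : k = i
  · subst hk
    simp
  · simp [hk]

/-- a reflection -/
def c6_rf {n : ℕ} (i : Fin n) : GLz n :=
  ⟨Matrix.diagonal (Function.update 1 i (-1)), Matrix.diagonal (Function.update 1 i (-1)),
    c6_rf_sq i, c6_rf_sq i⟩

theorem c6_dt_rf {n : ℕ} (i : Fin n) : dt (c6_rf i) = -1 := by
  simp [dt, c6_rf, Matrix.det_diagonal, Finset.prod_update_of_mem]

theorem v1_P2_aff : V1 (Par 2) aff ⊤ := by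
  refine ext1 (N := Trn Set.univ) (K := (emb 2).range) (Trn_le_Par _) ?_ act_aff stb_top ?_ ?_ ?_ ?_
  · rintro _ ⟨D, rfl⟩
    exact emb_mem_Par D
  · rintro g hg _ ⟨a, -, rfl⟩
    exact ⟨_, fun j hj => absurd (Set.mem_univ j) hj, par_conj hg a⟩
  · intro g hg
    obtain ⟨D, a, -, e⟩ := par_dec hg
    exact ⟨trl a, ⟨a, fun j hj => absurd (Set.mem_univ j) hj, rfl⟩, emb 2 D, ⟨D, rfl⟩, e⟩
  · rw [← sp_univ]
    exact v1_trn le_rfl
  · rw [← sp_univ, fx_trn]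
    refine sgn1 dt (fun a _ => dt_pm a) (fun a _ b _ => dt_mul a b)
      (fun a _ v hv => c6_aff_sp (fun j hj => absurd hj.1 hj.2) hv) (r := emb 2 (c6_rf 1))
      ⟨_, rfl⟩ (by rw [dt_emb, c6_dt_rf]) ?_
    rintro c hc _ ⟨D, rfl⟩ hD
    refine add_van_GL2 (fun D => c (emb 2 D)) (fun a b ha hb => ?_) D (by rwa [dt_emb] at hD)
    rw [map_mul]
    exact hc _ ⟨a, rfl⟩ _ ⟨b, rfl⟩ (by rwa [dt_emb]) (by rwa [dt_emb])

theorem c6_Q_iff {g : GLz (3 + 1)} : g ∈ (Fixv {bv 0, bv 1} : Subgroup (GLz (3 + 1))) ↔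
    g ∈ Par 3 ∧ (g : Mx (3 + 1)) *ᵥ bv 1 = bv 1 := by
  simp [mem_Fixv, Par]

theorem c6_Q_le : (Fixv {bv 0, bv 1} : Subgroup (GLz (3 + 1))) ≤ Par 3 :=
  fun _ hg => (c6_Q_iff.1 hg).1

theorem c6_trl_Q {a : Fin 3 → ℤ} :
    trl a ∈ (Fixv {bv 0, bv 1} : Subgroup (GLz (3 + 1))) ↔ a 0 = 0 := by
  rw [c6_Q_iff]
  constructor
  · intro h
    have h1 := c6_col h.2 0
    simpa [trl, trM] using h1
  · intro h
    refine ⟨trl_mem_Par a, c6_col' fun i => ?_⟩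
    fin_cases i <;> simp [trl, trM, h]

theorem c6_emb_Q {D : GLz 3} (hD : D ∈ Par 2) :
    emb 3 D ∈ (Fixv {bv 0, bv 1} : Subgroup (GLz (3 + 1))) := by
  rw [c6_Q_iff]
  refine ⟨emb_mem_Par D, c6_col' fun i => ?_⟩
  have h := mem_Par.1 hD
  refine Fin.cases ?_ (fun i' => ?_) i
  · rfl
  · have h1 : ((emb 3 D : GLz (3 + 1)) : Mx (3 + 1)) i'.succ 1 = (D : Mx 3) i' 0 := rfl
    rw [h1, h i']
    have h2 : (i'.succ = 1) = (i' = 0) := propext (Fin.succ_inj (b := 0))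
    simp only [h2]

theorem c6_low {g : GLz (3 + 1)} (hg : g ∈ (Fixv {bv 0, bv 1} : Subgroup (GLz (3 + 1))))
    (i : Fin 3) : lowM (g : Mx (3 + 1)) i 0 = if i = 0 then 1 else 0 := by
  have h := c6_col (c6_Q_iff.1 hg).2 i.succ
  have h2 : (i.succ = 1) = (i = 0) := propext (Fin.succ_inj (b := 0))
  simp only [h2] at h
  exact h

theorem c6_trn {g : GLz (3 + 1)} :
    g ∈ Trn ({j | j ≠ 0} : Set (Fin 3)) ↔ ∃ a : Fin 3 → ℤ, a 0 = 0 ∧ g = trl a := by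
  constructor
  · rintro ⟨a, ha, rfl⟩
    exact ⟨a, ha 0 (fun h => h rfl), rfl⟩
  · rintro ⟨a, ha, rfl⟩
    refine ⟨a, fun j hj => ?_, rfl⟩
    rw [not_not.1 hj, ha]

theorem v1_Q_aff : V1 (Fixv {bv 0, bv 1} : Subgroup (GLz (3 + 1))) aff ⊤ := by
  have hK : (Par 2).map (emb 3) ≤ (Fixv {bv 0, bv 1} : Subgroup (GLz (3 + 1))) := by
    rintro _ ⟨D, hD, rfl⟩
    exact c6_emb_Q hD
  refine ext1 (N := Trn {j | j ≠ 0}) (K := (Par 2).map (emb 3)) ?_ hK (act_aff.mono c6_Q_le)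
    stb_top ?_ ?_ ?_ ?_
  · intro g hg
    obtain ⟨a, ha, rfl⟩ := c6_trn.1 hg
    exact c6_trl_Q.2 ha
  · intro g hg t ht
    obtain ⟨a, ha, rfl⟩ := c6_trn.1 ht
    refine c6_trn.2 ⟨_, ?_, par_conj (c6_Q_le hg) a⟩
    simp [Matrix.vecMul, dotProduct, c6_low hg, ha]
  · intro g hg
    obtain ⟨D, a, hD, e⟩ := par_dec (c6_Q_le hg)
    have hD' : D ∈ Par 2 := mem_Par.2 fun i => by
      rw [hD]
      exact c6_low hg i
    have ha : trl a ∈ (Fixv {bv 0, bv 1} : Subgroup (GLz (3 + 1))) := by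
      rw [eq_mul_inv_of_mul_eq e.symm]
      exact mul_mem hg (inv_mem (c6_emb_Q hD'))
    exact ⟨trl a, c6_trn.2 ⟨a, c6_trl_Q.1 ha, rfl⟩, emb 3 D, ⟨D, hD', rfl⟩, e⟩
  · rw [← sp_univ]
    exact v1_trn (Set.subset_univ _)
  · rw [← sp_univ, fx_trn]
    refine sgn1 dt (fun a _ => dt_pm a) (fun a _ b _ => dt_mul a b)
      (fun a ha v hv => c6_aff_sp (fun j hj => ?_) hv) (r := emb 3 (emb 2 (c6_rf 1)))
      ⟨_, emb_mem_Par _, rfl⟩ (by rw [dt_emb, dt_emb, c6_dt_rf]) ?_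
    · rw [not_not.1 hj.2]
      exact (c6_Q_iff.1 (hK ha)).2
    · rintro c hc _ ⟨D, hD, rfl⟩ hD'
      refine add_van_P2 (fun D => c (emb 3 D)) (fun a ha b hb ha' hb' => ?_) D hD
        (by rwa [dt_emb] at hD')
      rw [map_mul]
      exact hc _ ⟨a, ha, rfl⟩ _ ⟨b, hb, rfl⟩ (by rwa [dt_emb]) (by rwa [dt_emb])

theorem v1_Q (d : ℕ) : V1 (Fixv {bv 0, bv 1}) (rho (n := 4)) (Hd 4 d) := by
  have h : (2 : Fin 3) ≠ 0 := by decide
  refine dehom1 (n := 3) c6_Q_le (ses1 (v0m_of c6_Q_le h (t := emb 3 (c6_tv h))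
    (r := emb 3 (c6_rf 2)) (c6_emb_Q ?_) (lowM_emb _) (c6_emb_Q ?_) (lowM_emb _) d) v1_Q_aff)
  · refine mem_Par.2 fun i => ?_
    fin_cases i <;> simp [c6_tv]
  · refine mem_Par.2 fun i => ?_
    fin_cases i <;> simp [c6_rf]

theorem v1_GL3 (m : ℕ) : V1 ⊤ (rho (n := 3)) (Hd 3 m) := by
  have h : (1 : Fin 2) ≠ 0 := by decide
  exact v1_top3_of (dehom1 (n := 2) le_rfl (ses1 (v0m_of le_rfl h (t := emb 2 (c6_tv h))
    (r := emb 2 (c6_rf 1)) (emb_mem_Par _) (lowM_emb _) (emb_mem_Par _) (lowM_emb _) m) v1_P2_aff))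

end Pool.Agent.MP_cbe134_nt.V
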