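import Pool.Agent.MP_cbe134_nt.VC4

/- Cocycles of the affine group modulo low degree become trivial on translations. -/

open MvPolynomial Matrix

namespace Pool.Agent.MP_cbe134_nt.V

/-- cocycles modulo degree `d` -/
def c7_Coc (d : ℕ) (β : GLz (3 + 1) → Pn 3) : Prop :=
  ∀ a ∈ Par 3, ∀ b ∈ Par 3, aff a (β b) - β (a * b) + β a ∈ Ld 3 d

/-- the reflection in the origin -/
def c7_s : GLz (3 + 1) := emb 3 (-1)

/-- the unit translations -/
abbrev c7_t (j : Fin 3) : GLz (3 + 1) := trl (Pi.single j 1)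

theorem c7_cob {d : ℕ} {β : GLz (3 + 1) → Pn 3} (h : c7_Coc d β) (v : Pn 3) :
    c7_Coc d fun a => β a - (aff a v - v) := fun a ha b hb => by
  convert h a ha b hb using 1
  simp only [map_sub, act_aff.2 a ha b hb]
  abel

theorem c7_one {d : ℕ} {β : GLz (3 + 1) → Pn 3} (h : c7_Coc d β) : β 1 ∈ Ld 3 d := by
  simpa [act_aff.1] using h 1 (one_mem _) 1 (one_mem _)

theorem c7_par : c7_s ∈ Par 3 := emb_mem_Par _

theorem c7_dt : dt (-1 : GLz 3) = -1 := by
  simp [dt, det_neg]

theorem c7_ss : c7_s * c7_s = 1 := by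
  rw [c7_s, ← map_mul, neg_mul_neg, one_mul, map_one]

theorem c7_low : lowM ((c7_s : GLz (3 + 1)) : Mx (3 + 1)) = -1 := lowM_emb _

theorem c7_conj (a : Fin 3 → ℤ) : trl a * c7_s = c7_s * trl (-a) := by
  have := par_conj c7_par a
  rw [c7_low, vecMul_neg, vecMul_one] at this
  rw [← this, ← mul_assoc, ← mul_assoc, mul_inv_cancel, one_mul]

theorem c7_hom {M : ℕ} (hM : Odd M) {f : Pn 3} (hf : f ∈ Hd 3 M) : aff c7_s f = f := by
  rw [c7_s, aff_emb, rho, c7_dt, Units.coe_neg_one, transpose_neg, transpose_one]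
  change (-1 : ℚ) • sub (-1) f = f
  rw [sub_neg 1 hf, sub_one, hM.neg_one_pow, smul_smul, neg_mul_neg, one_mul, one_smul]

theorem c7_top {M : ℕ} (hM : Odd M) {f : Pn 3} (hf : f ∈ Ld 3 M) :
    homogeneousComponent M (aff c7_s f) = homogeneousComponent M f := by
  rw [top_aff _ hf, c7_low, c7_s, dt_emb, c7_dt, transpose_neg, transpose_one,
    sub_neg 1 (homogeneousComponent_mem M f), sub_one, hM.neg_one_pow, smul_smul, neg_mul_neg,
    one_mul, one_smul]

theorem c7_top' {M : ℕ} (a : Fin 3 → ℤ) {f : Pn 3} (hf : f ∈ Ld 3 M) :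
    homogeneousComponent M (aff (trl a) f) = homogeneousComponent M f := by
  rw [top_aff _ hf, lowM_trl, dt_trl, transpose_one, sub_one, one_smul]

theorem c7_zero {d M : ℕ} (h : d < M) {f : Pn 3} (hf : f ∈ Ld 3 d) :
    homogeneousComponent M f = 0 :=
  homogeneousComponent_eq_zero _ _ (((mem_restrictTotalDegree _ _ _).1 hf).trans_lt h)

theorem c7_pot {M : ℕ} (u : Fin 3 → Pn 3) (hu : ∀ j, u j ∈ Hd 3 M)
    (h : ∀ i j, pderiv i (u j) = pderiv j (u i)) : ∃ U ∈ Hd 3 (M + 1), ∀ i, pderiv i U = u i := by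
  refine ⟨((M : ℚ) + 1)⁻¹ • ∑ j, X j * u j, Submodule.smul_mem _ _ (sum_mem fun j _ => ?_),
    fun i => ?_⟩
  · rw [add_comm]
    exact (isHomogeneous_X ℚ j).mul (hu j)
  · have h1 : ∑ j, pderiv i (X j * u j) = ((M : ℚ) + 1) • u i := by
      simp only [Derivation.leibniz, smul_eq_mul, h i, Finset.sum_add_distrib,
        IsHomogeneous.sum_X_mul_pderiv (hu i), pderiv_X, add_smul, one_smul,
        Nat.cast_smul_eq_nsmul]
      simp [Pi.single_apply]
    rw [Derivation.map_smul, map_sum, h1, smul_smul, inv_mul_cancel₀ (by positivity), one_smul]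

theorem c7_ind {d : ℕ} (hd : Even d) (m : ℕ) : ∀ β : GLz (3 + 1) → Pn 3, c7_Coc d β →
    β c7_s ∈ Ld 3 d → (∀ j, β (c7_t j) ∈ Ld 3 (d + m)) →
    ∃ v, ∀ j, β (c7_t j) - (aff (c7_t j) v - v) ∈ Ld 3 d := by
  induction m with
  | zero => exact fun β _ _ h => ⟨0, fun j => by simpa using h j⟩
  | succ m ih =>
    intro β hβ hs ht
    replace ht : ∀ j, β (c7_t j) ∈ Ld 3 (d + m + 1) := ht
    rcases Nat.even_or_odd m with hm | hm
    · refine ih β hβ hs fun j => mem_Ld_pred (ht j) ?_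
      have hM : Odd (d + m + 1) := (hd.add hm).add_one
      have h1 := hβ _ (trl_mem_Par (Pi.single j 1)) _ c7_par
      have h2 := hβ _ c7_par _ (trl_mem_Par (-Pi.single j 1))
      have h3 := hβ _ (trl_mem_Par (-Pi.single j 1)) _ (trl_mem_Par (Pi.single j 1))
      rw [← trl_add, neg_add_cancel, trl_zero] at h3
      rw [c7_conj] at h1
      have h4 : β (c7_t j) + aff c7_s (aff (trl (-Pi.single j 1)) (β (c7_t j))) ∈ Ld 3 d := by
        convert add_mem (add_mem (_root_.sub_mem (_root_.sub_mem h1 h2) (aff_mem_Ld (c7_t j) hs)) hs)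
          (aff_mem_Ld c7_s (add_mem h3 (c7_one hβ))) using 1
        simp only [map_add, map_sub]
        abel
      have h5 := c7_zero (M := d + m + 1) (by omega) h4
      rw [map_add, c7_top hM (aff_mem_Ld _ (ht j)), c7_top' _ (ht j), ← two_smul ℚ] at h5
      exact (smul_eq_zero.1 h5).resolve_left two_ne_zero
    · obtain ⟨U, hU, hU'⟩ := c7_pot (fun j => homogeneousComponent (d + m + 1) (β (c7_t j)))
        (fun j => homogeneousComponent_mem _ _) fun i j => by
          have h1 := _root_.sub_mem (hβ _ (trl_mem_Par (Pi.single i 1)) _ (trl_mem_Par (Pi.single j 1)))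
            (hβ _ (trl_mem_Par (Pi.single j 1)) _ (trl_mem_Par (Pi.single i 1)))
          rw [← trl_add, ← trl_add, add_comm (Pi.single j 1)] at h1
          have h2 : (aff (c7_t i) (β (c7_t j)) - β (c7_t j)) -
              (aff (c7_t j) (β (c7_t i)) - β (c7_t i)) ∈ Ld 3 d := by
            convert h1 using 1
            abel
          have h3 := c7_zero (M := d + m) (by have := hm.pos; omega) h2
          rwa [map_sub, (taylor_trl i (ht j)).2, (taylor_trl j (ht i)).2, sub_eq_zero] at h3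
      have hL : U ∈ Ld 3 (d + m + 1 + 1) :=
        (mem_restrictTotalDegree _ _ _).2 (IsHomogeneous.totalDegree_le hU)
      obtain ⟨v, hv⟩ := ih _ (c7_cob hβ U) (by
        rwa [c7_hom (hd.add_odd hm).add_one.add_one hU, sub_self, sub_zero]) fun j =>
          mem_Ld_pred (_root_.sub_mem (ht j) (taylor_trl j hL).1) (by
            rw [map_sub, (taylor_trl j hL).2, homogeneousComponent_of_mem hU, if_pos rfl, hU',
              sub_self])
      refine ⟨U + v, fun j => ?_⟩
      convert hv j using 1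
      rw [map_add]
      abel

theorem c7_all {d : ℕ} {β : GLz (3 + 1) → Pn 3} (hβ : c7_Coc d β)
    (ht : ∀ j, β (c7_t j) ∈ Ld 3 d) (a : Fin 3 → ℤ) : β (trl a) ∈ Ld 3 d := by
  let K : AddSubgroup (Fin 3 → ℤ) :=
    { carrier := {a | β (trl a) ∈ Ld 3 d}
      add_mem' := fun {a b} ha hb => by
        have := _root_.sub_mem (add_mem (aff_mem_Ld (trl a) hb) ha)
          (hβ _ (trl_mem_Par a) _ (trl_mem_Par b))
        rw [← trl_add] at this
        change β (trl (a + b)) ∈ Ld 3 d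
        convert this using 1
        abel
      zero_mem' := by
        change β (trl 0) ∈ Ld 3 d
        rw [trl_zero]
        exact c7_one hβ
      neg_mem' := fun {a} ha => by
        have h := hβ _ (trl_mem_Par (-a)) _ (trl_mem_Par a)
        rw [← trl_add, neg_add_cancel, trl_zero] at h
        change β (trl (-a)) ∈ Ld 3 d
        convert _root_.sub_mem (add_mem h (c7_one hβ)) (aff_mem_Ld (trl (-a)) ha) using 1
        abel }
  change a ∈ K
  rw [pi_eq_sum_univ' a]
  exact sum_mem fun j _ => zsmul_mem (show Pi.single j 1 ∈ K from ht j) _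

theorem v1m_step {d : ℕ} (hd : Even d) (β : GLz (3 + 1) → Pn 3)
    (hβ : ∀ a ∈ Par 3, ∀ b ∈ Par 3, aff a (β b) - β (a * b) + β a ∈ Ld 3 d) :
    ∃ v : Pn 3, ∀ a : Fin 3 → ℤ, β (trl a) - (aff (trl a) v - v) ∈ Ld 3 d := by
  have h0 := c7_cob hβ (-(1 / 2 : ℚ) • β c7_s)
  obtain ⟨v, hv⟩ := c7_ind hd (∑ j, (β (c7_t j) - (aff (c7_t j) (-(1 / 2 : ℚ) • β c7_s) -
      -(1 / 2 : ℚ) • β c7_s)).totalDegree) _ h0 (by
      have h1 := hβ _ c7_par _ c7_par
      rw [c7_ss] at h1
      convert Submodule.smul_mem _ (1 / 2 : ℚ) (add_mem h1 (c7_one hβ)) using 1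
      rw [map_smul]
      module) fun j => (mem_restrictTotalDegree _ _ _).2 (le_add_left (Finset.single_le_sum
        (f := fun j => (β (c7_t j) - (aff (c7_t j) (-(1 / 2 : ℚ) • β c7_s) -
          -(1 / 2 : ℚ) • β c7_s)).totalDegree) (fun _ _ => Nat.zero_le _) (Finset.mem_univ j)))
  refine ⟨-(1 / 2 : ℚ) • β c7_s + v, fun a => ?_⟩
  convert c7_all (c7_cob h0 v) hv a using 1
  rw [map_add]
  abel

end Pool.Agent.MP_cbe134_nt.V
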