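import Pool.Agent.MP_cbe134_nt.VC6
import Pool.Agent.MP_cbe134_nt.VC7

/- Vanishing of the second cohomology of `GL₄(ℤ)` in even forms twisted by the determinant. -/

open MvPolynomial Matrix

namespace Pool.Agent.MP_cbe134_nt.V

theorem c8_top_rho {n : ℕ} (D : GLz n) (m : ℕ) (f : Pn n) :
    homogeneousComponent m (rho D f) = rho D (homogeneousComponent m f) := by
  simp only [rho, LinearMap.smul_apply, map_smul, AlgHom.toLinearMap_apply,
    sub_homogeneousComponent]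

theorem c8_top_zero {n d : ℕ} {f : Pn n} (hf : f ∈ Ld n d) : homogeneousComponent (d + 1) f = 0 :=
  homogeneousComponent_eq_zero _ _ (Nat.lt_succ_of_le ((mem_restrictTotalDegree _ _ _).1 hf))

theorem c8_trl {n d : ℕ} (a : Fin n → ℤ) {f : Pn n} (hf : f ∈ Ld n (d + 1)) :
    aff (trl a) f - f ∈ Ld n d := by
  refine mem_Ld_pred (Submodule.sub_mem _ (aff_mem_Ld _ hf) hf) ?_
  rw [map_sub, top_aff _ hf, dt_trl, lowM_trl, transpose_one, sub_one, one_smul, sub_self]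

theorem c8_red {d : ℕ} (β : GLz (3 + 1) → Pn 3)
    (hβ : ∀ a ∈ Par 3, ∀ b ∈ Par 3, aff a (β b) - β (a * b) + β a ∈ Ld 3 d)
    (h0 : ∀ a, β (trl a) ∈ Ld 3 d) : ∃ w, ∀ g ∈ Par 3, β g - (aff g w - w) ∈ Ld 3 d := by
  have h1 : ∀ g ∈ Par 3, β g ∈ Ld 3 (d + 1) := fun g hg => mem_Ld_succ fun j => by
    have e : trl (Pi.single j 1) * g = g * trl (Pi.single j 1 ᵥ* lowM (g : Mx (3 + 1))) := by
      rw [← par_conj hg]; group
    have a1 := hβ _ (trl_mem_Par (Pi.single j 1)) g hg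
    have a2 := hβ g hg _ (trl_mem_Par (Pi.single j 1 ᵥ* lowM (g : Mx (3 + 1))))
    rw [e] at a1
    convert add_mem (Submodule.sub_mem _ (Submodule.sub_mem _ a1 a2) (h0 (Pi.single j 1)))
      (aff_mem_Ld g (h0 (Pi.single j 1 ᵥ* lowM (g : Mx (3 + 1))))) using 1
    abel
  obtain ⟨w, w1, w2⟩ := v1_GL3 (d + 1) (fun D => homogeneousComponent (d + 1) (β (emb 3 D)))
    (fun D _ => homogeneousComponent_mem _ _) fun a _ b _ => by
      have a1 := c8_top_zero (hβ _ (emb_mem_Par a) _ (emb_mem_Par b))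
      rw [map_add, map_sub, aff_emb, c8_top_rho, ← map_mul] at a1
      linear_combination (exp := 1) -a1
  have w3 : w ∈ Ld 3 (d + 1) :=
    (mem_restrictTotalDegree _ _ _).2 (IsHomogeneous.totalDegree_le w1)
  have w4 : homogeneousComponent (d + 1) w = w := by rw [homogeneousComponent_of_mem w1, if_pos rfl]
  have h2 : ∀ D, β (emb 3 D) - (aff (emb 3 D) w - w) ∈ Ld 3 d := fun D => by
    refine mem_Ld_pred (Submodule.sub_mem _ (h1 _ (emb_mem_Par D))
      (Submodule.sub_mem _ (aff_mem_Ld _ w3) w3)) ?_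
    rw [map_sub, map_sub, aff_emb, c8_top_rho, w4, ← w2 D trivial, sub_self]
  refine ⟨w, fun g hg => ?_⟩
  obtain ⟨D, a, -, rfl⟩ := par_dec hg
  convert Submodule.sub_mem _ (add_mem (Submodule.sub_mem _ (h0 a)
    (hβ _ (trl_mem_Par a) _ (emb_mem_Par D))) (aff_mem_Ld (trl a) (h2 D))) (c8_trl a w3) using 1
  rw [act_aff.2 _ (trl_mem_Par a) _ (emb_mem_Par D), map_sub, map_sub]
  abel

theorem v1m_par {d : ℕ} (hd : Even d) : V1m (Par 3) aff (Ld 3 d) := by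
  intro β hβ
  obtain ⟨v, hv⟩ := v1m_step hd β hβ
  obtain ⟨w, hw⟩ := c8_red (fun g => β g - (aff g v - v)) (fun a ha b hb => by
    convert hβ a ha b hb using 1
    rw [act_aff.2 a ha b hb, map_sub, map_sub]
    abel) hv
  refine ⟨v + w, fun g hg => ?_⟩
  convert hw g hg using 1
  rw [map_add]
  abel

theorem c8_v0 {S : Subgroup (GLz (3 + 1))} (h : emb 3 (-1) ∈ S) : V0 S aff (Sp ∅) := by
  intro v hv h1
  have h2 := h1 _ h
  rw [Subalgebra.mem_toSubmodule, supported_empty, Algebra.mem_bot] at hv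
  obtain ⟨c, rfl⟩ := hv
  have h3 : dt (-1 : GLz 3) = -1 := by
    simp [dt, det_neg]
  rw [aff_emb, rho, LinearMap.smul_apply, AlgHom.toLinearMap_apply, AlgHom.commutes, h3,
    neg_one_smul] at h2
  exact CharZero.neg_eq_self_iff.1 h2

theorem v2_par_aff : V2 (Par 3) aff ⊤ := by
  obtain ⟨κ, k1, k2⟩ := exists_kappa (n := 3)
  have hK : (emb 3).range ≤ Par 3 := by rintro _ ⟨D, rfl⟩; exact emb_mem_Par D
  have hn : ∀ g ∈ Par 3, ∀ a ∈ Trn Set.univ, g⁻¹ * a * g ∈ Trn Set.univ := by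
    rintro g hg _ ⟨a, -, rfl⟩
    exact ⟨_, fun j hj => absurd trivial hj, par_conj hg a⟩
  have hF : Fx (Trn (Set.univ : Set (Fin 3))) aff ⊤ = Sp ∅ := by
    rw [← sp_univ, fx_trn, Set.sdiff_self]
  have hP : Subgroup.zpowers (emb 3 (-1)) ≤ (emb 3).range := by
    rw [Subgroup.zpowers_le]; exact ⟨_, rfl⟩
  have hf : (Subgroup.zpowers (emb 3 (-1)) : Set (GLz (3 + 1))).Finite :=
    (isOfFinOrder_iff_pow_eq_one.2 ⟨2, two_pos, by rw [← map_pow]; simp⟩).finite_zpowers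
  have hc : ∀ g ∈ (emb 3).range, emb 3 (-1) ∈ cnj (Subgroup.zpowers (emb 3 (-1))) g := by
    rintro _ ⟨D, rfl⟩
    rw [mem_cnj, ← map_inv, ← map_mul, ← map_mul, mul_neg_one, neg_mul, inv_mul_cancel]
    exact Subgroup.mem_zpowers _
  refine ext2 (Trn_le_Par _) hK act_aff stb_top hn κ k1 k2 (sp_univ ▸ v1_trn subset_rfl)
    (sp_univ ▸ v2_trn subset_rfl) (amal2 hP (act_aff.mono hK)
      ((stb_Fx (Trn_le_Par _) act_aff stb_top hn).mono hK) (fin2 hf (act_aff.mono (hP.trans hK)))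
      (fun g _ => fin1 (hf.subset fun _ h => h.1) (act_aff.mono (inf_le_left.trans (hP.trans hK))))
      fun g hg g' hg' => ?_)
  rw [hF]
  exact c8_v0 ⟨⟨Subgroup.mem_zpowers _, hc g hg⟩, hc g' hg'⟩

theorem v2_GL4 {d : ℕ} (hd : Even d) : V2 ⊤ (rhoD (n := 4)) (Hd 4 d) :=
  v2_rhoD (v2_top_of (v1_Q d) (dehom2 le_rfl (ses2 act_aff (v1m_par hd) v2_par_aff)))

end Pool.Agent.MP_cbe134_nt.V
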