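import Pool.Agent.MP_cbe134_nt.VC1

/- An equivariant cocycle on an acyclic complex has an equivariant primitive. -/

namespace Pool.Agent.MP_cbe134_nt.V

/-- factorisation of a linear map through another one -/
theorem c9_factor {U V E : Type} [AddCommGroup U] [Module ℚ U] [AddCommGroup V] [Module ℚ V]
    [AddCommGroup E] [Module ℚ E] (W : Submodule ℚ U) (f : U →ₗ[ℚ] V) (h : U →ₗ[ℚ] E)
    (T : Submodule ℚ E) (hT : ∀ x ∈ W, h x ∈ T) (hk : ∀ x ∈ W, f x = 0 → h x = 0) :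
    ∃ k : V →ₗ[ℚ] E, (∀ v, k v ∈ T) ∧ ∀ x ∈ W, k (f x) = h x := by
  let f' : W →ₗ[ℚ] V := f.domRestrict W
  let h' : W →ₗ[ℚ] T := (h.domRestrict W).codRestrict T fun x => hT x.1 x.2
  have hle : LinearMap.ker f' ≤ LinearMap.ker h' := fun x hx =>
    Subtype.ext (hk x.1 x.2 hx)
  obtain ⟨g, hg⟩ := LinearMap.exists_extend
    (((LinearMap.ker f').liftQ h' hle).comp f'.quotKerEquivRange.symm.toLinearMap)
  refine ⟨T.subtype.comp g, fun v => (g v).2, fun x hx => ?_⟩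
  have h1 := LinearMap.congr_fun hg (f'.quotKerEquivRange (Submodule.Quotient.mk ⟨x, hx⟩))
  simp only [LinearMap.comp_apply, LinearEquiv.coe_coe, LinearEquiv.symm_apply_apply,
    Submodule.liftQ_apply] at h1
  exact congrArg Subtype.val h1

theorem c9_ext {X E : Type} [AddCommGroup E] [Module ℚ E] {Vx : Set X}
    {L L' : (X →₀ ℚ) →ₗ[ℚ] E}
    (h : ∀ q ∈ Vx, L (Finsupp.single q 1) = L' (Finsupp.single q 1)) {f : X →₀ ℚ}
    (hf : f ∈ Finsupp.supported ℚ ℚ Vx) : L f = L' f := by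
  rw [Finsupp.supported_eq_span_single] at hf
  refine LinearMap.eqOn_span ?_ hf
  rintro _ ⟨q, hq, rfl⟩
  exact h q hq

theorem c9_mem {X E : Type} [AddCommGroup E] [Module ℚ E] {Vx : Set X}
    {L : (X →₀ ℚ) →ₗ[ℚ] E} {T : Submodule ℚ E}
    (h : ∀ q ∈ Vx, L (Finsupp.single q 1) ∈ T) {f : X →₀ ℚ}
    (hf : f ∈ Finsupp.supported ℚ ℚ Vx) : L f ∈ T := by
  rw [Finsupp.supported_eq_span_single] at hf
  refine (Submodule.span_le (p := T.comap L)).2 ?_ hf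
  rintro _ ⟨q, hq, rfl⟩
  exact h q hq

/-- a cochain whose coboundary is constant is a coboundary up to constants -/
theorem c9_const {G X E : Type} [Group G] [AddCommGroup E] [Module ℚ E] (act : G → X → X)
    (h1 : ∀ x, act 1 x = x) (hm : ∀ a b x, act (a * b) x = act a (act b x)) (Vx : Set X)
    (hV : ∀ a, ∀ x ∈ Vx, act a x ∈ Vx) (hfin : ∀ x ∈ Vx, {a | act a x = x}.Finite)
    (ρ : G → E →ₗ[ℚ] E) (hA : Act ⊤ ρ) (T : Submodule ℚ E) (hT : Stb ⊤ ρ T) (h2 : V2 ⊤ ρ T)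
    (b : G → X → E) (hb : ∀ a x, b a x ∈ T)
    (hc : ∀ g h, ∀ q ∈ Vx, ∀ q' ∈ Vx, ρ g (b h (act g⁻¹ q)) - b (g * h) q + b g q =
      ρ g (b h (act g⁻¹ q')) - b (g * h) q' + b g q') :
    ∃ (β : G → E) (γ : X → E), (∀ x ∈ Vx, γ x ∈ T) ∧
      ∀ a, ∀ x ∈ Vx, b a x = ρ a (γ (act a⁻¹ x)) - γ x + β a := by
  rcases Vx.eq_empty_or_nonempty with h0 | ⟨q0, h0⟩
  · subst h0
    exact ⟨0, 0, fun _ h => h.elim, fun _ _ h => h.elim⟩
  obtain ⟨β, hβ, e⟩ := h2 (fun g h => ρ g (b h (act g⁻¹ q0)) - b (g * h) q0 + b g q0)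
    (fun g _ h _ => add_mem (sub_mem (hT g trivial _ (hb _ _)) (hb _ _)) (hb _ _))
    (fun g _ h _ k _ => by
      rw [hc h k q0 h0 (act g⁻¹ q0) (hV _ _ h0), map_add, map_sub, ← hA.2 g trivial h trivial,
        ← hm, ← mul_inv_rev, mul_assoc]
      abel)
  obtain ⟨γ, hγ, e'⟩ := shapiro1 act h1 hm Vx hV hfin hA hT (fun g q => b g q - β g)
    (fun g q _ => sub_mem (hb _ _) (hβ g trivial)) (fun g h q hq => by
      have e1 := e g trivial h trivial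
      rw [hc g h q0 h0 q hq] at e1
      rw [map_sub]
      linear_combination (norm := abel) -e1)
  exact ⟨β, γ, hγ, fun a x hx => by rw [← e' a x hx, sub_add_cancel]⟩

theorem zigzag {G C X E : Type} [Group G] [AddCommGroup C] [Module ℚ C] [AddCommGroup E]
    [Module ℚ E] (α : G → C →ₗ[ℚ] C) (hα : Act ⊤ α) (W1 W2 W3 : Submodule ℚ C)
    (hW1 : Stb ⊤ α W1) (hW2 : Stb ⊤ α W2) (δ : C →ₗ[ℚ] C) (hδ : ∀ x ∈ W2, δ x ∈ W1)
    (hδα : ∀ a, ∀ x ∈ W2, δ (α a x) = α a (δ x)) (act : G → X → X) (h1 : ∀ x, act 1 x = x)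
    (hm : ∀ a b x, act (a * b) x = act a (act b x)) (Vx : Set X)
    (hV : ∀ a, ∀ x ∈ Vx, act a x ∈ Vx) (hfin : ∀ x ∈ Vx, {a | act a x = x}.Finite)
    (χ : G → ℚ) (hχ : ∀ a, χ a * χ a = 1) (hχm : ∀ a b, χ (a * b) = χ a * χ b)
    (dd : C →ₗ[ℚ] (X →₀ ℚ)) (hds : ∀ x ∈ W1, dd x ∈ Finsupp.supported ℚ ℚ Vx)
    (hdα : ∀ a, ∀ x ∈ W1, dd (α a x) = χ a • Finsupp.mapDomain (act a) (dd x))
    (haug : ∀ x ∈ W1, ((dd x).sum fun _ c => c) = 0)
    (hdδ : ∀ x ∈ W2, dd (δ x) = 0) (ex2 : ∀ x ∈ W2, δ x = 0 → ∃ y ∈ W3, δ y = x)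
    (ex1 : ∀ x ∈ W1, dd x = 0 → ∃ y ∈ W2, δ y = x)
    (ex0 : ∀ q ∈ Vx, ∀ q' ∈ Vx, ∃ x ∈ W1, dd x = Finsupp.single q 1 - Finsupp.single q' 1)
    (ρ : G → E →ₗ[ℚ] E) (hA : Act ⊤ ρ) (T : Submodule ℚ E) (hT : Stb ⊤ ρ T)
    (h2 : V2 ⊤ (fun a => χ a • ρ a) T) (Φ : C →ₗ[ℚ] E) (hΦT : ∀ x ∈ W2, Φ x ∈ T)
    (hΦα : ∀ a, ∀ x ∈ W2, Φ (α a x) = ρ a (Φ x)) (hΦδ : ∀ y ∈ W3, Φ (δ y) = 0) :
    ∃ Ψ : C →ₗ[ℚ] E, (∀ x ∈ W1, Ψ x ∈ T) ∧ (∀ a, ∀ x ∈ W1, Ψ (α a x) = ρ a (Ψ x)) ∧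
      ∀ x ∈ W2, Ψ (δ x) = Φ x := by
  have hχ1 : χ 1 = 1 := by
    have := hχm 1 1
    rw [mul_one, hχ] at this
    exact this
  have hχi : ∀ a, χ a⁻¹ = χ a := fun a => by
    have e := hχm a a⁻¹
    rw [mul_inv_cancel, hχ1] at e
    linear_combination χ a * e.symm - χ a⁻¹ * hχ a
  have hαi : ∀ a x, α a⁻¹ (α a x) = x := fun a x => by
    rw [← hα.2 _ trivial _ trivial, inv_mul_cancel, hα.1]
  have hρi : ∀ a x, ρ a (ρ a⁻¹ x) = x := fun a x => by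
    rw [← hA.2 _ trivial _ trivial, mul_inv_cancel, hA.1]
  obtain ⟨A, hAT, hAδ⟩ := c9_factor W2 δ Φ T hΦT fun x hx h0 => by
    obtain ⟨y, hy, rfl⟩ := ex2 x hx h0
    exact hΦδ y hy
  have hB : ∀ g, ∃ B : (X →₀ ℚ) →ₗ[ℚ] E, (∀ v, B v ∈ T) ∧
      ∀ x ∈ W1, B (dd x) = ρ g (A (α g⁻¹ x)) - A x := fun g =>
    c9_factor W1 dd (ρ g ∘ₗ A ∘ₗ α g⁻¹ - A) T
      (fun x _ => sub_mem (hT g trivial _ (hAT _)) (hAT _)) fun x hx h0 => by
        obtain ⟨y, hy, rfl⟩ := ex1 x hx h0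
        change ρ g (A (α g⁻¹ (δ y))) - A (δ y) = 0
        rw [← hδα _ _ hy, hAδ _ (hW2 _ trivial _ hy), hΦα _ _ hy, hρi, hAδ _ hy, sub_self]
  choose B hBT hB using hB
  have hL : ∀ (g : G) (L : (X →₀ ℚ) →ₗ[ℚ] E), ∀ x ∈ W1,
      χ g • ρ g (L (Finsupp.mapDomain (act g⁻¹) (dd x))) = ρ g (L (dd (α g⁻¹ x))) := by
    intro g L x hx
    rw [hdα _ _ hx, hχi, map_smul, map_smul]
  obtain ⟨β, γ, hγ, e⟩ := c9_const act h1 hm Vx hV hfin (fun a => χ a • ρ a)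
    ⟨fun v => by rw [LinearMap.smul_apply, hχ1, one_smul, hA.1], fun a _ b _ v => by
      simp only [LinearMap.smul_apply, map_smul, smul_smul, hχm, hA.2 a trivial b trivial,
        mul_comm (χ a)]⟩
    T (fun a _ v hv => T.smul_mem _ (hT a trivial v hv)) h2
    (fun g q => B g (Finsupp.single q 1)) (fun g q => hBT _ _) (fun g h q hq q' hq' => by
      obtain ⟨x, hx, e⟩ := ex0 q hq q' hq'
      have e1 := hL g (B h) x hx
      have e2 := hB (g * h) x hx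
      have e3 := hB g x hx
      rw [hB h _ (hW1 _ trivial _ hx), map_sub, ← hA.2 g trivial h trivial,
        ← hα.2 _ trivial _ trivial, ← mul_inv_rev, e, Finsupp.mapDomain_sub,
        Finsupp.mapDomain_single, Finsupp.mapDomain_single, map_sub, map_sub, smul_sub] at e1
      rw [e, map_sub] at e2 e3
      simp only [LinearMap.smul_apply]
      linear_combination (norm := abel) e1 - e2 + e3)
  have key : ∀ g, ∀ x ∈ W1, B g (dd x) = ρ g (Finsupp.linearCombination ℚ γ (dd (α g⁻¹ x))) -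
      Finsupp.linearCombination ℚ γ (dd x) := by
    intro g x hx
    have e1 := c9_ext (L := B g) (L' := χ g • ρ g ∘ₗ Finsupp.linearCombination ℚ γ ∘ₗ
      Finsupp.lmapDomain ℚ ℚ (act g⁻¹) - Finsupp.linearCombination ℚ γ +
        Finsupp.linearCombination ℚ fun _ => β g) (fun q hq => by
          have := e g q hq
          simpa using this) (hds x hx)
    have e2 : Finsupp.linearCombination ℚ (fun _ => β g) (dd x) = 0 := by
      rw [Finsupp.linearCombination_apply, Finsupp.sum, ← Finset.sum_smul]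
      have := haug x hx
      rw [Finsupp.sum] at this
      rw [this, zero_smul]
    rw [e1, ← hL g _ x hx, LinearMap.add_apply, e2, add_zero]
    rfl
  refine ⟨A - Finsupp.linearCombination ℚ γ ∘ₗ dd, fun x hx => sub_mem (hAT _)
    (c9_mem (L := Finsupp.linearCombination ℚ γ) (T := T) (fun q hq => by simpa using hγ q hq)
      (hds x hx)), fun a x hx => ?_, fun x hx => ?_⟩
  · have e1 := key a _ (hW1 a trivial x hx)
    rw [hB a _ (hW1 a trivial x hx), hαi] at e1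
    simp only [LinearMap.sub_apply, LinearMap.comp_apply, map_sub]
    linear_combination (norm := abel) -e1
  · simp only [LinearMap.sub_apply, LinearMap.comp_apply]
    rw [hdδ x hx, map_zero, sub_zero, hAδ x hx]

end Pool.Agent.MP_cbe134_nt.V
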