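import Pool.Agent.MP_cbe134_nt.BKDefs
import Pool.Agent.MP_cbe134_nt.A2

/- Definitions for the depth four upper bound: polynomials, double shuffle spaces,
regularisation, graded counting. -/

open MvPolynomial Filter Asymptotics Topology

namespace Pool.Agent.MP_cbe134_nt.V

abbrev Pn (n : ℕ) := MvPolynomial (Fin n) ℚ

abbrev Mx (n : ℕ) := Matrix (Fin n) (Fin n) ℤ

/-- the linear substitution `f(x) ↦ f(A x)` -/
noncomputable def sub {n : ℕ} (A : Mx n) : Pn n →ₐ[ℚ] Pn n :=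
  aeval fun i => ∑ j, C (A i j : ℚ) * X j

/-- homogeneous polynomials of degree `d` -/
noncomputable abbrev Hd (n d : ℕ) : Submodule ℚ (Pn n) := homogeneousSubmodule (Fin n) ℚ d

/-- an integer matrix applied to a rational vector -/
def mv {n : ℕ} (A : Mx n) (x : Fin n → ℚ) : Fin n → ℚ := fun i => ∑ j, (A i j : ℚ) * x j

/-- forms of degree `d` on which every matrix of the list acts through `χ` -/
noncomputable def Iso {n : ℕ} (G : List (Mx n)) (χ : Mx n → ℚ) (d : ℕ) : Submodule ℚ (Pn n) where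
  carrier := {f | f ∈ Hd n d ∧ ∀ A ∈ G, sub A f = χ A • f}
  add_mem' := fun {a b} ha hb => ⟨add_mem ha.1 hb.1, fun A hA => by
    rw [map_add, ha.2 A hA, hb.2 A hA, smul_add]⟩
  zero_mem' := ⟨zero_mem _, fun A _ => by simp⟩
  smul_mem' := fun c a ha => ⟨Submodule.smul_mem _ c ha.1, fun A hA => by
    rw [map_smul, ha.2 A hA, smul_comm]⟩

/-- the series `1 / det (1 - X A)` -/
noncomputable def mol {n : ℕ} (A : Mx n) : PowerSeries ℚ :=
  (((A.map (Int.cast : ℤ → ℚ)).charpolyRev : Polynomial ℚ) : PowerSeries ℚ)⁻¹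

/-- the series `1 / (1 - X ^ m)` -/
noncomputable def gs (m : ℕ) : PowerSeries ℚ := (1 - PowerSeries.X ^ m)⁻¹

noncomputable def ser2 : PowerSeries ℚ := PowerSeries.X ^ 6 * gs 2 * gs 6

noncomputable def ser3 : PowerSeries ℚ :=
  PowerSeries.X ^ 8 * (1 + PowerSeries.X ^ 2 - PowerSeries.X ^ 4) * gs 2 * gs 4 * gs 6

noncomputable def ser4 : PowerSeries ℚ :=
  PowerSeries.X ^ 8 * (1 + 2 * PowerSeries.X ^ 4 + PowerSeries.X ^ 6 + PowerSeries.X ^ 8
    + 2 * PowerSeries.X ^ 10 + PowerSeries.X ^ 14 - PowerSeries.X ^ 16)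
    * gs 2 * gs 6 * gs 8 * gs 12

/-- shuffles of two lists -/
def shuf {β : Type} : List β → List β → List (List β)
  | [], v => [v]
  | a :: u, [] => [a :: u]
  | a :: u, b :: v => (shuf u (b :: v)).map (a :: ·) ++ (shuf (a :: u) v).map (b :: ·)

/-- quasi-shuffles of two indices -/
def stuf : List ℕ → List ℕ → List (List ℕ)
  | [], v => [v]
  | a :: u, [] => [a :: u]
  | a :: u, b :: v => (stuf u (b :: v)).map (a :: ·) ++ (stuf (a :: u) v).map (b :: ·)
      ++ (stuf u v).map ((a + b) :: ·)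

/-- `s₁, …, s_r ↦ s₁ + ⋯ + s_r, s₂ + ⋯ + s_r, …, s_r` -/
def psum : List ℚ → List ℚ
  | [] => []
  | a :: l => (a + l.sum) :: psum l

/-- value of a polynomial at a list of rationals -/
noncomputable def ev {r : ℕ} (f : Pn r) (w : List ℚ) : ℚ :=
  eval (fun i : Fin r => w.getD i 0) f

/-- the linearised double shuffle space in depth `r` and degree `d` -/
noncomputable def DS (r d : ℕ) : Submodule ℚ (Pn r) where
  carrier := {f | f ∈ Hd r d ∧ ∀ u v : List ℚ, u ≠ [] → v ≠ [] → u.length + v.length = r →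
    ((shuf u v).map fun w => ev f w).sum = 0 ∧ ((shuf u v).map fun w => ev f (psum w)).sum = 0}
  add_mem' := fun {a b} ha hb => ⟨add_mem ha.1 hb.1, fun u v hu hv h => by
    have h1 := ha.2 u v hu hv h
    have h2 := hb.2 u v hu hv h
    simp only [ev, map_add, List.sum_map_add] at h1 h2 ⊢
    rw [h1.1, h1.2, h2.1, h2.2]
    simp⟩
  zero_mem' := ⟨zero_mem _, fun u v _ _ _ => by simp [ev]⟩
  smul_mem' := fun c a ha => ⟨Submodule.smul_mem _ c ha.1, fun u v hu hv h => by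
    have h1 := ha.2 u v hu hv h
    simp only [ev, smul_eval, List.sum_map_mul_left] at h1 ⊢
    rw [h1.1, h1.2]
    simp⟩

/-- lower depth together with products of two factors of positive depth -/
noncomputable def Dec (r k : ℕ) : Submodule ℚ ℝ :=
  FilPrev r k ⊔ ⨆ (p : ℕ) (q : ℕ) (i : ℕ) (j : ℕ) (_ : 1 ≤ p ∧ 1 ≤ q ∧ p + q = r ∧ i + j = k),
    Fil p i * Fil q j

def Pos (w : List ℕ) : Prop := ∀ a ∈ w, 1 ≤ a

def ones (j : ℕ) : List ℕ := List.replicate j 1

/-- truncated sums as real numbers -/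
def ZR (w : List ℕ) (N : ℕ) : ℝ := (Zt w N : ℝ)

def Small (s : ℕ → ℝ) : Prop := ∃ δ : ℝ, 0 < δ ∧ s =O[atTop] fun N : ℕ => (N : ℝ) ^ (-δ)

def Slow (s : ℕ → ℝ) : Prop := ∀ ε : ℝ, 0 < ε → s =O[atTop] fun N : ℕ => (N : ℝ) ^ ε

/-- asymptotic expansion in the truncated sums of `1, …, 1` -/
def Expn (a : ℕ → ℝ) (c : ℕ →₀ ℝ) : Prop :=
  Small fun N => a N - c.sum fun j x => x * ZR (ones j) N

/-- the multiple polylogarithm as a formal power series -/
noncomputable def LiS (w : List ℕ) : PowerSeries ℚ :=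
  (1 - PowerSeries.X) * PowerSeries.mk fun n => Zt w (n + 1)

noncomputable def abel (a : ℕ → ℝ) : PowerSeries ℝ :=
  (1 - PowerSeries.X) * PowerSeries.mk fun n => a (n + 1)

noncomputable def evS (z : ℝ) (F : PowerSeries ℝ) : ℝ := ∑' n, PowerSeries.coeff n F * z ^ n

/-- `F(z) = P(-log(1 - z)) + O((1 - z) ^ δ)` as `z` increases to `1` -/
def Asy (F : PowerSeries ℝ) (P : Polynomial ℝ) : Prop :=
  (∀ z : ℝ, 0 ≤ z → z < 1 → Summable fun n => |PowerSeries.coeff n F| * z ^ n) ∧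
    ∃ δ : ℝ, 0 < δ ∧ (fun z => evS z F - P.eval (-Real.log (1 - z))) =O[𝓝[<] 1]
      fun z : ℝ => (1 - z) ^ δ

/-- `∑ t₁ ^ a₁ ⋯ t_r ^ a_r • F (a₁ + 1, …, a_r + 1)` over `a₁ + ⋯ + a_r = d` -/
def gen {E : Type} [AddCommGroup E] [Module ℚ E] : List ℚ → (List ℕ → E) → ℕ → E
  | [], F, d => if d = 0 then F [] else 0
  | t :: ts, F, d => ∑ p ∈ Finset.HasAntidiagonal.antidiagonal d,
      t ^ p.1 • gen ts (fun w => F ((p.1 + 1) :: w)) p.2

/-- graded families of subspaces of the reals -/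
abbrev Gr := PowerSeries (Submodule ℚ ℝ)

/-- the dimensions of the graded family are bounded by the coefficients of `s` -/
def Bd (x : Gr) (s : PowerSeries ℚ) : Prop :=
  ∀ k, FiniteDimensional ℚ (PowerSeries.coeff k x : Submodule ℚ ℝ) ∧
    (Module.finrank ℚ (PowerSeries.coeff k x : Submodule ℚ ℝ) : ℚ) ≤ PowerSeries.coeff k s

/-- the series `s(X²)` -/
noncomputable def sq2 (s : PowerSeries ℚ) : PowerSeries ℚ :=
  PowerSeries.mk fun k => if Even k then PowerSeries.coeff (k / 2) s else 0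

/-- odd single zeta values -/
noncomputable def Od : Gr :=
  PowerSeries.mk fun k => if Odd k ∧ 3 ≤ k then Submodule.span ℚ {mzv [k]} else ⊥

/-- even single zeta values -/
noncomputable def Ev : Gr :=
  PowerSeries.mk fun k => if Even k ∧ 2 ≤ k then Submodule.span ℚ {mzv [k]} else ⊥

/-- `G` generates depth `r` modulo lower depth and products -/
def Gens (r : ℕ) (G : Gr) : Prop :=
  ∀ k, PowerSeries.coeff k G ≤ Fil r k ∧ Fil r k ≤ Dec r k ⊔ PowerSeries.coeff k G

/-- monomials of depth `r` without even zeta values -/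
noncomputable def Tm (G2 G3 G4 : Gr) : ℕ → Gr
  | 0 => 1
  | 1 => Od
  | 2 => G2 + Od ^ 2
  | 3 => G3 + G2 * Od + Od ^ 3
  | _ => G4 + G3 * Od + G2 ^ 2 + G2 * Od ^ 2 + Od ^ 4

/-- monomials of depth `r` with at most one even zeta value -/
noncomputable def Sm (G2 G3 G4 : Gr) : ℕ → Gr
  | 0 => 1
  | r + 1 => Tm G2 G3 G4 (r + 1) + Ev * Tm G2 G3 G4 r

noncomputable def oS : PowerSeries ℚ := PowerSeries.X ^ 3 * gs 2

noncomputable def eS : PowerSeries ℚ := PowerSeries.X ^ 2 * gs 2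

noncomputable def cS : PowerSeries ℚ := PowerSeries.X ^ 12 * gs 4 * gs 6

/-- coefficient of `Y ^ r` in `1 / (1 - O Y + S Y² - S Y⁴)`, for `r ≤ 4` -/
noncomputable def uS : ℕ → PowerSeries ℚ
  | 0 => 1
  | 1 => oS
  | 2 => oS ^ 2 - cS
  | 3 => oS ^ 3 - 2 * oS * cS
  | _ => oS ^ 4 - 3 * oS ^ 2 * cS + cS ^ 2 + cS

/-- coefficient of `Y ^ r` in the Broadhurst-Kreimer series, for `r ≤ 4` -/
noncomputable def bS : ℕ → PowerSeries ℚ
  | 0 => 1
  | r + 1 => uS (r + 1) + eS * uS r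

/-- partitions into `j` odd parts at least three -/
noncomputable def pS (j : ℕ) : PowerSeries ℚ :=
  PowerSeries.X ^ (3 * j) * ∏ i ∈ Finset.range j, gs (2 * (i + 1))

end Pool.Agent.MP_cbe134_nt.V
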