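import Pool.Agent.MP_cbe134_nt.VD1

/- Definitions for low-degree group cohomology of subgroups of `GL_n(ℤ)`. -/

open MvPolynomial Matrix

namespace Pool.Agent.MP_cbe134_nt.V

section generic

variable {G : Type} [Group G] {E : Type} [AddCommGroup E] [Module ℚ E]

/-- `ρ` is an action of the subgroup `S` -/
def Act (S : Subgroup G) (ρ : G → E →ₗ[ℚ] E) : Prop :=
  (∀ v, ρ 1 v = v) ∧ ∀ a ∈ S, ∀ b ∈ S, ∀ v, ρ (a * b) v = ρ a (ρ b v)

/-- the subspace `T` is stable under `S` -/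
def Stb (S : Subgroup G) (ρ : G → E →ₗ[ℚ] E) (T : Submodule ℚ E) : Prop :=
  ∀ a ∈ S, ∀ v ∈ T, ρ a v ∈ T

/-- `H⁰(S, T) = 0` -/
def V0 (S : Subgroup G) (ρ : G → E →ₗ[ℚ] E) (T : Submodule ℚ E) : Prop :=
  ∀ v ∈ T, (∀ a ∈ S, ρ a v = v) → v = 0

/-- `H¹(S, T) = 0` -/
def V1 (S : Subgroup G) (ρ : G → E →ₗ[ℚ] E) (T : Submodule ℚ E) : Prop :=
  ∀ c : G → E, (∀ a ∈ S, c a ∈ T) → (∀ a ∈ S, ∀ b ∈ S, c (a * b) = c a + ρ a (c b)) →
    ∃ v ∈ T, ∀ a ∈ S, c a = ρ a v - v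

/-- `H²(S, T) = 0` -/
def V2 (S : Subgroup G) (ρ : G → E →ₗ[ℚ] E) (T : Submodule ℚ E) : Prop :=
  ∀ c : G → G → E, (∀ a ∈ S, ∀ b ∈ S, c a b ∈ T) →
    (∀ a ∈ S, ∀ b ∈ S, ∀ e ∈ S, ρ a (c b e) + c a (b * e) = c (a * b) e + c a b) →
    ∃ β : G → E, (∀ a ∈ S, β a ∈ T) ∧ ∀ a ∈ S, ∀ b ∈ S, c a b = ρ a (β b) - β (a * b) + β a

/-- `H⁰(S, E / F) = 0` -/
def V0m (S : Subgroup G) (ρ : G → E →ₗ[ℚ] E) (F : Submodule ℚ E) : Prop :=
  ∀ v, (∀ a ∈ S, ρ a v - v ∈ F) → v ∈ F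

/-- `H¹(S, E / F) = 0` -/
def V1m (S : Subgroup G) (ρ : G → E →ₗ[ℚ] E) (F : Submodule ℚ E) : Prop :=
  ∀ β : G → E, (∀ a ∈ S, ∀ b ∈ S, ρ a (β b) - β (a * b) + β a ∈ F) →
    ∃ v, ∀ a ∈ S, β a - (ρ a v - v) ∈ F

/-- vectors of `T` fixed by `N` -/
def Fx (N : Subgroup G) (ρ : G → E →ₗ[ℚ] E) (T : Submodule ℚ E) : Submodule ℚ E where
  carrier := {v | v ∈ T ∧ ∀ a ∈ N, ρ a v = v}
  add_mem' := fun {a b} ha hb => ⟨add_mem ha.1 hb.1, fun g hg => by
    rw [map_add, ha.2 g hg, hb.2 g hg]⟩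
  zero_mem' := ⟨zero_mem _, fun g _ => map_zero _⟩
  smul_mem' := fun c a ha => ⟨Submodule.smul_mem _ c ha.1, fun g hg => by
    rw [map_smul, ha.2 g hg]⟩

/-- the conjugate `g P g⁻¹` -/
def cnj (P : Subgroup G) (g : G) : Subgroup G where
  carrier := {a | g⁻¹ * a * g ∈ P}
  mul_mem' := fun {a b} ha hb => by
    have := P.mul_mem ha hb
    simpa [mul_assoc] using this
  one_mem' := by simp
  inv_mem' := fun {a} ha => by
    have := P.inv_mem ha
    simpa [mul_assoc] using this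

end generic

abbrev GLz (n : ℕ) := GL (Fin n) ℤ

/-- the determinant as a rational number -/
def dt {n : ℕ} (g : GLz n) : ℚ := ((g : Mx n).det : ℚ)

/-- the action `f(y) ↦ det g • f(gᵀ y)` -/
noncomputable def rho {n : ℕ} (g : GLz n) : Pn n →ₗ[ℚ] Pn n :=
  dt g • (sub (g : Mx n)ᵀ).toLinearMap

/-- the action `f(x) ↦ det g • f(g⁻¹ x)` -/
noncomputable def rhoD {n : ℕ} (g : GLz n) : Pn n →ₗ[ℚ] Pn n :=
  dt g • (sub ((g⁻¹ : GLz n) : Mx n)).toLinearMap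

/-- the action `f(x) ↦ f(g⁻¹ x)` -/
noncomputable def rhoI {n : ℕ} (g : GLz n) : Pn n →ₗ[ℚ] Pn n :=
  (sub ((g⁻¹ : GLz n) : Mx n)).toLinearMap

/-- the affine action obtained from `rho` by setting `y₀ = 1` -/
noncomputable def aff {n : ℕ} (g : GLz (n + 1)) : Pn n →ₗ[ℚ] Pn n :=
  dt g • (aeval fun j : Fin n => C ((g : Mx (n + 1)) 0 j.succ : ℚ) +
    ∑ i : Fin n, C ((g : Mx (n + 1)) i.succ j.succ : ℚ) * X i : Pn n →ₐ[ℚ] Pn n).toLinearMap

/-- polynomials of degree at most `d` -/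
noncomputable abbrev Ld (n d : ℕ) : Submodule ℚ (Pn n) := restrictTotalDegree (Fin n) ℚ d

/-- polynomials in the variables of `K` -/
noncomputable abbrev Sp {n : ℕ} (K : Set (Fin n)) : Submodule ℚ (Pn n) :=
  Subalgebra.toSubmodule (supported ℚ K)

/-- matrices fixing every vector of `s` -/
def Fixv {n : ℕ} (s : Set (Fin n → ℤ)) : Subgroup (GLz n) where
  carrier := {g | ∀ v ∈ s, (g : Mx n) *ᵥ v = v}
  mul_mem' := fun {a b} ha hb v hv => by
    rw [Units.val_mul, ← Matrix.mulVec_mulVec, hb v hv, ha v hv]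
  one_mem' := fun v _ => by simp
  inv_mem' := fun {a} ha v hv => by
    conv_lhs => rw [← ha v hv]
    rw [Matrix.mulVec_mulVec, Units.inv_mul, Matrix.one_mulVec]

/-- the standard basis vector -/
def bv {n : ℕ} (i : Fin n) : Fin n → ℤ := Pi.single i 1

/-- the stabiliser of the first basis vector -/
def Par (n : ℕ) : Subgroup (GLz (n + 1)) := Fixv {bv 0}

/-- the matrix of the translation by `a` -/
def trM {n : ℕ} (a : Fin n → ℤ) : Mx (n + 1) :=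
  1 + Matrix.of fun i j => if i = 0 then Fin.cons (α := fun _ => ℤ) 0 a j else 0

theorem trM_mul {n : ℕ} (a b : Fin n → ℤ) : trM a * trM b = trM (a + b) := by
  have h : (Matrix.of fun i j => if i = 0 then Fin.cons (α := fun _ => ℤ) 0 a j else 0 :
      Mx (n + 1)) * (Matrix.of fun i j => if i = 0 then Fin.cons (α := fun _ => ℤ) 0 b j
        else 0 : Mx (n + 1)) = 0 := by
    ext i j
    simp [Matrix.mul_apply]
  unfold trM
  rw [add_mul, mul_add, mul_add, h, one_mul, one_mul, mul_one, add_zero, add_assoc]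
  congr 1
  ext i j
  by_cases hi : i = 0
  · refine Fin.cases ?_ (fun k => ?_) j <;> simp [hi, add_comm]
  · simp [hi]

theorem trM_zero {n : ℕ} : trM (0 : Fin n → ℤ) = 1 := by
  unfold trM
  ext i j
  refine Fin.cases ?_ (fun k => ?_) j <;> simp

/-- the translation by `a` -/
def trl {n : ℕ} (a : Fin n → ℤ) : GLz (n + 1) :=
  ⟨trM a, trM (-a), by rw [trM_mul, add_neg_cancel, trM_zero],
    by rw [trM_mul, neg_add_cancel, trM_zero]⟩

theorem trl_add {n : ℕ} (a b : Fin n → ℤ) : trl (a + b) = trl a * trl b :=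
  Units.ext (trM_mul a b).symm

theorem trl_zero {n : ℕ} : trl (0 : Fin n → ℤ) = 1 := Units.ext trM_zero

theorem trl_neg {n : ℕ} (a : Fin n → ℤ) : trl (-a) = (trl a)⁻¹ := Units.ext rfl

/-- translations supported on `J` -/
def Trn {n : ℕ} (J : Set (Fin n)) : Subgroup (GLz (n + 1)) where
  carrier := {g | ∃ a : Fin n → ℤ, (∀ j, j ∉ J → a j = 0) ∧ g = trl a}
  mul_mem' := by
    rintro _ _ ⟨a, ha, rfl⟩ ⟨b, hb, rfl⟩
    exact ⟨a + b, fun j hj => by simp [ha j hj, hb j hj], (trl_add a b).symm⟩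
  one_mem' := ⟨0, fun _ _ => rfl, trl_zero.symm⟩
  inv_mem' := by
    rintro _ ⟨a, ha, rfl⟩
    exact ⟨-a, fun j hj => by simp [ha j hj], (trl_neg a).symm⟩

/-- the block matrix `diag(1, D)` -/
def embM {n : ℕ} (D : Mx n) : Mx (n + 1) :=
  Matrix.of fun i j => Fin.cases (motive := fun _ => ℤ)
    (Fin.cons (α := fun _ => ℤ) 1 0 j) (fun i' => Fin.cons (α := fun _ => ℤ) 0 (D i') j) i

theorem embM_mul {n : ℕ} (A B : Mx n) : embM (A * B) = embM A * embM B := by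
  ext i j
  refine Fin.cases ?_ (fun i' => ?_) i <;> refine Fin.cases ?_ (fun j' => ?_) j <;>
    simp [embM, Matrix.mul_apply, Fin.sum_univ_succ]

theorem embM_one {n : ℕ} : embM (1 : Mx n) = 1 := by
  ext i j
  refine Fin.cases ?_ (fun i' => ?_) i <;> refine Fin.cases ?_ (fun j' => ?_) j <;>
    simp [embM, Matrix.one_apply, Fin.succ_ne_zero, (Fin.succ_ne_zero _).symm]

/-- the embedding `D ↦ diag(1, D)` -/
def emb (n : ℕ) : GLz n →* GLz (n + 1) :=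
  Units.map { toFun := embM, map_one' := embM_one, map_mul' := embM_mul }

/-- the lower right block -/
def lowM {n : ℕ} (g : Mx (n + 1)) : Mx n := g.submatrix Fin.succ Fin.succ

end Pool.Agent.MP_cbe134_nt.V
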