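import Pool.Agent.MP_cbe134_nt.VD2

/- Definitions: oriented chains of finite sets, Voronoi cells in rank four, and a small
computational layer for integer matrices. -/

open Matrix

namespace Pool.Agent.MP_cbe134_nt.V

section chains

variable {α : Type} [DecidableEq α]

/-- chains of finite subsets -/
abbrev Ch (α : Type) := Finset α →₀ ℚ

open Classical in
/-- the sign of inserting `a` into `S` -/
noncomputable def sg (a : α) (S : Finset α) : ℚ :=
  (-1) ^ (S.filter fun b => WellOrderingRel b a).card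

/-- exterior multiplication by `a` -/
noncomputable def wg (a : α) : Ch α →ₗ[ℚ] Ch α :=
  Finsupp.linearCombination ℚ fun S => if a ∈ S then 0 else Finsupp.single (insert a S) (sg a S)

/-- contraction with `a` -/
noncomputable def io (a : α) : Ch α →ₗ[ℚ] Ch α :=
  Finsupp.linearCombination ℚ fun S => if a ∈ S then Finsupp.single (S.erase a) (sg a S) else 0

/-- the oriented simplex of a list -/
noncomputable def br : List α → Ch α
  | [] => Finsupp.single ∅ 1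
  | a :: l => wg a (br l)

/-- alternating functions of lists -/
def Alt {E : Type} [AddCommGroup E] (F : List α → E) : Prop :=
  ∀ l₁ a b l₂, F (l₁ ++ a :: b :: l₂) = -F (l₁ ++ b :: a :: l₂)

/-- the linear map attached to an alternating function -/
noncomputable def lft {E : Type} [AddCommGroup E] [Module ℚ E] (F : List α → E) :
    Ch α →ₗ[ℚ] E :=
  Finsupp.linearCombination ℚ fun S => br S.toList S • F S.toList

/-- the map on chains induced by `f` -/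
noncomputable def act (f : α → α) : Ch α →ₗ[ℚ] Ch α := lft fun l => br (l.map f)

/-- the standard inner product -/
noncomputable def ip : Ch α →ₗ[ℚ] Ch α →ₗ[ℚ] ℚ :=
  Finsupp.linearCombination ℚ fun S => Finsupp.lapply S

/-- the simplicial boundary -/
noncomputable def bd : Ch α →ₗ[ℚ] Ch α :=
  Finsupp.linearCombination ℚ fun S => ∑ a ∈ S, io a (Finsupp.single S 1)

/-- the elements that extend `S` to a set of the family `c` -/
def Ext (c : Finset α → Prop) (S : Finset α) : Set α := {w | w ∉ S ∧ c (insert w S)}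

/-- the coboundary in the family `c` -/
noncomputable def del (c : Finset α → Prop) : Ch α →ₗ[ℚ] Ch α :=
  Finsupp.linearCombination ℚ fun S => ∑ᶠ w ∈ Ext c S, wg w (Finsupp.single S 1)

/-- chains supported on sets with property `p` -/
noncomputable abbrev Sup (p : Finset α → Prop) : Submodule ℚ (Ch α) :=
  Finsupp.supported ℚ ℚ {S | p S}

/-- subsets of `M` that miss an element of each of the `k` frames -/
def Miss (M : Finset α) (k : ℕ) (lab : α → ℕ) (S : Finset α) : Prop :=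
  S ⊆ M ∧ ∀ i < k, ∃ A ∈ M, lab A = i ∧ A ∉ S

end chains

section compute

/-- search trees used to collect equal terms -/
inductive Tr (K : Type) where
  | nil : Tr K
  | node : Tr K → ℤ → K → ℤ → Tr K → Tr K

def Tr.ins {K : Type} [DecidableEq K] (n : ℤ) (k : K) (c : ℤ) : Tr K → Tr K
  | .nil => .node .nil n k c .nil
  | .node l n' k' c' r =>
    if n < n' then .node (Tr.ins n k c l) n' k' c' r
    else if n' < n then .node l n' k' c' (Tr.ins n k c r)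
    else if k = k' then .node l n' k' (c' + c) r else .node l n' k' c' (Tr.ins n k c r)

def Tr.zero {K : Type} : Tr K → Bool
  | .nil => true
  | .node l _ _ c r => c == 0 && l.zero && r.zero

/-- all coefficients cancel -/
def chk {K : Type} [DecidableEq K] (code : K → ℤ) (l : List (ℤ × K)) : Bool :=
  (l.foldl (fun t p => t.ins (code p.2) p.2 p.1) Tr.nil).zero

structure V4 where
  a : ℤ
  b : ℤ
  c : ℤ
  d : ℤ
deriving DecidableEq

/-- a matrix given by its rows -/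
structure M4 where
  r0 : V4
  r1 : V4
  r2 : V4
  r3 : V4
deriving DecidableEq

def V4.toV (v : V4) : Fin 4 → ℤ := ![v.a, v.b, v.c, v.d]

def M4.toM (A : M4) : Mx 4 :=
  !![A.r0.a, A.r0.b, A.r0.c, A.r0.d; A.r1.a, A.r1.b, A.r1.c, A.r1.d;
    A.r2.a, A.r2.b, A.r2.c, A.r2.d; A.r3.a, A.r3.b, A.r3.c, A.r3.d]

def V4.dot (v w : V4) : ℤ :=
  Int.add (Int.add (Int.mul v.a w.a) (Int.mul v.b w.b)) (Int.add (Int.mul v.c w.c) (Int.mul v.d w.d))

def V4.neg (v : V4) : V4 := ⟨Int.neg v.a, Int.neg v.b, Int.neg v.c, Int.neg v.d⟩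

/-- is the first nonzero entry negative -/
def V4.isNeg (v : V4) : Bool :=
  if v.a = 0 then if v.b = 0 then if v.c = 0 then decide (v.d < 0) else decide (v.c < 0)
    else decide (v.b < 0) else decide (v.a < 0)

def V4.nrm (v : V4) : V4 := if v.isNeg then v.neg else v

def V4.code (v : V4) : ℤ :=
  Int.add (Int.mul (Int.add (Int.mul (Int.add (Int.mul v.a 7) v.b) 7) v.c) 7) v.d

def M4.one : M4 := ⟨⟨1, 0, 0, 0⟩, ⟨0, 1, 0, 0⟩, ⟨0, 0, 1, 0⟩, ⟨0, 0, 0, 1⟩⟩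

def M4.tr : M4 → M4
  | ⟨⟨a0, b0, c0, d0⟩, ⟨a1, b1, c1, d1⟩, ⟨a2, b2, c2, d2⟩, ⟨a3, b3, c3, d3⟩⟩ =>
    ⟨⟨a0, a1, a2, a3⟩, ⟨b0, b1, b2, b3⟩, ⟨c0, c1, c2, c3⟩, ⟨d0, d1, d2, d3⟩⟩

def M4.app (A : M4) (v : V4) : V4 := ⟨A.r0.dot v, A.r1.dot v, A.r2.dot v, A.r3.dot v⟩

/-- a row vector times a matrix -/
def V4.row : V4 → M4 → V4
  | ⟨a, b, c, d⟩, ⟨⟨a0, b0, c0, d0⟩, ⟨a1, b1, c1, d1⟩, ⟨a2, b2, c2, d2⟩, ⟨a3, b3, c3, d3⟩⟩ =>
    ⟨Int.add (Int.add (Int.mul a a0) (Int.mul b a1)) (Int.add (Int.mul c a2) (Int.mul d a3)),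
     Int.add (Int.add (Int.mul a b0) (Int.mul b b1)) (Int.add (Int.mul c b2) (Int.mul d b3)),
     Int.add (Int.add (Int.mul a c0) (Int.mul b c1)) (Int.add (Int.mul c c2) (Int.mul d c3)),
     Int.add (Int.add (Int.mul a d0) (Int.mul b d1)) (Int.add (Int.mul c d2) (Int.mul d d3))⟩

def M4.mul (A B : M4) : M4 := ⟨A.r0.row B, A.r1.row B, A.r2.row B, A.r3.row B⟩

def M4.neg (A : M4) : M4 := ⟨A.r0.neg, A.r1.neg, A.r2.neg, A.r3.neg⟩

def M4.nrm (A : M4) : M4 := if A.r0.isNeg then A.neg else A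

def M4.code (A : M4) : ℤ :=
  Int.add (Int.mul (Int.add (Int.mul (Int.add (Int.mul A.r3.code 2401) A.r1.code) 2401)
    A.r0.code) 2401) A.r2.code

/-- a two by two minor -/
def mn2 (a b c d : ℤ) : ℤ := Int.sub (Int.mul a d) (Int.mul b c)

/-- a three by three determinant -/
def mn3 (a b c d e f g h i : ℤ) : ℤ :=
  Int.add (Int.sub (Int.mul a (mn2 e f h i)) (Int.mul b (mn2 d f g i))) (Int.mul c (mn2 d e g h))

def M4.det : M4 → ℤ
  | ⟨⟨a0, b0, c0, d0⟩, ⟨a1, b1, c1, d1⟩, ⟨a2, b2, c2, d2⟩, ⟨a3, b3, c3, d3⟩⟩ =>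
    Int.add (Int.add
      (Int.sub (Int.mul (mn2 a0 b0 a1 b1) (mn2 c2 d2 c3 d3))
        (Int.mul (mn2 a0 c0 a1 c1) (mn2 b2 d2 b3 d3)))
      (Int.add (Int.mul (mn2 a0 d0 a1 d1) (mn2 b2 c2 b3 c3))
        (Int.mul (mn2 b0 c0 b1 c1) (mn2 a2 d2 a3 d3))))
      (Int.sub (Int.mul (mn2 c0 d0 c1 d1) (mn2 a2 b2 a3 b3))
        (Int.mul (mn2 b0 d0 b1 d1) (mn2 a2 c2 a3 c3)))

/-- `Aᵀ q A` -/
def M4.pb (A q : M4) : M4 := (A.tr.mul q).mul A

/-- `vᵀ q w` -/
def M4.bil (q : M4) (v w : V4) : ℤ := v.dot (q.app w)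

/-- the coefficients of `det (1 - X A) = 1 - c₁ X + c₂ X² - c₃ X³ + c₄ X⁴` -/
def M4.cp : M4 → V4
  | ⟨⟨a0, b0, c0, d0⟩, ⟨a1, b1, c1, d1⟩, ⟨a2, b2, c2, d2⟩, ⟨a3, b3, c3, d3⟩⟩ =>
    ⟨Int.add (Int.add a0 b1) (Int.add c2 d3),
      Int.add (Int.add (Int.add (mn2 a0 b0 a1 b1) (mn2 a0 c0 a2 c2))
        (Int.add (mn2 a0 d0 a3 d3) (mn2 b1 c1 b2 c2)))
        (Int.add (mn2 b1 d1 b3 d3) (mn2 c2 d2 c3 d3)),
      Int.add (Int.add (mn3 a0 b0 c0 a1 b1 c1 a2 b2 c2) (mn3 a0 b0 d0 a1 b1 d1 a3 b3 d3))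
        (Int.add (mn3 a0 c0 d0 a2 c2 d2 a3 c3 d3) (mn3 b1 c1 d1 b2 c2 d2 b3 c3 d3)),
      M4.det ⟨⟨a0, b0, c0, d0⟩, ⟨a1, b1, c1, d1⟩, ⟨a2, b2, c2, d2⟩, ⟨a3, b3, c3, d3⟩⟩⟩

/-- the series `1 / (1 - c₁ X + c₂ X² - c₃ X³ + c₄ X⁴)` -/
noncomputable def V4.ser (c : V4) : PowerSeries ℚ :=
  (1 - (c.a : ℚ) • PowerSeries.X + (c.b : ℚ) • PowerSeries.X ^ 2
    - (c.c : ℚ) • PowerSeries.X ^ 3 + (c.d : ℚ) • PowerSeries.X ^ 4)⁻¹

/-- a list of vectors together with their negatives -/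
def pm (l : List V4) : List V4 := l ++ l.map V4.neg

/-- the matrices with columns in `l` that preserve the symmetric form `q` -/
def stabL (q : M4) (l : List V4) : List M4 :=
  l.flatMap fun c0 =>
    (l.filter fun c1 => c1.dot (q.app c0) == q.r1.a).flatMap fun c1 =>
      ((l.filter fun c2 => c2.dot (q.app c0) == q.r2.a).filter
        fun c2 => c2.dot (q.app c1) == q.r2.b).flatMap fun c2 =>
        (((l.filter fun c3 => c3.dot (q.app c0) == q.r3.a).filter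
          fun c3 => c3.dot (q.app c1) == q.r3.b).filter
          fun c3 => c3.dot (q.app c2) == q.r3.c).map fun c3 => M4.tr ⟨c0, c1, c2, c3⟩

/-- formal combinations of matrices -/
abbrev GR := List (ℤ × M4)

def gmul (a b : GR) : GR := a.flatMap fun p => b.map fun s => (p.1 * s.1, p.2.mul s.2)

def gsm (c : ℤ) (a : GR) : GR := a.map fun p => (c * p.1, p.2)

def gtr (a : GR) : GR := a.map fun p => (p.1, p.2.tr)

/-- the combination vanishes modulo the sign of matrices -/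
def chkG (a : GR) : Bool := chk M4.code (a.map fun p => (p.1, p.2.nrm))

/-- `g ↦ ∑ c • g(A x)` -/
noncomputable def opR (a : GR) : Pn 4 →ₗ[ℚ] Pn 4 :=
  (a.map fun p => (p.1 : ℚ) • (sub p.2.toM).toLinearMap).sum

/-- formal combinations of lists of vectors -/
abbrev CL := List (ℤ × List V4)

/-- insertion into a sorted list, with sign -/
def insS (a : V4) : List V4 → ℤ × List V4
  | [] => (1, [a])
  | b :: l => if a.code < b.code then (1, a :: b :: l) else if a = b then (0, [])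
      else (-(insS a l).1, b :: (insS a l).2)

/-- normal form of a list of vectors, with sign -/
def srt : List V4 → ℤ × List V4
  | [] => (1, [])
  | a :: l => ((insS a.nrm (srt l).2).1 * (srt l).1, (insS a.nrm (srt l).2).2)

def codeL (l : List V4) : ℤ := l.foldl (fun n v => Int.add (Int.mul n 2401) v.code) 0

def chkC (z : CL) : Bool := chk codeL (z.map fun p => (p.1 * (srt p.2).1, (srt p.2).2))

def csm (c : ℤ) (z : CL) : CL := z.map fun p => (c * p.1, p.2)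

def opC (a : GR) (z : CL) : CL := a.flatMap fun p => z.map fun s => (p.1 * s.1, s.2.map p.2.app)

def bdl : List V4 → CL
  | [] => []
  | a :: l => (1, l) :: (bdl l).map fun p => (-p.1, a :: p.2)

def bdL (z : CL) : CL := z.flatMap fun p => csm p.1 (bdl p.2)

def iot (a : V4) : List V4 → CL
  | [] => []
  | b :: l => (if a.nrm = b.nrm then [(1, l)] else []) ++ (iot a l).map fun p => (-p.1, b :: p.2)

def ipl : List V4 → List V4 → ℤ
  | [], l' => if l'.isEmpty then 1 else 0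
  | a :: l, l' => ((iot a l').map fun p => p.1 * ipl l p.2).sum

def ipL (l : List V4) (z : CL) : ℤ := (z.map fun p => p.1 * ipl l p.2).sum

end compute

section geometry

abbrev Mt := Mx 4

abbrev Vc := Fin 4 → ℤ

/-- the rank one form `v vᵀ` -/
def phi (v : Vc) : Mt := vecMulVec v v

def pr (q A : Mt) : ℤ := ∑ i, ∑ j, q i j * A i j

def cj (g A : Mt) : Mt := g * A * gᵀ

def pb (g q : Mt) : Mt := gᵀ * q * g

def V4.at (v : V4) : Mt := phi v.toV

/-- the chain of a formal combination -/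
noncomputable def chn (z : CL) : Ch Mt := (z.map fun p => (p.1 : ℚ) • br (p.2.map V4.at)).sum

def qAm : M4 := ⟨⟨2, 1, 1, 1⟩, ⟨1, 2, 1, 1⟩, ⟨1, 1, 2, 1⟩, ⟨1, 1, 1, 2⟩⟩

def q1m : M4 := ⟨⟨2, 1, 0, 1⟩, ⟨1, 2, 1, 1⟩, ⟨0, 1, 2, 1⟩, ⟨1, 1, 1, 2⟩⟩

def q2m : M4 := ⟨⟨2, 1, 1, 1⟩, ⟨1, 2, 1, 0⟩, ⟨1, 1, 2, 1⟩, ⟨1, 0, 1, 2⟩⟩

/-- perfect forms -/
def Vert (q : Mt) : Prop := ∃ g : GLz 4, q = pb g qAm.toM ∨ q = pb g q1m.toM

/-- minimal vectors up to sign -/
def Mn (q : Mt) : Set Mt := {A | (∃ v, A = phi v) ∧ pr q A = 2}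

/-- proper faces of Voronoi domains -/
def Cell (S : Finset Mt) : Prop :=
  ∃ q q', Vert q ∧ Vert q' ∧ q ≠ q' ∧ (S : Set Mt) ⊆ Mn q ∧ (S : Set Mt) ⊆ Mn q'

def Spans (S : Finset Mt) : Prop := ∃ V : Mt, V.det ≠ 0 ∧ ∀ i, phi (V i) ∈ S

/-- the local structure of the Voronoi domain of `q` -/
structure Loc (q : Mt) (M : Finset Mt) (k : ℕ) (lab : Mt → ℕ) : Prop where
  mn : (M : Set Mt) = Mn q
  kpos : 0 < k
  card : M.card = 9 + k
  lab_lt : ∀ A ∈ M, lab A < k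
  ne : ∀ i < k, ∃ A ∈ M, lab A = i
  sums : ∀ i < k, ∀ j < k,
    ∑ A ∈ M.filter (fun A => lab A = i), A = ∑ A ∈ M.filter (fun A => lab A = j), A
  perf : ∀ B : Mt, B.IsSymm → B ∈ Submodule.span ℤ (M : Set Mt)
  nbr : ∀ t : ℕ → Mt, (∀ i < k, t i ∈ M ∧ lab (t i) = i) → ∃ q', Vert q' ∧ ∃ c : ℤ, 0 < c ∧
    ∀ A ∈ M, pr q' A = if t (lab A) = A then 2 + c else 2

/-- cells with `j` vectors -/
noncomputable abbrev Wc (j : ℕ) : Submodule ℚ (Ch Mt) := Sup fun S => Cell S ∧ S.card = j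

def crd (A : Mt) : Fin 10 → ℤ :=
  ![A 0 0, A 0 1, A 0 2, A 0 3, A 1 1, A 1 2, A 1 3, A 2 2, A 2 3, A 3 3]

/-- the volume form on symmetric matrices -/
def vol (l : List Mt) : ℤ :=
  if l.length = 10 then (Matrix.of fun i : Fin 10 => crd (l.getD i 0)).det else 0

/-- the orientation of a facet seen from the form `q` -/
noncomputable def osg (q : Mt) : Ch Mt →ₗ[ℚ] ℚ :=
  lft fun l => (Int.sign (vol ((∑ᶠ A ∈ Mn q, A) :: l)) : ℚ)

/-- the boundary of an edge of the dual complex -/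
noncomputable def dd : Ch Mt →ₗ[ℚ] (Mt →₀ ℚ) :=
  Finsupp.linearCombination ℚ fun S => ∑ᶠ q ∈ {q | Vert q ∧ (S : Set Mt) ⊆ Mn q},
    Finsupp.single q (osg q (Finsupp.single S 1))

/-- the action of `GL₄(ℤ)` on chains -/
noncomputable def ga (g : GLz 4) : Ch Mt →ₗ[ℚ] Ch Mt := act (cj g)

/-- the left action on forms -/
def va (g : GLz 4) (q : Mt) : Mt := pb ((g⁻¹ : GLz 4) : Mt) q

/-- `q` is the highest form whose domain contains `S` -/
def Top (ℓ : Mt →+ ℝ) (q : Mt) (S : Finset Mt) : Prop :=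
  Vert q ∧ (S : Set Mt) ⊆ Mn q ∧ ∀ q', Vert q' → (S : Set Mt) ⊆ Mn q' → ℓ q' ≤ ℓ q

/-- a generic proper height function -/
structure Ht (ℓ : Mt →+ ℝ) : Prop where
  inj : ∀ h : Mt, h.IsSymm → ℓ h = 0 → h = 0
  fin : ∀ t : ℝ, {q | Vert q ∧ ℓ q ≤ t}.Finite
  wts : ∀ M : Finset Mt, (∀ B : Mt, B.IsSymm → B ∈ Submodule.span ℤ (M : Set Mt)) →
    ∃ lam : Mt → ℝ, ∀ h : Mt, h.IsSymm → ℓ h = ∑ A ∈ M, lam A * (pr h A : ℝ)

/-- the equivariant cochain `x ↦ ∑ ⟨γ x, z⟩ g(γ ·)` -/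
noncomputable def Nm (z : Ch Mt) (g : Pn 4) : Ch Mt →ₗ[ℚ] Pn 4 :=
  Finsupp.linearCombination ℚ fun S =>
    ∑ᶠ γ : GLz 4, ip (ga γ (Finsupp.single S 1)) z • sub (γ : Mt) g

/-- `g` vanishes at the roots of `A₄` -/
def Van (g : Pn 4) : Prop :=
  ∀ v : Vc, pr qAm.toM (phi v) = 2 → MvPolynomial.eval (fun i => (v i : ℚ)) g = 0

end geometry

end Pool.Agent.MP_cbe134_nt.V
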