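import Pool.Agent.MP_cbe134_nt.VD3

/- Explicit data: minimal vectors, neighbours, group ring elements and chains. -/

namespace Pool.Agent.MP_cbe134_nt.V

/-- minimal vectors of `A₄` up to sign -/
def minA : List V4 :=
  [⟨0, 0, 0, 1⟩, ⟨0, 0, 1, -1⟩, ⟨0, 0, 1, 0⟩, ⟨0, 1, -1, 0⟩, ⟨0, 1, 0, -1⟩, ⟨0, 1, 0, 0⟩,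
    ⟨1, -1, 0, 0⟩, ⟨1, 0, -1, 0⟩, ⟨1, 0, 0, -1⟩, ⟨1, 0, 0, 0⟩]

/-- a frame of `D₄` -/
def fr0 : List V4 :=
  [⟨0, 0, 0, 1⟩, ⟨0, 1, -1, 0⟩, ⟨1, -1, 0, 0⟩, ⟨1, 0, 1, -1⟩]

/-- a frame of `D₄` -/
def fr1 : List V4 :=
  [⟨0, 0, 1, -1⟩, ⟨0, 1, 0, 0⟩, ⟨1, -1, 1, 0⟩, ⟨1, 0, 0, -1⟩]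

/-- a frame of `D₄` -/
def fr2 : List V4 :=
  [⟨0, 0, 1, 0⟩, ⟨0, 1, 0, -1⟩, ⟨1, -1, 1, -1⟩, ⟨1, 0, 0, 0⟩]

/-- minimal vectors of `D₄` up to sign -/
def min1 : List V4 := fr0 ++ fr1 ++ fr2

/-- for each minimal vector of `A₄`, a matrix carrying `q1m` to the neighbour -/
def nbA : List (V4 × M4) :=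
  [(⟨0, 0, 0, 1⟩, ⟨⟨-1, -1, -1, -2⟩, ⟨0, 0, 0, 1⟩, ⟨-1, 0, 0, -1⟩, ⟨1, 0, 1, 1⟩⟩),
    (⟨0, 0, 1, -1⟩, ⟨⟨-1, -1, -1, -1⟩, ⟨0, 0, 0, 1⟩, ⟨-1, 0, 0, -1⟩, ⟨1, 0, 1, 0⟩⟩),
    (⟨0, 0, 1, 0⟩, ⟨⟨-1, -1, -2, -1⟩, ⟨0, 0, 1, 0⟩, ⟨-1, 0, -1, 0⟩, ⟨1, 0, 1, 1⟩⟩),
    (⟨0, 1, -1, 0⟩, ⟨⟨-1, -1, -1, -1⟩, ⟨0, 0, 1, 0⟩, ⟨-1, 0, -1, 0⟩, ⟨1, 0, 1, 1⟩⟩),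
    (⟨0, 1, 0, -1⟩, ⟨⟨-1, -1, -1, -1⟩, ⟨0, 0, 0, 1⟩, ⟨-1, 0, 0, -1⟩, ⟨1, 0, 1, 1⟩⟩),
    (⟨0, 1, 0, 0⟩, ⟨⟨-1, -2, -1, -1⟩, ⟨0, 1, 0, 0⟩, ⟨-1, -1, 0, 0⟩, ⟨1, 1, 0, 1⟩⟩),
    (⟨1, -1, 0, 0⟩, ⟨⟨-1, -1, -1, -1⟩, ⟨0, 1, 0, 0⟩, ⟨-1, 0, 0, 0⟩, ⟨1, 0, 0, 1⟩⟩),
    (⟨1, 0, -1, 0⟩, ⟨⟨-1, -1, -1, -1⟩, ⟨0, 0, 1, 0⟩, ⟨-1, 0, 0, 0⟩, ⟨1, 0, 0, 1⟩⟩),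
    (⟨1, 0, 0, -1⟩, ⟨⟨-1, -1, -1, -1⟩, ⟨0, 0, 0, 1⟩, ⟨-1, 0, 0, 0⟩, ⟨1, 0, 1, 0⟩⟩),
    (⟨1, 0, 0, 0⟩, ⟨⟨-2, -1, -1, -1⟩, ⟨1, 0, 0, 0⟩, ⟨-1, -1, 0, 0⟩, ⟨1, 1, 0, 1⟩⟩)]

/-- for each transversal of `D₄`, the neighbour (`true` for type `A₄`) -/
def nb1 : List (V4 × V4 × V4 × Bool × M4) :=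
  [(⟨0, 0, 0, 1⟩, ⟨0, 0, 1, -1⟩, ⟨0, 0, 1, 0⟩, false,
      ⟨⟨-1, -1, -1, -2⟩, ⟨0, 0, 0, 1⟩, ⟨-1, 0, 1, -1⟩, ⟨1, 0, 0, 1⟩⟩),
    (⟨0, 0, 0, 1⟩, ⟨0, 0, 1, -1⟩, ⟨0, 1, 0, -1⟩, true,
      ⟨⟨-1, -1, 0, -1⟩, ⟨0, 0, -1, -1⟩, ⟨0, 0, 0, 1⟩, ⟨0, 1, 1, 0⟩⟩),
    (⟨0, 0, 0, 1⟩, ⟨0, 0, 1, -1⟩, ⟨1, -1, 1, -1⟩, true,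
      ⟨⟨-1, -1, 0, -1⟩, ⟨0, 0, -1, 0⟩, ⟨0, 0, 0, -1⟩, ⟨0, 1, 1, 1⟩⟩),
    (⟨0, 0, 0, 1⟩, ⟨0, 0, 1, -1⟩, ⟨1, 0, 0, 0⟩, true,
      ⟨⟨-1, -1, -1, -1⟩, ⟨-1, 0, 1, 0⟩, ⟨0, 0, 0, -1⟩, ⟨1, 0, 0, 1⟩⟩),
    (⟨0, 0, 0, 1⟩, ⟨0, 1, 0, 0⟩, ⟨0, 0, 1, 0⟩, true,
      ⟨⟨-1, -1, -1, -1⟩, ⟨0, -1, -1, -1⟩, ⟨0, 0, 1, 1⟩, ⟨0, 1, 1, 0⟩⟩),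
    (⟨0, 0, 0, 1⟩, ⟨0, 1, 0, 0⟩, ⟨0, 1, 0, -1⟩, false,
      ⟨⟨-1, -2, -1, -1⟩, ⟨0, 1, 0, -1⟩, ⟨-1, -1, 0, 0⟩, ⟨1, 1, 0, 1⟩⟩),
    (⟨0, 0, 0, 1⟩, ⟨0, 1, 0, 0⟩, ⟨1, -1, 1, -1⟩, true,
      ⟨⟨-1, -1, -1, -1⟩, ⟨0, -1, 0, 0⟩, ⟨0, 0, 0, -1⟩, ⟨0, 1, 1, 1⟩⟩),
    (⟨0, 0, 0, 1⟩, ⟨0, 1, 0, 0⟩, ⟨1, 0, 0, 0⟩, true,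
      ⟨⟨-1, -1, -1, -1⟩, ⟨-1, -1, 0, -1⟩, ⟨0, 1, 1, 1⟩, ⟨1, 0, 0, 1⟩⟩),
    (⟨0, 0, 0, 1⟩, ⟨1, -1, 1, 0⟩, ⟨0, 0, 1, 0⟩, true,
      ⟨⟨-1, -1, -1, -1⟩, ⟨0, 0, -1, -1⟩, ⟨0, 0, 1, 0⟩, ⟨0, 1, 1, 1⟩⟩),
    (⟨0, 0, 0, 1⟩, ⟨1, -1, 1, 0⟩, ⟨0, 1, 0, -1⟩, true,
      ⟨⟨-1, -1, -1, -1⟩, ⟨0, 0, 0, -1⟩, ⟨0, 0, 1, 1⟩, ⟨0, 1, 0, 0⟩⟩),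
    (⟨0, 0, 0, 1⟩, ⟨1, -1, 1, 0⟩, ⟨1, -1, 1, -1⟩, false,
      ⟨⟨-1, -1, -1, -2⟩, ⟨0, 0, 0, 1⟩, ⟨-1, 0, 0, -1⟩, ⟨1, 0, 1, 1⟩⟩),
    (⟨0, 0, 0, 1⟩, ⟨1, -1, 1, 0⟩, ⟨1, 0, 0, 0⟩, true,
      ⟨⟨-1, -1, -1, -1⟩, ⟨-1, 0, 0, -1⟩, ⟨0, 0, 1, 1⟩, ⟨1, 0, 0, 0⟩⟩),
    (⟨0, 0, 0, 1⟩, ⟨1, 0, 0, -1⟩, ⟨0, 0, 1, 0⟩, true,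
      ⟨⟨-1, -1, -1, -1⟩, ⟨0, 0, 0, -1⟩, ⟨0, 0, 1, 1⟩, ⟨0, 1, 1, 1⟩⟩),
    (⟨0, 0, 0, 1⟩, ⟨1, 0, 0, -1⟩, ⟨0, 1, 0, -1⟩, true,
      ⟨⟨-1, -1, 0, 0⟩, ⟨0, 0, -1, -1⟩, ⟨0, 0, 0, -1⟩, ⟨0, 1, 1, 1⟩⟩),
    (⟨0, 0, 0, 1⟩, ⟨1, 0, 0, -1⟩, ⟨1, -1, 1, -1⟩, true,
      ⟨⟨-1, -1, 0, -1⟩, ⟨0, 0, -1, -1⟩, ⟨0, 0, 0, 1⟩, ⟨0, 1, 1, 1⟩⟩),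
    (⟨0, 0, 0, 1⟩, ⟨1, 0, 0, -1⟩, ⟨1, 0, 0, 0⟩, false,
      ⟨⟨-2, -1, 0, -1⟩, ⟨1, 0, -1, -1⟩, ⟨-1, -1, 0, 0⟩, ⟨1, 1, 0, 1⟩⟩),
    (⟨0, 1, -1, 0⟩, ⟨0, 0, 1, -1⟩, ⟨0, 0, 1, 0⟩, true,
      ⟨⟨-1, -1, 0, -1⟩, ⟨0, 0, -1, 0⟩, ⟨0, 0, 1, 1⟩, ⟨0, 1, 1, 0⟩⟩),
    (⟨0, 1, -1, 0⟩, ⟨0, 0, 1, -1⟩, ⟨0, 1, 0, -1⟩, false,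
      ⟨⟨-1, -1, 0, -1⟩, ⟨0, 0, 0, 1⟩, ⟨-1, 0, 1, -1⟩, ⟨1, 0, 0, 1⟩⟩),
    (⟨0, 1, -1, 0⟩, ⟨0, 0, 1, -1⟩, ⟨1, -1, 1, -1⟩, true,
      ⟨⟨-1, -1, 0, -1⟩, ⟨0, 0, 0, 1⟩, ⟨0, 0, 1, 0⟩, ⟨0, 1, 0, 0⟩⟩),
    (⟨0, 1, -1, 0⟩, ⟨0, 0, 1, -1⟩, ⟨1, 0, 0, 0⟩, true,
      ⟨⟨-1, -1, 0, 0⟩, ⟨-1, 0, 0, -1⟩, ⟨0, 0, 1, 0⟩, ⟨1, 0, -1, 0⟩⟩),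
    (⟨0, 1, -1, 0⟩, ⟨0, 1, 0, 0⟩, ⟨0, 0, 1, 0⟩, false,
      ⟨⟨-1, -2, -1, -1⟩, ⟨0, 1, 0, 0⟩, ⟨-1, -1, 1, 0⟩, ⟨1, 1, 0, 0⟩⟩),
    (⟨0, 1, -1, 0⟩, ⟨0, 1, 0, 0⟩, ⟨0, 1, 0, -1⟩, true,
      ⟨⟨-1, -1, 0, -1⟩, ⟨0, -1, -1, 0⟩, ⟨0, 0, 1, 1⟩, ⟨0, 1, 0, 0⟩⟩),
    (⟨0, 1, -1, 0⟩, ⟨0, 1, 0, 0⟩, ⟨1, -1, 1, -1⟩, true,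
      ⟨⟨-1, -1, 0, 0⟩, ⟨0, -1, -1, -1⟩, ⟨0, 0, 1, 0⟩, ⟨0, 1, 0, 0⟩⟩),
    (⟨0, 1, -1, 0⟩, ⟨0, 1, 0, 0⟩, ⟨1, 0, 0, 0⟩, true,
      ⟨⟨-1, -1, 0, -1⟩, ⟨-1, -1, 0, 0⟩, ⟨0, 1, 0, 0⟩, ⟨1, 0, -1, 0⟩⟩),
    (⟨0, 1, -1, 0⟩, ⟨1, -1, 1, 0⟩, ⟨0, 0, 1, 0⟩, true,
      ⟨⟨-1, -1, -1, -1⟩, ⟨0, 0, 1, 0⟩, ⟨0, 0, 1, 1⟩, ⟨0, 1, 0, 0⟩⟩),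
    (⟨0, 1, -1, 0⟩, ⟨1, -1, 1, 0⟩, ⟨0, 1, 0, -1⟩, true,
      ⟨⟨-1, -1, 0, 0⟩, ⟨0, 0, -1, -1⟩, ⟨0, 0, 1, 0⟩, ⟨0, 1, 0, 0⟩⟩),
    (⟨0, 1, -1, 0⟩, ⟨1, -1, 1, 0⟩, ⟨1, -1, 1, -1⟩, true,
      ⟨⟨-1, -1, 0, -1⟩, ⟨0, 0, -1, 0⟩, ⟨0, 0, 1, 1⟩, ⟨0, 1, 0, 0⟩⟩),
    (⟨0, 1, -1, 0⟩, ⟨1, -1, 1, 0⟩, ⟨1, 0, 0, 0⟩, false,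
      ⟨⟨-2, -1, 0, -1⟩, ⟨1, 0, -1, 0⟩, ⟨-1, -1, 1, 0⟩, ⟨1, 1, 0, 0⟩⟩),
    (⟨0, 1, -1, 0⟩, ⟨1, 0, 0, -1⟩, ⟨0, 0, 1, 0⟩, true,
      ⟨⟨-1, -1, 0, 0⟩, ⟨0, 0, -1, -1⟩, ⟨0, 0, 1, 0⟩, ⟨0, 1, 1, 1⟩⟩),
    (⟨0, 1, -1, 0⟩, ⟨1, 0, 0, -1⟩, ⟨0, 1, 0, -1⟩, true,
      ⟨⟨-1, -1, 0, 0⟩, ⟨0, 0, 0, -1⟩, ⟨0, 0, 1, 1⟩, ⟨0, 1, 0, 0⟩⟩),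
    (⟨0, 1, -1, 0⟩, ⟨1, 0, 0, -1⟩, ⟨1, -1, 1, -1⟩, false,
      ⟨⟨-1, -1, 0, -1⟩, ⟨0, 0, 0, 1⟩, ⟨-1, 0, 1, 0⟩, ⟨1, 0, 0, 0⟩⟩),
    (⟨0, 1, -1, 0⟩, ⟨1, 0, 0, -1⟩, ⟨1, 0, 0, 0⟩, true,
      ⟨⟨-1, -1, 0, -1⟩, ⟨-1, 0, 0, 0⟩, ⟨0, 0, 1, 1⟩, ⟨1, 0, -1, 0⟩⟩),
    (⟨1, -1, 0, 0⟩, ⟨0, 0, 1, -1⟩, ⟨0, 0, 1, 0⟩, true,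
      ⟨⟨-1, 0, 0, -1⟩, ⟨0, -1, -1, 0⟩, ⟨0, 0, 1, 0⟩, ⟨0, 1, 1, 1⟩⟩),
    (⟨1, -1, 0, 0⟩, ⟨0, 0, 1, -1⟩, ⟨0, 1, 0, -1⟩, true,
      ⟨⟨-1, 0, 0, -1⟩, ⟨0, -1, 0, 0⟩, ⟨0, 0, 0, 1⟩, ⟨0, 1, 1, 0⟩⟩),
    (⟨1, -1, 0, 0⟩, ⟨0, 0, 1, -1⟩, ⟨1, -1, 1, -1⟩, false,
      ⟨⟨-1, -1, 0, -1⟩, ⟨0, 1, 0, 0⟩, ⟨-1, 0, 1, 0⟩, ⟨1, 0, -1, 1⟩⟩),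
    (⟨1, -1, 0, 0⟩, ⟨0, 0, 1, -1⟩, ⟨1, 0, 0, 0⟩, true,
      ⟨⟨-1, -1, 0, -1⟩, ⟨-1, 0, 0, 0⟩, ⟨0, 1, 1, 0⟩, ⟨1, 0, -1, 0⟩⟩),
    (⟨1, -1, 0, 0⟩, ⟨0, 1, 0, 0⟩, ⟨0, 0, 1, 0⟩, true,
      ⟨⟨-1, -1, -1, -1⟩, ⟨0, -1, 0, 0⟩, ⟨0, 1, 1, 0⟩, ⟨0, 1, 1, 1⟩⟩),
    (⟨1, -1, 0, 0⟩, ⟨0, 1, 0, 0⟩, ⟨0, 1, 0, -1⟩, true,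
      ⟨⟨-1, -1, 0, 0⟩, ⟨0, -1, -1, -1⟩, ⟨0, 1, 0, 0⟩, ⟨0, 1, 1, 0⟩⟩),
    (⟨1, -1, 0, 0⟩, ⟨0, 1, 0, 0⟩, ⟨1, -1, 1, -1⟩, true,
      ⟨⟨-1, -1, 0, -1⟩, ⟨0, -1, -1, 0⟩, ⟨0, 1, 0, 0⟩, ⟨0, 1, 1, 1⟩⟩),
    (⟨1, -1, 0, 0⟩, ⟨0, 1, 0, 0⟩, ⟨1, 0, 0, 0⟩, false,
      ⟨⟨-2, -1, 0, -1⟩, ⟨1, -1, -1, 0⟩, ⟨-1, 0, 0, -1⟩, ⟨1, 1, 0, 1⟩⟩),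
    (⟨1, -1, 0, 0⟩, ⟨1, -1, 1, 0⟩, ⟨0, 0, 1, 0⟩, false,
      ⟨⟨-1, -1, -1, -1⟩, ⟨0, 1, 0, 0⟩, ⟨-1, 0, 1, 0⟩, ⟨1, 0, 0, 0⟩⟩),
    (⟨1, -1, 0, 0⟩, ⟨1, -1, 1, 0⟩, ⟨0, 1, 0, -1⟩, true,
      ⟨⟨-1, 0, 0, -1⟩, ⟨0, -1, -1, 0⟩, ⟨0, 0, 1, 1⟩, ⟨0, 1, 0, 0⟩⟩),
    (⟨1, -1, 0, 0⟩, ⟨1, -1, 1, 0⟩, ⟨1, -1, 1, -1⟩, true,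
      ⟨⟨-1, 0, 0, 0⟩, ⟨0, -1, -1, -1⟩, ⟨0, 0, 1, 0⟩, ⟨0, 1, 0, 0⟩⟩),
    (⟨1, -1, 0, 0⟩, ⟨1, -1, 1, 0⟩, ⟨1, 0, 0, 0⟩, true,
      ⟨⟨-1, -1, -1, -1⟩, ⟨-1, 0, 1, 0⟩, ⟨0, 1, 0, 0⟩, ⟨1, 0, 0, 0⟩⟩),
    (⟨1, -1, 0, 0⟩, ⟨1, 0, 0, -1⟩, ⟨0, 0, 1, 0⟩, true,
      ⟨⟨-1, 0, 0, 0⟩, ⟨0, -1, -1, -1⟩, ⟨0, 0, 1, 1⟩, ⟨0, 1, 1, 0⟩⟩),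
    (⟨1, -1, 0, 0⟩, ⟨1, 0, 0, -1⟩, ⟨0, 1, 0, -1⟩, false,
      ⟨⟨-1, -1, 0, 0⟩, ⟨0, 1, 0, -1⟩, ⟨-1, 0, 1, 1⟩, ⟨1, 0, -1, 0⟩⟩),
    (⟨1, -1, 0, 0⟩, ⟨1, 0, 0, -1⟩, ⟨1, -1, 1, -1⟩, true,
      ⟨⟨-1, 0, 0, 0⟩, ⟨0, -1, 0, 0⟩, ⟨0, 0, 0, -1⟩, ⟨0, 1, 1, 1⟩⟩),
    (⟨1, -1, 0, 0⟩, ⟨1, 0, 0, -1⟩, ⟨1, 0, 0, 0⟩, true,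
      ⟨⟨-1, -1, 0, 0⟩, ⟨-1, 0, 0, -1⟩, ⟨0, 1, 1, 1⟩, ⟨1, 0, -1, 0⟩⟩),
    (⟨1, 0, 1, -1⟩, ⟨0, 0, 1, -1⟩, ⟨0, 0, 1, 0⟩, true,
      ⟨⟨-1, -1, -1, -1⟩, ⟨0, 0, 0, 1⟩, ⟨0, 0, 1, 0⟩, ⟨0, 1, 1, 0⟩⟩),
    (⟨1, 0, 1, -1⟩, ⟨0, 0, 1, -1⟩, ⟨0, 1, 0, -1⟩, true,
      ⟨⟨-1, -1, 0, 0⟩, ⟨0, 0, -1, 0⟩, ⟨0, 0, 0, -1⟩, ⟨0, 1, 1, 0⟩⟩),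
    (⟨1, 0, 1, -1⟩, ⟨0, 0, 1, -1⟩, ⟨1, -1, 1, -1⟩, true,
      ⟨⟨-1, -1, 0, -1⟩, ⟨0, 0, -1, 0⟩, ⟨0, 0, 0, 1⟩, ⟨0, 1, 1, 0⟩⟩),
    (⟨1, 0, 1, -1⟩, ⟨0, 0, 1, -1⟩, ⟨1, 0, 0, 0⟩, false,
      ⟨⟨-2, -1, 0, -1⟩, ⟨1, 0, -1, 0⟩, ⟨-1, -1, 0, 0⟩, ⟨1, 1, 0, 1⟩⟩),
    (⟨1, 0, 1, -1⟩, ⟨0, 1, 0, 0⟩, ⟨0, 0, 1, 0⟩, true,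
      ⟨⟨-1, -1, -1, -1⟩, ⟨0, -1, -1, 0⟩, ⟨0, 0, 1, 0⟩, ⟨0, 1, 1, 1⟩⟩),
    (⟨1, 0, 1, -1⟩, ⟨0, 1, 0, 0⟩, ⟨0, 1, 0, -1⟩, true,
      ⟨⟨-1, -1, -1, -1⟩, ⟨0, -1, 0, 0⟩, ⟨0, 0, 0, 1⟩, ⟨0, 1, 1, 0⟩⟩),
    (⟨1, 0, 1, -1⟩, ⟨0, 1, 0, 0⟩, ⟨1, -1, 1, -1⟩, false,
      ⟨⟨-1, -2, -1, -1⟩, ⟨0, 1, 0, 0⟩, ⟨-1, -1, 0, 0⟩, ⟨1, 1, 0, 1⟩⟩),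
    (⟨1, 0, 1, -1⟩, ⟨0, 1, 0, 0⟩, ⟨1, 0, 0, 0⟩, true,
      ⟨⟨-1, -1, -1, -1⟩, ⟨-1, -1, 0, 0⟩, ⟨0, 1, 1, 0⟩, ⟨1, 0, 0, 0⟩⟩),
    (⟨1, 0, 1, -1⟩, ⟨1, -1, 1, 0⟩, ⟨0, 0, 1, 0⟩, true,
      ⟨⟨-1, -1, -1, -1⟩, ⟨0, 0, -1, 0⟩, ⟨0, 0, 1, 1⟩, ⟨0, 1, 1, 0⟩⟩),
    (⟨1, 0, 1, -1⟩, ⟨1, -1, 1, 0⟩, ⟨0, 1, 0, -1⟩, false,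
      ⟨⟨-1, -1, -1, -1⟩, ⟨0, 0, 0, 1⟩, ⟨-1, 0, 0, -1⟩, ⟨1, 0, 1, 1⟩⟩),
    (⟨1, 0, 1, -1⟩, ⟨1, -1, 1, 0⟩, ⟨1, -1, 1, -1⟩, true,
      ⟨⟨-1, -1, -1, -1⟩, ⟨0, 0, 0, 1⟩, ⟨0, 0, 1, 0⟩, ⟨0, 1, 0, 0⟩⟩),
    (⟨1, 0, 1, -1⟩, ⟨1, -1, 1, 0⟩, ⟨1, 0, 0, 0⟩, true,
      ⟨⟨-1, -1, -1, -1⟩, ⟨-1, 0, 0, 0⟩, ⟨0, 0, 1, 0⟩, ⟨1, 0, 0, 1⟩⟩),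
    (⟨1, 0, 1, -1⟩, ⟨1, 0, 0, -1⟩, ⟨0, 0, 1, 0⟩, false,
      ⟨⟨-1, -1, -1, -1⟩, ⟨0, 0, 0, 1⟩, ⟨-1, 0, 1, 0⟩, ⟨1, 0, 0, 0⟩⟩),
    (⟨1, 0, 1, -1⟩, ⟨1, 0, 0, -1⟩, ⟨0, 1, 0, -1⟩, true,
      ⟨⟨-1, -1, 0, 0⟩, ⟨0, 0, -1, -1⟩, ⟨0, 0, 0, 1⟩, ⟨0, 1, 1, 0⟩⟩),
    (⟨1, 0, 1, -1⟩, ⟨1, 0, 0, -1⟩, ⟨1, -1, 1, -1⟩, true,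
      ⟨⟨-1, -1, 0, 0⟩, ⟨0, 0, -1, 0⟩, ⟨0, 0, 0, -1⟩, ⟨0, 1, 1, 1⟩⟩),
    (⟨1, 0, 1, -1⟩, ⟨1, 0, 0, -1⟩, ⟨1, 0, 0, 0⟩, true,
      ⟨⟨-1, -1, -1, -1⟩, ⟨-1, 0, 1, 0⟩, ⟨0, 0, 0, 1⟩, ⟨1, 0, 0, 0⟩⟩)]

/-- the rotation `y i ↦ y (i + 1)` -/
def rM : M4 := ⟨⟨-1, -1, -1, -1⟩, ⟨1, 0, 0, 0⟩, ⟨0, 1, 0, 0⟩, ⟨0, 0, 1, 0⟩⟩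

/-- reversal of the variables `t` -/
def fM : M4 := ⟨⟨0, 0, 0, 1⟩, ⟨0, 0, 1, 0⟩, ⟨0, 1, 0, 0⟩, ⟨1, 0, 0, 0⟩⟩

/-- reversal of the variables `s` -/
def gM : M4 := ⟨⟨1, 1, 1, 1⟩, ⟨0, 0, 0, -1⟩, ⟨0, 0, -1, 0⟩, ⟨0, -1, 0, 0⟩⟩

/-- ten times the dihedral idempotent -/
def eD : GR :=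
  [(1, ⟨⟨1, 0, 0, 0⟩, ⟨0, 1, 0, 0⟩, ⟨0, 0, 1, 0⟩, ⟨0, 0, 0, 1⟩⟩),
    (-1, ⟨⟨0, 0, 0, 1⟩, ⟨0, 0, 1, 0⟩, ⟨0, 1, 0, 0⟩, ⟨1, 0, 0, 0⟩⟩),
    (1, ⟨⟨-1, -1, -1, -1⟩, ⟨1, 0, 0, 0⟩, ⟨0, 1, 0, 0⟩, ⟨0, 0, 1, 0⟩⟩),
    (-1, ⟨⟨-1, -1, -1, -1⟩, ⟨0, 0, 0, 1⟩, ⟨0, 0, 1, 0⟩, ⟨0, 1, 0, 0⟩⟩),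
    (1, ⟨⟨0, 0, 0, 1⟩, ⟨-1, -1, -1, -1⟩, ⟨1, 0, 0, 0⟩, ⟨0, 1, 0, 0⟩⟩),
    (-1, ⟨⟨1, 0, 0, 0⟩, ⟨-1, -1, -1, -1⟩, ⟨0, 0, 0, 1⟩, ⟨0, 0, 1, 0⟩⟩),
    (1, ⟨⟨0, 0, 1, 0⟩, ⟨0, 0, 0, 1⟩, ⟨-1, -1, -1, -1⟩, ⟨1, 0, 0, 0⟩⟩),
    (-1, ⟨⟨0, 1, 0, 0⟩, ⟨1, 0, 0, 0⟩, ⟨-1, -1, -1, -1⟩, ⟨0, 0, 0, 1⟩⟩),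
    (1, ⟨⟨0, 1, 0, 0⟩, ⟨0, 0, 1, 0⟩, ⟨0, 0, 0, 1⟩, ⟨-1, -1, -1, -1⟩⟩),
    (-1, ⟨⟨0, 0, 1, 0⟩, ⟨0, 1, 0, 0⟩, ⟨1, 0, 0, 0⟩, ⟨-1, -1, -1, -1⟩⟩)]

/-- the powers of the rotation -/
def R5 : GR :=
  [(1, ⟨⟨1, 0, 0, 0⟩, ⟨0, 1, 0, 0⟩, ⟨0, 0, 1, 0⟩, ⟨0, 0, 0, 1⟩⟩),
    (1, ⟨⟨-1, -1, -1, -1⟩, ⟨1, 0, 0, 0⟩, ⟨0, 1, 0, 0⟩, ⟨0, 0, 1, 0⟩⟩),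
    (1, ⟨⟨0, 0, 0, 1⟩, ⟨-1, -1, -1, -1⟩, ⟨1, 0, 0, 0⟩, ⟨0, 1, 0, 0⟩⟩),
    (1, ⟨⟨0, 0, 1, 0⟩, ⟨0, 0, 0, 1⟩, ⟨-1, -1, -1, -1⟩, ⟨1, 0, 0, 0⟩⟩),
    (1, ⟨⟨0, 1, 0, 0⟩, ⟨0, 0, 1, 0⟩, ⟨0, 0, 0, 1⟩, ⟨-1, -1, -1, -1⟩⟩)]

/-- shuffles of type (1,3) of the variables `t` -/
def shY1 : GR :=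
  [(1, ⟨⟨1, 0, 0, 0⟩, ⟨0, 1, 0, 0⟩, ⟨0, 0, 1, 0⟩, ⟨0, 0, 0, 1⟩⟩),
    (1, ⟨⟨0, 1, 0, 0⟩, ⟨1, 0, 0, 0⟩, ⟨0, 0, 1, 0⟩, ⟨0, 0, 0, 1⟩⟩),
    (1, ⟨⟨0, 0, 1, 0⟩, ⟨1, 0, 0, 0⟩, ⟨0, 1, 0, 0⟩, ⟨0, 0, 0, 1⟩⟩),
    (1, ⟨⟨0, 0, 0, 1⟩, ⟨1, 0, 0, 0⟩, ⟨0, 1, 0, 0⟩, ⟨0, 0, 1, 0⟩⟩)]

/-- shuffles of type (1,3) of the variables `s` -/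
def shX1 : GR :=
  [(1, ⟨⟨1, 0, 0, 0⟩, ⟨0, 1, 0, 0⟩, ⟨0, 0, 1, 0⟩, ⟨0, 0, 0, 1⟩⟩),
    (1, ⟨⟨1, 1, 0, 0⟩, ⟨0, -1, 0, 0⟩, ⟨0, 1, 1, 0⟩, ⟨0, 0, 0, 1⟩⟩),
    (1, ⟨⟨1, 1, 1, 0⟩, ⟨0, -1, -1, 0⟩, ⟨0, 1, 0, 0⟩, ⟨0, 0, 1, 1⟩⟩),
    (1, ⟨⟨1, 1, 1, 1⟩, ⟨0, -1, -1, -1⟩, ⟨0, 1, 0, 0⟩, ⟨0, 0, 1, 0⟩⟩)]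

/-- the permutation `y i ↦ y (2 i)` -/
def JY : M4 := ⟨⟨0, 0, 1, 0⟩, ⟨1, 0, 0, 0⟩, ⟨0, 0, 0, 1⟩, ⟨0, 1, 0, 0⟩⟩

/-- its inverse -/
def JYi : M4 := ⟨⟨0, 1, 0, 0⟩, ⟨0, 0, 0, 1⟩, ⟨1, 0, 0, 0⟩, ⟨0, 0, 1, 0⟩⟩

/-- the permutation `x i ↦ x (2 i)` -/
def JX : M4 := ⟨⟨1, 1, 1, 0⟩, ⟨0, -1, -1, 0⟩, ⟨0, 1, 1, 1⟩, ⟨0, 0, -1, -1⟩⟩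

/-- its inverse -/
def JXi : M4 := ⟨⟨1, 1, 0, 0⟩, ⟨0, 0, 1, 1⟩, ⟨0, -1, -1, -1⟩, ⟨0, 1, 1, 0⟩⟩

/-- the basic chain of seven vectors -/
def psiL : CL :=
  [(1, [⟨1, 0, 0, 0⟩, ⟨1, -1, 0, 0⟩, ⟨0, 1, -1, 0⟩, ⟨0, 0, 1, -1⟩, ⟨0, 0, 0, 1⟩, ⟨0, 1, 0, 0⟩,
      ⟨0, 1, 0, -1⟩]),
    (1, [⟨1, 0, 0, 0⟩, ⟨1, -1, 0, 0⟩, ⟨0, 1, -1, 0⟩, ⟨0, 0, 1, -1⟩, ⟨0, 0, 0, 1⟩, ⟨1, 0, -1, 0⟩,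
      ⟨0, 0, 1, 0⟩]),
    (1, [⟨1, 0, 0, 0⟩, ⟨1, -1, 0, 0⟩, ⟨0, 1, -1, 0⟩, ⟨0, 0, 1, -1⟩, ⟨0, 0, 0, 1⟩, ⟨0, 1, 0, -1⟩,
      ⟨1, 0, 0, -1⟩]),
    (1, [⟨1, 0, 0, 0⟩, ⟨1, -1, 0, 0⟩, ⟨0, 1, -1, 0⟩, ⟨0, 0, 1, -1⟩, ⟨0, 0, 0, 1⟩, ⟨0, 0, 1, 0⟩,
      ⟨0, 1, 0, 0⟩]),
    (1, [⟨1, 0, 0, 0⟩, ⟨1, -1, 0, 0⟩, ⟨0, 1, -1, 0⟩, ⟨0, 0, 1, -1⟩, ⟨0, 0, 0, 1⟩, ⟨1, 0, 0, -1⟩,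
      ⟨1, 0, -1, 0⟩])]

/-- the chain of eight vectors -/
def zL : CL :=
  [(-1, [⟨0, 0, 0, 1⟩, ⟨0, 0, 1, -1⟩, ⟨0, 0, 1, 0⟩, ⟨0, 1, -1, 0⟩, ⟨0, 1, 0, -1⟩, ⟨0, 1, 0, 0⟩,
      ⟨1, -1, 0, 0⟩, ⟨1, 0, 0, -1⟩]),
    (-2, [⟨0, 0, 0, 1⟩, ⟨0, 0, 1, -1⟩, ⟨0, 0, 1, 0⟩, ⟨0, 1, -1, 0⟩, ⟨0, 1, 0, -1⟩, ⟨0, 1, 0, 0⟩,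
      ⟨1, -1, 0, 0⟩, ⟨1, 0, 0, 0⟩]),
    (-1, [⟨0, 0, 0, 1⟩, ⟨0, 0, 1, -1⟩, ⟨0, 0, 1, 0⟩, ⟨0, 1, -1, 0⟩, ⟨0, 1, 0, -1⟩, ⟨0, 1, 0, 0⟩,
      ⟨1, 0, -1, 0⟩, ⟨1, 0, 0, 0⟩]),
    (-1, [⟨0, 0, 0, 1⟩, ⟨0, 0, 1, -1⟩, ⟨0, 0, 1, 0⟩, ⟨0, 1, -1, 0⟩, ⟨0, 1, 0, -1⟩, ⟨1, -1, 0, 0⟩,
      ⟨1, 0, -1, 0⟩, ⟨1, 0, 0, 0⟩]),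
    (-2, [⟨0, 0, 0, 1⟩, ⟨0, 0, 1, -1⟩, ⟨0, 0, 1, 0⟩, ⟨0, 1, -1, 0⟩, ⟨0, 1, 0, 0⟩, ⟨1, -1, 0, 0⟩,
      ⟨1, 0, -1, 0⟩, ⟨1, 0, 0, 0⟩]),
    (-1, [⟨0, 0, 0, 1⟩, ⟨0, 0, 1, -1⟩, ⟨0, 0, 1, 0⟩, ⟨0, 1, -1, 0⟩, ⟨0, 1, 0, 0⟩, ⟨1, 0, -1, 0⟩,
      ⟨1, 0, 0, -1⟩, ⟨1, 0, 0, 0⟩]),
    (-1, [⟨0, 0, 0, 1⟩, ⟨0, 0, 1, -1⟩, ⟨0, 0, 1, 0⟩, ⟨0, 1, 0, -1⟩, ⟨1, -1, 0, 0⟩, ⟨1, 0, -1, 0⟩,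
      ⟨1, 0, 0, -1⟩, ⟨1, 0, 0, 0⟩]),
    (-1, [⟨0, 0, 0, 1⟩, ⟨0, 0, 1, -1⟩, ⟨0, 1, -1, 0⟩, ⟨0, 1, 0, -1⟩, ⟨0, 1, 0, 0⟩, ⟨1, -1, 0, 0⟩,
      ⟨1, 0, -1, 0⟩, ⟨1, 0, 0, -1⟩]),
    (-1, [⟨0, 0, 0, 1⟩, ⟨0, 0, 1, -1⟩, ⟨0, 1, -1, 0⟩, ⟨0, 1, 0, -1⟩, ⟨0, 1, 0, 0⟩, ⟨1, -1, 0, 0⟩,
      ⟨1, 0, -1, 0⟩, ⟨1, 0, 0, 0⟩]),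
    (-2, [⟨0, 0, 0, 1⟩, ⟨0, 0, 1, -1⟩, ⟨0, 1, -1, 0⟩, ⟨0, 1, 0, -1⟩, ⟨0, 1, 0, 0⟩, ⟨1, -1, 0, 0⟩,
      ⟨1, 0, 0, -1⟩, ⟨1, 0, 0, 0⟩]),
    (2, [⟨0, 0, 0, 1⟩, ⟨0, 0, 1, -1⟩, ⟨0, 1, -1, 0⟩, ⟨0, 1, 0, -1⟩, ⟨1, -1, 0, 0⟩, ⟨1, 0, -1, 0⟩,
      ⟨1, 0, 0, -1⟩, ⟨1, 0, 0, 0⟩]),
    (1, [⟨0, 0, 0, 1⟩, ⟨0, 0, 1, -1⟩, ⟨0, 1, -1, 0⟩, ⟨0, 1, 0, 0⟩, ⟨1, -1, 0, 0⟩, ⟨1, 0, -1, 0⟩,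
      ⟨1, 0, 0, -1⟩, ⟨1, 0, 0, 0⟩]),
    (1, [⟨0, 0, 0, 1⟩, ⟨0, 0, 1, -1⟩, ⟨0, 1, 0, -1⟩, ⟨0, 1, 0, 0⟩, ⟨1, -1, 0, 0⟩, ⟨1, 0, -1, 0⟩,
      ⟨1, 0, 0, -1⟩, ⟨1, 0, 0, 0⟩]),
    (-1, [⟨0, 0, 0, 1⟩, ⟨0, 0, 1, 0⟩, ⟨0, 1, -1, 0⟩, ⟨0, 1, 0, -1⟩, ⟨0, 1, 0, 0⟩, ⟨1, -1, 0, 0⟩,
      ⟨1, 0, -1, 0⟩, ⟨1, 0, 0, 0⟩]),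
    (-1, [⟨0, 0, 0, 1⟩, ⟨0, 0, 1, 0⟩, ⟨0, 1, -1, 0⟩, ⟨0, 1, 0, -1⟩, ⟨0, 1, 0, 0⟩, ⟨1, -1, 0, 0⟩,
      ⟨1, 0, 0, -1⟩, ⟨1, 0, 0, 0⟩]),
    (-1, [⟨0, 0, 1, -1⟩, ⟨0, 0, 1, 0⟩, ⟨0, 1, -1, 0⟩, ⟨0, 1, 0, 0⟩, ⟨1, -1, 0, 0⟩, ⟨1, 0, -1, 0⟩,
      ⟨1, 0, 0, -1⟩, ⟨1, 0, 0, 0⟩]),
    (-1, [⟨0, 0, 1, -1⟩, ⟨0, 0, 1, 0⟩, ⟨0, 1, -1, 0⟩, ⟨0, 1, 0, -1⟩, ⟨1, -1, 0, 0⟩, ⟨1, 0, -1, 0⟩,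
      ⟨1, 0, 0, -1⟩, ⟨1, 0, 0, 0⟩]),
    (-2, [⟨0, 0, 0, 1⟩, ⟨0, 0, 1, -1⟩, ⟨0, 0, 1, 0⟩, ⟨0, 1, -1, 0⟩, ⟨1, -1, 0, 0⟩, ⟨1, 0, -1, 0⟩,
      ⟨1, 0, 0, -1⟩, ⟨1, 0, 0, 0⟩]),
    (-1, [⟨0, 0, 0, 1⟩, ⟨0, 0, 1, -1⟩, ⟨0, 0, 1, 0⟩, ⟨0, 1, -1, 0⟩, ⟨0, 1, 0, -1⟩, ⟨1, -1, 0, 0⟩,
      ⟨1, 0, 0, -1⟩, ⟨1, 0, 0, 0⟩]),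
    (-1, [⟨0, 0, 0, 1⟩, ⟨0, 0, 1, -1⟩, ⟨0, 0, 1, 0⟩, ⟨0, 1, -1, 0⟩, ⟨0, 1, 0, 0⟩, ⟨1, -1, 0, 0⟩,
      ⟨1, 0, 0, -1⟩, ⟨1, 0, 0, 0⟩])]

/-- a complete graph on four vertices minus an edge, with a pendant edge -/
def tauL : List V4 :=
  [⟨1, 0, 0, 0⟩, ⟨0, 1, 0, 0⟩, ⟨0, 0, 1, 0⟩, ⟨1, -1, 0, 0⟩, ⟨0, 1, -1, 0⟩, ⟨0, 0, 0, 1⟩]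

def e02 : V4 := ⟨1, 0, -1, 0⟩

def e13 : V4 := ⟨0, 1, 0, -1⟩

def ef : V4 := ⟨1, -1, 1, 0⟩

def w0 : V4 := ⟨1, -1, 1, -1⟩

def k0L : List V4 := e02 :: tauL

/-- coefficients of the degenerate part -/
def thc : GR :=
  [(-1, ⟨⟨0, 0, 0, 1⟩, ⟨0, 1, 0, 0⟩, ⟨0, 0, 1, 0⟩, ⟨-1, -1, -1, -1⟩⟩),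
    (3, ⟨⟨0, 0, 0, 1⟩, ⟨-1, -1, -1, -1⟩, ⟨0, 1, 0, 0⟩, ⟨0, 0, 1, 0⟩⟩),
    (-3, ⟨⟨0, 0, 0, 1⟩, ⟨1, 0, 0, 0⟩, ⟨0, 1, 0, 0⟩, ⟨0, 0, 1, 0⟩⟩),
    (1, ⟨⟨0, 0, 0, 1⟩, ⟨0, 1, 0, 0⟩, ⟨-1, -1, -1, -1⟩, ⟨0, 0, 1, 0⟩⟩),
    (-3, ⟨⟨0, 1, 0, 0⟩, ⟨0, 0, 1, 0⟩, ⟨-1, -1, -1, -1⟩, ⟨0, 0, 0, 1⟩⟩),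
    (3, ⟨⟨1, 0, 0, 0⟩, ⟨0, 1, 0, 0⟩, ⟨0, 0, 1, 0⟩, ⟨0, 0, 0, 1⟩⟩),
    (-1, ⟨⟨1, 0, 0, 0⟩, ⟨0, 0, 0, 1⟩, ⟨0, 1, 0, 0⟩, ⟨0, 0, 1, 0⟩⟩),
    (3, ⟨⟨0, 1, 0, 0⟩, ⟨0, 0, 0, 1⟩, ⟨-1, -1, -1, -1⟩, ⟨0, 0, 1, 0⟩⟩),
    (-3, ⟨⟨-1, -1, -1, -1⟩, ⟨0, 0, 0, 1⟩, ⟨0, 1, 0, 0⟩, ⟨0, 0, 1, 0⟩⟩),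
    (1, ⟨⟨0, 1, 0, 0⟩, ⟨0, 0, 0, 1⟩, ⟨0, 0, 1, 0⟩, ⟨-1, -1, -1, -1⟩⟩),
    (1, ⟨⟨1, 0, 0, 0⟩, ⟨-1, -1, -1, -1⟩, ⟨0, 1, 0, 0⟩, ⟨0, 0, 1, 0⟩⟩),
    (-3, ⟨⟨1, 0, 0, 0⟩, ⟨0, 1, 0, 0⟩, ⟨0, 0, 1, 0⟩, ⟨-1, -1, -1, -1⟩⟩),
    (-3, ⟨⟨0, 1, 0, 0⟩, ⟨-1, -1, -1, -1⟩, ⟨0, 0, 0, 1⟩, ⟨0, 0, 1, 0⟩⟩),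
    (3, ⟨⟨0, 1, 0, 0⟩, ⟨0, 0, 1, 0⟩, ⟨0, 0, 0, 1⟩, ⟨-1, -1, -1, -1⟩⟩),
    (3, ⟨⟨-1, -1, -1, -1⟩, ⟨1, 0, 0, 0⟩, ⟨0, 1, 0, 0⟩, ⟨0, 0, 1, 0⟩⟩),
    (-1, ⟨⟨-1, -1, -1, -1⟩, ⟨0, 1, 0, 0⟩, ⟨0, 0, 0, 1⟩, ⟨0, 0, 1, 0⟩⟩),
    (-1, ⟨⟨0, 1, 0, 0⟩, ⟨-1, -1, -1, -1⟩, ⟨0, 0, 1, 0⟩, ⟨0, 0, 0, 1⟩⟩),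
    (1, ⟨⟨1, 0, 0, 0⟩, ⟨0, 1, 0, 0⟩, ⟨0, 0, 0, 1⟩, ⟨0, 0, 1, 0⟩⟩),
    (1, ⟨⟨-1, -1, -1, -1⟩, ⟨0, 1, 0, 0⟩, ⟨0, 0, 1, 0⟩, ⟨0, 0, 0, 1⟩⟩),
    (-1, ⟨⟨1, 0, 0, 0⟩, ⟨0, 1, 0, 0⟩, ⟨-1, -1, -1, -1⟩, ⟨0, 0, 1, 0⟩⟩)]

/-- the flip -/
def sigM : M4 := ⟨⟨1, 1, 1, 0⟩, ⟨0, -1, -1, 0⟩, ⟨0, 0, 1, 0⟩, ⟨0, 0, 0, 1⟩⟩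

/-- the wheel with four spokes -/
def u0L : List V4 :=
  [⟨1, 0, 0, 0⟩, ⟨0, 1, 0, 0⟩, ⟨0, 0, 1, 0⟩, ⟨0, 0, 0, 1⟩, ⟨1, -1, 0, 0⟩, ⟨0, 1, -1, 0⟩,
    ⟨0, 0, 1, -1⟩, ⟨1, 0, 0, -1⟩]

def s33 : List V4 := w0 :: u0L

def q33 : M4 := ⟨⟨4, 2, 1, 2⟩, ⟨2, 4, 2, 1⟩, ⟨1, 2, 4, 2⟩, ⟨2, 1, 2, 4⟩⟩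

/-- ten times the basic chain minus the boundary and the degenerate part -/
def zeta : CL := csm 10 psiL ++ csm (-1) (bdL zL) ++ csm (-1) (opC thc [(1, k0L)])

/-- the same chain with equal terms collected -/
def zetaD : CL :=
  [(-5, [⟨0, 0, 0, 1⟩, ⟨0, 0, 1, -1⟩, ⟨0, 1, -1, 0⟩, ⟨0, 1, 0, -1⟩, ⟨0, 1, 0, 0⟩, ⟨1, -1, 0, 0⟩,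
      ⟨1, 0, 0, 0⟩]),
    (-5, [⟨0, 0, 0, 1⟩, ⟨0, 0, 1, -1⟩, ⟨0, 0, 1, 0⟩, ⟨0, 1, -1, 0⟩, ⟨1, -1, 0, 0⟩, ⟨1, 0, -1, 0⟩,
      ⟨1, 0, 0, 0⟩]),
    (-5, [⟨0, 0, 0, 1⟩, ⟨0, 0, 1, -1⟩, ⟨0, 1, -1, 0⟩, ⟨0, 1, 0, -1⟩, ⟨1, -1, 0, 0⟩, ⟨1, 0, 0, -1⟩,
      ⟨1, 0, 0, 0⟩]),
    (-5, [⟨0, 0, 0, 1⟩, ⟨0, 0, 1, -1⟩, ⟨0, 0, 1, 0⟩, ⟨0, 1, -1, 0⟩, ⟨0, 1, 0, 0⟩, ⟨1, -1, 0, 0⟩,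
      ⟨1, 0, 0, 0⟩]),
    (-5, [⟨0, 0, 0, 1⟩, ⟨0, 0, 1, -1⟩, ⟨0, 1, -1, 0⟩, ⟨1, -1, 0, 0⟩, ⟨1, 0, -1, 0⟩, ⟨1, 0, 0, -1⟩,
      ⟨1, 0, 0, 0⟩]),
    (1, [⟨0, 0, 1, -1⟩, ⟨0, 0, 1, 0⟩, ⟨0, 1, -1, 0⟩, ⟨0, 1, 0, -1⟩, ⟨0, 1, 0, 0⟩, ⟨1, -1, 0, 0⟩,
      ⟨1, 0, 0, -1⟩]),
    (-2, [⟨0, 0, 0, 1⟩, ⟨0, 0, 1, 0⟩, ⟨0, 1, -1, 0⟩, ⟨0, 1, 0, -1⟩, ⟨0, 1, 0, 0⟩, ⟨1, -1, 0, 0⟩,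
      ⟨1, 0, 0, -1⟩]),
    (-1, [⟨0, 0, 0, 1⟩, ⟨0, 0, 1, -1⟩, ⟨0, 0, 1, 0⟩, ⟨0, 1, 0, -1⟩, ⟨0, 1, 0, 0⟩, ⟨1, -1, 0, 0⟩,
      ⟨1, 0, 0, -1⟩]),
    (-2, [⟨0, 0, 0, 1⟩, ⟨0, 0, 1, -1⟩, ⟨0, 0, 1, 0⟩, ⟨0, 1, -1, 0⟩, ⟨0, 1, 0, -1⟩, ⟨1, -1, 0, 0⟩,
      ⟨1, 0, 0, -1⟩]),
    (2, [⟨0, 0, 1, -1⟩, ⟨0, 0, 1, 0⟩, ⟨0, 1, -1, 0⟩, ⟨0, 1, 0, -1⟩, ⟨0, 1, 0, 0⟩, ⟨1, -1, 0, 0⟩,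
      ⟨1, 0, 0, 0⟩]),
    (-2, [⟨0, 0, 0, 1⟩, ⟨0, 0, 1, -1⟩, ⟨0, 0, 1, 0⟩, ⟨0, 1, 0, -1⟩, ⟨0, 1, 0, 0⟩, ⟨1, -1, 0, 0⟩,
      ⟨1, 0, 0, 0⟩]),
    (1, [⟨0, 0, 1, -1⟩, ⟨0, 0, 1, 0⟩, ⟨0, 1, -1, 0⟩, ⟨0, 1, 0, -1⟩, ⟨0, 1, 0, 0⟩, ⟨1, 0, -1, 0⟩,
      ⟨1, 0, 0, 0⟩]),
    (-2, [⟨0, 0, 0, 1⟩, ⟨0, 0, 1, 0⟩, ⟨0, 1, -1, 0⟩, ⟨0, 1, 0, -1⟩, ⟨0, 1, 0, 0⟩, ⟨1, 0, -1, 0⟩,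
      ⟨1, 0, 0, 0⟩]),
    (-1, [⟨0, 0, 0, 1⟩, ⟨0, 0, 1, -1⟩, ⟨0, 0, 1, 0⟩, ⟨0, 1, 0, -1⟩, ⟨0, 1, 0, 0⟩, ⟨1, 0, -1, 0⟩,
      ⟨1, 0, 0, 0⟩]),
    (-2, [⟨0, 0, 0, 1⟩, ⟨0, 0, 1, -1⟩, ⟨0, 0, 1, 0⟩, ⟨0, 1, -1, 0⟩, ⟨0, 1, 0, -1⟩, ⟨1, 0, -1, 0⟩,
      ⟨1, 0, 0, 0⟩]),
    (2, [⟨0, 0, 1, -1⟩, ⟨0, 0, 1, 0⟩, ⟨0, 1, -1, 0⟩, ⟨0, 1, 0, -1⟩, ⟨1, -1, 0, 0⟩, ⟨1, 0, -1, 0⟩,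
      ⟨1, 0, 0, 0⟩]),
    (-1, [⟨0, 0, 0, 1⟩, ⟨0, 0, 1, -1⟩, ⟨0, 0, 1, 0⟩, ⟨0, 1, -1, 0⟩, ⟨0, 1, 0, -1⟩, ⟨1, -1, 0, 0⟩,
      ⟨1, 0, -1, 0⟩]),
    (-2, [⟨0, 0, 0, 1⟩, ⟨0, 0, 1, -1⟩, ⟨0, 0, 1, 0⟩, ⟨0, 1, 0, 0⟩, ⟨1, -1, 0, 0⟩, ⟨1, 0, -1, 0⟩,
      ⟨1, 0, 0, 0⟩]),
    (-2, [⟨0, 0, 0, 1⟩, ⟨0, 0, 1, -1⟩, ⟨0, 0, 1, 0⟩, ⟨0, 1, -1, 0⟩, ⟨0, 1, 0, 0⟩, ⟨1, -1, 0, 0⟩,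
      ⟨1, 0, -1, 0⟩]),
    (2, [⟨0, 0, 1, -1⟩, ⟨0, 0, 1, 0⟩, ⟨0, 1, -1, 0⟩, ⟨0, 1, 0, 0⟩, ⟨1, 0, -1, 0⟩, ⟨1, 0, 0, -1⟩,
      ⟨1, 0, 0, 0⟩]),
    (-1, [⟨0, 0, 0, 1⟩, ⟨0, 0, 1, 0⟩, ⟨0, 1, -1, 0⟩, ⟨0, 1, 0, 0⟩, ⟨1, 0, -1, 0⟩, ⟨1, 0, 0, -1⟩,
      ⟨1, 0, 0, 0⟩]),
    (-2, [⟨0, 0, 0, 1⟩, ⟨0, 0, 1, -1⟩, ⟨0, 0, 1, 0⟩, ⟨0, 1, -1, 0⟩, ⟨0, 1, 0, 0⟩, ⟨1, 0, 0, -1⟩,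
      ⟨1, 0, 0, 0⟩]),
    (-1, [⟨0, 0, 0, 1⟩, ⟨0, 0, 1, -1⟩, ⟨0, 0, 1, 0⟩, ⟨0, 1, -1, 0⟩, ⟨0, 1, 0, 0⟩, ⟨1, 0, -1, 0⟩,
      ⟨1, 0, 0, -1⟩]),
    (2, [⟨0, 0, 1, -1⟩, ⟨0, 0, 1, 0⟩, ⟨0, 1, 0, -1⟩, ⟨1, -1, 0, 0⟩, ⟨1, 0, -1, 0⟩, ⟨1, 0, 0, -1⟩,
      ⟨1, 0, 0, 0⟩]),
    (-1, [⟨0, 0, 0, 1⟩, ⟨0, 0, 1, 0⟩, ⟨0, 1, 0, -1⟩, ⟨1, -1, 0, 0⟩, ⟨1, 0, -1, 0⟩, ⟨1, 0, 0, -1⟩,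
      ⟨1, 0, 0, 0⟩]),
    (-2, [⟨0, 0, 0, 1⟩, ⟨0, 0, 1, -1⟩, ⟨0, 0, 1, 0⟩, ⟨0, 1, 0, -1⟩, ⟨1, -1, 0, 0⟩, ⟨1, 0, 0, -1⟩,
      ⟨1, 0, 0, 0⟩]),
    (-1, [⟨0, 0, 0, 1⟩, ⟨0, 0, 1, -1⟩, ⟨0, 0, 1, 0⟩, ⟨0, 1, 0, -1⟩, ⟨1, -1, 0, 0⟩, ⟨1, 0, -1, 0⟩,
      ⟨1, 0, 0, -1⟩]),
    (-1, [⟨0, 0, 0, 1⟩, ⟨0, 1, -1, 0⟩, ⟨0, 1, 0, -1⟩, ⟨0, 1, 0, 0⟩, ⟨1, -1, 0, 0⟩, ⟨1, 0, -1, 0⟩,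
      ⟨1, 0, 0, -1⟩]),
    (2, [⟨0, 0, 0, 1⟩, ⟨0, 0, 1, -1⟩, ⟨0, 1, 0, -1⟩, ⟨0, 1, 0, 0⟩, ⟨1, -1, 0, 0⟩, ⟨1, 0, -1, 0⟩,
      ⟨1, 0, 0, -1⟩]),
    (-1, [⟨0, 0, 0, 1⟩, ⟨0, 0, 1, -1⟩, ⟨0, 1, -1, 0⟩, ⟨0, 1, 0, -1⟩, ⟨0, 1, 0, 0⟩, ⟨1, 0, -1, 0⟩,
      ⟨1, 0, 0, -1⟩]),
    (-2, [⟨0, 0, 0, 1⟩, ⟨0, 0, 1, -1⟩, ⟨0, 1, -1, 0⟩, ⟨0, 1, 0, -1⟩, ⟨0, 1, 0, 0⟩, ⟨1, -1, 0, 0⟩,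
      ⟨1, 0, -1, 0⟩]),
    (1, [⟨0, 0, 1, -1⟩, ⟨0, 1, -1, 0⟩, ⟨0, 1, 0, -1⟩, ⟨0, 1, 0, 0⟩, ⟨1, -1, 0, 0⟩, ⟨1, 0, -1, 0⟩,
      ⟨1, 0, 0, 0⟩]),
    (-2, [⟨0, 0, 0, 1⟩, ⟨0, 1, -1, 0⟩, ⟨0, 1, 0, -1⟩, ⟨0, 1, 0, 0⟩, ⟨1, -1, 0, 0⟩, ⟨1, 0, -1, 0⟩,
      ⟨1, 0, 0, 0⟩]),
    (2, [⟨0, 0, 1, -1⟩, ⟨0, 1, -1, 0⟩, ⟨0, 1, 0, -1⟩, ⟨0, 1, 0, 0⟩, ⟨1, -1, 0, 0⟩, ⟨1, 0, 0, -1⟩,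
      ⟨1, 0, 0, 0⟩]),
    (-2, [⟨0, 0, 0, 1⟩, ⟨0, 0, 1, -1⟩, ⟨0, 1, -1, 0⟩, ⟨0, 1, 0, -1⟩, ⟨0, 1, 0, 0⟩, ⟨1, 0, 0, -1⟩,
      ⟨1, 0, 0, 0⟩]),
    (2, [⟨0, 0, 0, 1⟩, ⟨0, 1, -1, 0⟩, ⟨0, 1, 0, -1⟩, ⟨1, -1, 0, 0⟩, ⟨1, 0, -1, 0⟩, ⟨1, 0, 0, -1⟩,
      ⟨1, 0, 0, 0⟩]),
    (-2, [⟨0, 0, 0, 1⟩, ⟨0, 0, 1, -1⟩, ⟨0, 1, -1, 0⟩, ⟨0, 1, 0, -1⟩, ⟨1, 0, -1, 0⟩, ⟨1, 0, 0, -1⟩,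
      ⟨1, 0, 0, 0⟩]),
    (-2, [⟨0, 0, 1, -1⟩, ⟨0, 1, -1, 0⟩, ⟨0, 1, 0, 0⟩, ⟨1, -1, 0, 0⟩, ⟨1, 0, -1, 0⟩, ⟨1, 0, 0, -1⟩,
      ⟨1, 0, 0, 0⟩]),
    (1, [⟨0, 0, 0, 1⟩, ⟨0, 1, -1, 0⟩, ⟨0, 1, 0, 0⟩, ⟨1, -1, 0, 0⟩, ⟨1, 0, -1, 0⟩, ⟨1, 0, 0, -1⟩,
      ⟨1, 0, 0, 0⟩]),
    (-2, [⟨0, 0, 0, 1⟩, ⟨0, 0, 1, -1⟩, ⟨0, 1, 0, 0⟩, ⟨1, -1, 0, 0⟩, ⟨1, 0, -1, 0⟩, ⟨1, 0, 0, -1⟩,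
      ⟨1, 0, 0, 0⟩]),
    (-1, [⟨0, 0, 1, -1⟩, ⟨0, 1, 0, -1⟩, ⟨0, 1, 0, 0⟩, ⟨1, -1, 0, 0⟩, ⟨1, 0, -1, 0⟩, ⟨1, 0, 0, -1⟩,
      ⟨1, 0, 0, 0⟩]),
    (-1, [⟨0, 0, 0, 1⟩, ⟨0, 0, 1, -1⟩, ⟨0, 1, 0, -1⟩, ⟨0, 1, 0, 0⟩, ⟨1, 0, -1, 0⟩, ⟨1, 0, 0, -1⟩,
      ⟨1, 0, 0, 0⟩]),
    (1, [⟨0, 0, 0, 1⟩, ⟨0, 0, 1, 0⟩, ⟨0, 1, 0, -1⟩, ⟨0, 1, 0, 0⟩, ⟨1, -1, 0, 0⟩, ⟨1, 0, -1, 0⟩,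
      ⟨1, 0, 0, 0⟩]),
    (-1, [⟨0, 0, 0, 1⟩, ⟨0, 0, 1, 0⟩, ⟨0, 1, -1, 0⟩, ⟨0, 1, 0, -1⟩, ⟨0, 1, 0, 0⟩, ⟨1, -1, 0, 0⟩,
      ⟨1, 0, -1, 0⟩]),
    (1, [⟨0, 0, 1, 0⟩, ⟨0, 1, -1, 0⟩, ⟨0, 1, 0, -1⟩, ⟨0, 1, 0, 0⟩, ⟨1, -1, 0, 0⟩, ⟨1, 0, 0, -1⟩,
      ⟨1, 0, 0, 0⟩]),
    (-2, [⟨0, 0, 0, 1⟩, ⟨0, 0, 1, 0⟩, ⟨0, 1, -1, 0⟩, ⟨0, 1, 0, 0⟩, ⟨1, -1, 0, 0⟩, ⟨1, 0, 0, -1⟩,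
      ⟨1, 0, 0, 0⟩]),
    (-1, [⟨0, 0, 0, 1⟩, ⟨0, 0, 1, 0⟩, ⟨0, 1, -1, 0⟩, ⟨0, 1, 0, -1⟩, ⟨0, 1, 0, 0⟩, ⟨1, 0, 0, -1⟩,
      ⟨1, 0, 0, 0⟩]),
    (1, [⟨0, 0, 1, -1⟩, ⟨0, 0, 1, 0⟩, ⟨0, 1, 0, 0⟩, ⟨1, -1, 0, 0⟩, ⟨1, 0, -1, 0⟩, ⟨1, 0, 0, -1⟩,
      ⟨1, 0, 0, 0⟩]),
    (-1, [⟨0, 0, 1, -1⟩, ⟨0, 0, 1, 0⟩, ⟨0, 1, -1, 0⟩, ⟨0, 1, 0, 0⟩, ⟨1, -1, 0, 0⟩, ⟨1, 0, -1, 0⟩,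
      ⟨1, 0, 0, -1⟩]),
    (1, [⟨0, 0, 1, 0⟩, ⟨0, 1, -1, 0⟩, ⟨0, 1, 0, -1⟩, ⟨1, -1, 0, 0⟩, ⟨1, 0, -1, 0⟩, ⟨1, 0, 0, -1⟩,
      ⟨1, 0, 0, 0⟩]),
    (1, [⟨0, 0, 1, -1⟩, ⟨0, 0, 1, 0⟩, ⟨0, 1, -1, 0⟩, ⟨0, 1, 0, -1⟩, ⟨1, 0, -1, 0⟩, ⟨1, 0, 0, -1⟩,
      ⟨1, 0, 0, 0⟩]),
    (-2, [⟨0, 0, 0, 1⟩, ⟨0, 0, 1, 0⟩, ⟨0, 1, -1, 0⟩, ⟨1, -1, 0, 0⟩, ⟨1, 0, -1, 0⟩, ⟨1, 0, 0, -1⟩,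
      ⟨1, 0, 0, 0⟩]),
    (-2, [⟨0, 0, 0, 1⟩, ⟨0, 0, 1, -1⟩, ⟨0, 0, 1, 0⟩, ⟨0, 1, -1, 0⟩, ⟨1, -1, 0, 0⟩, ⟨1, 0, -1, 0⟩,
      ⟨1, 0, 0, -1⟩]),
    (-1, [⟨0, 0, 0, 1⟩, ⟨0, 0, 1, -1⟩, ⟨0, 0, 1, 0⟩, ⟨0, 1, -1, 0⟩, ⟨0, 1, 0, -1⟩, ⟨1, 0, 0, -1⟩,
      ⟨1, 0, 0, 0⟩]),
    (-1, [⟨0, 0, 0, 1⟩, ⟨0, 0, 1, -1⟩, ⟨0, 0, 1, 0⟩, ⟨0, 1, 0, 0⟩, ⟨1, -1, 0, 0⟩, ⟨1, 0, 0, -1⟩,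
      ⟨1, 0, 0, 0⟩])]

/-- automorphisms of `A₄` -/
def GA : List M4 := stabL qAm (pm minA)

/-- automorphisms of `D₄` -/
def GD : List M4 := stabL q1m (pm min1)

/-- automorphisms of the common facet of two domains of type `D₄` -/
def G33 : List M4 := stabL q33 (pm s33)

def chi33 (A : M4) : ℤ := if A.pb q1m = q1m then A.det else -A.det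

/-- the value of the cochain on the wheel -/
def m0 : GR := (GA.map fun A => (ipL (u0L.map A.app) zL, A)).filter fun p => p.1 != 0

/-- signed stabiliser of the wheel -/
def eps8 : GR :=
  [(-1, ⟨⟨0, 0, 0, 1⟩, ⟨0, 0, 1, 0⟩, ⟨0, 1, 0, 0⟩, ⟨1, 0, 0, 0⟩⟩),
    (1, ⟨⟨0, 1, 0, 0⟩, ⟨0, 0, 1, 0⟩, ⟨0, 0, 0, 1⟩, ⟨1, 0, 0, 0⟩⟩),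
    (1, ⟨⟨0, 0, 1, 0⟩, ⟨0, 0, 0, 1⟩, ⟨1, 0, 0, 0⟩, ⟨0, 1, 0, 0⟩⟩),
    (-1, ⟨⟨0, 0, 1, 0⟩, ⟨0, 1, 0, 0⟩, ⟨1, 0, 0, 0⟩, ⟨0, 0, 0, 1⟩⟩),
    (1, ⟨⟨0, 0, 0, 1⟩, ⟨1, 0, 0, 0⟩, ⟨0, 1, 0, 0⟩, ⟨0, 0, 1, 0⟩⟩),
    (-1, ⟨⟨0, 1, 0, 0⟩, ⟨1, 0, 0, 0⟩, ⟨0, 0, 0, 1⟩, ⟨0, 0, 1, 0⟩⟩),
    (-1, ⟨⟨1, 0, 0, 0⟩, ⟨0, 0, 0, 1⟩, ⟨0, 0, 1, 0⟩, ⟨0, 1, 0, 0⟩⟩),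
    (1, ⟨⟨1, 0, 0, 0⟩, ⟨0, 1, 0, 0⟩, ⟨0, 0, 1, 0⟩, ⟨0, 0, 0, 1⟩⟩)]

/-- the product `eD * eps8 * R5` -/
def m1 : GR :=
  [(-10, ⟨⟨0, 0, 0, 1⟩, ⟨0, 0, 1, 0⟩, ⟨0, 1, 0, 0⟩, ⟨1, 0, 0, 0⟩⟩),
    (-10, ⟨⟨0, 0, 1, 0⟩, ⟨0, 1, 0, 0⟩, ⟨1, 0, 0, 0⟩, ⟨-1, -1, -1, -1⟩⟩),
    (-10, ⟨⟨0, 1, 0, 0⟩, ⟨1, 0, 0, 0⟩, ⟨-1, -1, -1, -1⟩, ⟨0, 0, 0, 1⟩⟩),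
    (-10, ⟨⟨1, 0, 0, 0⟩, ⟨-1, -1, -1, -1⟩, ⟨0, 0, 0, 1⟩, ⟨0, 0, 1, 0⟩⟩),
    (-10, ⟨⟨1, 1, 1, 1⟩, ⟨0, 0, 0, -1⟩, ⟨0, 0, -1, 0⟩, ⟨0, -1, 0, 0⟩⟩),
    (4, ⟨⟨0, 1, 0, 0⟩, ⟨0, 0, 1, 0⟩, ⟨0, 0, 0, 1⟩, ⟨1, 0, 0, 0⟩⟩),
    (4, ⟨⟨1, 0, 0, 0⟩, ⟨0, 1, 0, 0⟩, ⟨0, 0, 1, 0⟩, ⟨-1, -1, -1, -1⟩⟩),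
    (4, ⟨⟨1, 1, 1, 1⟩, ⟨-1, 0, 0, 0⟩, ⟨0, -1, 0, 0⟩, ⟨0, 0, 0, -1⟩⟩),
    (4, ⟨⟨0, 0, 0, 1⟩, ⟨-1, -1, -1, -1⟩, ⟨1, 0, 0, 0⟩, ⟨0, 0, 1, 0⟩⟩),
    (4, ⟨⟨0, 0, 1, 0⟩, ⟨0, 0, 0, 1⟩, ⟨-1, -1, -1, -1⟩, ⟨0, 1, 0, 0⟩⟩),
    (2, ⟨⟨0, 0, 1, 0⟩, ⟨0, 0, 0, 1⟩, ⟨1, 0, 0, 0⟩, ⟨0, 1, 0, 0⟩⟩),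
    (2, ⟨⟨0, 1, 0, 0⟩, ⟨0, 0, 1, 0⟩, ⟨-1, -1, -1, -1⟩, ⟨1, 0, 0, 0⟩⟩),
    (2, ⟨⟨1, 0, 0, 0⟩, ⟨0, 1, 0, 0⟩, ⟨0, 0, 0, 1⟩, ⟨-1, -1, -1, -1⟩⟩),
    (2, ⟨⟨1, 1, 1, 1⟩, ⟨-1, 0, 0, 0⟩, ⟨0, 0, -1, 0⟩, ⟨0, 0, 0, -1⟩⟩),
    (2, ⟨⟨0, 0, 0, 1⟩, ⟨-1, -1, -1, -1⟩, ⟨0, 1, 0, 0⟩, ⟨0, 0, 1, 0⟩⟩),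
    (-4, ⟨⟨0, 0, 1, 0⟩, ⟨0, 1, 0, 0⟩, ⟨1, 0, 0, 0⟩, ⟨0, 0, 0, 1⟩⟩),
    (-4, ⟨⟨0, 1, 0, 0⟩, ⟨1, 0, 0, 0⟩, ⟨-1, -1, -1, -1⟩, ⟨0, 0, 1, 0⟩⟩),
    (-4, ⟨⟨1, 0, 0, 0⟩, ⟨-1, -1, -1, -1⟩, ⟨0, 0, 0, 1⟩, ⟨0, 1, 0, 0⟩⟩),
    (-4, ⟨⟨1, 1, 1, 1⟩, ⟨0, 0, 0, -1⟩, ⟨0, 0, -1, 0⟩, ⟨-1, 0, 0, 0⟩⟩),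
    (-4, ⟨⟨0, 0, 0, 1⟩, ⟨0, 0, 1, 0⟩, ⟨0, 1, 0, 0⟩, ⟨-1, -1, -1, -1⟩⟩),
    (4, ⟨⟨0, 0, 0, 1⟩, ⟨1, 0, 0, 0⟩, ⟨0, 1, 0, 0⟩, ⟨0, 0, 1, 0⟩⟩),
    (4, ⟨⟨0, 0, 1, 0⟩, ⟨-1, -1, -1, -1⟩, ⟨1, 0, 0, 0⟩, ⟨0, 1, 0, 0⟩⟩),
    (4, ⟨⟨0, 1, 0, 0⟩, ⟨0, 0, 0, 1⟩, ⟨-1, -1, -1, -1⟩, ⟨1, 0, 0, 0⟩⟩),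
    (4, ⟨⟨1, 0, 0, 0⟩, ⟨0, 0, 1, 0⟩, ⟨0, 0, 0, 1⟩, ⟨-1, -1, -1, -1⟩⟩),
    (4, ⟨⟨1, 1, 1, 1⟩, ⟨0, -1, 0, 0⟩, ⟨0, 0, -1, 0⟩, ⟨0, 0, 0, -1⟩⟩),
    (-2, ⟨⟨0, 1, 0, 0⟩, ⟨1, 0, 0, 0⟩, ⟨0, 0, 0, 1⟩, ⟨0, 0, 1, 0⟩⟩),
    (-2, ⟨⟨1, 0, 0, 0⟩, ⟨-1, -1, -1, -1⟩, ⟨0, 0, 1, 0⟩, ⟨0, 1, 0, 0⟩⟩),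
    (-2, ⟨⟨1, 1, 1, 1⟩, ⟨0, 0, 0, -1⟩, ⟨0, -1, 0, 0⟩, ⟨-1, 0, 0, 0⟩⟩),
    (-2, ⟨⟨0, 0, 0, 1⟩, ⟨0, 0, 1, 0⟩, ⟨1, 0, 0, 0⟩, ⟨-1, -1, -1, -1⟩⟩),
    (-2, ⟨⟨0, 0, 1, 0⟩, ⟨0, 1, 0, 0⟩, ⟨-1, -1, -1, -1⟩, ⟨0, 0, 0, 1⟩⟩),
    (-4, ⟨⟨1, 0, 0, 0⟩, ⟨0, 0, 0, 1⟩, ⟨0, 0, 1, 0⟩, ⟨0, 1, 0, 0⟩⟩),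
    (-4, ⟨⟨1, 1, 1, 1⟩, ⟨0, 0, -1, 0⟩, ⟨0, -1, 0, 0⟩, ⟨-1, 0, 0, 0⟩⟩),
    (-4, ⟨⟨0, 0, 0, 1⟩, ⟨0, 1, 0, 0⟩, ⟨1, 0, 0, 0⟩, ⟨-1, -1, -1, -1⟩⟩),
    (-4, ⟨⟨0, 0, 1, 0⟩, ⟨1, 0, 0, 0⟩, ⟨-1, -1, -1, -1⟩, ⟨0, 0, 0, 1⟩⟩),
    (-4, ⟨⟨0, 1, 0, 0⟩, ⟨-1, -1, -1, -1⟩, ⟨0, 0, 0, 1⟩, ⟨0, 0, 1, 0⟩⟩),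
    (10, ⟨⟨1, 0, 0, 0⟩, ⟨0, 1, 0, 0⟩, ⟨0, 0, 1, 0⟩, ⟨0, 0, 0, 1⟩⟩),
    (10, ⟨⟨1, 1, 1, 1⟩, ⟨-1, 0, 0, 0⟩, ⟨0, -1, 0, 0⟩, ⟨0, 0, -1, 0⟩⟩),
    (10, ⟨⟨0, 0, 0, 1⟩, ⟨-1, -1, -1, -1⟩, ⟨1, 0, 0, 0⟩, ⟨0, 1, 0, 0⟩⟩),
    (10, ⟨⟨0, 0, 1, 0⟩, ⟨0, 0, 0, 1⟩, ⟨-1, -1, -1, -1⟩, ⟨1, 0, 0, 0⟩⟩),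
    (10, ⟨⟨0, 1, 0, 0⟩, ⟨0, 0, 1, 0⟩, ⟨0, 0, 0, 1⟩, ⟨-1, -1, -1, -1⟩⟩),
    (2, ⟨⟨1, 1, 1, 1⟩, ⟨0, 0, -1, 0⟩, ⟨0, 0, 0, -1⟩, ⟨-1, 0, 0, 0⟩⟩),
    (2, ⟨⟨0, 0, 0, 1⟩, ⟨0, 1, 0, 0⟩, ⟨0, 0, 1, 0⟩, ⟨-1, -1, -1, -1⟩⟩),
    (2, ⟨⟨0, 0, 1, 0⟩, ⟨1, 0, 0, 0⟩, ⟨0, 1, 0, 0⟩, ⟨0, 0, 0, 1⟩⟩),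
    (2, ⟨⟨0, 1, 0, 0⟩, ⟨-1, -1, -1, -1⟩, ⟨1, 0, 0, 0⟩, ⟨0, 0, 1, 0⟩⟩),
    (2, ⟨⟨1, 0, 0, 0⟩, ⟨0, 0, 0, 1⟩, ⟨-1, -1, -1, -1⟩, ⟨0, 1, 0, 0⟩⟩),
    (4, ⟨⟨1, 1, 1, 1⟩, ⟨0, 0, 0, -1⟩, ⟨-1, 0, 0, 0⟩, ⟨0, -1, 0, 0⟩⟩),
    (4, ⟨⟨0, 0, 0, 1⟩, ⟨0, 0, 1, 0⟩, ⟨-1, -1, -1, -1⟩, ⟨1, 0, 0, 0⟩⟩),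
    (4, ⟨⟨0, 0, 1, 0⟩, ⟨0, 1, 0, 0⟩, ⟨0, 0, 0, 1⟩, ⟨-1, -1, -1, -1⟩⟩),
    (4, ⟨⟨0, 1, 0, 0⟩, ⟨1, 0, 0, 0⟩, ⟨0, 0, 1, 0⟩, ⟨0, 0, 0, 1⟩⟩),
    (4, ⟨⟨1, 0, 0, 0⟩, ⟨-1, -1, -1, -1⟩, ⟨0, 1, 0, 0⟩, ⟨0, 0, 1, 0⟩⟩),
    (-2, ⟨⟨1, 1, 1, 1⟩, ⟨0, -1, 0, 0⟩, ⟨-1, 0, 0, 0⟩, ⟨0, 0, 0, -1⟩⟩),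
    (-2, ⟨⟨0, 0, 0, 1⟩, ⟨1, 0, 0, 0⟩, ⟨-1, -1, -1, -1⟩, ⟨0, 0, 1, 0⟩⟩),
    (-2, ⟨⟨0, 0, 1, 0⟩, ⟨-1, -1, -1, -1⟩, ⟨0, 0, 0, 1⟩, ⟨0, 1, 0, 0⟩⟩),
    (-2, ⟨⟨0, 1, 0, 0⟩, ⟨0, 0, 0, 1⟩, ⟨0, 0, 1, 0⟩, ⟨1, 0, 0, 0⟩⟩),
    (-2, ⟨⟨1, 0, 0, 0⟩, ⟨0, 0, 1, 0⟩, ⟨0, 1, 0, 0⟩, ⟨-1, -1, -1, -1⟩⟩),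
    (-4, ⟨⟨1, 1, 1, 1⟩, ⟨-1, 0, 0, 0⟩, ⟨0, 0, 0, -1⟩, ⟨0, 0, -1, 0⟩⟩),
    (-4, ⟨⟨0, 0, 0, 1⟩, ⟨-1, -1, -1, -1⟩, ⟨0, 0, 1, 0⟩, ⟨0, 1, 0, 0⟩⟩),
    (-4, ⟨⟨0, 0, 1, 0⟩, ⟨0, 0, 0, 1⟩, ⟨0, 1, 0, 0⟩, ⟨1, 0, 0, 0⟩⟩),
    (-4, ⟨⟨0, 1, 0, 0⟩, ⟨0, 0, 1, 0⟩, ⟨1, 0, 0, 0⟩, ⟨-1, -1, -1, -1⟩⟩),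
    (-4, ⟨⟨1, 0, 0, 0⟩, ⟨0, 1, 0, 0⟩, ⟨-1, -1, -1, -1⟩, ⟨0, 0, 0, 1⟩⟩),
    (2, ⟨⟨0, 1, 0, 0⟩, ⟨-1, -1, -1, -1⟩, ⟨0, 0, 1, 0⟩, ⟨0, 0, 0, 1⟩⟩),
    (2, ⟨⟨1, 0, 0, 0⟩, ⟨0, 0, 0, 1⟩, ⟨0, 1, 0, 0⟩, ⟨0, 0, 1, 0⟩⟩),
    (2, ⟨⟨1, 1, 1, 1⟩, ⟨0, 0, -1, 0⟩, ⟨-1, 0, 0, 0⟩, ⟨0, -1, 0, 0⟩⟩),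
    (2, ⟨⟨0, 0, 0, 1⟩, ⟨0, 1, 0, 0⟩, ⟨-1, -1, -1, -1⟩, ⟨1, 0, 0, 0⟩⟩),
    (2, ⟨⟨0, 0, 1, 0⟩, ⟨1, 0, 0, 0⟩, ⟨0, 0, 0, 1⟩, ⟨-1, -1, -1, -1⟩⟩),
    (4, ⟨⟨0, 0, 1, 0⟩, ⟨-1, -1, -1, -1⟩, ⟨0, 0, 0, 1⟩, ⟨1, 0, 0, 0⟩⟩),
    (4, ⟨⟨0, 1, 0, 0⟩, ⟨0, 0, 0, 1⟩, ⟨0, 0, 1, 0⟩, ⟨-1, -1, -1, -1⟩⟩),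
    (4, ⟨⟨1, 0, 0, 0⟩, ⟨0, 0, 1, 0⟩, ⟨0, 1, 0, 0⟩, ⟨0, 0, 0, 1⟩⟩),
    (4, ⟨⟨1, 1, 1, 1⟩, ⟨0, -1, 0, 0⟩, ⟨-1, 0, 0, 0⟩, ⟨0, 0, -1, 0⟩⟩),
    (4, ⟨⟨0, 0, 0, 1⟩, ⟨1, 0, 0, 0⟩, ⟨-1, -1, -1, -1⟩, ⟨0, 1, 0, 0⟩⟩),
    (-2, ⟨⟨0, 0, 1, 0⟩, ⟨-1, -1, -1, -1⟩, ⟨0, 1, 0, 0⟩, ⟨1, 0, 0, 0⟩⟩),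
    (-2, ⟨⟨0, 1, 0, 0⟩, ⟨0, 0, 0, 1⟩, ⟨1, 0, 0, 0⟩, ⟨-1, -1, -1, -1⟩⟩),
    (-2, ⟨⟨1, 0, 0, 0⟩, ⟨0, 0, 1, 0⟩, ⟨-1, -1, -1, -1⟩, ⟨0, 0, 0, 1⟩⟩),
    (-2, ⟨⟨1, 1, 1, 1⟩, ⟨0, -1, 0, 0⟩, ⟨0, 0, 0, -1⟩, ⟨0, 0, -1, 0⟩⟩),
    (-2, ⟨⟨0, 0, 0, 1⟩, ⟨1, 0, 0, 0⟩, ⟨0, 0, 1, 0⟩, ⟨0, 1, 0, 0⟩⟩),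
    (-4, ⟨⟨0, 1, 0, 0⟩, ⟨-1, -1, -1, -1⟩, ⟨1, 0, 0, 0⟩, ⟨0, 0, 0, 1⟩⟩),
    (-4, ⟨⟨1, 0, 0, 0⟩, ⟨0, 0, 0, 1⟩, ⟨-1, -1, -1, -1⟩, ⟨0, 0, 1, 0⟩⟩),
    (-4, ⟨⟨1, 1, 1, 1⟩, ⟨0, 0, -1, 0⟩, ⟨0, 0, 0, -1⟩, ⟨0, -1, 0, 0⟩⟩),
    (-4, ⟨⟨0, 0, 0, 1⟩, ⟨0, 1, 0, 0⟩, ⟨0, 0, 1, 0⟩, ⟨1, 0, 0, 0⟩⟩),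
    (-4, ⟨⟨0, 0, 1, 0⟩, ⟨1, 0, 0, 0⟩, ⟨0, 1, 0, 0⟩, ⟨-1, -1, -1, -1⟩⟩),
    (2, ⟨⟨1, 0, 0, 0⟩, ⟨0, 1, 0, 0⟩, ⟨-1, -1, -1, -1⟩, ⟨0, 0, 1, 0⟩⟩),
    (2, ⟨⟨1, 1, 1, 1⟩, ⟨-1, 0, 0, 0⟩, ⟨0, 0, 0, -1⟩, ⟨0, -1, 0, 0⟩⟩),
    (2, ⟨⟨0, 0, 0, 1⟩, ⟨-1, -1, -1, -1⟩, ⟨0, 0, 1, 0⟩, ⟨1, 0, 0, 0⟩⟩),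
    (2, ⟨⟨0, 0, 1, 0⟩, ⟨0, 0, 0, 1⟩, ⟨0, 1, 0, 0⟩, ⟨-1, -1, -1, -1⟩⟩),
    (2, ⟨⟨0, 1, 0, 0⟩, ⟨0, 0, 1, 0⟩, ⟨1, 0, 0, 0⟩, ⟨0, 0, 0, 1⟩⟩),
    (4, ⟨⟨0, 1, 0, 0⟩, ⟨0, 0, 1, 0⟩, ⟨-1, -1, -1, -1⟩, ⟨0, 0, 0, 1⟩⟩),
    (4, ⟨⟨1, 0, 0, 0⟩, ⟨0, 1, 0, 0⟩, ⟨0, 0, 0, 1⟩, ⟨0, 0, 1, 0⟩⟩),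
    (4, ⟨⟨1, 1, 1, 1⟩, ⟨-1, 0, 0, 0⟩, ⟨0, 0, -1, 0⟩, ⟨0, -1, 0, 0⟩⟩),
    (4, ⟨⟨0, 0, 0, 1⟩, ⟨-1, -1, -1, -1⟩, ⟨0, 1, 0, 0⟩, ⟨1, 0, 0, 0⟩⟩),
    (4, ⟨⟨0, 0, 1, 0⟩, ⟨0, 0, 0, 1⟩, ⟨1, 0, 0, 0⟩, ⟨-1, -1, -1, -1⟩⟩),
    (-2, ⟨⟨0, 0, 0, 1⟩, ⟨0, 0, 1, 0⟩, ⟨-1, -1, -1, -1⟩, ⟨0, 1, 0, 0⟩⟩),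
    (-2, ⟨⟨0, 0, 1, 0⟩, ⟨0, 1, 0, 0⟩, ⟨0, 0, 0, 1⟩, ⟨1, 0, 0, 0⟩⟩),
    (-2, ⟨⟨0, 1, 0, 0⟩, ⟨1, 0, 0, 0⟩, ⟨0, 0, 1, 0⟩, ⟨-1, -1, -1, -1⟩⟩),
    (-2, ⟨⟨1, 0, 0, 0⟩, ⟨-1, -1, -1, -1⟩, ⟨0, 1, 0, 0⟩, ⟨0, 0, 0, 1⟩⟩),
    (-2, ⟨⟨1, 1, 1, 1⟩, ⟨0, 0, 0, -1⟩, ⟨-1, 0, 0, 0⟩, ⟨0, 0, -1, 0⟩⟩),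
    (-4, ⟨⟨0, 0, 1, 0⟩, ⟨0, 1, 0, 0⟩, ⟨-1, -1, -1, -1⟩, ⟨1, 0, 0, 0⟩⟩),
    (-4, ⟨⟨0, 1, 0, 0⟩, ⟨1, 0, 0, 0⟩, ⟨0, 0, 0, 1⟩, ⟨-1, -1, -1, -1⟩⟩),
    (-4, ⟨⟨1, 0, 0, 0⟩, ⟨-1, -1, -1, -1⟩, ⟨0, 0, 1, 0⟩, ⟨0, 0, 0, 1⟩⟩),
    (-4, ⟨⟨1, 1, 1, 1⟩, ⟨0, 0, 0, -1⟩, ⟨0, -1, 0, 0⟩, ⟨0, 0, -1, 0⟩⟩),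
    (-4, ⟨⟨0, 0, 0, 1⟩, ⟨0, 0, 1, 0⟩, ⟨1, 0, 0, 0⟩, ⟨0, 1, 0, 0⟩⟩),
    (2, ⟨⟨0, 0, 0, 1⟩, ⟨1, 0, 0, 0⟩, ⟨0, 1, 0, 0⟩, ⟨-1, -1, -1, -1⟩⟩),
    (2, ⟨⟨0, 0, 1, 0⟩, ⟨-1, -1, -1, -1⟩, ⟨1, 0, 0, 0⟩, ⟨0, 0, 0, 1⟩⟩),
    (2, ⟨⟨0, 1, 0, 0⟩, ⟨0, 0, 0, 1⟩, ⟨-1, -1, -1, -1⟩, ⟨0, 0, 1, 0⟩⟩),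
    (2, ⟨⟨1, 0, 0, 0⟩, ⟨0, 0, 1, 0⟩, ⟨0, 0, 0, 1⟩, ⟨0, 1, 0, 0⟩⟩),
    (2, ⟨⟨1, 1, 1, 1⟩, ⟨0, -1, 0, 0⟩, ⟨0, 0, -1, 0⟩, ⟨-1, 0, 0, 0⟩⟩),
    (-2, ⟨⟨1, 0, 0, 0⟩, ⟨0, 0, 0, 1⟩, ⟨0, 0, 1, 0⟩, ⟨-1, -1, -1, -1⟩⟩),
    (-2, ⟨⟨1, 1, 1, 1⟩, ⟨0, 0, -1, 0⟩, ⟨0, -1, 0, 0⟩, ⟨0, 0, 0, -1⟩⟩),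
    (-2, ⟨⟨0, 0, 0, 1⟩, ⟨0, 1, 0, 0⟩, ⟨1, 0, 0, 0⟩, ⟨0, 0, 1, 0⟩⟩),
    (-2, ⟨⟨0, 0, 1, 0⟩, ⟨1, 0, 0, 0⟩, ⟨-1, -1, -1, -1⟩, ⟨0, 1, 0, 0⟩⟩),
    (-2, ⟨⟨0, 1, 0, 0⟩, ⟨-1, -1, -1, -1⟩, ⟨0, 0, 0, 1⟩, ⟨1, 0, 0, 0⟩⟩)]

def cl33 : List (ℤ × V4) :=
  [(1, ⟨-4, 6, -4, 1⟩), (-6, ⟨-2, 0, 2, -1⟩), (4, ⟨-2, 3, -2, 1⟩), (4, ⟨-1, 0, -1, 1⟩),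
    (-12, ⟨-1, 0, 1, -1⟩), (6, ⟨0, -2, 0, 1⟩), (36, ⟨0, 0, 0, -1⟩), (-24, ⟨0, 1, 0, 1⟩),
    (-12, ⟨1, 0, -1, -1⟩), (4, ⟨1, 0, 1, 1⟩), (-6, ⟨2, 0, -2, -1⟩), (4, ⟨2, 3, 2, 1⟩),
    (1, ⟨4, 6, 4, 1⟩)]

def clD : List (ℤ × V4) :=
  [(1, ⟨-4, 6, -4, 1⟩), (-24, ⟨-2, 0, 2, -1⟩), (36, ⟨-2, 2, -2, 1⟩), (16, ⟨-2, 3, -2, 1⟩),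
    (64, ⟨-1, 0, -1, 1⟩), (-192, ⟨-1, 0, 1, -1⟩), (90, ⟨0, -2, 0, 1⟩), (96, ⟨0, -1, 0, 1⟩),
    (-144, ⟨0, 0, 0, -1⟩), (144, ⟨0, 0, 0, 1⟩), (12, ⟨0, 2, 0, 1⟩), (-192, ⟨1, 0, -1, -1⟩),
    (64, ⟨1, 0, 1, 1⟩), (-24, ⟨2, 0, -2, -1⟩), (36, ⟨2, 2, 2, 1⟩), (16, ⟨2, 3, 2, 1⟩),
    (1, ⟨4, 6, 4, 1⟩)]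

/-- `hT * r³` is a transvection -/
def hT : M4 := ⟨⟨1, 0, 0, 1⟩, ⟨-1, -1, -1, -1⟩, ⟨1, 0, 0, 0⟩, ⟨0, 1, 0, 0⟩⟩

/-- `hR1 * r³ * hR2 * r³` is a reflection -/
def hR1 : M4 := ⟨⟨0, 0, 0, 1⟩, ⟨0, -1, -1, -1⟩, ⟨0, 0, 1, 1⟩, ⟨1, 1, 0, 0⟩⟩

/-- second factor -/
def hR2 : M4 := ⟨⟨0, 0, 0, -1⟩, ⟨-1, -1, 0, 0⟩, ⟨0, 0, -1, -1⟩, ⟨0, 1, 1, 1⟩⟩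

/-- the image of the shuffle operator in the dihedral eigenspace -/
noncomputable def Rsp (sh : GR) (d : ℕ) : Submodule ℚ (Pn 4) :=
  (Hd 4 d).map (opR eD ∘ₗ opR sh)

/-- the character of the facet stabiliser -/
noncomputable def chi33M (A : Mx 4) : ℚ :=
  if pb A q1m.toM = q1m.toM then (A.det : ℚ) else -(A.det : ℚ)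

noncomputable def I33 (d : ℕ) : Submodule ℚ (Pn 4) := Iso (G33.map M4.toM) chi33M d

noncomputable def ID4 (d : ℕ) : Submodule ℚ (Pn 4) :=
  Iso (GD.map M4.toM) (fun A => (A.det : ℚ)) d

end Pool.Agent.MP_cbe134_nt.V
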