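import Pool.Agent.MP_cbe134_nt.VD4

/- Data for the lower bound on the double shuffle space in depth four. -/

namespace Pool.Agent.MP_cbe134_nt.V

/-- shuffles of type (2,2) of the variables `t` -/
def shY2 : GR :=
  [(1, ⟨⟨1, 0, 0, 0⟩, ⟨0, 1, 0, 0⟩, ⟨0, 0, 1, 0⟩, ⟨0, 0, 0, 1⟩⟩),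
    (1, ⟨⟨1, 0, 0, 0⟩, ⟨0, 0, 1, 0⟩, ⟨0, 1, 0, 0⟩, ⟨0, 0, 0, 1⟩⟩),
    (1, ⟨⟨1, 0, 0, 0⟩, ⟨0, 0, 0, 1⟩, ⟨0, 1, 0, 0⟩, ⟨0, 0, 1, 0⟩⟩),
    (1, ⟨⟨0, 1, 0, 0⟩, ⟨0, 0, 1, 0⟩, ⟨1, 0, 0, 0⟩, ⟨0, 0, 0, 1⟩⟩),
    (1, ⟨⟨0, 1, 0, 0⟩, ⟨0, 0, 0, 1⟩, ⟨1, 0, 0, 0⟩, ⟨0, 0, 1, 0⟩⟩),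
    (1, ⟨⟨0, 0, 1, 0⟩, ⟨0, 0, 0, 1⟩, ⟨1, 0, 0, 0⟩, ⟨0, 1, 0, 0⟩⟩)]

/-- shuffles of type (2,2) of the variables `s` -/
def shX2 : GR :=
  [(1, ⟨⟨1, 0, 0, 0⟩, ⟨0, 1, 0, 0⟩, ⟨0, 0, 1, 0⟩, ⟨0, 0, 0, 1⟩⟩),
    (1, ⟨⟨1, 0, 0, 0⟩, ⟨0, 1, 1, 0⟩, ⟨0, 0, -1, 0⟩, ⟨0, 0, 1, 1⟩⟩),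
    (1, ⟨⟨1, 0, 0, 0⟩, ⟨0, 1, 1, 1⟩, ⟨0, 0, -1, -1⟩, ⟨0, 0, 1, 0⟩⟩),
    (1, ⟨⟨1, 1, 0, 0⟩, ⟨0, 0, 1, 0⟩, ⟨0, -1, -1, 0⟩, ⟨0, 1, 1, 1⟩⟩),
    (1, ⟨⟨1, 1, 0, 0⟩, ⟨0, 0, 1, 1⟩, ⟨0, -1, -1, -1⟩, ⟨0, 1, 1, 0⟩⟩),
    (1, ⟨⟨1, 1, 1, 0⟩, ⟨0, 0, 0, 1⟩, ⟨0, -1, -1, -1⟩, ⟨0, 1, 0, 0⟩⟩)]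

/-- the complementary idempotent, times 200, for the variables `t` -/
def eEy : GR :=
  [(10, ⟨⟨1, 0, 0, 0⟩, ⟨0, 1, 0, 0⟩, ⟨0, 0, 1, 0⟩, ⟨0, 0, 0, 1⟩⟩),
    (-10, ⟨⟨0, 0, 0, 1⟩, ⟨0, 0, 1, 0⟩, ⟨0, 1, 0, 0⟩, ⟨1, 0, 0, 0⟩⟩),
    (10, ⟨⟨0, 0, 0, 1⟩, ⟨-1, -1, -1, -1⟩, ⟨1, 0, 0, 0⟩, ⟨0, 1, 0, 0⟩⟩),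
    (-10, ⟨⟨1, 0, 0, 0⟩, ⟨-1, -1, -1, -1⟩, ⟨0, 0, 0, 1⟩, ⟨0, 0, 1, 0⟩⟩),
    (10, ⟨⟨0, 1, 0, 0⟩, ⟨0, 0, 1, 0⟩, ⟨0, 0, 0, 1⟩, ⟨-1, -1, -1, -1⟩⟩),
    (-10, ⟨⟨0, 0, 1, 0⟩, ⟨0, 1, 0, 0⟩, ⟨1, 0, 0, 0⟩, ⟨-1, -1, -1, -1⟩⟩),
    (10, ⟨⟨1, 1, 1, 1⟩, ⟨-1, 0, 0, 0⟩, ⟨0, -1, 0, 0⟩, ⟨0, 0, -1, 0⟩⟩),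
    (-10, ⟨⟨1, 1, 1, 1⟩, ⟨0, 0, 0, -1⟩, ⟨0, 0, -1, 0⟩, ⟨0, -1, 0, 0⟩⟩),
    (10, ⟨⟨0, 0, 1, 0⟩, ⟨0, 0, 0, 1⟩, ⟨-1, -1, -1, -1⟩, ⟨1, 0, 0, 0⟩⟩),
    (-10, ⟨⟨0, 1, 0, 0⟩, ⟨1, 0, 0, 0⟩, ⟨-1, -1, -1, -1⟩, ⟨0, 0, 0, 1⟩⟩),
    (4, ⟨⟨1, 0, 0, 0⟩, ⟨0, 0, 0, 1⟩, ⟨0, 0, 1, 0⟩, ⟨0, 1, 0, 0⟩⟩),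
    (-4, ⟨⟨0, 0, 0, 1⟩, ⟨1, 0, 0, 0⟩, ⟨0, 1, 0, 0⟩, ⟨0, 0, 1, 0⟩⟩),
    (4, ⟨⟨0, 0, 0, 1⟩, ⟨0, 1, 0, 0⟩, ⟨1, 0, 0, 0⟩, ⟨-1, -1, -1, -1⟩⟩),
    (-4, ⟨⟨1, 0, 0, 0⟩, ⟨0, 0, 1, 0⟩, ⟨0, 0, 0, 1⟩, ⟨-1, -1, -1, -1⟩⟩),
    (4, ⟨⟨0, 1, 0, 0⟩, ⟨-1, -1, -1, -1⟩, ⟨0, 0, 0, 1⟩, ⟨0, 0, 1, 0⟩⟩),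
    (-4, ⟨⟨0, 0, 1, 0⟩, ⟨-1, -1, -1, -1⟩, ⟨1, 0, 0, 0⟩, ⟨0, 1, 0, 0⟩⟩),
    (4, ⟨⟨1, 1, 1, 1⟩, ⟨0, 0, -1, 0⟩, ⟨0, -1, 0, 0⟩, ⟨-1, 0, 0, 0⟩⟩),
    (-4, ⟨⟨1, 1, 1, 1⟩, ⟨0, -1, 0, 0⟩, ⟨0, 0, -1, 0⟩, ⟨0, 0, 0, -1⟩⟩),
    (4, ⟨⟨0, 0, 1, 0⟩, ⟨1, 0, 0, 0⟩, ⟨-1, -1, -1, -1⟩, ⟨0, 0, 0, 1⟩⟩),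
    (-4, ⟨⟨0, 1, 0, 0⟩, ⟨0, 0, 0, 1⟩, ⟨-1, -1, -1, -1⟩, ⟨1, 0, 0, 0⟩⟩),
    (2, ⟨⟨0, 0, 0, 1⟩, ⟨1, 0, 0, 0⟩, ⟨0, 0, 1, 0⟩, ⟨0, 1, 0, 0⟩⟩),
    (-2, ⟨⟨1, 0, 0, 0⟩, ⟨0, 0, 0, 1⟩, ⟨0, 1, 0, 0⟩, ⟨0, 0, 1, 0⟩⟩),
    (2, ⟨⟨0, 1, 0, 0⟩, ⟨0, 0, 0, 1⟩, ⟨1, 0, 0, 0⟩, ⟨-1, -1, -1, -1⟩⟩),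
    (-2, ⟨⟨0, 0, 1, 0⟩, ⟨1, 0, 0, 0⟩, ⟨0, 0, 0, 1⟩, ⟨-1, -1, -1, -1⟩⟩),
    (2, ⟨⟨1, 1, 1, 1⟩, ⟨0, -1, 0, 0⟩, ⟨0, 0, 0, -1⟩, ⟨0, 0, -1, 0⟩⟩),
    (-2, ⟨⟨1, 1, 1, 1⟩, ⟨0, 0, -1, 0⟩, ⟨-1, 0, 0, 0⟩, ⟨0, -1, 0, 0⟩⟩),
    (2, ⟨⟨0, 0, 1, 0⟩, ⟨-1, -1, -1, -1⟩, ⟨0, 1, 0, 0⟩, ⟨1, 0, 0, 0⟩⟩),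
    (-2, ⟨⟨0, 1, 0, 0⟩, ⟨-1, -1, -1, -1⟩, ⟨0, 0, 1, 0⟩, ⟨0, 0, 0, 1⟩⟩),
    (2, ⟨⟨1, 0, 0, 0⟩, ⟨0, 0, 1, 0⟩, ⟨-1, -1, -1, -1⟩, ⟨0, 0, 0, 1⟩⟩),
    (-2, ⟨⟨0, 0, 0, 1⟩, ⟨0, 1, 0, 0⟩, ⟨-1, -1, -1, -1⟩, ⟨1, 0, 0, 0⟩⟩),
    (4, ⟨⟨0, 0, 0, 1⟩, ⟨0, 0, 1, 0⟩, ⟨1, 0, 0, 0⟩, ⟨0, 1, 0, 0⟩⟩),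
    (-4, ⟨⟨1, 0, 0, 0⟩, ⟨0, 1, 0, 0⟩, ⟨0, 0, 0, 1⟩, ⟨0, 0, 1, 0⟩⟩),
    (4, ⟨⟨0, 1, 0, 0⟩, ⟨1, 0, 0, 0⟩, ⟨0, 0, 0, 1⟩, ⟨-1, -1, -1, -1⟩⟩),
    (-4, ⟨⟨0, 0, 1, 0⟩, ⟨0, 0, 0, 1⟩, ⟨1, 0, 0, 0⟩, ⟨-1, -1, -1, -1⟩⟩),
    (4, ⟨⟨1, 1, 1, 1⟩, ⟨0, 0, 0, -1⟩, ⟨0, -1, 0, 0⟩, ⟨0, 0, -1, 0⟩⟩),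
    (-4, ⟨⟨1, 1, 1, 1⟩, ⟨-1, 0, 0, 0⟩, ⟨0, 0, -1, 0⟩, ⟨0, -1, 0, 0⟩⟩),
    (4, ⟨⟨0, 0, 1, 0⟩, ⟨0, 1, 0, 0⟩, ⟨-1, -1, -1, -1⟩, ⟨1, 0, 0, 0⟩⟩),
    (-4, ⟨⟨0, 1, 0, 0⟩, ⟨0, 0, 1, 0⟩, ⟨-1, -1, -1, -1⟩, ⟨0, 0, 0, 1⟩⟩),
    (4, ⟨⟨1, 0, 0, 0⟩, ⟨-1, -1, -1, -1⟩, ⟨0, 0, 1, 0⟩, ⟨0, 0, 0, 1⟩⟩),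
    (-4, ⟨⟨0, 0, 0, 1⟩, ⟨-1, -1, -1, -1⟩, ⟨0, 1, 0, 0⟩, ⟨1, 0, 0, 0⟩⟩),
    (-4, ⟨⟨0, 1, 0, 0⟩, ⟨0, 0, 1, 0⟩, ⟨0, 0, 0, 1⟩, ⟨1, 0, 0, 0⟩⟩),
    (4, ⟨⟨0, 0, 1, 0⟩, ⟨0, 1, 0, 0⟩, ⟨1, 0, 0, 0⟩, ⟨0, 0, 0, 1⟩⟩),
    (-4, ⟨⟨1, 1, 1, 1⟩, ⟨-1, 0, 0, 0⟩, ⟨0, -1, 0, 0⟩, ⟨0, 0, 0, -1⟩⟩),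
    (4, ⟨⟨1, 1, 1, 1⟩, ⟨0, 0, 0, -1⟩, ⟨0, 0, -1, 0⟩, ⟨-1, 0, 0, 0⟩⟩),
    (-4, ⟨⟨0, 0, 1, 0⟩, ⟨0, 0, 0, 1⟩, ⟨-1, -1, -1, -1⟩, ⟨0, 1, 0, 0⟩⟩),
    (4, ⟨⟨0, 1, 0, 0⟩, ⟨1, 0, 0, 0⟩, ⟨-1, -1, -1, -1⟩, ⟨0, 0, 1, 0⟩⟩),
    (-4, ⟨⟨1, 0, 0, 0⟩, ⟨0, 1, 0, 0⟩, ⟨0, 0, 1, 0⟩, ⟨-1, -1, -1, -1⟩⟩),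
    (4, ⟨⟨0, 0, 0, 1⟩, ⟨0, 0, 1, 0⟩, ⟨0, 1, 0, 0⟩, ⟨-1, -1, -1, -1⟩⟩),
    (-4, ⟨⟨0, 0, 0, 1⟩, ⟨-1, -1, -1, -1⟩, ⟨1, 0, 0, 0⟩, ⟨0, 0, 1, 0⟩⟩),
    (4, ⟨⟨1, 0, 0, 0⟩, ⟨-1, -1, -1, -1⟩, ⟨0, 0, 0, 1⟩, ⟨0, 1, 0, 0⟩⟩),
    (-2, ⟨⟨0, 1, 0, 0⟩, ⟨0, 0, 1, 0⟩, ⟨1, 0, 0, 0⟩, ⟨0, 0, 0, 1⟩⟩),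
    (2, ⟨⟨0, 0, 1, 0⟩, ⟨0, 1, 0, 0⟩, ⟨0, 0, 0, 1⟩, ⟨1, 0, 0, 0⟩⟩),
    (-2, ⟨⟨1, 1, 1, 1⟩, ⟨-1, 0, 0, 0⟩, ⟨0, 0, 0, -1⟩, ⟨0, -1, 0, 0⟩⟩),
    (2, ⟨⟨1, 1, 1, 1⟩, ⟨0, 0, 0, -1⟩, ⟨-1, 0, 0, 0⟩, ⟨0, 0, -1, 0⟩⟩),
    (-2, ⟨⟨0, 0, 1, 0⟩, ⟨0, 0, 0, 1⟩, ⟨0, 1, 0, 0⟩, ⟨-1, -1, -1, -1⟩⟩),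
    (2, ⟨⟨0, 1, 0, 0⟩, ⟨1, 0, 0, 0⟩, ⟨0, 0, 1, 0⟩, ⟨-1, -1, -1, -1⟩⟩),
    (-2, ⟨⟨1, 0, 0, 0⟩, ⟨0, 1, 0, 0⟩, ⟨-1, -1, -1, -1⟩, ⟨0, 0, 1, 0⟩⟩),
    (2, ⟨⟨0, 0, 0, 1⟩, ⟨0, 0, 1, 0⟩, ⟨-1, -1, -1, -1⟩, ⟨0, 1, 0, 0⟩⟩),
    (-2, ⟨⟨0, 0, 0, 1⟩, ⟨-1, -1, -1, -1⟩, ⟨0, 0, 1, 0⟩, ⟨1, 0, 0, 0⟩⟩),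
    (2, ⟨⟨1, 0, 0, 0⟩, ⟨-1, -1, -1, -1⟩, ⟨0, 1, 0, 0⟩, ⟨0, 0, 0, 1⟩⟩),
    (-4, ⟨⟨0, 1, 0, 0⟩, ⟨1, 0, 0, 0⟩, ⟨0, 0, 1, 0⟩, ⟨0, 0, 0, 1⟩⟩),
    (4, ⟨⟨0, 0, 1, 0⟩, ⟨0, 0, 0, 1⟩, ⟨0, 1, 0, 0⟩, ⟨1, 0, 0, 0⟩⟩),
    (-4, ⟨⟨1, 1, 1, 1⟩, ⟨0, 0, 0, -1⟩, ⟨-1, 0, 0, 0⟩, ⟨0, -1, 0, 0⟩⟩),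
    (4, ⟨⟨1, 1, 1, 1⟩, ⟨-1, 0, 0, 0⟩, ⟨0, 0, 0, -1⟩, ⟨0, 0, -1, 0⟩⟩),
    (-4, ⟨⟨0, 0, 1, 0⟩, ⟨0, 1, 0, 0⟩, ⟨0, 0, 0, 1⟩, ⟨-1, -1, -1, -1⟩⟩),
    (4, ⟨⟨0, 1, 0, 0⟩, ⟨0, 0, 1, 0⟩, ⟨1, 0, 0, 0⟩, ⟨-1, -1, -1, -1⟩⟩),
    (-4, ⟨⟨1, 0, 0, 0⟩, ⟨-1, -1, -1, -1⟩, ⟨0, 1, 0, 0⟩, ⟨0, 0, 1, 0⟩⟩),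
    (4, ⟨⟨0, 0, 0, 1⟩, ⟨-1, -1, -1, -1⟩, ⟨0, 0, 1, 0⟩, ⟨0, 1, 0, 0⟩⟩),
    (-4, ⟨⟨0, 0, 0, 1⟩, ⟨0, 0, 1, 0⟩, ⟨-1, -1, -1, -1⟩, ⟨1, 0, 0, 0⟩⟩),
    (4, ⟨⟨1, 0, 0, 0⟩, ⟨0, 1, 0, 0⟩, ⟨-1, -1, -1, -1⟩, ⟨0, 0, 0, 1⟩⟩),
    (-2, ⟨⟨1, 1, 1, 1⟩, ⟨0, -1, 0, 0⟩, ⟨0, 0, -1, 0⟩, ⟨-1, 0, 0, 0⟩⟩),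
    (2, ⟨⟨1, 1, 1, 1⟩, ⟨0, 0, -1, 0⟩, ⟨0, -1, 0, 0⟩, ⟨0, 0, 0, -1⟩⟩),
    (-2, ⟨⟨0, 0, 1, 0⟩, ⟨-1, -1, -1, -1⟩, ⟨1, 0, 0, 0⟩, ⟨0, 0, 0, 1⟩⟩),
    (2, ⟨⟨0, 1, 0, 0⟩, ⟨-1, -1, -1, -1⟩, ⟨0, 0, 0, 1⟩, ⟨1, 0, 0, 0⟩⟩),
    (-2, ⟨⟨1, 0, 0, 0⟩, ⟨0, 0, 1, 0⟩, ⟨0, 0, 0, 1⟩, ⟨0, 1, 0, 0⟩⟩),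
    (2, ⟨⟨0, 0, 0, 1⟩, ⟨0, 1, 0, 0⟩, ⟨1, 0, 0, 0⟩, ⟨0, 0, 1, 0⟩⟩),
    (-2, ⟨⟨0, 0, 0, 1⟩, ⟨1, 0, 0, 0⟩, ⟨0, 1, 0, 0⟩, ⟨-1, -1, -1, -1⟩⟩),
    (2, ⟨⟨1, 0, 0, 0⟩, ⟨0, 0, 0, 1⟩, ⟨0, 0, 1, 0⟩, ⟨-1, -1, -1, -1⟩⟩),
    (-2, ⟨⟨0, 1, 0, 0⟩, ⟨0, 0, 0, 1⟩, ⟨-1, -1, -1, -1⟩, ⟨0, 0, 1, 0⟩⟩),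
    (2, ⟨⟨0, 0, 1, 0⟩, ⟨1, 0, 0, 0⟩, ⟨-1, -1, -1, -1⟩, ⟨0, 1, 0, 0⟩⟩),
    (-4, ⟨⟨1, 1, 1, 1⟩, ⟨0, -1, 0, 0⟩, ⟨-1, 0, 0, 0⟩, ⟨0, 0, -1, 0⟩⟩),
    (4, ⟨⟨1, 1, 1, 1⟩, ⟨0, 0, -1, 0⟩, ⟨0, 0, 0, -1⟩, ⟨0, -1, 0, 0⟩⟩),
    (-4, ⟨⟨0, 0, 1, 0⟩, ⟨-1, -1, -1, -1⟩, ⟨0, 0, 0, 1⟩, ⟨1, 0, 0, 0⟩⟩),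
    (4, ⟨⟨0, 1, 0, 0⟩, ⟨-1, -1, -1, -1⟩, ⟨1, 0, 0, 0⟩, ⟨0, 0, 0, 1⟩⟩),
    (-4, ⟨⟨1, 0, 0, 0⟩, ⟨0, 0, 1, 0⟩, ⟨0, 1, 0, 0⟩, ⟨0, 0, 0, 1⟩⟩),
    (4, ⟨⟨0, 0, 0, 1⟩, ⟨0, 1, 0, 0⟩, ⟨0, 0, 1, 0⟩, ⟨1, 0, 0, 0⟩⟩),
    (-4, ⟨⟨0, 0, 0, 1⟩, ⟨1, 0, 0, 0⟩, ⟨-1, -1, -1, -1⟩, ⟨0, 1, 0, 0⟩⟩),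
    (4, ⟨⟨1, 0, 0, 0⟩, ⟨0, 0, 0, 1⟩, ⟨-1, -1, -1, -1⟩, ⟨0, 0, 1, 0⟩⟩),
    (-4, ⟨⟨0, 1, 0, 0⟩, ⟨0, 0, 0, 1⟩, ⟨0, 0, 1, 0⟩, ⟨-1, -1, -1, -1⟩⟩),
    (4, ⟨⟨0, 0, 1, 0⟩, ⟨1, 0, 0, 0⟩, ⟨0, 1, 0, 0⟩, ⟨-1, -1, -1, -1⟩⟩),
    (-2, ⟨⟨0, 0, 0, 1⟩, ⟨-1, -1, -1, -1⟩, ⟨0, 1, 0, 0⟩, ⟨0, 0, 1, 0⟩⟩),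
    (2, ⟨⟨1, 0, 0, 0⟩, ⟨-1, -1, -1, -1⟩, ⟨0, 0, 1, 0⟩, ⟨0, 1, 0, 0⟩⟩),
    (-2, ⟨⟨0, 1, 0, 0⟩, ⟨0, 0, 1, 0⟩, ⟨-1, -1, -1, -1⟩, ⟨1, 0, 0, 0⟩⟩),
    (2, ⟨⟨0, 0, 1, 0⟩, ⟨0, 1, 0, 0⟩, ⟨-1, -1, -1, -1⟩, ⟨0, 0, 0, 1⟩⟩),
    (-2, ⟨⟨1, 1, 1, 1⟩, ⟨-1, 0, 0, 0⟩, ⟨0, 0, -1, 0⟩, ⟨0, 0, 0, -1⟩⟩),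
    (2, ⟨⟨1, 1, 1, 1⟩, ⟨0, 0, 0, -1⟩, ⟨0, -1, 0, 0⟩, ⟨-1, 0, 0, 0⟩⟩),
    (-2, ⟨⟨0, 0, 1, 0⟩, ⟨0, 0, 0, 1⟩, ⟨1, 0, 0, 0⟩, ⟨0, 1, 0, 0⟩⟩),
    (2, ⟨⟨0, 1, 0, 0⟩, ⟨1, 0, 0, 0⟩, ⟨0, 0, 0, 1⟩, ⟨0, 0, 1, 0⟩⟩),
    (-2, ⟨⟨1, 0, 0, 0⟩, ⟨0, 1, 0, 0⟩, ⟨0, 0, 0, 1⟩, ⟨-1, -1, -1, -1⟩⟩),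
    (2, ⟨⟨0, 0, 0, 1⟩, ⟨0, 0, 1, 0⟩, ⟨1, 0, 0, 0⟩, ⟨-1, -1, -1, -1⟩⟩),
    (-2, ⟨⟨1, 0, 0, 0⟩, ⟨0, 0, 0, 1⟩, ⟨-1, -1, -1, -1⟩, ⟨0, 1, 0, 0⟩⟩),
    (2, ⟨⟨0, 0, 0, 1⟩, ⟨1, 0, 0, 0⟩, ⟨-1, -1, -1, -1⟩, ⟨0, 0, 1, 0⟩⟩),
    (-2, ⟨⟨0, 0, 0, 1⟩, ⟨0, 1, 0, 0⟩, ⟨0, 0, 1, 0⟩, ⟨-1, -1, -1, -1⟩⟩),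
    (2, ⟨⟨1, 0, 0, 0⟩, ⟨0, 0, 1, 0⟩, ⟨0, 1, 0, 0⟩, ⟨-1, -1, -1, -1⟩⟩),
    (-2, ⟨⟨0, 1, 0, 0⟩, ⟨-1, -1, -1, -1⟩, ⟨1, 0, 0, 0⟩, ⟨0, 0, 1, 0⟩⟩),
    (2, ⟨⟨0, 0, 1, 0⟩, ⟨-1, -1, -1, -1⟩, ⟨0, 0, 0, 1⟩, ⟨0, 1, 0, 0⟩⟩),
    (-2, ⟨⟨1, 1, 1, 1⟩, ⟨0, 0, -1, 0⟩, ⟨0, 0, 0, -1⟩, ⟨-1, 0, 0, 0⟩⟩),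
    (2, ⟨⟨1, 1, 1, 1⟩, ⟨0, -1, 0, 0⟩, ⟨-1, 0, 0, 0⟩, ⟨0, 0, 0, -1⟩⟩),
    (-2, ⟨⟨0, 0, 1, 0⟩, ⟨1, 0, 0, 0⟩, ⟨0, 1, 0, 0⟩, ⟨0, 0, 0, 1⟩⟩),
    (2, ⟨⟨0, 1, 0, 0⟩, ⟨0, 0, 0, 1⟩, ⟨0, 0, 1, 0⟩, ⟨1, 0, 0, 0⟩⟩)]

/-- the complementary idempotent, times 200, for the variables `s` -/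
def eEx : GR :=
  [(10, ⟨⟨1, 0, 0, 0⟩, ⟨0, 1, 0, 0⟩, ⟨0, 0, 1, 0⟩, ⟨0, 0, 0, 1⟩⟩),
    (-10, ⟨⟨0, 0, 1, 0⟩, ⟨0, 1, 0, 0⟩, ⟨1, 0, 0, 0⟩, ⟨-1, -1, -1, -1⟩⟩),
    (10, ⟨⟨0, 0, 0, 1⟩, ⟨-1, -1, -1, -1⟩, ⟨1, 0, 0, 0⟩, ⟨0, 1, 0, 0⟩⟩),
    (-10, ⟨⟨1, 1, 1, 1⟩, ⟨0, 0, 0, -1⟩, ⟨0, 0, -1, 0⟩, ⟨0, -1, 0, 0⟩⟩),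
    (10, ⟨⟨0, 1, 0, 0⟩, ⟨0, 0, 1, 0⟩, ⟨0, 0, 0, 1⟩, ⟨-1, -1, -1, -1⟩⟩),
    (-10, ⟨⟨0, 1, 0, 0⟩, ⟨1, 0, 0, 0⟩, ⟨-1, -1, -1, -1⟩, ⟨0, 0, 0, 1⟩⟩),
    (10, ⟨⟨1, 1, 1, 1⟩, ⟨-1, 0, 0, 0⟩, ⟨0, -1, 0, 0⟩, ⟨0, 0, -1, 0⟩⟩),
    (-10, ⟨⟨0, 0, 0, 1⟩, ⟨0, 0, 1, 0⟩, ⟨0, 1, 0, 0⟩, ⟨1, 0, 0, 0⟩⟩),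
    (10, ⟨⟨0, 0, 1, 0⟩, ⟨0, 0, 0, 1⟩, ⟨-1, -1, -1, -1⟩, ⟨1, 0, 0, 0⟩⟩),
    (-10, ⟨⟨1, 0, 0, 0⟩, ⟨-1, -1, -1, -1⟩, ⟨0, 0, 0, 1⟩, ⟨0, 0, 1, 0⟩⟩),
    (4, ⟨⟨1, 0, 0, 0⟩, ⟨0, 1, 1, 1⟩, ⟨0, 0, 0, -1⟩, ⟨0, 0, -1, 0⟩⟩),
    (-4, ⟨⟨0, 0, 1, 0⟩, ⟨0, 0, -1, -1⟩, ⟨1, 1, 1, 1⟩, ⟨-1, 0, 0, 0⟩⟩),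
    (4, ⟨⟨0, 0, 0, 1⟩, ⟨0, 0, -1, -1⟩, ⟨0, -1, 0, 0⟩, ⟨-1, 0, 0, 0⟩⟩),
    (-4, ⟨⟨1, 1, 1, 1⟩, ⟨0, -1, -1, -1⟩, ⟨0, 1, 0, 0⟩, ⟨0, 0, 1, 0⟩⟩),
    (4, ⟨⟨0, 1, 0, 0⟩, ⟨-1, -1, 0, 0⟩, ⟨1, 1, 1, 1⟩, ⟨0, 0, 0, -1⟩⟩),
    (-4, ⟨⟨0, 1, 0, 0⟩, ⟨0, -1, -1, 0⟩, ⟨0, 0, 0, -1⟩, ⟨1, 1, 1, 1⟩⟩),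
    (4, ⟨⟨1, 1, 1, 1⟩, ⟨-1, -1, -1, 0⟩, ⟨0, 0, 1, 0⟩, ⟨0, 1, 0, 0⟩⟩),
    (-4, ⟨⟨0, 0, 0, 1⟩, ⟨1, 1, 1, 0⟩, ⟨-1, 0, 0, 0⟩, ⟨0, -1, 0, 0⟩⟩),
    (4, ⟨⟨0, 0, 1, 0⟩, ⟨0, -1, -1, 0⟩, ⟨-1, 0, 0, 0⟩, ⟨1, 1, 1, 1⟩⟩),
    (-4, ⟨⟨1, 0, 0, 0⟩, ⟨-1, -1, 0, 0⟩, ⟨0, 0, -1, 0⟩, ⟨0, 0, 0, -1⟩⟩),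
    (2, ⟨⟨1, 1, 1, 1⟩, ⟨0, -1, -1, -1⟩, ⟨0, 1, 1, 0⟩, ⟨0, 0, -1, 0⟩⟩),
    (-2, ⟨⟨0, 0, 0, 1⟩, ⟨0, 0, -1, -1⟩, ⟨-1, -1, 0, 0⟩, ⟨1, 0, 0, 0⟩⟩),
    (2, ⟨⟨0, 0, 1, 0⟩, ⟨0, 0, -1, -1⟩, ⟨0, 1, 1, 1⟩, ⟨1, 0, 0, 0⟩⟩),
    (-2, ⟨⟨1, 0, 0, 0⟩, ⟨0, 1, 1, 1⟩, ⟨0, 0, -1, -1⟩, ⟨0, 0, 1, 0⟩⟩),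
    (2, ⟨⟨1, 0, 0, 0⟩, ⟨-1, -1, 0, 0⟩, ⟨0, 0, -1, -1⟩, ⟨0, 0, 0, 1⟩⟩),
    (-2, ⟨⟨0, 0, 1, 0⟩, ⟨0, -1, -1, 0⟩, ⟨0, 1, 1, 1⟩, ⟨-1, -1, -1, -1⟩⟩),
    (2, ⟨⟨0, 0, 0, 1⟩, ⟨1, 1, 1, 0⟩, ⟨-1, -1, 0, 0⟩, ⟨0, 1, 0, 0⟩⟩),
    (-2, ⟨⟨1, 1, 1, 1⟩, ⟨-1, -1, -1, 0⟩, ⟨0, 1, 1, 0⟩, ⟨0, -1, 0, 0⟩⟩),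
    (2, ⟨⟨0, 1, 0, 0⟩, ⟨0, -1, -1, 0⟩, ⟨1, 1, 1, 0⟩, ⟨-1, -1, -1, -1⟩⟩),
    (-2, ⟨⟨0, 1, 0, 0⟩, ⟨-1, -1, 0, 0⟩, ⟨1, 1, 1, 0⟩, ⟨0, 0, 0, 1⟩⟩),
    (4, ⟨⟨1, 1, 1, 1⟩, ⟨0, 0, 0, -1⟩, ⟨0, -1, -1, 0⟩, ⟨0, 1, 0, 0⟩⟩),
    (-4, ⟨⟨0, 0, 0, 1⟩, ⟨-1, -1, -1, -1⟩, ⟨1, 1, 0, 0⟩, ⟨0, -1, 0, 0⟩⟩),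
    (4, ⟨⟨0, 0, 1, 0⟩, ⟨0, 1, 0, 0⟩, ⟨0, -1, -1, -1⟩, ⟨1, 1, 1, 1⟩⟩),
    (-4, ⟨⟨1, 0, 0, 0⟩, ⟨0, 1, 0, 0⟩, ⟨0, 0, 1, 1⟩, ⟨0, 0, 0, -1⟩⟩),
    (4, ⟨⟨1, 0, 0, 0⟩, ⟨-1, -1, -1, -1⟩, ⟨0, 0, 1, 1⟩, ⟨0, 0, -1, 0⟩⟩),
    (-4, ⟨⟨0, 0, 1, 0⟩, ⟨0, 0, 0, 1⟩, ⟨0, -1, -1, -1⟩, ⟨-1, 0, 0, 0⟩⟩),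
    (4, ⟨⟨0, 0, 0, 1⟩, ⟨0, 0, 1, 0⟩, ⟨1, 1, 0, 0⟩, ⟨-1, 0, 0, 0⟩⟩),
    (-4, ⟨⟨1, 1, 1, 1⟩, ⟨-1, 0, 0, 0⟩, ⟨0, -1, -1, 0⟩, ⟨0, 0, 1, 0⟩⟩),
    (4, ⟨⟨0, 1, 0, 0⟩, ⟨1, 0, 0, 0⟩, ⟨-1, -1, -1, 0⟩, ⟨0, 0, 0, -1⟩⟩),
    (-4, ⟨⟨0, 1, 0, 0⟩, ⟨0, 0, 1, 0⟩, ⟨-1, -1, -1, 0⟩, ⟨1, 1, 1, 1⟩⟩),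
    (4, ⟨⟨1, 1, 0, 0⟩, ⟨-1, 0, 0, 0⟩, ⟨0, -1, -1, -1⟩, ⟨0, 0, 0, 1⟩⟩),
    (-4, ⟨⟨0, 1, 1, 0⟩, ⟨0, 0, -1, 0⟩, ⟨0, 0, 1, 1⟩, ⟨-1, -1, -1, -1⟩⟩),
    (4, ⟨⟨1, 1, 1, 0⟩, ⟨0, 0, 0, 1⟩, ⟨0, 0, -1, -1⟩, ⟨0, -1, 0, 0⟩⟩),
    (-4, ⟨⟨1, 1, 1, 0⟩, ⟨-1, -1, -1, -1⟩, ⟨0, 1, 1, 1⟩, ⟨0, -1, 0, 0⟩⟩),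
    (4, ⟨⟨0, 1, 1, 0⟩, ⟨0, -1, 0, 0⟩, ⟨1, 1, 0, 0⟩, ⟨-1, -1, -1, -1⟩⟩),
    (-4, ⟨⟨1, 1, 0, 0⟩, ⟨0, -1, 0, 0⟩, ⟨0, 1, 1, 0⟩, ⟨0, 0, 0, 1⟩⟩),
    (4, ⟨⟨0, 1, 1, 1⟩, ⟨-1, -1, -1, -1⟩, ⟨1, 1, 1, 0⟩, ⟨0, 0, -1, 0⟩⟩),
    (-4, ⟨⟨0, 0, 1, 1⟩, ⟨0, 0, 0, -1⟩, ⟨-1, -1, -1, 0⟩, ⟨1, 0, 0, 0⟩⟩),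
    (4, ⟨⟨0, 0, 1, 1⟩, ⟨0, 0, -1, 0⟩, ⟨0, 1, 1, 0⟩, ⟨1, 0, 0, 0⟩⟩),
    (-4, ⟨⟨0, 1, 1, 1⟩, ⟨1, 0, 0, 0⟩, ⟨-1, -1, 0, 0⟩, ⟨0, 0, -1, 0⟩⟩),
    (2, ⟨⟨1, 1, 0, 0⟩, ⟨-1, -1, -1, -1⟩, ⟨0, 1, 1, 1⟩, ⟨0, -1, -1, 0⟩⟩),
    (-2, ⟨⟨0, 1, 1, 0⟩, ⟨0, 0, 0, 1⟩, ⟨0, 0, -1, -1⟩, ⟨-1, -1, 0, 0⟩⟩),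
    (2, ⟨⟨1, 1, 1, 0⟩, ⟨0, 0, -1, 0⟩, ⟨0, 0, 1, 1⟩, ⟨0, -1, -1, -1⟩⟩),
    (-2, ⟨⟨1, 1, 1, 0⟩, ⟨-1, 0, 0, 0⟩, ⟨0, -1, -1, -1⟩, ⟨0, 0, 1, 1⟩⟩),
    (2, ⟨⟨0, 1, 1, 0⟩, ⟨1, 0, 0, 0⟩, ⟨-1, -1, 0, 0⟩, ⟨0, 0, -1, -1⟩⟩),
    (-2, ⟨⟨1, 1, 0, 0⟩, ⟨0, 0, 1, 0⟩, ⟨0, -1, -1, 0⟩, ⟨0, 1, 1, 1⟩⟩),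
    (2, ⟨⟨0, 1, 1, 1⟩, ⟨0, 0, 0, -1⟩, ⟨-1, -1, -1, 0⟩, ⟨1, 1, 0, 0⟩⟩),
    (-2, ⟨⟨0, 0, 1, 1⟩, ⟨-1, -1, -1, -1⟩, ⟨1, 1, 1, 0⟩, ⟨0, -1, -1, 0⟩⟩),
    (2, ⟨⟨0, 0, 1, 1⟩, ⟨0, 1, 0, 0⟩, ⟨0, -1, -1, 0⟩, ⟨1, 1, 1, 0⟩⟩),
    (-2, ⟨⟨0, 1, 1, 1⟩, ⟨0, -1, 0, 0⟩, ⟨1, 1, 0, 0⟩, ⟨-1, -1, -1, 0⟩⟩),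
    (4, ⟨⟨1, 1, 0, 0⟩, ⟨-1, -1, -1, -1⟩, ⟨0, 0, 0, 1⟩, ⟨0, 1, 1, 0⟩⟩),
    (-4, ⟨⟨0, 1, 1, 0⟩, ⟨0, 0, 0, 1⟩, ⟨-1, -1, -1, -1⟩, ⟨1, 1, 0, 0⟩⟩),
    (4, ⟨⟨1, 1, 1, 0⟩, ⟨0, 0, -1, 0⟩, ⟨0, -1, 0, 0⟩, ⟨0, 1, 1, 1⟩⟩),
    (-4, ⟨⟨1, 1, 1, 0⟩, ⟨-1, 0, 0, 0⟩, ⟨0, -1, 0, 0⟩, ⟨0, 0, -1, -1⟩⟩),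
    (4, ⟨⟨0, 1, 1, 0⟩, ⟨1, 0, 0, 0⟩, ⟨-1, -1, -1, -1⟩, ⟨0, 0, 1, 1⟩⟩),
    (-4, ⟨⟨1, 1, 0, 0⟩, ⟨0, 0, 1, 0⟩, ⟨0, 0, 0, 1⟩, ⟨0, -1, -1, -1⟩⟩),
    (4, ⟨⟨0, 1, 1, 1⟩, ⟨0, 0, 0, -1⟩, ⟨0, 0, -1, 0⟩, ⟨-1, -1, 0, 0⟩⟩),
    (-4, ⟨⟨0, 0, 1, 1⟩, ⟨-1, -1, -1, -1⟩, ⟨1, 0, 0, 0⟩, ⟨0, 1, 1, 0⟩⟩),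
    (4, ⟨⟨0, 0, 1, 1⟩, ⟨0, 1, 0, 0⟩, ⟨1, 0, 0, 0⟩, ⟨-1, -1, -1, 0⟩⟩),
    (-4, ⟨⟨0, 1, 1, 1⟩, ⟨0, -1, 0, 0⟩, ⟨0, 0, -1, 0⟩, ⟨1, 1, 1, 0⟩⟩),
    (4, ⟨⟨0, 0, 1, 0⟩, ⟨1, 1, 0, 0⟩, ⟨-1, 0, 0, 0⟩, ⟨0, -1, -1, -1⟩⟩),
    (-4, ⟨⟨1, 0, 0, 0⟩, ⟨0, 1, 1, 0⟩, ⟨0, 0, -1, 0⟩, ⟨0, 0, 1, 1⟩⟩),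
    (4, ⟨⟨1, 0, 0, 0⟩, ⟨-1, -1, -1, 0⟩, ⟨0, 0, 0, -1⟩, ⟨0, 0, 1, 1⟩⟩),
    (-4, ⟨⟨0, 0, 1, 0⟩, ⟨-1, -1, -1, 0⟩, ⟨1, 1, 1, 1⟩, ⟨0, -1, -1, -1⟩⟩),
    (4, ⟨⟨0, 0, 0, 1⟩, ⟨0, 1, 1, 0⟩, ⟨0, -1, 0, 0⟩, ⟨1, 1, 0, 0⟩⟩),
    (-4, ⟨⟨1, 1, 1, 1⟩, ⟨-1, -1, 0, 0⟩, ⟨0, 1, 0, 0⟩, ⟨0, -1, -1, 0⟩⟩),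
    (4, ⟨⟨0, 1, 0, 0⟩, ⟨0, -1, -1, -1⟩, ⟨1, 1, 1, 1⟩, ⟨-1, -1, -1, 0⟩⟩),
    (-4, ⟨⟨0, 1, 0, 0⟩, ⟨0, 0, 1, 1⟩, ⟨0, 0, 0, -1⟩, ⟨-1, -1, -1, 0⟩⟩),
    (4, ⟨⟨1, 1, 1, 1⟩, ⟨0, 0, -1, -1⟩, ⟨0, 0, 1, 0⟩, ⟨0, -1, -1, 0⟩⟩),
    (-4, ⟨⟨0, 0, 0, 1⟩, ⟨0, -1, -1, -1⟩, ⟨-1, 0, 0, 0⟩, ⟨1, 1, 0, 0⟩⟩),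
    (2, ⟨⟨0, 0, 1, 0⟩, ⟨1, 1, 0, 0⟩, ⟨-1, -1, -1, -1⟩, ⟨0, 1, 1, 1⟩⟩),
    (-2, ⟨⟨1, 0, 0, 0⟩, ⟨0, 1, 1, 0⟩, ⟨0, 0, 0, 1⟩, ⟨0, 0, -1, -1⟩⟩),
    (2, ⟨⟨1, 0, 0, 0⟩, ⟨-1, -1, -1, 0⟩, ⟨0, 0, 1, 0⟩, ⟨0, 0, -1, -1⟩⟩),
    (-2, ⟨⟨0, 0, 1, 0⟩, ⟨-1, -1, -1, 0⟩, ⟨1, 0, 0, 0⟩, ⟨0, 1, 1, 1⟩⟩),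
    (2, ⟨⟨0, 0, 0, 1⟩, ⟨0, 1, 1, 0⟩, ⟨1, 0, 0, 0⟩, ⟨-1, -1, 0, 0⟩⟩),
    (-2, ⟨⟨1, 1, 1, 1⟩, ⟨-1, -1, 0, 0⟩, ⟨0, 0, -1, 0⟩, ⟨0, 1, 1, 0⟩⟩),
    (2, ⟨⟨0, 1, 0, 0⟩, ⟨0, -1, -1, -1⟩, ⟨0, 0, 0, 1⟩, ⟨1, 1, 1, 0⟩⟩),
    (-2, ⟨⟨0, 1, 0, 0⟩, ⟨0, 0, 1, 1⟩, ⟨-1, -1, -1, -1⟩, ⟨1, 1, 1, 0⟩⟩),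
    (2, ⟨⟨1, 1, 1, 1⟩, ⟨0, 0, -1, -1⟩, ⟨0, -1, 0, 0⟩, ⟨0, 1, 1, 0⟩⟩),
    (-2, ⟨⟨0, 0, 0, 1⟩, ⟨0, -1, -1, -1⟩, ⟨0, 1, 0, 0⟩, ⟨-1, -1, 0, 0⟩⟩),
    (2, ⟨⟨0, 1, 1, 0⟩, ⟨0, 0, -1, 0⟩, ⟨-1, -1, 0, 0⟩, ⟨1, 1, 1, 1⟩⟩),
    (-2, ⟨⟨1, 1, 0, 0⟩, ⟨-1, 0, 0, 0⟩, ⟨0, -1, -1, 0⟩, ⟨0, 0, 0, -1⟩⟩),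
    (2, ⟨⟨0, 1, 1, 1⟩, ⟨1, 0, 0, 0⟩, ⟨-1, -1, -1, 0⟩, ⟨0, 0, 1, 0⟩⟩),
    (-2, ⟨⟨0, 0, 1, 1⟩, ⟨0, 0, -1, 0⟩, ⟨1, 1, 1, 0⟩, ⟨-1, 0, 0, 0⟩⟩),
    (2, ⟨⟨0, 0, 1, 1⟩, ⟨0, 0, 0, -1⟩, ⟨0, -1, -1, 0⟩, ⟨-1, 0, 0, 0⟩⟩),
    (-2, ⟨⟨0, 1, 1, 1⟩, ⟨-1, -1, -1, -1⟩, ⟨1, 1, 0, 0⟩, ⟨0, 0, 1, 0⟩⟩),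
    (2, ⟨⟨1, 1, 0, 0⟩, ⟨0, -1, 0, 0⟩, ⟨0, 1, 1, 1⟩, ⟨0, 0, 0, -1⟩⟩),
    (-2, ⟨⟨0, 1, 1, 0⟩, ⟨0, -1, 0, 0⟩, ⟨0, 0, -1, -1⟩, ⟨1, 1, 1, 1⟩⟩),
    (2, ⟨⟨1, 1, 1, 0⟩, ⟨-1, -1, -1, -1⟩, ⟨0, 0, 1, 1⟩, ⟨0, 1, 0, 0⟩⟩),
    (-2, ⟨⟨1, 1, 1, 0⟩, ⟨0, 0, 0, 1⟩, ⟨0, -1, -1, -1⟩, ⟨0, 1, 0, 0⟩⟩),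
    (2, ⟨⟨0, 1, 1, 1⟩, ⟨0, -1, -1, 0⟩, ⟨0, 0, 1, 0⟩, ⟨1, 1, 0, 0⟩⟩),
    (-2, ⟨⟨0, 0, 1, 1⟩, ⟨1, 1, 0, 0⟩, ⟨-1, 0, 0, 0⟩, ⟨0, -1, -1, 0⟩⟩),
    (2, ⟨⟨0, 0, 1, 1⟩, ⟨0, -1, -1, -1⟩, ⟨-1, 0, 0, 0⟩, ⟨1, 1, 1, 0⟩⟩),
    (-2, ⟨⟨0, 1, 1, 1⟩, ⟨0, 0, -1, -1⟩, ⟨0, 0, 1, 0⟩, ⟨-1, -1, -1, 0⟩⟩),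
    (2, ⟨⟨1, 1, 0, 0⟩, ⟨0, 0, 1, 1⟩, ⟨0, 0, 0, -1⟩, ⟨0, -1, -1, 0⟩⟩),
    (-2, ⟨⟨0, 1, 1, 0⟩, ⟨0, -1, -1, -1⟩, ⟨1, 1, 1, 1⟩, ⟨-1, -1, 0, 0⟩⟩),
    (2, ⟨⟨1, 1, 1, 0⟩, ⟨-1, -1, 0, 0⟩, ⟨0, 1, 0, 0⟩, ⟨0, -1, -1, -1⟩⟩),
    (-2, ⟨⟨1, 1, 1, 0⟩, ⟨0, -1, -1, 0⟩, ⟨0, 1, 0, 0⟩, ⟨0, 0, 1, 1⟩⟩),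
    (2, ⟨⟨0, 1, 1, 0⟩, ⟨-1, -1, -1, 0⟩, ⟨1, 1, 1, 1⟩, ⟨0, 0, -1, -1⟩⟩),
    (-2, ⟨⟨1, 1, 0, 0⟩, ⟨-1, -1, -1, 0⟩, ⟨0, 0, 0, -1⟩, ⟨0, 1, 1, 1⟩⟩)]

/-- the product `eps8 * R5` -/
def m2 : GR :=
  [(-1, ⟨⟨0, 0, 0, 1⟩, ⟨0, 0, 1, 0⟩, ⟨0, 1, 0, 0⟩, ⟨1, 0, 0, 0⟩⟩),
    (-1, ⟨⟨0, 0, 1, 0⟩, ⟨0, 1, 0, 0⟩, ⟨1, 0, 0, 0⟩, ⟨-1, -1, -1, -1⟩⟩),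
    (-1, ⟨⟨0, 1, 0, 0⟩, ⟨1, 0, 0, 0⟩, ⟨-1, -1, -1, -1⟩, ⟨0, 0, 0, 1⟩⟩),
    (-1, ⟨⟨1, 0, 0, 0⟩, ⟨-1, -1, -1, -1⟩, ⟨0, 0, 0, 1⟩, ⟨0, 0, 1, 0⟩⟩),
    (-1, ⟨⟨1, 1, 1, 1⟩, ⟨0, 0, 0, -1⟩, ⟨0, 0, -1, 0⟩, ⟨0, -1, 0, 0⟩⟩),
    (1, ⟨⟨0, 1, 0, 0⟩, ⟨0, 0, 1, 0⟩, ⟨0, 0, 0, 1⟩, ⟨1, 0, 0, 0⟩⟩),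
    (1, ⟨⟨1, 0, 0, 0⟩, ⟨0, 1, 0, 0⟩, ⟨0, 0, 1, 0⟩, ⟨-1, -1, -1, -1⟩⟩),
    (1, ⟨⟨1, 1, 1, 1⟩, ⟨-1, 0, 0, 0⟩, ⟨0, -1, 0, 0⟩, ⟨0, 0, 0, -1⟩⟩),
    (1, ⟨⟨0, 0, 0, 1⟩, ⟨-1, -1, -1, -1⟩, ⟨1, 0, 0, 0⟩, ⟨0, 0, 1, 0⟩⟩),
    (1, ⟨⟨0, 0, 1, 0⟩, ⟨0, 0, 0, 1⟩, ⟨-1, -1, -1, -1⟩, ⟨0, 1, 0, 0⟩⟩),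
    (1, ⟨⟨0, 0, 1, 0⟩, ⟨0, 0, 0, 1⟩, ⟨1, 0, 0, 0⟩, ⟨0, 1, 0, 0⟩⟩),
    (1, ⟨⟨0, 1, 0, 0⟩, ⟨0, 0, 1, 0⟩, ⟨-1, -1, -1, -1⟩, ⟨1, 0, 0, 0⟩⟩),
    (1, ⟨⟨1, 0, 0, 0⟩, ⟨0, 1, 0, 0⟩, ⟨0, 0, 0, 1⟩, ⟨-1, -1, -1, -1⟩⟩),
    (1, ⟨⟨1, 1, 1, 1⟩, ⟨-1, 0, 0, 0⟩, ⟨0, 0, -1, 0⟩, ⟨0, 0, 0, -1⟩⟩),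
    (1, ⟨⟨0, 0, 0, 1⟩, ⟨-1, -1, -1, -1⟩, ⟨0, 1, 0, 0⟩, ⟨0, 0, 1, 0⟩⟩),
    (-1, ⟨⟨0, 0, 1, 0⟩, ⟨0, 1, 0, 0⟩, ⟨1, 0, 0, 0⟩, ⟨0, 0, 0, 1⟩⟩),
    (-1, ⟨⟨0, 1, 0, 0⟩, ⟨1, 0, 0, 0⟩, ⟨-1, -1, -1, -1⟩, ⟨0, 0, 1, 0⟩⟩),
    (-1, ⟨⟨1, 0, 0, 0⟩, ⟨-1, -1, -1, -1⟩, ⟨0, 0, 0, 1⟩, ⟨0, 1, 0, 0⟩⟩),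
    (-1, ⟨⟨1, 1, 1, 1⟩, ⟨0, 0, 0, -1⟩, ⟨0, 0, -1, 0⟩, ⟨-1, 0, 0, 0⟩⟩),
    (-1, ⟨⟨0, 0, 0, 1⟩, ⟨0, 0, 1, 0⟩, ⟨0, 1, 0, 0⟩, ⟨-1, -1, -1, -1⟩⟩),
    (1, ⟨⟨0, 0, 0, 1⟩, ⟨1, 0, 0, 0⟩, ⟨0, 1, 0, 0⟩, ⟨0, 0, 1, 0⟩⟩),
    (1, ⟨⟨0, 0, 1, 0⟩, ⟨-1, -1, -1, -1⟩, ⟨1, 0, 0, 0⟩, ⟨0, 1, 0, 0⟩⟩),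
    (1, ⟨⟨0, 1, 0, 0⟩, ⟨0, 0, 0, 1⟩, ⟨-1, -1, -1, -1⟩, ⟨1, 0, 0, 0⟩⟩),
    (1, ⟨⟨1, 0, 0, 0⟩, ⟨0, 0, 1, 0⟩, ⟨0, 0, 0, 1⟩, ⟨-1, -1, -1, -1⟩⟩),
    (1, ⟨⟨1, 1, 1, 1⟩, ⟨0, -1, 0, 0⟩, ⟨0, 0, -1, 0⟩, ⟨0, 0, 0, -1⟩⟩),
    (-1, ⟨⟨0, 1, 0, 0⟩, ⟨1, 0, 0, 0⟩, ⟨0, 0, 0, 1⟩, ⟨0, 0, 1, 0⟩⟩),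
    (-1, ⟨⟨1, 0, 0, 0⟩, ⟨-1, -1, -1, -1⟩, ⟨0, 0, 1, 0⟩, ⟨0, 1, 0, 0⟩⟩),
    (-1, ⟨⟨1, 1, 1, 1⟩, ⟨0, 0, 0, -1⟩, ⟨0, -1, 0, 0⟩, ⟨-1, 0, 0, 0⟩⟩),
    (-1, ⟨⟨0, 0, 0, 1⟩, ⟨0, 0, 1, 0⟩, ⟨1, 0, 0, 0⟩, ⟨-1, -1, -1, -1⟩⟩),
    (-1, ⟨⟨0, 0, 1, 0⟩, ⟨0, 1, 0, 0⟩, ⟨-1, -1, -1, -1⟩, ⟨0, 0, 0, 1⟩⟩),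
    (-1, ⟨⟨1, 0, 0, 0⟩, ⟨0, 0, 0, 1⟩, ⟨0, 0, 1, 0⟩, ⟨0, 1, 0, 0⟩⟩),
    (-1, ⟨⟨1, 1, 1, 1⟩, ⟨0, 0, -1, 0⟩, ⟨0, -1, 0, 0⟩, ⟨-1, 0, 0, 0⟩⟩),
    (-1, ⟨⟨0, 0, 0, 1⟩, ⟨0, 1, 0, 0⟩, ⟨1, 0, 0, 0⟩, ⟨-1, -1, -1, -1⟩⟩),
    (-1, ⟨⟨0, 0, 1, 0⟩, ⟨1, 0, 0, 0⟩, ⟨-1, -1, -1, -1⟩, ⟨0, 0, 0, 1⟩⟩),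
    (-1, ⟨⟨0, 1, 0, 0⟩, ⟨-1, -1, -1, -1⟩, ⟨0, 0, 0, 1⟩, ⟨0, 0, 1, 0⟩⟩),
    (1, ⟨⟨1, 0, 0, 0⟩, ⟨0, 1, 0, 0⟩, ⟨0, 0, 1, 0⟩, ⟨0, 0, 0, 1⟩⟩),
    (1, ⟨⟨1, 1, 1, 1⟩, ⟨-1, 0, 0, 0⟩, ⟨0, -1, 0, 0⟩, ⟨0, 0, -1, 0⟩⟩),
    (1, ⟨⟨0, 0, 0, 1⟩, ⟨-1, -1, -1, -1⟩, ⟨1, 0, 0, 0⟩, ⟨0, 1, 0, 0⟩⟩),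
    (1, ⟨⟨0, 0, 1, 0⟩, ⟨0, 0, 0, 1⟩, ⟨-1, -1, -1, -1⟩, ⟨1, 0, 0, 0⟩⟩),
    (1, ⟨⟨0, 1, 0, 0⟩, ⟨0, 0, 1, 0⟩, ⟨0, 0, 0, 1⟩, ⟨-1, -1, -1, -1⟩⟩)]

/-- the product `m2 * shY1` -/
def m3 : GR :=
  [(-2, ⟨⟨0, 0, 0, 1⟩, ⟨0, 0, 1, 0⟩, ⟨0, 1, 0, 0⟩, ⟨1, 0, 0, 0⟩⟩),
    (-2, ⟨⟨0, 0, 1, 0⟩, ⟨0, 1, 0, 0⟩, ⟨1, 0, 0, 0⟩, ⟨0, 0, 0, 1⟩⟩),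
    (-2, ⟨⟨0, 0, 1, 0⟩, ⟨0, 1, 0, 0⟩, ⟨1, 0, 0, 0⟩, ⟨-1, -1, -1, -1⟩⟩),
    (-2, ⟨⟨0, 1, 0, 0⟩, ⟨1, 0, 0, 0⟩, ⟨-1, -1, -1, -1⟩, ⟨0, 0, 0, 1⟩⟩),
    (-2, ⟨⟨1, 0, 0, 0⟩, ⟨-1, -1, -1, -1⟩, ⟨0, 0, 0, 1⟩, ⟨0, 0, 1, 0⟩⟩),
    (-2, ⟨⟨0, 1, 0, 0⟩, ⟨-1, -1, -1, -1⟩, ⟨0, 0, 0, 1⟩, ⟨0, 0, 1, 0⟩⟩),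
    (-2, ⟨⟨1, 1, 1, 1⟩, ⟨0, 0, 0, -1⟩, ⟨0, 0, -1, 0⟩, ⟨0, -1, 0, 0⟩⟩),
    (-2, ⟨⟨1, 1, 1, 1⟩, ⟨0, 0, 0, -1⟩, ⟨0, 0, -1, 0⟩, ⟨-1, 0, 0, 0⟩⟩),
    (-2, ⟨⟨1, 1, 1, 1⟩, ⟨0, 0, 0, -1⟩, ⟨0, -1, 0, 0⟩, ⟨-1, 0, 0, 0⟩⟩),
    (-2, ⟨⟨1, 1, 1, 1⟩, ⟨0, 0, -1, 0⟩, ⟨0, -1, 0, 0⟩, ⟨-1, 0, 0, 0⟩⟩),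
    (2, ⟨⟨0, 1, 0, 0⟩, ⟨0, 0, 1, 0⟩, ⟨0, 0, 0, 1⟩, ⟨1, 0, 0, 0⟩⟩),
    (2, ⟨⟨1, 0, 0, 0⟩, ⟨0, 1, 0, 0⟩, ⟨0, 0, 1, 0⟩, ⟨0, 0, 0, 1⟩⟩),
    (2, ⟨⟨1, 0, 0, 0⟩, ⟨0, 1, 0, 0⟩, ⟨0, 0, 1, 0⟩, ⟨-1, -1, -1, -1⟩⟩),
    (2, ⟨⟨1, 1, 1, 1⟩, ⟨-1, 0, 0, 0⟩, ⟨0, -1, 0, 0⟩, ⟨0, 0, 0, -1⟩⟩),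
    (2, ⟨⟨0, 0, 0, 1⟩, ⟨-1, -1, -1, -1⟩, ⟨1, 0, 0, 0⟩, ⟨0, 0, 1, 0⟩⟩),
    (2, ⟨⟨0, 0, 0, 1⟩, ⟨-1, -1, -1, -1⟩, ⟨0, 1, 0, 0⟩, ⟨0, 0, 1, 0⟩⟩),
    (2, ⟨⟨0, 0, 1, 0⟩, ⟨0, 0, 0, 1⟩, ⟨-1, -1, -1, -1⟩, ⟨0, 1, 0, 0⟩⟩),
    (2, ⟨⟨0, 0, 1, 0⟩, ⟨0, 0, 0, 1⟩, ⟨-1, -1, -1, -1⟩, ⟨1, 0, 0, 0⟩⟩),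
    (2, ⟨⟨0, 1, 0, 0⟩, ⟨0, 0, 0, 1⟩, ⟨-1, -1, -1, -1⟩, ⟨1, 0, 0, 0⟩⟩),
    (2, ⟨⟨0, 1, 0, 0⟩, ⟨0, 0, 1, 0⟩, ⟨-1, -1, -1, -1⟩, ⟨1, 0, 0, 0⟩⟩),
    (2, ⟨⟨0, 0, 1, 0⟩, ⟨0, 0, 0, 1⟩, ⟨1, 0, 0, 0⟩, ⟨0, 1, 0, 0⟩⟩),
    (2, ⟨⟨1, 0, 0, 0⟩, ⟨0, 1, 0, 0⟩, ⟨0, 0, 0, 1⟩, ⟨-1, -1, -1, -1⟩⟩),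
    (2, ⟨⟨1, 1, 1, 1⟩, ⟨-1, 0, 0, 0⟩, ⟨0, 0, -1, 0⟩, ⟨0, 0, 0, -1⟩⟩),
    (2, ⟨⟨1, 1, 1, 1⟩, ⟨0, -1, 0, 0⟩, ⟨0, 0, -1, 0⟩, ⟨0, 0, 0, -1⟩⟩),
    (2, ⟨⟨0, 0, 0, 1⟩, ⟨-1, -1, -1, -1⟩, ⟨1, 0, 0, 0⟩, ⟨0, 1, 0, 0⟩⟩),
    (2, ⟨⟨0, 0, 1, 0⟩, ⟨-1, -1, -1, -1⟩, ⟨1, 0, 0, 0⟩, ⟨0, 1, 0, 0⟩⟩),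
    (-2, ⟨⟨0, 1, 0, 0⟩, ⟨1, 0, 0, 0⟩, ⟨0, 0, 0, 1⟩, ⟨0, 0, 1, 0⟩⟩),
    (-2, ⟨⟨0, 1, 0, 0⟩, ⟨1, 0, 0, 0⟩, ⟨-1, -1, -1, -1⟩, ⟨0, 0, 1, 0⟩⟩),
    (-2, ⟨⟨1, 0, 0, 0⟩, ⟨-1, -1, -1, -1⟩, ⟨0, 0, 0, 1⟩, ⟨0, 1, 0, 0⟩⟩),
    (-2, ⟨⟨0, 0, 0, 1⟩, ⟨0, 0, 1, 0⟩, ⟨0, 1, 0, 0⟩, ⟨-1, -1, -1, -1⟩⟩),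
    (-2, ⟨⟨0, 0, 0, 1⟩, ⟨0, 0, 1, 0⟩, ⟨1, 0, 0, 0⟩, ⟨-1, -1, -1, -1⟩⟩),
    (-2, ⟨⟨0, 0, 0, 1⟩, ⟨0, 1, 0, 0⟩, ⟨1, 0, 0, 0⟩, ⟨-1, -1, -1, -1⟩⟩),
    (2, ⟨⟨0, 0, 0, 1⟩, ⟨1, 0, 0, 0⟩, ⟨0, 1, 0, 0⟩, ⟨0, 0, 1, 0⟩⟩),
    (2, ⟨⟨1, 0, 0, 0⟩, ⟨0, 0, 1, 0⟩, ⟨0, 0, 0, 1⟩, ⟨-1, -1, -1, -1⟩⟩),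
    (2, ⟨⟨0, 1, 0, 0⟩, ⟨0, 0, 1, 0⟩, ⟨0, 0, 0, 1⟩, ⟨-1, -1, -1, -1⟩⟩),
    (2, ⟨⟨1, 1, 1, 1⟩, ⟨-1, 0, 0, 0⟩, ⟨0, -1, 0, 0⟩, ⟨0, 0, -1, 0⟩⟩),
    (-2, ⟨⟨1, 0, 0, 0⟩, ⟨0, 0, 0, 1⟩, ⟨0, 0, 1, 0⟩, ⟨0, 1, 0, 0⟩⟩),
    (-2, ⟨⟨1, 0, 0, 0⟩, ⟨-1, -1, -1, -1⟩, ⟨0, 0, 1, 0⟩, ⟨0, 1, 0, 0⟩⟩),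
    (-2, ⟨⟨0, 0, 1, 0⟩, ⟨0, 1, 0, 0⟩, ⟨-1, -1, -1, -1⟩, ⟨0, 0, 0, 1⟩⟩),
    (-2, ⟨⟨0, 0, 1, 0⟩, ⟨1, 0, 0, 0⟩, ⟨-1, -1, -1, -1⟩, ⟨0, 0, 0, 1⟩⟩)]

/-- a certificate -/
def bb : GR :=
  [(3, ⟨⟨1, 0, 0, 0⟩, ⟨0, 1, 0, 0⟩, ⟨0, 0, 1, 0⟩, ⟨0, 0, 0, 1⟩⟩),
    (-2, ⟨⟨1, 1, 1, 1⟩, ⟨-1, 0, 0, 0⟩, ⟨0, 0, -1, 0⟩, ⟨0, 0, 0, -1⟩⟩)]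

/-- a certificate -/
def cc : GR :=
  [(32, ⟨⟨1, 0, 0, 0⟩, ⟨0, 1, 0, 0⟩, ⟨0, 0, 1, 0⟩, ⟨0, 0, 0, 1⟩⟩),
    (-8, ⟨⟨1, 0, 0, 0⟩, ⟨0, 1, 0, 0⟩, ⟨0, 0, 0, 1⟩, ⟨0, 0, 1, 0⟩⟩),
    (-8, ⟨⟨1, 0, 0, 0⟩, ⟨0, 0, 1, 0⟩, ⟨0, 1, 0, 0⟩, ⟨0, 0, 0, 1⟩⟩),
    (-8, ⟨⟨1, 0, 0, 0⟩, ⟨0, 0, 0, 1⟩, ⟨0, 1, 0, 0⟩, ⟨0, 0, 1, 0⟩⟩),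
    (-16, ⟨⟨0, 1, 0, 0⟩, ⟨1, 0, 0, 0⟩, ⟨0, 0, 1, 0⟩, ⟨0, 0, 0, 1⟩⟩),
    (-8, ⟨⟨0, 0, 1, 0⟩, ⟨1, 0, 0, 0⟩, ⟨0, 1, 0, 0⟩, ⟨0, 0, 0, 1⟩⟩)]

/-- a complete graph on four vertices with one edge subdivided -/
def s0L : List V4 :=
  [⟨1, 0, 0, 0⟩, ⟨0, 1, 0, 0⟩, ⟨0, 0, 1, 0⟩, ⟨1, -1, 0, 0⟩, ⟨0, 1, -1, 0⟩, ⟨1, 0, 0, -1⟩,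
    ⟨0, 0, 1, -1⟩]

def k1L : List V4 := e02 :: s0L

/-- the triangulated pentagon -/
def fanL : List V4 :=
  [⟨1, 0, 0, 0⟩, ⟨0, 1, 0, 0⟩, ⟨0, 0, 1, 0⟩, ⟨0, 0, 0, 1⟩, ⟨1, -1, 0, 0⟩, ⟨0, 1, -1, 0⟩,
    ⟨0, 0, 1, -1⟩]

/-- wheel part of `zL` -/
def zu : GR :=
  [(-1, ⟨⟨0, 0, -1, 0⟩, ⟨0, 0, 0, -1⟩, ⟨1, 1, 1, 1⟩, ⟨-1, 0, 0, 0⟩⟩),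
    (-1, ⟨⟨0, 0, 0, -1⟩, ⟨1, 1, 1, 1⟩, ⟨-1, 0, 0, 0⟩, ⟨0, -1, 0, 0⟩⟩),
    (-1, ⟨⟨1, 1, 1, 1⟩, ⟨-1, 0, 0, 0⟩, ⟨0, -1, 0, 0⟩, ⟨0, 0, -1, 0⟩⟩),
    (1, ⟨⟨0, 0, 0, -1⟩, ⟨0, 0, -1, 0⟩, ⟨0, -1, 0, 0⟩, ⟨1, 1, 1, 1⟩⟩),
    (1, ⟨⟨0, 0, 0, 1⟩, ⟨0, 0, 1, 0⟩, ⟨0, 1, 0, 0⟩, ⟨1, 0, 0, 0⟩⟩)]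

/-- remaining part of `zL` -/
def zk : GR :=
  [(-1, ⟨⟨0, 0, 0, 1⟩, ⟨0, 0, 1, 0⟩, ⟨0, 1, 0, 0⟩, ⟨1, 0, 0, 0⟩⟩),
    (-2, ⟨⟨0, 0, 0, -1⟩, ⟨0, 0, -1, 0⟩, ⟨0, -1, 0, 0⟩, ⟨1, 1, 1, 1⟩⟩),
    (-1, ⟨⟨0, 0, 0, -1⟩, ⟨0, -1, 0, 0⟩, ⟨0, 0, -1, 0⟩, ⟨1, 1, 1, 1⟩⟩),
    (-2, ⟨⟨0, -1, 0, 0⟩, ⟨1, 1, 1, 1⟩, ⟨-1, 0, 0, 0⟩, ⟨0, 0, 0, -1⟩⟩),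
    (-1, ⟨⟨0, -1, 0, 0⟩, ⟨0, 0, 0, -1⟩, ⟨0, 0, -1, 0⟩, ⟨1, 1, 1, 1⟩⟩),
    (1, ⟨⟨0, 0, 1, 0⟩, ⟨0, 0, 0, 1⟩, ⟨0, 1, 0, 0⟩, ⟨1, 0, 0, 0⟩⟩),
    (-1, ⟨⟨0, -1, 0, 0⟩, ⟨0, 0, -1, 0⟩, ⟨1, 1, 1, 1⟩, ⟨-1, 0, 0, 0⟩⟩),
    (2, ⟨⟨0, 1, 0, 0⟩, ⟨0, 0, 1, 0⟩, ⟨0, 0, 0, 1⟩, ⟨1, 0, 0, 0⟩⟩),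
    (-2, ⟨⟨0, 0, -1, 0⟩, ⟨0, -1, 0, 0⟩, ⟨1, 1, 1, 1⟩, ⟨-1, 0, 0, 0⟩⟩),
    (1, ⟨⟨0, 0, 1, 0⟩, ⟨0, 1, 0, 0⟩, ⟨0, 0, 0, 1⟩, ⟨1, 0, 0, 0⟩⟩),
    (1, ⟨⟨0, -1, 0, 0⟩, ⟨0, 0, -1, 0⟩, ⟨1, 1, 1, 1⟩, ⟨0, 0, 0, -1⟩⟩),
    (1, ⟨⟨0, -1, 0, 0⟩, ⟨0, 0, -1, 0⟩, ⟨0, 0, 0, -1⟩, ⟨1, 1, 1, 1⟩⟩),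
    (-1, ⟨⟨0, 0, 1, 0⟩, ⟨0, 1, 0, 0⟩, ⟨1, 0, 0, 0⟩, ⟨0, 0, 0, 1⟩⟩),
    (-1, ⟨⟨0, 0, 1, 0⟩, ⟨0, 1, 0, 0⟩, ⟨1, 0, 0, 0⟩, ⟨-1, -1, -1, -1⟩⟩),
    (2, ⟨⟨0, 0, 1, 0⟩, ⟨0, 0, 0, 1⟩, ⟨1, 0, 0, 0⟩, ⟨-1, -1, -1, -1⟩⟩)]

/-- wheel part of the boundary of a facet -/
def fu : GR :=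
  [(-1, ⟨⟨0, 0, 0, 1⟩, ⟨0, 0, 1, 0⟩, ⟨0, 1, 0, 0⟩, ⟨1, 0, 0, 0⟩⟩),
    (1, ⟨⟨0, 0, 0, -1⟩, ⟨0, 0, -1, 0⟩, ⟨1, 1, 1, 1⟩, ⟨-1, 0, 0, 0⟩⟩),
    (-1, ⟨⟨1, 1, 1, 1⟩, ⟨-1, 0, 0, 0⟩, ⟨0, -1, 0, 0⟩, ⟨0, 0, -1, 0⟩⟩)]

/-- remaining part -/
def fk : GR :=
  [(-1, ⟨⟨0, 0, 1, 0⟩, ⟨0, 0, 0, 1⟩, ⟨1, 0, 0, 0⟩, ⟨-1, -1, -1, -1⟩⟩),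
    (1, ⟨⟨0, 0, 1, 0⟩, ⟨0, 1, 0, 0⟩, ⟨1, 0, 0, 0⟩, ⟨0, 0, 0, 1⟩⟩),
    (-1, ⟨⟨0, -1, 0, 0⟩, ⟨0, 0, 0, -1⟩, ⟨0, 0, -1, 0⟩, ⟨1, 1, 1, 1⟩⟩),
    (1, ⟨⟨0, 0, -1, 0⟩, ⟨0, 0, 0, -1⟩, ⟨0, -1, 0, 0⟩, ⟨1, 1, 1, 1⟩⟩),
    (-1, ⟨⟨0, 0, -1, 0⟩, ⟨0, -1, 0, 0⟩, ⟨1, 1, 1, 1⟩, ⟨0, 0, 0, -1⟩⟩),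
    (-1, ⟨⟨0, -1, 0, 0⟩, ⟨1, 1, 1, 1⟩, ⟨-1, 0, 0, 0⟩, ⟨0, 0, 0, -1⟩⟩)]

/-- the boundary of `s33` -/
def su : GR :=
  [(1, ⟨⟨1, 0, 0, 0⟩, ⟨0, 1, 0, 0⟩, ⟨0, 0, 1, 0⟩, ⟨0, 0, 0, 1⟩⟩),
    (-1, ⟨⟨1, 0, 0, 0⟩, ⟨-1, 0, 0, -1⟩, ⟨1, 1, 1, 1⟩, ⟨-1, -1, 0, 0⟩⟩),
    (1, ⟨⟨1, 0, 0, 1⟩, ⟨-1, 0, 0, 0⟩, ⟨1, 1, 0, 0⟩, ⟨-1, -1, -1, -1⟩⟩),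
    (-1, ⟨⟨1, 1, 1, 1⟩, ⟨-1, -1, 0, 0⟩, ⟨1, 0, 0, 0⟩, ⟨-1, 0, 0, -1⟩⟩),
    (1, ⟨⟨1, 1, 0, 0⟩, ⟨-1, -1, -1, -1⟩, ⟨1, 0, 0, 1⟩, ⟨-1, 0, 0, 0⟩⟩),
    (-1, ⟨⟨0, 0, -1, 0⟩, ⟨0, 0, 0, -1⟩, ⟨1, 0, 0, 1⟩, ⟨0, 1, 1, 0⟩⟩),
    (1, ⟨⟨1, 0, 0, 1⟩, ⟨0, 0, 0, -1⟩, ⟨0, 0, -1, 0⟩, ⟨0, 1, 1, 0⟩⟩),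
    (-1, ⟨⟨1, 0, 0, 1⟩, ⟨0, 1, 1, 0⟩, ⟨0, 0, -1, 0⟩, ⟨0, 0, 0, -1⟩⟩),
    (-1, ⟨⟨0, 0, 0, -1⟩, ⟨1, 0, 0, 1⟩, ⟨0, 1, 1, 0⟩, ⟨0, 0, -1, 0⟩⟩)]

/-- signed stabiliser of the triangulated pentagon -/
def stF : GR :=
  [(1, ⟨⟨1, 0, 0, 0⟩, ⟨0, 1, 0, 0⟩, ⟨0, 0, 1, 0⟩, ⟨0, 0, 0, 1⟩⟩),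
    (-1, ⟨⟨1, 0, 0, 0⟩, ⟨0, 1, 0, 0⟩, ⟨0, 0, 1, 1⟩, ⟨0, 0, 0, -1⟩⟩),
    (-1, ⟨⟨0, 0, 0, 1⟩, ⟨0, 0, 1, 0⟩, ⟨0, 1, 0, 0⟩, ⟨1, 0, 0, 0⟩⟩),
    (1, ⟨⟨0, 0, 0, 1⟩, ⟨0, 0, -1, -1⟩, ⟨0, -1, 0, 0⟩, ⟨-1, 0, 0, 0⟩⟩),
    (-1, ⟨⟨1, 0, 0, 0⟩, ⟨-1, -1, 0, 0⟩, ⟨0, 0, -1, 0⟩, ⟨0, 0, 0, -1⟩⟩),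
    (1, ⟨⟨1, 0, 0, 0⟩, ⟨-1, -1, 0, 0⟩, ⟨0, 0, -1, -1⟩, ⟨0, 0, 0, 1⟩⟩),
    (1, ⟨⟨0, 0, 0, 1⟩, ⟨0, 0, 1, 0⟩, ⟨1, 1, 0, 0⟩, ⟨-1, 0, 0, 0⟩⟩),
    (-1, ⟨⟨0, 0, 0, 1⟩, ⟨0, 0, -1, -1⟩, ⟨-1, -1, 0, 0⟩, ⟨1, 0, 0, 0⟩⟩)]

/-- value on the wheel of the boundary of a facet -/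
def n0 : GR :=
  [(-2, ⟨⟨0, 0, 0, 1⟩, ⟨0, 0, 1, 0⟩, ⟨0, 1, 0, 0⟩, ⟨1, 0, 0, 0⟩⟩),
    (2, ⟨⟨0, 1, 0, 0⟩, ⟨0, 0, 1, 0⟩, ⟨0, 0, 0, 1⟩, ⟨1, 0, 0, 0⟩⟩),
    (2, ⟨⟨0, 0, 0, 1⟩, ⟨0, 0, 1, 0⟩, ⟨-1, -1, -1, -1⟩, ⟨1, 0, 0, 0⟩⟩),
    (-2, ⟨⟨0, 1, 0, 0⟩, ⟨0, 0, 1, 0⟩, ⟨-1, -1, -1, -1⟩, ⟨1, 0, 0, 0⟩⟩),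
    (2, ⟨⟨0, 0, 1, 0⟩, ⟨0, 0, 0, 1⟩, ⟨1, 0, 0, 0⟩, ⟨0, 1, 0, 0⟩⟩),
    (-2, ⟨⟨0, 0, 1, 0⟩, ⟨0, 0, 0, 1⟩, ⟨-1, -1, -1, -1⟩, ⟨0, 1, 0, 0⟩⟩),
    (-2, ⟨⟨0, 0, 1, 0⟩, ⟨0, 1, 0, 0⟩, ⟨1, 0, 0, 0⟩, ⟨0, 0, 0, 1⟩⟩),
    (2, ⟨⟨0, 0, 1, 0⟩, ⟨0, 1, 0, 0⟩, ⟨-1, -1, -1, -1⟩, ⟨0, 0, 0, 1⟩⟩),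
    (2, ⟨⟨0, 1, 0, 0⟩, ⟨1, 0, 0, 0⟩, ⟨-1, -1, -1, -1⟩, ⟨0, 0, 1, 0⟩⟩),
    (-2, ⟨⟨0, 0, 0, 1⟩, ⟨1, 0, 0, 0⟩, ⟨-1, -1, -1, -1⟩, ⟨0, 0, 1, 0⟩⟩),
    (2, ⟨⟨0, 0, 0, 1⟩, ⟨1, 0, 0, 0⟩, ⟨0, 1, 0, 0⟩, ⟨0, 0, 1, 0⟩⟩),
    (-2, ⟨⟨0, 1, 0, 0⟩, ⟨1, 0, 0, 0⟩, ⟨0, 0, 0, 1⟩, ⟨0, 0, 1, 0⟩⟩),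
    (-2, ⟨⟨1, 1, 1, 1⟩, ⟨-1, 0, 0, 0⟩, ⟨0, -1, 0, 0⟩, ⟨0, 0, -1, 0⟩⟩),
    (2, ⟨⟨1, 1, 1, 1⟩, ⟨-1, 0, 0, 0⟩, ⟨0, 0, 0, -1⟩, ⟨0, 0, -1, 0⟩⟩),
    (-2, ⟨⟨1, 0, 0, 0⟩, ⟨0, 1, 0, 0⟩, ⟨-1, -1, -1, -1⟩, ⟨0, 0, 0, 1⟩⟩),
    (2, ⟨⟨1, 1, 1, 1⟩, ⟨0, -1, 0, 0⟩, ⟨-1, 0, 0, 0⟩, ⟨0, 0, 0, -1⟩⟩),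
    (-2, ⟨⟨1, 1, 1, 1⟩, ⟨0, 0, 0, -1⟩, ⟨-1, 0, 0, 0⟩, ⟨0, -1, 0, 0⟩⟩),
    (2, ⟨⟨1, 0, 0, 0⟩, ⟨0, 0, 0, 1⟩, ⟨-1, -1, -1, -1⟩, ⟨0, 1, 0, 0⟩⟩),
    (2, ⟨⟨1, 1, 1, 1⟩, ⟨0, 0, -1, 0⟩, ⟨0, -1, 0, 0⟩, ⟨-1, 0, 0, 0⟩⟩),
    (-2, ⟨⟨1, 1, 1, 1⟩, ⟨0, 0, -1, 0⟩, ⟨0, 0, 0, -1⟩, ⟨-1, 0, 0, 0⟩⟩),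
    (-2, ⟨⟨1, 0, 0, 0⟩, ⟨0, 0, 0, 1⟩, ⟨0, 0, 1, 0⟩, ⟨0, 1, 0, 0⟩⟩),
    (2, ⟨⟨1, 0, 0, 0⟩, ⟨0, 1, 0, 0⟩, ⟨0, 0, 1, 0⟩, ⟨0, 0, 0, 1⟩⟩),
    (-2, ⟨⟨1, 1, 1, 1⟩, ⟨0, -1, 0, 0⟩, ⟨0, 0, -1, 0⟩, ⟨0, 0, 0, -1⟩⟩),
    (2, ⟨⟨1, 1, 1, 1⟩, ⟨0, 0, 0, -1⟩, ⟨0, 0, -1, 0⟩, ⟨0, -1, 0, 0⟩⟩)]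

/-- the value on the wheel of the cochain of `z` -/
def mU (z : CL) : GR := (GA.map fun A => (ipL (u0L.map A.app) z, A)).filter fun p => p.1 != 0

def V4.sub (v w : V4) : V4 := ⟨Int.sub v.a w.a, Int.sub v.b w.b, Int.sub v.c w.c, Int.sub v.d w.d⟩

/-- candidates for matrices sending `e₀, e₁, e₂, e₃, e₀ - e₁, e₁ - e₂` into `T` up to sign -/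
def enumL (T : List V4) : List M4 :=
  (pm T).flatMap fun c0 =>
    ((pm T).filter fun c1 => decide (c0.sub c1 ∈ pm T)).flatMap fun c1 =>
      ((pm T).filter fun c2 => decide (c1.sub c2 ∈ pm T)).flatMap fun c2 =>
        (pm T).map fun c3 => M4.tr ⟨c0, c1, c2, c3⟩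

/-- the signed stabiliser of the triangulated pentagon, by enumeration -/
def mF : GR :=
  (((enumL fanL).map fun A => (ipl (fanL.map A.app) fanL, A)).filter fun p => p.1 != 0).filter
    fun p => p.2.det * p.2.det == 1

end Pool.Agent.MP_cbe134_nt.V
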