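import Pool.Agent.MP_cbe134_nt.VMol

/- The double shuffle space in depth two. -/

namespace Pool.Agent.MP_cbe134_nt.V

open PowerSeries

def d2_A : Mx 2 := !![0, 1; 1, 0]

def d2_B : Mx 2 := !![1, 0; 1, -1]

def d2_G : List (Mx 2) :=
  [!![1, 0; 0, 1], !![0, 1; 1, 0], !![1, 0; 1, -1], !![1, -1; 1, 0], !![0, 1; -1, 1],
    !![-1, 1; 0, 1], !![1, -1; 0, -1], !![0, -1; 1, -1], !![-1, 1; -1, 0], !![-1, 0; -1, 1],
    !![0, -1; -1, 0], !![-1, 0; 0, -1]]

def d2_det (A : Mx 2) : ℤ := A 0 0 * A 1 1 - A 0 1 * A 1 0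

theorem d2_det_mul (A B : Mx 2) : d2_det (A * B) = d2_det A * d2_det B := by
  simp only [d2_det, Matrix.mul_apply, Fin.sum_univ_two]
  ring

theorem d2_words : d2_G = [1, d2_A, d2_B, d2_A * d2_B, d2_B * d2_A, d2_A * d2_B * d2_A,
    d2_B * d2_A * d2_B, d2_A * d2_B * d2_A * d2_B, d2_B * d2_A * d2_B * d2_A,
    d2_A * d2_B * d2_A * d2_B * d2_A, d2_B * d2_A * d2_B * d2_A * d2_B,
    d2_A * d2_B * d2_A * d2_B * d2_A * d2_B] := by decide +kernel

theorem d2_le (d : ℕ) : DS 2 d ≤ Iso d2_G (fun A => (d2_det A : ℚ)) d := by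
  intro f hf
  refine ⟨hf.1, ?_⟩
  have key : ∀ a b : ℚ, MvPolynomial.eval ![a, b] f + MvPolynomial.eval ![b, a] f = 0 ∧
      MvPolynomial.eval ![a + b, b] f + MvPolynomial.eval ![a + b, a] f = 0 := by
    intro a b
    have e : ∀ s t : ℚ, ev f [s, t] = MvPolynomial.eval ![s, t] f := fun s t => by
      unfold ev
      congr 2
      funext i
      fin_cases i <;> rfl
    have h := hf.2 [a] [b] (by simp) (by simp) rfl
    simpa [shuf, psum, e, add_comm b a] using h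
  have hx : ∀ x : Fin 2 → ℚ, x = ![x 0, x 1] := fun x => by
    funext i
    fin_cases i <;> rfl
  have hA : sub d2_A f = (d2_det d2_A : ℚ) • f := by
    refine poly_ext fun x => ?_
    have e : mv d2_A x = ![x 1, x 0] := by
      funext i
      fin_cases i <;> simp [mv, d2_A]
    have h := (key (x 0) (x 1)).1
    rw [← hx x] at h
    rw [eval_sub, e, MvPolynomial.smul_eval, show d2_det d2_A = -1 by decide]
    push_cast
    linarith
  have hB : sub d2_B f = (d2_det d2_B : ℚ) • f := by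
    refine poly_ext fun x => ?_
    have e : mv d2_B x = ![x 0, x 0 - x 1] := by
      funext i
      fin_cases i <;> simp [mv, d2_B, sub_eq_add_neg]
    have h := (key (x 0 - x 1) (x 1)).2
    rw [sub_add_cancel, ← hx x] at h
    rw [eval_sub, e, MvPolynomial.smul_eval, show d2_det d2_B = -1 by decide]
    push_cast
    linarith
  have hm : ∀ {g h : Mx 2}, sub g f = (d2_det g : ℚ) • f → sub h f = (d2_det h : ℚ) • f →
      sub (g * h) f = (d2_det (g * h) : ℚ) • f := fun {g h} h1 h2 => by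
    rw [← sub_sub, h1, map_smul, h2, smul_smul, d2_det_mul, Int.cast_mul]
  have h1 : sub (1 : Mx 2) f = (d2_det 1 : ℚ) • f := by
    rw [sub_one, show d2_det 1 = 1 by decide, Int.cast_one, one_smul]
  rw [d2_words]
  simp only [List.forall_mem_cons]
  exact ⟨h1, hA, hB, hm hA hB, hm hB hA, hm (hm hA hB) hA, hm (hm hB hA) hB,
    hm (hm (hm hA hB) hA) hB, hm (hm (hm hB hA) hB) hA, hm (hm (hm (hm hA hB) hA) hB) hA,
    hm (hm (hm (hm hB hA) hB) hA) hB, hm (hm (hm (hm (hm hA hB) hA) hB) hA) hB, by simp⟩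

/-- the inverse of a quadratic polynomial -/
noncomputable def d2_q (t e : ℤ) : ℚ⟦X⟧ := (1 - (t : ℚ⟦X⟧) * X + (e : ℚ⟦X⟧) * X ^ 2)⁻¹

theorem d2_q_mul (t e : ℤ) : (1 - (t : ℚ⟦X⟧) * X + (e : ℚ⟦X⟧) * X ^ 2) * d2_q t e = 1 :=
  PowerSeries.mul_inv_cancel _ (by simp)

theorem d2_mol (a b c e : ℤ) : mol (!![a, b; c, e] : Mx 2) = d2_q (a + e) (a * e - b * c) := by
  unfold mol d2_q
  congr 1
  have h : ((!![a, b; c, e] : Mx 2).map (Int.cast : ℤ → ℚ)).charpolyRev =
      1 - ((a + e : ℤ) : Polynomial ℚ) * Polynomial.X +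
        ((a * e - b * c : ℤ) : Polynomial ℚ) * Polynomial.X ^ 2 := by
    rw [Matrix.charpolyRev, Matrix.det_fin_two]
    simp
    ring
  rw [h, ← Polynomial.coeToPowerSeries.ringHom_apply]
  simp only [map_add, map_sub, map_mul, map_one, map_pow, map_intCast,
    Polynomial.coeToPowerSeries.ringHom_apply, Polynomial.coe_X]

theorem d2_gs (m : ℕ) (hm : m ≠ 0) : (1 - X ^ m : ℚ⟦X⟧) * gs m = 1 :=
  PowerSeries.mul_inv_cancel _ (by simp [hm])

theorem d2_sum : (d2_G.map fun A => (d2_det A : ℚ) • mol A).sum = 12 * ser2 := by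
  have e : (d2_G.map fun A => (d2_det A : ℚ) • mol A).sum =
      d2_q 2 1 + d2_q (-2) 1 + 2 * d2_q 1 1 + 2 * d2_q (-1) 1 - 6 * d2_q 0 (-1) := by
    simp only [d2_G, List.map_cons, List.map_nil, List.sum_cons, List.sum_nil, d2_mol, d2_det,
      Matrix.of_apply, Matrix.cons_val', Matrix.cons_val_zero, Matrix.cons_val_one,
      Matrix.cons_val_fin_one]
    norm_num
    ring
  have h1 := d2_q_mul 2 1
  have h2 := d2_q_mul (-2) 1
  have h3 := d2_q_mul 1 1
  have h4 := d2_q_mul (-1) 1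
  have h5 := d2_q_mul 0 (-1)
  have h6 := d2_gs 2 (by norm_num)
  have h7 := d2_gs 6 (by norm_num)
  push_cast at h1 h2 h3 h4 h5
  have hne : ((1 - X ^ 2) * (1 - X ^ 6) : ℚ⟦X⟧) ≠ 0 :=
    mul_ne_zero (left_ne_zero_of_mul_eq_one h6) (left_ne_zero_of_mul_eq_one h7)
  refine mul_left_cancel₀ hne ?_
  rw [e, ser2]
  linear_combination (1 + X) ^ 2 * (1 + X + X ^ 2) * (1 - X + X ^ 2) * h1 +
    (1 - X) ^ 2 * (1 + X + X ^ 2) * (1 - X + X ^ 2) * h2 +
    2 * (1 - X ^ 2) ^ 2 * (1 + X + X ^ 2) * h3 + 2 * (1 - X ^ 2) ^ 2 * (1 - X + X ^ 2) * h4 -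
    6 * (1 - X ^ 6) * h5 - 12 * X ^ 6 * (1 - X ^ 6) * gs 6 * h6 - 12 * X ^ 6 * h7

theorem ds2_le (d : ℕ) : (Module.finrank ℚ (DS 2 d) : ℚ) ≤ PowerSeries.coeff d ser2 := by
  have hsq : ∀ A ∈ d2_G, d2_det A * d2_det A = 1 := by decide +kernel
  have h := molien d2_G (fun A => (d2_det A : ℚ)) (by decide +kernel) (by decide +kernel)
    (by decide +kernel) (by decide +kernel) (fun A hA => by exact_mod_cast hsq A hA)
    (fun A _ B _ => by rw [d2_det_mul, Int.cast_mul]) d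
  rw [d2_sum, show (12 : ℚ⟦X⟧) = C 12 from (map_ofNat C 12).symm, coeff_C_mul,
    show d2_G.length = 12 from rfl] at h
  have := fin_of_le (L := Iso d2_G (fun A => (d2_det A : ℚ)) d) (d := d) fun f hf => hf.1
  have h2 : (Module.finrank ℚ (DS 2 d) : ℚ) ≤
      Module.finrank ℚ (Iso d2_G (fun A => (d2_det A : ℚ)) d) := by
    exact_mod_cast Submodule.finrank_mono (d2_le d)
  push_cast at h
  linarith

end Pool.Agent.MP_cbe134_nt.V
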