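import Pool.Agent.MP_cbe134_nt.VDep3a

/- The relations of the double shuffle space in depth three. -/

open MvPolynomial Matrix

namespace Pool.Agent.MP_cbe134_nt.V

/-- the value at a point -/
noncomputable def d3_E (f : Pn 3) (a b c : ℚ) : ℚ := eval ![a, b, c] f

theorem d3_ev (f : Pn 3) (a b c : ℚ) : ev f [a, b, c] = d3_E f a b c := by
  rw [ev, d3_E]
  congr 2
  funext i
  fin_cases i <;> rfl

theorem d3_eval (f : Pn 3) (x : Fin 3 → ℚ) : eval x f = d3_E f (x 0) (x 1) (x 2) := by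
  rw [d3_E]
  congr 2
  funext i
  fin_cases i <;> rfl

theorem d3_eval_sub (a b c d e f g h i : ℤ) (F : Pn 3) (x : Fin 3 → ℚ) :
    eval x (sub (d3_M (a, b, c, d, e, f, g, h, i)) F) =
      d3_E F (a * x 0 + b * x 1 + c * x 2) (d * x 0 + e * x 1 + f * x 2)
        (g * x 0 + h * x 1 + i * x 2) := by
  rw [eval_sub, d3_eval]
  simp [mv, d3_M, Fin.sum_univ_three]

variable {d : ℕ} {f : Pn 3}

theorem d3_relY (hf : f ∈ DS 3 d) (a b c : ℚ) :
    d3_E f a b c + d3_E f b a c + d3_E f b c a = 0 := by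
  have h := (hf.2 [a] [b, c] (by simp) (by simp) rfl).1
  simp only [shuf, List.map_cons, List.map_nil, List.cons_append, List.nil_append,
    List.sum_cons, List.sum_nil, d3_ev] at h
  linarith

theorem d3_relX (hf : f ∈ DS 3 d) (a b c : ℚ) :
    d3_E f a b c + d3_E f a (a - b + c) c + d3_E f a (a - b + c) (a - b) = 0 := by
  have h := (hf.2 [a - b] [b - c, c] (by simp) (by simp) rfl).2
  simp only [shuf, psum, List.map_cons, List.map_nil, List.cons_append, List.nil_append,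
    List.sum_cons, List.sum_nil, d3_ev] at h
  have e1 : a - b + (b - c + (c + 0)) = a := by ring
  have e2 : b - c + (c + 0) = b := by ring
  have e3 : b - c + (a - b + (c + 0)) = a := by ring
  have e4 : a - b + (c + 0) = a - b + c := by ring
  have e5 : b - c + (c + (a - b + 0)) = a := by ring
  have e6 : c + (a - b + 0) = a - b + c := by ring
  rw [e1, e2, e3, e4, e5, e6] at h
  simp only [add_zero] at h
  linarith

theorem d3_rY (hf : f ∈ DS 3 d) (a b c : ℚ) : d3_E f c b a = d3_E f a b c := by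
  have h1 := d3_relY hf a b c
  have h2 := d3_relY hf c b a
  linarith

theorem d3_rX (hf : f ∈ DS 3 d) (a b c : ℚ) : d3_E f a (a - c) (a - b) = d3_E f a b c := by
  have h1 := d3_relX hf a b c
  have h2 := d3_relX hf a (a - c) (a - b)
  have e1 : a - (a - c) + (a - b) = a - b + c := by ring
  have e2 : a - (a - c) = c := by ring
  rw [e1, e2] at h2
  linarith

theorem d3_neg_E (hf : f ∈ Hd 3 d) (a b c : ℚ) :
    d3_E f (-a) (-b) (-c) = (-1) ^ d * d3_E f a b c := by
  rw [d3_E, d3_E, ← eval_smul_Hd hf]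
  congr 2
  funext i
  fin_cases i <;> simp

theorem d3_odd (hd : Odd d) (hf : f ∈ DS 3 d) : f = 0 := by
  have rot : ∀ a b c : ℚ, d3_E f (b - a) (c - a) (-a) = -d3_E f a b c := by
    intro a b c
    have h1 := d3_neg_E hf.1 a (a - c) (a - b)
    rw [hd.neg_one_pow, d3_rX hf, neg_sub, neg_sub] at h1
    rw [← d3_rY hf, h1]
    ring
  refine poly_ext fun x => ?_
  rw [d3_eval, map_zero]
  generalize x 0 = a
  generalize x 1 = b
  generalize x 2 = c
  have h0 := d3_relY hf a b c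
  have h1 := d3_relY hf (-b) (a - b) (c - b)
  have h2 := rot b a c
  have h3 := rot (-b) (a - b) (c - b)
  have h4 := rot (a - b) (-b) (c - b)
  have h5 := rot (b - c) (-c) (a - c)
  have h6 := rot c b a
  have h7 := d3_rY hf a b c
  have h8 := d3_rY hf b c a
  have e1 : a - b - -b = a := by ring
  have e2 : c - b - -b = c := by ring
  have e3 : -b - (a - b) = -a := by ring
  have e4 : c - b - (a - b) = c - a := by ring
  rw [e1, e2, neg_neg] at h3
  rw [e3, e4, neg_sub] at h4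
  have h9 := d3_rY hf (b - a) (c - a) (-a)
  have h10 := rot a b c
  linarith

theorem d3_zero (hf : f ∈ DS 3 0) : f = 0 := by
  have hc : ∀ a b c : ℚ, d3_E f a b c = d3_E f 0 0 0 := by
    intro a b c
    have h := eval_smul_Hd hf.1 0 ![a, b, c]
    rw [pow_zero, one_mul, zero_smul, d3_eval f 0] at h
    exact h.symm
  refine poly_ext fun x => ?_
  have h0 := d3_relY hf 0 0 0
  rw [d3_eval, map_zero, hc]
  linarith

/-- the product of a list of matrices -/
def d3_prod (w : List T9) : T9 := w.foldr d3_mul d3_one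

theorem d3_fix_prod {g : Pn 3} (w : List T9) (h : ∀ a ∈ w, sub (d3_M a) g = g) :
    sub (d3_M (d3_prod w)) g = g := by
  induction w with
  | nil => rw [show d3_prod [] = d3_one from rfl, d3_M_one, sub_one]
  | cons a w ih =>
    rw [show d3_prod (a :: w) = d3_mul a (d3_prod w) from rfl, d3_M_mul, ← sub_sub,
      h a List.mem_cons_self, ih fun b hb => h b (List.mem_cons_of_mem _ hb)]

def d3_gens : List T9 := [(0, 0, 1, 0, 1, 0, 1, 0, 0), (1, 0, 0, 1, 0, -1, 1, -1, 0), d3_neg]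

def d3_words : List (List (Fin 3)) :=
  [[2], [2, 1], [2, 1, 0, 1], [2, 0], [1, 0, 1, 0], [2, 0, 1, 0], [2, 0, 1], [2, 1, 0], [0, 1, 0],
   [2, 1, 0, 1, 0], [0], [1, 0, 1], [1], [1, 0], [0, 1], []]

theorem d3_D_words : ∀ a ∈ d3_D, ∃ w ∈ d3_words, d3_tr a = d3_prod (w.map d3_gens.get) := by
  decide +kernel

theorem d3_fix_D (hd : Even d) (hf : f ∈ DS 3 d) : ∀ a ∈ d3_D, sub (d3_M a)ᵀ f = f := by
  intro a ha
  obtain ⟨w, -, e⟩ := d3_D_words a ha
  rw [← d3_M_tr, e]
  refine d3_fix_prod _ fun b hb => ?_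
  obtain ⟨i, -, rfl⟩ := List.mem_map.1 hb
  fin_cases i
  · refine poly_ext fun x => ?_
    change eval x (sub (d3_M (0, 0, 1, 0, 1, 0, 1, 0, 0)) f) = _
    rw [d3_eval_sub, d3_eval f x, ← d3_rY hf (x 0)]
    congr 1 <;> push_cast <;> ring
  · refine poly_ext fun x => ?_
    change eval x (sub (d3_M (1, 0, 0, 1, 0, -1, 1, -1, 0)) f) = _
    rw [d3_eval_sub, d3_eval f x, ← d3_rX hf (x 0)]
    congr 1 <;> push_cast <;> ring
  · change sub (d3_M d3_neg) f = f
    rw [d3_M_neg, sub_neg_even _ hf.1 hd, sub_one]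

theorem d3_sumY (hf : f ∈ DS 3 d) :
    f + sub (d3_M (0, 1, 0, 1, 0, 0, 0, 0, 1)) f + sub (d3_M (0, 1, 0, 0, 0, 1, 1, 0, 0)) f = 0 := by
  refine poly_ext fun x => ?_
  rw [map_add, map_add, d3_eval_sub, d3_eval_sub, d3_eval f x, map_zero,
    ← d3_relY hf (x 0) (x 1) (x 2)]
  congr 2 <;> congr 1 <;> push_cast <;> ring

theorem d3_sumX (hf : f ∈ DS 3 d) :
    f + sub (d3_M (1, 0, 0, 1, -1, 1, 0, 0, 1)) f +
      sub (d3_M (1, 0, 0, 1, -1, 1, 1, -1, 0)) f = 0 := by
  refine poly_ext fun x => ?_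
  rw [map_add, map_add, d3_eval_sub, d3_eval_sub, d3_eval f x, map_zero,
    ← d3_relX hf (x 0) (x 1) (x 2)]
  congr 2 <;> congr 1 <;> push_cast <;> ring

theorem d3_orth {g : Pn 3} (a b : T9) (h : f + sub (d3_M a) f + sub (d3_M b) f = 0)
    (ha : sub (d3_M (d3_tr a)) g = g) (hb : sub (d3_M (d3_tr b)) g = g) : Bp 3 f g = 0 := by
  have h1 := Bp_sub (d3_M (d3_tr a)) f g
  have h2 := Bp_sub (d3_M (d3_tr b)) f g
  rw [ha, d3_M_tr, Matrix.transpose_transpose] at h1
  rw [hb, d3_M_tr, Matrix.transpose_transpose] at h2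
  have h3 := congrArg (fun u => Bp 3 u g) h
  simp only [map_add, LinearMap.add_apply, h1, h2, map_zero, LinearMap.zero_apply] at h3
  linarith

end Pool.Agent.MP_cbe134_nt.V
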