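import Pool.Agent.MP_cbe134_nt.VMol
import Pool.Agent.MP_cbe134_nt.VApol
import Pool.Agent.MP_cbe134_nt.VDep3b

/- The double shuffle space in depth three. -/

namespace Pool.Agent.MP_cbe134_nt.V

open Matrix

/-- the average over the list -/
noncomputable def d3_av (L : List T9) : Pn 3 →ₗ[ℚ] Pn 3 :=
  (L.length : ℚ)⁻¹ • (L.map fun a => (sub (d3_M a)).toLinearMap).sum

theorem d3_av_apply (L : List T9) (g : Pn 3) :
    d3_av L g = (L.length : ℚ)⁻¹ • (L.map fun a => sub (d3_M a) g).sum := by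
  rw [d3_av, LinearMap.smul_apply]
  congr 1
  induction L with
  | nil => rfl
  | cons a L ih => simp only [List.map_cons, List.sum_cons, LinearMap.add_apply, ih]; rfl

theorem d3_av_mem {L : List T9} (h : d3_Grp L) {d : ℕ} {g : Pn 3} (hg : g ∈ Hd 3 d) :
    d3_av L g ∈ d3_I L d := by
  have := avg_mem (L.map d3_M) (fun _ => 1) (h.1.map d3_M_inj) (d3_hmul h) (d3_hinv h)
    (by simp) (by simp) hg
  rw [d3_av_apply]
  refine Submodule.smul_mem _ _ ?_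
  simpa only [List.map_map, Function.comp_def, one_smul, d3_I] using this

theorem d3_len {L : List T9} (h : d3_Grp L) : (L.length : ℚ) ≠ 0 :=
  Nat.cast_ne_zero.2 (List.length_pos_of_mem h.2.1).ne'

theorem d3_av_fix {L : List T9} (h : d3_Grp L) {d : ℕ} {g : Pn 3} (hg : g ∈ d3_I L d) :
    d3_av L g = g := by
  rw [d3_av_apply, List.map_congr_left (d3_mem_I.1 hg).2, List.map_const', List.sum_replicate,
    ← Nat.cast_smul_eq_nsmul ℚ, smul_smul, inv_mul_cancel₀ (d3_len h), one_smul]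

theorem d3_av_Bp {L : List T9} (h : d3_Grp L) {f : Pn 3} (hf : ∀ a ∈ L, sub (d3_M a)ᵀ f = f)
    (g : Pn 3) : Bp 3 f (d3_av L g) = Bp 3 f g := by
  have e : ∀ a ∈ L, (Bp 3 f ∘ fun a => sub (d3_M a) g) a = Bp 3 f g := fun a ha => by
    rw [Function.comp_apply, ← Bp_sub, hf a ha]
  rw [d3_av_apply, map_smul, map_list_sum, List.map_map, List.map_congr_left e, List.map_const',
    List.sum_replicate, nsmul_eq_mul, smul_eq_mul, inv_mul_cancel_left₀ (d3_len h)]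

theorem d3_I_odd {L : List T9} (h : d3_Grp L) {d : ℕ} (hd : Odd d) : d3_I L d = ⊥ := by
  rw [eq_bot_iff]
  intro g hg
  obtain ⟨h1, h2⟩ := d3_mem_I.1 hg
  have h3 := h2 _ h.2.2.1
  rw [d3_M_neg, sub_neg _ h1, sub_one, hd.neg_one_pow, neg_one_smul] at h3
  have h4 : (2 : ℚ) • g = 0 := by
    rw [two_smul]
    nth_rewrite 1 [← h3]
    exact neg_add_cancel g
  simpa using h4

def d3_w0 : List T9 :=
  [(-1, -1, -1, 0, 1, 1, 0, -1, 0), (-1, -1, -1, 0, 1, 0, 0, 0, 1),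
   (-1, -1, 0, 0, 0, -1, 0, 1, 1), (-1, -1, -1, 0, 1, 0, 0, 0, 1)]

def d3_w1 : List T9 := (0, 1, 0, 1, 0, 0, 0, 0, 1) :: (d3_w0 ++ [(0, 1, 0, 1, 0, 0, 0, 0, 1)])

def d3_w2 : List T9 := (0, 0, 1, 0, 1, 0, 1, 0, 0) :: (d3_w0 ++ [(0, 0, 1, 0, 1, 0, 1, 0, 0)])

theorem d3_inf {d : ℕ} (hd : 0 < d) : d3_I d3_Gx d ⊓ d3_I d3_Gy d = ⊥ := by
  rw [eq_bot_iff]
  rintro g ⟨hx, hy⟩
  obtain ⟨h1, hx⟩ := d3_mem_I.1 hx
  obtain ⟨-, hy⟩ := d3_mem_I.1 hy
  have key : ∀ w : List T9, (∀ a ∈ w, a ∈ d3_Gx ∨ a ∈ d3_Gy) → sub (d3_M (d3_prod w)) g = g :=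
    fun w hw => d3_fix_prod w fun a ha => (hw a ha).elim (hx a) (hy a)
  have k0 := key d3_w0 (by decide +kernel)
  have k1 := key d3_w1 (by decide +kernel)
  have k2 := key d3_w2 (by decide +kernel)
  rw [show d3_M (d3_prod d3_w0) = 1 + Matrix.single 0 2 1 by decide +kernel] at k0
  rw [show d3_M (d3_prod d3_w1) = 1 + Matrix.single 1 2 1 by decide +kernel] at k1
  rw [show d3_M (d3_prod d3_w2) = 1 + Matrix.single 2 0 1 by decide +kernel] at k2
  refine eq_zero_of_indep h1 hd fun i => ?_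
  fin_cases i
  · exact indep_of_transv (by decide) one_ne_zero k0
  · exact indep_of_transv (by decide) one_ne_zero k1
  · exact indep_of_transv (by decide) one_ne_zero k2

theorem d3_even {d : ℕ} (hd : 0 < d) (he : Even d) :
    Module.finrank ℚ (DS 3 d) + Module.finrank ℚ (d3_I d3_Gx d) +
      Module.finrank ℚ (d3_I d3_Gy d) ≤ Module.finrank ℚ (d3_I d3_D d) := by
  have h := red_dim (d := d) (d3_av d3_D)
    (fun g hg => (d3_mem_I.1 (d3_av_mem d3_grp_D hg)).1)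
    (fun g hg => d3_av_fix d3_grp_D (d3_av_mem d3_grp_D hg))
    (DS 3 d) (d3_I d3_D d) (d3_I d3_Gx d) (d3_I d3_Gy d) (fun f hf => hf.1)
    (fun g => ⟨fun hg => ⟨(d3_mem_I.1 hg).1, d3_av_fix d3_grp_D hg⟩,
      fun hg => hg.2 ▸ d3_av_mem d3_grp_D hg.1⟩)
    (fun g hg => d3_mem_I.2 ⟨(d3_mem_I.1 hg).1,
      fun a ha => (d3_mem_I.1 hg).2 a (d3_D_sub.1 a ha)⟩)
    (fun g hg => d3_mem_I.2 ⟨(d3_mem_I.1 hg).1,
      fun a ha => (d3_mem_I.1 hg).2 a (d3_D_sub.2 a ha)⟩)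
    (fun f hf g _ hg => by rw [← d3_av_Bp d3_grp_D (d3_fix_D he hf), hg, map_zero])
    (fun f hf g hg => d3_orth _ _ (d3_sumX hf) ((d3_mem_I.1 hg).2 _ (by decide +kernel))
      ((d3_mem_I.1 hg).2 _ (by decide +kernel)))
    (fun f hf g hg => d3_orth _ _ (d3_sumY hf) ((d3_mem_I.1 hg).2 _ (by decide +kernel))
      ((d3_mem_I.1 hg).2 _ (by decide +kernel)))
  rwa [d3_inf hd, finrank_bot, add_zero] at h

theorem ds3_le (d : ℕ) : (Module.finrank ℚ (DS 3 d) : ℚ) ≤ PowerSeries.coeff d ser3 := by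
  rcases Nat.eq_zero_or_pos d with rfl | hd
  · rw [show DS 3 0 = ⊥ from eq_bot_iff.2 fun f hf => d3_zero hf, finrank_bot]
    simp [ser3]
  · rw [d3_coeff d hd.ne']
    rcases Nat.even_or_odd d with he | ho
    · have h : ((_ : ℕ) : ℚ) ≤ (_ : ℕ) := Nat.cast_le.2 (d3_even hd he)
      push_cast at h
      linarith
    · rw [show DS 3 d = ⊥ from eq_bot_iff.2 fun f hf => d3_odd ho hf, d3_I_odd d3_grp_D ho,
        d3_I_odd d3_grp_Gx ho, d3_I_odd d3_grp_Gy ho, finrank_bot]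
      simp

end Pool.Agent.MP_cbe134_nt.V
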