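import Pool.Agent.MP_cbe134_nt.VMol
import Pool.Agent.MP_cbe134_nt.VApol

/- Three finite groups of integer matrices and their Molien series. -/

open Matrix

namespace Pool.Agent.MP_cbe134_nt.V

/-- the entries of a three by three matrix -/
abbrev T9 : Type := ℤ × ℤ × ℤ × ℤ × ℤ × ℤ × ℤ × ℤ × ℤ

instance d3_dec4 : DecidableEq (ℤ × ℤ × ℤ × ℤ) := inferInstance

instance d3_dec9 : DecidableEq T9 := inferInstance

def d3_M : T9 → Mx 3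
  | (a, b, c, d, e, f, g, h, i) => !![a, b, c; d, e, f; g, h, i]

def d3_mul : T9 → T9 → T9
  | (a, b, c, d, e, f, g, h, i), (a', b', c', d', e', f', g', h', i') =>
    (a * a' + b * d' + c * g', a * b' + b * e' + c * h', a * c' + b * f' + c * i',
     d * a' + e * d' + f * g', d * b' + e * e' + f * h', d * c' + e * f' + f * i',
     g * a' + h * d' + i * g', g * b' + h * e' + i * h', g * c' + h * f' + i * i')

def d3_tr : T9 → T9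
  | (a, b, c, d, e, f, g, h, i) => (a, d, g, b, e, h, c, f, i)

def d3_one : T9 := (1, 0, 0, 0, 1, 0, 0, 0, 1)

def d3_neg : T9 := (-1, 0, 0, 0, -1, 0, 0, 0, -1)

/-- the coefficients of the characteristic polynomial -/
def d3_cp : T9 → ℤ × ℤ × ℤ
  | (a, b, c, d, e, f, g, h, i) =>
    (a + e + i, a * e - b * d + a * i - c * g + e * i - f * h,
      a * (e * i - f * h) - b * (d * i - f * g) + c * (d * h - e * g))

def d3_D : List T9 :=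
  [(-1, 0, 0, 0, -1, 0, 0, 0, -1), (-1, -1, -1, 0, 0, 1, 0, 1, 0),
   (-1, 0, 0, 1, 1, 1, 0, 0, -1), (0, 0, -1, 0, -1, 0, -1, 0, 0),
   (0, 0, 1, -1, -1, -1, 1, 0, 0), (0, 1, 0, 1, 0, 0, -1, -1, -1),
   (-1, -1, -1, 1, 0, 0, 0, 1, 0), (0, 1, 0, 0, 0, 1, -1, -1, -1),
   (0, -1, 0, -1, 0, 0, 1, 1, 1), (0, 0, -1, 1, 1, 1, -1, 0, 0),
   (0, 0, 1, 0, 1, 0, 1, 0, 0), (1, 0, 0, -1, -1, -1, 0, 0, 1),
   (1, 1, 1, 0, 0, -1, 0, -1, 0), (0, -1, 0, 0, 0, -1, 1, 1, 1),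
   (1, 1, 1, -1, 0, 0, 0, -1, 0), (1, 0, 0, 0, 1, 0, 0, 0, 1)]

def d3_Gx : List T9 :=
  [(-1, 0, 0, 0, -1, 0, 0, 0, -1), (-1, -1, -1, 0, 0, 1, 0, 1, 0),
   (-1, -1, 0, 0, 1, 0, 0, -1, -1), (-1, 0, 0, 0, -1, -1, 0, 0, 1),
   (-1, 0, 0, 1, 1, 1, 0, 0, -1), (0, 0, -1, 0, -1, 0, -1, 0, 0),
   (0, 0, 1, -1, -1, -1, 1, 0, 0), (0, 1, 0, 1, 0, 0, -1, -1, -1),
   (0, 1, 1, 0, -1, 0, 1, 1, 0), (1, 0, 0, -1, -1, 0, 0, 0, -1),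
   (-1, -1, -1, 1, 0, 0, 0, 1, 0), (-1, -1, 0, 1, 1, 1, 0, -1, -1),
   (0, 0, -1, -1, -1, 0, 1, 0, 0), (0, 0, 1, 0, -1, -1, -1, 0, 0),
   (0, 1, 0, 0, 0, 1, -1, -1, -1), (0, 1, 1, -1, -1, -1, 1, 1, 0),
   (-1, -1, -1, 0, 1, 1, 0, -1, 0), (-1, -1, 0, 0, 0, -1, 0, 1, 1),
   (0, -1, -1, 0, 0, 1, 1, 1, 0), (0, -1, 0, 1, 1, 0, -1, -1, -1),
   (0, 1, 0, 0, -1, -1, 1, 1, 1), (0, 1, 1, 1, 0, 0, -1, -1, 0),
   (1, 1, 0, -1, 0, 0, 0, -1, -1), (1, 1, 1, -1, -1, 0, 0, 1, 0),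
   (-1, -1, -1, 1, 1, 0, 0, -1, 0), (-1, -1, 0, 1, 0, 0, 0, 1, 1),
   (0, -1, -1, -1, 0, 0, 1, 1, 0), (0, -1, 0, 0, 1, 1, -1, -1, -1),
   (0, 1, 0, -1, -1, 0, 1, 1, 1), (0, 1, 1, 0, 0, -1, -1, -1, 0),
   (1, 1, 0, 0, 0, 1, 0, -1, -1), (1, 1, 1, 0, -1, -1, 0, 1, 0),
   (-1, 0, 0, 1, 1, 0, 0, 0, 1), (0, -1, -1, 0, 1, 0, -1, -1, 0),
   (0, -1, 0, -1, 0, 0, 1, 1, 1), (0, 0, -1, 1, 1, 1, -1, 0, 0),
   (0, 0, 1, 0, 1, 0, 1, 0, 0), (1, 0, 0, -1, -1, -1, 0, 0, 1),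
   (1, 0, 0, 0, 1, 1, 0, 0, -1), (1, 1, 0, 0, -1, 0, 0, 1, 1),
   (1, 1, 1, 0, 0, -1, 0, -1, 0), (0, -1, -1, 1, 1, 1, -1, -1, 0),
   (0, -1, 0, 0, 0, -1, 1, 1, 1), (0, 0, -1, 0, 1, 1, 1, 0, 0),
   (0, 0, 1, 1, 1, 0, -1, 0, 0), (1, 1, 0, -1, -1, -1, 0, 1, 1),
   (1, 1, 1, -1, 0, 0, 0, -1, 0), (1, 0, 0, 0, 1, 0, 0, 0, 1)]

def d3_Gy : List T9 :=
  [(-1, 0, 0, 0, -1, 0, 0, 0, -1), (-1, -1, -1, 0, 0, 1, 0, 1, 0),
   (-1, 0, 0, 0, -1, 0, 1, 1, 1), (-1, 0, 0, 0, 0, -1, 0, -1, 0),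
   (-1, 0, 0, 1, 1, 1, 0, 0, -1), (0, -1, 0, -1, 0, 0, 0, 0, -1),
   (0, 0, -1, 0, -1, 0, -1, 0, 0), (0, 0, 1, -1, -1, -1, 1, 0, 0),
   (0, 1, 0, 1, 0, 0, -1, -1, -1), (1, 1, 1, 0, -1, 0, 0, 0, -1),
   (-1, -1, -1, 0, 0, 1, 1, 0, 0), (-1, -1, -1, 1, 0, 0, 0, 1, 0),
   (0, 0, 1, -1, -1, -1, 0, 1, 0), (0, 0, 1, 1, 0, 0, -1, -1, -1),
   (0, 1, 0, -1, -1, -1, 1, 0, 0), (0, 1, 0, 0, 0, 1, -1, -1, -1),
   (-1, 0, 0, 0, 0, -1, 1, 1, 1), (-1, 0, 0, 1, 1, 1, 0, -1, 0),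
   (0, -1, 0, 0, 0, -1, -1, 0, 0), (0, -1, 0, 1, 1, 1, 0, 0, -1),
   (0, 0, -1, -1, 0, 0, 0, -1, 0), (0, 0, -1, 0, -1, 0, 1, 1, 1),
   (1, 1, 1, -1, 0, 0, 0, 0, -1), (1, 1, 1, 0, -1, 0, -1, 0, 0),
   (-1, -1, -1, 0, 1, 0, 1, 0, 0), (-1, -1, -1, 1, 0, 0, 0, 0, 1),
   (0, 0, 1, 0, 1, 0, -1, -1, -1), (0, 0, 1, 1, 0, 0, 0, 1, 0),
   (0, 1, 0, -1, -1, -1, 0, 0, 1), (0, 1, 0, 0, 0, 1, 1, 0, 0),
   (1, 0, 0, -1, -1, -1, 0, 1, 0), (1, 0, 0, 0, 0, 1, -1, -1, -1),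
   (-1, -1, -1, 0, 1, 0, 0, 0, 1), (0, -1, 0, -1, 0, 0, 1, 1, 1),
   (0, 0, -1, 1, 1, 1, -1, 0, 0), (0, 0, 1, 0, 1, 0, 1, 0, 0),
   (0, 1, 0, 1, 0, 0, 0, 0, 1), (1, 0, 0, -1, -1, -1, 0, 0, 1),
   (1, 0, 0, 0, 0, 1, 0, 1, 0), (1, 0, 0, 0, 1, 0, -1, -1, -1),
   (1, 1, 1, 0, 0, -1, 0, -1, 0), (0, -1, 0, 0, 0, -1, 1, 1, 1),
   (0, -1, 0, 1, 1, 1, -1, 0, 0), (0, 0, -1, -1, 0, 0, 1, 1, 1),
   (0, 0, -1, 1, 1, 1, 0, -1, 0), (1, 1, 1, -1, 0, 0, 0, -1, 0),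
   (1, 1, 1, 0, 0, -1, -1, 0, 0), (1, 0, 0, 0, 1, 0, 0, 0, 1)]

theorem d3_M_mul (a b : T9) : d3_M (d3_mul a b) = d3_M a * d3_M b := by
  obtain ⟨a1, a2, a3, a4, a5, a6, a7, a8, a9⟩ := a
  obtain ⟨b1, b2, b3, b4, b5, b6, b7, b8, b9⟩ := b
  simp only [d3_M, d3_mul, Matrix.mul_fin_three]

theorem d3_M_tr (a : T9) : d3_M (d3_tr a) = (d3_M a)ᵀ := by
  obtain ⟨a1, a2, a3, a4, a5, a6, a7, a8, a9⟩ := a
  ext i j
  fin_cases i <;> fin_cases j <;> rfl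

theorem d3_M_one : d3_M d3_one = 1 := by
  ext i j
  fin_cases i <;> fin_cases j <;> rfl

theorem d3_M_neg : d3_M d3_neg = -1 := by
  ext i j
  fin_cases i <;> fin_cases j <;> rfl

theorem d3_M_inj : Function.Injective d3_M := by
  rintro ⟨a1, a2, a3, a4, a5, a6, a7, a8, a9⟩ ⟨b1, b2, b3, b4, b5, b6, b7, b8, b9⟩ h
  have e := fun i j => congrFun (congrFun h i) j
  have h1 : a1 = b1 := e 0 0
  have h2 : a2 = b2 := e 0 1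
  have h3 : a3 = b3 := e 0 2
  have h4 : a4 = b4 := e 1 0
  have h5 : a5 = b5 := e 1 1
  have h6 : a6 = b6 := e 1 2
  have h7 : a7 = b7 := e 2 0
  have h8 : a8 = b8 := e 2 1
  have h9 : a9 = b9 := e 2 2
  rw [h1, h2, h3, h4, h5, h6, h7, h8, h9]

/-- the list is a group -/
def d3_Grp (L : List T9) : Prop :=
  L.Nodup ∧ d3_one ∈ L ∧ d3_neg ∈ L ∧ (∀ a ∈ L, ∀ b ∈ L, d3_mul a b ∈ L) ∧
    ∀ a ∈ L, ∃ b ∈ L, d3_mul a b = d3_one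

theorem d3_grp_D : d3_Grp d3_D :=
  ⟨by decide +kernel, by decide +kernel, by decide +kernel, by decide +kernel, by decide +kernel⟩

theorem d3_grp_Gx : d3_Grp d3_Gx :=
  ⟨by decide +kernel, by decide +kernel, by decide +kernel, by decide +kernel, by decide +kernel⟩

theorem d3_grp_Gy : d3_Grp d3_Gy :=
  ⟨by decide +kernel, by decide +kernel, by decide +kernel, by decide +kernel, by decide +kernel⟩

theorem d3_D_sub : (∀ a ∈ d3_D, a ∈ d3_Gx) ∧ ∀ a ∈ d3_D, a ∈ d3_Gy := by decide +kernel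

/-- the series attached to the coefficients of a characteristic polynomial -/
noncomputable def d3_ms (e : ℤ × ℤ × ℤ) : PowerSeries ℚ :=
  (1 - (e.1 : PowerSeries ℚ) * PowerSeries.X + (e.2.1 : PowerSeries ℚ) * PowerSeries.X ^ 2
    - (e.2.2 : PowerSeries ℚ) * PowerSeries.X ^ 3)⁻¹

theorem d3_mol (a : T9) : mol (d3_M a) = d3_ms (d3_cp a) := by
  obtain ⟨a1, a2, a3, a4, a5, a6, a7, a8, a9⟩ := a
  have e : ((d3_M (a1, a2, a3, a4, a5, a6, a7, a8, a9)).map (Int.cast : ℤ → ℚ)).charpolyRev =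
      1 - ((a1 + a5 + a9 : ℤ) : Polynomial ℚ) * Polynomial.X +
        ((a1 * a5 - a2 * a4 + a1 * a9 - a3 * a7 + a5 * a9 - a6 * a8 : ℤ) : Polynomial ℚ) *
          Polynomial.X ^ 2 -
        ((a1 * (a5 * a9 - a6 * a8) - a2 * (a4 * a9 - a6 * a7) + a3 * (a4 * a8 - a5 * a7) : ℤ) :
          Polynomial ℚ) * Polynomial.X ^ 3 := by
    rw [Matrix.charpolyRev, Matrix.det_fin_three]
    simp [d3_M]
    ring
  rw [mol, e, d3_ms]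
  congr 1
  rw [← Polynomial.coeToPowerSeries.ringHom_apply]
  simp only [map_sub, map_add, map_mul, map_pow, map_one, map_intCast,
    Polynomial.coeToPowerSeries.ringHom_apply, Polynomial.coe_X]
  rfl

/-- the common denominator -/
noncomputable def d3_W : PowerSeries ℚ := gs 2 * gs 4 * gs 6

theorem d3_gs (m : ℕ) (hm : m ≠ 0) : gs m * (1 - PowerSeries.X ^ m) = 1 :=
  PowerSeries.inv_mul_cancel _ (by simp [hm])

theorem d3_W_mul : d3_W * ((1 - PowerSeries.X ^ 2) * (1 - PowerSeries.X ^ 4) *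
    (1 - PowerSeries.X ^ 6)) = 1 := by
  have h2 := d3_gs 2 (by norm_num)
  have h4 := d3_gs 4 (by norm_num)
  have h6 := d3_gs 6 (by norm_num)
  calc _ = (gs 2 * (1 - PowerSeries.X ^ 2)) * (gs 4 * (1 - PowerSeries.X ^ 4)) *
      (gs 6 * (1 - PowerSeries.X ^ 6)) := by rw [d3_W]; ring
    _ = 1 := by rw [h2, h4, h6]; ring

theorem d3_ms_eq (e : ℤ × ℤ × ℤ) (q : PowerSeries ℚ)
    (h : q * (1 - (e.1 : PowerSeries ℚ) * PowerSeries.X +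
      (e.2.1 : PowerSeries ℚ) * PowerSeries.X ^ 2 - (e.2.2 : PowerSeries ℚ) * PowerSeries.X ^ 3) =
      (1 - PowerSeries.X ^ 2) * (1 - PowerSeries.X ^ 4) * (1 - PowerSeries.X ^ 6)) :
    d3_ms e = q * d3_W := by
  rw [d3_ms, PowerSeries.inv_eq_iff_mul_eq_one (by simp), mul_comm q, mul_assoc, h, d3_W_mul]

section

open PowerSeries

theorem d3_ms1 : d3_ms (-3, 3, -1) =
    ((1 - X) ^ 3 * (1 + X ^ 2) * (1 + X + X ^ 2) * (1 - X + X ^ 2)) * d3_W :=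
  d3_ms_eq _ _ (by push_cast; ring)

theorem d3_ms2 : d3_ms (-1, -1, 1) =
    ((1 - X) ^ 2 * (1 + X) * (1 + X ^ 2) * (1 + X + X ^ 2) * (1 - X + X ^ 2)) * d3_W :=
  d3_ms_eq _ _ (by push_cast; ring)

theorem d3_ms3 : d3_ms (-1, 1, -1) =
    ((1 - X) ^ 3 * (1 + X) ^ 2 * (1 + X + X ^ 2) * (1 - X + X ^ 2)) * d3_W :=
  d3_ms_eq _ _ (by push_cast; ring)

theorem d3_ms4 : d3_ms (0, 0, -1) =
    ((1 - X) ^ 3 * (1 + X) ^ 2 * (1 + X ^ 2) * (1 + X + X ^ 2)) * d3_W :=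
  d3_ms_eq _ _ (by push_cast; ring)

theorem d3_ms5 : d3_ms (0, 0, 1) =
    ((1 - X) ^ 2 * (1 + X) ^ 3 * (1 + X ^ 2) * (1 - X + X ^ 2)) * d3_W :=
  d3_ms_eq _ _ (by push_cast; ring)

theorem d3_ms6 : d3_ms (1, -1, -1) =
    ((1 - X) * (1 + X) ^ 2 * (1 + X ^ 2) * (1 + X + X ^ 2) * (1 - X + X ^ 2)) * d3_W :=
  d3_ms_eq _ _ (by push_cast; ring)

theorem d3_ms7 : d3_ms (1, 1, 1) =
    ((1 - X) ^ 2 * (1 + X) ^ 3 * (1 + X + X ^ 2) * (1 - X + X ^ 2)) * d3_W :=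
  d3_ms_eq _ _ (by push_cast; ring)

theorem d3_ms8 : d3_ms (3, 3, 1) =
    ((1 + X) ^ 3 * (1 + X ^ 2) * (1 + X + X ^ 2) * (1 - X + X ^ 2)) * d3_W :=
  d3_ms_eq _ _ (by push_cast; ring)

/-- the characteristic polynomials with multiplicities -/
def d3_cl (a b c : ℕ) : List (ℤ × ℤ × ℤ) :=
  [(-3, 3, -1)] ++ List.replicate a (-1, -1, 1) ++ List.replicate b (-1, 1, -1) ++
    List.replicate c (0, 0, -1) ++ List.replicate c (0, 0, 1) ++ List.replicate a (1, -1, -1) ++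
    List.replicate b (1, 1, 1) ++ [(3, 3, 1)]

theorem d3_cl_D : d3_D.map d3_cp = d3_cl 5 2 0 := by decide +kernel

theorem d3_cl_Gx : d3_Gx.map d3_cp = d3_cl 9 6 8 := by decide +kernel

theorem d3_cl_Gy : d3_Gy.map d3_cp = d3_cl 9 6 8 := by decide +kernel

theorem d3_sum_big : ((d3_cl 9 6 8).map d3_ms).sum = 48 * d3_W := by
  simp only [d3_cl, List.map_append, List.map_replicate, List.sum_append, List.sum_replicate,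
    List.map_cons, List.map_nil, List.sum_cons, List.sum_nil, d3_ms1, d3_ms2, d3_ms3, d3_ms4,
    d3_ms5, d3_ms6, d3_ms7, d3_ms8, nsmul_eq_mul]
  push_cast
  ring

theorem d3_sum_small : ((d3_cl 5 2 0).map d3_ms).sum = 16 * ((1 + X ^ 2 + X ^ 4) * d3_W) := by
  simp only [d3_cl, List.map_append, List.map_replicate, List.sum_append, List.sum_replicate,
    List.map_cons, List.map_nil, List.sum_cons, List.sum_nil, d3_ms1, d3_ms2, d3_ms3, d3_ms4,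
    d3_ms5, d3_ms6, d3_ms7, d3_ms8, nsmul_eq_mul]
  push_cast
  ring

theorem d3_ser3 : ser3 = 1 + (1 + X ^ 2 + X ^ 4) * d3_W - d3_W - d3_W := by
  have h := d3_W_mul
  have e : ser3 = X ^ 8 * (1 + X ^ 2 - X ^ 4) * d3_W := by rw [ser3, d3_W]; ring
  rw [e]
  linear_combination h

end

/-- the invariants of the list -/
noncomputable def d3_I (L : List T9) (d : ℕ) : Submodule ℚ (Pn 3) :=
  Iso (L.map d3_M) (fun _ => 1) d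

theorem d3_mem_I {L : List T9} {d : ℕ} {g : Pn 3} :
    g ∈ d3_I L d ↔ g ∈ Hd 3 d ∧ ∀ a ∈ L, sub (d3_M a) g = g := by
  change (g ∈ Hd 3 d ∧ ∀ A ∈ L.map d3_M, sub A g = (1 : ℚ) • g) ↔ _
  simp only [one_smul, List.forall_mem_map]

theorem d3_hmul {L : List T9} (h : d3_Grp L) :
    ∀ A ∈ L.map d3_M, ∀ B ∈ L.map d3_M, A * B ∈ L.map d3_M := by
  intro A hA B hB
  obtain ⟨a, ha, rfl⟩ := List.mem_map.1 hA
  obtain ⟨b, hb, rfl⟩ := List.mem_map.1 hB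
  exact List.mem_map.2 ⟨_, h.2.2.2.1 a ha b hb, d3_M_mul a b⟩

theorem d3_hinv {L : List T9} (h : d3_Grp L) :
    ∀ A ∈ L.map d3_M, ∃ B ∈ L.map d3_M, A * B = 1 := by
  intro A hA
  obtain ⟨a, ha, rfl⟩ := List.mem_map.1 hA
  obtain ⟨b, hb, e⟩ := h.2.2.2.2 a ha
  exact ⟨_, List.mem_map.2 ⟨b, hb, rfl⟩, by rw [← d3_M_mul, e, d3_M_one]⟩

theorem d3_molien {L : List T9} (h : d3_Grp L) (d : ℕ) :
    (L.length : ℚ) * Module.finrank ℚ (d3_I L d) =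
      PowerSeries.coeff d ((L.map d3_cp).map d3_ms).sum := by
  have := molien (L.map d3_M) (fun _ => 1) (h.1.map d3_M_inj)
    (List.mem_map.2 ⟨_, h.2.1, d3_M_one⟩) (d3_hmul h) (d3_hinv h) (by simp) (by simp) d
  rw [List.length_map] at this
  rw [d3_I, this]
  simp only [List.map_map, Function.comp_def, one_smul, d3_mol]

theorem d3_coeff_mul (m : ℕ) (s : PowerSeries ℚ) (d : ℕ) :
    PowerSeries.coeff d ((m : PowerSeries ℚ) * s) = m * PowerSeries.coeff d s := by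
  rw [← nsmul_eq_mul, map_nsmul, nsmul_eq_mul]

theorem d3_dim_D (d : ℕ) : (Module.finrank ℚ (d3_I d3_D d) : ℚ) =
    PowerSeries.coeff d ((1 + PowerSeries.X ^ 2 + PowerSeries.X ^ 4) * d3_W) := by
  have h := d3_molien d3_grp_D d
  have h2 := d3_coeff_mul 16 ((1 + PowerSeries.X ^ 2 + PowerSeries.X ^ 4) * d3_W) d
  rw [d3_cl_D, d3_sum_small, show d3_D.length = 16 from rfl] at h
  push_cast at h h2
  linarith

theorem d3_dim_Gx (d : ℕ) : (Module.finrank ℚ (d3_I d3_Gx d) : ℚ) = PowerSeries.coeff d d3_W := by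
  have h := d3_molien d3_grp_Gx d
  have h2 := d3_coeff_mul 48 d3_W d
  rw [d3_cl_Gx, d3_sum_big, show d3_Gx.length = 48 from rfl] at h
  push_cast at h h2
  linarith

theorem d3_dim_Gy (d : ℕ) : (Module.finrank ℚ (d3_I d3_Gy d) : ℚ) = PowerSeries.coeff d d3_W := by
  have h := d3_molien d3_grp_Gy d
  have h2 := d3_coeff_mul 48 d3_W d
  rw [d3_cl_Gy, d3_sum_big, show d3_Gy.length = 48 from rfl] at h
  push_cast at h h2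
  linarith

theorem d3_coeff (d : ℕ) (hd : d ≠ 0) : PowerSeries.coeff d ser3 =
    (Module.finrank ℚ (d3_I d3_D d) : ℚ) - Module.finrank ℚ (d3_I d3_Gx d) -
      Module.finrank ℚ (d3_I d3_Gy d) := by
  rw [d3_dim_D, d3_dim_Gx, d3_dim_Gy, d3_ser3, map_sub, map_sub, map_add, PowerSeries.coeff_one,
    if_neg hd, zero_add]

end Pool.Agent.MP_cbe134_nt.V
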