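import Pool.Agent.MP_cbe134_nt.VL9
import Pool.Agent.MP_cbe134_nt.VK4

/- The double shuffle space is at least as large as the intersection of the two eigenspaces. -/

open Matrix

namespace Pool.Agent.MP_cbe134_nt.V

theorem w2_rel {G : ℚ → ℚ → ℚ → ℚ → ℚ} {g : List ℚ → ℚ}
    (hg : ∀ a b c e, g [a, b, c, e] = G a b c e)
    (h1 : ∀ a b c e, G a b c e + G b a c e + G b c a e + G b c e a = 0)
    (h2 : ∀ a b c e, G a b c e + G a c b e + G a c e b + G c a b e + G c a e b + G c e a b = 0)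
    {u v : List ℚ} (hu : u ≠ []) (hv : v ≠ []) (h : u.length + v.length = 4) :
    ((shuf u v).map g).sum = 0 := by
  match u, v, hu, hv, h with
  | [a], [b, c, e], _, _, _ =>
    simp only [shuf, List.map_cons, List.map_nil, List.cons_append, List.nil_append,
      List.sum_cons, List.sum_nil, hg]
    linear_combination h1 a b c e
  | [a, b], [c, e], _, _, _ =>
    simp only [shuf, List.map_cons, List.map_nil, List.cons_append, List.nil_append,
      List.sum_cons, List.sum_nil, hg]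
    linear_combination h2 a b c e
  | [a, b, c], [e], _, _, _ =>
    simp only [shuf, List.map_cons, List.map_nil, List.cons_append, List.nil_append,
      List.sum_cons, List.sum_nil, hg]
    linear_combination h1 e a b c
  | [_], [_], _, _, h => simp at h
  | [_], [_, _], _, _, h => simp at h
  | [_], _ :: _ :: _ :: _ :: _, _, _, h => simp only [List.length_cons] at h; omega
  | [_, _], [_], _, _, h => simp at h
  | [_, _], _ :: _ :: _ :: _, _, _, h => simp only [List.length_cons] at h; omega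
  | [_, _, _], _ :: _ :: _, _, _, h => simp only [List.length_cons] at h; omega
  | _ :: _ :: _ :: _ :: _, _ :: _, _, _, h => simp only [List.length_cons] at h; omega

theorem mem_ds4 {d : ℕ} {f : Pn 4} (hf : f ∈ Hd 4 d) (h1 : opR (gtr shY1) f = 0)
    (h2 : opR (gtr shY2) f = 0) (h3 : opR (gtr shX1) f = 0) (h4 : opR (gtr shX2) f = 0) :
    f ∈ DS 4 d := by
  refine ⟨hf, fun u v hu hv h => ⟨w2_rel (l9_ev f) (fun a b c e => ?_) (fun a b c e => ?_) hu hv h,
    w2_rel (G := fun a b c e => l9F f (a + b + c + e) (b + c + e) (c + e) e)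
      (fun a b c e => ?_) (fun a b c e => ?_) (fun a b c e => ?_) hu hv h⟩⟩
  · have h := congrArg (MvPolynomial.eval ![a, b, c, e]) h1
    simp [gtr, shY1, opR_cons, opR_nil, M4.tr, l9_eval] at h
    linear_combination h
  · have h := congrArg (MvPolynomial.eval ![a, b, c, e]) h2
    simp [gtr, shY2, opR_cons, opR_nil, M4.tr, l9_eval] at h
    linear_combination h
  · simp only [psum, List.sum_cons, List.sum_nil, l9_ev, add_zero, add_assoc]
  · have h := congrArg (MvPolynomial.eval ![a + b + c + e, b + c + e, c + e, e]) h3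
    simp [gtr, shX1, opR_cons, opR_nil, M4.tr, l9_eval] at h
    linear_combination (norm := ring_nf) h
  · have h := congrArg (MvPolynomial.eval ![a + b + c + e, b + c + e, c + e, e]) h4
    simp [gtr, shX2, opR_cons, opR_nil, M4.tr, l9_eval] at h
    linear_combination (norm := ring_nf) h

theorem w2_ext {x y : Pn 4} (h : ∀ g, Bp 4 x g = Bp 4 y g) : x = y :=
  sub_eq_zero.1 (apol_def (by rw [map_sub (Bp 4), LinearMap.sub_apply, h, sub_self]))

theorem w2_gmul (a b : GR) (f : Pn 4) :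
    opR (gtr (gmul a b)) f = opR (gtr a) (opR (gtr b) f) :=
  w2_ext fun g => by rw [Bp_opR, Bp_opR, Bp_opR, opR_gmul]

theorem w2_append (a b : GR) (f : Pn 4) :
    opR (gtr (a ++ b)) f = opR (gtr a) f + opR (gtr b) f := by
  rw [gtr, List.map_append, opR_append]
  rfl

theorem w2_gsm (c : ℤ) (a : GR) (f : Pn 4) : opR (gtr (gsm c a)) f = (c : ℚ) • opR (gtr a) f :=
  w2_ext fun g => by rw [map_smul, LinearMap.smul_apply, Bp_opR, Bp_opR, opR_gsm, map_smul]

theorem w2_chk {a : GR} (h : chkG a = true) {d : ℕ} (hd : Even d) {f : Pn 4} (hf : f ∈ Hd 4 d) :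
    opR (gtr a) f = 0 :=
  apol_def (by rw [Bp_opR, chkG_sound h hd (opR_mem _ hf), map_zero])

/-- the forms of degree `d` on which `p` acts as the scalar `c` -/
noncomputable def w2E (p : Pn 4 →ₗ[ℚ] Pn 4) (c : ℚ) (d : ℕ) : Submodule ℚ (Pn 4) :=
  Hd 4 d ⊓ LinearMap.eqLocus p (c • LinearMap.id)

theorem w2_mem {p : Pn 4 →ₗ[ℚ] Pn 4} {c : ℚ} {d : ℕ} {f : Pn 4} :
    f ∈ w2E p c d ↔ f ∈ Hd 4 d ∧ p f = c • f := Iff.rfl

theorem w2_split {d : ℕ} {p : Pn 4 →ₗ[ℚ] Pn 4} (hp : ∀ g ∈ Hd 4 d, p g ∈ Hd 4 d)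
    (hpp : ∀ g ∈ Hd 4 d, p (p g) = (10 : ℚ) • p g) :
    Module.finrank ℚ (Hd 4 d) ≤
      Module.finrank ℚ (w2E p 10 d) + Module.finrank ℚ (w2E p 0 d) := by
  have := fin_of_le (show w2E p 10 d ≤ Hd 4 d from inf_le_left)
  have := fin_of_le (show w2E p 0 d ≤ Hd 4 d from inf_le_left)
  have h : Hd 4 d ≤ w2E p 10 d ⊔ w2E p 0 d := fun g hg => by
    rw [← add_sub_cancel ((1 / 10 : ℚ) • p g) g]
    refine Submodule.add_mem_sup (Submodule.smul_mem _ _ (w2_mem.2 ⟨hp g hg, hpp g hg⟩))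
      (w2_mem.2 ⟨Submodule.sub_mem _ hg (Submodule.smul_mem _ _ (hp g hg)), ?_⟩)
    rw [map_sub, map_smul, hpp g hg]
    module
  exact (Submodule.finrank_mono h).trans (Submodule.finrank_add_le_finrank_add_finrank _ _)

/-- the forms fixed by the idempotent and killed by two shuffle operators -/
noncomputable def w2L (s1 s2 : GR) (d : ℕ) : Submodule ℚ (Pn 4) :=
  w2E (opR (gtr eD)) 10 d ⊓ (LinearMap.ker (opR (gtr s1)) ⊓ LinearMap.ker (opR (gtr s2)))

theorem w2_half {d : ℕ} (hd : Even d) {s1 s2 E J Ji : GR}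
    (h1 : chkG (gmul s1 E) = true ∧ chkG (gmul s2 E) = true)
    (h2 : chkG (gmul eD E ++ gsm (-10) E) = true)
    (h3 : chkG (E ++ gmul (gmul Ji E) J ++ gsm (-20) eD) = true) :
    Module.finrank ℚ (w2E (opR (gtr eD)) 10 d) ≤ 2 * Module.finrank ℚ (w2L s1 s2 d) := by
  have := fin_of_le (show w2L s1 s2 d ≤ Hd 4 d from inf_le_left.trans inf_le_left)
  have hE : ∀ g ∈ Hd 4 d, opR (gtr E) g ∈ w2L s1 s2 d := fun g hg => by
    have h := w2_chk h2 hd hg
    rw [w2_append, w2_gmul, w2_gsm] at h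
    push_cast at h
    rw [neg_smul, add_neg_eq_zero] at h
    exact ⟨w2_mem.2 ⟨opR_mem _ hg, h⟩, (w2_gmul _ _ _).symm.trans (w2_chk h1.1 hd hg),
      (w2_gmul _ _ _).symm.trans (w2_chk h1.2 hd hg)⟩
  have h4 : w2E (opR (gtr eD)) 10 d ≤ w2L s1 s2 d ⊔ (w2L s1 s2 d).map (opR (gtr Ji)) :=
    fun g hg => by
      obtain ⟨h5, h6⟩ := w2_mem.1 hg
      have h := w2_chk h3 hd h5
      rw [w2_append, w2_append, w2_gmul, w2_gmul, w2_gsm, h6] at h
      push_cast at h
      have h7 : g = (1 / 200 : ℚ) •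
          (opR (gtr E) g + opR (gtr Ji) (opR (gtr E) (opR (gtr J) g))) := by
        linear_combination (norm := module) (-1 / 200 : ℚ) • h
      rw [h7]
      exact Submodule.smul_mem _ _ (Submodule.add_mem_sup (hE g h5)
        ⟨_, hE _ (opR_mem _ h5), rfl⟩)
  have h5 := Submodule.finrank_mono h4
  have h6 := Submodule.finrank_add_le_finrank_add_finrank (w2L s1 s2 d)
    ((w2L s1 s2 d).map (opR (gtr Ji)))
  have h7 := Submodule.finrank_map_le (opR (gtr Ji)) (w2L s1 s2 d)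
  omega

theorem w2_orth {d : ℕ} {s1 s2 : GR} {f g : Pn 4} (hf : f ∈ w2L s1 s2 d) (hg : g ∈ Rsp s1 d) :
    Bp 4 f g = 0 := by
  obtain ⟨g, -, rfl⟩ := hg
  rw [LinearMap.comp_apply, ← Bp_opR, (w2_mem.1 hf.1).2, map_smul, LinearMap.smul_apply,
    ← Bp_opR, LinearMap.mem_ker.1 hf.2.1, map_zero, LinearMap.zero_apply, smul_zero]

theorem ds4_ge {d : ℕ} (hd : Even d) :
    Module.finrank ℚ (Rsp shX1 d ⊓ Rsp shY1 d : Submodule ℚ (Pn 4)) ≤
      Module.finrank ℚ (DS 4 d) := by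
  have hH : ∀ p c, w2E p c d ≤ Hd 4 d := fun _ _ => inf_le_left
  have hL : ∀ s1 s2, w2L s1 s2 d ≤ w2E (opR (gtr eD)) 10 d := fun _ _ => inf_le_left
  have hR : Rsp shX1 d ⊓ Rsp shY1 d ≤ w2E (opR eD) 10 d := by
    rintro _ ⟨⟨g, hg, rfl⟩, -⟩
    rw [LinearMap.comp_apply]
    exact w2_mem.2 ⟨opR_mem _ (opR_mem _ hg), l9_idem hd (opR_mem _ hg)⟩
  have := fin_of_le (hR.trans (hH _ _))
  have := fin_of_le (hH (opR eD) 0)
  have := fin_of_le ((hL shX1 shX2).trans (hH _ _))
  have := fin_of_le ((hL shY1 shY2).trans (hH _ _))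
  have := fin_of_le (show DS 4 d ≤ Hd 4 d from fun f hf => hf.1)
  have h1 := w2_split (p := opR eD) (d := d) (fun g hg => opR_mem _ hg) fun g hg => l9_idem hd hg
  have h2 := w2_split (p := opR (gtr eD)) (d := d) (fun g hg => opR_mem _ hg) fun g hg => by
    have h := w2_chk k_idem hd hg
    rw [w2_append, w2_gmul, w2_gsm] at h
    push_cast at h
    rwa [neg_smul, add_neg_eq_zero] at h
  have h3 := Bp_dim (w2E (opR (gtr eD)) 0 d) (w2E (opR eD) 10 d) (hH _ _) (hH _ _)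
    fun f hf g hg => by
      have h := Bp_opR eD f g
      rw [(w2_mem.1 hf).2, (w2_mem.1 hg).2, map_smul, map_smul, LinearMap.smul_apply, zero_smul,
        eq_comm, smul_eq_zero_iff_right (by norm_num)] at h
      exact h
  have h4 := Bp_dim (w2L shX1 shX2 d ⊔ w2L shY1 shY2 d)
    ((Rsp shX1 d ⊓ Rsp shY1 d) ⊔ w2E (opR eD) 0 d) ((sup_le (hL _ _) (hL _ _)).trans (hH _ _))
    (sup_le (hR.trans (hH _ _)) (hH _ _)) fun f hf =>
      (show _ ≤ LinearMap.ker (Bp 4 f) from sup_le (fun g hg => by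
        obtain ⟨x, hx, y, hy, rfl⟩ := Submodule.mem_sup.1 hf
        rw [LinearMap.mem_ker, map_add, LinearMap.add_apply, w2_orth hx hg.1, w2_orth hy hg.2,
          add_zero]) fun g hg => by
        have h := Bp_opR eD f g
        rw [(w2_mem.1 (sup_le (hL _ _) (hL _ _) hf)).2, (w2_mem.1 hg).2, map_smul, map_smul,
          LinearMap.smul_apply, zero_smul, smul_eq_zero_iff_right (by norm_num)] at h
        exact h)
  have h5 := Submodule.finrank_sup_add_finrank_inf_eq (Rsp shX1 d ⊓ Rsp shY1 d)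
    (w2E (opR eD) 0 d)
  have h6 : (Rsp shX1 d ⊓ Rsp shY1 d) ⊓ w2E (opR eD) 0 d = ⊥ := eq_bot_iff.2 fun g hg => by
    have h := (w2_mem.1 (hR hg.1)).2
    rw [(w2_mem.1 hg.2).2, zero_smul, eq_comm, smul_eq_zero_iff_right (by norm_num)] at h
    exact h
  rw [h6, finrank_bot] at h5
  have h7 := Submodule.finrank_sup_add_finrank_inf_eq (w2L shX1 shX2 d) (w2L shY1 shY2 d)
  have h8 := Submodule.finrank_mono (show w2L shX1 shX2 d ⊓ w2L shY1 shY2 d ≤ DS 4 d from
    fun f hf => mem_ds4 hf.1.1.1 hf.2.2.1 hf.2.2.2 hf.1.2.1 hf.1.2.2)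
  have hx := w2_half hd k_killX k_absX k_sumX
  have hy := w2_half hd k_killY k_absY k_sumY
  omega

end Pool.Agent.MP_cbe134_nt.V
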