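import Pool.Agent.MP_cbe134_nt.VH2

/- The local contraction of a descending link. -/

namespace Pool.Agent.MP_cbe134_nt.V

variable {α : Type} [DecidableEq α]

theorem h3_io {p q : Finset α → Prop} {a : α} (h : ∀ S, p S → a ∈ S → q (S.erase a)) {x : Ch α}
    (hx : x ∈ Sup p) : io a x ∈ Sup q := by
  refine Sup_ind (Q := fun x => io a x ∈ Sup q) (by simp) (fun x y h1 h2 => ?_)
    (fun c x h1 => ?_) (fun S hS => ?_) hx
  · rw [map_add]
    exact add_mem h1 h2
  · rw [map_smul]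
    exact Submodule.smul_mem _ c h1
  · rw [io_single]
    split_ifs with ha
    · exact single_mem_Sup (h S hS ha) _
    · exact zero_mem _

theorem h3_full {M : Finset α} {x : Ch α} (hx : x ∈ Sup fun S => S ⊆ M) :
    del (fun S => S ⊆ M) x = ∑ w ∈ M, wg w x := by
  refine Sup_ind (Q := fun x => del (fun S => S ⊆ M) x = ∑ w ∈ M, wg w x) (by simp)
    (fun x y h1 h2 => ?_) (fun c x h1 => ?_) (fun S hS => ?_) hx
  · simp only [map_add, h1, h2, Finset.sum_add_distrib]
  · simp only [map_smul, h1, Finset.smul_sum]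
  · rw [del_single (W := M \ S) fun w => by
      simp only [Ext, Set.mem_ofPred_eq, Finset.insert_subset_iff, Finset.mem_sdiff]
      tauto]
    refine Finset.sum_subset Finset.sdiff_subset fun w h1 h2 => ?_
    rw [wg_single, if_pos (by simpa [h1] using h2)]

theorem h3_htpy {M : Finset α} {a : α} (ha : a ∈ M) {x : Ch α} (hx : x ∈ Sup fun S => S ⊆ M) :
    io a (del (fun S => S ⊆ M) x) + del (fun S => S ⊆ M) (io a x) = x := by
  rw [h3_full hx, h3_full (h3_io (fun S hS _ => (Finset.erase_subset a S).trans hS) hx), map_sum]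
  simp [io_wg, ha]

theorem h3_fin (M S : Finset α) : (Ext (fun S => S ⊆ M) S).Finite :=
  M.finite_toSet.subset fun w hw => hw.2 (Finset.mem_insert_self w S)

theorem h3_step {M : Finset α} {k : ℕ} {lab : α → ℕ} {p : Finset α → Prop}
    (hp : ∀ S, p S → S ⊆ M) {a : α} (ha : a ∈ M) {z : Ch α} (hz : z ∈ Sup p)
    (h0 : del (Miss M k lab) z = 0) {S : Finset α} (hS : Miss M k lab S)
    (hne : (z - del (Miss M k lab) (io a z)) S ≠ 0) : ∃ S' w, p S' ∧ insert w S' ⊆ M ∧
      ¬ Miss M k lab (insert w S') ∧ S = (insert w S').erase a := by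
  have h1 := del_sub_del (c := fun S => S ⊆ M) (c' := Miss M k lab) (p := fun _ => True)
    (q := fun T => ¬ Miss M k lab T) (fun S _ => h3_fin M S) (fun S _ w hw => ⟨hw.1, hw.2.1⟩)
    (fun S w _ h h' h'' => h' ⟨h.1, h''⟩) (x := io a z) (mem_Sup_iff.2 fun _ _ => trivial)
  have h2 := del_sub_del (c := fun S => S ⊆ M) (c' := Miss M k lab) (p := p)
    (q := fun T => ∃ S' w, p S' ∧ insert w S' ⊆ M ∧ ¬ Miss M k lab (insert w S') ∧
      T = insert w S') (fun S _ => h3_fin M S) (fun S _ w hw => ⟨hw.1, hw.2.1⟩)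
    (fun S w hS h h' => ⟨S, w, hS, h.2, fun h'' => h' ⟨h.1, h''⟩, rfl⟩) hz
  rw [h0, sub_zero] at h2
  have h3 := h3_io (a := a) (q := fun T => ∃ S' w, p S' ∧ insert w S' ⊆ M ∧
    ¬ Miss M k lab (insert w S') ∧ T = (insert w S').erase a)
    (fun T ⟨S', w, e1, e2, e3, e4⟩ _ => ⟨S', w, e1, e2, e3, by rw [e4]⟩) h2
  refine mem_Sup_iff.1 h3 S fun h4 => hne ?_
  have h5 := by_contra fun h => mem_Sup_iff.1 h1 S h hS
  nth_rw 1 [← h3_htpy ha (Sup_mono hp hz)]
  rw [add_sub_assoc, Finsupp.add_apply, h4, h5, add_zero]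

theorem local_contract (M : Finset α) (k : ℕ) (lab : α → ℕ) (hlab : ∀ A ∈ M, lab A < k)
    (u : ℕ → α) (hu : ∀ i < k, u i ∈ M ∧ lab (u i) = i) (D : Finset α → Prop)
    (hD : ∀ S, D S → Miss M k lab S) (hup : ∀ S T, D S → S ⊆ T → Miss M k lab T → D T)
    (her : ∀ S, D S → ∀ i < k, D (S.erase (u i))) (n : ℕ) {z : Ch α}
    (hz : z ∈ Sup fun S => D S ∧ S.card = n + 1) (h0 : del (Miss M k lab) z = 0) :
    ∃ y ∈ Sup fun S => D S ∧ S.card = n, z - del (Miss M k lab) y ∈
      Sup fun S => D S ∧ S.card = n + 1 ∧ S = M \ (Finset.range k).image u := by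
  have key : ∀ j ≤ k, ∃ y ∈ Sup fun S => D S ∧ S.card = n, z - del (Miss M k lab) y ∈
      Sup fun S => (D S ∧ S.card = n + 1) ∧
        ∀ i < j, ∀ A ∈ M, lab A = i → (A ∈ S ↔ A ≠ u i) := by
    intro j
    induction j with
    | zero =>
      refine fun _ => ⟨0, zero_mem _, ?_⟩
      rw [map_zero, sub_zero]
      exact Sup_mono (fun S h => ⟨h, fun i hi => absurd hi (Nat.not_lt_zero i)⟩) hz
    | succ j ih =>
      intro hj
      obtain ⟨y, hy, h1⟩ := ih (by omega)
      have h2 : del (Miss M k lab) (z - del (Miss M k lab) y) = 0 := by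
        rw [map_sub, h0, del_del (fun S T => Miss.mono)
          (mem_Sup_iff.2 fun S _ => ext_Miss_fin M k lab S), sub_zero]
      generalize hz' : z - del (Miss M k lab) y = z' at h1 h2
      have h3 : io (u j) z' ∈ Sup fun S => D S ∧ S.card = n :=
        h3_io (fun S h ha => ⟨her S h.1.1 j hj, by rw [Finset.card_erase_of_mem ha, h.1.2]; rfl⟩) h1
      have h4 : z' - del (Miss M k lab) (io (u j) z') ∈ Sup fun S => D S ∧ S.card = n + 1 :=
        sub_mem (Sup_mono (fun S h => h.1) h1) (del_mem_Sup (fun S _ => ext_Miss_fin M k lab S)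
          (fun S w h hw => ⟨hup S _ h.1 (Finset.subset_insert w S) hw.2, by
            rw [Finset.card_insert_of_notMem hw.1, h.2]⟩) h3)
      refine ⟨y + io (u j) z', add_mem hy h3, ?_⟩
      rw [map_add, ← sub_sub, hz']
      refine mem_Sup_iff.2 fun S hS => ⟨mem_Sup_iff.1 h4 S hS, ?_⟩
      have hm := hD S (mem_Sup_iff.1 h4 S hS).1
      obtain ⟨S', w, e1, e2, e3, rfl⟩ :=
        h3_step (fun S h => (hD S h.1.1).1) (hu j hj).1 h1 h2 hm hS
      intro i hi A hA hl
      rcases (Nat.le_of_lt_succ hi).eq_or_lt with rfl | hij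
      · refine ⟨fun h => (Finset.mem_erase.1 h).1, fun h => Finset.mem_erase.2 ⟨h, ?_⟩⟩
        by_contra hA'
        refine e3 ⟨e2, fun i' hi' => ?_⟩
        obtain ⟨B, b1, b2, b3⟩ := hm.2 i' hi'
        by_cases hB : B = u i
        · exact ⟨A, hA, by rw [hl, ← b2, hB, (hu i hj).2], hA'⟩
        · exact ⟨B, b1, b2, fun h => b3 (Finset.mem_erase.2 ⟨hB, h⟩)⟩
      · have hne : ∀ B, lab B = i → B ≠ u j := fun B hB h => by
          rw [h, (hu j hj).2] at hB
          omega
        rw [Finset.mem_erase, Finset.mem_insert, e1.2 i hij A hA hl]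
        refine ⟨fun h => h.2.elim (fun h' h'' => ?_) id, fun h => ⟨hne A hl, Or.inr h⟩⟩
        obtain ⟨B, b1, b2, b3⟩ := hm.2 i (by omega)
        refine b3 (Finset.mem_erase.2 ⟨hne B b2, ?_⟩)
        by_cases hB : B = u i
        · rw [hB, ← h'', h']
          exact Finset.mem_insert_self _ _
        · exact Finset.mem_insert_of_mem ((e1.2 i hij B b1 b2).2 hB)
  obtain ⟨y, hy, h1⟩ := key k le_rfl
  refine ⟨y, hy, Sup_mono (fun S h => ⟨h.1.1, h.1.2, ?_⟩) h1⟩
  ext A
  rw [Finset.mem_sdiff, Finset.mem_image]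
  constructor
  · intro hA
    have hM := (hD S h.1.1).1 hA
    refine ⟨hM, ?_⟩
    rintro ⟨i, hi, rfl⟩
    rw [Finset.mem_range] at hi
    exact (h.2 i hi _ hM (hu i hi).2).1 hA rfl
  · rintro ⟨hM, hA⟩
    exact (h.2 _ (hlab A hM) A hM rfl).2 fun e =>
      hA ⟨_, Finset.mem_range.2 (hlab A hM), e.symm⟩

end Pool.Agent.MP_cbe134_nt.V
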