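import Pool.Agent.MP_cbe134_nt.VG7
import Pool.Agent.MP_cbe134_nt.VH3

/- Exactness of the dual Voronoi complex in the top degrees. -/

open Matrix Finsupp

namespace Pool.Agent.MP_cbe134_nt.V

theorem g8_sub {q : Mt} {M : Finset Mt} {k : ℕ} {lab : Mt → ℕ} (h : Loc q M k lab)
    {S : Finset Mt} : S ⊆ M ↔ (S : Set Mt) ⊆ Mn q := by
  rw [← h.mn, Finset.coe_subset]

theorem g8_contract {ℓ : Mt →+ ℝ} (hℓ : Ht ℓ) {q : Mt} (hq : Vert q) {M : Finset Mt} {k : ℕ}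
    {lab : Mt → ℕ} (h : Loc q M k lab) (n : ℕ) {z : Ch Mt}
    (hz : z ∈ Sup fun S => (Cell S ∧ Top ℓ q S) ∧ S.card = n + 1)
    (h0 : del (Miss M k lab) z = 0) :
    ∃ y ∈ Sup fun S => (Cell S ∧ Top ℓ q S) ∧ S.card = n, ∃ S₀ : Finset Mt, S₀.card = 9 ∧
      z - del (Miss M k lab) y ∈
        Sup fun S => (Cell S ∧ Top ℓ q S) ∧ S.card = n + 1 ∧ S = S₀ := by
  obtain ⟨u, hu, her, -⟩ := top_erase hℓ hq h
  obtain ⟨y, hy, hr⟩ := local_contract M k lab h.lab_lt u hu (fun S => Cell S ∧ Top ℓ q S)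
    (fun S hS => (h.cell_iff hq ((g8_sub h).2 hS.2.2.1)).1 hS.1)
    (fun S T hS hST hT => ⟨(h.cell_iff hq hT.1).2 hT, hq, (g8_sub h).1 hT.1, fun q' hq' hT' =>
      hS.2.2.2 q' hq' ((Finset.coe_subset.2 hST).trans hT')⟩)
    (fun S hS i hi => ⟨hS.1.mono (Finset.erase_subset _ _), her S hS.1 hS.2 i hi⟩) n hz h0
  refine ⟨y, hy, _, ?_, hr⟩
  have h1 : (Finset.range k).image u ⊆ M := by
    intro A hA
    obtain ⟨i, hi, rfl⟩ := Finset.mem_image.1 hA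
    exact (hu i (Finset.mem_range.1 hi)).1
  have h2 : ((Finset.range k).image u).card = k := by
    rw [Finset.card_image_of_injOn, Finset.card_range]
    intro i hi j hj e
    rw [← (hu i (Finset.mem_range.1 hi)).2, e, (hu j (Finset.mem_range.1 hj)).2]
  rw [Finset.card_sdiff_of_subset h1, h2, h.card]
  omega

theorem g8_diff {q : Mt} (hq : Vert q) {M : Finset Mt} {k : ℕ} {lab : Mt → ℕ}
    (h : Loc q M k lab) {p r : Finset Mt → Prop} (hp : ∀ S, p S → Spans S)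
    (hr : ∀ S w, p S → w ∉ S → Cell (insert w S) →
      ¬ ((insert w S : Finset Mt) : Set Mt) ⊆ Mn q → r (insert w S))
    {x : Ch Mt} (hx : x ∈ Sup p) : del Cell x - del (Miss M k lab) x ∈ Sup r :=
  del_sub_del (fun S hS => ext_fin (hp S hS))
    (fun _ _ _ hw => ⟨hw.1, (h.cell_iff hq hw.2.1).2 hw.2⟩)
    (fun S w hS hw hw' => hr S w hS hw.1 hw.2 fun e =>
      hw' ⟨hw.1, (h.cell_iff hq ((g8_sub h).2 e)).1 hw.2⟩) hx

theorem g8_zero {p : Finset Mt → Prop} {x : Ch Mt} (hx : x ∈ Sup p) (h : ∀ S, ¬ p S) :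
    x = 0 :=
  Finsupp.ext fun S => by_contra fun e => h S (mem_Sup_iff.1 hx S e)

theorem g8_main {n : ℕ} (hn : 7 ≤ n) (Z : Submodule ℚ (Ch Mt))
    (hZ : ∀ y ∈ Wc n, del Cell y ∈ Z) {ℓ : Mt →+ ℝ} (hℓ : Ht ℓ)
    (hloc : ∀ q M k lab, Vert q → Loc q M k lab → ∀ x₁ x₂ : Ch Mt,
      (x₁ ∈ Sup fun S => (Cell S ∧ Top ℓ q S) ∧ S.card = n + 1) →
      (x₂ ∈ Sup fun S => (Cell S ∧ S.card = n + 1) ∧ ¬ (S : Set Mt) ⊆ Mn q) → x₁ + x₂ ∈ Z →
      ∃ y ∈ Sup fun S => (Cell S ∧ Top ℓ q S) ∧ S.card = n, del (Miss M k lab) y = x₁)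
    {x : Ch Mt} (hx : x ∈ Wc (n + 1)) (hc : x ∈ Z) : ∃ y ∈ Wc n, del Cell y = x := by
  classical
  have key : ∀ (N : ℕ) (t : ℝ), {q | Vert q ∧ ℓ q < t}.ncard = N → ∀ x : Ch Mt,
      (x ∈ Sup fun S => (Cell S ∧ S.card = n + 1) ∧
        ∀ q', Vert q' → (S : Set Mt) ⊆ Mn q' → ℓ q' < t) → x ∈ Z →
      ∃ y ∈ Wc n, del Cell y = x := by
    intro N
    induction N using Nat.strong_induction_on with
    | _ N ih =>
      intro t ht x hx hc
      have hfin : {q | Vert q ∧ ℓ q < t}.Finite :=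
        (hℓ.fin t).subset fun q hq => ⟨hq.1, hq.2.le⟩
      rcases Set.eq_empty_or_nonempty {q | Vert q ∧ ℓ q < t} with he | hne
      · refine ⟨0, zero_mem _, ?_⟩
        rw [map_zero, g8_zero hx]
        rintro S ⟨⟨⟨q, -, hq, -, -, hS, -⟩, -⟩, h⟩
        exact he.subset (show q ∈ {q | Vert q ∧ ℓ q < t} from ⟨hq, h q hq hS⟩)
      obtain ⟨q, ⟨hq, hqt⟩, hmax⟩ := Set.exists_max_image _ ℓ hfin hne
      obtain ⟨M, k, lab, h⟩ := exists_loc hq
      have hlt : ∀ (S : Finset Mt) q', Vert q' → (S : Set Mt) ⊆ Mn q' → ¬ (S : Set Mt) ⊆ Mn q →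
          ℓ q' ≤ ℓ q → ℓ q' < ℓ q := fun S q' hq' h1 h2 h3 =>
        lt_of_le_of_ne h3 fun e => h2 (hℓ.eq_of_eq hq' hq e ▸ h1)
      have hs := Finsupp.filter_add_filter_not x fun S : Finset Mt => (S : Set Mt) ⊆ Mn q
      have h2 : ∀ S : Finset Mt, x.filter (fun S : Finset Mt => ¬ (S : Set Mt) ⊆ Mn q) S ≠ 0 →
          ¬ (S : Set Mt) ⊆ Mn q ∧ x S ≠ 0 := fun S hS => by
        simpa only [Finsupp.filter_apply, ite_ne_right_iff] using hS
      obtain ⟨y, hy, hyx⟩ := hloc q M k lab hq h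
        (x.filter fun S : Finset Mt => (S : Set Mt) ⊆ Mn q)
        (x.filter fun S : Finset Mt => ¬ (S : Set Mt) ⊆ Mn q)
        (mem_Sup_iff.2 fun S hS => by
          rw [Finsupp.filter_apply, ite_ne_right_iff] at hS
          have h1 := mem_Sup_iff.1 hx S hS.2
          exact ⟨⟨h1.1.1, hq, hS.1, fun q' hq' hS' => hmax q' ⟨hq', h1.2 q' hq' hS'⟩⟩, h1.1.2⟩)
        (mem_Sup_iff.2 fun S hS => ⟨(mem_Sup_iff.1 hx S (h2 S hS).2).1, (h2 S hS).1⟩)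
        (by rw [hs]; exact hc)
      have hyW : y ∈ Wc n := Sup_mono (fun S hS => ⟨hS.1.1, hS.2⟩) hy
      have e : x - del Cell y = x.filter (fun S : Finset Mt => ¬ (S : Set Mt) ⊆ Mn q) -
          (del Cell y - del (Miss M k lab) y) := by
        rw [hyx]
        nth_rewrite 1 [← hs]
        abel
      obtain ⟨y', hy', e'⟩ := ih _ (ht ▸ Set.ncard_lt_ncard (s := {q' | Vert q' ∧ ℓ q' < ℓ q})
        ⟨fun q' hq' => ⟨hq'.1, hq'.2.trans hqt⟩, fun hsub => lt_irrefl _ (hsub ⟨hq, hqt⟩).2⟩ hfin)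
        (ℓ q) rfl (x - del Cell y) (by
          rw [e]
          refine Submodule.sub_mem _ (mem_Sup_iff.2 fun S hS => ?_)
            (g8_diff hq h (fun S hS => hS.1.1.spans (hS.2 ▸ hn)) (fun S w hS hw h3 h4 => ?_) hy)
          · have h1 := mem_Sup_iff.1 hx S (h2 S hS).2
            exact ⟨h1.1, fun q' hq' hS' =>
              hlt S q' hq' hS' (h2 S hS).1 (hmax q' ⟨hq', h1.2 q' hq' hS'⟩)⟩
          · exact ⟨⟨h3, by rw [Finset.card_insert_of_notMem hw, hS.2]⟩, fun q' hq' hS' =>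
              hlt _ q' hq' hS' h4 (hS.1.2.2.2 q' hq'
                ((Finset.coe_subset.2 (Finset.subset_insert _ _)).trans hS'))⟩)
        (Z.sub_mem hc (hZ y hyW))
      exact ⟨y + y', add_mem hyW hy', by rw [map_add, e', add_sub_cancel]⟩
  have hfin : (⋃ S ∈ (x.support : Set (Finset Mt)),
      {q | Vert q ∧ (S : Set Mt) ⊆ Mn q}).Finite :=
    x.support.finite_toSet.biUnion fun S hS => by
      have h1 := mem_Sup_iff.1 hx S (Finsupp.mem_support_iff.1 hS)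
      exact vert_fin (h1.1.spans (by rw [h1.2]; omega))
  obtain ⟨t, ht⟩ := (hfin.image ℓ).bddAbove
  refine key _ (t + 1) rfl x (mem_Sup_iff.2 fun S hS =>
    ⟨mem_Sup_iff.1 hx S hS, fun q' hq' hS' => ?_⟩) hc
  exact (ht ⟨q', Set.mem_biUnion (Finsupp.mem_support_iff.2 hS) ⟨hq', hS'⟩, rfl⟩).trans_lt
    (lt_add_one t)

theorem ex8 {x : Ch Mt} (hx : x ∈ Wc 8) (h : del Cell x = 0) : ∃ y ∈ Wc 7, del Cell y = x := by
  obtain ⟨ℓ, hℓ⟩ := exists_ht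
  refine g8_main le_rfl (LinearMap.ker (del Cell))
    (fun y hy => del_del_cell (Wc_le_spans le_rfl hy)) hℓ ?_ hx h
  intro q M k lab hq hl x₁ x₂ h1 h2 hc
  have h3 : del (Miss M k lab) x₁ ∈ Sup fun S => (S : Set Mt) ⊆ Mn q :=
    del_mem_Sup (fun S _ => ext_Miss_fin M k lab S) (fun S w _ hw => (g8_sub hl).1 hw.2.1) h1
  have h4 : del Cell x₁ - del (Miss M k lab) x₁ ∈ Sup fun S => ¬ (S : Set Mt) ⊆ Mn q :=
    g8_diff hq hl (fun S hS => hS.1.1.spans (by rw [hS.2]; omega)) (fun _ _ _ _ _ e => e) h1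
  have h5 : del Cell x₂ ∈ Sup fun S => ¬ (S : Set Mt) ⊆ Mn q :=
    del_mem_Sup (fun S hS => ext_fin (hS.1.1.spans (by rw [hS.1.2]; omega)))
      (fun S w hS _ e => hS.2 ((Finset.coe_subset.2 (Finset.subset_insert _ _)).trans e)) h2
  have h6 := neg_mem (add_mem h4 h5)
  rw [sub_add_eq_add_sub, ← map_add, LinearMap.mem_ker.1 hc, zero_sub, neg_neg] at h6
  obtain ⟨y, hy, S₀, hS₀, hr⟩ := g8_contract hℓ hq hl 7 h1 (Finsupp.ext fun S =>
    by_contra fun e => mem_Sup_iff.1 h6 S e (mem_Sup_iff.1 h3 S e))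
  refine ⟨y, hy, (sub_eq_zero.1 (g8_zero hr ?_)).symm⟩
  rintro S ⟨-, h7, rfl⟩
  omega

theorem ex9 {x : Ch Mt} (hx : x ∈ Wc 9) (h : dd x = 0) : ∃ y ∈ Wc 8, del Cell y = x := by
  obtain ⟨ℓ, hℓ⟩ := exists_ht
  refine g8_main (n := 8) (by omega) (LinearMap.ker dd) (fun y hy => dd_del hy) hℓ ?_ hx h
  intro q M k lab hq hl x₁ x₂ h1 h2 hc
  have h3 : del (Miss M k lab) x₁ ∈ Sup fun _ => False :=
    del_mem_Sup (fun S _ => ext_Miss_fin M k lab S) (fun S w hS hw => by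
      have := hw.2.card_le
      rw [Finset.card_insert_of_notMem hw.1, hS.2, hl.card] at this
      omega) h1
  obtain ⟨y, hy, S₀, hS₀, hr⟩ := g8_contract hℓ hq hl 8 h1 (g8_zero h3 fun _ e => e)
  have h4 : osg q x₁ = 0 := by
    have e1 := dd_in hq (Sup_mono (fun S hS =>
      ⟨hS.1.1.spans (by rw [hS.2]; omega), hS.1.2.2.1⟩) h1)
    have e2 := dd_out (q := q) (Sup_mono (fun S hS =>
      ⟨hS.1.1.spans (by rw [hS.1.2]; omega), hS.2⟩) h2)
    have e3 : dd x₁ q + dd x₂ q = 0 := by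
      rw [← Finsupp.add_apply, ← map_add, LinearMap.mem_ker.1 hc, Finsupp.zero_apply]
    rwa [e1, e2, add_zero] at e3
  have h5 := osg_del hl (Sup_mono (fun S hS =>
    ⟨(hl.cell_iff hq ((g8_sub hl).2 hS.1.2.2.1)).1 hS.1.1, hS.2⟩) hy)
  refine ⟨y, hy, (sub_eq_zero.1 ?_).symm⟩
  have h6 : osg q (x₁ - del (Miss M k lab) y) = 0 := by rw [map_sub, h4, h5, sub_zero]
  generalize x₁ - del (Miss M k lab) y = r at hr h6
  have h7 : r = r S₀ • Finsupp.single S₀ 1 := by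
    ext S
    by_cases e : S = S₀
    · simp [e]
    · rw [Finsupp.smul_apply, Finsupp.single_eq_of_ne e, smul_zero]
      exact by_contra fun e' => e (mem_Sup_iff.1 hr S e').2.2
  by_cases h8 : r S₀ = 0
  · rw [h7, h8, zero_smul]
  · have h9 := mem_Sup_iff.1 hr S₀ h8
    have h10 := osg_sq hq h9.1.1 hS₀ h9.1.2.2.1
    rw [h7, map_smul, smul_eq_mul, mul_eq_zero] at h6
    rw [h6.resolve_left h8, mul_zero] at h10
    exact absurd h10 zero_ne_one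

end Pool.Agent.MP_cbe134_nt.V
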