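import Pool.Agent.MP_cbe134_nt.VC6
import Pool.Agent.MP_cbe134_nt.VC9

/- First cohomology of `GL₄(ℤ)` and the zigzag in degree one. -/

namespace Pool.Agent.MP_cbe134_nt.V

theorem w1_aut {G G' E : Type} [Group G] [Group G'] [AddCommGroup E] [Module ℚ E]
    {ρ : G → E →ₗ[ℚ] E} {T : Submodule ℚ E} (θ : G' ≃* G) (h : V1 ⊤ ρ T) :
    V1 ⊤ (fun g => ρ (θ g)) T := by
  intro c hc hcc
  obtain ⟨v, hv, e⟩ := h (fun a => c (θ.symm a)) (fun a _ => hc _ trivial) fun a _ b _ => by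
    have h1 := hcc (θ.symm a) trivial (θ.symm b) trivial
    simpa only [MulEquiv.apply_symm_apply, map_mul] using h1
  refine ⟨v, hv, fun a _ => ?_⟩
  simpa only [MulEquiv.symm_apply_apply] using e (θ a) trivial

theorem w1_top (d : ℕ) : V1 ⊤ (rho (n := 4)) (Hd 4 d) := by
  refine amal1 (P := Par 3) le_top act_rho stb_rho (c5_par (v1_Q d)) fun g _ => ?_
  refine V0.mono ?_ le_top (v0_triple (bv 0) ((g : Mx 4).mulVec (bv 0)))
  rw [c5_inf]
  exact c5_anti (by simp)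

theorem v1_GL4 (d : ℕ) : V1 ⊤ (rhoD (n := 4)) (Hd 4 d) := by
  convert w1_aut (c3_theta 4) (w1_top d) using 2 with g
  have h1 : dt (c3_theta 4 g) = dt g := by
    rw [← dt_inv g]
    exact congrArg Int.cast (Matrix.det_transpose _)
  rw [rho, h1]
  rfl

theorem zigzag1 {G C X E : Type} [Group G] [AddCommGroup C] [Module ℚ C] [AddCommGroup E]
    [Module ℚ E] (α : G → C →ₗ[ℚ] C) (hα : Act ⊤ α) (W1 W2 : Submodule ℚ C)
    (hW1 : Stb ⊤ α W1) (δ : C →ₗ[ℚ] C) (act : G → X → X) (h1 : ∀ x, act 1 x = x)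
    (hm : ∀ a b x, act (a * b) x = act a (act b x)) (Vx : Set X)
    (hV : ∀ a, ∀ x ∈ Vx, act a x ∈ Vx)
    (χ : G → ℚ) (hχ : ∀ a, χ a * χ a = 1) (hχm : ∀ a b, χ (a * b) = χ a * χ b)
    (dd : C →ₗ[ℚ] (X →₀ ℚ)) (hds : ∀ x ∈ W1, dd x ∈ Finsupp.supported ℚ ℚ Vx)
    (hdα : ∀ a, ∀ x ∈ W1, dd (α a x) = χ a • Finsupp.mapDomain (act a) (dd x))
    (haug : ∀ x ∈ W1, ((dd x).sum fun _ c => c) = 0)
    (ex1 : ∀ x ∈ W1, dd x = 0 → ∃ y ∈ W2, δ y = x)
    (ex0 : ∀ q ∈ Vx, ∀ q' ∈ Vx, ∃ x ∈ W1, dd x = Finsupp.single q 1 - Finsupp.single q' 1)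
    (ρ : G → E →ₗ[ℚ] E) (hA : Act ⊤ ρ) (T : Submodule ℚ E) (hT : Stb ⊤ ρ T)
    (hv : V1 ⊤ (fun a => χ a • ρ a) T) (Ψ : C →ₗ[ℚ] E) (hΨT : ∀ x ∈ W1, Ψ x ∈ T)
    (hΨα : ∀ a, ∀ x ∈ W1, Ψ (α a x) = ρ a (Ψ x)) (hΨδ : ∀ y ∈ W2, Ψ (δ y) = 0) :
    ∃ B : X → E, (∀ q ∈ Vx, B q ∈ T) ∧ (∀ a, ∀ q ∈ Vx, B (act a q) = χ a • ρ a (B q)) ∧
      ∀ x ∈ W1, Ψ x = (dd x).sum fun q c => c • B q := by
  have hχ1 : χ 1 = 1 := by
    have := hχm 1 1
    rw [mul_one, hχ] at this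
    exact this
  have hχi : ∀ a, χ a⁻¹ = χ a := fun a => by
    have e := hχm a a⁻¹
    rw [mul_inv_cancel, hχ1] at e
    linear_combination χ a * e.symm - χ a⁻¹ * hχ a
  obtain ⟨k, hk, hkd⟩ := c9_factor W1 dd Ψ T hΨT fun x hx h0 => by
    obtain ⟨y, hy, rfl⟩ := ex1 x hx h0
    exact hΨδ y hy
  have hsum : ∀ v : E, ∀ x ∈ W1,
      Ψ x = (dd x).sum fun q c => c • (k (Finsupp.single q 1) - v) := by
    intro v x hx
    have e := haug x hx
    rw [Finsupp.sum] at e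
    simp only [smul_sub, Finsupp.sum, Finset.sum_sub_distrib, ← Finset.sum_smul, e, zero_smul,
      sub_zero, ← map_smul, Finsupp.smul_single_one, ← map_sum]
    rw [← hkd x hx]
    exact congrArg k (Finsupp.sum_single _).symm
  rcases Vx.eq_empty_or_nonempty with h0 | ⟨q0, h0⟩
  · subst h0
    exact ⟨_, fun _ h => h.elim, fun _ _ h => h.elim, hsum 0⟩
  let f : G → X → E := fun a q =>
    χ a • ρ a (k (Finsupp.single (act a⁻¹ q) 1)) - k (Finsupp.single q 1)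
  have hf : ∀ a, ∀ q ∈ Vx, f a q = f a q0 := fun a q hq => by
    obtain ⟨x, hx, e⟩ := ex0 q hq q0 h0
    have e1 := congrArg (ρ a) (hkd _ (hW1 a⁻¹ trivial x hx))
    have e2 := hkd x hx
    rw [hΨα _ _ hx, ← hA.2 _ trivial _ trivial, mul_inv_cancel, hA.1, hdα _ _ hx, hχi, e,
      Finsupp.mapDomain_sub, Finsupp.mapDomain_single, Finsupp.mapDomain_single, map_smul,
      map_smul, map_sub, map_sub, smul_sub] at e1
    rw [e, map_sub] at e2
    simp only [f]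
    linear_combination (norm := abel) e1 - e2
  obtain ⟨v, hv', e⟩ := hv (fun a => f a q0)
    (fun a _ => T.sub_mem (T.smul_mem _ (hT a trivial _ (hk _))) (hk _)) fun a _ b _ => by
      rw [← hf b _ (hV a⁻¹ q0 h0)]
      simp only [f, LinearMap.smul_apply, map_sub, map_smul, smul_smul, ← hm,
        ← mul_inv_rev, hχm, hA.2 a trivial b trivial, mul_comm (χ b)]
      abel
  refine ⟨fun q => k (Finsupp.single q 1) - v, fun q _ => T.sub_mem (hk _) hv', fun a q hq => ?_,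
    hsum v⟩
  have e1 := (hf a _ (hV a q hq)).trans (e a trivial)
  simp only [f, ← hm, inv_mul_cancel, h1, LinearMap.smul_apply] at e1
  beta_reduce
  rw [map_sub, smul_sub]
  linear_combination (norm := abel) -e1

end Pool.Agent.MP_cbe134_nt.V
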