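import Pool.Agent.MP_cbe134_nt.VW5
import Pool.Agent.MP_cbe134_nt.VW1
import Pool.Agent.MP_cbe134_nt.VG8
import Pool.Agent.MP_cbe134_nt.VK4

/- Image and kernel of the cyclic sum on the invariants of the facet stabiliser. -/

open Matrix Finsupp

namespace Pool.Agent.MP_cbe134_nt.V

variable {d : ℕ} {v : Pn 4}

theorem w6_cancel {c : ℚ} (hc : c ≠ 0) {f : Pn 4} (h : c • f = 0) : f = 0 :=
  (smul_eq_zero.1 h).resolve_left hc

theorem w6_psi {g : Pn 4} (hy : g ∈ Rsp shY1 d)
    (h : Nm (chn zL) g (del Cell (br (fanL.map V4.at))) = 0) : opR mF (opR R5 g) = 0 := by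
  have hk : chn [(1, k0L)] ∈ Sup Spans := chn_one k0L ▸ k0_spans
  have hf : chn [(1, fanL)] ∈ Sup Spans := chn_one fanL ▸ fan_spans
  have ht := opC_mem k_det.2.2.2.1 hk
  have h1 := chkC_sound k_zetaD
  rw [zeta, chn_append, chn_append, chn_append, chn_csm, chn_csm, chn_csm, chn_csm, chn_bdL] at h1
  have h2 : bd (chn zL) = (10 : ℚ) • chn psiL + (-1 : ℚ) • chn (opC thc [(1, k0L)]) +
      (-1 : ℚ) • chn zetaD := by
    push_cast at h1
    linear_combination (norm := module) -h1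
  have h3 := chkC_sound k_fan
  rw [chn_append, chn_csm, Int.cast_neg, Int.cast_one, neg_one_smul, add_neg_eq_zero] at h3
  rw [nm_del zL_mem bd_zL_spans g fan_spans, h2,
    nm_add_left (add_mem (Submodule.smul_mem _ _ psi_spans) (Submodule.smul_mem _ _ ht))
      (Submodule.smul_mem _ _ zetaD_spans),
    nm_add_left (Submodule.smul_mem _ _ psi_spans) (Submodule.smul_mem _ _ ht),
    nm_smul_left psi_spans, nm_smul_left ht, nm_smul_left zetaD_spans, nm_zeta hy,
    nm_opC k_det.2.2.2.1 hk, chn_one, nm_k0_fan, smul_zero, add_zero, add_zero, h3,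
    nm_opC (fun p hp => by rw [k_det.2.2.2.2 p hp, one_mul]) hf, chn_one, nm_fan_fan] at h
  exact w6_cancel (by norm_num) h

theorem w6_X (hd : Even d) {g : Pn 4} (hy : g ∈ Rsp shY1 d) (h : opR mF (opR R5 g) = 0) :
    g ∈ Rsp shX1 d := by
  have hg := Rsp_le _ _ hy
  obtain ⟨f, hf, e⟩ := hy
  have hf1 : opR shY1 f ∈ Hd 4 d := opR_mem _ hf
  rw [LinearMap.comp_apply] at e
  have h1 := chkG_sound k_idem hd hf1
  have h2 := chkG_sound k_R5eD hd hf1
  rw [opR_append, opR_gsm, opR_gmul, e, Int.cast_neg, neg_smul, add_neg_eq_zero] at h1 h2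
  rw [h2, map_smul] at h
  have h3 := chkG_sound k_mF hd hg
  rw [opR_append, opR_gsm, w6_cancel (by norm_num) h, zero_add] at h3
  have h4 := chkG_sound k_stF hd hg
  rw [opR_append, opR_gsm, opR_gmul, opR_gmul, h1, map_smul, w6_cancel (by norm_num) h3,
    smul_zero, map_zero, zero_add] at h4
  have h5 := chkG_sound k_eEx hd hg
  rw [opR_append, opR_gsm, w6_cancel (by norm_num) h4, smul_zero, add_zero] at h5
  have h6 := chkG_sound k_splitX hd hg
  rw [opR_append, opR_append, opR_gsm, h5, add_zero, opR_gmul, opR_gmul, h1, map_smul,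
    map_smul] at h6
  refine ⟨(1 / 20 : ℚ) • g, Submodule.smul_mem _ _ hg, ?_⟩
  rw [map_smul, LinearMap.comp_apply]
  push_cast at h6
  linear_combination (norm := module) (1 / 200 : ℚ) • h6

theorem R5_mem_X (hd : Even d) (hv : v ∈ I33 d) : opR R5 v ∈ Rsp shX1 d := by
  obtain ⟨a, -, ha⟩ := delta_zero hd hv
  have h := ha _ (del_mem_spans fan_spans)
  rw [del_del_cell fan_spans, map_zero, map_zero, smul_zero, smul_zero, zero_add] at h
  exact w6_X hd (R5_mem_Y hd hv) (w6_psi (R5_mem_Y hd hv) (w6_cancel (by norm_num) h))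

theorem w6_dd : ∃ η : ℚ, η * η = 1 ∧
    dd (br (s33.map V4.at)) = η • (single q1m.toM 1 - single q2m.toM 1) := by
  have hn : (s33.map V4.at).Nodup := nodup_at (by decide)
  obtain ⟨ε, hε, e⟩ := br_nodup hn
  have h9 : (s33.map V4.at).toFinset.card = 9 := l2_card hn
  have h1 := l2_sub_mn q1m (l := s33) (by decide)
  have h2 := l2_sub_mn q2m (l := s33) (by decide)
  refine ⟨ε * osg q1m.toM (single (s33.map V4.at).toFinset 1), ?_, ?_⟩
  · rw [mul_mul_mul_comm, hε, osg_sq vert_q1 l2_cell33 h9 h1, one_mul]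
  · rw [e, l1_one, map_smul,
      dd_edge vert_q1 vert_q2 (fun h => absurd (toM_inj h) (by decide)) h9 h1 h2, smul_smul]

theorem w6_pb {B : Mt → Pn 4}
    (hB : ∀ a, ∀ q ∈ {q | Vert q}, B (va a q) = dt a • rhoI a (B q)) {A : Mt}
    (hA : A.det * A.det = 1) {q : Mt} (hq : Vert q) :
    sub A (B q) = (A.det : ℚ) • B (pb A q) := by
  obtain ⟨γ, rfl⟩ := exists_GL hA
  have h1 : B (pb (γ : Mt) q) = dt γ⁻¹ • sub (γ : Mt) (B q) := hB γ⁻¹ q hq
  have h2 : dt γ * dt γ⁻¹ = 1 := by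
    rw [← dt_mul, mul_inv_cancel, dt, Units.val_one, Matrix.det_one, Int.cast_one]
  rw [h1, smul_smul]
  change _ = (dt γ * dt γ⁻¹) • _
  rw [h2, one_smul]

theorem ker_R5 (hd : Even d) (hv : v ∈ I33 d) (h : opR R5 v = 0) :
    ∃ b ∈ ID4 d, v = b - sub (((rM.mul rM).mul rM).mul rM).toM b := by
  obtain ⟨a, haH, ha⟩ := delta_zero hd hv
  have hs := Wc_le_spans (j := 9) (by norm_num) s33_mem
  have hf := Wc_le_spans (j := 9) (by norm_num) fac02_mem
  have h0 : ∀ x, Nm (chn zL) 0 x = 0 := fun x => by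
    have := nm_smul_right zL_spans 0 0 x
    rwa [zero_smul, zero_smul] at this
  obtain ⟨B, hB1, hB2, hB3⟩ := zigzag1 ga act_ga (Wc 9) (Wc 8) (stb_Wc 9) (del Cell) va va_one
    va_mul {q | Vert q} (fun a _ hq => va_vert a hq) dt dt_sq dt_mul dd (fun _ hx => dd_mem hx)
    (fun a _ hx => dd_ga a hx) (fun _ hx => dd_aug hx) (fun _ hx h => ex9 hx h)
    (fun _ hq _ hq' => ex10 hq hq') rhoI act_rhoI (Hd 4 d) stb_rhoI (v1_GL4 d)
    ((16000 : ℚ) • Nm (br (s33.map V4.at)) v -
      (144 : ℚ) • Nm (br ((e02 :: u0L).map V4.at)) a)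
    (fun x _ => Submodule.sub_mem _ (Submodule.smul_mem _ _ (nm_mem hs hv.1 x))
      (Submodule.smul_mem _ _ (nm_mem hf haH x)))
    (fun g x _ => by
      simp only [LinearMap.sub_apply, LinearMap.smul_apply, nm_ga hs, nm_ga hf, map_sub, map_smul])
    (fun y hy => by
      have := ha y (Wc_le_spans (j := 8) (by norm_num) hy)
      rw [h, h0, smul_zero, add_zero] at this
      rw [LinearMap.sub_apply, LinearMap.smul_apply, LinearMap.smul_apply, this, sub_self])
  obtain ⟨η, hη, e⟩ := w6_dd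
  have h1 := hB3 _ s33_mem
  rw [LinearMap.sub_apply, LinearMap.smul_apply, LinearMap.smul_apply, nm_s33_s33 hd hv, nm_f_s33,
    ← linearCombination_apply, e, map_smul, map_sub, linearCombination_single,
    linearCombination_single, one_smul, one_smul] at h1
  have h2 := w6_pb hB2 (A := (((rM.mul rM).mul rM).mul rM).toM) (by rw [toM_det]; decide) vert_q1
  rw [← toM_pb, show (((rM.mul rM).mul rM).mul rM).pb q1m = q2m by decide, toM_det,
    show (((rM.mul rM).mul rM).mul rM).det = 1 by decide, Int.cast_one, one_smul] at h2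
  refine ⟨(η / 2304000) • B q1m.toM, Submodule.smul_mem _ _ ⟨hB1 _ vert_q1, fun M hM => ?_⟩, ?_⟩
  · obtain ⟨-, h3, -, -, -, h4⟩ := stab_group (q := q1m) (by decide) mem_GD nodup_GD
    rw [w6_pb hB2 (h4 M hM) vert_q1, (h3 M).1 hM]
  · rw [map_smul, h2]
    linear_combination (norm := module) (1 / 2304000 : ℚ) • h1

theorem I33_le (hd : Even d) : Module.finrank ℚ (I33 d) ≤ Module.finrank ℚ (ID4 d) +
    Module.finrank ℚ (Rsp shX1 d ⊓ Rsp shY1 d : Submodule ℚ (Pn 4)) := by
  have : FiniteDimensional ℚ (I33 d) := fin_of_le (d := d) fun _ h => h.1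
  have : FiniteDimensional ℚ (ID4 d) := fin_of_le (d := d) fun _ h => h.1
  have : FiniteDimensional ℚ (Rsp shX1 d ⊓ Rsp shY1 d : Submodule ℚ (Pn 4)) :=
    fin_of_le (d := d) (inf_le_left.trans (Rsp_le _ _))
  have h1 := LinearMap.finrank_range_add_finrank_ker ((opR R5).domRestrict (I33 d))
  have h2 : LinearMap.range ((opR R5).domRestrict (I33 d)) ≤ Rsp shX1 d ⊓ Rsp shY1 d := by
    rintro _ ⟨x, rfl⟩
    exact ⟨R5_mem_X hd x.2, R5_mem_Y hd x.2⟩
  have h3 : (LinearMap.ker ((opR R5).domRestrict (I33 d))).map (I33 d).subtype ≤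
      (ID4 d).map (LinearMap.id - (sub (((rM.mul rM).mul rM).mul rM).toM).toLinearMap) := by
    rintro _ ⟨x, hx, rfl⟩
    obtain ⟨b, hb, e⟩ := ker_R5 hd x.2 hx
    exact ⟨b, hb, e.symm⟩
  have h4 := Submodule.finrank_mono h2
  have h5 := (Submodule.finrank_mono h3).trans (Submodule.finrank_map_le _ _)
  rw [Submodule.finrank_map_subtype_eq] at h5
  omega

theorem I33_odd (hd : Odd d) : I33 d = ⊥ := by
  refine (Submodule.eq_bot_iff _).2 fun f hf => ?_
  have h := I33_sub hf (A := M4.one.neg) (by decide)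
  rw [toM_neg, sub_neg _ hf.1, toM_one, sub_one, hd.neg_one_pow,
    show chi33 M4.one.neg = 1 by decide, Int.cast_one] at h
  exact w6_cancel (c := 2) (by norm_num) (by linear_combination (norm := module) -h)

end Pool.Agent.MP_cbe134_nt.V
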