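import Pool.Agent.MP_cbe134_nt.VMain
import Pool.Agent.MP_cbe134_nt.VW2
import Pool.Agent.MP_cbe134_nt.VW6

/- The exact dimension of the linearised double shuffle space in depth four. -/

open PowerSeries

namespace Pool.Agent.MP_cbe134_nt.V

theorem ds4_eq (d : ℕ) : (Module.finrank ℚ (DS 4 d) : ℚ) = coeff d ser4 := by
  refine le_antisymm (ds4_le d) ?_
  rw [← dim_diff d]
  rcases Nat.even_or_odd d with hd | hd
  · have h1 := I33_le hd
    have h2 := ds4_ge hd
    have h5 : Module.finrank ℚ (I33 d) ≤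
        Module.finrank ℚ (ID4 d) + Module.finrank ℚ (DS 4 d) := by omega
    have h6 : (Module.finrank ℚ (I33 d) : ℚ) ≤
        ((Module.finrank ℚ (ID4 d) + Module.finrank ℚ (DS 4 d) : ℕ) : ℚ) := by exact_mod_cast h5
    push_cast at h6
    linarith
  · rw [I33_odd hd, finrank_bot]
    have h1 : (0 : ℚ) ≤ Module.finrank ℚ (ID4 d) := Nat.cast_nonneg _
    have h2 : (0 : ℚ) ≤ Module.finrank ℚ (DS 4 d) := Nat.cast_nonneg _
    push_cast
    linarith

end Pool.Agent.MP_cbe134_nt.V
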