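import Pool.Agent.MP_cbe134_nt.VD3
import Pool.Agent.MP_cbe134_nt.VApol

/- Soundness of the computations with matrices. -/

open Matrix

namespace Pool.Agent.MP_cbe134_nt.V

/-- the value of a search tree -/
def h4_val {K E : Type} [AddCommGroup E] [Module ℚ E] (F : K → E) : Tr K → E
  | .nil => 0
  | .node l _ k c r => h4_val F l + (c : ℚ) • F k + h4_val F r

theorem h4_ins {K E : Type} [DecidableEq K] [AddCommGroup E] [Module ℚ E] (F : K → E) (n : ℤ)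
    (k : K) (c : ℤ) (t : Tr K) : h4_val F (t.ins n k c) = h4_val F t + (c : ℚ) • F k := by
  induction t with
  | nil => simp [Tr.ins, h4_val]
  | node l n' k' c' r ihl ihr =>
    unfold Tr.ins
    split_ifs with h1 h2 h3
    · simp only [h4_val, ihl]; abel
    · simp only [h4_val, ihr]; abel
    · simp only [h4_val, h3, Int.cast_add, add_smul]; abel
    · simp only [h4_val, ihr]; abel

theorem h4_zero {K E : Type} [AddCommGroup E] [Module ℚ E] (F : K → E) (t : Tr K)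
    (h : t.zero = true) : h4_val F t = 0 := by
  induction t with
  | nil => rfl
  | node l n k c r ihl ihr =>
    simp only [Tr.zero, Bool.and_eq_true, beq_iff_eq] at h
    simp [h4_val, ihl h.1.2, ihr h.2, h.1.1]

theorem h4_fold {K E : Type} [DecidableEq K] [AddCommGroup E] [Module ℚ E] (code : K → ℤ)
    (F : K → E) (l : List (ℤ × K)) (t : Tr K) :
    h4_val F (l.foldl (fun t p => t.ins (code p.2) p.2 p.1) t) =
      h4_val F t + (l.map fun p => (p.1 : ℚ) • F p.2).sum := by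
  induction l generalizing t with
  | nil => simp
  | cons p l ih => rw [List.foldl_cons, ih, h4_ins, List.map_cons, List.sum_cons, add_assoc]

theorem chk_sound {K E : Type} [DecidableEq K] [AddCommGroup E] [Module ℚ E] (code : K → ℤ)
    (l : List (ℤ × K)) (h : chk code l = true) (F : K → E) :
    (l.map fun p => (p.1 : ℚ) • F p.2).sum = 0 := by
  have h1 := h4_fold code F l Tr.nil
  rw [h4_zero F _ h, h4_val, zero_add] at h1
  exact h1.symm

theorem h4_add (a b : ℤ) : Int.add a b = a + b := rfl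

theorem h4_mul (a b : ℤ) : Int.mul a b = a * b := rfl

theorem h4_sub (a b : ℤ) : Int.sub a b = a - b := rfl

theorem h4_neg (a : ℤ) : Int.neg a = -a := rfl

theorem toV_inj {v w : V4} (h : v.toV = w.toV) : v = w := by
  cases v
  cases w
  simpa [V4.toV] using h

theorem toV_surj (v : Vc) : ∃ w : V4, w.toV = v := by
  refine ⟨⟨v 0, v 1, v 2, v 3⟩, ?_⟩
  ext i
  fin_cases i <;> rfl

theorem toM_inj {A B : M4} (h : A.toM = B.toM) : A = B := by
  have h1 : ∀ i j, A.toM i j = B.toM i j := fun i j => by rw [h]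
  obtain ⟨⟨_, _, _, _⟩, ⟨_, _, _, _⟩, ⟨_, _, _, _⟩, ⟨_, _, _, _⟩⟩ := A
  obtain ⟨⟨_, _, _, _⟩, ⟨_, _, _, _⟩, ⟨_, _, _, _⟩, ⟨_, _, _, _⟩⟩ := B
  simp only [M4.mk.injEq, V4.mk.injEq]
  exact ⟨⟨h1 0 0, h1 0 1, h1 0 2, h1 0 3⟩, ⟨h1 1 0, h1 1 1, h1 1 2, h1 1 3⟩,
    ⟨h1 2 0, h1 2 1, h1 2 2, h1 2 3⟩, h1 3 0, h1 3 1, h1 3 2, h1 3 3⟩

theorem toM_surj (A : Mt) : ∃ B : M4, B.toM = A := by
  refine ⟨⟨⟨A 0 0, A 0 1, A 0 2, A 0 3⟩, ⟨A 1 0, A 1 1, A 1 2, A 1 3⟩,
    ⟨A 2 0, A 2 1, A 2 2, A 2 3⟩, ⟨A 3 0, A 3 1, A 3 2, A 3 3⟩⟩, ?_⟩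
  ext i j
  fin_cases i <;> fin_cases j <;> rfl

theorem toV_neg (v : V4) : v.neg.toV = -v.toV := by
  ext i
  fin_cases i <;> rfl

theorem toV_app (A : M4) (v : V4) : (A.app v).toV = A.toM *ᵥ v.toV := by
  ext i
  fin_cases i <;>
    simp [V4.toV, M4.toM, M4.app, V4.dot, mulVec, dotProduct,
      Fin.sum_univ_four, add_assoc]

theorem toM_one : M4.one.toM = 1 := by
  ext i j
  fin_cases i <;> fin_cases j <;> rfl

theorem toM_mul (A B : M4) : (A.mul B).toM = A.toM * B.toM := by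
  obtain ⟨⟨_, _, _, _⟩, ⟨_, _, _, _⟩, ⟨_, _, _, _⟩, ⟨_, _, _, _⟩⟩ := A
  obtain ⟨⟨_, _, _, _⟩, ⟨_, _, _, _⟩, ⟨_, _, _, _⟩, ⟨_, _, _, _⟩⟩ := B
  ext i j
  rw [Matrix.mul_apply, Fin.sum_univ_four, add_assoc]
  fin_cases i <;> fin_cases j <;> rfl

theorem toM_tr (A : M4) : A.tr.toM = A.toMᵀ := by
  ext i j
  fin_cases i <;> fin_cases j <;> rfl

theorem toM_neg (A : M4) : A.neg.toM = -A.toM := by
  ext i j
  fin_cases i <;> fin_cases j <;> rfl

theorem h4_det {R : Type} [CommRing R] (M : Matrix (Fin 4) (Fin 4) R) : M.det =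
    (M 0 0 * M 1 1 - M 0 1 * M 1 0) * (M 2 2 * M 3 3 - M 2 3 * M 3 2)
      - (M 0 0 * M 1 2 - M 0 2 * M 1 0) * (M 2 1 * M 3 3 - M 2 3 * M 3 1)
      + (M 0 0 * M 1 3 - M 0 3 * M 1 0) * (M 2 1 * M 3 2 - M 2 2 * M 3 1)
      + (M 0 1 * M 1 2 - M 0 2 * M 1 1) * (M 2 0 * M 3 3 - M 2 3 * M 3 0)
      - (M 0 1 * M 1 3 - M 0 3 * M 1 1) * (M 2 0 * M 3 2 - M 2 2 * M 3 0)
      + (M 0 2 * M 1 3 - M 0 3 * M 1 2) * (M 2 0 * M 3 1 - M 2 1 * M 3 0) := by
  simp [det_succ_row_zero, Fin.sum_univ_succ, Fin.succAbove]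
  ring

theorem toM_det (A : M4) : A.toM.det = A.det := by
  obtain ⟨⟨_, _, _, _⟩, ⟨_, _, _, _⟩, ⟨_, _, _, _⟩, ⟨_, _, _, _⟩⟩ := A
  rw [h4_det]
  simp [M4.toM, M4.det, mn2, h4_sub]
  ring

theorem toM_pb (A q : M4) : (A.pb q).toM = pb A.toM q.toM := by
  rw [M4.pb, toM_mul, toM_mul, toM_tr, pb]

theorem bil_eq (q : M4) (v w : V4) : q.bil v w = v.toV ⬝ᵥ (q.toM *ᵥ w.toV) := by
  rw [← toV_app]
  simp [M4.bil, V4.dot, V4.toV, dotProduct, Fin.sum_univ_four, add_assoc]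

theorem bil_at (q : M4) (v : V4) : q.bil v v = pr q.toM v.at := by
  rw [bil_eq]
  simp only [pr, V4.at, phi, vecMulVec_apply, dotProduct, mulVec, Finset.mul_sum]
  exact Finset.sum_congr rfl fun i _ => Finset.sum_congr rfl fun j _ => by ring

theorem nrm_cases (v : V4) : v.nrm = v ∨ v.nrm = v.neg := by
  unfold V4.nrm
  split_ifs
  · exact Or.inr rfl
  · exact Or.inl rfl

theorem nrm_neg (v : V4) : v.neg.nrm = v.nrm := by
  obtain ⟨a, b, c, d⟩ := v
  simp only [V4.nrm, V4.neg, V4.isNeg, h4_neg, neg_neg, neg_eq_zero]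
  split_ifs <;> simp only [decide_eq_true_eq, V4.mk.injEq, and_self] at * <;> omega

theorem at_neg (v : V4) : v.neg.at = v.at := by
  rw [V4.at, V4.at, toV_neg, phi, phi]
  ext i j
  simp [vecMulVec_apply]

theorem at_nrm (v : V4) : v.nrm.at = v.at := by
  rcases nrm_cases v with h | h <;> rw [h]
  exact at_neg v

theorem at_eq_iff {v w : V4} : v.at = w.at ↔ v.nrm = w.nrm := by
  refine ⟨fun h => ?_, fun h => by rw [← at_nrm v, h, at_nrm]⟩
  have h1 : ∀ i j, v.toV i * v.toV j = w.toV i * w.toV j := fun i j => congrFun (congrFun h i) j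
  by_cases h2 : v.toV = w.toV
  · rw [toV_inj h2]
  obtain ⟨i, hi⟩ := Function.ne_iff.1 h2
  have h3 : v.toV i = -w.toV i := (mul_self_eq_mul_self_iff.1 (h1 i i)).resolve_left hi
  have h4 : w.toV i ≠ 0 := fun h4 => hi (by rw [h3, h4, neg_zero])
  have h5 : v.toV = w.neg.toV := by
    rw [toV_neg]
    funext j
    apply mul_left_cancel₀ h4
    have := h1 i j
    rw [h3] at this
    rw [Pi.neg_apply]
    linarith
  rw [toV_inj h5, nrm_neg]

theorem at_app (A : M4) (v : V4) : (A.app v).at = cj A.toM v.at := by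
  rw [V4.at, V4.at, toV_app, phi, phi, cj, mul_vecMulVec, vecMulVec_mul, vecMul_transpose]

theorem mol_toM (A : M4) : mol A.toM = A.cp.ser := by
  have h : (A.toM.map (Int.cast : ℤ → ℚ)).charpolyRev =
      1 - (A.cp.a : Polynomial ℚ) * Polynomial.X + (A.cp.b : Polynomial ℚ) * Polynomial.X ^ 2
        - (A.cp.c : Polynomial ℚ) * Polynomial.X ^ 3
        + (A.cp.d : Polynomial ℚ) * Polynomial.X ^ 4 := by
    obtain ⟨⟨_, _, _, _⟩, ⟨_, _, _, _⟩, ⟨_, _, _, _⟩, ⟨_, _, _, _⟩⟩ := A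
    rw [charpolyRev, h4_det]
    simp [M4.toM, M4.cp, M4.det, mn2, mn3, h4_sub]
    ring
  rw [mol, V4.ser, h, ← Polynomial.coeToPowerSeries.ringHom_apply]
  simp only [map_add, map_sub, map_mul, map_pow, map_one, map_intCast,
    Polynomial.coeToPowerSeries.ringHom_apply, Polynomial.coe_X, Int.cast_smul_eq_zsmul,
    zsmul_eq_mul]

theorem exists_GL {A : Mt} (h : A.det * A.det = 1) : ∃ g : GLz 4, (g : Mt) = A := by
  obtain ⟨g, hg⟩ := (Matrix.isUnit_iff_isUnit_det A).2 (IsUnit.of_mul_eq_one _ h)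
  exact ⟨g, hg⟩

theorem opR_nil (g : Pn 4) : opR [] g = 0 := by
  simp [opR]

theorem opR_cons (p : ℤ × M4) (a : GR) (g : Pn 4) :
    opR (p :: a) g = (p.1 : ℚ) • sub p.2.toM g + opR a g := by
  simp [opR]

theorem opR_eq (a : GR) (g : Pn 4) :
    opR a g = (a.map fun p => (p.1 : ℚ) • sub p.2.toM g).sum := by
  induction a with
  | nil => simp [opR_nil]
  | cons p a ih => rw [opR_cons, ih, List.map_cons, List.sum_cons]

theorem opR_append (a b : GR) (g : Pn 4) : opR (a ++ b) g = opR a g + opR b g := by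
  simp [opR]

theorem opR_gsm (c : ℤ) (a : GR) (g : Pn 4) : opR (gsm c a) g = (c : ℚ) • opR a g := by
  induction a with
  | nil => simp [gsm, opR_nil]
  | cons p a ih =>
    rw [gsm, List.map_cons, opR_cons, opR_cons, ← gsm, ih, smul_add, smul_smul, Int.cast_mul]

theorem opR_gmul (a b : GR) (g : Pn 4) : opR (gmul a b) g = opR b (opR a g) := by
  induction a with
  | nil => simp [gmul, opR_nil]
  | cons p a ih =>
    rw [gmul, List.flatMap_cons, opR_append, ← gmul, ih, opR_cons, map_add, map_smul]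
    congr 1
    rw [opR_eq, opR_eq, List.map_map, List.smul_sum, List.map_map]
    congr 1
    refine List.map_congr_left fun s _ => ?_
    simp only [Function.comp_apply, toM_mul, sub_sub, Int.cast_mul, smul_smul]

theorem opR_filter (a : GR) (g : Pn 4) : opR (a.filter fun p => p.1 != 0) g = opR a g := by
  induction a with
  | nil => rfl
  | cons p a ih =>
    by_cases h : p.1 = 0
    · rw [List.filter_cons_of_neg (by simp [h]), ih, opR_cons, h]
      simp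
    · rw [List.filter_cons_of_pos (by simp [h]), opR_cons, opR_cons, ih]

theorem opR_mem (a : GR) {d : ℕ} {g : Pn 4} (hg : g ∈ Hd 4 d) : opR a g ∈ Hd 4 d := by
  induction a with
  | nil => simp [opR_nil]
  | cons p a ih =>
    rw [opR_cons]
    exact add_mem (Submodule.smul_mem _ _ (sub_mem _ hg)) ih

theorem chkG_sound {a : GR} (h : chkG a = true) {d : ℕ} (hd : Even d) {g : Pn 4}
    (hg : g ∈ Hd 4 d) : opR a g = 0 := by
  rw [opR_eq, ← chk_sound M4.code _ h fun A => sub A.toM g, List.map_map]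
  congr 1
  refine List.map_congr_left fun p _ => ?_
  simp only [Function.comp_apply, M4.nrm]
  split_ifs
  · rw [toM_neg, sub_neg_even _ hg hd]
  · rfl

theorem Bp_opR (a : GR) (f g : Pn 4) : Bp 4 (opR (gtr a) f) g = Bp 4 f (opR a g) := by
  induction a with
  | nil => simp [gtr, opR_nil]
  | cons p a ih =>
    rw [gtr, List.map_cons, opR_cons, opR_cons, ← gtr, map_add, map_add, LinearMap.add_apply, ih,
      map_smul, map_smul, LinearMap.smul_apply, toM_tr, Bp_sub]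

theorem h4_tr (A : M4) : A.tr.tr = A := rfl

theorem h4_pb (q : M4) (c0 c1 c2 c3 : V4) : (M4.tr ⟨c0, c1, c2, c3⟩).pb q =
    ⟨⟨q.bil c0 c0, q.bil c0 c1, q.bil c0 c2, q.bil c0 c3⟩,
      ⟨q.bil c1 c0, q.bil c1 c1, q.bil c1 c2, q.bil c1 c3⟩,
      ⟨q.bil c2 c0, q.bil c2 c1, q.bil c2 c2, q.bil c2 c3⟩,
      ⟨q.bil c3 c0, q.bil c3 c1, q.bil c3 c2, q.bil c3 c3⟩⟩ := by
  obtain ⟨⟨_, _, _, _⟩, ⟨_, _, _, _⟩, ⟨_, _, _, _⟩, ⟨_, _, _, _⟩⟩ := q
  cases c0
  cases c1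
  cases c2
  cases c3
  simp only [M4.pb, M4.tr, M4.mul, V4.row, M4.bil, M4.app, V4.dot, h4_add, h4_mul, M4.mk.injEq,
    V4.mk.injEq]
  refine ⟨⟨?_, ?_, ?_, ?_⟩, ⟨?_, ?_, ?_, ?_⟩, ⟨?_, ?_, ?_, ?_⟩, ?_, ?_, ?_, ?_⟩ <;> ring

theorem h4_symm {q : M4} (hq : q.tr = q) (v w : V4) : q.bil v w = q.bil w v := by
  rw [bil_eq, bil_eq, dotProduct_mulVec, ← mulVec_transpose, ← toM_tr, hq, dotProduct_comm]

theorem mem_stabL {q : M4} {l : List V4} {m : ℤ} (hq : q.tr = q)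
    (hm : q.r0.a = m ∧ q.r1.b = m ∧ q.r2.c = m ∧ q.r3.d = m)
    (hl : ∀ v : V4, q.bil v v = m ↔ v ∈ l) (A : M4) : A ∈ stabL q l ↔ A.pb q = q := by
  rw [← h4_tr A]
  obtain ⟨c0, c1, c2, c3⟩ := A.tr
  have e : ∀ v w : V4, v.dot (q.app w) = q.bil v w := fun _ _ => rfl
  have hi : ∀ B C : M4, B.tr = C.tr ↔ B = C := fun B C =>
    ⟨fun h => by rw [← h4_tr B, h, h4_tr], fun h => by rw [h]⟩
  simp only [stabL, List.mem_flatMap, List.mem_filter, List.mem_map, beq_iff_eq, e, hi, ← hl,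
    h4_pb, h4_symm hq c0 c1, h4_symm hq c0 c2, h4_symm hq c0 c3, h4_symm hq c1 c2,
    h4_symm hq c1 c3, h4_symm hq c2 c3]
  obtain ⟨⟨_, _, _, _⟩, ⟨_, _, _, _⟩, ⟨_, _, _, _⟩, ⟨_, _, _, _⟩⟩ := q
  simp only [M4.tr, M4.mk.injEq, V4.mk.injEq] at hq hm ⊢
  constructor
  · rintro ⟨_, h0, _, h1, _, h2, _, h3, rfl, rfl, rfl, rfl⟩
    omega
  · intro h
    exact ⟨c0, by omega, c1, by omega, c2, by omega, c3, by omega, rfl, rfl, rfl, rfl⟩

theorem h4_nodup {α β : Type} {l : List α} (hl : l.Nodup) {f : α → List β} (π : β → α)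
    (h1 : ∀ x, (f x).Nodup) (h2 : ∀ x, ∀ y ∈ f x, π y = x) : (l.flatMap f).Nodup :=
  List.nodup_flatMap.2 ⟨fun x _ => h1 x, hl.imp fun {x y} h z hx hy =>
    h ((h2 x z hx).symm.trans (h2 y z hy))⟩

theorem nodup_stabL (q : M4) {l : List V4} (hl : l.Nodup) : (stabL q l).Nodup := by
  refine h4_nodup hl (fun A => A.tr.r0) (fun c0 => h4_nodup (hl.filter _) (fun A => A.tr.r1)
    (fun c1 => h4_nodup ((hl.filter _).filter _) (fun A => A.tr.r2) (fun c2 =>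
      (((hl.filter _).filter _).filter _).map fun c3 c3' h => congrArg (fun A => A.tr.r3) h)
      ?_) ?_) ?_
  all_goals
    intro x y hy
    simp only [List.mem_flatMap, List.mem_map] at hy
  · obtain ⟨_, -, rfl⟩ := hy
    rfl
  · obtain ⟨_, -, _, -, rfl⟩ := hy
    rfl
  · obtain ⟨_, -, _, -, _, -, rfl⟩ := hy
    rfl

theorem stab_group {q : M4} {L : List M4} (hdet : q.det ≠ 0) (hL : ∀ A, A ∈ L ↔ A.pb q = q)
    (hnd : L.Nodup) : (L.map M4.toM).Nodup ∧ (∀ A, A ∈ L.map M4.toM ↔ pb A q.toM = q.toM) ∧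
      (1 : Mt) ∈ L.map M4.toM ∧ (∀ A ∈ L.map M4.toM, ∀ B ∈ L.map M4.toM, A * B ∈ L.map M4.toM) ∧
      (∀ A ∈ L.map M4.toM, ∃ B ∈ L.map M4.toM, A * B = 1) ∧
      ∀ A ∈ L.map M4.toM, A.det * A.det = 1 := by
  have hm : ∀ A, A ∈ L.map M4.toM ↔ pb A q.toM = q.toM := fun A => by
    obtain ⟨B, rfl⟩ := toM_surj A
    rw [List.mem_map_of_injective fun _ _ => toM_inj, hL, ← toM_pb]
    exact ⟨fun h => by rw [h], toM_inj⟩
  have hmul : ∀ A B : Mt, pb (A * B) q.toM = pb B (pb A q.toM) := fun A B => by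
    simp only [pb, transpose_mul, Matrix.mul_assoc]
  have h1 : pb 1 q.toM = q.toM := by simp [pb]
  have hd : ∀ A ∈ L.map M4.toM, A.det * A.det = 1 := fun A hA => by
    have h := congrArg Matrix.det ((hm A).1 hA)
    rw [pb, det_mul, det_mul, det_transpose, toM_det] at h
    apply mul_left_cancel₀ hdet
    linarith
  refine ⟨hnd.map fun _ _ => toM_inj, hm, (hm 1).2 h1, fun A hA B hB => ?_, fun A hA => ?_, hd⟩
  · rw [hm, hmul, (hm A).1 hA, (hm B).1 hB]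
  · obtain ⟨g, rfl⟩ := exists_GL (hd A hA)
    refine ⟨(g⁻¹ : GLz 4), (hm _).2 ?_, g.mul_inv⟩
    conv_lhs => rw [← (hm _).1 hA, ← hmul, g.mul_inv, h1]

end Pool.Agent.MP_cbe134_nt.V
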