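import Pool.Agent.MP_cbe134_nt.VH1
import Pool.Agent.MP_cbe134_nt.VH4

/- Soundness of the computations with chains. -/

namespace Pool.Agent.MP_cbe134_nt.V

theorem chn_nil : chn [] = 0 := by
  simp [chn]

theorem chn_cons (p : ℤ × List V4) (z : CL) :
    chn (p :: z) = (p.1 : ℚ) • br (p.2.map V4.at) + chn z := by
  simp only [chn, List.map_cons, List.sum_cons]

theorem chn_one (l : List V4) : chn [(1, l)] = br (l.map V4.at) := by
  rw [chn_cons, chn_nil, add_zero, Int.cast_one, one_smul]

theorem chn_append (z z' : CL) : chn (z ++ z') = chn z + chn z' := by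
  simp only [chn, List.map_append, List.sum_append]

theorem chn_csm (c : ℤ) (z : CL) : chn (csm c z) = (c : ℚ) • chn z := by
  induction z with
  | nil => simp [csm, chn_nil]
  | cons p z ih =>
    have h : csm c (p :: z) = (c * p.1, p.2) :: csm c z := rfl
    rw [h, chn_cons, chn_cons, ih, smul_add, Int.cast_mul, mul_smul]

theorem act_br_at (A : M4) (l : List V4) :
    act (cj A.toM) (br (l.map V4.at)) = br ((l.map A.app).map V4.at) := by
  rw [act_br, List.map_map, List.map_map]
  congr 1
  refine List.map_congr_left fun v _ => ?_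
  simp only [Function.comp_apply, at_app]

theorem h5_chn_app (c : ℤ) (A : M4) (z : CL) :
    chn (z.map fun s => (c * s.1, s.2.map A.app)) = (c : ℚ) • act (cj A.toM) (chn z) := by
  induction z with
  | nil => simp [chn_nil]
  | cons s z ih =>
    rw [List.map_cons, chn_cons, chn_cons, ih, map_add, map_smul, act_br_at, smul_add,
      Int.cast_mul, mul_smul]

theorem chn_opC (a : GR) (z : CL) :
    chn (opC a z) = (a.map fun p => (p.1 : ℚ) • act (cj p.2.toM) (chn z)).sum := by
  induction a with
  | nil => simp [opC, chn_nil]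
  | cons p a ih =>
    have h : opC (p :: a) z = (z.map fun s => (p.1 * s.1, s.2.map p.2.app)) ++ opC a z := by
      simp only [opC, List.flatMap_cons]
    rw [h, chn_append, ih, h5_chn_app, List.map_cons, List.sum_cons]

theorem h5_chn_wg (a : V4) (z : CL) :
    chn (z.map fun p => (-p.1, a :: p.2)) = -wg a.at (chn z) := by
  induction z with
  | nil => simp [chn_nil]
  | cons s z ih =>
    rw [List.map_cons, chn_cons, chn_cons, ih, map_add, map_smul, List.map_cons, br_cons,
      Int.cast_neg, neg_smul, neg_add]

theorem h5_chn_bdl (l : List V4) : chn (bdl l) = bd (br (l.map V4.at)) := by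
  induction l with
  | nil => rw [List.map_nil, bd_br_nil]; exact chn_nil
  | cons a l ih =>
    have h : bdl (a :: l) = (1, l) :: (bdl l).map fun p => (-p.1, a :: p.2) := rfl
    rw [h, chn_cons, h5_chn_wg, ih, List.map_cons, bd_br_cons, Int.cast_one, one_smul,
      sub_eq_add_neg]

theorem chn_bdL (z : CL) : chn (bdL z) = bd (chn z) := by
  induction z with
  | nil => simp [bdL, chn_nil]
  | cons p z ih =>
    have h : bdL (p :: z) = csm p.1 (bdl p.2) ++ bdL z := by
      simp only [bdL, List.flatMap_cons]
    rw [h, chn_append, ih, chn_csm, h5_chn_bdl, chn_cons, map_add, map_smul]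

theorem h5_insS (a : V4) (l : List V4) :
    wg a.at (br (l.map V4.at)) = ((insS a l).1 : ℚ) • br ((insS a l).2.map V4.at) := by
  induction l with
  | nil => simp [insS, br_cons]
  | cons b l ih =>
    unfold insS
    split_ifs with h1 h2
    · simp only [Int.cast_one, one_smul, List.map_cons, br_cons]
    · subst h2
      simp only [List.map_cons, br_cons, wg_self, Int.cast_zero, zero_smul]
    · simp only [List.map_cons, br_cons]
      rw [wg_wg, ih, map_smul, Int.cast_neg, neg_smul]

theorem br_srt (l : List V4) :
    br (l.map V4.at) = ((srt l).1 : ℚ) • br ((srt l).2.map V4.at) := by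
  induction l with
  | nil => simp [srt]
  | cons a l ih =>
    have h : srt (a :: l) = ((insS a.nrm (srt l).2).1 * (srt l).1, (insS a.nrm (srt l).2).2) := rfl
    rw [h, List.map_cons, br_cons, ih, map_smul, ← at_nrm a, h5_insS, Int.cast_mul, mul_comm,
      mul_smul]

theorem chkC_sound {z : CL} (h : chkC z = true) : chn z = 0 := by
  have h1 := chk_sound codeL _ h (fun l : List V4 => br (l.map V4.at))
  rw [List.map_map] at h1
  rw [← h1, chn]
  congr 1
  refine List.map_congr_left fun p _ => ?_
  simp only [Function.comp_apply]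
  rw [br_srt p.2, Int.cast_mul, mul_smul]

theorem h5_iot (a : V4) (l : List V4) : chn (iot a l) = io a.at (br (l.map V4.at)) := by
  induction l with
  | nil =>
    rw [List.map_nil, br_nil, io_single, if_neg (Finset.notMem_empty _)]
    exact chn_nil
  | cons b l ih =>
    have h : iot a (b :: l) = (if a.nrm = b.nrm then [(1, l)] else []) ++
      (iot a l).map fun p => (-p.1, b :: p.2) := rfl
    rw [h, chn_append, h5_chn_wg, ih, List.map_cons, br_cons, io_wg, sub_eq_add_neg]
    congr 1
    by_cases hab : a.nrm = b.nrm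
    · rw [if_pos hab, if_pos (at_eq_iff.2 hab), chn_one]
    · rw [if_neg hab, if_neg (fun e => hab (at_eq_iff.1 e)), chn_nil]

theorem h5_sum (l : List V4) (x : Ch Mt)
    (h : ∀ l' : List V4, (ipl l l' : ℚ) = ip x (br (l'.map V4.at))) (z : CL) :
    (((z.map fun p => p.1 * ipl l p.2).sum : ℤ) : ℚ) = ip x (chn z) := by
  induction z with
  | nil => simp [chn_nil]
  | cons p z ih =>
    rw [List.map_cons, List.sum_cons, Int.cast_add, ih, chn_cons, map_add, map_smul,
      Int.cast_mul, h, smul_eq_mul]

theorem ipl_eq (l l' : List V4) :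
    (ipl l l' : ℚ) = ip (br (l.map V4.at)) (br (l'.map V4.at)) := by
  induction l generalizing l' with
  | nil =>
    cases l' with
    | nil => simp [ipl, br_nil, ip_single]
    | cons b l' =>
      rw [List.map_cons, br_cons, ip_comm, ip_wg, List.map_nil, br_nil, io_single,
        if_neg (Finset.notMem_empty _), map_zero]
      simp [ipl]
  | cons a l ih =>
    have h : ipl (a :: l) l' = ((iot a l').map fun p => p.1 * ipl l p.2).sum := rfl
    rw [h, h5_sum l _ ih, h5_iot, List.map_cons, br_cons, ip_wg]

theorem ipL_eq (l : List V4) (z : CL) : (ipL l z : ℚ) = ip (br (l.map V4.at)) (chn z) :=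
  h5_sum l _ (ipl_eq l) z

theorem mem_at {l : List V4} {v : V4} : v.at ∈ l.map V4.at ↔ v.nrm ∈ l.map V4.nrm := by
  simp only [List.mem_map, at_eq_iff]

theorem nodup_at {l : List V4} (h : (l.map V4.nrm).Nodup) : (l.map V4.at).Nodup := by
  induction l with
  | nil => simp
  | cons a l ih =>
    rw [List.map_cons, List.nodup_cons] at h ⊢
    exact ⟨fun e => h.1 (mem_at.1 e), ih h.2⟩

theorem chn_mem_Sup {p : Finset Mt → Prop} {z : CL}
    (h : ∀ s ∈ z, (s.2.map V4.at).Nodup → p (s.2.map V4.at).toFinset) : chn z ∈ Sup p := by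
  induction z with
  | nil => rw [chn_nil]; exact zero_mem _
  | cons s z ih =>
    rw [chn_cons]
    exact add_mem (Submodule.smul_mem _ _ (br_mem_Sup (h s (List.mem_cons_self ..))))
      (ih fun t ht => h t (List.mem_cons_of_mem _ ht))

end Pool.Agent.MP_cbe134_nt.V
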