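import Pool.Agent.MP_cbe134_nt.VD4
import Pool.Agent.MP_cbe134_nt.VH5
import Pool.Agent.MP_cbe134_nt.VC3

/- Perfect forms in four variables: basic facts and minimal vectors. -/

open Matrix

namespace Pool.Agent.MP_cbe134_nt.V

theorem phi_neg (v : Vc) : phi (-v) = phi v := by
  ext i j
  simp [phi, vecMulVec_apply]

theorem phi_symm (v : Vc) : (phi v).IsSymm := by
  ext i j
  simp [phi, vecMulVec_apply, mul_comm]

theorem phi_eq_iff {v w : Vc} : phi v = phi w ↔ v = w ∨ v = -w := by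
  constructor
  · intro h
    have h1 : ∀ i j, v i * v j = w i * w j := fun i j => by
      have := congrFun (congrFun h i) j
      simpa [phi, vecMulVec_apply] using this
    by_cases hw : w = 0
    · left
      subst hw
      funext i
      have := h1 i i
      simpa using this
    · obtain ⟨i, hi⟩ := Function.ne_iff.mp hw
      have hi' : w i ≠ 0 := hi
      rcases mul_self_eq_mul_self_iff.mp (h1 i i) with h2 | h2
      · left
        funext j
        have := h1 i j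
        rw [h2] at this
        exact mul_left_cancel₀ hi' this
      · right
        funext j
        have := h1 i j
        rw [h2] at this
        have h3 : w i * v j = w i * (-w j) := by linarith
        exact mul_left_cancel₀ hi' h3
  · rintro (h | h)
    · rw [h]
    · rw [h, phi_neg]

theorem pr_phi (q : Mt) (v : Vc) : pr q (phi v) = v ⬝ᵥ (q *ᵥ v) := by
  simp only [pr, phi, vecMulVec_apply, dotProduct, mulVec, Finset.mul_sum]
  refine Finset.sum_congr rfl fun i _ => Finset.sum_congr rfl fun j _ => ?_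
  ring

theorem pr_sub (q q' A : Mt) : pr (q - q') A = pr q A - pr q' A := by
  simp only [pr, Matrix.sub_apply, sub_mul, Finset.sum_sub_distrib]

theorem pr_add_left (q q' A : Mt) : pr (q + q') A = pr q A + pr q' A := by
  simp only [pr, Matrix.add_apply, add_mul, Finset.sum_add_distrib]

theorem pr_add (q A B : Mt) : pr q (A + B) = pr q A + pr q B := by
  simp only [pr, Matrix.add_apply, mul_add, Finset.sum_add_distrib]

theorem pr_zsmul (q A : Mt) (c : ℤ) : pr q (c • A) = c * pr q A := by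
  simp only [pr, Matrix.smul_apply, smul_eq_mul, Finset.mul_sum]
  refine Finset.sum_congr rfl fun i _ => Finset.sum_congr rfl fun j _ => ?_
  ring

theorem g1_pr_zero (q : Mt) : pr q 0 = 0 := by
  simp [pr]

theorem pr_sum {ι : Type} (q : Mt) (s : Finset ι) (f : ι → Mt) :
    pr q (∑ i ∈ s, f i) = ∑ i ∈ s, pr q (f i) := by
  classical
  induction s using Finset.induction_on with
  | empty => simp [g1_pr_zero]
  | insert a s ha ih => rw [Finset.sum_insert ha, Finset.sum_insert ha, pr_add, ih]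

theorem eq_zero_of_pr {h : Mt} (hs : h.IsSymm) (h0 : ∀ B : Mt, B.IsSymm → pr h B = 0) :
    h = 0 := by
  have h1 : ∑ i, ∑ j, h i j * h i j = 0 := h0 h hs
  have h2 := (Finset.sum_eq_zero_iff_of_nonneg
    (fun i _ => Finset.sum_nonneg fun j _ => mul_self_nonneg (h i j))).mp h1
  ext i j
  have h3 := (Finset.sum_eq_zero_iff_of_nonneg (fun j _ => mul_self_nonneg (h i j))).mp
    (h2 i (Finset.mem_univ _))
  simpa using h3 j (Finset.mem_univ _)

theorem eq_zero_of_perf {h : Mt} (hs : h.IsSymm) {M : Finset Mt}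
    (hM : ∀ B : Mt, B.IsSymm → B ∈ Submodule.span ℤ (M : Set Mt)) (h0 : ∀ A ∈ M, pr h A = 0) :
    h = 0 := by
  refine eq_zero_of_pr hs fun B hB => ?_
  have h1 := hM B hB
  clear hB
  induction h1 using Submodule.span_induction with
  | mem x hx => exact h0 x hx
  | zero => exact g1_pr_zero h
  | add x y _ _ hx hy => rw [pr_add, hx, hy, add_zero]
  | smul c x _ hx => rw [pr_zsmul, hx, mul_zero]

theorem cj_phi (g : Mt) (v : Vc) : cj g (phi v) = phi (g *ᵥ v) := by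
  unfold cj phi
  rw [mul_vecMulVec, vecMulVec_mul, vecMul_transpose]

theorem g1_pr_trace (q A : Mt) : pr q A = (qᵀ * A).trace := by
  simp only [pr, trace, diag_apply, mul_apply, transpose_apply]
  exact Finset.sum_comm

theorem pr_pb (g q A : Mt) : pr (pb g q) A = pr q (cj g A) := by
  rw [g1_pr_trace, g1_pr_trace]
  unfold pb cj
  rw [transpose_mul, transpose_mul, transpose_transpose, Matrix.mul_assoc, trace_mul_comm]
  simp only [Matrix.mul_assoc]

theorem cj_mul (g h A : Mt) : cj (g * h) A = cj g (cj h A) := by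
  simp only [cj, transpose_mul, Matrix.mul_assoc]

theorem cj_one (A : Mt) : cj 1 A = A := by
  simp [cj]

theorem cj_neg (g A : Mt) : cj (-g) A = cj g A := by
  simp [cj]

theorem pb_mul (g h q : Mt) : pb (g * h) q = pb h (pb g q) := by
  simp only [pb, transpose_mul, Matrix.mul_assoc]

theorem pb_one (q : Mt) : pb 1 q = q := by
  simp [pb]

theorem g1_det_sq (g : GLz 4) : (g : Mt).det * (g : Mt).det = 1 := by
  have h : IsUnit (g : Mt).det := by
    rw [← Matrix.isUnit_iff_isUnit_det]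
    exact g.isUnit
  rcases Int.isUnit_iff.mp h with h | h <;> rw [h] <;> rfl

theorem det_pb (g : GLz 4) (q : Mt) : (pb g q).det = q.det := by
  unfold pb
  rw [det_mul, det_mul, det_transpose]
  linear_combination q.det * g1_det_sq g

theorem cj_symm (g : Mt) {A : Mt} (h : A.IsSymm) : (cj g A).IsSymm := by
  unfold cj Matrix.IsSymm
  rw [transpose_mul, transpose_mul, transpose_transpose, h.eq, Matrix.mul_assoc]

theorem cj_linv (g : GLz 4) :
    Function.LeftInverse (cj ((g⁻¹ : GLz 4) : Mt)) (cj (g : Mt)) := by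
  intro A
  rw [← cj_mul, ← Units.val_mul, inv_mul_cancel, Units.val_one, cj_one]

theorem cj_rinv (g : GLz 4) :
    Function.LeftInverse (cj (g : Mt)) (cj ((g⁻¹ : GLz 4) : Mt)) := by
  intro A
  rw [← cj_mul, ← Units.val_mul, mul_inv_cancel, Units.val_one, cj_one]

theorem cj_inj (g : GLz 4) : Function.Injective (cj (g : Mt)) := (cj_linv g).injective

theorem vert_qA : Vert qAm.toM :=
  ⟨1, Or.inl (by rw [Units.val_one, pb_one])⟩

theorem vert_q1 : Vert q1m.toM :=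
  ⟨1, Or.inr (by rw [Units.val_one, pb_one])⟩

/-- the inverse of the rotation -/
def g1_rI : M4 := ⟨⟨0, 1, 0, 0⟩, ⟨0, 0, 1, 0⟩, ⟨0, 0, 0, 1⟩, ⟨-1, -1, -1, -1⟩⟩

theorem vert_q2 : Vert q2m.toM := by
  obtain ⟨g, hg⟩ := exists_GL (A := g1_rI.toM) (by rw [toM_det]; decide)
  refine ⟨g, Or.inr ?_⟩
  rw [hg, ← toM_pb]
  congr 1

theorem Vert.pb {q : Mt} (hq : Vert q) (g : GLz 4) : Vert (pb g q) := by
  obtain ⟨h, hh⟩ := hq
  refine ⟨h * g, ?_⟩
  rw [Units.val_mul, pb_mul, pb_mul]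
  rcases hh with hh | hh
  · left; rw [hh]
  · right; rw [hh]

theorem g1_pb_symm (g : Mt) {q : Mt} (h : q.IsSymm) : (pb g q).IsSymm := by
  unfold pb Matrix.IsSymm
  rw [transpose_mul, transpose_mul, transpose_transpose, h.eq, Matrix.mul_assoc]

theorem g1_toM_symm {q : M4} (h : q.tr = q) : q.toM.IsSymm := by
  unfold Matrix.IsSymm
  rw [← toM_tr, h]

theorem Vert.symm {q : Mt} (hq : Vert q) : q.IsSymm := by
  obtain ⟨h, hh | hh⟩ := hq
  · rw [hh]; exact g1_pb_symm _ (g1_toM_symm (by decide))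
  · rw [hh]; exact g1_pb_symm _ (g1_toM_symm (by decide))

theorem g1_bil_qA (a b c d : ℤ) : qAm.bil ⟨a, b, c, d⟩ ⟨a, b, c, d⟩ =
    a ^ 2 + b ^ 2 + c ^ 2 + d ^ 2 + (a + b + c + d) ^ 2 := by
  simp only [M4.bil, V4.dot, M4.app, qAm, Int.add_def, Int.mul_def]
  ring

theorem g1_bil_q1 (a b c d : ℤ) : q1m.bil ⟨a, b, c, d⟩ ⟨a, b, c, d⟩ =
    (a + b + c + d) ^ 2 + (a - c) ^ 2 + b ^ 2 + d ^ 2 := by
  simp only [M4.bil, V4.dot, M4.app, q1m, Int.add_def, Int.mul_def]
  ring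

theorem g1_bil_q33 (a b c d : ℤ) : q33.bil ⟨a, b, c, d⟩ ⟨a, b, c, d⟩ =
    (a + b + c + d) ^ 2 + (a - c) ^ 2 + b ^ 2 + d ^ 2 +
      ((a + b + c + d) ^ 2 + (b - d) ^ 2 + a ^ 2 + c ^ 2) := by
  simp only [M4.bil, V4.dot, M4.app, q33, Int.add_def, Int.mul_def]
  ring

theorem g1_two_le_qA {v : V4} (hv : v.toV ≠ 0) : 2 ≤ qAm.bil v v := by
  obtain ⟨a, b, c, d⟩ := v
  rw [g1_bil_qA]
  by_contra hc
  have h1 : a ^ 2 + b ^ 2 + c ^ 2 + d ^ 2 + (a + b + c + d) ^ 2 =
    2 * (a ^ 2 + b ^ 2 + c ^ 2 + d ^ 2 + a * b + a * c + a * d + b * c + b * d + c * d) := by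
    ring
  have h2 : a ^ 2 + b ^ 2 + c ^ 2 + d ^ 2 + (a + b + c + d) ^ 2 ≤ 0 := by omega
  have ha : a = 0 := by
    nlinarith [sq_nonneg a, sq_nonneg b, sq_nonneg c, sq_nonneg d, sq_nonneg (a + b + c + d)]
  have hb : b = 0 := by
    nlinarith [sq_nonneg a, sq_nonneg b, sq_nonneg c, sq_nonneg d, sq_nonneg (a + b + c + d)]
  have hc : c = 0 := by
    nlinarith [sq_nonneg a, sq_nonneg b, sq_nonneg c, sq_nonneg d, sq_nonneg (a + b + c + d)]
  have hd : d = 0 := by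
    nlinarith [sq_nonneg a, sq_nonneg b, sq_nonneg c, sq_nonneg d, sq_nonneg (a + b + c + d)]
  apply hv
  funext i
  fin_cases i <;> simp [V4.toV, ha, hb, hc, hd]

theorem g1_two_le_q1 {v : V4} (hv : v.toV ≠ 0) : 2 ≤ q1m.bil v v := by
  obtain ⟨a, b, c, d⟩ := v
  rw [g1_bil_q1]
  by_contra hc
  have h1 : (a + b + c + d) ^ 2 + (a - c) ^ 2 + b ^ 2 + d ^ 2 =
    2 * (a ^ 2 + b ^ 2 + c ^ 2 + d ^ 2 + a * b + a * d + b * c + b * d + c * d) := by
    ring
  have h2 : (a + b + c + d) ^ 2 + (a - c) ^ 2 + b ^ 2 + d ^ 2 ≤ 0 := by omega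
  have ha : a - c = 0 := by
    nlinarith [sq_nonneg (a - c), sq_nonneg b, sq_nonneg d, sq_nonneg (a + b + c + d)]
  have hb : b = 0 := by
    nlinarith [sq_nonneg (a - c), sq_nonneg b, sq_nonneg d, sq_nonneg (a + b + c + d)]
  have hc : a + b + c + d = 0 := by
    nlinarith [sq_nonneg (a - c), sq_nonneg b, sq_nonneg d, sq_nonneg (a + b + c + d)]
  have hd : d = 0 := by
    nlinarith [sq_nonneg (a - c), sq_nonneg b, sq_nonneg d, sq_nonneg (a + b + c + d)]
  have ha' : a = 0 := by omega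
  have hc' : c = 0 := by omega
  apply hv
  funext i
  fin_cases i <;> simp [V4.toV, ha', hb, hc', hd]

theorem Vert.two_le {q : Mt} (hq : Vert q) {v : Vc} (hv : v ≠ 0) : 2 ≤ pr q (phi v) := by
  obtain ⟨g, hg⟩ := hq
  obtain ⟨w, hw⟩ := toV_surj ((g : Mt) *ᵥ v)
  have hw0 : w.toV ≠ 0 := by
    rw [hw]
    intro h0
    apply hv
    have : ((g⁻¹ : GLz 4) : Mt) *ᵥ ((g : Mt) *ᵥ v) = v := by
      rw [mulVec_mulVec, ← Units.val_mul, inv_mul_cancel, Units.val_one, one_mulVec]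
    rw [← this, h0, mulVec_zero]
  rcases hg with hg | hg
  · rw [hg, pr_pb, cj_phi, ← hw]
    have := g1_two_le_qA hw0
    rwa [bil_at] at this
  · rw [hg, pr_pb, cj_phi, ← hw]
    have := g1_two_le_q1 hw0
    rwa [bil_at] at this

theorem g1_phi_zero : phi 0 = 0 := by
  ext i j
  simp [phi]

theorem Vert.nonneg {q : Mt} (hq : Vert q) (v : Vc) : 0 ≤ pr q (phi v) := by
  by_cases hv : v = 0
  · rw [hv, g1_phi_zero, g1_pr_zero]
  · have := hq.two_le hv
    omega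

theorem Vert.two_le_mn {q q' A : Mt} (hq : Vert q) (hA : A ∈ Mn q') : 2 ≤ pr q A := by
  obtain ⟨⟨v, rfl⟩, h2⟩ := hA
  refine hq.two_le fun hv => ?_
  rw [hv, g1_phi_zero, g1_pr_zero] at h2
  omega

theorem mn_symm {q A : Mt} (hA : A ∈ Mn q) : A.IsSymm := by
  obtain ⟨⟨v, rfl⟩, _⟩ := hA
  exact phi_symm v

theorem mem_Mn_pb (g : GLz 4) {q A : Mt} : A ∈ Mn (pb g q) ↔ cj g A ∈ Mn q := by
  constructor
  · rintro ⟨⟨v, rfl⟩, h2⟩
    exact ⟨⟨_, cj_phi _ _⟩, by rw [← pr_pb]; exact h2⟩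
  · rintro ⟨⟨v, hv⟩, h2⟩
    refine ⟨⟨((g⁻¹ : GLz 4) : Mt) *ᵥ v, ?_⟩, by rw [pr_pb]; exact h2⟩
    rw [← cj_phi, ← hv, cj_linv]

theorem g1_bd1 {a : ℤ} (h : a ^ 2 ≤ 3) : a ∈ [(-1 : ℤ), 0, 1] := by
  have h1 : -1 ≤ a := by nlinarith
  have h2 : a ≤ 1 := by nlinarith
  interval_cases a <;> simp

theorem g1_bd2 {a : ℤ} (h : a ^ 2 ≤ 4) : a ∈ [(-2 : ℤ), -1, 0, 1, 2] := by
  have h1 : -2 ≤ a := by nlinarith
  have h2 : a ≤ 2 := by nlinarith
  interval_cases a <;> simp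

theorem g1_kA : ∀ a ∈ [(-1 : ℤ), 0, 1], ∀ b ∈ [(-1 : ℤ), 0, 1], ∀ c ∈ [(-1 : ℤ), 0, 1],
    ∀ d ∈ [(-1 : ℤ), 0, 1], qAm.bil ⟨a, b, c, d⟩ ⟨a, b, c, d⟩ = 2 →
      (⟨a, b, c, d⟩ : V4) ∈ pm minA := by
  decide +kernel

theorem g1_k1 : ∀ a ∈ [(-1 : ℤ), 0, 1], ∀ b ∈ [(-1 : ℤ), 0, 1], ∀ c ∈ [(-1 : ℤ), 0, 1],
    ∀ d ∈ [(-1 : ℤ), 0, 1], q1m.bil ⟨a, b, c, d⟩ ⟨a, b, c, d⟩ = 2 →
      (⟨a, b, c, d⟩ : V4) ∈ pm min1 := by
  decide +kernel

theorem g1_k33 : ∀ a ∈ [(-2 : ℤ), -1, 0, 1, 2], ∀ b ∈ [(-2 : ℤ), -1, 0, 1, 2],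
    ∀ c ∈ [(-2 : ℤ), -1, 0, 1, 2], ∀ d ∈ [(-2 : ℤ), -1, 0, 1, 2],
    q33.bil ⟨a, b, c, d⟩ ⟨a, b, c, d⟩ = 4 → (⟨a, b, c, d⟩ : V4) ∈ pm s33 := by
  decide +kernel

theorem min_qA (v : V4) : qAm.bil v v = 2 ↔ v ∈ pm minA := by
  constructor
  · intro h
    obtain ⟨a, b, c, d⟩ := v
    have h1 := h
    rw [g1_bil_qA] at h1
    have := sq_nonneg a
    have := sq_nonneg b
    have := sq_nonneg c
    have := sq_nonneg d
    have := sq_nonneg (a + b + c + d)
    exact g1_kA a (g1_bd1 (by omega)) b (g1_bd1 (by omega)) c (g1_bd1 (by omega))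
      d (g1_bd1 (by omega)) h
  · revert v
    decide +kernel

theorem min_q1 (v : V4) : q1m.bil v v = 2 ↔ v ∈ pm min1 := by
  constructor
  · intro h
    obtain ⟨a, b, c, d⟩ := v
    have h1 := h
    rw [g1_bil_q1] at h1
    have := sq_nonneg (a - c)
    have := sq_nonneg b
    have := sq_nonneg d
    have := sq_nonneg (a + b + c + d)
    have ha : a ^ 2 ≤ 3 := by
      have e : 4 * ((a + b + c + d) ^ 2 + (a - c) ^ 2 + b ^ 2 + d ^ 2) = 4 * a ^ 2 +
        ((a + b + c + d - (a - c)) ^ 2 + (a + b + c + d + b) ^ 2 + (a + b + c + d + d) ^ 2 +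
          (a - c + b) ^ 2 + (a - c + d) ^ 2 + (b - d) ^ 2) := by ring
      have := sq_nonneg (a + b + c + d - (a - c))
      have := sq_nonneg (a + b + c + d + b)
      have := sq_nonneg (a + b + c + d + d)
      have := sq_nonneg (a - c + b)
      have := sq_nonneg (a - c + d)
      have := sq_nonneg (b - d)
      omega
    have hc : c ^ 2 ≤ 3 := by
      have e : 4 * ((a + b + c + d) ^ 2 + (a - c) ^ 2 + b ^ 2 + d ^ 2) = 4 * c ^ 2 +
        ((a + b + c + d + (a - c)) ^ 2 + (a + b + c + d + b) ^ 2 + (a + b + c + d + d) ^ 2 +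
          (a - c - b) ^ 2 + (a - c - d) ^ 2 + (b - d) ^ 2) := by ring
      have := sq_nonneg (a + b + c + d + (a - c))
      have := sq_nonneg (a + b + c + d + b)
      have := sq_nonneg (a + b + c + d + d)
      have := sq_nonneg (a - c - b)
      have := sq_nonneg (a - c - d)
      have := sq_nonneg (b - d)
      omega
    exact g1_k1 a (g1_bd1 ha) b (g1_bd1 (by omega)) c (g1_bd1 hc) d (g1_bd1 (by omega)) h
  · revert v
    decide +kernel

theorem min_q33 (v : V4) : q33.bil v v = 4 ↔ v ∈ pm s33 := by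
  constructor
  · intro h
    obtain ⟨a, b, c, d⟩ := v
    have h1 := h
    rw [g1_bil_q33] at h1
    have := sq_nonneg a
    have := sq_nonneg b
    have := sq_nonneg c
    have := sq_nonneg d
    have := sq_nonneg (a - c)
    have := sq_nonneg (b - d)
    have := sq_nonneg (a + b + c + d)
    exact g1_k33 a (g1_bd2 (by omega)) b (g1_bd2 (by omega)) c (g1_bd2 (by omega))
      d (g1_bd2 (by omega)) h
  · revert v
    decide +kernel

theorem g1_mn {q : M4} {l : List V4} (h : ∀ v : V4, q.bil v v = 2 ↔ v ∈ pm l) :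
    Mn q.toM = ((l.map V4.at).toFinset : Finset Mt) := by
  ext A
  simp only [List.coe_toFinset, Set.mem_ofPred_eq, List.mem_map]
  constructor
  · rintro ⟨⟨v, rfl⟩, h2⟩
    obtain ⟨w, rfl⟩ := toV_surj v
    have h3 : q.bil w w = 2 := by rw [bil_at]; exact h2
    rw [h, pm, List.mem_append, List.mem_map] at h3
    rcases h3 with h3 | ⟨u, hu, rfl⟩
    · exact ⟨w, h3, rfl⟩
    · exact ⟨u, hu, (at_neg u).symm⟩
  · rintro ⟨w, hw, rfl⟩
    refine ⟨⟨_, rfl⟩, ?_⟩
    rw [← bil_at, h, pm]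
    exact List.mem_append_left _ hw

theorem mn_qA : Mn qAm.toM = ((minA.map V4.at).toFinset : Finset Mt) := g1_mn min_qA

theorem mn_q1 : Mn q1m.toM = ((min1.map V4.at).toFinset : Finset Mt) := g1_mn min_q1

theorem mem_GA (A : M4) : A ∈ GA ↔ A.pb qAm = qAm :=
  mem_stabL (m := 2) (by decide) (by decide) min_qA A

theorem mem_GD (A : M4) : A ∈ GD ↔ A.pb q1m = q1m :=
  mem_stabL (m := 2) (by decide) (by decide) min_q1 A

theorem mem_G33 (A : M4) : A ∈ G33 ↔ A.pb q33 = q33 :=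
  mem_stabL (m := 4) (by decide) (by decide) min_q33 A

theorem nodup_GA : GA.Nodup := nodup_stabL _ (by decide +kernel)

theorem nodup_GD : GD.Nodup := nodup_stabL _ (by decide +kernel)

theorem nodup_G33 : G33.Nodup := nodup_stabL _ (by decide +kernel)

theorem Cell.mono {S T : Finset Mt} (h : S ⊆ T) (hT : Cell T) : Cell S := by
  obtain ⟨q, q', h1, h2, h3, h4, h5⟩ := hT
  have h' : (S : Set Mt) ⊆ T := Finset.coe_subset.mpr h
  exact ⟨q, q', h1, h2, h3, h'.trans h4, h'.trans h5⟩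

theorem g1_image_sub (g : GLz 4) (q : Mt) (S : Finset Mt) :
    ((S.image (cj g) : Finset Mt) : Set Mt) ⊆ Mn q ↔ (S : Set Mt) ⊆ Mn (pb g q) := by
  rw [Finset.coe_image, Set.image_subset_iff]
  exact forall₂_congr fun A _ => (mem_Mn_pb g).symm

theorem g1_pb_linv (g : GLz 4) (q : Mt) : pb ((g⁻¹ : GLz 4) : Mt) (pb g q) = q := by
  rw [← pb_mul, ← Units.val_mul, mul_inv_cancel, Units.val_one, pb_one]

theorem g1_pb_rinv (g : GLz 4) (q : Mt) : pb g (pb ((g⁻¹ : GLz 4) : Mt) q) = q := by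
  rw [← pb_mul, ← Units.val_mul, inv_mul_cancel, Units.val_one, pb_one]

theorem cell_image (g : GLz 4) (S : Finset Mt) : Cell (S.image (cj g)) ↔ Cell S := by
  constructor
  · rintro ⟨q, q', h1, h2, h3, h4, h5⟩
    refine ⟨pb g q, pb g q', h1.pb g, h2.pb g, fun h => h3 ?_, (g1_image_sub g q S).mp h4,
      (g1_image_sub g q' S).mp h5⟩
    rw [← g1_pb_linv g q, h, g1_pb_linv]
  · rintro ⟨q, q', h1, h2, h3, h4, h5⟩
    refine ⟨pb ((g⁻¹ : GLz 4) : Mt) q, pb ((g⁻¹ : GLz 4) : Mt) q', h1.pb g⁻¹, h2.pb g⁻¹,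
      fun h => h3 ?_, (g1_image_sub g _ S).mpr ?_, (g1_image_sub g _ S).mpr ?_⟩
    · rw [← g1_pb_rinv g q, h, g1_pb_rinv]
    · rwa [g1_pb_rinv]
    · rwa [g1_pb_rinv]

theorem Spans.mono {S T : Finset Mt} (h : S ⊆ T) (hS : Spans S) : Spans T := by
  obtain ⟨V, h1, h2⟩ := hS
  exact ⟨V, h1, fun i => h (h2 i)⟩

theorem g1_spans (g : GLz 4) {S : Finset Mt} (h : Spans S) : Spans (S.image (cj g)) := by
  obtain ⟨V, h1, h2⟩ := h
  refine ⟨V * (g : Mt)ᵀ, ?_, fun i => ?_⟩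
  · rw [det_mul, det_transpose]
    refine mul_ne_zero h1 fun h0 => ?_
    have := g1_det_sq g
    rw [h0] at this
    omega
  · have e : (V * (g : Mt)ᵀ) i = (g : Mt) *ᵥ V i := by
      funext j
      simp [mul_apply, mulVec, dotProduct, mul_comm]
    rw [e, ← cj_phi]
    exact Finset.mem_image_of_mem _ (h2 i)

theorem spans_image (g : GLz 4) (S : Finset Mt) : Spans (S.image (cj g)) ↔ Spans S := by
  refine ⟨fun h => ?_, g1_spans g⟩
  have h1 := g1_spans g⁻¹ h
  rwa [Finset.image_image, (cj_linv g).comp_eq_id, Finset.image_id] at h1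

theorem act_ga : Act ⊤ ga := by
  constructor
  · intro v
    have e : cj ((1 : GLz 4) : Mt) = id := by
      funext A
      rw [Units.val_one, cj_one, id]
    unfold ga
    rw [e, act_id]
  · intro a _ b _ v
    have e : cj ((a * b : GLz 4) : Mt) = cj (a : Mt) ∘ cj (b : Mt) := by
      funext A
      rw [Units.val_mul, cj_mul, Function.comp_apply]
    unfold ga
    rw [e, act_act]

theorem stb_Wc (j : ℕ) : Stb ⊤ ga (Wc j) := by
  intro a _ v hv
  refine act_mem_Sup (cj_inj a) (fun S hS => ⟨(cell_image a S).mpr hS.1, ?_⟩) hv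
  rw [Finset.card_image_of_injective _ (cj_inj a), hS.2]

theorem stb_Spans : Stb ⊤ ga (Sup Spans) := by
  intro a _ v hv
  exact act_mem_Sup (cj_inj a) (fun S hS => g1_spans a hS) hv

theorem ip_ga (g : GLz 4) (x y : Ch Mt) : ip (ga g x) y = ip x (ga g⁻¹ y) :=
  ip_act (cj_linv g) (cj_rinv g) x y

theorem va_one (q : Mt) : va 1 q = q := by
  unfold va
  rw [inv_one, Units.val_one, pb_one]

theorem va_mul (a b : GLz 4) (q : Mt) : va (a * b) q = va a (va b q) := by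
  unfold va
  rw [_root_.mul_inv_rev, Units.val_mul, pb_mul]

theorem va_vert (a : GLz 4) {q : Mt} (hq : Vert q) : Vert (va a q) := hq.pb a⁻¹

theorem image_sub_mn (g : GLz 4) (q : Mt) (S : Finset Mt) :
    ((S.image (cj g) : Finset Mt) : Set Mt) ⊆ Mn q ↔ (S : Set Mt) ⊆ Mn (pb g q) :=
  g1_image_sub g q S

end Pool.Agent.MP_cbe134_nt.V
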