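import Pool.Agent.MP_cbe134_nt.VH1

/- The coboundary in a family of finite sets. -/

namespace Pool.Agent.MP_cbe134_nt.V

open Finsupp

variable {α : Type} [DecidableEq α] {c c' p q : Finset α → Prop}

theorem del_single {S W : Finset α} (hW : ∀ w, w ∈ Ext c S ↔ w ∈ W) :
    del c (single S 1) = ∑ w ∈ W, wg w (single S 1) := by
  have h : Ext c S = (W : Set α) := Set.ext fun w => (hW w).trans Finset.mem_coe.symm
  rw [del, linearCombination_single, one_smul, h, finsum_mem_coe_finset]

theorem h2_del_single {S W : Finset α} (hW : ∀ w, w ∈ Ext c S ↔ w ∈ W) (ε : ℚ) :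
    del c (single S ε) = ∑ w ∈ W, wg w (single S ε) := by
  have h : single S ε = ε • single S (1 : ℚ) := by rw [smul_single, smul_eq_mul, mul_one]
  rw [h, map_smul, del_single hW, Finset.smul_sum]
  exact Finset.sum_congr rfl fun w _ => (map_smul _ _ _).symm

theorem del_br {l : List α} (hl : l.Nodup) {W : Finset α}
    (hW : ∀ w, w ∈ Ext c l.toFinset ↔ w ∈ W) : del c (br l) = ∑ w ∈ W, br (w :: l) := by
  obtain ⟨ε, -, h⟩ := br_nodup hl
  simp only [br_cons]
  rw [h, h2_del_single hW]

theorem h2_wg_mem {S : Finset α} {w : α} (h : q (insert w S)) : wg w (single S 1) ∈ Sup q := by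
  rw [wg_single]
  split_ifs
  · exact zero_mem _
  · exact single_mem_Sup h _

theorem del_mem_Sup (hfin : ∀ S, p S → (Ext c S).Finite)
    (h : ∀ S w, p S → w ∈ Ext c S → q (insert w S)) {x : Ch α} (hx : x ∈ Sup p) :
    del c x ∈ Sup q := by
  refine Sup_ind (Q := fun x => del c x ∈ Sup q) ?_ ?_ ?_ ?_ hx
  · rw [map_zero]; exact zero_mem _
  · intro x y hx hy; rw [map_add]; exact add_mem hx hy
  · intro a x hx; rw [map_smul]; exact Submodule.smul_mem _ _ hx
  · intro S hS
    rw [del_single fun w => (hfin S hS).mem_toFinset.symm]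
    exact sum_mem fun w hw => h2_wg_mem (h S w hS ((hfin S hS).mem_toFinset.1 hw))

theorem del_sub_del (hfin : ∀ S, p S → (Ext c S).Finite)
    (hsub : ∀ S, p S → Ext c' S ⊆ Ext c S)
    (h : ∀ S w, p S → w ∈ Ext c S → w ∉ Ext c' S → q (insert w S)) {x : Ch α}
    (hx : x ∈ Sup p) : del c x - del c' x ∈ Sup q := by
  refine Sup_ind (Q := fun x => del c x - del c' x ∈ Sup q) ?_ ?_ ?_ ?_ hx
  · rw [map_zero, map_zero, sub_zero]; exact zero_mem _
  · intro x y hx hy
    rw [map_add, map_add, add_sub_add_comm]; exact add_mem hx hy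
  · intro a x hx
    rw [map_smul, map_smul, ← smul_sub]; exact Submodule.smul_mem _ _ hx
  · intro S hS
    have h1 := hfin S hS
    have h2 := h1.subset (hsub S hS)
    rw [del_single fun w => h1.mem_toFinset.symm, del_single fun w => h2.mem_toFinset.symm,
      ← Finset.sum_sdiff_eq_sub (Set.Finite.toFinset_subset_toFinset.2 (hsub S hS))]
    refine sum_mem fun w hw => h2_wg_mem ?_
    rw [Finset.mem_sdiff, h1.mem_toFinset, h2.mem_toFinset] at hw
    exact h S w hS hw.1 hw.2

theorem h2_ip_del {S T : Finset α} (hS : (Ext c S).Finite) (hT : c T) :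
    ip (del c (single S 1)) (single T 1) = ip (single S 1) (bd (single T 1)) := by
  rw [del_single fun w => hS.mem_toFinset.symm, bd, linearCombination_single, one_smul, map_sum,
    map_sum, LinearMap.sum_apply]
  simp only [ip_wg]
  refine Finset.sum_congr_of_eq_on_inter ?_ ?_ fun _ _ _ => rfl
  · intro w _ hw
    rw [io_single, if_neg hw, map_zero]
  · intro w hw hw'
    rw [io_single, if_pos hw, ip_single, single_eq_of_ne, mul_zero]
    rintro rfl
    refine hw' (hS.mem_toFinset.2 ⟨Finset.notMem_erase _ _, ?_⟩)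
    rwa [Finset.insert_erase hw]

theorem ip_del {x z : Ch α} (hx : x ∈ Sup fun S => (Ext c S).Finite) (hz : z ∈ Sup c) :
    ip (del c x) z = ip x (bd z) := by
  refine Sup_ind (Q := fun x => ip (del c x) z = ip x (bd z)) ?_ ?_ ?_ ?_ hx
  · simp only [map_zero, LinearMap.zero_apply]
  · intro x y hx hy
    simp only [map_add, LinearMap.add_apply, hx, hy]
  · intro a x hx
    simp only [map_smul, LinearMap.smul_apply, hx]
  · intro S hS
    refine Sup_ind (Q := fun z => ip (del c (single S 1)) z = ip (single S 1) (bd z))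
      ?_ ?_ ?_ ?_ hz
    · simp only [map_zero]
    · intro x y hx hy
      simp only [map_add, hx, hy]
    · intro a x hx
      simp only [map_smul, hx]
    · intro T hT
      exact h2_ip_del hS hT

theorem del_del (hdown : ∀ S T, S ⊆ T → c T → c S) {x : Ch α}
    (hx : x ∈ Sup fun S => (Ext c S).Finite) : del c (del c x) = 0 := by
  classical
  refine Sup_ind (Q := fun x => del c (del c x) = 0) ?_ ?_ ?_ ?_ hx
  · simp only [map_zero]
  · intro x y hx hy
    simp only [map_add, hx, hy, add_zero]
  · intro a x hx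
    simp only [map_smul, hx, smul_zero]
  · intro S hS
    let F : α → α → Ch α := fun w w' =>
      if w' ≠ w ∧ c (insert w' (insert w S)) then wg w' (wg w (single S 1)) else 0
    have hF : ∀ w w', F w w' = -F w' w := by
      intro w w'
      simp only [F]
      rw [Finset.insert_comm w w']
      by_cases h : w' ≠ w ∧ c (insert w' (insert w S))
      · rw [if_pos h, if_pos ⟨h.1.symm, h.2⟩]
        exact wg_wg _ _ _
      · rw [if_neg h, if_neg fun h' => h ⟨h'.1.symm, h'.2⟩, neg_zero]
    have h1 : ∀ w ∈ hS.toFinset, del c (wg w (single S 1)) = ∑ w' ∈ hS.toFinset, F w w' := by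
      intro w hw
      have hw' := hS.mem_toFinset.1 hw
      rw [← Finset.sum_filter, wg_single, if_neg hw'.1]
      refine h2_del_single (fun w' => ?_) _
      rw [Finset.mem_filter, hS.mem_toFinset]
      refine ⟨fun h => ⟨⟨fun h' => h.1 (Finset.mem_insert_of_mem h'), hdown _ _ ?_ h.2⟩,
        fun h' => h.1 (h' ▸ Finset.mem_insert_self _ _), h.2⟩, fun h => ⟨fun h' => ?_, h.2.2⟩⟩
      · exact Finset.insert_subset_insert _ (Finset.subset_insert _ _)
      · exact (Finset.mem_insert.1 h').elim h.2.1 h.1.1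
    rw [del_single fun w => hS.mem_toFinset.symm, map_sum, Finset.sum_congr rfl h1]
    have h2 : ∑ w ∈ hS.toFinset, ∑ w' ∈ hS.toFinset, F w w' =
        -∑ w ∈ hS.toFinset, ∑ w' ∈ hS.toFinset, F w w' := by
      conv_lhs => rw [Finset.sum_comm]
      rw [← Finset.sum_neg_distrib]
      refine Finset.sum_congr rfl fun w _ => ?_
      rw [← Finset.sum_neg_distrib]
      exact Finset.sum_congr rfl fun w' _ => hF _ _
    have h3 : (2 : ℚ) • ∑ w ∈ hS.toFinset, ∑ w' ∈ hS.toFinset, F w w' = 0 := by
      rw [two_smul]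
      exact eq_neg_iff_add_eq_zero.1 h2
    exact (smul_eq_zero.1 h3).resolve_left two_ne_zero

theorem act_del {f g : α → α} (h1 : Function.LeftInverse g f) (h2 : Function.LeftInverse f g)
    (hc : ∀ S, c (S.image f) ↔ c S) {x : Ch α} (hx : x ∈ Sup fun S => (Ext c S).Finite) :
    act f (del c x) = del c (act f x) := by
  refine Sup_ind (Q := fun x => act f (del c x) = del c (act f x)) ?_ ?_ ?_ ?_ hx
  · simp only [map_zero]
  · intro x y hx hy
    simp only [map_add, hx, hy]
  · intro a x hx
    simp only [map_smul, hx]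
  · intro S hS
    obtain ⟨ε, -, h⟩ := act_single h1.injective S
    have hW : ∀ w, w ∈ Ext c (S.image f) ↔ w ∈ hS.toFinset.image f := by
      intro w
      obtain ⟨w, rfl⟩ := h2.surjective w
      rw [h1.injective.mem_finset_image, hS.mem_toFinset]
      refine and_congr (not_congr h1.injective.mem_finset_image) ?_
      rw [← Finset.image_insert, hc]
    rw [del_single fun w => hS.mem_toFinset.symm, map_sum, h, h2_del_single hW,
      Finset.sum_image fun _ _ _ _ e => h1.injective e, ← h]
    exact Finset.sum_congr rfl fun w _ => act_wg f w _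

theorem ext_Miss_fin (M : Finset α) (k : ℕ) (lab : α → ℕ) (S : Finset α) :
    (Ext (Miss M k lab) S).Finite :=
  M.finite_toSet.subset fun _ hw => hw.2.1 (Finset.mem_insert_self _ _)

theorem Miss.mono {M : Finset α} {k : ℕ} {lab : α → ℕ} {S T : Finset α} (h : S ⊆ T)
    (hT : Miss M k lab T) : Miss M k lab S :=
  ⟨h.trans hT.1, fun i hi =>
    let ⟨A, hA, hl, hn⟩ := hT.2 i hi
    ⟨A, hA, hl, fun h' => hn (h h')⟩⟩

theorem Miss.card_le {M : Finset α} {k : ℕ} {lab : α → ℕ} {S : Finset α}
    (hS : Miss M k lab S) : S.card + k ≤ M.card := by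
  have h1 : Finset.range k ⊆ (M \ S).image lab := fun i hi => by
    obtain ⟨A, hA, hl, hn⟩ := hS.2 i (Finset.mem_range.1 hi)
    exact Finset.mem_image.2 ⟨A, Finset.mem_sdiff.2 ⟨hA, hn⟩, hl⟩
  have h2 := (Finset.card_le_card h1).trans Finset.card_image_le
  have h3 := Finset.card_sdiff_add_card_eq_card hS.1
  rw [Finset.card_range] at h2
  omega

end Pool.Agent.MP_cbe134_nt.V
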