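import Pool.Agent.MP_cbe134_nt.VG1
import Pool.Agent.MP_cbe134_nt.VH2

/- The local structure of Voronoi domains. -/

open Matrix

namespace Pool.Agent.MP_cbe134_nt.V

theorem g2_mem {L : List V4} {A : Mt} : A ∈ (L.map V4.at).toFinset ↔ ∃ v ∈ L, v.at = A := by
  rw [List.mem_toFinset, List.mem_map]

theorem g2_nodup {L : List V4} (h : L.map V4.nrm = L) (hn : L.Nodup) : (L.map V4.at).Nodup :=
  nodup_at (by rwa [h])

theorem g2_zip (W : Submodule ℤ Mt) : ∀ (L : List V4) (cs : List ℤ), (∀ v ∈ L, v.at ∈ W) →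
    (List.zipWith (fun (a : ℤ) (v : V4) => a • v.at) cs L).sum ∈ W
  | _, [], _ => by simp
  | [], _ :: _, _ => by simp
  | v :: L, c :: cs, h => by
    rw [List.zipWith_cons_cons, List.sum_cons]
    exact W.add_mem (W.smul_mem c (h v List.mem_cons_self))
      (g2_zip W L cs fun w hw => h w (List.mem_cons_of_mem _ hw))

theorem g2_span (L : List V4) (cs : List ℤ) :
    (List.zipWith (fun (a : ℤ) (v : V4) => a • v.at) cs L).sum ∈
      Submodule.span ℤ (((L.map V4.at).toFinset : Finset Mt) : Set Mt) :=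
  g2_zip _ L cs fun v hv => Submodule.subset_span (Finset.mem_coe.2 (g2_mem.2 ⟨v, hv, rfl⟩))

theorem g2_nbr {L : List V4} (hL : ∀ v ∈ L, v.nrm = v) {k : ℕ} {lb : V4 → ℕ} {lab : Mt → ℕ}
    (hlab : ∀ v ∈ L, lab v.at = lb v) (hlt : ∀ v ∈ L, lb v < k)
    (H : ∀ s : ℕ → V4, (∀ i < k, s i ∈ L ∧ lb (s i) = i) → ∃ g q : M4, g.det * g.det = 1 ∧
      Vert q.toM ∧ ∀ v ∈ L, (g.pb q).bil v v = if s (lb v) = v then 4 else 2)
    (t : ℕ → Mt) (ht : ∀ i < k, t i ∈ (L.map V4.at).toFinset ∧ lab (t i) = i) :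
    ∃ q', Vert q' ∧ ∃ c : ℤ, 0 < c ∧ ∀ A ∈ (L.map V4.at).toFinset,
      pr q' A = if t (lab A) = A then 2 + c else 2 := by
  have h1 : ∀ i, ∃ v : V4, i < k → v ∈ L ∧ v.at = t i := fun i => by
    by_cases hi : i < k
    · obtain ⟨v, hv⟩ := g2_mem.1 (ht i hi).1
      exact ⟨v, fun _ => hv⟩
    · exact ⟨⟨0, 0, 0, 0⟩, fun h => absurd h hi⟩
  choose s hs using h1
  obtain ⟨g, q, h2, h3, h4⟩ := H s fun i hi =>
    ⟨(hs i hi).1, by rw [← hlab _ (hs i hi).1, (hs i hi).2, (ht i hi).2]⟩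
  obtain ⟨γ, hγ⟩ := exists_GL (A := g.toM) (by rwa [toM_det])
  refine ⟨(g.pb q).toM, ?_, 2, two_pos, fun A hA => ?_⟩
  · rw [toM_pb, ← hγ]
    exact h3.pb γ
  · obtain ⟨v, hv, rfl⟩ := g2_mem.1 hA
    obtain ⟨h5, h6⟩ := hs _ (hlt v hv)
    rw [← bil_at, h4 v hv, hlab v hv, ← h6]
    refine if_congr ?_ rfl rfl
    rw [at_eq_iff, hL _ h5, hL v hv]

theorem g2_chkA : ∀ a ∈ minA, ∃ p ∈ nbA, p.1 = a ∧ p.2.det * p.2.det = 1 ∧
    ∀ v ∈ minA, (p.2.pb q1m).bil v v = if a = v then 4 else 2 := by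
  decide +kernel

theorem g2_perfA (B : Mt) (hB : B.IsSymm) :
    B = (List.zipWith (fun (a : ℤ) (v : V4) => a • v.at)
      [B 3 3 + B 0 3 + B 1 3 + B 2 3, -B 2 3, B 2 2 + B 0 2 + B 1 2 + B 2 3, -B 1 2, -B 1 3,
        B 1 1 + B 0 1 + B 1 2 + B 1 3, -B 0 1, -B 0 2, -B 0 3, B 0 0 + B 0 1 + B 0 2 + B 0 3]
      minA).sum := by
  have h10 := hB.apply 0 1
  have h20 := hB.apply 0 2
  have h30 := hB.apply 0 3
  have h21 := hB.apply 1 2
  have h31 := hB.apply 1 3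
  have h32 := hB.apply 2 3
  ext i j
  fin_cases i <;> fin_cases j <;>
    simp [minA, V4.at, phi, V4.toV, vecMulVec_apply] <;> omega

theorem loc_qA : Loc qAm.toM (minA.map V4.at).toFinset 1 fun _ => 0 := by
  refine ⟨mn_qA.symm, one_pos, ?_, fun _ _ => one_pos, fun i hi => ?_, fun i hi j hj => ?_,
    fun B hB => ?_, ?_⟩
  · rw [List.toFinset_card_of_nodup (g2_nodup (by decide +kernel) (by decide +kernel))]
    rfl
  · exact ⟨V4.at ⟨0, 0, 0, 1⟩, g2_mem.2 ⟨_, by decide +kernel, rfl⟩, by omega⟩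
  · rw [show i = j by omega]
  · rw [g2_perfA B hB]
    exact g2_span _ _
  · refine g2_nbr (L := minA) (lb := fun _ => 0) (lab := fun _ => 0) (by decide +kernel)
      (fun _ _ => rfl) (fun _ _ => one_pos) fun s hs => ?_
    obtain ⟨p, -, -, h1, h2⟩ := g2_chkA (s 0) (hs 0 one_pos).1
    exact ⟨p.2, q1m, h1, vert_q1, h2⟩

/-- the number of the frame of a vector -/
def g2_lb (v : V4) : ℕ := if v ∈ fr0 then 0 else if v ∈ fr1 then 1 else 2

/-- the number of the frame of a form of rank one -/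
def g2_lab (A : Mt) : ℕ := if A ∈ fr0.map V4.at then 0 else if A ∈ fr1.map V4.at then 1 else 2

theorem g2_lab_eq (v : V4) (hv : v ∈ min1) : g2_lab v.at = g2_lb v := by
  have h0 : fr0.map V4.nrm = fr0 := by decide +kernel
  have h1 : fr1.map V4.nrm = fr1 := by decide +kernel
  have h2 : ∀ v ∈ min1, v.nrm = v := by decide +kernel
  simp only [g2_lab, g2_lb, mem_at, h0, h1, h2 v hv]

theorem g2_chk1 : ∀ a ∈ min1, g2_lb a = 0 → ∀ b ∈ min1, g2_lb b = 1 → ∀ c ∈ min1, g2_lb c = 2 →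
    ∃ p ∈ nb1, (p.1 = a ∧ p.2.1 = b ∧ p.2.2.1 = c) ∧ p.2.2.2.2.det * p.2.2.2.2.det = 1 ∧
      ∀ v ∈ min1, (p.2.2.2.2.pb (if p.2.2.2.1 then qAm else q1m)).bil v v =
        if (if g2_lb v = 0 then a else if g2_lb v = 1 then b else c) = v then 4 else 2 := by
  decide +kernel

theorem g2_perf1 (B : Mt) (hB : B.IsSymm) :
    B = (List.zipWith (fun (a : ℤ) (v : V4) => a • v.at)
      [B 3 3 + B 2 3 + B 0 3 + B 1 3, -B 1 2 - B 0 2, -B 0 1 - B 0 2, 0, -B 2 3,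
        B 1 1 + B 0 1 + B 1 2 + B 0 2 + B 1 3, B 0 2, -B 0 3, B 2 2 + B 1 2 + B 2 3, -B 1 3, 0,
        B 0 0 + B 0 1 + B 0 3]
      min1).sum := by
  have h10 := hB.apply 0 1
  have h20 := hB.apply 0 2
  have h30 := hB.apply 0 3
  have h21 := hB.apply 1 2
  have h31 := hB.apply 1 3
  have h32 := hB.apply 2 3
  ext i j
  fin_cases i <;> fin_cases j <;>
    simp [min1, fr0, fr1, fr2, V4.at, phi, V4.toV, vecMulVec_apply] <;> omega

theorem g2_sum (i : ℕ) : ∑ A ∈ (min1.map V4.at).toFinset.filter (fun A => g2_lab A = i), A =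
    (min1.map fun v => if g2_lb v = i then v.at else 0).sum := by
  rw [Finset.sum_filter, List.sum_toFinset _ (g2_nodup (by decide +kernel) (by decide +kernel)),
    List.map_map]
  refine congrArg List.sum (List.map_congr_left fun v hv => ?_)
  rw [Function.comp_apply, g2_lab_eq v hv]

theorem g2_sums : ∀ i < 3, ∀ j < 3, ∀ a b : Fin 4,
    (min1.map fun v => if g2_lb v = i then v.at else 0).sum a b =
      (min1.map fun v => if g2_lb v = j then v.at else 0).sum a b := by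
  decide +kernel

theorem loc_q1 : ∃ lab, Loc q1m.toM (min1.map V4.at).toFinset 3 lab := by
  have hlt : ∀ v ∈ min1, g2_lb v < 3 := by decide +kernel
  have hne : ∀ i < 3, ∃ v ∈ min1, g2_lb v = i := by decide +kernel
  refine ⟨g2_lab, mn_q1.symm, three_pos, ?_, fun A hA => ?_, fun i hi => ?_, fun i hi j hj => ?_,
    fun B hB => ?_, ?_⟩
  · rw [List.toFinset_card_of_nodup (g2_nodup (by decide +kernel) (by decide +kernel))]
    rfl
  · obtain ⟨v, hv, rfl⟩ := g2_mem.1 hA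
    rw [g2_lab_eq v hv]
    exact hlt v hv
  · obtain ⟨v, hv, rfl⟩ := hne i hi
    exact ⟨v.at, g2_mem.2 ⟨v, hv, rfl⟩, g2_lab_eq v hv⟩
  · rw [g2_sum, g2_sum]
    exact Matrix.ext (g2_sums i hi j hj)
  · rw [g2_perf1 B hB]
    exact g2_span _ _
  · refine g2_nbr (lb := g2_lb) (by decide +kernel) g2_lab_eq hlt fun s hs => ?_
    obtain ⟨p, -, -, h1, h2⟩ := g2_chk1 (s 0) (hs 0 (by omega)).1 (hs 0 (by omega)).2
      (s 1) (hs 1 (by omega)).1 (hs 1 (by omega)).2 (s 2) (hs 2 (by omega)).1 (hs 2 (by omega)).2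
    refine ⟨_, _, h1, ?_, fun v hv => (h2 v hv).trans ?_⟩
    · split_ifs
      exacts [vert_qA, vert_q1]
    · have h3 := hlt v hv
      generalize g2_lb v = n at h3
      interval_cases n <;> rfl

/-- the action on forms as a linear map -/
def g2_cjL (g : Mt) : Mt →ₗ[ℤ] Mt := LinearMap.mulLeftRight ℤ (g, gᵀ)

theorem g2_cjL_apply (g A : Mt) : g2_cjL g A = cj g A := rfl

theorem Loc.pb {q : Mt} {M : Finset Mt} {k : ℕ} {lab : Mt → ℕ} (h : Loc q M k lab)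
    (g : GLz 4) : Loc (pb g q) (M.image (cj ((g⁻¹ : GLz 4) : Mt))) k
      fun A => lab (cj g A) := by
  have hm : ∀ A, A ∈ M.image (cj ((g⁻¹ : GLz 4) : Mt)) ↔ cj g A ∈ M := fun A => by
    rw [Finset.mem_image]
    constructor
    · rintro ⟨B, hB, rfl⟩
      rwa [cj_rinv g]
    · exact fun hA => ⟨_, hA, cj_linv g A⟩
  have hs : ∀ i, ∑ A ∈ (M.image (cj ((g⁻¹ : GLz 4) : Mt))).filter (fun A => lab (cj g A) = i), A =
      g2_cjL ((g⁻¹ : GLz 4) : Mt) (∑ A ∈ M.filter (fun A => lab A = i), A) := fun i => by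
    rw [Finset.filter_image, Finset.sum_image fun a _ b _ e => cj_inj g⁻¹ e, map_sum]
    refine Finset.sum_congr (Finset.filter_congr fun A _ => ?_) fun _ _ => rfl
    rw [cj_rinv g]
  refine ⟨Set.ext fun A => ?_, h.kpos, ?_, fun A hA => h.lab_lt _ ((hm A).1 hA), fun i hi => ?_,
    fun i hi j hj => ?_, fun B hB => ?_, fun t ht => ?_⟩
  · rw [Finset.mem_coe, hm, mem_Mn_pb, ← h.mn, Finset.mem_coe]
  · rw [Finset.card_image_of_injective _ (cj_inj g⁻¹), h.card]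
  · obtain ⟨A, hA, e⟩ := h.ne i hi
    exact ⟨_, Finset.mem_image_of_mem _ hA, by rw [cj_rinv g, e]⟩
  · rw [hs, hs, h.sums i hi j hj]
  · have h1 := Submodule.mem_map_of_mem (f := g2_cjL ((g⁻¹ : GLz 4) : Mt))
      (h.perf _ (cj_symm g hB))
    rw [Submodule.map_span, g2_cjL_apply, cj_linv g] at h1
    rw [Finset.coe_image]
    exact h1
  · obtain ⟨q', h1, c, hc, h2⟩ := h.nbr (fun i => cj g (t i))
      fun i hi => ⟨(hm _).1 (ht i hi).1, (ht i hi).2⟩
    refine ⟨_, h1.pb g, c, hc, fun A hA => ?_⟩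
    rw [pr_pb, h2 _ ((hm A).1 hA)]
    exact if_congr (cj_inj g).eq_iff rfl rfl

theorem exists_loc {q : Mt} (hq : Vert q) : ∃ M k lab, Loc q M k lab := by
  obtain ⟨g, rfl | rfl⟩ := hq
  · exact ⟨_, _, _, loc_qA.pb g⟩
  · obtain ⟨lab, h⟩ := loc_q1
    exact ⟨_, _, _, h.pb g⟩

theorem Vert.mn_fin {q : Mt} (hq : Vert q) : (Mn q).Finite := by
  obtain ⟨M, k, lab, h⟩ := exists_loc hq
  rw [← h.mn]
  exact M.finite_toSet

theorem Loc.g2_mn {q : Mt} {M : Finset Mt} {k : ℕ} {lab : Mt → ℕ} (h : Loc q M k lab) {A : Mt} :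
    A ∈ M ↔ A ∈ Mn q := by
  rw [← h.mn, Finset.mem_coe]

/-- the sums of a difference of forms over the frames agree, and are positive -/
theorem Loc.frame_pos {q q' : Mt} {M : Finset Mt} {k : ℕ} {lab : Mt → ℕ} (h : Loc q M k lab)
    (hq : Vert q) (hq' : Vert q') (hne : q' ≠ q) : ∃ H : ℤ, 0 < H ∧ ∀ i < k,
      ∑ A ∈ M.filter (fun A => lab A = i), pr (q' - q) A = H := by
  have h0 : ∀ A ∈ M, 0 ≤ pr (q' - q) A := fun A hA => by
    have h1 := h.g2_mn.1 hA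
    rw [pr_sub, h1.2, sub_nonneg]
    exact hq'.two_le_mn h1
  have h1 : ∀ i < k, ∑ A ∈ M.filter (fun A => lab A = i), pr (q' - q) A =
      ∑ A ∈ M.filter (fun A => lab A = 0), pr (q' - q) A := fun i hi => by
    rw [← pr_sum, ← pr_sum, h.sums i hi 0 h.kpos]
  refine ⟨_, lt_of_le_of_ne (Finset.sum_nonneg fun A hA => h0 A (Finset.mem_filter.1 hA).1)
    fun e => hne (sub_eq_zero.1 (eq_zero_of_perf (hq'.symm.sub hq.symm) h.perf fun A hA => ?_)),
    h1⟩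
  exact (Finset.sum_eq_zero_iff_of_nonneg fun A hA => h0 A (Finset.mem_filter.1 hA).1).1
    ((h1 _ (h.lab_lt A hA)).trans e.symm) A (Finset.mem_filter.2 ⟨hA, rfl⟩)

theorem g2_choose {M S : Finset Mt} {k : ℕ} {lab : Mt → ℕ} (hS : Miss M k lab S) :
    ∃ t : ℕ → Mt, ∀ i < k, t i ∈ M ∧ lab (t i) = i ∧ t i ∉ S := by
  have h1 : ∀ i, ∃ A, i < k → A ∈ M ∧ lab A = i ∧ A ∉ S := fun i => by
    by_cases hi : i < k
    · obtain ⟨A, hA⟩ := hS.2 i hi
      exact ⟨A, fun _ => hA⟩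
    · exact ⟨0, fun h => absurd h hi⟩
  choose t ht using h1
  exact ⟨t, ht⟩

theorem Loc.cell_iff {q : Mt} {M : Finset Mt} {k : ℕ} {lab : Mt → ℕ} (h : Loc q M k lab)
    (hq : Vert q) {S : Finset Mt} (hS : S ⊆ M) : Cell S ↔ Miss M k lab S := by
  constructor
  · rintro ⟨q1, q2, h1, h2, hne, h3, h4⟩
    obtain ⟨q', a1, a2, a3⟩ : ∃ q', Vert q' ∧ q' ≠ q ∧ (S : Set Mt) ⊆ Mn q' := by
      by_cases e : q1 = q
      · exact ⟨q2, h2, fun e' => hne (e.trans e'.symm), h4⟩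
      · exact ⟨q1, h1, e, h3⟩
    obtain ⟨H, hH, hs⟩ := h.frame_pos hq a1 a2
    refine ⟨hS, fun i hi => ?_⟩
    by_contra hc
    push Not at hc
    refine hH.ne ((Finset.sum_eq_zero fun A hA => ?_).symm.trans (hs i hi))
    obtain ⟨b1, b2⟩ := Finset.mem_filter.1 hA
    rw [pr_sub, (a3 (hc A b1 b2)).2, (h.g2_mn.1 b1).2, sub_self]
  · intro hM
    obtain ⟨t, ht⟩ := g2_choose hM
    obtain ⟨q', h1, c, hc, h2⟩ := h.nbr t fun i hi => ⟨(ht i hi).1, (ht i hi).2.1⟩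
    refine ⟨q, q', hq, h1, fun e => ?_, fun A hA => h.g2_mn.1 (hS hA), fun A hA => ?_⟩
    · obtain ⟨b1, b2, -⟩ := ht 0 h.kpos
      have b3 := h2 _ b1
      rw [b2, if_pos rfl, ← e, (h.g2_mn.1 b1).2] at b3
      omega
    · refine ⟨(h.g2_mn.1 (hS hA)).1, ?_⟩
      rw [h2 A (hS hA), if_neg fun e => (ht _ (h.lab_lt A (hS hA))).2.2 (by rw [e]; exact hA)]

theorem Cell.card_le {S : Finset Mt} (h : Cell S) : S.card ≤ 9 := by
  obtain ⟨q, -, hq, -, -, hS, -⟩ := id h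
  obtain ⟨M, k, lab, hL⟩ := exists_loc hq
  have h1 := ((hL.cell_iff hq fun A hA => hL.g2_mn.2 (hS hA)).1 h).card_le
  rw [hL.card] at h1
  omega

theorem cell_of_qA {S : Finset Mt} (h : (S : Set Mt) ⊆ Mn qAm.toM) (hc : S.card ≤ 9) :
    Cell S := by
  have hS : S ⊆ (minA.map V4.at).toFinset := fun A hA => loc_qA.g2_mn.2 (h hA)
  refine (loc_qA.cell_iff vert_qA hS).2 ⟨hS, fun i hi => ?_⟩
  obtain ⟨A, h1, h2⟩ := Finset.exists_mem_notMem_of_card_lt_card
    (show S.card < (minA.map V4.at).toFinset.card by rw [loc_qA.card]; omega)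
  exact ⟨A, h1, (Nat.lt_one_iff.1 hi).symm, h2⟩

/-- four independent vectors -/
def g2_ok : List V4 → Bool
  | [a, b, c, d] => M4.det ⟨a, b, c, d⟩ != 0
  | _ => false

theorem g2_spans {L : List V4}
    (hL : ((L.sublistsLen 7).all fun s => (s.sublistsLen 4).any g2_ok) = true) {S : Finset Mt}
    (h : S ⊆ (L.map V4.at).toFinset) (hc : 7 ≤ S.card) : Spans S := by
  have h1 : S ⊆ ((L.filter fun v => v.at ∈ S).map V4.at).toFinset := fun A hA => by
    obtain ⟨v, hv, rfl⟩ := g2_mem.1 (h hA)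
    exact g2_mem.2 ⟨v, List.mem_filter.2 ⟨hv, decide_eq_true hA⟩, rfl⟩
  have h2 := (hc.trans (Finset.card_le_card h1)).trans (List.toFinset_card_le _)
  rw [List.length_map] at h2
  obtain ⟨s, hs, hok⟩ := List.any_eq_true.1 (List.all_eq_true.1 hL
    ((L.filter fun v => v.at ∈ S).take 7) (List.mem_sublistsLen.2
      ⟨(List.take_sublist _ _).trans List.filter_sublist, List.length_take_of_le h2⟩))
  have h3 : ∀ v ∈ s, v.at ∈ S := fun v hv => of_decide_eq_true (List.mem_filter.1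
    (((List.mem_sublistsLen.1 hs).1.trans (List.take_sublist _ _)).subset hv)).2
  match s, hok, h3 with
  | [a, b, c, d], hok, h3 =>
    refine ⟨M4.toM ⟨a, b, c, d⟩, ?_, fun i => ?_⟩
    · rw [toM_det]
      exact bne_iff_ne.1 hok
    · fin_cases i
      exacts [h3 a (by simp), h3 b (by simp), h3 c (by simp), h3 d (by simp)]

theorem spans_of_mn {q : Mt} (hq : Vert q) {S : Finset Mt} (h : (S : Set Mt) ⊆ Mn q)
    (hc : 7 ≤ S.card) : Spans S := by
  obtain ⟨g, hg⟩ := hq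
  rw [← Finset.card_image_of_injective S (cj_inj g)] at hc
  rw [← spans_image g]
  rcases hg with rfl | rfl
  · rw [← image_sub_mn, mn_qA] at h
    exact g2_spans (by decide +kernel) (Finset.coe_subset.1 h) hc
  · rw [← image_sub_mn, mn_q1] at h
    exact g2_spans (by decide +kernel) (Finset.coe_subset.1 h) hc

theorem Cell.spans {S : Finset Mt} (h : Cell S) (hc : 7 ≤ S.card) : Spans S := by
  obtain ⟨q, -, hq, -, -, hS, -⟩ := h
  exact spans_of_mn hq hS hc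

/-- a cell with nine vectors is the complement of a transversal -/
theorem Loc.facet {q : Mt} {M : Finset Mt} {k : ℕ} {lab : Mt → ℕ} (h : Loc q M k lab)
    {S : Finset Mt} (hS : Miss M k lab S) (hc : S.card = 9) :
    ∃ t : ℕ → Mt, (∀ i < k, t i ∈ M ∧ lab (t i) = i) ∧
      ∀ A, A ∈ S ↔ A ∈ M ∧ t (lab A) ≠ A := by
  obtain ⟨t, ht⟩ := g2_choose hS
  refine ⟨t, fun i hi => ⟨(ht i hi).1, (ht i hi).2.1⟩, fun A => ?_⟩
  have h1 : Miss M k lab (M.filter fun A => t (lab A) ≠ A) :=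
    ⟨Finset.filter_subset _ _, fun i hi => ⟨t i, (ht i hi).1, (ht i hi).2.1, fun e =>
      (Finset.mem_filter.1 e).2 (by rw [(ht i hi).2.1])⟩⟩
  have h2 := h1.card_le
  rw [h.card] at h2
  have h3 : S = M.filter fun A => t (lab A) ≠ A :=
    Finset.eq_of_subset_of_card_le (fun A hA => Finset.mem_filter.2 ⟨hS.1 hA, fun e =>
      (ht _ (h.lab_lt A (hS.1 hA))).2.2 (by rw [e]; exact hA)⟩) (by omega)
  exact (Finset.ext_iff.1 h3 A).trans Finset.mem_filter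

end Pool.Agent.MP_cbe134_nt.V
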