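import Pool.Agent.MP_cbe134_nt.VG2

/- Finiteness statements and the height function. -/

open Matrix

namespace Pool.Agent.MP_cbe134_nt.V

theorem g3_box (N : ℤ) : {q : Mt | ∀ i j, |q i j| ≤ N}.Finite := by
  have h : (Set.univ.pi fun _ : Fin 4 => Set.univ.pi fun _ : Fin 4 => Set.Icc (-N) N).Finite :=
    Set.Finite.pi fun _ => Set.Finite.pi fun _ => Set.finite_Icc _ _
  refine h.subset fun q hq => ?_
  intro i _ j _
  exact abs_le.1 (hq i j)

theorem g3_bil_comm {q : Mt} (hq : q.IsSymm) (v w : Vc) : v ⬝ᵥ (q *ᵥ w) = w ⬝ᵥ (q *ᵥ v) := by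
  rw [dotProduct_mulVec, ← mulVec_transpose, hq.eq, dotProduct_comm]

theorem g3_bil {q : Mt} (hq : Vert q) (v w : Vc) :
    2 * |v ⬝ᵥ (q *ᵥ w)| ≤ v ⬝ᵥ (q *ᵥ v) + w ⬝ᵥ (q *ᵥ w) := by
  have h1 := hq.nonneg (v + w)
  have h2 := hq.nonneg (v - w)
  rw [pr_phi] at h1 h2
  simp only [mulVec_add, mulVec_sub, add_dotProduct, dotProduct_add, sub_dotProduct,
    dotProduct_sub] at h1 h2
  have h3 := g3_bil_comm hq.symm v w
  rcases abs_cases (v ⬝ᵥ (q *ᵥ w)) with h | h <;> rw [h.1] <;> linarith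

theorem g3_reg {V : Mt} (hV : V.det ≠ 0) : IsRegular V :=
  Matrix.isRegular_of_isLeftRegular_det (IsRegular.of_ne_zero hV).left

theorem g3_entry (V q : Mt) (i j : Fin 4) : (V * q * Vᵀ) i j = V i ⬝ᵥ (q *ᵥ V j) := by
  rw [Matrix.mul_assoc]
  simp only [Matrix.mul_apply, transpose_apply, dotProduct, mulVec]

theorem vert_fin {S : Finset Mt} (h : Spans S) :
    {q | Vert q ∧ (S : Set Mt) ⊆ Mn q}.Finite := by
  obtain ⟨V, hV, hS⟩ := h
  have hinj : Function.Injective fun q : Mt => V * q * Vᵀ := by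
    intro a b hab
    have h1 := (g3_reg (V := Vᵀ) (by rwa [det_transpose])).right hab
    exact (g3_reg hV).left h1
  refine ((g3_box 2).preimage hinj.injOn).subset ?_
  rintro q ⟨hq, hSq⟩ i j
  have hi := (hSq (hS i)).2
  have hj := (hSq (hS j)).2
  rw [pr_phi] at hi hj
  have := g3_bil hq (V i) (V j)
  change |(V * q * Vᵀ) i j| ≤ 2
  rw [g3_entry]
  omega

theorem ext_fin {S : Finset Mt} (h : Spans S) : (Ext Cell S).Finite := by
  refine ((vert_fin h).biUnion (t := fun q => Mn q) fun q hq => hq.1.mn_fin).subset ?_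
  rintro w ⟨_, q, q', hq, _, _, h1, _⟩
  simp only [Finset.coe_insert] at h1
  exact Set.mem_biUnion (x := q) ⟨hq, (Set.subset_insert _ _).trans h1⟩
    (h1 (Set.mem_insert _ _))

theorem g3_fib (S : Finset Mt) : {w : Vc | phi w ∈ S}.Finite := by
  refine Set.Finite.preimage' (f := phi) S.finite_toSet fun A _ => ?_
  rcases Set.eq_empty_or_nonempty (phi ⁻¹' {A}) with h | ⟨v, hv⟩
  · rw [h]; exact Set.finite_empty
  · refine (Set.toFinite {v, -v}).subset fun w hw => ?_
    have : phi w = phi v := by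
      rw [Set.mem_preimage, Set.mem_singleton_iff] at hw hv
      rw [hw, hv]
    exact phi_eq_iff.1 this

theorem stab_fin (S : Finset Mt) {T : Finset Mt} (h : Spans T) :
    {g : GLz 4 | S.image (cj g) = T}.Finite := by
  obtain ⟨V, hV, hT⟩ := h
  have hinj : Function.Injective fun (g : GLz 4) (i : Fin 4) =>
      ((g⁻¹ : GLz 4) : Mt) *ᵥ V i := by
    intro a b hab
    have h1 : ((a⁻¹ : GLz 4) : Mt) * Vᵀ = ((b⁻¹ : GLz 4) : Mt) * Vᵀ := by
      ext i j
      have := congrFun (congrFun hab j) i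
      simpa only [Matrix.mul_apply, transpose_apply, dotProduct, mulVec] using this
    have h2 := (g3_reg (V := Vᵀ) (by rwa [det_transpose])).right h1
    exact inv_injective (Units.ext h2)
  have hfin : (Set.univ.pi fun _ : Fin 4 => {w : Vc | phi w ∈ S}).Finite :=
    Set.Finite.pi fun _ => g3_fib S
  refine (hfin.preimage hinj.injOn).subset ?_
  intro g hg i _
  have hi := hT i
  rw [← (hg : S.image (cj g) = T), Finset.mem_image] at hi
  obtain ⟨A, hA, hAi⟩ := hi
  change phi (((g⁻¹ : GLz 4) : Mt) *ᵥ V i) ∈ S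
  rw [← cj_phi, ← hAi, cj_linv g A]
  exact hA

theorem vstab_fin {q : Mt} (hq : Vert q) : {g : GLz 4 | va g q = q}.Finite := by
  obtain ⟨M, k, lab, hM⟩ := exists_loc hq
  have hsp : Spans M := spans_of_mn hq hM.mn.subset (by rw [hM.card]; omega)
  refine (stab_fin M hsp).subset fun g hg => ?_
  have h1 : pb g q = q := by
    have h2 : pb ((g⁻¹ : GLz 4) : Mt) q = q := hg
    calc pb g q = pb g (pb ((g⁻¹ : GLz 4) : Mt) q) := by rw [h2]
      _ = q := by rw [← pb_mul, Units.inv_mul, pb_one]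
  have h3 : ((M.image (cj g) : Finset Mt) : Set Mt) ⊆ Mn q := by
    rw [image_sub_mn, h1]; exact hM.mn.subset
  rw [← hM.mn] at h3
  exact Finset.eq_of_subset_of_card_le (Finset.coe_subset.1 h3)
    (by rw [Finset.card_image_of_injective _ (cj_inj g)])

theorem g3_tau : ∃ τ : ℝ, 0 < τ ∧ τ < 1 / 100 ∧ Transcendental ℤ τ := by
  have hc : Set.Countable {x : ℝ | IsAlgebraic ℤ x} := Algebraic.countable ℤ ℝ
  obtain ⟨τ, h1, h2, h3⟩ := (hc.dense_compl ℝ).exists_between
    (show (0 : ℝ) < 1 / 100 by norm_num)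
  exact ⟨τ, h2, h3, h1⟩

theorem g3_single (q : Mt) (i j : Fin 4) :
    (Pi.single i 1 : Vc) ⬝ᵥ (q *ᵥ (Pi.single j 1 : Vc)) = q i j := by
  simp

theorem g3_trace {q : Mt} (hq : Vert q) (i j : Fin 4) : |q i j| ≤ ∑ k, q k k := by
  have h0 : ∀ k, 0 ≤ q k k := fun k => by
    have := hq.nonneg (Pi.single k 1)
    rwa [pr_phi, g3_single] at this
  have h1 : ∀ k, q k k ≤ ∑ k, q k k := fun k =>
    Finset.single_le_sum (f := fun k => q k k) (fun k _ => h0 k) (Finset.mem_univ k)
  have h2 := g3_bil hq (Pi.single i 1) (Pi.single j 1)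
  simp only [g3_single] at h2
  have := h1 i
  have := h1 j
  omega

theorem g3_pr_single (h : Mt) (i j : Fin 4) : pr h (Matrix.single i j 1) = h i j := by
  unfold pr
  rw [Finset.sum_eq_single i, Finset.sum_eq_single j]
  · simp
  · intro b _ hb
    simp [hb.symm]
  · simp
  · intro b _ hb
    simp [hb.symm]
  · simp

theorem exists_ht : ∃ ℓ : Mt →+ ℝ, Ht ℓ := by
  obtain ⟨τ, h0, h1, ht⟩ := g3_tau
  let e : Fin 4 × Fin 4 → ℕ := fun p => (finProdFinEquiv p : ℕ) + 1
  have he : Function.Injective e := fun a b hab =>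
    finProdFinEquiv.injective (Fin.ext (Nat.succ_injective hab))
  let ℓ : Mt →+ ℝ :=
    { toFun := fun h => ∑ k, (h k k : ℝ) + ∑ p : Fin 4 × Fin 4, τ ^ e p * (h p.1 p.2 : ℝ)
      map_zero' := by simp
      map_add' := fun a b => by
        simp only [Matrix.add_apply, Int.cast_add, mul_add, Finset.sum_add_distrib]
        ring }
  have hℓ : ∀ h : Mt,
      ℓ h = ∑ k, (h k k : ℝ) + ∑ p : Fin 4 × Fin 4, τ ^ e p * (h p.1 p.2 : ℝ) := fun _ => rfl
  refine ⟨ℓ, fun h _ hh => ?_, fun t => ?_, fun M hM => ?_⟩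
  · have hp := transcendental_iff.1 ht
      (Polynomial.C (∑ k, h k k) + ∑ p : Fin 4 × Fin 4, Polynomial.monomial (e p) (h p.1 p.2))
      (by
        rw [← hh, hℓ, map_add, Polynomial.aeval_C, map_sum (Polynomial.aeval τ)]
        simp only [Polynomial.aeval_monomial, eq_intCast, mul_comm, Int.cast_sum])
    ext i j
    have := congrArg (fun P => Polynomial.coeff P (e (i, j))) hp
    simp only [Polynomial.coeff_add, Polynomial.finsetSum_coeff, Polynomial.coeff_monomial,
      Polynomial.coeff_zero, he.eq_iff] at this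
    rw [Polynomial.coeff_C_of_ne_zero (Nat.succ_ne_zero _)] at this
    simpa using this
  · refine (g3_box ⌈2 * |t|⌉).subset ?_
    rintro q ⟨hq, hqt⟩ i j
    have hT : ∀ i j, |(q i j : ℝ)| ≤ ∑ k, (q k k : ℝ) := fun i j => by
      exact_mod_cast g3_trace hq i j
    have hT0 : (0 : ℝ) ≤ ∑ k, (q k k : ℝ) := (abs_nonneg _).trans (hT 0 0)
    have hb : ∀ p : Fin 4 × Fin 4,
        -(1 / 100 * ∑ k, (q k k : ℝ)) ≤ τ ^ e p * (q p.1 p.2 : ℝ) := fun p => by
      have a1 : τ ^ e p ≤ 1 / 100 := by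
        have : τ ^ e p ≤ τ := pow_le_of_le_one h0.le (by linarith) (Nat.succ_ne_zero _)
        linarith
      have a2 : |τ ^ e p * (q p.1 p.2 : ℝ)| ≤ 1 / 100 * ∑ k, (q k k : ℝ) := by
        rw [abs_mul, abs_of_pos (pow_pos h0 _)]
        exact mul_le_mul a1 (hT _ _) (abs_nonneg _) (by norm_num)
      exact (abs_le.1 a2).1
    have hs := Finset.sum_le_sum fun p (_ : p ∈ (Finset.univ : Finset (Fin 4 × Fin 4))) => hb p
    simp only [Finset.sum_const, Finset.card_univ, Fintype.card_prod, Fintype.card_fin,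
      nsmul_eq_mul] at hs
    rw [hℓ] at hqt
    have h2 : (|q i j| : ℝ) ≤ 2 * |t| := by
      have := hT i j
      have := le_abs_self t
      push_cast at hs
      linarith
    have h3 : ((|q i j| : ℤ) : ℝ) ≤ (⌈2 * |t|⌉ : ℤ) := by
      push_cast
      exact h2.trans (Int.le_ceil _)
    exact_mod_cast h3
  · let K : Submodule ℝ (Mt → ℝ) :=
      { carrier := {f | ∃ lam : Mt → ℝ, ∀ h : Mt, h.IsSymm →
          f h = ∑ A ∈ M, lam A * (pr h A : ℝ)}
        add_mem' := by
          rintro a b ⟨l, hl⟩ ⟨l', hl'⟩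
          refine ⟨l + l', fun h hh => ?_⟩
          simp only [Pi.add_apply, hl h hh, hl' h hh, add_mul, Finset.sum_add_distrib]
        zero_mem' := ⟨0, fun h _ => by simp⟩
        smul_mem' := by
          rintro c a ⟨l, hl⟩
          refine ⟨c • l, fun h hh => ?_⟩
          simp only [Pi.smul_apply, smul_eq_mul, hl h hh, Finset.mul_sum, mul_assoc] }
    have hB : ∀ B ∈ Submodule.span ℤ (M : Set Mt), (fun h => (pr h B : ℝ)) ∈ K := by
      intro B hB
      induction hB using Submodule.span_induction with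
      | mem A hA =>
        refine ⟨fun A' => if A' = A then 1 else 0, fun h _ => ?_⟩
        have hA' : A ∈ M := hA
        simp [hA']
      | zero =>
        have : (fun h : Mt => (pr h 0 : ℝ)) = 0 := by
          ext h; simp [pr]
        rw [this]; exact K.zero_mem
      | add a b _ _ ha hb =>
        have : (fun h : Mt => (pr h (a + b) : ℝ)) =
            (fun h : Mt => (pr h a : ℝ)) + fun h : Mt => (pr h b : ℝ) := by
          ext h; simp [pr_add]
        rw [this]; exact K.add_mem ha hb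
      | smul c a _ ha =>
        have : (fun h : Mt => (pr h (c • a) : ℝ)) = (c : ℝ) • fun h : Mt => (pr h a : ℝ) := by
          ext h; rw [pr_zsmul]; simp
        rw [this]; exact K.smul_mem _ ha
    have hE : ∀ i j, (fun h : Mt => (h i j : ℝ)) ∈ K := by
      intro i j
      have hs : (Matrix.single i j (1 : ℤ) + Matrix.single j i 1 : Mt).IsSymm := by
        rw [Matrix.IsSymm, transpose_add, transpose_single, transpose_single, add_comm]
      obtain ⟨l, hl⟩ := K.smul_mem (1 / 2) (hB _ (hM _ hs))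
      refine ⟨l, fun h hh => ?_⟩
      rw [← hl h hh]
      simp only [Pi.smul_apply, smul_eq_mul, pr_add, g3_pr_single, hh.apply i j]
      push_cast
      ring
    have hK : (∑ k, fun h : Mt => (h k k : ℝ)) +
        ∑ p : Fin 4 × Fin 4, τ ^ e p • (fun h : Mt => (h p.1 p.2 : ℝ)) ∈ K :=
      K.add_mem (K.sum_mem fun k _ => hE k k) (K.sum_mem fun p _ => K.smul_mem _ (hE _ _))
    obtain ⟨l, hl⟩ := hK
    refine ⟨l, fun h hh => ?_⟩
    rw [← hl h hh, hℓ]
    simp only [Pi.add_apply, Finset.sum_apply, Pi.smul_apply, smul_eq_mul]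

theorem Ht.eq_of_eq {ℓ : Mt →+ ℝ} (hℓ : Ht ℓ) {q q' : Mt} (hq : Vert q) (hq' : Vert q')
    (h : ℓ q = ℓ q') : q = q' :=
  sub_eq_zero.1 (hℓ.inj _ (hq.symm.sub hq'.symm) (by rw [map_sub, h, sub_self]))

theorem spans_le_fin : Sup Spans ≤ Sup fun S => (Ext Cell S).Finite :=
  Sup_mono fun _ h => ext_fin h

theorem Wc_le_spans {j : ℕ} (hj : 7 ≤ j) : Wc j ≤ Sup Spans :=
  Sup_mono fun _ h => h.1.spans (h.2 ▸ hj)

theorem del_mem_Wc {j : ℕ} (hj : 7 ≤ j) {x : Ch Mt} (hx : x ∈ Wc j) :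
    del Cell x ∈ Wc (j + 1) :=
  del_mem_Sup (p := fun S => Cell S ∧ S.card = j) (fun _ h => ext_fin (h.1.spans (h.2 ▸ hj)))
    (fun _ _ h hw => ⟨hw.2, by rw [Finset.card_insert_of_notMem hw.1, h.2]⟩) hx

theorem del_ga (g : GLz 4) {x : Ch Mt} (hx : x ∈ Sup Spans) :
    del Cell (ga g x) = ga g (del Cell x) :=
  (act_del (cj_linv g) (cj_rinv g) (cell_image g) (spans_le_fin hx)).symm

theorem del_del_cell {x : Ch Mt} (hx : x ∈ Sup Spans) : del Cell (del Cell x) = 0 :=
  del_del (fun _ _ h hT => Cell.mono h hT) (spans_le_fin hx)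

theorem del_mem_spans {x : Ch Mt} (hx : x ∈ Sup Spans) : del Cell x ∈ Sup Spans :=
  del_mem_Sup (p := Spans) (fun _ h => ext_fin h)
    (fun _ _ h _ => Spans.mono (Finset.subset_insert _ _) h) hx

end Pool.Agent.MP_cbe134_nt.V
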