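import Pool.Agent.MP_cbe134_nt.VD3

/- The volume form on symmetric matrices. -/

open Matrix

namespace Pool.Agent.MP_cbe134_nt.V

def g4_r : Fin 10 → Fin 4 := ![0, 0, 0, 0, 1, 1, 1, 2, 2, 3]

def g4_c : Fin 10 → Fin 4 := ![0, 1, 2, 3, 1, 2, 3, 2, 3, 3]

def g4_ix : Fin 4 → Fin 4 → Fin 10 := ![![0, 1, 2, 3], ![1, 4, 5, 6], ![2, 5, 7, 8], ![3, 6, 8, 9]]

theorem g4_ix_rc : ∀ p, g4_ix (g4_r p) (g4_c p) = p := by decide

theorem g4_ix_symm : ∀ i j, g4_ix i j = g4_ix j i := by decide

theorem g4_rc_ix : ∀ i j, (g4_r (g4_ix i j) = i ∧ g4_c (g4_ix i j) = j) ∨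
    (g4_r (g4_ix i j) = j ∧ g4_c (g4_ix i j) = i) := by decide

section ring

variable (K : Type) [CommRing K]

/-- coordinates of a symmetric matrix -/
def g4_crd : Matrix (Fin 4) (Fin 4) K →ₗ[K] (Fin 10 → K) where
  toFun A p := A (g4_r p) (g4_c p)
  map_add' _ _ := rfl
  map_smul' _ _ := rfl

/-- the symmetric matrix with given coordinates -/
def g4_sym : (Fin 10 → K) →ₗ[K] Matrix (Fin 4) (Fin 4) K where
  toFun v := Matrix.of fun i j => v (g4_ix i j)
  map_add' _ _ := rfl
  map_smul' _ _ := rfl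

variable {K}

theorem g4_crd_sym (v : Fin 10 → K) : g4_crd K (g4_sym K v) = v := by
  funext p
  change v (g4_ix (g4_r p) (g4_c p)) = v p
  rw [g4_ix_rc]

theorem g4_sym_isSymm (v : Fin 10 → K) : (g4_sym K v).IsSymm := by
  ext i j
  change v (g4_ix j i) = v (g4_ix i j)
  rw [g4_ix_symm]

theorem g4_sym_crd {A : Matrix (Fin 4) (Fin 4) K} (h : A.IsSymm) : g4_sym K (g4_crd K A) = A := by
  ext i j
  change A (g4_r (g4_ix i j)) (g4_c (g4_ix i j)) = A i j
  rcases g4_rc_ix i j with ⟨h1, h2⟩ | ⟨h1, h2⟩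
  · rw [h1, h2]
  · rw [h1, h2, h.apply]

/-- the action on coordinates -/
def g4_act (g : Matrix (Fin 4) (Fin 4) K) : (Fin 10 → K) →ₗ[K] (Fin 10 → K) where
  toFun v := g4_crd K (g * g4_sym K v * gᵀ)
  map_add' v w := by rw [map_add, Matrix.mul_add, Matrix.add_mul, map_add]
  map_smul' c v := by rw [map_smul, Matrix.mul_smul, Matrix.smul_mul, map_smul, RingHom.id_apply]

theorem g4_act_apply (g : Matrix (Fin 4) (Fin 4) K) (v : Fin 10 → K) :
    g4_act g v = g4_crd K (g * g4_sym K v * gᵀ) := rfl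

theorem g4_act_one : g4_act (1 : Matrix (Fin 4) (Fin 4) K) = LinearMap.id := by
  refine LinearMap.ext fun v => ?_
  rw [g4_act_apply, Matrix.one_mul, Matrix.transpose_one, Matrix.mul_one, g4_crd_sym,
    LinearMap.id_apply]

theorem g4_act_mul (g h : Matrix (Fin 4) (Fin 4) K) : g4_act (g * h) = g4_act g * g4_act h := by
  refine LinearMap.ext fun v => ?_
  have hs : (h * g4_sym K v * hᵀ).IsSymm := by
    rw [Matrix.IsSymm, Matrix.transpose_mul, Matrix.transpose_mul, Matrix.transpose_transpose,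
      (g4_sym_isSymm v).eq, Matrix.mul_assoc]
  rw [Module.End.mul_apply, g4_act_apply, g4_act_apply, g4_act_apply, g4_sym_crd hs,
    Matrix.transpose_mul]
  simp only [Matrix.mul_assoc]

theorem g4_det_diagonal (d : Fin 4 → K) :
    LinearMap.det (g4_act (diagonal d)) = (diagonal d).det ^ 5 := by
  have h : g4_act (diagonal d) =
      Matrix.toLin' (diagonal fun p => d (g4_r p) * d (g4_c p)) := by
    refine LinearMap.ext fun v => funext fun p => ?_
    rw [Matrix.toLin'_apply, Matrix.mulVec_diagonal, g4_act_apply]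
    change (diagonal d * g4_sym K v * (diagonal d)ᵀ) (g4_r p) (g4_c p) = _
    rw [Matrix.diagonal_transpose, Matrix.mul_diagonal, Matrix.diagonal_mul]
    change d (g4_r p) * v (g4_ix (g4_r p) (g4_c p)) * d (g4_c p) = _
    rw [g4_ix_rc]
    ring
  rw [h, LinearMap.det_toLin', Matrix.det_diagonal, Matrix.det_diagonal]
  simp only [Fin.prod_univ_succ, g4_r, g4_c, Fin.prod_univ_zero, Matrix.cons_val_zero,
    Matrix.cons_val_succ, Fin.succ_zero_eq_one, Fin.succ_one_eq_two, Fin.reduceSucc]
  ring

end ring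

theorem g4_det_transvection (i j : Fin 4) (hij : i ≠ j) (c : ℚ) :
    LinearMap.det (g4_act (transvection i j c)) = 1 := by
  have hmul : ∀ g h : Matrix (Fin 4) (Fin 4) ℚ, LinearMap.det (g4_act (g * h)) =
      LinearMap.det (g4_act g) * LinearMap.det (g4_act h) := fun g h => by
    rw [g4_act_mul, map_mul]
  have hD : diagonal (fun k : Fin 4 => if k = i then (2 : ℚ) else 1) * transvection i j c =
      transvection i j c * transvection i j c *
        diagonal (fun k : Fin 4 => if k = i then (2 : ℚ) else 1) := by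
    rw [transvection_mul_transvection_same _ _ hij]
    ext a b
    rw [Matrix.mul_diagonal, Matrix.diagonal_mul]
    simp only [transvection, Matrix.add_apply, Matrix.one_apply, Matrix.single_apply]
    by_cases h1 : a = i <;> by_cases h2 : b = j <;> by_cases h3 : a = b <;> simp_all [eq_comm]
    ring
  have h1 := congrArg (fun g => LinearMap.det (g4_act g)) hD
  simp only [hmul] at h1
  have h2 : LinearMap.det (g4_act (diagonal (fun k : Fin 4 => if k = i then (2 : ℚ) else 1))) ≠
      0 := by
    rw [g4_det_diagonal, Matrix.det_diagonal]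
    refine pow_ne_zero _ (Finset.prod_ne_zero_iff.2 fun k _ => ?_)
    split_ifs <;> norm_num
  have h3 : LinearMap.det (g4_act (transvection i j c)) ≠ 0 := by
    have h4 := hmul (transvection i j c) (transvection i j (-c))
    rw [transvection_mul_transvection_same _ _ hij, add_neg_cancel, transvection_zero, g4_act_one,
      LinearMap.det_id] at h4
    exact left_ne_zero_of_mul_eq_one h4.symm
  rw [mul_comm] at h1
  have h5 := mul_right_cancel₀ h2 h1
  exact (mul_left_cancel₀ h3 ((mul_one _).trans h5)).symm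

theorem g4_det_act (g : Matrix (Fin 4) (Fin 4) ℚ) : LinearMap.det (g4_act g) = g.det ^ 5 := by
  refine Matrix.diagonal_transvection_induction
    (fun g => LinearMap.det (g4_act g) = g.det ^ 5) g (fun d _ => g4_det_diagonal d)
    (fun t => ?_) fun a b ha hb => ?_
  · obtain ⟨i, j, hij, c⟩ := t
    rw [TransvectionStruct.toMatrix_mk, g4_det_transvection i j hij, det_transvection_of_ne _ _ hij,
      one_pow]
  · rw [g4_act_mul, map_mul, ha, hb, Matrix.det_mul, mul_pow]

theorem g4_crd_eq (A : Mt) : crd A = g4_crd ℤ A := by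
  funext p
  fin_cases p <;> rfl

theorem g4_getD_swap {α : Type} (l₁ : List α) (a b : α) (l₂ : List α) (d : α) (k : ℕ)
    (h1 : k ≠ l₁.length) (h2 : k ≠ l₁.length + 1) :
    (l₁ ++ a :: b :: l₂).getD k d = (l₁ ++ b :: a :: l₂).getD k d := by
  rcases lt_or_ge k l₁.length with h | h
  · rw [List.getD_append _ _ _ _ h, List.getD_append _ _ _ _ h]
  · rw [List.getD_append_right _ _ _ _ h, List.getD_append_right _ _ _ _ h]
    obtain ⟨m, hm⟩ : ∃ m, k - l₁.length = m + 2 := ⟨k - l₁.length - 2, by omega⟩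
    rw [hm]
    rfl

theorem vol_swap (l₁ : List Mt) (a b : Mt) (l₂ : List Mt) :
    vol (l₁ ++ a :: b :: l₂) = -vol (l₁ ++ b :: a :: l₂) := by
  unfold vol
  have hl : (l₁ ++ a :: b :: l₂).length = (l₁ ++ b :: a :: l₂).length := by simp
  rw [hl]
  split_ifs with h
  · have hn : l₁.length + 1 < 10 := by
      simp only [List.length_append, List.length_cons] at h
      omega
    have hne : (⟨l₁.length, by omega⟩ : Fin 10) ≠ ⟨l₁.length + 1, hn⟩ := by simp
    have key : (Matrix.of fun i : Fin 10 => crd ((l₁ ++ a :: b :: l₂).getD i 0)) =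
        (Matrix.of fun i : Fin 10 => crd ((l₁ ++ b :: a :: l₂).getD i 0)).submatrix
          (Equiv.swap (⟨l₁.length, by omega⟩ : Fin 10) ⟨l₁.length + 1, hn⟩) id := by
      ext i p
      rw [Matrix.submatrix_apply, Matrix.of_apply, Matrix.of_apply, id]
      by_cases h1 : i = ⟨l₁.length, by omega⟩
      · rw [h1, Equiv.swap_apply_left]
        simp
      · by_cases h2 : i = ⟨l₁.length + 1, hn⟩
        · rw [h2, Equiv.swap_apply_right]
          simp
        · rw [Equiv.swap_apply_of_ne_of_ne h1 h2,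
            g4_getD_swap l₁ a b l₂ 0 i (fun e => h1 (Fin.ext e)) fun e => h2 (Fin.ext e)]
    rw [key, Matrix.det_permute, Equiv.Perm.sign_swap hne]
    simp
  · rfl

theorem g4_exists_lin {n : Type} [Fintype n] [DecidableEq n] (M : Matrix n n ℤ) (i : n) :
    ∃ L : (n → ℤ) →ₗ[ℤ] ℤ, ∀ v, L v = (M.updateRow i v).det :=
  ⟨{ toFun := fun v => (M.updateRow i v).det
     map_add' := fun v w => Matrix.det_updateRow_add M i v w
     map_smul' := fun c v => Matrix.det_updateRow_smul M i c v }, fun _ => rfl⟩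

theorem vol_lin (t : List Mt) : ∃ L : Mt →ₗ[ℤ] ℤ, ∀ A, L A = vol (A :: t) := by
  by_cases h : t.length + 1 = 10
  · obtain ⟨L, hL⟩ := g4_exists_lin (Matrix.of fun i : Fin 10 => crd ((0 :: t).getD i 0)) 0
    refine ⟨L ∘ₗ g4_crd ℤ, fun A => ?_⟩
    have key : (Matrix.of fun i : Fin 10 => crd ((0 :: t).getD i 0)).updateRow 0 (g4_crd ℤ A) =
        Matrix.of fun i : Fin 10 => crd ((A :: t).getD i 0) := by
      ext i p
      induction i using Fin.cases with
      | zero =>
        rw [Matrix.updateRow_self, ← g4_crd_eq, Matrix.of_apply, Fin.val_zero, List.getD_cons_zero]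
      | succ i =>
        rw [Matrix.updateRow_ne (Fin.succ_ne_zero i), Matrix.of_apply, Matrix.of_apply,
          Fin.val_succ, List.getD_cons_succ, List.getD_cons_succ]
    unfold vol
    rw [List.length_cons, if_pos h, LinearMap.comp_apply, hL, key]
  · refine ⟨0, fun A => ?_⟩
    unfold vol
    rw [List.length_cons, if_neg h, LinearMap.zero_apply]

theorem vol_mem {A : Mt} {t : List Mt} (h : A ∈ t) : vol (A :: t) = 0 := by
  unfold vol
  split_ifs with hl
  · obtain ⟨k, hk, rfl⟩ := List.getElem_of_mem h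
    rw [List.length_cons] at hl
    refine Matrix.det_zero_of_row_eq (i := 0) (j := ⟨k + 1, by omega⟩) (by simp [Fin.ext_iff]) ?_
    change crd t[k] = crd (t.getD k 0)
    rw [List.getD_eq_getElem _ _ hk]
  · rfl

theorem vol_cj (g : Mt) {l : List Mt} (h : ∀ A ∈ l, A.IsSymm) :
    vol (l.map (cj g)) = g.det ^ 5 * vol l := by
  unfold vol
  rw [List.length_map]
  split_ifs with hl
  · have key : (Int.castRingHom ℚ).mapMatrix
        (Matrix.of fun i : Fin 10 => crd ((l.map (cj g)).getD i 0)) =
        (Int.castRingHom ℚ).mapMatrix (Matrix.of fun i : Fin 10 => crd (l.getD i 0)) *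
          (LinearMap.toMatrix' (g4_act ((Int.castRingHom ℚ).mapMatrix g)))ᵀ := by
      ext i p
      have hi : (i : ℕ) < l.length := by omega
      have h1 : (l.map (cj g)).getD i 0 = cj g (l.getD i 0) := by
        rw [List.getD_eq_getElem _ _ (by simpa using hi), List.getD_eq_getElem _ _ hi,
          List.getElem_map]
      have h2 : (l.getD i 0).IsSymm := by
        rw [List.getD_eq_getElem _ _ hi]
        exact h _ (List.getElem_mem hi)
      have h3 : ((Int.castRingHom ℚ).mapMatrix (l.getD i 0)).IsSymm := h2.map _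
      have h4 : ((Int.castRingHom ℚ).mapMatrix (Matrix.of fun i : Fin 10 => crd (l.getD i 0)) *
          (LinearMap.toMatrix' (g4_act ((Int.castRingHom ℚ).mapMatrix g)))ᵀ) i p =
          ((LinearMap.toMatrix' (g4_act ((Int.castRingHom ℚ).mapMatrix g))) *ᵥ
            g4_crd ℚ ((Int.castRingHom ℚ).mapMatrix (l.getD i 0))) p := by
        rw [Matrix.mul_apply, Matrix.mulVec, dotProduct]
        refine Finset.sum_congr rfl fun q _ => ?_
        rw [mul_comm, Matrix.transpose_apply]
        congr 1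
        rw [RingHom.mapMatrix_apply, Matrix.map_apply, Matrix.of_apply, g4_crd_eq]
        rfl
      rw [h4, LinearMap.toMatrix'_mulVec, g4_act_apply, g4_sym_crd h3, RingHom.mapMatrix_apply,
        Matrix.map_apply, Matrix.of_apply, h1, g4_crd_eq]
      change ((Int.castRingHom ℚ).mapMatrix (g * l.getD i 0 * gᵀ)) (g4_r p) (g4_c p) = _
      rw [map_mul, map_mul]
      rfl
    have h5 := congrArg Matrix.det key
    rw [Matrix.det_mul, Matrix.det_transpose, LinearMap.det_toMatrix', g4_det_act,
      ← RingHom.map_det, ← RingHom.map_det, ← RingHom.map_det, ← map_pow, ← map_mul] at h5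
    rw [mul_comm]
    exact (Int.castRingHom ℚ).injective_int h5
  · rw [mul_zero]

theorem vol_ne {l : List Mt} (hl : l.length = 10)
    (h : ∀ B : Mt, B.IsSymm → B ∈ Submodule.span ℤ {A | A ∈ l}) : vol l ≠ 0 := by
  unfold vol
  rw [if_pos hl]
  have h1 : Submodule.span ℤ {A | A ∈ l} ≤
      (Submodule.span ℤ (Set.range fun i : Fin 10 => crd (l.getD i 0))).comap (g4_crd ℤ) := by
    refine Submodule.span_le.2 fun A hA => ?_
    obtain ⟨k, hk, rfl⟩ := List.getElem_of_mem hA
    refine Submodule.subset_span ⟨⟨k, by omega⟩, ?_⟩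
    change crd (l.getD k 0) = _
    rw [List.getD_eq_getElem _ _ hk, g4_crd_eq]
  have h2 : ∀ p : Fin 10, ∃ c : Fin 10 → ℤ, ∑ i : Fin 10, c i • crd (l.getD i 0) =
      Pi.single p 1 := fun p => by
    have := h1 (h _ (g4_sym_isSymm (Pi.single p 1)))
    rw [Submodule.mem_comap, g4_crd_sym] at this
    exact (Submodule.mem_span_range_iff_exists_fun ℤ).1 this
  choose N hN using h2
  have h3 : Matrix.of N * (Matrix.of fun i : Fin 10 => crd (l.getD i 0)) = 1 := by
    ext p q
    have := congrFun (hN p) q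
    rw [Finset.sum_apply, Pi.single_apply] at this
    rw [Matrix.mul_apply, Matrix.one_apply]
    simp only [eq_comm (a := p)]
    exact this
  have h4 := congrArg Matrix.det h3
  rw [Matrix.det_mul, Matrix.det_one] at h4
  exact right_ne_zero_of_mul_eq_one h4

end Pool.Agent.MP_cbe134_nt.V
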