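import Pool.Agent.MP_cbe134_nt.VG3
import Pool.Agent.MP_cbe134_nt.VG4

/- Orientations of facets and the boundary of edges of the dual complex. -/

open Matrix Finsupp

namespace Pool.Agent.MP_cbe134_nt.V

theorem g5_frame {E : Type} [AddCommGroup E] {M S : Finset Mt} {lab : Mt → ℕ} {t : ℕ → Mt}
    (ht : ∀ A, A ∈ S ↔ A ∈ M ∧ t (lab A) ≠ A) (L : Mt →ₗ[ℤ] E) (hL : ∀ A ∈ S, L A = 0) {i : ℕ}
    (hi : t i ∈ M ∧ lab (t i) = i) : L (∑ A ∈ M.filter (fun A => lab A = i), A) = L (t i) := by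
  rw [map_sum]
  refine Finset.sum_eq_single_of_mem (t i) (Finset.mem_filter.2 hi) fun A hA hne => ?_
  obtain ⟨h1, h2⟩ := Finset.mem_filter.1 hA
  exact hL A ((ht A).2 ⟨h1, by rw [h2]; exact hne.symm⟩)

theorem g5_sum {E : Type} [AddCommGroup E] {q : Mt} {M : Finset Mt} {k : ℕ} {lab : Mt → ℕ}
    (h : Loc q M k lab) {S : Finset Mt} (hS : Miss M k lab S) (hc : S.card = 9)
    (L : Mt →ₗ[ℤ] E) (hL : ∀ A ∈ S, L A = 0) {u : Mt} (hu : u ∈ M) (hu' : u ∉ S) :
    (∀ v ∈ M, v ∉ S → L v = L u) ∧ L (∑ A ∈ M, A) = k • L u := by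
  obtain ⟨t, ht1, ht2⟩ := h.facet hS hc
  have h1 : ∀ v ∈ M, v ∉ S → t (lab v) = v := fun v hv hv' => by
    by_contra hne
    exact hv' ((ht2 v).2 ⟨hv, hne⟩)
  have h2 : ∀ i < k, L (t i) = L u := fun i hi => by
    rw [← g5_frame ht2 L hL (ht1 i hi), h.sums i hi _ (h.lab_lt u hu),
      g5_frame ht2 L hL (ht1 _ (h.lab_lt u hu)), h1 u hu hu']
  refine ⟨fun v hv hv' => by rw [← h2 _ (h.lab_lt v hv), h1 v hv hv'], ?_⟩
  rw [← Finset.sum_fiberwise_of_maps_to (t := Finset.range k) (g := lab)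
    (fun A hA => Finset.mem_range.2 (h.lab_lt A hA)), map_sum,
    Finset.sum_congr rfl fun i hi => (g5_frame ht2 L hL (ht1 i (Finset.mem_range.1 hi))).trans
      (h2 i (Finset.mem_range.1 hi)), Finset.sum_const, Finset.card_range]

theorem g5_fsum {q : Mt} {M : Finset Mt} (h : (M : Set Mt) = Mn q) :
    ∑ᶠ A ∈ Mn q, A = ∑ A ∈ M, A := by
  rw [← h, finsum_mem_coe_finset]

/-- pairing with a form as a linear map -/
def g5_pr (q : Mt) : Mt →ₗ[ℤ] ℤ where
  toFun := pr q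
  map_add' := pr_add q
  map_smul' c A := pr_zsmul q A c

theorem g5_pr_apply (q A : Mt) : g5_pr q A = pr q A := rfl

theorem g5_zero {q q' : Mt} {S : Finset Mt} (h : (S : Set Mt) ⊆ Mn q) (h' : (S : Set Mt) ⊆ Mn q') :
    ∀ A ∈ S, g5_pr (q' - q) A = 0 := fun A hA => by
  rw [g5_pr_apply, pr_sub, (h hA).2, (h' hA).2, sub_self]

theorem g5_pos {q q' : Mt} {M : Finset Mt} {k : ℕ} {lab : Mt → ℕ} (h : Loc q M k lab)
    (hq : Vert q) (hq' : Vert q') (hne : q ≠ q') {S : Finset Mt} (hS : Miss M k lab S)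
    (hc : S.card = 9) (h' : (S : Set Mt) ⊆ Mn q') {u : Mt} (hu : u ∈ M) (hu' : u ∉ S) :
    0 < pr (q' - q) u := by
  have hm : u ∈ Mn q := h.mn ▸ Finset.mem_coe.2 hu
  have h0 := g5_zero (h.mn ▸ Finset.coe_subset.2 hS.1) h'
  have h1 : 0 ≤ pr (q' - q) u := by
    rw [pr_sub, hm.2]
    exact sub_nonneg.2 (hq'.two_le_mn hm)
  refine lt_of_le_of_ne h1 fun e => hne (sub_eq_zero.1 ?_).symm
  refine eq_zero_of_perf (hq'.symm.sub hq.symm) h.perf fun A hA => ?_
  by_cases hAS : A ∈ S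
  · exact h0 A hAS
  · exact ((g5_sum h hS hc _ h0 hu hu').1 A hA hAS).trans e.symm

theorem g5_ins {α : Type} [DecidableEq α] {M S : Finset α} {k : ℕ} {lab : α → ℕ}
    (hS : Miss M k lab S) {w w' : α} (hw : w ∈ M) (hw' : w' ∈ M) (hS' : w' ∉ S) (hne : w' ≠ w)
    (hl : lab w' = lab w) : Miss M k lab (insert w S) := by
  refine ⟨Finset.insert_subset hw hS.1, fun i hi => ?_⟩
  obtain ⟨A, hA, hA1, hA2⟩ := hS.2 i hi
  by_cases e : A = w
  · exact ⟨w', hw', hl.trans (e ▸ hA1), by simp [hne, hS']⟩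
  · exact ⟨A, hA, hA1, by simp [e, hA2]⟩

theorem g5_missing {q : Mt} {M : Finset Mt} {k : ℕ} {lab : Mt → ℕ} (h : Loc q M k lab)
    {S : Finset Mt} (hS : Miss M k lab S) : ∃ u ∈ M, u ∉ S := by
  obtain ⟨u, hu, -, hu'⟩ := hS.2 0 h.kpos
  exact ⟨u, hu, hu'⟩

theorem osg_br (q : Mt) (l : List Mt) :
    osg q (br l) = (Int.sign (vol ((∑ᶠ A ∈ Mn q, A) :: l)) : ℚ) := by
  refine lft_br (F := fun l => (Int.sign (vol ((∑ᶠ A ∈ Mn q, A) :: l)) : ℚ)) ?_ l
  intro l₁ a b l₂
  simp only [← List.cons_append]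
  rw [vol_swap, Int.sign_neg, Int.cast_neg]

/-- the orientation can be computed with any missing minimal vector -/
theorem osg_eq {q : Mt} {M : Finset Mt} {k : ℕ} {lab : Mt → ℕ} (h : Loc q M k lab)
    {l : List Mt} (hl : l.Nodup) (h9 : l.length = 9) (hS : Miss M k lab l.toFinset) {u : Mt}
    (hu : u ∈ M) (hu' : u ∉ l) : osg q (br l) = (Int.sign (vol (u :: l)) : ℚ) ∧
      vol (u :: l) ≠ 0 := by
  have hc : l.toFinset.card = 9 := by rw [List.toFinset_card_of_nodup hl, h9]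
  have hu2 : u ∉ l.toFinset := fun e => hu' (List.mem_toFinset.1 e)
  constructor
  · obtain ⟨L, hL⟩ := vol_lin l
    have h1 := (g5_sum h hS hc L
      (fun A hA => by rw [hL, vol_mem (List.mem_toFinset.1 hA)]) hu hu2).2
    rw [osg_br, g5_fsum h.mn, ← hL, h1, hL, nsmul_eq_mul, Int.sign_mul,
      Int.sign_eq_one_of_pos (Int.natCast_pos.2 h.kpos), one_mul]
  · refine vol_ne (by rw [List.length_cons, h9]) fun B hB => ?_
    refine Submodule.span_le.2 (fun A hA => ?_) (h.perf B hB)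
    by_cases hA' : A ∈ l.toFinset
    · exact Submodule.subset_span (List.mem_cons_of_mem _ (List.mem_toFinset.1 hA'))
    · have h1 := (g5_sum h hS hc (Submodule.span ℤ {A | A ∈ u :: l}).mkQ
        (fun A hA => (Submodule.Quotient.mk_eq_zero _).2
          (Submodule.subset_span (List.mem_cons_of_mem _ (List.mem_toFinset.1 hA)))) hu hu2).1
          A hA hA'
      refine (Submodule.Quotient.mk_eq_zero _).1 (h1.trans ?_)
      exact (Submodule.Quotient.mk_eq_zero _).2 (Submodule.subset_span List.mem_cons_self)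

theorem osg_sq {q : Mt} (hq : Vert q) {S : Finset Mt} (hS : Cell S) (h9 : S.card = 9)
    (h : (S : Set Mt) ⊆ Mn q) : osg q (single S 1) * osg q (single S 1) = 1 := by
  obtain ⟨M, k, lab, hL⟩ := exists_loc hq
  have hM : Miss M k lab S := (hL.cell_iff hq (Finset.coe_subset.1 (hL.mn ▸ h))).1 hS
  obtain ⟨u, hu, hu'⟩ := g5_missing hL hM
  obtain ⟨h1, h2⟩ := osg_eq hL S.nodup_toList (by rw [Finset.length_toList, h9])
    (by rwa [Finset.toList_toFinset]) hu (fun e => hu' (Finset.mem_toList.1 e))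
  obtain ⟨ε, hε, h3⟩ := br_nodup S.nodup_toList
  have h4 : br S.toList S = ε := by rw [h3, Finset.toList_toFinset, single_eq_same]
  rw [single_eq_br, map_smul, h1, h4, smul_eq_mul, mul_mul_mul_comm, hε, one_mul,
    ← Int.cast_mul, ← Int.sign_mul, Int.sign_eq_one_of_pos (mul_self_pos.2 h2), Int.cast_one]

theorem osg_opp {q q' : Mt} (hq : Vert q) (hq' : Vert q') (hne : q ≠ q') {S : Finset Mt}
    (h9 : S.card = 9) (h : (S : Set Mt) ⊆ Mn q) (h' : (S : Set Mt) ⊆ Mn q') :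
    osg q' (single S 1) = -osg q (single S 1) := by
  obtain ⟨M, k, lab, hL⟩ := exists_loc hq
  obtain ⟨M', k', lab', hL'⟩ := exists_loc hq'
  have hS : Cell S := ⟨q, q', hq, hq', hne, h, h'⟩
  have hM : Miss M k lab S := (hL.cell_iff hq (Finset.coe_subset.1 (hL.mn ▸ h))).1 hS
  have hM' : Miss M' k' lab' S := (hL'.cell_iff hq' (Finset.coe_subset.1 (hL'.mn ▸ h'))).1 hS
  obtain ⟨u, hu, hu'⟩ := g5_missing hL hM
  obtain ⟨v, hv, hv'⟩ := g5_missing hL' hM'
  obtain ⟨h1, -⟩ := osg_eq hL S.nodup_toList (by rw [Finset.length_toList, h9])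
    (by rwa [Finset.toList_toFinset]) hu (fun e => hu' (Finset.mem_toList.1 e))
  obtain ⟨h2, -⟩ := osg_eq hL' S.nodup_toList (by rw [Finset.length_toList, h9])
    (by rwa [Finset.toList_toFinset]) hv (fun e => hv' (Finset.mem_toList.1 e))
  obtain ⟨L, hLv⟩ := vol_lin S.toList
  have hL0 : ∀ A ∈ S, L A = 0 := fun A hA => by rw [hLv, vol_mem (Finset.mem_toList.2 hA)]
  have hD0 := g5_zero h h'
  have hp : 0 < pr (q' - q) u := g5_pos hL hq hq' hne hM h9 h' hu hu'
  have hp' : 0 < pr (q - q') v := g5_pos hL' hq' hq hne.symm hM' h9 h hv hv'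
  have hn : pr (q' - q) v < 0 := by
    rw [pr_sub] at hp' ⊢
    omega
  have key : pr (q' - q) u * L v = L u * pr (q' - q) v := by
    have h3 : ∀ B ∈ Submodule.span ℤ (M : Set Mt),
        (pr (q' - q) u • L) B = (L u • g5_pr (q' - q)) B := by
      intro B hB
      refine LinearMap.eqOn_span' (fun A hA => ?_) hB
      simp only [LinearMap.smul_apply, smul_eq_mul]
      by_cases hA' : A ∈ S
      · rw [hL0 A hA', hD0 A hA', mul_zero, mul_zero]
      · rw [(g5_sum hL hM h9 L hL0 hu hu').1 A hA hA', (g5_sum hL hM h9 _ hD0 hu hu').1 A hA hA',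
          mul_comm, g5_pr_apply]
    exact h3 v (hL.perf v (mn_symm (hL'.mn ▸ Finset.mem_coe.2 hv)))
  have h5 := congrArg Int.sign key
  rw [Int.sign_mul, Int.sign_mul, Int.sign_eq_one_of_pos hp, Int.sign_eq_neg_one_of_neg hn,
    one_mul, mul_neg_one] at h5
  rw [single_eq_br, map_smul, map_smul, h1, h2, ← hLv, ← hLv, h5, Int.cast_neg, smul_neg]

theorem osg_del {q : Mt} {M : Finset Mt} {k : ℕ} {lab : Mt → ℕ} (h : Loc q M k lab)
    {x : Ch Mt} (hx : x ∈ Sup fun S => Miss M k lab S ∧ S.card = 8) :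
    osg q (del (Miss M k lab) x) = 0 := by
  refine Sup_ind_br (Q := fun x => osg q (del (Miss M k lab) x) = 0) (by simp)
    (fun x y hx hy => by rw [map_add, map_add, hx, hy, add_zero])
    (fun c x hx => by rw [map_smul, map_smul, hx, smul_zero]) ?_ hx
  rintro l hl ⟨hS, h8⟩
  have hlen : l.length = 8 := by rw [← List.toFinset_card_of_nodup hl, h8]
  obtain ⟨w1, hw1, w2, hw2, hne, hlab⟩ := Finset.exists_ne_map_eq_of_card_lt_of_maps_to
    (s := M \ l.toFinset) (t := Finset.range k) (f := lab)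
    (by rw [Finset.card_range, Finset.card_sdiff_of_subset hS.1, h.card, h8]; omega)
    (fun A hA => Finset.mem_range.2 (h.lab_lt A (Finset.mem_sdiff.1 hA).1))
  obtain ⟨hw1, hw1'⟩ := Finset.mem_sdiff.1 hw1
  obtain ⟨hw2, hw2'⟩ := Finset.mem_sdiff.1 hw2
  have m1 := g5_ins hS hw1 hw2 hw2' hne.symm hlab.symm
  have m2 := g5_ins hS hw2 hw1 hw1' hne hlab
  have hW : ∀ w, w ∈ Ext (Miss M k lab) l.toFinset ↔ w ∈ ({w1, w2} : Finset Mt) := by
    intro w
    rw [Finset.mem_insert, Finset.mem_singleton]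
    constructor
    · rintro ⟨hw, hm⟩
      by_contra hc
      have c1 : w1 ≠ w := fun e => hc (Or.inl e.symm)
      have c2 : w2 ≠ w := fun e => hc (Or.inr e.symm)
      have h1 := (g5_ins hm hw1 hw2 (by simp [c2, hw2']) hne.symm hlab.symm).card_le
      rw [Finset.card_insert_of_notMem (by simp [c1, hw1']), Finset.card_insert_of_notMem hw,
        h8, h.card] at h1
      omega
    · rintro (rfl | rfl)
      · exact ⟨hw1', m1⟩
      · exact ⟨hw2', m2⟩
  have n1 : w1 ∉ l := fun e => hw1' (List.mem_toFinset.2 e)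
  have n2 : w2 ∉ l := fun e => hw2' (List.mem_toFinset.2 e)
  have e1 := (osg_eq h (List.nodup_cons.2 ⟨n1, hl⟩) (by rw [List.length_cons, hlen])
    (by rwa [List.toFinset_cons]) hw2 (by simp [hne.symm, n2])).1
  have e2 := (osg_eq h (List.nodup_cons.2 ⟨n2, hl⟩) (by rw [List.length_cons, hlen])
    (by rwa [List.toFinset_cons]) hw1 (by simp [hne, n1])).1
  have e3 : vol (w2 :: w1 :: l) = -vol (w1 :: w2 :: l) := vol_swap [] w2 w1 l
  rw [del_br hl hW, Finset.sum_pair hne, map_add, e1, e2, e3, Int.sign_neg, Int.cast_neg,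
    neg_add_cancel]

theorem osg_ga (g : GLz 4) {q : Mt} (hq : Vert q) {x : Ch Mt}
    (hx : x ∈ Sup fun S => (S : Set Mt) ⊆ Mn q) :
    osg (va g q) (ga g x) = dt g * osg q x := by
  obtain ⟨M, k, lab, hL⟩ := exists_loc hq
  have hM : ((M.image (cj g) : Finset Mt) : Set Mt) = Mn (va g q) := by
    ext A
    rw [va, mem_Mn_pb, ← hL.mn, Finset.mem_coe, Finset.mem_coe, Finset.mem_image]
    constructor
    · rintro ⟨B, hB, rfl⟩
      rwa [cj_linv]
    · intro hA
      exact ⟨_, hA, cj_rinv g A⟩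
  have hB : ∑ᶠ A ∈ Mn (va g q), A = cj g (∑ᶠ A ∈ Mn q, A) := by
    rw [g5_fsum hM, g5_fsum hL.mn, Finset.sum_image fun a _ b _ e => cj_inj g e]
    simp only [cj, Finset.mul_sum, Finset.sum_mul]
  have hs : (∑ᶠ A ∈ Mn q, A).IsSymm := by
    rw [g5_fsum hL.mn, Matrix.IsSymm, Matrix.transpose_sum]
    exact Finset.sum_congr rfl fun A hA => mn_symm (hL.mn ▸ Finset.mem_coe.2 hA)
  refine Sup_ind_br (Q := fun x => osg (va g q) (ga g x) = dt g * osg q x) (by simp)
    (fun x y hx hy => by rw [map_add, map_add, hx, hy, map_add, mul_add])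
    (fun c x hx => by rw [map_smul, map_smul, hx, map_smul, smul_eq_mul, smul_eq_mul,
      mul_left_comm]) ?_ hx
  intro l _ hl
  rw [ga, act_br, osg_br, osg_br, hB, ← List.map_cons, vol_cj, Int.sign_mul, Int.cast_mul]
  · congr 1
    rcases dt_pm g with e | e
    · have e' : (g : Mt).det = 1 := by exact_mod_cast (show (((g : Mt).det : ℤ) : ℚ) = 1 from e)
      rw [e, e']
      norm_num
    · have e' : (g : Mt).det = -1 := by
        exact_mod_cast (show (((g : Mt).det : ℤ) : ℚ) = -1 from e)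
      rw [e, e']
      norm_num
  · intro A hA
    rcases List.mem_cons.1 hA with rfl | hA
    · exact hs
    · exact mn_symm (hl (Finset.mem_coe.2 (List.mem_toFinset.2 hA)))

end Pool.Agent.MP_cbe134_nt.V
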