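import Pool.Agent.MP_cbe134_nt.VG5

/- The boundary map from facets to perfect forms. -/

open Matrix Finsupp

namespace Pool.Agent.MP_cbe134_nt.V

open Classical in
theorem dd_single {S : Finset Mt} (hS : Spans S) (q : Mt) :
    dd (single S 1) q = if Vert q ∧ (S : Set Mt) ⊆ Mn q then osg q (single S 1) else 0 := by
  rw [dd, linearCombination_single, one_smul, finsum_mem_eq_finite_toFinset_sum _ (vert_fin hS),
    Finsupp.finsetSum_apply]
  simp only [Finsupp.single_apply, Finset.sum_ite_eq', Set.Finite.mem_toFinset,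
    Set.mem_ofPred_eq]

theorem dd_in {q : Mt} (hq : Vert q) {x : Ch Mt}
    (hx : x ∈ Sup fun S => Spans S ∧ (S : Set Mt) ⊆ Mn q) : dd x q = osg q x := by
  refine Sup_ind (Q := fun x => dd x q = osg q x) (by simp) (fun x y h1 h2 => ?_)
    (fun c x h1 => ?_) (fun S hS => ?_) hx
  · rw [map_add, map_add, Finsupp.add_apply, h1, h2]
  · rw [map_smul, map_smul, Finsupp.smul_apply, h1]
  · rw [dd_single hS.1, if_pos ⟨hq, hS.2⟩]

theorem dd_out {q : Mt} {x : Ch Mt}
    (hx : x ∈ Sup fun S => Spans S ∧ ¬ (S : Set Mt) ⊆ Mn q) : dd x q = 0 := by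
  refine Sup_ind (Q := fun x => dd x q = 0) (by simp) (fun x y h1 h2 => ?_)
    (fun c x h1 => ?_) (fun S hS => ?_) hx
  · rw [map_add, Finsupp.add_apply, h1, h2, add_zero]
  · rw [map_smul, Finsupp.smul_apply, h1, smul_zero]
  · rw [dd_single hS.1, if_neg fun h => hS.2 h.2]

theorem g6_nv {q : Mt} (hq : ¬ Vert q) {x : Ch Mt} (hx : x ∈ Sup Spans) : dd x q = 0 := by
  refine Sup_ind (Q := fun x => dd x q = 0) (by simp) (fun x y h1 h2 => ?_)
    (fun c x h1 => ?_) (fun S hS => ?_) hx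
  · rw [map_add, Finsupp.add_apply, h1, h2, add_zero]
  · rw [map_smul, Finsupp.smul_apply, h1, smul_zero]
  · rw [dd_single hS, if_neg fun h => hq h.1]

theorem dd_mem {x : Ch Mt} (hx : x ∈ Wc 9) : dd x ∈ supported ℚ ℚ {q | Vert q} := by
  exact (mem_supported' ℚ _).2 fun q hq => g6_nv hq (Wc_le_spans (by norm_num) hx)

theorem dd_ga (g : GLz 4) {x : Ch Mt} (hx : x ∈ Wc 9) :
    dd (ga g x) = dt g • mapDomain (va g) (dd x) := by
  refine Sup_ind (Q := fun x => dd (ga g x) = dt g • mapDomain (va g) (dd x)) (by simp)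
    (fun x y h1 h2 => ?_) (fun c x h1 => ?_) (fun S hS => ?_) hx
  · rw [map_add, map_add, map_add, h1, h2, mapDomain_add, smul_add]
  · rw [map_smul, map_smul, map_smul, h1, mapDomain_smul, smul_comm]
  · have hS' : Spans S := hS.1.spans (by rw [hS.2]; norm_num)
    have hl : ∀ q, pb g (va g q) = q := fun q => by
      rw [va, ← pb_mul, Units.inv_mul, pb_one]
    ext q
    obtain ⟨q, rfl⟩ : ∃ q0, q = va g q0 :=
      ⟨va g⁻¹ q, by rw [← va_mul, mul_inv_cancel, va_one]⟩
    rw [Finsupp.smul_apply, mapDomain_apply (Function.LeftInverse.injective hl), smul_eq_mul,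
      dd_single hS']
    split_ifs with h
    · rw [← osg_ga g h.1 (single_mem_Sup h.2 1)]
      refine dd_in (va_vert g h.1) (act_mem_Sup (cj_inj g) (p := fun T => T = S) ?_
        (single_mem_Sup (p := fun T => T = S) rfl 1))
      rintro T rfl
      exact ⟨(spans_image g T).2 hS', by rw [image_sub_mn, hl]; exact h.2⟩
    · rw [mul_zero]
      by_cases hq : Vert q
      · refine dd_out (act_mem_Sup (cj_inj g) (p := fun T => T = S) ?_
          (single_mem_Sup (p := fun T => T = S) rfl 1))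
        rintro T rfl
        exact ⟨(spans_image g T).2 hS', by rw [image_sub_mn, hl]; exact fun h' => h ⟨hq, h'⟩⟩
      · exact g6_nv (fun h' => hq (hl q ▸ h'.pb g)) (stb_Spans g trivial _ (single_mem_Sup hS' 1))

theorem dd_del {x : Ch Mt} (hx : x ∈ Wc 8) : dd (del Cell x) = 0 := by
  refine Sup_ind (Q := fun x => dd (del Cell x) = 0) (by simp)
    (fun x y h1 h2 => ?_) (fun c x h1 => ?_) (fun S hS => ?_) hx
  · rw [map_add, map_add, h1, h2, add_zero]
  · rw [map_smul, map_smul, h1, smul_zero]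
  · have hS' : Spans S := hS.1.spans (by rw [hS.2]; norm_num)
    have h1 : single S (1 : ℚ) ∈ Sup fun T => T = S :=
      single_mem_Sup (p := fun T => T = S) rfl 1
    have h2 : ∀ w, Spans (insert w S) := fun w => hS'.mono (Finset.subset_insert w S)
    ext q
    rw [Finsupp.zero_apply]
    by_cases hq : Vert q
    swap
    · exact g6_nv hq (del_mem_spans (single_mem_Sup hS' 1))
    by_cases h : (S : Set Mt) ⊆ Mn q
    swap
    · refine dd_out (del_mem_Sup (by rintro T rfl; exact ext_fin hS') ?_ h1)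
      rintro T w rfl -
      exact ⟨h2 w, fun h' => h ((Finset.coe_subset.2 (Finset.subset_insert w T)).trans h')⟩
    obtain ⟨M, k, lab, hL⟩ := exists_loc hq
    have h3 : ∀ T : Finset Mt, (T : Set Mt) ⊆ Mn q ↔ T ⊆ M := fun T => by
      rw [← hL.mn, Finset.coe_subset]
    have h4 : dd (del Cell (single S 1) - del (Miss M k lab) (single S 1)) q = 0 := by
      refine dd_out (del_sub_del (by rintro T rfl; exact ext_fin hS') ?_ ?_ h1)
      · rintro T rfl w hw
        exact ⟨hw.1, (hL.cell_iff hq hw.2.1).2 hw.2⟩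
      · rintro T w rfl hw hw'
        exact ⟨h2 w, fun h' => hw' ⟨hw.1, (hL.cell_iff hq ((h3 _).1 h')).1 hw.2⟩⟩
    rw [map_sub, Finsupp.sub_apply, sub_eq_zero] at h4
    rw [h4, ← osg_del hL (single_mem_Sup ⟨(hL.cell_iff hq ((h3 S).1 h)).1 hS.1, hS.2⟩ 1)]
    refine dd_in hq (del_mem_Sup (fun T _ => ext_Miss_fin M k lab T) ?_ h1)
    rintro T w rfl hw
    exact ⟨h2 w, (h3 _).2 hw.2.1⟩

theorem dd_edge {q q' : Mt} (hq : Vert q) (hq' : Vert q') (hne : q ≠ q') {S : Finset Mt}
    (h9 : S.card = 9) (h : (S : Set Mt) ⊆ Mn q) (h' : (S : Set Mt) ⊆ Mn q') :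
    dd (single S 1) = osg q (single S 1) • (single q 1 - single q' 1) := by
  have hc : Cell S := ⟨q, q', hq, hq', hne, h, h'⟩
  have h1 := osg_opp hq hq' hne h9 h h'
  ext r
  rw [dd_single (hc.spans (by rw [h9]; norm_num)), Finsupp.smul_apply, Finsupp.sub_apply,
    smul_eq_mul]
  by_cases e : r = q
  · subst e
    rw [if_pos ⟨hq, h⟩, single_eq_same, single_eq_of_ne hne, sub_zero, mul_one]
  by_cases e' : r = q'
  · subst e'
    rw [if_pos ⟨hq', h'⟩, single_eq_same, single_eq_of_ne e, h1, zero_sub, mul_neg, mul_one]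
  rw [single_eq_of_ne e, single_eq_of_ne e', sub_zero, mul_zero, if_neg]
  rintro ⟨hr, hr'⟩
  have h2 := osg_opp hr hq e h9 hr' h
  have h3 := osg_opp hr hq' e' h9 hr' h'
  have h4 := osg_sq hq hc h9 h
  have h5 : osg q (single S 1) = 0 := by linarith
  rw [h5, mul_zero] at h4
  exact zero_ne_one h4

theorem dd_aug {x : Ch Mt} (hx : x ∈ Wc 9) : ((dd x).sum fun _ c => c) = 0 := by
  have h1 : ∀ y : Mt →₀ ℚ, (y.sum fun _ c => c) =
      linearCombination ℚ (fun _ : Mt => (1 : ℚ)) y := fun y => by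
    simp [linearCombination_apply]
  rw [h1]
  refine Sup_ind (Q := fun x => linearCombination ℚ (fun _ : Mt => (1 : ℚ)) (dd x) = 0) (by simp)
    (fun x y h1 h2 => ?_) (fun c x h1 => ?_) (fun S hS => ?_) hx
  · rw [map_add, map_add, h1, h2, add_zero]
  · rw [map_smul, map_smul, h1, smul_zero]
  · obtain ⟨⟨q, q', hq, hq', hne, h, h'⟩, h9⟩ := hS
    rw [dd_edge hq hq' hne h9 h h', map_smul, map_sub, linearCombination_single,
      linearCombination_single, sub_self, smul_zero]

end Pool.Agent.MP_cbe134_nt.V
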