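import Pool.Agent.MP_cbe134_nt.VG6

/- Descending cells and connectivity. -/

open Matrix Finsupp

namespace Pool.Agent.MP_cbe134_nt.V

section aux

variable {ℓ : Mt →+ ℝ} {q : Mt} {M : Finset Mt} {k : ℕ} {lab : Mt → ℕ} {lam : Mt → ℝ}

theorem g7_mem (h : Loc q M k lab) {A : Mt} (hA : A ∈ M) : A ∈ Mn q := by
  rw [← h.mn]
  exact hA

theorem g7_fib (h : Loc q M k lab) (f : Mt → ℝ) :
    ∑ A ∈ M, f A = ∑ i ∈ Finset.range k, ∑ A ∈ M.filter (fun A => lab A = i), f A :=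
  (Finset.sum_fiberwise_of_maps_to (fun A hA => Finset.mem_range.2 (h.lab_lt A hA)) f).symm

theorem g7_nonneg (h : Loc q M k lab) {q' : Mt} (hq' : Vert q') {A : Mt} (hA : A ∈ M) :
    (0 : ℝ) ≤ pr (q' - q) A := by
  have h1 := hq'.two_le_mn (g7_mem h hA)
  have h2 := (g7_mem h hA).2
  have : 0 ≤ pr (q' - q) A := by rw [pr_sub]; omega
  exact_mod_cast this

theorem g7_frame (h : Loc q M k lab) (hq : Vert q) {q' : Mt} (hq' : Vert q') (hne : q' ≠ q) :
    ∃ H : ℝ, 0 < H ∧ ∀ m : ℕ → ℝ,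
      ∑ A ∈ M, m (lab A) * (pr (q' - q) A : ℝ) = H * ∑ i ∈ Finset.range k, m i := by
  obtain ⟨H, hH, hs⟩ := h.frame_pos hq hq' hne
  refine ⟨H, by exact_mod_cast hH, fun m => ?_⟩
  rw [g7_fib h, Finset.mul_sum]
  refine Finset.sum_congr rfl fun i hi => ?_
  rw [← hs i (Finset.mem_range.1 hi), Int.cast_sum, Finset.sum_mul]
  refine Finset.sum_congr rfl fun A hA => ?_
  rw [(Finset.mem_filter.1 hA).2, mul_comm]

theorem g7_up (h : Loc q M k lab) (hq : Vert q)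
    (hlam : ∀ h : Mt, h.IsSymm → ℓ h = ∑ A ∈ M, lam A * (pr h A : ℝ)) {q' : Mt} (hq' : Vert q')
    (m : ℕ → ℝ) (hm : ∑ i ∈ Finset.range k, m i ≤ 0)
    (hA : ∀ A ∈ M, A ∉ Mn q' → lam A ≤ m (lab A)) : ℓ q' ≤ ℓ q := by
  by_cases hne : q' = q
  · rw [hne]
  obtain ⟨H, hH, hs⟩ := g7_frame h hq hq' hne
  rw [← sub_nonpos, ← map_sub, hlam _ (hq'.symm.sub hq.symm)]
  refine le_trans (Finset.sum_le_sum fun A hA' => ?_) ((hs m).le.trans
    (mul_nonpos_of_nonneg_of_nonpos hH.le hm))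
  by_cases h1 : A ∈ Mn q'
  · rw [pr_sub, h1.2, (g7_mem h hA').2]
    simp
  · exact mul_le_mul_of_nonneg_right (hA A hA' h1) (g7_nonneg h hq' hA')

theorem g7_low (h : Loc q M k lab) (hq : Vert q)
    (hlam : ∀ h : Mt, h.IsSymm → ℓ h = ∑ A ∈ M, lam A * (pr h A : ℝ)) {q' : Mt} (hq' : Vert q')
    (m : ℕ → ℝ) (hm : 0 ≤ ∑ i ∈ Finset.range k, m i)
    (hA : ∀ A ∈ M, m (lab A) ≤ lam A) : ℓ q ≤ ℓ q' := by
  by_cases hne : q' = q
  · rw [hne]
  obtain ⟨H, hH, hs⟩ := g7_frame h hq hq' hne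
  rw [← sub_nonneg, ← map_sub, hlam _ (hq'.symm.sub hq.symm)]
  refine le_trans ((mul_nonneg hH.le hm).trans (hs m).ge) (Finset.sum_le_sum fun A hA' => ?_)
  exact mul_le_mul_of_nonneg_right (hA A hA') (g7_nonneg h hq' hA')

theorem g7_nbr (h : Loc q M k lab) (hq : Vert q)
    (hlam : ∀ h : Mt, h.IsSymm → ℓ h = ∑ A ∈ M, lam A * (pr h A : ℝ)) {t : ℕ → Mt}
    (ht : ∀ i < k, t i ∈ M ∧ lab (t i) = i) : ∃ q', Vert q' ∧
      (∀ A ∈ M, t (lab A) ≠ A → A ∈ Mn q') ∧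
      (ℓ q' ≤ ℓ q → ∑ i ∈ Finset.range k, lam (t i) ≤ 0) := by
  obtain ⟨q', hq', c, hc, hp⟩ := h.nbr t ht
  refine ⟨q', hq', fun A hA hne => ⟨(g7_mem h hA).1, by rw [hp A hA, if_neg hne]⟩, fun hle => ?_⟩
  rw [← sub_nonpos, ← map_sub, hlam _ (hq'.symm.sub hq.symm), g7_fib h] at hle
  have e : ∀ i ∈ Finset.range k, ∑ A ∈ M.filter (fun A => lab A = i),
      lam A * (pr (q' - q) A : ℝ) = c * lam (t i) := by
    intro i hi
    obtain ⟨h1, h2⟩ := ht i (Finset.mem_range.1 hi)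
    rw [Finset.sum_eq_single_of_mem (t i) (Finset.mem_filter.2 ⟨h1, h2⟩)]
    · rw [pr_sub, hp _ h1, h2, if_pos rfl, (g7_mem h h1).2]
      push_cast
      ring
    · intro A hA hne
      obtain ⟨h3, h4⟩ := Finset.mem_filter.1 hA
      rw [pr_sub, hp _ h3, h4, if_neg hne.symm, (g7_mem h h3).2]
      simp
  rw [Finset.sum_congr rfl e, ← Finset.mul_sum] at hle
  have hc' : (0 : ℝ) < c := by exact_mod_cast hc
  by_contra h0
  exact absurd hle (not_le.2 (mul_pos hc' (not_le.1 h0)))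

end aux

theorem top_erase {ℓ : Mt →+ ℝ} (hℓ : Ht ℓ) {q : Mt} (hq : Vert q) {M : Finset Mt} {k : ℕ}
    {lab : Mt → ℕ} (h : Loc q M k lab) : ∃ u : ℕ → Mt, (∀ i < k, u i ∈ M ∧ lab (u i) = i) ∧
      (∀ S, Cell S → Top ℓ q S → ∀ i < k, Top ℓ q (S.erase (u i))) ∧
      ((∃ S, Cell S ∧ S.card = 9 ∧ Top ℓ q S) ∨ ∀ q', Vert q' → ℓ q ≤ ℓ q') := by
  obtain ⟨lam, hlam⟩ := hℓ.wts M h.perf
  have hu : ∀ i, ∃ A, i < k → (A ∈ M ∧ lab A = i) ∧ ∀ B ∈ M, lab B = i → lam A ≤ lam B := by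
    intro i
    by_cases hi : i < k
    · obtain ⟨A, hA, hA'⟩ := h.ne i hi
      obtain ⟨B, hB, hB'⟩ := Finset.exists_min_image (M.filter fun A => lab A = i) lam
        ⟨A, Finset.mem_filter.2 ⟨hA, hA'⟩⟩
      exact ⟨B, fun _ => ⟨Finset.mem_filter.1 hB,
        fun C hC hC' => hB' C (Finset.mem_filter.2 ⟨hC, hC'⟩)⟩⟩
    · exact ⟨0, fun h => absurd h hi⟩
  choose u hu using hu
  refine ⟨u, fun i hi => (hu i hi).1, fun S hS hT i hi => ?_, ?_⟩
  · have hSM : S ⊆ M := fun A hA => by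
      have := hT.2.1 hA
      rwa [← h.mn] at this
    have hmiss := ((h.cell_iff hq hSM).1 hS).2
    have ht : ∀ j, ∃ A, j < k → (A ∈ M ∧ lab A = j) ∧ A ∉ S ∧
        ∀ B ∈ M, lab B = j → B ∉ S → lam B ≤ lam A := by
      intro j
      by_cases hj : j < k
      · obtain ⟨A, hA, hA', hA''⟩ := hmiss j hj
        obtain ⟨B, hB, hB'⟩ := Finset.exists_max_image (M.filter fun A => lab A = j ∧ A ∉ S) lam
          ⟨A, Finset.mem_filter.2 ⟨hA, hA', hA''⟩⟩
        obtain ⟨h1, h2, h3⟩ := Finset.mem_filter.1 hB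
        exact ⟨B, fun _ => ⟨⟨h1, h2⟩, h3,
          fun C hC hC' hC'' => hB' C (Finset.mem_filter.2 ⟨hC, hC', hC''⟩)⟩⟩
      · exact ⟨0, fun h => absurd h hj⟩
    choose t ht using ht
    obtain ⟨q', hq', h1, h2⟩ := g7_nbr h hq hlam fun j hj => (ht j hj).1
    have h3 := h2 (hT.2.2 q' hq' fun A hA => h1 A (hSM hA) fun e =>
      (ht _ (h.lab_lt A (hSM hA))).2.1 (by rw [e]; exact hA))
    refine ⟨hq, fun A hA => hT.2.1 (Finset.mem_of_mem_erase hA), fun p hp hSp => ?_⟩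
    refine g7_up h hq hlam hp _ h3 fun A hA hA' => ?_
    by_cases hAS : A ∈ S
    · have e : A = u i := by
        by_contra e
        exact hA' (hSp (Finset.mem_erase.2 ⟨e, hAS⟩))
      rw [e, (hu i hi).1.2]
      exact (hu i hi).2 _ (ht i hi).1.1 (ht i hi).1.2
    · exact (ht _ (h.lab_lt A hA)).2.2 A hA rfl hAS
  · rcases le_total (∑ i ∈ Finset.range k, lam (u i)) 0 with h0 | h0
    · left
      have hsub : M.filter (fun A => ¬ u (lab A) = A) ⊆ M := Finset.filter_subset _ _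
      refine ⟨M.filter fun A => ¬ u (lab A) = A, (h.cell_iff hq hsub).2 ⟨hsub, fun i hi =>
        ⟨u i, (hu i hi).1.1, (hu i hi).1.2, fun hm => (Finset.mem_filter.1 hm).2
          (by rw [(hu i hi).1.2])⟩⟩, ?_, hq, fun A hA => g7_mem h (hsub hA), fun p hp hSp => ?_⟩
      · have e : (M.filter fun A => u (lab A) = A).card = k := by
          rw [← Finset.card_range k]
          refine Finset.card_nbij' lab u (fun A hA => ?_) (fun i hi => ?_) (fun A hA => ?_)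
            fun i hi => ?_
          · exact Finset.mem_range.2 (h.lab_lt A (Finset.mem_filter.1 hA).1)
          · have := (hu i (Finset.mem_range.1 hi)).1
            exact Finset.mem_filter.2 ⟨this.1, by rw [this.2]⟩
          · exact (Finset.mem_filter.1 hA).2
          · exact (hu i (Finset.mem_range.1 hi)).1.2
        have := Finset.card_filter_add_card_filter_not (s := M) fun A => u (lab A) = A
        have h9 := h.card
        omega
      · refine g7_up h hq hlam hp _ h0 fun A hA hA' => ?_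
        have e : u (lab A) = A := by
          by_contra e
          exact hA' (hSp (Finset.mem_filter.2 ⟨hA, e⟩))
        rw [e]
    · right
      exact fun p hp => g7_low h hq hlam hp _ h0 fun A hA => (hu _ (h.lab_lt A hA)).2 A hA rfl

theorem ex10 {q q' : Mt} (hq : Vert q) (hq' : Vert q') :
    ∃ x ∈ Wc 9, dd x = single q 1 - single q' 1 := by
  obtain ⟨ℓ, hℓ⟩ := exists_ht
  obtain ⟨q0, hq0, hmin⟩ : ∃ q0, Vert q0 ∧ ∀ p, Vert p → ℓ q0 ≤ ℓ p := by
    obtain ⟨q0, h1, h2⟩ := Set.exists_min_image _ ℓ (hℓ.fin (ℓ q)) ⟨q, hq, le_rfl⟩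
    refine ⟨q0, h1.1, fun p hp => ?_⟩
    rcases le_total (ℓ p) (ℓ q) with h3 | h3
    · exact h2 p ⟨hp, h3⟩
    · exact h1.2.trans h3
  have hfin : ∀ p : Mt, {r | Vert r ∧ ℓ r < ℓ p}.Finite :=
    fun p => (hℓ.fin (ℓ p)).subset fun r hr => ⟨hr.1, hr.2.le⟩
  have key : ∀ n, ∀ p, Vert p → {r | Vert r ∧ ℓ r < ℓ p}.ncard = n →
      single p (1 : ℚ) - single q0 1 ∈ (Wc 9).map dd := by
    intro n
    induction n using Nat.strong_induction_on with
    | _ n ih =>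
      intro p hp hn
      obtain ⟨M, k, lab, hl⟩ := exists_loc hp
      obtain ⟨u, -, -, ⟨S, hS, h9, hT⟩ | h3⟩ := top_erase hℓ hp hl
      · obtain ⟨r, hr, hne, hSr⟩ : ∃ r, Vert r ∧ p ≠ r ∧ (S : Set Mt) ⊆ Mn r := by
          obtain ⟨a, b, ha, hb, hab, hSa, hSb⟩ := hS
          by_cases e : p = a
          · exact ⟨b, hb, e ▸ hab, hSb⟩
          · exact ⟨a, ha, e, hSa⟩
        have hlt : ℓ r < ℓ p := lt_of_le_of_ne (hT.2.2 r hr hSr)
          fun e => hne (hℓ.eq_of_eq hr hp e).symm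
        have h1 := ih _ (hn ▸ Set.ncard_lt_ncard ⟨fun s hs => ⟨hs.1, hs.2.trans hlt⟩,
          fun hs => lt_irrefl _ (hs ⟨hr, hlt⟩).2⟩ (hfin p)) r hr rfl
        have h2 : single p (1 : ℚ) - single r 1 ∈ (Wc 9).map dd := by
          refine ⟨osg p (single S 1) • single S 1, Submodule.smul_mem _ _
            (single_mem_supported _ _ ⟨hS, h9⟩), ?_⟩
          rw [map_smul, dd_edge hp hr hne h9 hT.2.1 hSr, smul_smul, osg_sq hp hS h9 hT.2.1,
            one_smul]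
        simpa using add_mem h2 h1
      · rw [hℓ.eq_of_eq hp hq0 (le_antisymm (h3 q0 hq0) (hmin p hp)), sub_self]
        exact zero_mem _
  have h := Submodule.sub_mem _ (key _ q hq rfl) (key _ q' hq' rfl)
  rwa [sub_sub_sub_cancel_right] at h

end Pool.Agent.MP_cbe134_nt.V
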