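import Pool.Agent.MP_cbe134_nt.VD3

/- Oriented chains: exterior multiplication, contraction, induced maps, inner product. -/

namespace Pool.Agent.MP_cbe134_nt.V

open Finsupp

variable {α : Type} [DecidableEq α] {E : Type} [AddCommGroup E] [Module ℚ E]

theorem sg_sq (a : α) (S : Finset α) : sg a S * sg a S = 1 := by
  unfold sg
  rw [← pow_add, ← two_mul, pow_mul]
  simp

open Classical in
/-- the sign of a pair -/
noncomputable def h1_e (a b : α) : ℚ := if WellOrderingRel a b then -1 else 1

omit [DecidableEq α] in
theorem h1_e_self (a : α) : h1_e a a = 1 := if_neg (irrefl_of WellOrderingRel a)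

omit [DecidableEq α] in
theorem h1_e_sq (a b : α) : h1_e a b * h1_e a b = 1 := by
  unfold h1_e
  split_ifs <;> norm_num

omit [DecidableEq α] in
theorem h1_e_swap {a b : α} (h : a ≠ b) : h1_e b a = -h1_e a b := by
  unfold h1_e
  rcases trichotomous_of WellOrderingRel a b with h1 | h1 | h1
  · rw [if_pos h1, if_neg (asymm_of WellOrderingRel h1), neg_neg]
  · exact absurd h1 h
  · rw [if_pos h1, if_neg (asymm_of WellOrderingRel h1)]

theorem h1_sg_insert {a : α} {S : Finset α} (h : a ∉ S) (b : α) :
    sg b (insert a S) = sg b S * h1_e a b := by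
  classical
  unfold sg h1_e
  rw [Finset.filter_insert]
  split_ifs with h1
  · rw [Finset.card_insert_of_notMem fun h2 => h (Finset.mem_filter.1 h2).1, pow_succ]
  · rw [mul_one]

theorem h1_sg_erase {a : α} {S : Finset α} (h : a ∈ S) (b : α) :
    sg b (S.erase a) = sg b S * h1_e a b := by
  have h1 := h1_sg_insert (Finset.notMem_erase a S) b
  rw [Finset.insert_erase h] at h1
  rw [h1, mul_assoc, h1_e_sq, mul_one]

theorem wg_single (a : α) (S : Finset α) (c : ℚ) :
    wg a (single S c) = if a ∈ S then 0 else single (insert a S) (c * sg a S) := by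
  rw [wg, linearCombination_single, smul_ite, smul_zero, smul_single, smul_eq_mul]

theorem io_single (a : α) (S : Finset α) (c : ℚ) :
    io a (single S c) = if a ∈ S then single (S.erase a) (c * sg a S) else 0 := by
  rw [io, linearCombination_single, smul_ite, smul_zero, smul_single, smul_eq_mul]

theorem h1_wg_self (a : α) (x : Ch α) : wg a (wg a x) = 0 := by
  induction x using Finsupp.induction_linear with
  | zero => rw [map_zero, map_zero]
  | add x y hx hy => rw [map_add, map_add, hx, hy, add_zero]
  | single S c =>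
    rw [wg_single]
    split_ifs
    · exact map_zero _
    · rw [wg_single, if_pos (Finset.mem_insert_self a S)]

theorem wg_wg (a b : α) (x : Ch α) : wg a (wg b x) = -wg b (wg a x) := by
  by_cases hab : a = b
  · subst hab
    rw [h1_wg_self, neg_zero]
  induction x using Finsupp.induction_linear with
  | zero => simp only [map_zero, neg_zero]
  | add x y hx hy => simp only [map_add, hx, hy, neg_add]
  | single S c =>
    rw [wg_single, wg_single]
    by_cases ha : a ∈ S <;> by_cases hb : b ∈ S
    · rw [if_pos ha, if_pos hb, map_zero, map_zero, neg_zero]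
    · rw [if_pos ha, if_neg hb, wg_single, if_pos (Finset.mem_insert_of_mem ha), map_zero,
        neg_zero]
    · rw [if_neg ha, if_pos hb, wg_single, if_pos (Finset.mem_insert_of_mem hb), map_zero,
        neg_zero]
    · rw [if_neg ha, if_neg hb, wg_single, wg_single,
        if_neg (by simp [hab, ha]), if_neg (by simp [Ne.symm hab, hb]), h1_sg_insert ha,
        h1_sg_insert hb, h1_e_swap hab, Finset.insert_comm, ← single_neg]
      congr 1
      ring

theorem wg_self (a : α) (x : Ch α) : wg a (wg a x) = 0 := by
  exact h1_wg_self a x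

theorem io_wg (a b : α) (x : Ch α) :
    io a (wg b x) = (if a = b then x else 0) - wg b (io a x) := by
  induction x using Finsupp.induction_linear with
  | zero => simp only [map_zero, ite_self, sub_zero]
  | add x y hx hy =>
    simp only [map_add, hx, hy]
    split_ifs <;> abel
  | single S c =>
    rw [wg_single, io_single]
    by_cases hab : a = b
    · subst hab
      rw [if_pos rfl]
      by_cases ha : a ∈ S
      · rw [if_pos ha, if_pos ha, map_zero, wg_single, if_neg (Finset.notMem_erase a S),
          Finset.insert_erase ha, h1_sg_erase ha, h1_e_self, mul_one, mul_assoc, sg_sq, mul_one,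
          sub_self]
      · rw [if_neg ha, if_neg ha, map_zero, io_single, if_pos (Finset.mem_insert_self a S),
          Finset.erase_insert ha, h1_sg_insert ha, h1_e_self, mul_one, mul_assoc, sg_sq, mul_one,
          sub_zero]
    · rw [if_neg hab, zero_sub]
      by_cases ha : a ∈ S <;> by_cases hb : b ∈ S
      · rw [if_pos ha, if_pos hb, map_zero, wg_single,
          if_pos (Finset.mem_erase.2 ⟨Ne.symm hab, hb⟩), neg_zero]
      · rw [if_pos ha, if_neg hb, io_single, wg_single, if_pos (Finset.mem_insert_of_mem ha),
          if_neg fun h => hb (Finset.mem_of_mem_erase h), h1_sg_insert hb, h1_sg_erase ha,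
          h1_e_swap hab, Finset.erase_insert_of_ne (Ne.symm hab), ← single_neg]
        congr 1
        ring
      · rw [if_neg ha, if_pos hb, map_zero, map_zero, neg_zero]
      · rw [if_neg ha, if_neg hb, io_single, if_neg (by simp [hab, ha]), map_zero, neg_zero]

theorem br_nil : br ([] : List α) = single ∅ 1 := rfl

theorem br_cons (a : α) (l : List α) : br (a :: l) = wg a (br l) := rfl

theorem alt_br : Alt (br : List α → Ch α) := by
  intro l₁ a b l₂
  induction l₁ with
  | nil => exact wg_wg a b _
  | cons c l ih => rw [List.cons_append, List.cons_append, br_cons, br_cons, ih, map_neg]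

omit [DecidableEq α] [Module ℚ E] in
theorem h1_tail {F : List α → E} (hF : Alt F) (a : α) : Alt fun l => F (a :: l) :=
  fun l₁ b c l₂ => hF (a :: l₁) b c l₂

omit [DecidableEq α] in
theorem h1_dup (a : α) (s t : List α) : ∀ {F : List α → E}, Alt F → F (a :: (s ++ a :: t)) = 0 := by
  induction s with
  | nil =>
    intro F hF
    have h1 : (2 : ℚ) • F (a :: a :: t) = 0 := by
      rw [two_smul]
      exact add_eq_zero_iff_eq_neg.2 (hF [] a a t)
    exact (smul_eq_zero.1 h1).resolve_left two_ne_zero
  | cons b s ih =>
    intro F hF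
    exact (hF [] a b (s ++ a :: t)).trans (neg_eq_zero.2 (ih (h1_tail hF b)))

omit [DecidableEq α] in
theorem h1_perm {l l' : List α} (h : l.Perm l') : ∃ ε : ℚ, ε * ε = 1 ∧
    ∀ (E : Type) [AddCommGroup E] [Module ℚ E] (F : List α → E), Alt F → F l = ε • F l' := by
  induction h with
  | nil => exact ⟨1, one_mul _, fun _ _ _ _ _ => (one_smul _ _).symm⟩
  | cons a _ ih =>
    obtain ⟨ε, h1, h2⟩ := ih
    exact ⟨ε, h1, fun E _ _ F hF => h2 E _ (h1_tail hF a)⟩
  | swap a b l => exact ⟨-1, by norm_num, fun _ _ _ F hF => by
      rw [neg_one_smul]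
      exact hF [] b a l⟩
  | trans _ _ ih ih' =>
    obtain ⟨ε, h1, h2⟩ := ih
    obtain ⟨η, h3, h4⟩ := ih'
    exact ⟨ε * η, by rw [mul_mul_mul_comm, h1, h3, one_mul], fun E _ _ F hF => by
      rw [h2 E F hF, h4 E F hF, mul_smul]⟩

theorem Alt.eq_zero {F : List α → E} (hF : Alt F) {l : List α} (h : ¬ l.Nodup) : F l = 0 := by
  induction l generalizing F with
  | nil => exact absurd List.nodup_nil h
  | cons a l ih =>
    by_cases ha : a ∈ l
    · obtain ⟨s, t, rfl⟩ := List.append_of_mem ha
      exact h1_dup a s t hF
    · exact ih (h1_tail hF a) fun h1 => h (List.nodup_cons.2 ⟨ha, h1⟩)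

theorem br_nodup {l : List α} (h : l.Nodup) :
    ∃ ε : ℚ, ε * ε = 1 ∧ br l = single l.toFinset ε := by
  induction l with
  | nil => exact ⟨1, one_mul _, rfl⟩
  | cons a l ih =>
    obtain ⟨h1, h2⟩ := List.nodup_cons.1 h
    obtain ⟨ε, h3, h4⟩ := ih h2
    refine ⟨ε * sg a l.toFinset, by rw [mul_mul_mul_comm, h3, sg_sq, one_mul], ?_⟩
    rw [br_cons, h4, wg_single, if_neg fun h5 => h1 (List.mem_toFinset.1 h5), List.toFinset_cons]

theorem h1_toList (S : Finset α) :
    ∃ ε : ℚ, ε * ε = 1 ∧ br S.toList = single S ε ∧ br S.toList S = ε := by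
  obtain ⟨ε, h1, h2⟩ := br_nodup S.nodup_toList
  rw [Finset.toList_toFinset] at h2
  exact ⟨ε, h1, h2, by rw [h2, single_eq_same]⟩

theorem single_eq_br (S : Finset α) : single S (1 : ℚ) = br S.toList S • br S.toList := by
  obtain ⟨ε, h1, h2, h3⟩ := h1_toList S
  rw [h3, h2, smul_single, smul_eq_mul, h1]

theorem lft_br {F : List α → E} (hF : Alt F) (l : List α) : lft F (br l) = F l := by
  by_cases h : l.Nodup
  · obtain ⟨ε, -, h2⟩ := h1_perm (List.toFinset_toList h).symm
    obtain ⟨η, h3, h4, h5⟩ := h1_toList l.toFinset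
    rw [h2 _ _ alt_br, h2 _ _ hF, map_smul, h4, lft, linearCombination_single, h5, smul_smul η,
      h3, one_smul]
  · rw [alt_br.eq_zero h, hF.eq_zero h, map_zero]

theorem single_mem_Sup {p : Finset α → Prop} {S : Finset α} (h : p S) (c : ℚ) :
    single S c ∈ Sup p := by
  exact single_mem_supported ℚ c h

theorem mem_Sup_iff {p : Finset α → Prop} {x : Ch α} : x ∈ Sup p ↔ ∀ S, x S ≠ 0 → p S := by
  rw [mem_supported]
  exact ⟨fun h S hS => h (mem_support_iff.2 hS), fun h S hS => h S (mem_support_iff.1 hS)⟩

theorem br_mem_Sup {p : Finset α → Prop} {l : List α} (h : l.Nodup → p l.toFinset) :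
    br l ∈ Sup p := by
  by_cases hl : l.Nodup
  · obtain ⟨ε, -, h2⟩ := br_nodup hl
    rw [h2]
    exact single_mem_Sup (h hl) ε
  · rw [alt_br.eq_zero hl]
    exact zero_mem _

theorem Sup_mono {p q : Finset α → Prop} (h : ∀ S, p S → q S) : Sup p ≤ Sup q := by
  exact supported_mono h

theorem Sup_ind {p : Finset α → Prop} {Q : Ch α → Prop} (h0 : Q 0)
    (hadd : ∀ x y, Q x → Q y → Q (x + y)) (hsmul : ∀ (c : ℚ) x, Q x → Q (c • x))
    (hs : ∀ S, p S → Q (single S 1)) {x : Ch α} (hx : x ∈ Sup p) : Q x := by
  rw [Sup, supported_eq_span_single] at hx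
  induction hx using Submodule.span_induction with
  | mem x hx =>
    obtain ⟨S, hS, rfl⟩ := hx
    exact hs S hS
  | zero => exact h0
  | add x y _ _ hx hy => exact hadd x y hx hy
  | smul c x _ hx => exact hsmul c x hx

theorem Sup_ind_br {p : Finset α → Prop} {Q : Ch α → Prop} (h0 : Q 0)
    (hadd : ∀ x y, Q x → Q y → Q (x + y)) (hsmul : ∀ (c : ℚ) x, Q x → Q (c • x))
    (hs : ∀ l : List α, l.Nodup → p l.toFinset → Q (br l)) {x : Ch α} (hx : x ∈ Sup p) :
    Q x := by
  refine Sup_ind h0 hadd hsmul (fun S hS => ?_) hx
  rw [single_eq_br]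
  exact hsmul _ _ (hs _ S.nodup_toList (by rwa [Finset.toList_toFinset]))

theorem lin_ext {f g : Ch α →ₗ[ℚ] E} (h : ∀ l : List α, l.Nodup → f (br l) = g (br l)) :
    f = g := by
  refine Finsupp.lhom_ext' fun S => LinearMap.ext_ring ?_
  change f (single S 1) = g (single S 1)
  rw [single_eq_br, map_smul, map_smul, h _ S.nodup_toList]

theorem act_br (f : α → α) (l : List α) : act f (br l) = br (l.map f) := by
  refine lft_br (F := fun l => br (l.map f)) (fun l₁ a b l₂ => ?_) l
  simp only [List.map_append, List.map_cons]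
  exact alt_br _ _ _ _

theorem act_wg (f : α → α) (a : α) (x : Ch α) : act f (wg a x) = wg (f a) (act f x) := by
  refine LinearMap.congr_fun (lin_ext (f := act f ∘ₗ wg a) (g := wg (f a) ∘ₗ act f)
    fun l _ => ?_) x
  rw [LinearMap.comp_apply, LinearMap.comp_apply, ← br_cons, act_br, act_br, List.map_cons, br_cons]

theorem act_act (f g : α → α) (x : Ch α) : act f (act g x) = act (f ∘ g) x := by
  refine LinearMap.congr_fun (lin_ext (f := act f ∘ₗ act g) (g := act (f ∘ g)) fun l _ => ?_) x
  rw [LinearMap.comp_apply, act_br, act_br, act_br, List.map_map]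

theorem act_id (x : Ch α) : act id x = x := by
  refine LinearMap.congr_fun (lin_ext (f := act id) (g := LinearMap.id) fun l _ => ?_) x
  rw [act_br, List.map_id, LinearMap.id_apply]

theorem act_single {f : α → α} (hf : Function.Injective f) (S : Finset α) :
    ∃ ε : ℚ, ε * ε = 1 ∧ act f (single S 1) = single (S.image f) ε := by
  obtain ⟨η, h1, -, h3⟩ := h1_toList S
  obtain ⟨ε, h4, h5⟩ := br_nodup (S.nodup_toList.map hf)
  have e : (S.toList.map f).toFinset = S.image f := by
    ext b
    simp
  refine ⟨η * ε, by rw [mul_mul_mul_comm, h1, h4, one_mul], ?_⟩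
  rw [single_eq_br, map_smul, act_br, h3, h5, e, smul_single, smul_eq_mul]

theorem act_mem_Sup {f : α → α} (hf : Function.Injective f) {p q : Finset α → Prop}
    (h : ∀ S, p S → q (S.image f)) {x : Ch α} (hx : x ∈ Sup p) : act f x ∈ Sup q := by
  refine Sup_ind (Q := fun x => act f x ∈ Sup q) (by rw [map_zero]; exact zero_mem _)
    (fun x y hx hy => by rw [map_add]; exact add_mem hx hy)
    (fun c x hx => by rw [map_smul]; exact Submodule.smul_mem _ c hx) (fun S hS => ?_) hx
  obtain ⟨ε, -, h1⟩ := act_single hf S
  rw [h1]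
  exact single_mem_Sup (h S hS) ε

theorem ip_single (S : Finset α) (c : ℚ) (y : Ch α) : ip (single S c) y = c * y S := by
  rw [ip, linearCombination_single, LinearMap.smul_apply, lapply_apply, smul_eq_mul]

theorem ip_comm (x y : Ch α) : ip x y = ip y x := by
  induction x using Finsupp.induction_linear with
  | zero => rw [map_zero, map_zero, LinearMap.zero_apply]
  | add x z hx hz => rw [map_add, map_add, LinearMap.add_apply, hx, hz]
  | single S c =>
    induction y using Finsupp.induction_linear with
    | zero => rw [map_zero, map_zero, LinearMap.zero_apply]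
    | add y z hy hz => rw [map_add, map_add, LinearMap.add_apply, hy, hz]
    | single T d =>
      rw [ip_single, ip_single]
      by_cases h : S = T
      · rw [h, single_eq_same, single_eq_same, mul_comm]
      · rw [single_eq_of_ne h, single_eq_of_ne (Ne.symm h), mul_zero, mul_zero]

theorem ip_wg (a : α) (x y : Ch α) : ip (wg a x) y = ip x (io a y) := by
  induction x using Finsupp.induction_linear with
  | zero => simp only [map_zero, LinearMap.zero_apply]
  | add x z hx hz => simp only [map_add, LinearMap.add_apply, hx, hz]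
  | single S c =>
    induction y using Finsupp.induction_linear with
    | zero => simp only [map_zero]
    | add y z hy hz => simp only [map_add, hy, hz]
    | single T d =>
      rw [wg_single, io_single, ip_single]
      by_cases ha : a ∈ S
      · rw [if_pos ha, map_zero, LinearMap.zero_apply]
        split_ifs
        · rw [single_eq_of_ne fun h : S = T.erase a => Finset.notMem_erase a T (h ▸ ha), mul_zero]
        · rw [Finsupp.zero_apply, mul_zero]
      · rw [if_neg ha, ip_single]
        by_cases h : insert a S = T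
        · subst h
          rw [if_pos (Finset.mem_insert_self a S), Finset.erase_insert ha, single_eq_same,
            single_eq_same, h1_sg_insert ha, h1_e_self]
          ring
        · rw [single_eq_of_ne h, mul_zero]
          split_ifs with hT
          · rw [single_eq_of_ne fun h1 => h (by rw [h1, Finset.insert_erase hT]), mul_zero]
          · rw [Finsupp.zero_apply, mul_zero]

theorem h1_io_nil (a : α) : io a (br ([] : List α)) = 0 := by
  rw [br_nil, io_single, if_neg (Finset.notMem_empty a)]

theorem h1_act_nil (f : α → α) : act f (br ([] : List α)) = br [] := act_br f []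

theorem h1_act_io {f g : α → α} (h1 : Function.LeftInverse g f) (h2 : Function.LeftInverse f g)
    (a : α) (y : Ch α) : act g (io (f a) y) = io a (act g y) := by
  refine LinearMap.congr_fun (lin_ext (f := act g ∘ₗ io (f a)) (g := io a ∘ₗ act g)
    fun l hl => ?_) y
  clear hl
  rw [LinearMap.comp_apply, LinearMap.comp_apply]
  induction l with
  | nil => rw [h1_act_nil, h1_io_nil, h1_io_nil, map_zero]
  | cons b l ih =>
    rw [br_cons, act_wg, io_wg, io_wg, map_sub, act_wg, ih, apply_ite (act g), map_zero]
    congr 1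
    exact if_congr ⟨fun h => by rw [← h, h1], fun h => by rw [h, h2]⟩ rfl rfl

theorem h1_ip_nil (g : α → α) (y : Ch α) : ip (act g y) (br []) = ip y (br []) := by
  refine LinearMap.congr_fun (lin_ext (f := ip.flip (br []) ∘ₗ act g) (g := ip.flip (br []))
    fun l _ => ?_) y
  rw [LinearMap.comp_apply, LinearMap.flip_apply, LinearMap.flip_apply]
  cases l with
  | nil => rw [h1_act_nil]
  | cons b l => rw [br_cons, act_wg, ip_wg, ip_wg, h1_io_nil, h1_io_nil, map_zero, map_zero]

theorem ip_act {f g : α → α} (h1 : Function.LeftInverse g f) (h2 : Function.LeftInverse f g)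
    (x y : Ch α) : ip (act f x) y = ip x (act g y) := by
  refine LinearMap.congr_fun (lin_ext (f := ip.flip y ∘ₗ act f) (g := ip.flip (act g y))
    fun l hl => ?_) x
  clear hl
  rw [LinearMap.comp_apply, LinearMap.flip_apply, LinearMap.flip_apply]
  induction l generalizing y with
  | nil => rw [h1_act_nil, ip_comm, ← h1_ip_nil g, ip_comm]
  | cons a l ih => rw [br_cons, act_wg, ip_wg, ip_wg, ih, h1_act_io h1 h2]

theorem h1_bd_single {S T : Finset α} (h : S ⊆ T) (c : ℚ) :
    bd (single S c) = ∑ b ∈ T, io b (single S c) := by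
  rw [bd, linearCombination_single, Finset.smul_sum,
    ← Finset.sum_subset h fun b _ hb => by rw [io_single, if_neg hb]]
  exact Finset.sum_congr rfl fun b _ => by rw [← map_smul, smul_single, smul_eq_mul, mul_one]

theorem h1_bd_wg (a : α) (x : Ch α) : bd (wg a x) = x - wg a (bd x) := by
  induction x using Finsupp.induction_linear with
  | zero => simp only [map_zero, sub_zero]
  | add x y hx hy =>
    simp only [map_add, hx, hy]
    abel
  | single S c =>
    have e : bd (wg a (single S c)) = ∑ b ∈ insert a S, io b (wg a (single S c)) := by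
      rw [wg_single]
      split_ifs
      · simp only [map_zero, Finset.sum_const_zero]
      · exact h1_bd_single subset_rfl _
    rw [e, h1_bd_single (Finset.subset_insert a S), map_sum]
    simp only [io_wg]
    rw [Finset.sum_sub_distrib, Finset.sum_ite_eq', if_pos (Finset.mem_insert_self a S)]

theorem bd_br_nil : bd (br ([] : List α)) = 0 := by
  rw [br_nil, h1_bd_single subset_rfl, Finset.sum_empty]

theorem bd_br_cons (a : α) (l : List α) : bd (br (a :: l)) = br l - wg a (bd (br l)) := by
  exact h1_bd_wg a (br l)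

theorem act_bd (f : α → α) (x : Ch α) : act f (bd x) = bd (act f x) := by
  refine LinearMap.congr_fun (lin_ext (f := act f ∘ₗ bd) (g := bd ∘ₗ act f) fun l hl => ?_) x
  clear hl
  rw [LinearMap.comp_apply, LinearMap.comp_apply]
  induction l with
  | nil => rw [h1_act_nil, bd_br_nil, map_zero]
  | cons a l ih => rw [br_cons, act_wg, h1_bd_wg, h1_bd_wg, map_sub, act_wg, ih]

theorem bd_mem_Sup {p q : Finset α → Prop} (h : ∀ S a, p S → a ∈ S → q (S.erase a))
    {x : Ch α} (hx : x ∈ Sup p) : bd x ∈ Sup q := by
  refine Sup_ind (Q := fun x => bd x ∈ Sup q) (by rw [map_zero]; exact zero_mem _)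
    (fun x y hx hy => by rw [map_add]; exact add_mem hx hy)
    (fun c x hx => by rw [map_smul]; exact Submodule.smul_mem _ c hx) (fun S hS => ?_) hx
  rw [h1_bd_single subset_rfl]
  refine Submodule.sum_mem _ fun a ha => ?_
  rw [io_single, if_pos ha]
  exact single_mem_Sup (h S a hS ha) _

end Pool.Agent.MP_cbe134_nt.V
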