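import Pool.Agent.MP_cbe134_nt.VD4

/- Finite identities checked by evaluation: the dihedral idempotent and the chains. -/

namespace Pool.Agent.MP_cbe134_nt.V

theorem k_idem : chkG (gmul eD eD ++ gsm (-10) eD) = true := by decide +kernel

theorem k_splitY : chkG (gmul (gmul eD shY1) eD ++
    gmul (gmul (gmul (gmul eD [(1, JY)]) shY1) eD) [(1, JYi)] ++ gsm (-20) eD) = true := by
  decide +kernel

theorem k_splitX : chkG (gmul (gmul eD shX1) eD ++
    gmul (gmul (gmul (gmul eD [(1, JX)]) shX1) eD) [(1, JXi)] ++ gsm (-20) eD) = true := by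
  decide +kernel

theorem k_zetaD : chkC (zeta ++ csm (-1) zetaD) = true := by decide +kernel

theorem k_zeta_sh : chkC (opC shY1 zetaD) = true := by decide +kernel

theorem k_zeta_eD : chkC (opC eD zetaD ++ csm (-10) zetaD) = true := by decide +kernel

theorem k_psi_eD : chkC (opC eD psiL ++ csm (-10) psiL) = true := by decide +kernel

theorem k_psi_sh : chkC (opC shX1 psiL) = true := by decide +kernel

theorem k_facets : chkC (opC R5 [(1, e02 :: u0L), (1, e13 :: u0L)]) = true := by decide +kernel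

theorem k_absorb : ∀ p ∈ eD, chkG (gmul eD [p] ++ gsm (-1) eD) = true := by decide +kernel

theorem k_refl : ∀ v ∈ pm minA, ∃ p ∈ eD, p.1 = -1 ∧ (p.2.app v).nrm = v.nrm := by
  decide +kernel

theorem k_det : (∀ p ∈ eD, p.2.det * p.2.det = 1) ∧ (∀ p ∈ shY1, p.2.det * p.2.det = 1) ∧
    (∀ p ∈ shX1, p.2.det * p.2.det = 1) ∧ (∀ p ∈ thc, p.2.det * p.2.det = 1) ∧
    ∀ p ∈ R5, p.2.det = 1 := by decide +kernel

theorem k_thc : ∀ p ∈ thc, p.2.pb qAm = qAm := by decide +kernel

theorem k_R5 : R5 = [(1, M4.one), (1, rM), (1, rM.mul rM), (1, (rM.mul rM).mul rM),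
    (1, ((rM.mul rM).mul rM).mul rM)] ∧ (((rM.mul rM).mul rM).mul rM).mul rM = M4.one ∧
    rM.pb q2m = q1m ∧ rM.pb qAm = qAm := by decide +kernel

theorem k_flip : chkC [(1, k0L.map sigM.app), (1, ef :: tauL)] = true := by decide +kernel

theorem k_m1 : chkG (gmul (gmul eD eps8) R5 ++ gsm (-1) m1) = true := by decide +kernel

theorem k_m2 : chkG (gmul shY1 m1 ++ gsm (-20) (gmul shY1 eD)) = true := by decide +kernel

end Pool.Agent.MP_cbe134_nt.V
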