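import Pool.Agent.MP_cbe134_nt.VD4

/- Finite identities checked by evaluation: the value on the wheel. -/

namespace Pool.Agent.MP_cbe134_nt.V

theorem k_m0 : chkG (gmul eD m0 ++ gsm 10 (gmul eD eps8)) = true := by decide +kernel

end Pool.Agent.MP_cbe134_nt.V
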