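import Pool.Agent.MP_cbe134_nt.VD4

/- Finite identities checked by evaluation: the two stabilisers. -/

namespace Pool.Agent.MP_cbe134_nt.V

theorem k_lenD : GD.length = 1152 := by decide +kernel

theorem k_len33 : G33.length = 144 := by decide +kernel

theorem k_clD : chk V4.code
    (GD.map (fun A => (A.det, A.cp)) ++ clD.map fun p => (-p.1, p.2)) = true := by
  decide +kernel

theorem k_cl33 : chk V4.code
    (G33.map (fun A => (chi33 A, A.cp)) ++ cl33.map fun p => (-p.1, p.2)) = true := by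
  decide +kernel

theorem k_sign33 : ∀ A ∈ G33, chkC [(1, s33.map A.app), (-chi33 A, s33)] = true := by
  decide +kernel

theorem k_swap33 : ∀ A ∈ G33,
    (A.pb q1m = q1m ∧ A.pb q2m = q2m) ∨ (A.pb q1m = q2m ∧ A.pb q2m = q1m) := by
  decide +kernel

theorem k_words : hT.pb q1m = q1m ∧ hR1.pb q1m = q1m ∧ hR2.pb q1m = q1m ∧
    hT.det = 1 ∧ hR1.det = 1 ∧ hR2.det = -1 ∧
    hT.mul ((rM.mul rM).mul rM) = ⟨⟨1, 0, 1, 0⟩, ⟨0, 1, 0, 0⟩, ⟨0, 0, 1, 0⟩, ⟨0, 0, 0, 1⟩⟩ ∧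
    ((hR1.mul ((rM.mul rM).mul rM)).mul hR2).mul ((rM.mul rM).mul rM) =
      ⟨⟨-1, 0, 0, 0⟩, ⟨0, 1, 0, 0⟩, ⟨0, 0, 1, 0⟩, ⟨0, 0, 0, 1⟩⟩ := by
  decide +kernel

end Pool.Agent.MP_cbe134_nt.V
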