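import Pool.Agent.MP_cbe134_nt.VD5

/- Finite identities checked by evaluation: cells around the wheel. -/

namespace Pool.Agent.MP_cbe134_nt.V

theorem k_eps8 : ∀ p ∈ eps8, p.2.pb q33 = q33 ∧ chi33 p.2 = p.1 ∧
    chkC [(1, u0L.map p.2.app), (-p.1, u0L)] = true := by decide +kernel

theorem k_su : ∀ p ∈ su, p.2.pb q33 = q33 ∧ chi33 p.2 = p.1 := by decide +kernel

theorem k_lens : eps8.length = 8 ∧ su.length = 9 := by decide +kernel

theorem k_m2' : chkG (gmul eps8 R5 ++ gsm (-1) m2) = true ∧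
    chkG (gmul m2 eD ++ gsm (-10) m2) = true ∧ chkG (gmul m2 shY1 ++ gsm (-1) m3) = true ∧
    chkG (gmul m3 eD ++ gsm (-20) m2) = true := by decide +kernel

theorem k_cert : chkG (gmul (gmul eps8 bb) n0 ++ gmul m2 cc ++ gsm (-80) eps8) = true := by
  decide +kernel

theorem k_zsplit : chkC (zL ++ csm (-1) (opC zu [(1, u0L)]) ++ csm (-1) (opC zk [(1, k1L)])) =
    true := by decide +kernel

theorem k_fsplit : chkC (bdL [(1, e02 :: u0L)] ++ csm (-1) (opC fu [(1, u0L)]) ++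
    csm (-1) (opC fk [(1, k1L)])) = true := by decide +kernel

theorem k_ssplit : chkC (bdL [(1, s33)] ++ csm (-1) (opC su [(1, u0L)])) = true := by
  decide +kernel

theorem k_fan : chkC (psiL ++ csm (-1) (opC R5 [(1, fanL)])) = true := by decide +kernel

theorem k_det2 : (∀ p ∈ zu, p.2.det * p.2.det = 1) ∧ (∀ p ∈ zk, p.2.det * p.2.det = 1) ∧
    (∀ p ∈ fu, p.2.det * p.2.det = 1) ∧ (∀ p ∈ fk, p.2.det * p.2.det = 1) ∧
    (∀ p ∈ su, p.2.det * p.2.det = 1) ∧ ∀ p ∈ eps8, p.2.det * p.2.det = 1 := by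
  decide +kernel

theorem k_R5eD : chkG (gmul eD R5 ++ gsm (-5) eD) = true := by decide +kernel

theorem k_stF : chkG (gmul (gmul eD stF) eD ++ gsm (-2) eEx) = true := by decide +kernel

end Pool.Agent.MP_cbe134_nt.V
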