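import Pool.Agent.MP_cbe134_nt.VD5

/- Finite identities checked by evaluation: enumerations. -/

namespace Pool.Agent.MP_cbe134_nt.V

theorem k_mF : chkG (mF ++ gsm (-2) stF) = true := by decide +kernel

theorem k_sep1 : ∀ A ∈ enumL s0L, ipl (fanL.map A.app) s0L = 0 := by decide +kernel

theorem k_sep2 : ∀ A ∈ enumL s0L, ipl (k0L.map A.app) s0L = 0 := by decide +kernel

theorem k_sep3 : ∀ A ∈ enumL fanL, ipl (k0L.map A.app) fanL = 0 := by decide +kernel

end Pool.Agent.MP_cbe134_nt.V
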