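import Pool.Agent.MP_cbe134_nt.VG3

/- The equivariant cochain attached to a chain and a polynomial. -/

open Matrix Finsupp

namespace Pool.Agent.MP_cbe134_nt.V

variable {z z' : Ch Mt} {g g' : Pn 4}

theorem l1_one (S : Finset Mt) (c : ℚ) : (Finsupp.single S c : Ch Mt) = c • Finsupp.single S 1 := by
  rw [Finsupp.smul_single, smul_eq_mul, mul_one]

theorem l1_mul (a b : GLz 4) (x : Ch Mt) : ga (a * b) x = ga a (ga b x) :=
  act_ga.2 a trivial b trivial x

theorem nm_fin (hz : z ∈ Sup Spans) (x : Ch Mt) : {γ : GLz 4 | ip (ga γ x) z ≠ 0}.Finite := by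
  induction x using Finsupp.induction_linear with
  | zero => simp
  | add x y hx hy =>
    refine (hx.union hy).subset fun γ hγ => ?_
    by_contra h
    simp only [Set.mem_union, Set.mem_ofPred_eq, not_or, not_not] at h
    exact hγ (by rw [map_add, map_add, LinearMap.add_apply, h.1, h.2, add_zero])
  | single S c =>
    refine (z.support.finite_toSet.biUnion fun T hT =>
      stab_fin S (mem_Sup_iff.1 hz T (Finsupp.mem_support_iff.1 hT))).subset fun γ hγ => ?_
    obtain ⟨ε, -, he⟩ := act_single (cj_inj γ) S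
    refine Set.mem_biUnion (x := S.image (cj γ)) (Finsupp.mem_support_iff.2 fun h => hγ ?_) rfl
    rw [l1_one, map_smul, ga, he, map_smul, LinearMap.smul_apply, ip_single, h, mul_zero,
      smul_zero]

theorem l1_fin (hz : z ∈ Sup Spans) (x : Ch Mt) (F : GLz 4 → Pn 4) :
    Function.HasFiniteSupport fun γ : GLz 4 => ip (ga γ x) z • F γ :=
  (nm_fin hz x).subset fun γ hγ h => hγ (by simp only [h, zero_smul])

theorem nm_apply (hz : z ∈ Sup Spans) (g : Pn 4) (x : Ch Mt) :
    Nm z g x = ∑ᶠ γ : GLz 4, ip (ga γ x) z • sub (γ : Mt) g := by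
  induction x using Finsupp.induction_linear with
  | zero => simp
  | add x y hx hy =>
    rw [map_add, hx, hy, ← finsum_add_distrib (l1_fin hz x _) (l1_fin hz y _)]
    simp only [map_add, LinearMap.add_apply, add_smul]
  | single S c =>
    rw [Nm, Finsupp.linearCombination_single, smul_finsum' c (l1_fin hz _ _), l1_one S c]
    simp only [map_smul, LinearMap.smul_apply, smul_assoc]

theorem nm_mem (hz : z ∈ Sup Spans) {d : ℕ} (hg : g ∈ Hd 4 d) (x : Ch Mt) :
    Nm z g x ∈ Hd 4 d := by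
  rw [nm_apply hz]
  exact finsum_induction (· ∈ Hd 4 d) (zero_mem _) (fun _ _ => add_mem)
    fun γ => Submodule.smul_mem _ _ (sub_mem _ hg)

theorem nm_ga (hz : z ∈ Sup Spans) (g : Pn 4) (a : GLz 4) (x : Ch Mt) :
    Nm z g (ga a x) = rhoI a (Nm z g x) := by
  symm
  rw [nm_apply hz, nm_apply hz, map_finsum (rhoI a) (l1_fin hz x _),
    ← finsum_comp_equiv (Equiv.mulRight a)]
  refine finsum_congr fun γ => ?_
  simp only [Equiv.coe_mulRight]
  rw [l1_mul, map_smul, rhoI, AlgHom.toLinearMap_apply, sub_sub,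
    ← Units.val_mul, mul_inv_cancel_right]

theorem sub_rhoI (a : GLz 4) (f : Pn 4) : sub (a : Mt) (rhoI a f) = f := by
  rw [rhoI, AlgHom.toLinearMap_apply, sub_sub, Units.inv_mul, sub_one]

theorem nm_ga' (hz : z ∈ Sup Spans) (g : Pn 4) (a : GLz 4) (x : Ch Mt) :
    sub (a : Mt) (Nm z g (ga a x)) = Nm z g x := by
  rw [nm_ga hz, sub_rhoI]

theorem nm_zero_left (g : Pn 4) (x : Ch Mt) : Nm 0 g x = 0 := by
  rw [nm_apply (zero_mem _)]
  simp

theorem nm_add_left (hz : z ∈ Sup Spans) (hz' : z' ∈ Sup Spans) (g : Pn 4) (x : Ch Mt) :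
    Nm (z + z') g x = Nm z g x + Nm z' g x := by
  rw [nm_apply (add_mem hz hz'), nm_apply hz, nm_apply hz',
    ← finsum_add_distrib (l1_fin hz x _) (l1_fin hz' x _)]
  simp only [map_add, add_smul]

theorem nm_smul_left (hz : z ∈ Sup Spans) (c : ℚ) (g : Pn 4) (x : Ch Mt) :
    Nm (c • z) g x = c • Nm z g x := by
  rw [nm_apply (Submodule.smul_mem _ c hz), nm_apply hz, smul_finsum' c (l1_fin hz _ _)]
  simp only [map_smul, smul_assoc]

theorem nm_add_right (hz : z ∈ Sup Spans) (g g' : Pn 4) (x : Ch Mt) :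
    Nm z (g + g') x = Nm z g x + Nm z g' x := by
  rw [nm_apply hz, nm_apply hz, nm_apply hz,
    ← finsum_add_distrib (l1_fin hz x _) (l1_fin hz x _)]
  simp only [map_add, smul_add]

theorem nm_smul_right (hz : z ∈ Sup Spans) (c : ℚ) (g : Pn 4) (x : Ch Mt) :
    Nm z (c • g) x = c • Nm z g x := by
  rw [nm_apply hz, nm_apply hz, smul_finsum' c (l1_fin hz _ _)]
  refine finsum_congr fun γ => ?_
  rw [map_smul, smul_comm]

theorem nm_move (hz : z ∈ Sup Spans) (g : Pn 4) (a : GLz 4) (x : Ch Mt) :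
    Nm (ga a z) g x = Nm z (sub (a : Mt) g) x := by
  rw [nm_apply (stb_Spans a trivial z hz), nm_apply hz, ← finsum_comp_equiv (Equiv.mulLeft a)]
  refine finsum_congr fun γ => ?_
  rw [Equiv.coe_mulLeft, l1_mul, ip_ga a, ← l1_mul, inv_mul_cancel, act_ga.1, sub_sub,
    Units.val_mul]

theorem l1_cons (p : ℤ × M4) (a : GR) (w : CL) :
    chn (opC (p :: a) w) = (p.1 : ℚ) • act (cj p.2.toM) (chn w) + chn (opC a w) := by
  rw [chn_opC, chn_opC, List.map_cons, List.sum_cons]

theorem l1_GL {A : M4} (h : A.det * A.det = 1) : ∃ γ : GLz 4, (γ : Mt) = A.toM :=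
  exists_GL (by rw [toM_det, h])

theorem opC_mem {a : GR} (ha : ∀ p ∈ a, p.2.det * p.2.det = 1) {w : CL}
    (hw : chn w ∈ Sup Spans) : chn (opC a w) ∈ Sup Spans := by
  induction a with
  | nil =>
    rw [chn_opC]
    exact zero_mem _
  | cons p a ih =>
    obtain ⟨γ, hγ⟩ := l1_GL (ha p List.mem_cons_self)
    rw [l1_cons, ← hγ]
    exact add_mem (Submodule.smul_mem _ _ (stb_Spans γ trivial _ hw))
      (ih fun q hq => ha q (List.mem_cons_of_mem _ hq))

theorem nm_opC {a : GR} (ha : ∀ p ∈ a, p.2.det * p.2.det = 1) {w : CL}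
    (hw : chn w ∈ Sup Spans) (g : Pn 4) (x : Ch Mt) :
    Nm (chn (opC a w)) g x = Nm (chn w) (opR a g) x := by
  induction a with
  | nil =>
    rw [chn_opC, opR_nil, List.map_nil, List.sum_nil, nm_zero_left, nm_apply hw]
    simp
  | cons p a ih =>
    obtain ⟨γ, hγ⟩ := l1_GL (ha p List.mem_cons_self)
    have ha' : ∀ q ∈ a, q.2.det * q.2.det = 1 := fun q hq => ha q (List.mem_cons_of_mem _ hq)
    have h1 : ga γ (chn w) ∈ Sup Spans := stb_Spans γ trivial _ hw
    rw [l1_cons, opR_cons, ← hγ, nm_add_right hw, nm_smul_right hw, ← ih ha', ← nm_move hw,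
      ← nm_smul_left h1, ← nm_add_left (Submodule.smul_mem _ _ h1) (opC_mem ha' hw), ga]

theorem nm_del (hz : z ∈ Sup fun S => Cell S ∧ Spans S) (hb : bd z ∈ Sup Spans) (g : Pn 4)
    {x : Ch Mt} (hx : x ∈ Sup Spans) : Nm z g (del Cell x) = Nm (bd z) g x := by
  rw [nm_apply (Sup_mono (fun _ h => h.2) hz), nm_apply hb]
  refine finsum_congr fun γ => ?_
  rw [← del_ga γ hx, ip_del (spans_le_fin (stb_Spans γ trivial x hx))
    (Sup_mono (fun _ h => h.1) hz)]

/-- a cochain attached to one cell vanishes if it vanishes on that cell -/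
theorem nm_orbit {l : List Mt} (hl : l.Nodup) (hs : Spans l.toFinset) (g : Pn 4)
    (h : Nm (br l) g (br l) = 0) (x : Ch Mt) : Nm (br l) g x = 0 := by
  have hz : br l ∈ Sup Spans := br_mem_Sup fun _ => hs
  obtain ⟨δ, hδ, hb⟩ := br_nodup hl
  induction x using Finsupp.induction_linear with
  | zero => exact map_zero _
  | add x y hx hy => rw [map_add, hx, hy, add_zero]
  | single S c =>
    rw [l1_one, map_smul]
    refine smul_eq_zero_of_right c ?_
    by_cases hS : ∃ γ : GLz 4, S.image (cj γ) = l.toFinset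
    · obtain ⟨γ, hγ⟩ := hS
      obtain ⟨ε, -, he⟩ := act_single (cj_inj γ) S
      have h1 : ga γ (Finsupp.single S 1) = (ε * δ) • br l := by
        rw [ga, he, hγ, hb, Finsupp.smul_single, smul_eq_mul, mul_assoc, hδ, mul_one]
      rw [← nm_ga' hz g γ, h1, map_smul, h, smul_zero, map_zero]
    · rw [nm_apply hz]
      refine finsum_eq_zero_of_forall_eq_zero fun γ => ?_
      obtain ⟨ε, -, he⟩ := act_single (cj_inj γ) S
      rw [ga, he, ip_single, hb, Finsupp.single_eq_of_ne fun e => hS ⟨γ, e⟩, mul_zero, zero_smul]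

end Pool.Agent.MP_cbe134_nt.V
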