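import Pool.Agent.MP_cbe134_nt.VL1

/- The explicit cells: supports, the wheel and its cofaces. -/

open Matrix Finsupp

namespace Pool.Agent.MP_cbe134_nt.V

theorem l2_sub_mn (q : M4) {l : List V4} (h : ∀ v ∈ l, q.bil v v = 2) :
    (((l.map V4.at).toFinset : Finset Mt) : Set Mt) ⊆ Mn q.toM := by
  intro A hA
  rw [Finset.mem_coe, List.mem_toFinset, List.mem_map] at hA
  obtain ⟨v, hv, rfl⟩ := hA
  exact ⟨⟨_, rfl⟩, by rw [← bil_at]; exact h v hv⟩

theorem l2_card {l : List V4} (h : (l.map V4.at).Nodup) :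
    (l.map V4.at).toFinset.card = l.length := by
  rw [List.toFinset_card_of_nodup h, List.length_map]

theorem l2_cellA {l : List V4} (h : ∀ v ∈ l, qAm.bil v v = 2) (hn : l.length ≤ 9) :
    Cell (l.map V4.at).toFinset :=
  cell_of_qA (l2_sub_mn qAm h) ((List.toFinset_card_le _).trans (by rwa [List.length_map]))

theorem l2_cell33 : Cell (s33.map V4.at).toFinset :=
  ⟨_, _, vert_q1, vert_q2, fun h => absurd (toM_inj h) (by decide),
    l2_sub_mn q1m (by decide), l2_sub_mn q2m (by decide)⟩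

theorem l2_spans {z : CL} {n : ℕ} (hn' : 7 ≤ n)
    (h : chn z ∈ Sup fun S => Cell S ∧ S.card = n ∧ (S : Set Mt) ⊆ Mn qAm.toM) :
    chn z ∈ Sup Spans :=
  Sup_mono (fun _ hS => hS.1.spans (hS.2.1 ▸ hn')) h

theorem chn_mem_A {z : CL} {n : ℕ} (hn : n ≤ 9)
    (h : ∀ p ∈ z, p.2.length = n ∧ ∀ v ∈ p.2, v.nrm ∈ minA) :
    chn z ∈ Sup fun S => Cell S ∧ S.card = n ∧ (S : Set Mt) ⊆ Mn qAm.toM := by
  refine chn_mem_Sup fun s hs hnd => ?_
  have hsub : (((s.2.map V4.at).toFinset : Finset Mt) : Set Mt) ⊆ Mn qAm.toM := by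
    intro A hA
    rw [Finset.mem_coe, List.mem_toFinset, List.mem_map] at hA
    obtain ⟨v, hv, rfl⟩ := hA
    rw [mn_qA, Finset.mem_coe, List.mem_toFinset, ← at_nrm]
    exact List.mem_map_of_mem ((h s hs).2 v hv)
  have hc : (s.2.map V4.at).toFinset.card = n := (l2_card hnd).trans (h s hs).1
  exact ⟨cell_of_qA hsub (hc ▸ hn), hc, hsub⟩

theorem l2_zL :
    chn zL ∈ Sup fun S => Cell S ∧ S.card = 8 ∧ (S : Set Mt) ⊆ Mn qAm.toM :=
  chn_mem_A (by norm_num) (by decide +kernel)

theorem zL_mem : chn zL ∈ Sup fun S => Cell S ∧ Spans S := by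
  exact Sup_mono (fun _ hS => ⟨hS.1, hS.1.spans (by rw [hS.2.1]; norm_num)⟩) l2_zL

theorem zL_spans : chn zL ∈ Sup Spans := by
  exact Sup_mono (fun _ hS => hS.2) zL_mem

theorem bd_zL_spans : bd (chn zL) ∈ Sup Spans := by
  refine bd_mem_Sup (fun S a hS ha => ?_) l2_zL
  refine (hS.1.mono (Finset.erase_subset a S)).spans ?_
  rw [Finset.card_erase_of_mem ha, hS.2.1]

theorem psi_spans : chn psiL ∈ Sup Spans := by
  exact l2_spans (n := 7) le_rfl (chn_mem_A (by norm_num) (by decide +kernel))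

theorem zetaD_spans : chn zetaD ∈ Sup Spans := by
  exact l2_spans (n := 7) le_rfl (chn_mem_A (by norm_num) (by decide +kernel))

theorem k0_spans : br (k0L.map V4.at) ∈ Sup Spans := by
  exact br_mem_Sup fun h =>
    (l2_cellA (by decide) (by decide)).spans (by rw [l2_card h]; decide)

theorem tau_spans : br (tauL.map V4.at) ∈ Sup Spans := by
  refine br_mem_Sup fun _ => ⟨1, by simp, fun i => ?_⟩
  have h : ∃ v ∈ tauL, (1 : Mt) i = v.toV := by
    revert i
    decide
  obtain ⟨v, hv, h⟩ := h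
  rw [h, List.mem_toFinset]
  exact List.mem_map_of_mem hv

theorem u0_mem : br (u0L.map V4.at) ∈ Wc 8 := by
  exact br_mem_Sup fun h => ⟨l2_cellA (by decide) (by decide), l2_card h⟩

theorem s33_mem : br (s33.map V4.at) ∈ Wc 9 := by
  exact br_mem_Sup fun h => ⟨l2_cell33, l2_card h⟩

theorem fac02_mem : br ((e02 :: u0L).map V4.at) ∈ Wc 9 := by
  exact br_mem_Sup fun h => ⟨l2_cellA (by decide) (by decide), l2_card h⟩

theorem fac13_mem : br ((e13 :: u0L).map V4.at) ∈ Wc 9 := by
  exact br_mem_Sup fun h => ⟨l2_cellA (by decide) (by decide), l2_card h⟩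

theorem vert_u0 {q : Mt} (hq : Vert q)
    (h : (((u0L.map V4.at).toFinset : Finset Mt) : Set Mt) ⊆ Mn q) :
    q = qAm.toM ∨ q = q1m.toM ∨ q = q2m.toM := by
  obtain ⟨B, rfl⟩ := toM_surj q
  have hs : B.tr = B := toM_inj (by rw [toM_tr]; exact hq.symm)
  have h2 : ∀ v ∈ u0L, B.bil v v = 2 := fun v hv => by
    rw [bil_at]
    exact (h (Finset.mem_coe.2 (List.mem_toFinset.2 (List.mem_map_of_mem hv)))).2
  have h3 : ∀ v : V4, v ≠ ⟨0, 0, 0, 0⟩ → 2 ≤ B.bil v v := fun v hv => by
    rw [bil_at]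
    refine hq.two_le fun h0 => hv (toV_inj (h0.trans ?_))
    decide
  have ha := h3 e02 (by decide)
  have hb := h3 e13 (by decide)
  have hc := h3 w0 (by decide)
  obtain ⟨⟨a0, b0, c0, d0⟩, ⟨a1, b1, c1, d1⟩, ⟨a2, b2, c2, d2⟩, ⟨a3, b3, c3, d3⟩⟩ := B
  simp only [M4.tr, M4.mk.injEq, V4.mk.injEq, true_and, and_true] at hs
  simp only [u0L, List.forall_mem_cons, List.not_mem_nil, false_imp_iff, implies_true,
    and_true] at h2
  simp only [M4.bil, M4.app, V4.dot, e02, e13, w0, Int.add_def, Int.mul_def] at h2 ha hb hc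
  have key : (c0 = 1 ∧ d1 = 1) ∨ (c0 = 0 ∧ d1 = 1) ∨ (c0 = 1 ∧ d1 = 0) := by omega
  rcases key with k | k | k
  · left
    congr 1
    simp only [qAm, M4.mk.injEq, V4.mk.injEq]
    omega
  · right; left
    congr 1
    simp only [q1m, M4.mk.injEq, V4.mk.injEq]
    omega
  · right; right
    congr 1
    simp only [q2m, M4.mk.injEq, V4.mk.injEq]
    omega

theorem l2_ext (w : Mt) : w ∈ Ext Cell (u0L.map V4.at).toFinset ↔
    w ∈ ({e02.at, e13.at, w0.at} : Finset Mt) := by
  constructor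
  · rintro ⟨hw, q, q', hq, hq', hne, h, h'⟩
    have hs : (((u0L.map V4.at).toFinset : Finset Mt) : Set Mt) ⊆
        ((insert w (u0L.map V4.at).toFinset : Finset Mt) : Set Mt) :=
      Finset.coe_subset.2 (Finset.subset_insert _ _)
    have h1 := h (Finset.mem_coe.2 (Finset.mem_insert_self _ _))
    have h2 := h' (Finset.mem_coe.2 (Finset.mem_insert_self _ _))
    obtain ⟨⟨v', rfl⟩, h1⟩ := h1
    obtain ⟨v, rfl⟩ := toV_surj v'
    replace h2 := h2.2
    change pr q v.at = 2 at h1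
    change pr q' v.at = 2 at h2
    change v.at ∉ _ at hw
    change v.at ∈ _
    rw [List.mem_toFinset, mem_at] at hw
    simp only [Finset.mem_insert, Finset.mem_singleton, at_eq_iff]
    have kA : ∀ v ∈ pm minA, v.nrm ∉ u0L.map V4.nrm →
        v.nrm = e02.nrm ∨ v.nrm = e13.nrm ∨ v.nrm = w0.nrm := by decide
    have k1 : ∀ v ∈ pm min1, q2m.bil v v = 2 → v.nrm ∉ u0L.map V4.nrm →
        v.nrm = e02.nrm ∨ v.nrm = e13.nrm ∨ v.nrm = w0.nrm := by decide
    rcases vert_u0 hq (hs.trans h) with rfl | rfl | rfl <;>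
      rcases vert_u0 hq' (hs.trans h') with rfl | rfl | rfl <;>
      rw [← bil_at] at h1 h2 <;>
      first
        | exact absurd rfl hne
        | exact kA v ((min_qA v).1 h1) hw
        | exact kA v ((min_qA v).1 h2) hw
        | exact k1 v ((min_q1 v).1 h1) h2 hw
        | exact k1 v ((min_q1 v).1 h2) h1 hw
  · intro hw
    simp only [Finset.mem_insert, Finset.mem_singleton] at hw
    rcases hw with rfl | rfl | rfl
    · refine ⟨by rw [List.mem_toFinset, mem_at]; decide, ?_⟩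
      rw [← List.toFinset_cons]
      exact l2_cellA (l := e02 :: u0L) (by decide) (by decide)
    · refine ⟨by rw [List.mem_toFinset, mem_at]; decide, ?_⟩
      rw [← List.toFinset_cons]
      exact l2_cellA (l := e13 :: u0L) (by decide) (by decide)
    · refine ⟨by rw [List.mem_toFinset, mem_at]; decide, ?_⟩
      rw [← List.toFinset_cons]
      exact l2_cell33

theorem del_u0 : del Cell (br (u0L.map V4.at)) = br ((e02 :: u0L).map V4.at) +
    br ((e13 :: u0L).map V4.at) + br (s33.map V4.at) := by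
  rw [del_br (nodup_at (by decide)) l2_ext, Finset.sum_insert, Finset.sum_pair, ← add_assoc]
  · rfl
  · rw [Ne, at_eq_iff]
    decide
  · simp only [Finset.mem_insert, Finset.mem_singleton, at_eq_iff]
    decide

theorem l2_stab (γ : GLz 4) (h : ip (ga γ (br (u0L.map V4.at))) (chn zL) ≠ 0) :
    pb (γ : Mt) qAm.toM = qAm.toM := by
  have hnd : (u0L.map V4.at).Nodup := nodup_at (by decide)
  obtain ⟨ε, -, hε⟩ := br_nodup (hnd.map (cj_inj γ))
  rw [ga, act_br, hε, ip_single] at h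
  have hS := (mem_Sup_iff.1 l2_zL _ (right_ne_zero_of_mul h)).2.2
  have hsub : (((u0L.map V4.at).toFinset : Finset Mt) : Set Mt) ⊆ Mn (pb (γ : Mt) qAm.toM) := by
    intro A hA
    rw [mem_Mn_pb]
    apply hS
    rw [Finset.mem_coe, List.mem_toFinset] at hA ⊢
    exact List.mem_map_of_mem hA
  have hd := det_pb γ qAm.toM
  rcases vert_u0 (vert_qA.pb γ) hsub with h1 | h1 | h1
  · exact h1
  · rw [h1, toM_det, toM_det] at hd
    exact absurd hd (by decide)
  · rw [h1, toM_det, toM_det] at hd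
    exact absurd hd (by decide)

theorem nm_u0 (g : Pn 4) : Nm (chn zL) g (br (u0L.map V4.at)) = opR m0 g := by
  obtain ⟨hnd, hmem, -, -, -, hdet⟩ := stab_group (q := qAm) (by decide) mem_GA nodup_GA
  have hinj : Set.InjOn (Units.val : GLz 4 → Mt)
      (Units.val ⁻¹' (((GA.map M4.toM).toFinset : Finset Mt) : Set Mt)) :=
    Units.val_injective.injOn
  rw [nm_apply zL_spans, finsum_eq_sum_of_support_subset
    (s := (GA.map M4.toM).toFinset.preimage Units.val hinj)]
  · refine (Finset.sum_preimage Units.val _ hinj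
      (fun A : Mt => ip (act (cj A) (br (u0L.map V4.at))) (chn zL) • sub A g) ?_).trans ?_
    · intro A hA hn
      obtain ⟨γ, hγ⟩ := exists_GL (hdet A (List.mem_toFinset.1 hA))
      exact absurd ⟨γ, hγ⟩ hn
    · rw [List.sum_toFinset _ hnd, m0, opR_filter, opR_eq, List.map_map, List.map_map]
      congr 1
      refine List.map_congr_left fun A _ => ?_
      simp only [Function.comp, act_br_at, ipL_eq]
  · intro γ hγ
    rw [Finset.mem_coe, Finset.mem_preimage, List.mem_toFinset, hmem]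
    refine l2_stab γ fun h0 => hγ ?_
    simp only [h0, zero_smul]

end Pool.Agent.MP_cbe134_nt.V
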