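import Pool.Agent.MP_cbe134_nt.VG3

/- The two degenerate cells around a six-element face. -/

open Matrix Finsupp

namespace Pool.Agent.MP_cbe134_nt.V

theorem l3_sub (q : M4) (l : List V4) (h : ∀ v ∈ l, q.bil v v = 2) :
    (((l.map V4.at).toFinset : Finset Mt) : Set Mt) ⊆ Mn q.toM := by
  intro A hA
  obtain ⟨v, hv, rfl⟩ := List.mem_map.1 (List.mem_toFinset.1 (Finset.mem_coe.1 hA))
  exact ⟨⟨v.toV, rfl⟩, (bil_at q v).symm.trans (h v hv)⟩

theorem l3_cell (g : M4) (hg : g.det * g.det = 1) (l : List V4) (hl : l.length ≤ 9)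
    (h : ∀ v ∈ l, (g.pb qAm).bil v v = 2) : Cell (l.map V4.at).toFinset := by
  obtain ⟨G, hG⟩ := exists_GL (A := g.toM) (by rw [toM_det]; exact hg)
  refine (cell_image G _).1 (cell_of_qA ((image_sub_mn G _ _).2 ?_) ?_)
  · rw [hG, ← toM_pb]
    exact l3_sub _ l h
  · exact Finset.card_image_le.trans ((List.toFinset_card_le _).trans (by simpa using hl))

theorem e02_ext : e02.at ∈ Ext Cell (tauL.map V4.at).toFinset := by
  refine ⟨fun h => absurd (mem_at.1 (List.mem_toFinset.1 h)) (by decide), ?_⟩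
  rw [← List.toFinset_cons, ← List.map_cons]
  exact l3_cell M4.one (by decide) _ (by decide) (by decide)

theorem ef_ext : ef.at ∈ Ext Cell (tauL.map V4.at).toFinset := by
  refine ⟨fun h => absurd (mem_at.1 (List.mem_toFinset.1 h)) (by decide), ?_⟩
  rw [← List.toFinset_cons, ← List.map_cons]
  exact l3_cell ⟨⟨1, 1, 0, 0⟩, ⟨0, -1, -1, 0⟩, ⟨0, 0, 1, 0⟩, ⟨0, 0, 0, 1⟩⟩ (by decide) _
    (by decide) (by decide)

theorem l3_nrm_d (v : V4) (h : v.nrm.d = 0) : v.d = 0 := by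
  rcases nrm_cases v with e | e <;> rw [e] at h
  · exact h
  · exact neg_eq_zero.1 h

theorem l3_last {v : V4} (hv : v.at ∉ (tauL.map V4.at).toFinset) (γ : GLz 4)
    (h : (insert v.at (tauL.map V4.at).toFinset).image (cj γ) = (k0L.map V4.at).toFinset) :
    v.d = 0 := by
  obtain ⟨A, hA⟩ := toM_surj (γ : Mt)
  have k1 : ∀ u ∈ v :: tauL, A.r3.dot u ≠ 0 → cj γ u.at = V4.at ⟨0, 0, 0, 1⟩ := by
    intro u hu hne
    have hm : cj γ u.at ∈ (k0L.map V4.at).toFinset := by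
      rw [← h, ← List.toFinset_cons, ← List.map_cons]
      exact Finset.mem_image_of_mem _ (List.mem_toFinset.2 (List.mem_map_of_mem hu))
    rw [← hA, ← at_app] at hm ⊢
    have hk : ∀ x ∈ k0L.map V4.nrm, x.d = 0 ∨ x = V4.nrm ⟨0, 0, 0, 1⟩ := by decide
    rcases hk _ (mem_at.1 (List.mem_toFinset.1 hm)) with e | e
    · exact absurd (l3_nrm_d _ e) hne
    · exact at_eq_iff.2 e
  have k2 : ∀ u ∈ v :: tauL, ∀ u' ∈ v :: tauL, A.r3.dot u ≠ 0 → A.r3.dot u' ≠ 0 →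
      u.at = u'.at := fun u hu u' hu' a b => cj_inj γ ((k1 u hu a).trans (k1 u' hu' b).symm)
  have k3 : ∀ u ∈ tauL, ∀ u' ∈ tauL, u.nrm ≠ u'.nrm → A.r3.dot u = 0 ∨ A.r3.dot u' = 0 := by
    intro u hu u' hu' hne
    by_contra hc
    rw [not_or] at hc
    exact hne (at_eq_iff.1 (k2 u (List.mem_cons_of_mem _ hu) u' (List.mem_cons_of_mem _ hu')
      hc.1 hc.2))
  have hdet : A.det ≠ 0 := by
    rw [← toM_det, hA]
    exact (isUnits_det_units γ).ne_zero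
  have a1 := k3 ⟨1, 0, 0, 0⟩ (by decide) ⟨0, 1, 0, 0⟩ (by decide) (by decide)
  have a2 := k3 ⟨1, 0, 0, 0⟩ (by decide) ⟨1, -1, 0, 0⟩ (by decide) (by decide)
  have a3 := k3 ⟨0, 1, 0, 0⟩ (by decide) ⟨1, -1, 0, 0⟩ (by decide) (by decide)
  have a4 := k3 ⟨0, 0, 1, 0⟩ (by decide) ⟨0, 1, -1, 0⟩ (by decide) (by decide)
  have a5 := k2 v List.mem_cons_self ⟨0, 0, 0, 1⟩ (List.mem_cons_of_mem _ (by decide))
  obtain ⟨⟨a0, b0, c0, d0⟩, ⟨a1', b1, c1, d1⟩, ⟨a2', b2, c2, d2⟩, ⟨p0, p1, p2, p3⟩⟩ := A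
  simp only [V4.dot, Int.add_def, Int.mul_def, mul_one, mul_zero, add_zero, zero_add,
    mul_neg] at a1 a2 a3 a4 a5
  obtain rfl : p0 = 0 := by omega
  obtain rfl : p1 = 0 := by omega
  obtain rfl : p2 = 0 := by omega
  have hp : p3 ≠ 0 := by
    rintro rfl
    apply hdet
    have e : ∀ a b : ℤ, Int.sub a b = a - b := fun _ _ => rfl
    simp [M4.det, mn2, e]
  by_contra hd
  apply hv
  rw [a5 (by simpa using ⟨hp, hd⟩) hp]
  exact List.mem_toFinset.2 (List.mem_map_of_mem (by decide))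

theorem ext_tau {w : Mt} (hw : w ∈ Ext Cell (tauL.map V4.at).toFinset) (γ : GLz 4)
    (h : (insert w (tauL.map V4.at).toFinset).image (cj γ) = (k0L.map V4.at).toFinset) :
    w = e02.at ∨ w = ef.at := by
  obtain ⟨hw, q, -, hq, -, -, hs, -⟩ := hw
  obtain ⟨⟨v₀, rfl⟩, hv⟩ := hs (Finset.mem_coe.2 (Finset.mem_insert_self _ _))
  obtain ⟨v, rfl⟩ := toV_surj v₀
  change v.at ∉ _ at hw
  change v.at = _ ∨ v.at = _
  have hd := l3_last hw γ h
  obtain ⟨Q, rfl⟩ := toM_surj q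
  have hv' : Q.bil v v = 2 := (bil_at Q v).trans hv
  have k1 : ∀ u ∈ tauL, Q.bil u u = 2 := fun u hu => (bil_at Q u).trans
    (hs (Finset.mem_coe.2 (Finset.mem_insert_of_mem
      (List.mem_toFinset.2 (List.mem_map_of_mem hu))))).2
  have k2 : ∀ u : V4, u ≠ ⟨0, 0, 0, 0⟩ → 2 ≤ Q.bil u u := fun u hu => by
    rw [bil_at]
    refine hq.two_le fun e => hu (toV_inj (e.trans ?_))
    ext i
    fin_cases i <;> rfl
  have hsym : Q.tr = Q := toM_inj ((toM_tr Q).trans hq.symm)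
  have a0 := k1 ⟨1, 0, 0, 0⟩ (by decide)
  have a1 := k1 ⟨0, 1, 0, 0⟩ (by decide)
  have a2 := k1 ⟨0, 0, 1, 0⟩ (by decide)
  have a3 := k1 ⟨1, -1, 0, 0⟩ (by decide)
  have a4 := k1 ⟨0, 1, -1, 0⟩ (by decide)
  have a5 := k2 ⟨1, 0, -1, 0⟩ (by decide)
  have a6 := k2 ⟨1, -1, 1, 0⟩ (by decide)
  have hn : v.nrm ∉ tauL.map V4.nrm := fun e => hw (List.mem_toFinset.2 (mem_at.2 e))
  have key : qAm.bil v v = 2 ∨ q1m.bil v v = 2 := by
    obtain ⟨⟨q00, q01, q02, q03⟩, ⟨q10, q11, q12, q13⟩, ⟨q20, q21, q22, q23⟩,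
      ⟨q30, q31, q32, q33⟩⟩ := Q
    obtain ⟨x, y, z, t⟩ := v
    obtain rfl : t = 0 := hd
    simp only [M4.tr, M4.mk.injEq, V4.mk.injEq] at hsym
    simp only [M4.bil, M4.app, V4.dot, Int.add_def, Int.mul_def, mul_one, mul_zero, add_zero,
      zero_add, mul_neg, one_mul, zero_mul, neg_mul, qAm, q1m] at a0 a1 a2 a3 a4 a5 a6 hv' ⊢
    obtain rfl : q00 = 2 := by omega
    obtain rfl : q11 = 2 := by omega
    obtain rfl : q22 = 2 := by omega
    obtain rfl : q01 = 1 := by omega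
    obtain rfl : q10 = 1 := by omega
    obtain rfl : q12 = 1 := by omega
    obtain rfl : q21 = 1 := by omega
    obtain rfl : q20 = q02 := by omega
    have : q20 = 1 ∨ q20 = 0 := by omega
    rcases this with rfl | rfl
    · left; linarith
    · right; linarith
  have f1 : ∀ u ∈ pm minA, u.d = 0 → u.nrm ∈ tauL.map V4.nrm ∨ u.nrm = e02.nrm := by decide
  have f2 : ∀ u ∈ pm min1, u.d = 0 → u.nrm ∈ tauL.map V4.nrm ∨ u.nrm = ef.nrm := by decide
  rcases key with e | e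
  · exact Or.inl (at_eq_iff.2 ((f1 v ((min_qA v).1 e) hd).resolve_left hn))
  · exact Or.inr (at_eq_iff.2 ((f2 v ((min_q1 v).1 e) hd).resolve_left hn))

end Pool.Agent.MP_cbe134_nt.V
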