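import Pool.Agent.MP_cbe134_nt.VL2
import Pool.Agent.MP_cbe134_nt.VL3
import Pool.Agent.MP_cbe134_nt.VK1

/- The degenerate part of the boundary vanishes. -/

open Matrix Finsupp

namespace Pool.Agent.MP_cbe134_nt.V

theorem Van.sub {g : Pn 4} (h : Van g) {A : Mt} (hA : pb A qAm.toM = qAm.toM) :
    Van (sub A g) := by
  intro v hv
  rw [eval_sub, mv_cast]
  refine h _ ?_
  rw [← cj_phi, ← pr_pb, hA, hv]

theorem Van.opR {g : Pn 4} (h : Van g) {a : GR} (ha : ∀ p ∈ a, p.2.pb qAm = qAm) :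
    Van (opR a g) := by
  induction a with
  | nil =>
    intro v _
    rw [opR_nil, map_zero]
  | cons p a ih =>
    intro v hv
    have h1 := h.sub (A := p.2.toM) (by rw [← toM_pb, ha p List.mem_cons_self]) v hv
    rw [opR_cons, map_add, MvPolynomial.smul_eval, h1,
      ih (fun q hq => ha q (List.mem_cons_of_mem _ hq)) v hv, mul_zero, add_zero]

theorem l4_ip {l l' : List Mt} (hl : l.Nodup) (hl' : l'.Nodup) {γ : GLz 4}
    (h : ip (ga γ (br l)) (br l') ≠ 0) : l.toFinset.image (cj γ) = l'.toFinset := by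
  obtain ⟨ε, -, h1⟩ := br_nodup (hl.map (cj_inj γ))
  obtain ⟨ε', -, h2⟩ := br_nodup hl'
  rw [ga, act_br, h1, h2, ip_single] at h
  by_contra hne
  refine h ?_
  rw [Finsupp.single_eq_of_ne, mul_zero]
  intro he
  refine hne (Eq.trans ?_ he)
  ext A
  simp

theorem l4_spans {l : List Mt} (hl : l.Nodup) (h : br l ∈ Sup Spans) : Spans l.toFinset := by
  obtain ⟨ε, hε, h1⟩ := br_nodup hl
  refine mem_Sup_iff.1 h _ ?_
  rw [h1, Finsupp.single_eq_same]
  rintro rfl
  simp at hε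

theorem l4_k0 : (k0L.map V4.at).Nodup := nodup_at (by decide)

theorem l4_tau : (tauL.map V4.at).Nodup := nodup_at (by decide)

theorem l4_two (g : Pn 4) : Nm (br (k0L.map V4.at)) g (del Cell (br (tauL.map V4.at))) =
    Nm (br (k0L.map V4.at)) g (br (k0L.map V4.at)) +
      Nm (br (k0L.map V4.at)) g (br ((ef :: tauL).map V4.at)) := by
  have hf := ext_fin (l4_spans l4_tau tau_spans)
  rw [del_br l4_tau (W := hf.toFinset) (fun w => hf.mem_toFinset.symm), map_sum,
    Finset.sum_eq_add_of_mem e02.at ef.at (hf.mem_toFinset.2 e02_ext) (hf.mem_toFinset.2 ef_ext)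
      (fun h => absurd (at_eq_iff.1 h) (by decide))]
  · rfl
  · intro w hw hne
    have hw' := hf.mem_toFinset.1 hw
    have hn : (w :: tauL.map V4.at).Nodup :=
      List.nodup_cons.2 ⟨fun h => hw'.1 (List.mem_toFinset.2 h), l4_tau⟩
    rw [nm_apply k0_spans]
    refine finsum_eq_zero_of_forall_eq_zero fun γ => ?_
    by_cases h : ip (ga γ (br (w :: tauL.map V4.at))) (br (k0L.map V4.at)) = 0
    · rw [h, zero_smul]
    · have h1 := l4_ip hn l4_k0 h
      rw [List.toFinset_cons] at h1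
      exact absurd (ext_tau hw' γ h1) (not_or.2 hne)

theorem l4_inv {g : Pn 4} (A : M4) (hA : A.det * A.det = 1)
    (h : Nm (br (k0L.map V4.at)) g (br ((k0L.map A.app).map V4.at)) =
      Nm (br (k0L.map V4.at)) g (br (k0L.map V4.at))) :
    sub A.toM (Nm (br (k0L.map V4.at)) g (br (k0L.map V4.at))) =
      Nm (br (k0L.map V4.at)) g (br (k0L.map V4.at)) := by
  obtain ⟨γ, hγ⟩ := exists_GL (A := A.toM) (by rw [toM_det, hA])
  have h1 := nm_ga' k0_spans g γ (br (k0L.map V4.at))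
  rwa [ga, hγ, act_br_at, h] at h1

theorem l4_fix (A : M4) (h : chkC [(1, k0L.map A.app), (-1, k0L)] = true) :
    br ((k0L.map A.app).map V4.at) = br (k0L.map V4.at) := by
  have h1 := chkC_sound h
  rw [chn_cons, chn_cons, chn_nil] at h1
  simpa [add_neg_eq_zero] using h1

/-- the swap of the first two coordinates -/
def l4_P01 : M4 := ⟨⟨0, 1, 0, 0⟩, ⟨1, 0, 0, 0⟩, ⟨0, 0, 1, 0⟩, ⟨0, 0, 0, 1⟩⟩

/-- the swap of the first and third coordinates -/
def l4_P02 : M4 := ⟨⟨0, 0, 1, 0⟩, ⟨0, 1, 0, 0⟩, ⟨1, 0, 0, 0⟩, ⟨0, 0, 0, 1⟩⟩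

theorem l4_e3 {g : Pn 4} (hv : Van g) :
    MvPolynomial.eval (fun i => ((V4.toV ⟨0, 0, 0, 1⟩ i : ℤ) : ℚ))
      (Nm (br (k0L.map V4.at)) g (br (k0L.map V4.at))) = 0 := by
  rw [nm_apply k0_spans]
  refine finsum_induction
    (fun f : Pn 4 => MvPolynomial.eval (fun i => ((V4.toV ⟨0, 0, 0, 1⟩ i : ℤ) : ℚ)) f = 0)
    (map_zero _) (fun a b ha hb => by rw [map_add, ha, hb, add_zero]) fun γ => ?_
  rw [MvPolynomial.smul_eval]
  by_cases h : ip (ga γ (br (k0L.map V4.at))) (br (k0L.map V4.at)) = 0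
  · rw [h, zero_mul]
  · have h1 : cj γ (V4.at ⟨0, 0, 0, 1⟩) ∈ (k0L.map V4.at).toFinset := by
      rw [← l4_ip l4_k0 l4_k0 h]
      exact Finset.mem_image_of_mem _
        (List.mem_toFinset.2 (List.mem_map_of_mem (by decide)))
    obtain ⟨w, hw, h2⟩ := List.mem_map.1 (List.mem_toFinset.1 h1)
    have h3 : ∀ w ∈ k0L, qAm.bil w w = 2 := by decide
    rw [eval_sub, mv_cast, hv _ (by rw [← cj_phi, ← V4.at, ← h2, ← bil_at, h3 w hw]), mul_zero]

theorem theta_zero {d : ℕ} {g : Pn 4} (hg : g ∈ Hd 4 d) (hv : Van g)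
    (h : Nm (br (k0L.map V4.at)) g (del Cell (br (tauL.map V4.at))) = 0) (x : Ch Mt) :
    Nm (br (k0L.map V4.at)) g x = 0 := by
  refine nm_orbit l4_k0 (l4_spans l4_k0 k0_spans) g ?_ x
  rw [l4_two] at h
  have hs := l4_inv (g := g) sigM (by decide) (by
    have h1 := chkC_sound k_flip
    rw [chn_cons, chn_cons, chn_nil, Int.cast_one, one_smul, one_smul, add_zero] at h1
    rw [eq_neg_of_add_eq_zero_left h1, map_neg, ← eq_neg_of_add_eq_zero_left h])
  have h01 := l4_inv (g := g) l4_P01 (by decide) (by rw [l4_fix _ (by decide +kernel)])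
  have h02 := l4_inv (g := g) l4_P02 (by decide) (by rw [l4_fix _ (by decide +kernel)])
  have he := l4_e3 hv
  have hT := nm_mem k0_spans hg (br (k0L.map V4.at))
  generalize Nm (br (k0L.map V4.at)) g (br (k0L.map V4.at)) = T at hs h01 h02 he hT ⊢
  have t0 : sub (1 + Matrix.single 0 2 1) T = T := by
    have e : (1 + Matrix.single 0 2 1 : Mt) = sigM.toM * sigM.toM := by decide +kernel
    rw [e, ← sub_sub, hs, hs]
  have t1 : sub (1 + Matrix.single 1 2 1) T = T := by
    have e : (1 + Matrix.single 1 2 1 : Mt) =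
        l4_P01.toM * (1 + Matrix.single 0 2 1) * l4_P01.toM := by decide +kernel
    rw [e, ← sub_sub, ← sub_sub, h01, t0, h01]
  have t2 : sub (1 + Matrix.single 2 0 1) T = T := by
    have e : (1 + Matrix.single 2 0 1 : Mt) =
        l4_P02.toM * (1 + Matrix.single 0 2 1) * l4_P02.toM := by decide +kernel
    rw [e, ← sub_sub, ← sub_sub, h02, t0, h02]
  refine MvPolynomial.funext fun y => ?_
  have e : Function.update (Function.update (Function.update y 0 0) 1 0) 2 0 =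
      y 3 • fun i => ((V4.toV ⟨0, 0, 0, 1⟩ i : ℤ) : ℚ) := by
    funext i
    fin_cases i <;> simp [V4.toV]
  rw [← indep_of_transv (by decide) one_ne_zero t0 y 0,
    ← indep_of_transv (by decide) one_ne_zero t1 _ 0,
    ← indep_of_transv (by decide) one_ne_zero t2 _ 0, e, eval_smul_Hd hT, he, mul_zero, map_zero]

end Pool.Agent.MP_cbe134_nt.V
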