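import Pool.Agent.MP_cbe134_nt.VL4
import Pool.Agent.MP_cbe134_nt.VK2

/- The cochain of an element of both eigenspaces is a cocycle that determines the element. -/

open Matrix Finsupp

namespace Pool.Agent.MP_cbe134_nt.V

variable {d : ℕ} {g : Pn 4}

theorem Rsp_le (sh : GR) (d : ℕ) : Rsp sh d ≤ Hd 4 d := by
  rintro _ ⟨h, hh, rfl⟩
  rw [LinearMap.comp_apply]
  exact opR_mem eD (opR_mem sh hh)

theorem van_of_Rsp {sh : GR} (hd : Even d) (hg : g ∈ Rsp sh d) : Van g := by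
  obtain ⟨h, hh, rfl⟩ := hg
  have h1 : opR sh h ∈ Hd 4 d := opR_mem _ hh
  rw [LinearMap.comp_apply]
  generalize opR sh h = f at h1
  intro v hv
  obtain ⟨w, rfl⟩ := toV_surj v
  obtain ⟨p, hp, h2, h3⟩ := k_refl w ((min_qA w).1 ((bil_at qAm w).trans hv))
  have h4 := chkG_sound (k_absorb p hp) hd h1
  rw [opR_append, opR_gsm, opR_gmul, opR_cons, opR_nil, h2] at h4
  have h5 : opR eD f ∈ Hd 4 d := opR_mem _ h1
  generalize opR eD f = g at h4 h5
  have h6 : MvPolynomial.eval (fun i => (w.toV i : ℚ)) (sub p.2.toM g) =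
      MvPolynomial.eval (fun i => (w.toV i : ℚ)) g := by
    rw [eval_sub, mv_cast, ← toV_app]
    rcases phi_eq_iff.1 (at_eq_iff.2 h3) with e | e
    · rw [e]
    · have h7 := eval_smul_Hd h5 (-1) fun i => (w.toV i : ℚ)
      rw [hd.neg_one_pow, one_mul] at h7
      rw [e, ← h7]
      congr 2
      funext i
      simp
  have h8 := congrArg (MvPolynomial.eval fun i => (w.toV i : ℚ)) h4
  simp only [map_add, MvPolynomial.smul_eval, h6, map_zero] at h8
  push_cast at h8
  linarith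

theorem l5_nm {w : CL} {sh : GR} (hw : chn w ∈ Sup Spans)
    (h1 : chkC (opC eD w ++ csm (-10) w) = true) (h2 : chkC (opC sh w) = true)
    (hs : ∀ p ∈ sh, p.2.det * p.2.det = 1) (hg : g ∈ Rsp sh d) (x : Ch Mt) :
    Nm (chn w) g x = 0 := by
  obtain ⟨h, -, rfl⟩ := hg
  have h3 := chkC_sound h1
  rw [chn_append, chn_csm, add_eq_zero_iff_eq_neg, ← neg_smul] at h3
  rw [LinearMap.comp_apply, ← nm_opC k_det.1 hw, h3, nm_smul_left hw, ← nm_opC hs hw,
    chkC_sound h2, nm_zero_left, smul_zero]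

theorem nm_psi (hg : g ∈ Rsp shX1 d) (x : Ch Mt) : Nm (chn psiL) g x = 0 := by
  exact l5_nm psi_spans k_psi_eD k_psi_sh k_det.2.2.1 hg x

theorem nm_zeta (hg : g ∈ Rsp shY1 d) (x : Ch Mt) : Nm (chn zetaD) g x = 0 := by
  exact l5_nm zetaD_spans k_zeta_eD k_zeta_sh k_det.2.1 hg x

theorem recover (hd : Even d) (hg : g ∈ Rsp shY1 d) :
    opR R5 (opR m0 g) = (-200 : ℚ) • g := by
  obtain ⟨h, hh, rfl⟩ := hg
  have h0 : opR shY1 h ∈ Hd 4 d := opR_mem _ hh
  have h1 := chkG_sound k_m0 hd h0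
  have h2 := chkG_sound k_m1 hd h0
  have h3 := chkG_sound k_m2 hd hh
  rw [opR_append, opR_gsm, opR_gmul eD m0] at h1
  rw [opR_append, opR_gsm, opR_gmul _ R5] at h2
  rw [opR_append, opR_gsm, opR_gmul, opR_gmul] at h3
  rw [LinearMap.comp_apply, eq_neg_of_add_eq_zero_left h1, map_neg, map_smul,
    eq_neg_of_add_eq_zero_left h2, eq_neg_of_add_eq_zero_left h3]
  push_cast
  module

theorem cocycle (hd : Even d) (hx : g ∈ Rsp shX1 d) (hy : g ∈ Rsp shY1 d) {y : Ch Mt}
    (h : y ∈ Sup Spans) : Nm (chn zL) g (del Cell y) = 0 := by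
  have hk : chn [(1, k0L)] ∈ Sup Spans := chn_one k0L ▸ k0_spans
  have ht := opC_mem k_det.2.2.2.1 hk
  have h1 := chkC_sound k_zetaD
  rw [zeta, chn_append, chn_append, chn_append, chn_csm, chn_csm, chn_csm, chn_csm, chn_bdL] at h1
  have h2 : bd (chn zL) = (10 : ℚ) • chn psiL + (-1 : ℚ) • chn (opC thc [(1, k0L)]) +
      (-1 : ℚ) • chn zetaD := by
    push_cast at h1
    linear_combination (norm := module) -h1
  have h3 : ∀ y ∈ Sup Spans, Nm (chn zL) g (del Cell y) =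
      -Nm (br (k0L.map V4.at)) (opR thc g) y := fun y hy' => by
    rw [nm_del zL_mem bd_zL_spans g hy', h2,
      nm_add_left (add_mem (Submodule.smul_mem _ _ psi_spans) (Submodule.smul_mem _ _ ht))
        (Submodule.smul_mem _ _ zetaD_spans),
      nm_add_left (Submodule.smul_mem _ _ psi_spans) (Submodule.smul_mem _ _ ht),
      nm_smul_left psi_spans, nm_smul_left ht, nm_smul_left zetaD_spans, nm_psi hx, nm_zeta hy,
      nm_opC k_det.2.2.2.1 hk, chn_one, smul_zero, smul_zero, zero_add, add_zero, neg_one_smul]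
  have h4 := h3 _ (del_mem_spans tau_spans)
  rw [del_del_cell tau_spans, map_zero, eq_comm, neg_eq_zero] at h4
  rw [h3 y h, theta_zero (opR_mem thc (Rsp_le _ _ hx)) ((van_of_Rsp hd hx).opR k_thc) h4,
    neg_zero]

end Pool.Agent.MP_cbe134_nt.V
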