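import Pool.Agent.MP_cbe134_nt.VL5
import Pool.Agent.MP_cbe134_nt.VG8
import Pool.Agent.MP_cbe134_nt.VC8
import Pool.Agent.MP_cbe134_nt.VC9
import Pool.Agent.MP_cbe134_nt.VK3

/- Every element of both eigenspaces comes from the facet between two domains of type `D₄`. -/

open Matrix Finsupp

namespace Pool.Agent.MP_cbe134_nt.V

theorem exists_prim {d : ℕ} (hd : Even d) (Φ : Ch Mt →ₗ[ℚ] Pn 4)
    (hT : ∀ x ∈ Wc 8, Φ x ∈ Hd 4 d) (hα : ∀ a, ∀ x ∈ Wc 8, Φ (ga a x) = rhoI a (Φ x))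
    (hδ : ∀ y ∈ Wc 7, Φ (del Cell y) = 0) : ∃ Ψ : Ch Mt →ₗ[ℚ] Pn 4,
      (∀ x ∈ Wc 9, Ψ x ∈ Hd 4 d) ∧ (∀ a, ∀ x ∈ Wc 9, Ψ (ga a x) = rhoI a (Ψ x)) ∧
      ∀ x ∈ Wc 8, Ψ (del Cell x) = Φ x :=
  zigzag ga act_ga (Wc 9) (Wc 8) (Wc 7) (stb_Wc 9) (stb_Wc 8) (del Cell)
    (fun _ hx => del_mem_Wc (j := 8) (by norm_num) hx)
    (fun a _ hx => del_ga a (Wc_le_spans (j := 8) (by norm_num) hx)) va va_one va_mul
    {q | Vert q} (fun a _ hq => va_vert a hq) (fun _ hq => vstab_fin hq) dt dt_sq dt_mul dd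
    (fun _ hx => dd_mem hx) (fun a _ hx => dd_ga a hx) (fun _ hx => dd_aug hx)
    (fun _ hx => dd_del hx) (fun _ hx h => ex8 hx h) (fun _ hx h => ex9 hx h)
    (fun _ hq _ hq' => ex10 hq hq') rhoI act_rhoI (Hd 4 d) stb_rhoI (v2_GL4 hd) Φ hT hα hδ

theorem chi33M_toM (A : M4) : chi33M A.toM = chi33 A := by
  unfold chi33M chi33
  rw [← toM_pb, toM_det]
  by_cases h : A.pb q1m = q1m
  · rw [if_pos h, if_pos (congrArg M4.toM h)]
  · rw [if_neg h, if_neg fun e => h (toM_inj e), Int.cast_neg]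

theorem l6_inv {Ψ : Ch Mt →ₗ[ℚ] Pn 4} (hΨ : ∀ a, ∀ x ∈ Wc 9, Ψ (ga a x) = rhoI a (Ψ x))
    {A B : M4} (h : A.mul B = M4.one) {x : Ch Mt} (hx : x ∈ Wc 9) :
    sub A.toM (Ψ x) = Ψ (act (cj B.toM) x) := by
  have h1 : A.toM * B.toM = 1 := by rw [← toM_mul, h, toM_one]
  exact (hΨ ⟨B.toM, A.toM, mul_eq_one_comm.1 h1, h1⟩ x hx).symm

theorem l6_R5 {Ψ : Ch Mt →ₗ[ℚ] Pn 4} (hΨ : ∀ a, ∀ x ∈ Wc 9, Ψ (ga a x) = rhoI a (Ψ x))
    {w : CL} (hw : chn w ∈ Wc 9) : opR R5 (Ψ (chn w)) = Ψ (chn (opC R5 w)) := by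
  rw [chn_opC, opR_eq, k_R5.1]
  simp only [List.map_cons, List.map_nil, List.sum_cons, List.sum_nil, Int.cast_one, one_smul,
    add_zero, map_add]
  rw [l6_inv hΨ (A := M4.one) (B := M4.one) (by decide) hw,
    l6_inv hΨ (A := rM) (B := ((rM.mul rM).mul rM).mul rM) (by decide) hw,
    l6_inv hΨ (A := rM.mul rM) (B := (rM.mul rM).mul rM) (by decide) hw,
    l6_inv hΨ (A := (rM.mul rM).mul rM) (B := rM.mul rM) (by decide) hw,
    l6_inv hΨ (A := ((rM.mul rM).mul rM).mul rM) (B := rM) (by decide) hw]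
  abel

theorem l6_sign {A : M4} (hA : A ∈ G33) :
    act (cj A.toM) (br (s33.map V4.at)) = (chi33 A : ℚ) • br (s33.map V4.at) := by
  have h := chkC_sound (k_sign33 A hA)
  rw [chn_cons, chn_cons, chn_nil, add_zero, Int.cast_one, one_smul, Int.cast_neg, neg_smul,
    add_neg_eq_zero] at h
  rw [act_br_at]
  exact h

theorem l6_mem {d : ℕ} {Ψ : Ch Mt →ₗ[ℚ] Pn 4} (hT : ∀ x ∈ Wc 9, Ψ x ∈ Hd 4 d)
    (hΨ : ∀ a, ∀ x ∈ Wc 9, Ψ (ga a x) = rhoI a (Ψ x)) : Ψ (br (s33.map V4.at)) ∈ I33 d := by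
  refine ⟨hT _ s33_mem, fun M hM => ?_⟩
  have hdet := (stab_group (q := q33) (by decide) mem_G33 nodup_G33).2.2.2.2.2 M hM
  obtain ⟨γ, hγ⟩ := exists_GL hdet
  obtain ⟨A, hA, rfl⟩ := List.mem_map.1 hM
  have h1 := sub_rhoI γ (Ψ (br (s33.map V4.at)))
  rw [← hΨ γ _ s33_mem, ga, hγ, l6_sign hA, map_smul, map_smul] at h1
  have h2 : (chi33 A : ℚ) * chi33 A = 1 := by
    rw [toM_det] at hdet
    unfold chi33
    split_ifs
    · exact_mod_cast hdet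
    · rw [Int.cast_neg, neg_mul_neg]
      exact_mod_cast hdet
  rw [chi33M_toM]
  conv_rhs => rw [← h1, smul_smul, h2, one_smul]

theorem inter_le_map {d : ℕ} (hd : Even d) :
    Rsp shX1 d ⊓ Rsp shY1 d ≤ (I33 d).map (opR R5) := by
  rintro g ⟨hx, hy⟩
  obtain ⟨Ψ, hT, hΨ, hδ⟩ := exists_prim hd (Nm (chn zL) g)
    (fun x _ => nm_mem zL_spans (Rsp_le _ _ hx) x) (fun a x _ => nm_ga zL_spans g a x)
    fun y h => cocycle hd hx hy (Wc_le_spans le_rfl h)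
  have h1 := hδ _ u0_mem
  rw [nm_u0, del_u0, map_add] at h1
  have e : chn [(1, e02 :: u0L), (1, e13 :: u0L)] =
      br ((e02 :: u0L).map V4.at) + br ((e13 :: u0L).map V4.at) := by
    rw [chn_cons, chn_one, Int.cast_one, one_smul]
  have h2 := l6_R5 hΨ (w := [(1, e02 :: u0L), (1, e13 :: u0L)])
    (e ▸ add_mem fac02_mem fac13_mem)
  rw [chkC_sound k_facets, map_zero, e] at h2
  have h3 := recover hd hy
  rw [← h1, map_add, h2, zero_add] at h3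
  refine ⟨(-200 : ℚ)⁻¹ • Ψ (br (s33.map V4.at)), Submodule.smul_mem _ _ (l6_mem hT hΨ), ?_⟩
  rw [map_smul, h3, smul_smul, inv_mul_cancel₀ (by norm_num), one_smul]

end Pool.Agent.MP_cbe134_nt.V
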