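import Pool.Agent.MP_cbe134_nt.VG1
import Pool.Agent.MP_cbe134_nt.VK1
import Pool.Agent.MP_cbe134_nt.VK3

/- The invariants of `D₄` embed into those of the facet and are killed by the cyclic sum. -/

open Matrix

namespace Pool.Agent.MP_cbe134_nt.V

/-- the rotation of order five -/
def l7_r : Mt := rM.toM

/-- its inverse -/
def l7_s : Mt := l7_r * l7_r * l7_r * l7_r

theorem l7_sr : l7_s * l7_r = 1 := by
  have h := congrArg M4.toM k_R5.2.1
  simp only [toM_mul, toM_one] at h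
  exact h

theorem l7_rs : l7_r * l7_s = 1 := by
  rw [← l7_sr]
  simp only [l7_s, Matrix.mul_assoc]

theorem l7_ss : l7_s * l7_s = l7_r * l7_r * l7_r := by
  have h : l7_s * l7_s = (l7_s * l7_r) * (l7_r * l7_r * l7_r) := by
    simp only [l7_s, Matrix.mul_assoc]
  rw [h, l7_sr, Matrix.one_mul]

theorem l7_pb_r : pb l7_r q2m.toM = q1m.toM := by
  have h := congrArg M4.toM k_R5.2.2.1
  rw [toM_pb] at h
  exact h

theorem l7_pb_s : pb l7_s q1m.toM = q2m.toM := by
  rw [← l7_pb_r, ← pb_mul, l7_rs, pb_one]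

theorem l7_det_r : l7_r.det = 1 := by
  have h : rM.det = 1 := by decide +kernel
  rw [l7_r, toM_det, h]

theorem l7_det_s : l7_s.det = 1 := by
  simp only [l7_s, Matrix.det_mul, l7_det_r, mul_one]

theorem l7_ne : q2m.toM ≠ q1m.toM := by
  intro h
  have h1 := toM_inj h
  exact absurd h1 (by decide +kernel)

theorem l7_act {d : ℕ} {b : Pn 4} (hb : b ∈ ID4 d) {A : Mt} (hA : pb A q1m.toM = q1m.toM) :
    sub A b = (A.det : ℚ) • b := by
  obtain ⟨B, rfl⟩ := toM_surj A
  have h1 : B.pb q1m = q1m := toM_inj (by rw [toM_pb]; exact hA)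
  exact hb.2 B.toM (List.mem_map_of_mem ((mem_GD B).2 h1))

/-- the comparison map -/
noncomputable def l7_io : Pn 4 →ₗ[ℚ] Pn 4 := LinearMap.id - (sub l7_s).toLinearMap

theorem l7_io_apply (b : Pn 4) : l7_io b = b - sub l7_s b := rfl

theorem l7_mem {d : ℕ} {b : Pn 4} (hb : b ∈ ID4 d) : l7_io b ∈ I33 d := by
  refine ⟨?_, ?_⟩
  · rw [l7_io_apply]
    exact Submodule.sub_mem _ hb.1 (sub_mem _ hb.1)
  · intro A hA
    obtain ⟨B, hB, rfl⟩ := List.mem_map.1 hA
    rw [l7_io_apply, map_sub, sub_sub]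
    rcases k_swap33 B hB with ⟨h1, h2⟩ | ⟨h1, h2⟩
    · have h1' : pb B.toM q1m.toM = q1m.toM := by rw [← toM_pb, h1]
      have h2' : pb B.toM q2m.toM = q2m.toM := by rw [← toM_pb, h2]
      have h3 : pb (l7_s * B.toM * l7_r) q1m.toM = q1m.toM := by
        rw [pb_mul, pb_mul, l7_pb_s, h2', l7_pb_r]
      have h4 : l7_s * B.toM = (l7_s * B.toM * l7_r) * l7_s := by
        rw [Matrix.mul_assoc (l7_s * B.toM), l7_rs, Matrix.mul_one]
      have h5 : (l7_s * B.toM * l7_r).det = B.toM.det := by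
        rw [Matrix.det_mul, Matrix.det_mul, l7_det_r, l7_det_s, one_mul, mul_one]
      rw [h4, ← sub_sub, l7_act hb h3, l7_act hb h1', h5, map_smul, chi33M, if_pos h1', smul_sub]
    · have h1' : pb B.toM q1m.toM = q2m.toM := by rw [← toM_pb, h1]
      have h2' : pb B.toM q2m.toM = q1m.toM := by rw [← toM_pb, h2]
      have h3 : pb (B.toM * l7_r) q1m.toM = q1m.toM := by
        rw [pb_mul, h1', l7_pb_r]
      have h4 : B.toM = (B.toM * l7_r) * l7_s := by
        rw [Matrix.mul_assoc, l7_rs, Matrix.mul_one]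
      have h5 : (B.toM * l7_r).det = B.toM.det := by
        rw [Matrix.det_mul, l7_det_r, mul_one]
      have h6 : pb (l7_s * B.toM) q1m.toM = q1m.toM := by
        rw [pb_mul, l7_pb_s, h2']
      have h7 : (l7_s * B.toM).det = B.toM.det := by
        rw [Matrix.det_mul, l7_det_s, one_mul]
      have h8 : sub B.toM b = (B.toM.det : ℚ) • sub l7_s b := by
        conv_lhs => rw [h4]
        rw [← sub_sub, l7_act hb h3, h5, map_smul]
      have h9 : ¬ pb B.toM q1m.toM = q1m.toM := by rw [h1']; exact l7_ne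
      rw [h8, l7_act hb h6, h7, chi33M, if_neg h9, neg_smul, smul_sub, neg_sub]

theorem l7_kill (b : Pn 4) : opR R5 (l7_io b) = 0 := by
  have e1 : l7_s * (l7_r * l7_r) = l7_r := by
    rw [← Matrix.mul_assoc, l7_sr, Matrix.one_mul]
  have e2 : l7_s * (l7_r * l7_r * l7_r) = l7_r * l7_r := by
    rw [← Matrix.mul_assoc, e1]
  have e3 : l7_s * (l7_r * l7_r * l7_r * l7_r) = l7_r * l7_r * l7_r := by
    rw [← Matrix.mul_assoc, e2]
  have hr : rM.toM = l7_r := rfl
  have hs : l7_r * l7_r * l7_r * l7_r = l7_s := rfl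
  rw [k_R5.1, l7_io_apply]
  simp only [opR_cons, opR_nil, toM_mul, toM_one, hr, map_sub, sub_sub, Int.cast_one, one_smul,
    Matrix.mul_one, l7_sr, e1, e2, e3, sub_one]
  rw [hs]
  abel

theorem l7_inj {d : ℕ} {b : Pn 4} (hb : b ∈ ID4 d) (h : l7_io b = 0) : b = 0 := by
  have h1 : sub l7_s b = b := by
    rw [l7_io_apply, sub_eq_zero] at h
    exact h.symm
  have h3 : sub (l7_r * l7_r * l7_r) b = b := by
    rw [← l7_ss, ← sub_sub, h1, h1]
  obtain ⟨k1, k2, k3, k4, k5, k6, k7, k8⟩ := k_words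
  have hr : rM.toM = l7_r := rfl
  have a1 : sub hT.toM b = b := by
    rw [l7_act hb (by rw [← toM_pb, k1]), toM_det, k4, Int.cast_one, one_smul]
  have a2 : sub hR1.toM b = b := by
    rw [l7_act hb (by rw [← toM_pb, k2]), toM_det, k5, Int.cast_one, one_smul]
  have a3 : sub hR2.toM b = -b := by
    rw [l7_act hb (by rw [← toM_pb, k3]), toM_det, k6, Int.cast_neg, Int.cast_one, neg_one_smul]
  have b1 := congrArg M4.toM k7
  have b2 := congrArg M4.toM k8
  simp only [toM_mul, hr] at b1 b2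
  have c1 : (1 + Matrix.single (0 : Fin 4) (2 : Fin 4) (1 : ℤ) : Mt) =
      M4.toM ⟨⟨1, 0, 1, 0⟩, ⟨0, 1, 0, 0⟩, ⟨0, 0, 1, 0⟩, ⟨0, 0, 0, 1⟩⟩ := by
    ext i j
    fin_cases i <;> fin_cases j <;> simp [M4.toM]
  have c2 : (Matrix.diagonal (Function.update 1 (0 : Fin 4) (-1 : ℤ)) : Mt) =
      M4.toM ⟨⟨-1, 0, 0, 0⟩, ⟨0, 1, 0, 0⟩, ⟨0, 0, 1, 0⟩, ⟨0, 0, 0, 1⟩⟩ := by
    ext i j
    fin_cases i <;> fin_cases j <;> simp [M4.toM]
  refine kill (i := 0) (j := 2) (c := 1) (by decide) one_ne_zero ?_ ?_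
  · rw [c1, ← b1, ← sub_sub, a1, h3]
  · rw [c2, ← b2, ← sub_sub (l7_r * l7_r * l7_r), ← sub_sub hR2.toM,
      ← sub_sub (l7_r * l7_r * l7_r), a2, h3, a3, map_neg, h3]

theorem map_add_le (d : ℕ) :
    Module.finrank ℚ ((I33 d).map (opR R5)) + Module.finrank ℚ (ID4 d) ≤
      Module.finrank ℚ (I33 d) := by
  have : FiniteDimensional ℚ (I33 d) := fin_of_le (d := d) fun f hf => hf.1
  have h1 := LinearMap.finrank_range_add_finrank_ker ((opR R5).domRestrict (I33 d))
  rw [LinearMap.range_domRestrict] at h1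
  let j : ID4 d →ₗ[ℚ] LinearMap.ker ((opR R5).domRestrict (I33 d)) :=
    LinearMap.codRestrict _
      (LinearMap.codRestrict (I33 d) (l7_io.domRestrict (ID4 d)) fun b => l7_mem b.2)
      fun b => by
        rw [LinearMap.mem_ker, LinearMap.domRestrict_apply]
        exact l7_kill b
  have hj : Function.Injective j := by
    rw [injective_iff_map_eq_zero]
    intro b hb
    have h2 : l7_io b = 0 := congrArg (fun x => x.1.1) hb
    exact Subtype.ext (l7_inj b.2 h2)
  have h3 := LinearMap.finrank_le_finrank_of_injective hj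
  omega

end Pool.Agent.MP_cbe134_nt.V
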