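import Pool.Agent.MP_cbe134_nt.VPoly

/- Molien's formula. -/

open MvPolynomial Matrix

namespace Pool.Agent.MP_cbe134_nt.V

variable {n : ℕ}

section field

variable {K : Type} [Field K]

/-- linear substitution over a field -/
noncomputable def mol_sub (A : Matrix (Fin n) (Fin n) K) :
    MvPolynomial (Fin n) K →ₐ[K] MvPolynomial (Fin n) K :=
  aeval fun i => ∑ j, C (A i j) * X j

/-- exponents of degree `d` -/
noncomputable def mol_S (n d : ℕ) : Finset (Fin n →₀ ℕ) := Finset.finsuppAntidiag Finset.univ d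

/-- the trace on forms of degree `d` -/
noncomputable def mol_t (A : Matrix (Fin n) (Fin n) K) (d : ℕ) : K :=
  ∑ α ∈ mol_S n d, coeff α (mol_sub A (monomial α 1))

theorem mol_mem_S {d : ℕ} {α : Fin n →₀ ℕ} : α ∈ mol_S n d ↔ α.degree = d := by
  simp [mol_S, Finsupp.degree_eq_sum]

theorem mol_expand {d : ℕ} {f : MvPolynomial (Fin n) K} (hf : f.IsHomogeneous d) :
    f = ∑ α ∈ mol_S n d, coeff α f • monomial α (1 : K) := by
  ext β
  simp only [coeff_sum, coeff_smul, coeff_monomial, smul_eq_mul, mul_ite, mul_one, mul_zero,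
    Finset.sum_ite_eq', mol_mem_S]
  split_ifs with h
  exacts [rfl, hf.coeff_eq_zero h]

theorem mol_sub_hom (A : Matrix (Fin n) (Fin n) K) {d : ℕ} {f : MvPolynomial (Fin n) K}
    (hf : f.IsHomogeneous d) : (mol_sub A f).IsHomogeneous d := by
  have := hf.aeval (fun i => ∑ j, C (A i j) * X j : Fin n → MvPolynomial (Fin n) K) (n := 1)
    fun i => IsHomogeneous.sum _ _ _ fun j _ => isHomogeneous_C_mul_X _ _
  rwa [one_mul] at this

theorem mol_sub_mul (A B : Matrix (Fin n) (Fin n) K) (f : MvPolynomial (Fin n) K) :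
    mol_sub (A * B) f = mol_sub B (mol_sub A f) := by
  have : mol_sub (A * B) = (mol_sub B).comp (mol_sub A) := by
    refine algHom_ext fun i => ?_
    simp only [mol_sub, AlgHom.comp_apply, aeval_X, map_sum, map_mul, aeval_C, algebraMap_eq,
      Matrix.mul_apply, Finset.sum_mul, Finset.mul_sum, mul_assoc]
    exact Finset.sum_comm
  rw [this, AlgHom.comp_apply]

theorem mol_t_mul (A B : Matrix (Fin n) (Fin n) K) (d : ℕ) :
    mol_t (A * B) d = ∑ α ∈ mol_S n d, ∑ β ∈ mol_S n d,
      coeff β (mol_sub A (monomial α 1)) * coeff α (mol_sub B (monomial β 1)) := by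
  refine Finset.sum_congr rfl fun α hα => ?_
  rw [mol_sub_mul, mol_expand (mol_sub_hom A (isHomogeneous_monomial 1 (mol_mem_S.1 hα))), map_sum,
    coeff_sum, ← mol_expand (mol_sub_hom A (isHomogeneous_monomial 1 (mol_mem_S.1 hα)))]
  simp only [map_smul, coeff_smul, smul_eq_mul]

theorem mol_t_comm (A B : Matrix (Fin n) (Fin n) K) (d : ℕ) : mol_t (A * B) d = mol_t (B * A) d := by
  rw [mol_t_mul, mol_t_mul, Finset.sum_comm]
  simp only [mul_comm]

theorem mol_rev_comm (A B : Matrix (Fin n) (Fin n) K) :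
    (A * B).charpolyRev = (B * A).charpolyRev := by
  rw [← reverse_charpoly, ← reverse_charpoly, charpoly_mul_comm]

theorem mol_t_diag (μ : Fin n → K) (d : ℕ) :
    mol_t (diagonal μ) d = ∑ α ∈ mol_S n d, ∏ i, μ i ^ α i := by
  refine Finset.sum_congr rfl fun α _ => ?_
  have h : ∀ i, (∑ j, C (diagonal μ i j) * X j : MvPolynomial (Fin n) K) = C (μ i) * X i := by
    intro i
    rw [Finset.sum_eq_single i (fun j _ hj => by rw [diagonal_apply_ne' _ hj, map_zero, zero_mul])
      (by simp), diagonal_apply_eq]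
  have h2 : mol_sub (diagonal μ) (monomial α 1) = monomial α (∏ i, μ i ^ α i) := by
    rw [mol_sub, aeval_monomial, monomial_eq, map_one, one_mul, Finsupp.prod_fintype _ _ (by simp),
      Finsupp.prod_fintype _ _ (by simp), map_prod, ← Finset.prod_mul_distrib]
    exact Finset.prod_congr rfl fun i _ => by rw [h, mul_pow, map_pow]
  rw [h2, coeff_monomial, if_pos rfl]

theorem mol_geom (c : K) :
    (PowerSeries.mk fun k => c ^ k) * (1 - PowerSeries.X * PowerSeries.C c) = 1 := by
  ext k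
  rw [mul_sub, mul_one, ← mul_assoc, map_sub, PowerSeries.coeff_mul_C]
  cases k with
  | zero => simp
  | succ k => simp [PowerSeries.coeff_succ_mul_X, PowerSeries.coeff_one, pow_succ]

theorem mol_diag (μ : Fin n → K) :
    PowerSeries.mk (mol_t (diagonal μ)) * ((diagonal μ).charpolyRev : PowerSeries K) = 1 := by
  have h1 : PowerSeries.mk (mol_t (diagonal μ)) = ∏ i, PowerSeries.mk fun k => μ i ^ k := by
    ext d
    rw [PowerSeries.coeff_mk, mol_t_diag, PowerSeries.coeff_prod]
    simp only [PowerSeries.coeff_mk, mol_S]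
  have h2 : (diagonal μ).charpolyRev = ∏ i, (1 - Polynomial.X * Polynomial.C (μ i)) := by
    rw [charpolyRev, diagonal_map (map_zero _), ← diagonal_smul, ← diagonal_one, diagonal_sub,
      det_diagonal]
    rfl
  rw [h1, h2, ← Polynomial.coeToPowerSeries.ringHom_apply, map_prod, ← Finset.prod_mul_distrib]
  refine Finset.prod_eq_one fun i _ => ?_
  rw [← mol_geom (μ i), map_sub, map_mul, map_one, Polynomial.coeToPowerSeries.ringHom_apply,
    Polynomial.coeToPowerSeries.ringHom_apply, Polynomial.coe_X, Polynomial.coe_C]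

theorem mol_diagonalize [IsAlgClosed K] [CharZero K] (A : Matrix (Fin n) (Fin n) K) {N : ℕ}
    (hN : 0 < N) (hA : A ^ N = 1) :
    ∃ (P : Matrix (Fin n) (Fin n) K) (μ : Fin n → K), IsUnit P ∧ A * P = P * diagonal μ := by
  have h1 : Module.End.IsSemisimple (Matrix.toLinAlgEquiv' A) := by
    refine Module.End.isSemisimple_of_squarefree_aeval_eq_zero (p := Polynomial.X ^ N - 1)
      (Polynomial.X_pow_sub_one_separable_iff.2 (Nat.cast_ne_zero.2 hN.ne')).squarefree ?_
    rw [map_sub, map_pow, Polynomial.aeval_X, map_one, ← map_pow, hA, map_one, sub_self]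
  have h2 := h1.iSup_eigenspace_eq_top
  rw [Submodule.iSup_eq_span] at h2
  obtain ⟨f, h3, -, h4⟩ := Submodule.exists_fun_fin_finrank_span_eq K
    (⋃ c, (Module.End.eigenspace (Matrix.toLinAlgEquiv' A) c : Set (Fin n → K)))
  have h5 : n = Module.finrank K (Submodule.span K
      (⋃ c, (Module.End.eigenspace (Matrix.toLinAlgEquiv' A) c : Set (Fin n → K)))) := by
    rw [h2, finrank_top, Module.finrank_fin_fun]
  simp only [Set.mem_iUnion, SetLike.mem_coe, Module.End.mem_eigenspace_iff,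
    Matrix.toLinAlgEquiv'_apply] at h3
  choose μ hμ using h3
  refine ⟨Matrix.of fun i j => f (Fin.cast h5 j) i, fun j => μ (Fin.cast h5 j),
    linearIndependent_cols_iff_isUnit.1 (h4.comp _ (Fin.cast_injective h5)), ?_⟩
  ext i j
  rw [mul_diagonal, of_apply, mul_comm]
  exact congrFun (hμ (Fin.cast h5 j)) i

theorem mol_closed [IsAlgClosed K] [CharZero K] (A : Matrix (Fin n) (Fin n) K) {N : ℕ}
    (hN : 0 < N) (hA : A ^ N = 1) :
    PowerSeries.mk (mol_t A) * (A.charpolyRev : PowerSeries K) = 1 := by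
  obtain ⟨P, μ, hP, h⟩ := mol_diagonalize A hN hA
  obtain ⟨Q, hQ⟩ := hP.exists_right_inv
  have h1 : A = P * (diagonal μ * Q) := by rw [← mul_assoc, ← h, mul_assoc, hQ, mul_one]
  have h2 : diagonal μ * Q * P = diagonal μ := by rw [mul_assoc, mul_eq_one_comm.1 hQ, mul_one]
  have h3 : mol_t A = mol_t (diagonal μ) := funext fun d => by rw [h1, mol_t_comm, h2]
  rw [h3, h1, mol_rev_comm, h2, mol_diag]

theorem mol_t_map {L : Type} [Field L] (φ : K →+* L) (A : Matrix (Fin n) (Fin n) K) (d : ℕ) :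
    φ (mol_t A d) = mol_t (A.map φ) d := by
  have h : (MvPolynomial.map φ).comp (mol_sub A).toRingHom =
      (mol_sub (A.map φ)).toRingHom.comp (MvPolynomial.map φ) :=
    ringHom_ext (fun r => by simp [mol_sub]) fun i => by simp [mol_sub]
  rw [mol_t, mol_t, map_sum]
  refine Finset.sum_congr rfl fun α _ => ?_
  have h1 := RingHom.congr_fun h (monomial α 1)
  simp only [RingHom.comp_apply, AlgHom.toRingHom_eq_coe, RingHom.coe_coe, map_monomial,
    map_one] at h1
  rw [← h1, coeff_map]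

theorem mol_rev_map {L : Type} [Field L] (φ : K →+* L) (A : Matrix (Fin n) (Fin n) K) :
    A.charpolyRev.map φ = (A.map φ).charpolyRev := by
  rw [charpolyRev, charpolyRev, ← Polynomial.coe_mapRingHom, RingHom.map_det]
  congr 1
  ext i j : 1
  simp [Matrix.one_apply, apply_ite (Polynomial.map φ)]

end field

theorem mol_rat (A : Matrix (Fin n) (Fin n) ℚ) {N : ℕ} (hN : 0 < N) (hA : A ^ N = 1) :
    PowerSeries.mk (mol_t A) = (A.charpolyRev : PowerSeries ℚ)⁻¹ := by
  have h1 : PowerSeries.mk (mol_t A) * (A.charpolyRev : PowerSeries ℚ) = 1 := by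
    have h2 := mol_closed (A.map (algebraMap ℚ ℂ)) hN (by
      rw [← RingHom.mapMatrix_apply, ← map_pow, hA, map_one])
    apply PowerSeries.map_injective (algebraMap ℚ ℂ) (algebraMap ℚ ℂ).injective
    rw [map_mul, map_one, ← h2, ← mol_rev_map, Polynomial.polynomial_map_coe]
    congr 1
    ext d
    simp only [PowerSeries.coeff_map, PowerSeries.coeff_mk, mol_t_map]
  refine (PowerSeries.eq_inv_iff_mul_eq_one fun h => ?_).2 h1
  have h2 := congrArg PowerSeries.constantCoeff h1
  rw [map_mul, h, mul_zero, map_one] at h2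
  exact zero_ne_one h2

/-- the substitution restricted to forms of degree `d` -/
noncomputable abbrev mol_r (A : Mx n) (d : ℕ) : Hd n d →ₗ[ℚ] Hd n d :=
  (sub A).toLinearMap.restrict (p := Hd n d) (q := Hd n d) fun _ hf => sub_mem A hf

theorem mol_trace (A : Mx n) (d : ℕ) :
    LinearMap.trace ℚ (Hd n d) (mol_r A d) = mol_t (A.map (Int.cast : ℤ → ℚ)) d := by
  have h : mol_r A d = ∑ α ∈ (mol_S n d).attach, (lcoeff ℚ α.1 ∘ₗ (Hd n d).subtype).smulRight
      (⟨sub A (monomial α.1 1), sub_mem A (isHomogeneous_monomial 1 (mol_mem_S.1 α.2))⟩ : Hd n d) := by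
    ext f : 2
    have h1 := congrArg (sub A) (mol_expand f.2)
    rw [map_sum, ← Finset.sum_attach] at h1
    simpa [LinearMap.sum_apply] using h1
  rw [h, map_sum, mol_t, ← Finset.sum_attach (mol_S n d)]
  refine Finset.sum_congr rfl fun α _ => ?_
  rw [LinearMap.trace_smulRight]
  rfl

/-- trace of a substitution of finite order on the forms of degree `d` -/
theorem trace_sub (A : Mx n) (N : ℕ) (hN : 0 < N) (hA : A ^ N = 1) (d : ℕ) :
    LinearMap.trace ℚ (Hd n d)
      ((sub A).toLinearMap.restrict (p := Hd n d) (q := Hd n d) fun _ hf => sub_mem A hf) =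
      PowerSeries.coeff d (mol A) := by
  have h := mol_rat (A.map (Int.castRingHom ℚ)) hN (by
    rw [← RingHom.mapMatrix_apply, ← map_pow, hA, map_one])
  rw [mol_trace, mol]
  exact (PowerSeries.coeff_mk d _).symm.trans (congrArg (PowerSeries.coeff d) h)

theorem mol_order (G : List (Mx n)) (hmul : ∀ A ∈ G, ∀ B ∈ G, A * B ∈ G)
    (hinv : ∀ A ∈ G, ∃ B ∈ G, A * B = 1) {A : Mx n} (hA : A ∈ G) : ∃ N, 0 < N ∧ A ^ N = 1 := by
  have h1 : ∀ k : ℕ, A ^ (k + 1) ∈ {B | B ∈ G} := fun k => by
    induction k with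
    | zero => simpa using hA
    | succ k ih => rw [pow_succ]; exact hmul _ ih _ hA
  obtain ⟨i, j, hij, h⟩ := Set.Finite.exists_lt_map_eq_of_forall_mem h1 G.finite_toSet
  obtain ⟨B, -, hB⟩ := hinv A hA
  refine ⟨j - i, by omega, ((IsUnit.of_mul_eq_one B hB).pow (i + 1)).mul_eq_left.1 ?_⟩
  rw [← pow_add, h]
  congr 1
  omega

theorem mol_apply (G : List (Mx n)) (χ : Mx n → ℚ) (d : ℕ) (f : Hd n d) :
    ((G.map fun A => χ A • mol_r A d).sum f : Pn n) = (G.map fun A => χ A • sub A f).sum := by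
  induction G with
  | nil => simp
  | cons A G ih => simp [ih]

theorem mol_trace_sum (G : List (Mx n)) (χ : Mx n → ℚ) (d : ℕ)
    (h : ∀ A ∈ G, ∃ N, 0 < N ∧ A ^ N = 1) :
    LinearMap.trace ℚ (Hd n d) (G.map fun A => χ A • mol_r A d).sum =
      PowerSeries.coeff d ((G.map fun A => χ A • mol A).sum) := by
  induction G with
  | nil => simp
  | cons A G ih =>
    obtain ⟨N, h1, h2⟩ := h A List.mem_cons_self
    simp only [List.map_cons, List.sum_cons, map_add, map_smul]
    rw [ih fun B hB => h B (List.mem_cons_of_mem _ hB), trace_sub A N h1 h2]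

/-- the average over the group projects onto the isotypic part -/
theorem avg_mem (G : List (Mx n)) (χ : Mx n → ℚ) (hnd : G.Nodup)
    (hmul : ∀ A ∈ G, ∀ B ∈ G, A * B ∈ G) (hinv : ∀ A ∈ G, ∃ B ∈ G, A * B = 1)
    (hχ : ∀ A ∈ G, χ A * χ A = 1) (hχm : ∀ A ∈ G, ∀ B ∈ G, χ (A * B) = χ A * χ B) {d : ℕ}
    {f : Pn n} (hf : f ∈ Hd n d) : (G.map fun A => χ A • sub A f).sum ∈ Iso G χ d := by
  refine ⟨list_sum_mem fun g hg => ?_, fun B hB => ?_⟩
  · obtain ⟨A, -, rfl⟩ := List.mem_map.1 hg
    exact Submodule.smul_mem _ _ (sub_mem A hf)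
  · obtain ⟨B', -, hB'⟩ := hinv B hB
    have h1 : (G.map (· * B)).Perm G := by
      refine ((hnd.map fun A A' h => ?_).subperm fun g hg => ?_).perm_of_length_le (by simp)
      · have := congrArg (· * B') h
        simpa only [mul_assoc, hB', mul_one] using this
      · obtain ⟨A, hA, rfl⟩ := List.mem_map.1 hg
        exact hmul A hA B hB
    conv_rhs => rw [← (h1.map _).sum_eq]
    rw [map_list_sum, List.smul_sum, List.map_map, List.map_map, List.map_map]
    refine congrArg List.sum (List.map_congr_left fun A hA => ?_)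
    simp only [Function.comp_apply, map_smul, sub_sub, smul_smul]
    rw [hχm A hA B hB, mul_left_comm, hχ B hB, mul_one]

theorem molien (G : List (Mx n)) (χ : Mx n → ℚ) (hnd : G.Nodup) (h1 : (1 : Mx n) ∈ G)
    (hmul : ∀ A ∈ G, ∀ B ∈ G, A * B ∈ G) (hinv : ∀ A ∈ G, ∃ B ∈ G, A * B = 1)
    (hχ : ∀ A ∈ G, χ A * χ A = 1) (hχm : ∀ A ∈ G, ∀ B ∈ G, χ (A * B) = χ A * χ B) (d : ℕ) :
    (G.length : ℚ) * Module.finrank ℚ (Iso G χ d) =
      PowerSeries.coeff d ((G.map fun A => χ A • mol A).sum) := by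
  have h0 : (G.length : ℚ) ≠ 0 := Nat.cast_ne_zero.2 (List.length_pos_of_mem h1).ne'
  have hp : LinearMap.IsProj ((Iso G χ d).comap (Hd n d).subtype)
      ((G.length : ℚ)⁻¹ • (G.map fun A => χ A • mol_r A d).sum) := by
    refine ⟨fun f => Submodule.smul_mem _ _ ?_, fun f hf => Subtype.ext ?_⟩
    · rw [Submodule.mem_comap, Submodule.subtype_apply, mol_apply]
      exact avg_mem G χ hnd hmul hinv hχ hχm f.2
    · rw [LinearMap.smul_apply, Submodule.coe_smul, mol_apply,
        List.map_congr_left (g := fun _ => (f : Pn n)) fun A hA => by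
          rw [show sub A f = χ A • (f : Pn n) from hf.2 A hA, smul_smul, hχ A hA, one_smul],
        List.map_const', List.sum_replicate, ← Nat.cast_smul_eq_nsmul ℚ, smul_smul,
        inv_mul_cancel₀ h0, one_smul]
  have := Module.Free.of_divisionRing ℚ ((Iso G χ d).comap (Hd n d).subtype)
  have := Module.Free.of_divisionRing ℚ
    (LinearMap.ker ((G.length : ℚ)⁻¹ • (G.map fun A => χ A • mol_r A d).sum))
  have h2 := hp.trace
  rw [map_smul, mol_trace_sum G χ d fun A hA => mol_order G hmul hinv hA,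
    (Submodule.comapSubtypeEquivOfLe (p := Iso G χ d) fun f hf => hf.1).finrank_eq] at h2
  rw [← h2, smul_eq_mul, mul_inv_cancel_left₀ h0]

end Pool.Agent.MP_cbe134_nt.V
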