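import Pool.Agent.MP_cbe134_nt.VG1
import Pool.Agent.MP_cbe134_nt.VK3
import Pool.Agent.MP_cbe134_nt.VMol

/- The Molien series of the two stabilisers. -/

open Matrix

namespace Pool.Agent.MP_cbe134_nt.V

theorem l8_neg {E : Type} [AddCommGroup E] [Module ℚ E] (F : V4 → E) (l : List (ℤ × V4)) :
    ((l.map fun p => (-p.1, p.2)).map fun p : ℤ × V4 => (p.1 : ℚ) • F p.2).sum =
      -(l.map fun p => (p.1 : ℚ) • F p.2).sum := by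
  induction l with
  | nil => simp
  | cons a l ih =>
    rw [List.map_cons, List.map_cons, List.sum_cons, ih, List.map_cons, List.sum_cons,
      Int.cast_neg, neg_smul, neg_add]

theorem l8_sum (L : List M4) (χ : M4 → ℤ) (χ' : Mt → ℚ) (hχ : ∀ A, χ' A.toM = χ A)
    (cl : List (ℤ × V4))
    (h : chk V4.code (L.map (fun A => (χ A, A.cp)) ++ cl.map fun p => (-p.1, p.2)) = true) :
    ((L.map M4.toM).map fun A => χ' A • mol A).sum =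
      (cl.map fun p => (p.1 : ℚ) • p.2.ser).sum := by
  have h1 := chk_sound _ _ h V4.ser
  rw [List.map_append, List.sum_append, l8_neg, add_neg_eq_zero, List.map_map] at h1
  rw [← h1, List.map_map]
  refine congrArg List.sum (List.map_congr_left fun A _ => ?_)
  simp only [Function.comp_apply, hχ, mol_toM]

theorem l8_chi (A : M4) : chi33M A.toM = (chi33 A : ℚ) := by
  unfold chi33M chi33
  rw [← toM_pb, toM_det]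
  by_cases h : A.pb q1m = q1m
  · rw [if_pos h, if_pos (congrArg M4.toM h)]
  · rw [if_neg h, if_neg fun e => h (toM_inj e), Int.cast_neg]

theorem l8_swap {L : List M4} (hL : ∀ A ∈ L,
      (A.pb q1m = q1m ∧ A.pb q2m = q2m) ∨ (A.pb q1m = q2m ∧ A.pb q2m = q1m)) :
    ∀ A ∈ L.map M4.toM, (pb A q1m.toM = q1m.toM ∧ pb A q2m.toM = q2m.toM) ∨
      (pb A q1m.toM = q2m.toM ∧ pb A q2m.toM = q1m.toM) := by
  intro A hA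
  obtain ⟨B, hB, rfl⟩ := List.mem_map.1 hA
  rw [← toM_pb, ← toM_pb]
  rcases hL B hB with ⟨h, h'⟩ | ⟨h, h'⟩
  · exact Or.inl ⟨congrArg M4.toM h, congrArg M4.toM h'⟩
  · exact Or.inr ⟨congrArg M4.toM h, congrArg M4.toM h'⟩

theorem l8_mul {A B : Mt}
    (hA : (pb A q1m.toM = q1m.toM ∧ pb A q2m.toM = q2m.toM) ∨
      (pb A q1m.toM = q2m.toM ∧ pb A q2m.toM = q1m.toM))
    (hB : (pb B q1m.toM = q1m.toM ∧ pb B q2m.toM = q2m.toM) ∨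
      (pb B q1m.toM = q2m.toM ∧ pb B q2m.toM = q1m.toM)) :
    chi33M (A * B) = chi33M A * chi33M B := by
  have hne : q2m.toM ≠ q1m.toM := fun e => absurd (toM_inj e) (by decide)
  unfold chi33M
  rw [pb_mul, det_mul, Int.cast_mul]
  rcases hA with ⟨a1, -⟩ | ⟨a1, -⟩ <;> rcases hB with ⟨b1, b2⟩ | ⟨b1, b2⟩
  · rw [a1, b1, if_pos rfl, if_pos rfl, if_pos rfl]
  · rw [a1, b1, if_neg hne, if_pos rfl, if_neg hne, mul_neg]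
  · rw [a1, b1, b2, if_neg hne, if_neg hne, if_pos rfl, neg_mul]
  · rw [a1, b1, b2, if_pos rfl, if_neg hne, if_neg hne, neg_mul_neg]

theorem molien_33 (d : ℕ) : (144 : ℚ) * Module.finrank ℚ (I33 d) =
    PowerSeries.coeff d ((cl33.map fun p => (p.1 : ℚ) • p.2.ser).sum) := by
  obtain ⟨h1, -, h3, h4, h5, h6⟩ := stab_group (q := q33) (by decide) mem_G33 nodup_G33
  have h := molien (G33.map M4.toM) chi33M h1 h3 h4 h5 (fun A hA => by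
    have h7 : (A.det : ℚ) * (A.det : ℚ) = 1 := by exact_mod_cast h6 A hA
    unfold chi33M
    split_ifs
    · exact h7
    · rw [neg_mul_neg, h7])
    (fun A hA B hB => l8_mul (l8_swap k_swap33 A hA) (l8_swap k_swap33 B hB)) d
  rw [List.length_map, k_len33, l8_sum G33 chi33 chi33M l8_chi cl33 k_cl33, Nat.cast_ofNat] at h
  exact h

theorem molien_D (d : ℕ) : (1152 : ℚ) * Module.finrank ℚ (ID4 d) =
    PowerSeries.coeff d ((clD.map fun p => (p.1 : ℚ) • p.2.ser).sum) := by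
  obtain ⟨h1, -, h3, h4, h5, h6⟩ := stab_group (q := q1m) (by decide) mem_GD nodup_GD
  have h := molien (GD.map M4.toM) (fun A => (A.det : ℚ)) h1 h3 h4 h5
    (fun A hA => by exact_mod_cast h6 A hA)
    (fun A _ B _ => by rw [det_mul, Int.cast_mul]) d
  rw [List.length_map, k_lenD, l8_sum GD M4.det (fun A => (A.det : ℚ))
    (fun A => by rw [toM_det]) clD k_clD, Nat.cast_ofNat] at h
  exact h

section

open PowerSeries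

/-- the inverse of the common denominator -/
noncomputable def l8_E : PowerSeries ℚ := gs 2 * gs 6 * gs 8 * gs 12

theorem l8_gs {m : ℕ} (hm : m ≠ 0) : (1 - X ^ m) * gs m = 1 :=
  PowerSeries.mul_inv_cancel _ (by simp [hm])

theorem l8_smul (a : ℤ) (f : PowerSeries ℚ) : (a : ℚ) • f = (a : PowerSeries ℚ) * f := by
  rw [Algebra.smul_def, map_intCast]

theorem l8_ser (a b c d : ℤ) (Q : PowerSeries ℚ)
    (h : (1 - (a : PowerSeries ℚ) * X + (b : PowerSeries ℚ) * X ^ 2 - (c : PowerSeries ℚ) * X ^ 3 +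
      (d : PowerSeries ℚ) * X ^ 4) * Q = (1 - X ^ 2) * (1 - X ^ 6) * (1 - X ^ 8) * (1 - X ^ 12)) :
    V4.ser ⟨a, b, c, d⟩ = Q * l8_E := by
  unfold V4.ser
  simp only [l8_smul]
  rw [PowerSeries.inv_eq_iff_mul_eq_one (by simp), mul_comm, ← mul_assoc, h, l8_E]
  calc _ = ((1 - X ^ 2) * gs 2) * ((1 - X ^ 6) * gs 6) * ((1 - X ^ 8) * gs 8) *
        ((1 - X ^ 12) * gs 12) := by ring
    _ = 1 := by
      rw [l8_gs (by norm_num), l8_gs (by norm_num), l8_gs (by norm_num), l8_gs (by norm_num)]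
      ring

theorem l8_s0 : V4.ser ⟨-4, 6, -4, 1⟩ =
    (1 - 4 * X + 9 * X ^ 2 - 16 * X ^ 3 + 25 * X ^ 4 - 36 * X ^ 5 + 48 * X ^ 6 - 60 * X ^ 7 + 71
      * X ^ 8 - 80 * X ^ 9 + 87 * X ^ 10 - 92 * X ^ 11 + 94 * X ^ 12 - 92 * X ^ 13 + 87 * X ^ 14
      - 80 * X ^ 15 + 71 * X ^ 16 - 60 * X ^ 17 + 48 * X ^ 18 - 36 * X ^ 19 + 25 * X ^ 20 - 16 *
      X ^ 21 + 9 * X ^ 22 - 4 * X ^ 23 + X ^ 24) * l8_E :=
  l8_ser _ _ _ _ _ (by push_cast; ring)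

theorem l8_s1 : V4.ser ⟨-2, 0, 2, -1⟩ =
    (1 - 2 * X + 3 * X ^ 2 - 4 * X ^ 3 + 5 * X ^ 4 - 6 * X ^ 5 + 6 * X ^ 6 - 6 * X ^ 7 + 5 * X ^
      8 - 4 * X ^ 9 + 3 * X ^ 10 - 2 * X ^ 11 + 2 * X ^ 13 - 3 * X ^ 14 + 4 * X ^ 15 - 5 * X ^
      16 + 6 * X ^ 17 - 6 * X ^ 18 + 6 * X ^ 19 - 5 * X ^ 20 + 4 * X ^ 21 - 3 * X ^ 22 + 2 * X ^
      23 - X ^ 24) * l8_E :=
  l8_ser _ _ _ _ _ (by push_cast; ring)

theorem l8_s2 : V4.ser ⟨-2, 3, -2, 1⟩ =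
    (1 - 2 * X + 4 * X ^ 3 - 5 * X ^ 4 + 6 * X ^ 6 - 6 * X ^ 7 - X ^ 8 + 8 * X ^ 9 - 6 * X ^ 10
      - 4 * X ^ 11 + 10 * X ^ 12 - 4 * X ^ 13 - 6 * X ^ 14 + 8 * X ^ 15 - X ^ 16 - 6 * X ^ 17 +
      6 * X ^ 18 - 5 * X ^ 20 + 4 * X ^ 21 - 2 * X ^ 23 + X ^ 24) * l8_E :=
  l8_ser _ _ _ _ _ (by push_cast; ring)

theorem l8_s3 : V4.ser ⟨-1, 0, -1, 1⟩ =
    (1 - X - X ^ 3 + X ^ 4 - X ^ 8 + X ^ 9 + X ^ 11 - 2 * X ^ 12 + X ^ 13 + X ^ 15 - X ^ 16 + X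
      ^ 20 - X ^ 21 - X ^ 23 + X ^ 24) * l8_E :=
  l8_ser _ _ _ _ _ (by push_cast; ring)

theorem l8_s4 : V4.ser ⟨-1, 0, 1, -1⟩ =
    (1 - X + X ^ 3 - X ^ 4 - X ^ 8 + X ^ 9 - X ^ 11 + X ^ 13 - X ^ 15 + X ^ 16 + X ^ 20 - X ^ 21
      + X ^ 23 - X ^ 24) * l8_E :=
  l8_ser _ _ _ _ _ (by push_cast; ring)

theorem l8_s5 : V4.ser ⟨0, -2, 0, 1⟩ =
    (1 + X ^ 2 + X ^ 4 - X ^ 8 - X ^ 10 - 2 * X ^ 12 - X ^ 14 - X ^ 16 + X ^ 20 + X ^ 22 + X ^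
      24) * l8_E :=
  l8_ser _ _ _ _ _ (by push_cast; ring)

theorem l8_s6 : V4.ser ⟨0, 0, 0, -1⟩ =
    (1 - X ^ 2 + X ^ 4 - 2 * X ^ 6 + X ^ 8 - X ^ 10 + X ^ 14 - X ^ 16 + 2 * X ^ 18 - X ^ 20 + X
      ^ 22 - X ^ 24) * l8_E :=
  l8_ser _ _ _ _ _ (by push_cast; ring)

theorem l8_s7 : V4.ser ⟨0, 1, 0, 1⟩ =
    (1 - 2 * X ^ 2 + X ^ 4 - X ^ 8 + 2 * X ^ 10 - 2 * X ^ 12 + 2 * X ^ 14 - X ^ 16 + X ^ 20 - 2
      * X ^ 22 + X ^ 24) * l8_E :=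
  l8_ser _ _ _ _ _ (by push_cast; ring)

theorem l8_s8 : V4.ser ⟨1, 0, -1, -1⟩ =
    (1 + X - X ^ 3 - X ^ 4 - X ^ 8 - X ^ 9 + X ^ 11 - X ^ 13 + X ^ 15 + X ^ 16 + X ^ 20 + X ^ 21
      - X ^ 23 - X ^ 24) * l8_E :=
  l8_ser _ _ _ _ _ (by push_cast; ring)

theorem l8_s9 : V4.ser ⟨1, 0, 1, 1⟩ =
    (1 + X + X ^ 3 + X ^ 4 - X ^ 8 - X ^ 9 - X ^ 11 - 2 * X ^ 12 - X ^ 13 - X ^ 15 - X ^ 16 + X
      ^ 20 + X ^ 21 + X ^ 23 + X ^ 24) * l8_E :=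
  l8_ser _ _ _ _ _ (by push_cast; ring)

theorem l8_s10 : V4.ser ⟨2, 0, -2, -1⟩ =
    (1 + 2 * X + 3 * X ^ 2 + 4 * X ^ 3 + 5 * X ^ 4 + 6 * X ^ 5 + 6 * X ^ 6 + 6 * X ^ 7 + 5 * X ^
      8 + 4 * X ^ 9 + 3 * X ^ 10 + 2 * X ^ 11 - 2 * X ^ 13 - 3 * X ^ 14 - 4 * X ^ 15 - 5 * X ^
      16 - 6 * X ^ 17 - 6 * X ^ 18 - 6 * X ^ 19 - 5 * X ^ 20 - 4 * X ^ 21 - 3 * X ^ 22 - 2 * X ^
      23 - X ^ 24) * l8_E :=
  l8_ser _ _ _ _ _ (by push_cast; ring)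

theorem l8_s11 : V4.ser ⟨2, 3, 2, 1⟩ =
    (1 + 2 * X - 4 * X ^ 3 - 5 * X ^ 4 + 6 * X ^ 6 + 6 * X ^ 7 - X ^ 8 - 8 * X ^ 9 - 6 * X ^ 10
      + 4 * X ^ 11 + 10 * X ^ 12 + 4 * X ^ 13 - 6 * X ^ 14 - 8 * X ^ 15 - X ^ 16 + 6 * X ^ 17 +
      6 * X ^ 18 - 5 * X ^ 20 - 4 * X ^ 21 + 2 * X ^ 23 + X ^ 24) * l8_E :=
  l8_ser _ _ _ _ _ (by push_cast; ring)

theorem l8_s12 : V4.ser ⟨4, 6, 4, 1⟩ =
    (1 + 4 * X + 9 * X ^ 2 + 16 * X ^ 3 + 25 * X ^ 4 + 36 * X ^ 5 + 48 * X ^ 6 + 60 * X ^ 7 + 71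
      * X ^ 8 + 80 * X ^ 9 + 87 * X ^ 10 + 92 * X ^ 11 + 94 * X ^ 12 + 92 * X ^ 13 + 87 * X ^ 14
      + 80 * X ^ 15 + 71 * X ^ 16 + 60 * X ^ 17 + 48 * X ^ 18 + 36 * X ^ 19 + 25 * X ^ 20 + 16 *
      X ^ 21 + 9 * X ^ 22 + 4 * X ^ 23 + X ^ 24) * l8_E :=
  l8_ser _ _ _ _ _ (by push_cast; ring)

theorem l8_s13 : V4.ser ⟨-2, 2, -2, 1⟩ =
    (1 - 2 * X + X ^ 2 + X ^ 4 - 2 * X ^ 5 + 2 * X ^ 7 - X ^ 8 - X ^ 10 + 2 * X ^ 11 - 2 * X ^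
      12 + 2 * X ^ 13 - X ^ 14 - X ^ 16 + 2 * X ^ 17 - 2 * X ^ 19 + X ^ 20 + X ^ 22 - 2 * X ^ 23
      + X ^ 24) * l8_E :=
  l8_ser _ _ _ _ _ (by push_cast; ring)

theorem l8_s14 : V4.ser ⟨0, -1, 0, 1⟩ =
    (1 - X ^ 4 - 2 * X ^ 6 - X ^ 8 + 2 * X ^ 10 + 2 * X ^ 12 + 2 * X ^ 14 - X ^ 16 - 2 * X ^ 18
      - X ^ 20 + X ^ 24) * l8_E :=
  l8_ser _ _ _ _ _ (by push_cast; ring)

theorem l8_s15 : V4.ser ⟨0, 0, 0, 1⟩ =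
    (1 - X ^ 2 - X ^ 4 + X ^ 8 + X ^ 10 - 2 * X ^ 12 + X ^ 14 + X ^ 16 - X ^ 20 - X ^ 22 + X ^
      24) * l8_E :=
  l8_ser _ _ _ _ _ (by push_cast; ring)

theorem l8_s16 : V4.ser ⟨0, 2, 0, 1⟩ =
    (1 - 3 * X ^ 2 + 5 * X ^ 4 - 8 * X ^ 6 + 11 * X ^ 8 - 13 * X ^ 10 + 14 * X ^ 12 - 13 * X ^
      14 + 11 * X ^ 16 - 8 * X ^ 18 + 5 * X ^ 20 - 3 * X ^ 22 + X ^ 24) * l8_E :=
  l8_ser _ _ _ _ _ (by push_cast; ring)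

theorem l8_s17 : V4.ser ⟨2, 2, 2, 1⟩ =
    (1 + 2 * X + X ^ 2 + X ^ 4 + 2 * X ^ 5 - 2 * X ^ 7 - X ^ 8 - X ^ 10 - 2 * X ^ 11 - 2 * X ^
      12 - 2 * X ^ 13 - X ^ 14 - X ^ 16 - 2 * X ^ 17 + 2 * X ^ 19 + X ^ 20 + X ^ 22 + 2 * X ^ 23
      + X ^ 24) * l8_E :=
  l8_ser _ _ _ _ _ (by push_cast; ring)

end

theorem ser_diff : (8 : ℚ) • (cl33.map fun p => (p.1 : ℚ) • p.2.ser).sum -
    (clD.map fun p => (p.1 : ℚ) • p.2.ser).sum = (1152 : ℚ) • ser4 := by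
  have h : ser4 = PowerSeries.X ^ 8 * (1 + 2 * PowerSeries.X ^ 4 + PowerSeries.X ^ 6 +
      PowerSeries.X ^ 8 + 2 * PowerSeries.X ^ 10 + PowerSeries.X ^ 14 - PowerSeries.X ^ 16) *
      l8_E := by
    unfold ser4 l8_E
    ring
  rw [h, Algebra.smul_def (8 : ℚ), Algebra.smul_def (1152 : ℚ), map_ofNat, map_ofNat]
  simp only [cl33, clD, List.map_cons, List.map_nil, List.sum_cons, List.sum_nil, l8_smul,
    l8_s0, l8_s1, l8_s2, l8_s3, l8_s4, l8_s5, l8_s6, l8_s7, l8_s8, l8_s9, l8_s10, l8_s11,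
    l8_s12, l8_s13, l8_s14, l8_s15, l8_s16, l8_s17]
  push_cast
  ring

theorem dim_diff (d : ℕ) : (Module.finrank ℚ (I33 d) : ℚ) - Module.finrank ℚ (ID4 d) =
    PowerSeries.coeff d ser4 := by
  have h := congrArg (PowerSeries.coeff d) ser_diff
  rw [map_sub, map_smul, map_smul, ← molien_33, ← molien_D, smul_eq_mul, smul_eq_mul] at h
  linarith

end Pool.Agent.MP_cbe134_nt.V
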