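import Pool.Agent.MP_cbe134_nt.VZ5
import Pool.Agent.MP_cbe134_nt.VPoly

/- Generators modulo lower depth and products are bounded by the double shuffle space. -/

namespace Pool.Agent.MP_cbe134_nt.V

open MvPolynomial in
/-- the form attached to a family of reals and a rational functional -/
noncomputable def z6_form (r d : ℕ) (reg : List ℕ → ℝ) : Module.Dual ℚ ℝ →ₗ[ℚ] Pn r :=
  ∑ a ∈ Finset.Nat.antidiagonalTuple r d,
    (monomial (Finsupp.equivFunOnFinite.symm a)) ∘ₗ
      (LinearMap.applyₗ (reg (List.ofFn fun i => a i + 1)))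

open MvPolynomial in
theorem z6_form_apply (r d : ℕ) (reg : List ℕ → ℝ) (ψ : Module.Dual ℚ ℝ) :
    z6_form r d reg ψ = ∑ a ∈ Finset.Nat.antidiagonalTuple r d,
      monomial (Finsupp.equivFunOnFinite.symm a) (ψ (reg (List.ofFn fun i => a i + 1))) := by
  simp [z6_form, LinearMap.sum_apply]

open MvPolynomial in
theorem z6_form_mem (r d : ℕ) (reg : List ℕ → ℝ) (ψ : Module.Dual ℚ ℝ) :
    z6_form r d reg ψ ∈ Hd r d := by
  rw [z6_form_apply]
  refine Submodule.sum_mem _ fun a ha => ?_
  rw [mem_homogeneousSubmodule]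
  refine isHomogeneous_monomial _ ?_
  rw [Finset.Nat.mem_antidiagonalTuple] at ha
  rw [Finsupp.degree_eq_sum, ← ha]
  rfl

open MvPolynomial in
theorem z6_ev (r d : ℕ) (reg : List ℕ → ℝ) (ψ : Module.Dual ℚ ℝ) (t : List ℚ)
    (ht : t.length = r) : ev (z6_form r d reg ψ) t = ψ (gen t reg d) := by
  have h1 : t = List.ofFn fun i : Fin r => t.getD i 0 := by
    subst ht
    apply List.ext_getElem
    · simp
    · intro i h1 h2
      simp [List.getD_eq_getElem?_getD]
  conv_rhs => rw [h1, gen_ofFn]
  rw [ev, z6_form_apply, map_sum, map_sum]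
  refine Finset.sum_congr rfl fun a _ => ?_
  rw [eval_monomial, map_smul, smul_eq_mul, mul_comm, Finsupp.prod_fintype _ _ (by simp)]
  rfl

open MvPolynomial in
theorem z6_coeff (r d : ℕ) (reg : List ℕ → ℝ) (ψ : Module.Dual ℚ ℝ)
    (h : z6_form r d reg ψ = 0) (a : Fin r → ℕ) (ha : ∑ i, a i = d) :
    ψ (reg (List.ofFn fun i => a i + 1)) = 0 := by
  classical
  have h2 := congrArg (coeff (Finsupp.equivFunOnFinite.symm a)) h
  rw [z6_form_apply, coeff_sum, Finset.sum_eq_single a] at h2
  · simpa using h2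
  · intro b _ hb
    rw [coeff_monomial, if_neg]
    intro hh
    exact hb (Finsupp.equivFunOnFinite.symm.injective hh)
  · intro hn
    exact absurd (Finset.Nat.mem_antidiagonalTuple.2 ha) hn

theorem z6_kill (r d : ℕ) (hr : 2 ≤ r) (reg : List ℕ → ℝ) (hreg : ∀ w, Adm w → reg w = mzv w)
    (ψ : Module.Dual ℚ ℝ) (h : z6_form r d reg ψ = 0)
    (hD : ∀ x ∈ Dec r (d + r), ψ x = 0) : ∀ x ∈ Fil r (d + r), ψ x = 0 := by
  have : Fil r (d + r) ≤ LinearMap.ker ψ := by
    rw [Fil, Submodule.span_le]
    rintro x ⟨w, hw, hs, hl, rfl⟩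
    rw [SetLike.mem_coe, LinearMap.mem_ker]
    rcases hl.lt_or_eq with hl | hl
    · apply hD
      refine Submodule.mem_sup_left ?_
      obtain ⟨r', rfl⟩ : ∃ r', r = r' + 1 := ⟨r - 1, by omega⟩
      exact Submodule.subset_span ⟨w, hw, hs, by omega, rfl⟩
    · subst hl
      have hw1 : (List.ofFn fun i : Fin w.length => (w[i] - 1) + 1) = w := by
        apply List.ext_getElem
        · simp
        · intro i h1 h2
          have := hw.1 w[i] (List.getElem_mem h2)
          simp only [List.getElem_ofFn, Fin.getElem_fin]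
          omega
      have hsum : ∑ i : Fin w.length, (w[i] - 1) = d := by
        have h3 := congrArg List.sum hw1
        rw [List.sum_ofFn, Finset.sum_add_distrib, hs] at h3
        simp only [Finset.sum_const, Finset.card_univ, Fintype.card_fin, smul_eq_mul,
          mul_one] at h3
        omega
      have := z6_coeff _ d reg ψ h (fun i => w[i] - 1) hsum
      rwa [hw1, hreg w hw] at this
  exact fun x hx => this hx

theorem exists_compl (r d : ℕ) (hr : 2 ≤ r) : ∃ G : Submodule ℚ ℝ, G ≤ Fil r (d + r) ∧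
    Fil r (d + r) ≤ Dec r (d + r) ⊔ G ∧ Module.finrank ℚ G ≤ Module.finrank ℚ (DS r d) := by
  obtain ⟨reg, hreg, -, hsh⟩ := exists_reg
  obtain ⟨C, hC⟩ := Submodule.exists_isCompl (Dec r (d + r))
  set G : Submodule ℚ ℝ := C ⊓ Fil r (d + r) with hG
  have := fin_Fil r (d + r)
  have : FiniteDimensional ℚ G := Submodule.finiteDimensional_of_le inf_le_right
  have : FiniteDimensional ℚ (DS r d) := fin_of_le (d := d) fun f hf => hf.1
  refine ⟨G, inf_le_right, ?_, ?_⟩
  · rw [hG, ← sup_inf_assoc_of_le _ (Dec_le r (d + r)), hC.sup_eq_top, top_inf_eq]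
  obtain ⟨ρ, hρ⟩ := LinearMap.exists_leftInverse_of_injective G.subtype G.ker_subtype
  let π : ℝ →ₗ[ℚ] G := ρ ∘ₗ C.subtype ∘ₗ C.projectionOnto _ hC.symm
  have hπ0 : ∀ x ∈ Dec r (d + r), π x = 0 := fun x hx => by
    simp only [π, LinearMap.comp_apply]
    rw [Submodule.projectionOnto_apply_of_mem_right hC.symm hx]
    simp
  have hπ1 : ∀ x : G, π x = x := fun x => by
    simp only [π, LinearMap.comp_apply]
    have := Submodule.projectionOnto_apply_left hC.symm ⟨x, x.2.1⟩
    simp only at this
    rw [this]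
    exact LinearMap.congr_fun hρ x
  let F : Module.Dual ℚ G →ₗ[ℚ] Pn r := z6_form r d reg ∘ₗ π.dualMap
  have hF : ∀ φ, F φ ∈ DS r d := fun φ => by
    refine ⟨z6_form_mem r d reg _, fun u v hu hv huv => ?_⟩
    obtain ⟨h1, h2⟩ := hsh u v d hu hv
    rw [huv] at h1 h2
    have hl : ∀ w ∈ shuf u v, w.length = r := fun w hw => by
      rw [(mem_shuf hw).length_eq, List.length_append, huv]
    constructor
    · have := congrArg φ (hπ0 _ h1)
      rw [map_zero, map_list_sum, map_list_sum, List.map_map, List.map_map] at this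
      rw [← this]
      congr 1
      refine List.map_congr_left fun w hw => ?_
      exact z6_ev r d reg _ w (hl w hw)
    · have := congrArg φ (hπ0 _ h2)
      rw [map_zero, map_list_sum, map_list_sum, List.map_map, List.map_map] at this
      rw [← this]
      congr 1
      refine List.map_congr_left fun w hw => ?_
      exact z6_ev r d reg _ _ ((psum_length w).trans (hl w hw))
  have hinj : Function.Injective (F.codRestrict (DS r d) hF) := by
    rw [injective_iff_map_eq_zero]
    intro φ hφ
    have h0 : z6_form r d reg (π.dualMap φ) = 0 := congrArg Subtype.val hφ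
    have hk := z6_kill r d hr reg hreg _ h0 fun x hx => by
      rw [LinearMap.dualMap_apply, hπ0 x hx, map_zero]
    ext x
    have := hk x x.2.2
    rwa [LinearMap.dualMap_apply, hπ1] at this
  rw [← Subspace.dual_finrank_eq]
  exact LinearMap.finrank_le_finrank_of_injective hinj

theorem exists_gens (r : ℕ) (hr : 2 ≤ r) (s : PowerSeries ℚ)
    (hs : ∀ d, (Module.finrank ℚ (DS r d) : ℚ) ≤ PowerSeries.coeff d s) :
    ∃ G : Gr, Gens r G ∧ Bd G (PowerSeries.X ^ r * s) := by
  choose G h1 h2 h3 using fun d => exists_compl r d hr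
  refine ⟨PowerSeries.mk fun k => if r ≤ k then G (k - r) else ⊥, fun k => ?_, fun k => ?_⟩
  · rw [PowerSeries.coeff_mk]
    split_ifs with hk
    · have e : k - r + r = k := by omega
      have a1 := h1 (k - r)
      have a2 := h2 (k - r)
      rw [e] at a1 a2
      exact ⟨a1, a2⟩
    · exact ⟨bot_le, (Fil_le_prev (by omega) (by omega)).trans
        (le_sup_left.trans le_sup_left)⟩
  · rw [PowerSeries.coeff_mk, PowerSeries.coeff_X_pow_mul']
    by_cases hk : r ≤ k
    · rw [if_pos hk, if_pos hk]
      have := fin_Fil r (k - r + r)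
      exact ⟨Submodule.finiteDimensional_of_le (h1 _),
        le_trans (by exact_mod_cast h3 (k - r)) (hs _)⟩
    · rw [if_neg hk, if_neg hk]
      exact ⟨inferInstance, by simp⟩

end Pool.Agent.MP_cbe134_nt.V
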