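import Pool.Agent.MP_cbe134_nt.VL6
import Pool.Agent.MP_cbe134_nt.VL7
import Pool.Agent.MP_cbe134_nt.VL8
import Pool.Agent.MP_cbe134_nt.VL9
import Pool.Agent.MP_cbe134_nt.VDep2
import Pool.Agent.MP_cbe134_nt.VDep3
import Pool.Agent.MP_cbe134_nt.VZ6
import Pool.Agent.MP_cbe134_nt.VA1
import Pool.Agent.MP_cbe134_nt.VA2
import Pool.Agent.MP_cbe134_nt.VA3

/- The Broadhurst-Kreimer upper bound in depths at most four. -/

open PowerSeries

namespace Pool.Agent.MP_cbe134_nt.V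

theorem ds4_le (d : ℕ) : (Module.finrank ℚ (DS 4 d) : ℚ) ≤ coeff d ser4 := by
  have hI : I33 d ≤ Hd 4 d := fun _ h => h.1
  have h2 := map_add_le d
  have h3 := dim_diff d
  rcases Nat.even_or_odd d with hd | hd
  · have h1 := ds4_red hd
    haveI : FiniteDimensional ℚ (I33 d) := fin_of_le hI
    have h4 := Submodule.finrank_mono (inter_le_map hd)
    have h5 : Module.finrank ℚ (DS 4 d) + Module.finrank ℚ (ID4 d) ≤
        Module.finrank ℚ (I33 d) := by omega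
    have h6 : ((Module.finrank ℚ (DS 4 d) + Module.finrank ℚ (ID4 d) : ℕ) : ℚ) ≤
        (Module.finrank ℚ (I33 d) : ℚ) := by exact_mod_cast h5
    push_cast at h6
    linarith
  · rw [ds4_odd hd, finrank_bot]
    have h5 : Module.finrank ℚ (ID4 d) ≤ Module.finrank ℚ (I33 d) := by omega
    have h6 : (Module.finrank ℚ (ID4 d) : ℚ) ≤ (Module.finrank ℚ (I33 d) : ℚ) := by
      exact_mod_cast h5
    push_cast
    linarith

theorem bd_Tm {G2 G3 G4 : Gr} (h2 : Bd G2 (X ^ 2 * ser2)) (h3 : Bd G3 (X ^ 3 * ser3))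
    (h4 : Bd G4 (X ^ 4 * ser4)) (r : ℕ) (hr : r ≤ 4) : Bd (Tm G2 G3 G4 r) (uS r) := by
  have o1 : Bd Od (pS 1) := by simpa using bd_Od_pow 1
  interval_cases r
  · exact bd_one
  · rw [← count_one]
    exact o1
  · rw [← count_two]
    exact h2.add (bd_Od_pow 2)
  · rw [← count_three]
    exact (h3.add (h2.mul o1)).add (bd_Od_pow 3)
  · rw [← count_four]
    exact (((h4.add (h3.mul o1)).add h2.sq).add (h2.mul (bd_Od_pow 2))).add (bd_Od_pow 4)

theorem main (k r : ℕ) (hr : r ≤ 4) : (grDim r k : ℚ) ≤ bkCoeff k r := by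
  obtain ⟨G2, g2, h2⟩ := exists_gens 2 le_rfl ser2 ds2_le
  obtain ⟨G3, g3, h3⟩ := exists_gens 3 (by norm_num) ser3 ds3_le
  obtain ⟨G4, g4, h4⟩ := exists_gens 4 (by norm_num) ser4 ds4_le
  have hb : Bd (Sm G2 G3 G4 r) (bS r) := by
    rcases r with _ | r
    · exact bd_one
    · exact (bd_Tm h2 h3 h4 (r + 1) hr).add (bd_Ev.mul (bd_Tm h2 h3 h4 r (by omega)))
  rw [bkCoeff_eq k r hr]
  haveI := (hb k).1
  have h := grDim_le (Fil_le_Sm g2 g3 g4 r hr k)
  refine le_trans ?_ (hb k).2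
  exact_mod_cast h

end Pool.Agent.MP_cbe134_nt.V
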