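import Pool.Agent.MP_cbe134_nt.VL2
import Pool.Agent.MP_cbe134_nt.VK7

/- Values of cochains on explicit cells and separation of orbits. -/

open Matrix Finsupp

namespace Pool.Agent.MP_cbe134_nt.V

theorem w3_supp {p : Finset Mt → Prop} {z : Ch Mt} (hz : z ∈ Sup p) {l : List Mt} (hl : l.Nodup)
    (γ : GLz 4) (h : ip (ga γ (br l)) z ≠ 0) : p (l.map (cj (γ : Mt))).toFinset := by
  obtain ⟨ε, -, hε⟩ := br_nodup (hl.map (cj_inj γ))
  rw [ga, act_br, hε, ip_single] at h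
  exact mem_Sup_iff.1 hz _ (right_ne_zero_of_mul h)

theorem w3_stab (γ : GLz 4) (h : ∀ v ∈ u0L, cj (γ : Mt) v.at ∈ Mn qAm.toM) :
    pb (γ : Mt) qAm.toM = qAm.toM := by
  have hsub : (((u0L.map V4.at).toFinset : Finset Mt) : Set Mt) ⊆ Mn (pb (γ : Mt) qAm.toM) := by
    intro A hA
    rw [Finset.mem_coe, List.mem_toFinset, List.mem_map] at hA
    obtain ⟨v, hv, rfl⟩ := hA
    rw [mem_Mn_pb]
    exact h v hv
  have hd := det_pb γ qAm.toM
  rcases vert_u0 (vert_qA.pb γ) hsub with h1 | h1 | h1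
  · exact h1
  · rw [h1, toM_det, toM_det] at hd
    exact absurd hd (by decide)
  · rw [h1, toM_det, toM_det] at hd
    exact absurd hd (by decide)

theorem w3_img {z : Ch Mt} {M : Set Mt} (hz : z ∈ Sup fun S => (S : Set Mt) ⊆ M) {l : List V4}
    (hl : (l.map V4.at).Nodup) (γ : GLz 4) (h : ip (ga γ (br (l.map V4.at))) z ≠ 0) :
    ∀ v ∈ l, cj (γ : Mt) v.at ∈ M := fun _ hv =>
  w3_supp hz hl γ h (Finset.mem_coe.2 (List.mem_toFinset.2
    (List.mem_map_of_mem (List.mem_map_of_mem hv))))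

theorem w3_sum {L : List M4} (hnd : L.Nodup) (hdet : ∀ A ∈ L, A.det * A.det = 1)
    (F : Mt → Pn 4) (hF : ∀ γ : GLz 4, F γ ≠ 0 → ∃ A ∈ L, A.toM = γ) :
    ∑ᶠ γ : GLz 4, F γ = (L.map fun A => F A.toM).sum := by
  have hinj : Set.InjOn (Units.val : GLz 4 → Mt)
      (Units.val ⁻¹' (((L.map M4.toM).toFinset : Finset Mt) : Set Mt)) :=
    Units.val_injective.injOn
  rw [finsum_eq_sum_of_support_subset
    (s := (L.map M4.toM).toFinset.preimage Units.val hinj)]
  · refine (Finset.sum_preimage Units.val _ hinj F ?_).trans ?_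
    · intro A hA hn
      obtain ⟨B, hB, rfl⟩ := List.mem_map.1 (List.mem_toFinset.1 hA)
      obtain ⟨γ, hγ⟩ := l1_GL (hdet B hB)
      exact absurd ⟨γ, hγ⟩ hn
    · rw [List.sum_toFinset _ (hnd.map fun _ _ => toM_inj), List.map_map]
      rfl
  · intro γ hγ
    rw [Finset.mem_coe, Finset.mem_preimage, List.mem_toFinset, List.mem_map]
    exact hF γ hγ

theorem nm_u0_gen {z : CL} (h : ∀ p ∈ z, ∀ v ∈ p.2, v.nrm ∈ minA) (hz : chn z ∈ Sup Spans)
    (g : Pn 4) : Nm (chn z) g (br (u0L.map V4.at)) = opR (mU z) g := by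
  have hz' : chn z ∈ Sup fun S => (S : Set Mt) ⊆ Mn qAm.toM := by
    refine chn_mem_Sup fun s hs _ A hA => ?_
    rw [Finset.mem_coe, List.mem_toFinset, List.mem_map] at hA
    obtain ⟨v, hv, rfl⟩ := hA
    rw [mn_qA, Finset.mem_coe, List.mem_toFinset, ← at_nrm]
    exact List.mem_map_of_mem (h s hs v hv)
  obtain ⟨-, hmem, -, -, -, hdet⟩ := stab_group (q := qAm) (by decide) mem_GA nodup_GA
  rw [nm_apply hz]
  refine (w3_sum nodup_GA (fun A hA => ?_)
    (fun A : Mt => ip (act (cj A) (br (u0L.map V4.at))) (chn z) • sub A g) ?_).trans ?_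
  · rw [← toM_det]
    exact hdet _ (List.mem_map_of_mem hA)
  · intro γ hγ
    rw [← List.mem_map, hmem]
    refine w3_stab γ (w3_img hz' (nodup_at (by decide)) γ fun h0 => hγ ?_)
    rw [ga] at h0
    simp only [h0, zero_smul]
  · rw [mU, opR_filter, opR_eq, List.map_map]
    congr 1
    refine List.map_congr_left fun A _ => ?_
    simp only [Function.comp, act_br_at, ipL_eq]

theorem w3_s33 {l : List V4} (hl : ∀ v ∈ l, qAm.bil v v = 2) (γ : GLz 4) :
    ip (ga γ (br (s33.map V4.at))) (br (l.map V4.at)) = 0 := by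
  by_contra h
  have h1 := w3_img (br_mem_Sup fun _ => l2_sub_mn qAm hl) (l := s33) (nodup_at (by decide)) γ h
  have h2 := w3_stab γ fun v hv => h1 v (List.mem_cons_of_mem _ hv)
  have h3 := h1 w0 List.mem_cons_self
  rw [← mem_Mn_pb, h2] at h3
  have h4 := h3.2
  rw [← bil_at] at h4
  exact absurd h4 (by decide)

theorem w3_zero {z x : Ch Mt} (hz : z ∈ Sup Spans) (h : ∀ γ : GLz 4, ip (ga γ x) z = 0)
    (g : Pn 4) : Nm z g x = 0 := by
  rw [nm_apply hz]
  simp only [h, zero_smul, finsum_zero]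

theorem w3_zero' {z x : Ch Mt} (hz : z ∈ Sup Spans) (h : ∀ γ : GLz 4, ip (ga γ z) x = 0)
    (g : Pn 4) : Nm z g x = 0 :=
  w3_zero hz (fun γ => by rw [ip_ga, ip_comm, h]) g

theorem nm_f_s33 (g : Pn 4) :
    Nm (br ((e02 :: u0L).map V4.at)) g (br (s33.map V4.at)) = 0 := by
  exact w3_zero (Wc_le_spans (by norm_num) fac02_mem) (w3_s33 (by decide)) g

theorem nm_s33_f02 (g : Pn 4) :
    Nm (br (s33.map V4.at)) g (br ((e02 :: u0L).map V4.at)) = 0 := by
  exact w3_zero' (Wc_le_spans (by norm_num) s33_mem) (w3_s33 (by decide)) g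

theorem nm_s33_f13 (g : Pn 4) :
    Nm (br (s33.map V4.at)) g (br ((e13 :: u0L).map V4.at)) = 0 := by
  exact w3_zero' (Wc_le_spans (by norm_num) s33_mem) (w3_s33 (by decide)) g

theorem fan_spans : br (fanL.map V4.at) ∈ Sup Spans := by
  exact br_mem_Sup fun h =>
    (l2_cellA (by decide) (by decide)).spans (by rw [l2_card h]; decide)

theorem s0_spans : br (s0L.map V4.at) ∈ Sup Spans := by
  exact br_mem_Sup fun h =>
    (l2_cellA (by decide) (by decide)).spans (by rw [l2_card h]; decide)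

theorem k1_spans : br (k1L.map V4.at) ∈ Sup Spans := by
  exact br_mem_Sup fun h =>
    (l2_cellA (by decide) (by decide)).spans (by rw [l2_card h]; decide)

theorem w3_pm {T : List V4} {v : V4} (h : v.at ∈ T.map V4.at) : v ∈ pm T := by
  obtain ⟨t, ht, e⟩ := List.mem_map.1 h
  rcases phi_eq_iff.1 e.symm with h1 | h1
  · rw [toV_inj h1]
    exact List.mem_append_left _ ht
  · rw [← toV_neg] at h1
    rw [toV_inj h1]
    exact List.mem_append_right _ (List.mem_map_of_mem ht)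

/-- the six test vectors -/
def w3_six : List V4 :=
  [⟨1, 0, 0, 0⟩, ⟨0, 1, 0, 0⟩, ⟨0, 0, 1, 0⟩, ⟨0, 0, 0, 1⟩, ⟨1, -1, 0, 0⟩, ⟨0, 1, -1, 0⟩]

theorem w3_app (c0 c1 c2 c3 : V4) : w3_six.map (M4.tr ⟨c0, c1, c2, c3⟩).app =
    [c0, c1, c2, c3, c0.sub c1, c1.sub c2] := by
  obtain ⟨_, _, _, _⟩ := c0
  obtain ⟨_, _, _, _⟩ := c1
  obtain ⟨_, _, _, _⟩ := c2
  obtain ⟨_, _, _, _⟩ := c3
  simp only [w3_six, List.map_cons, List.map_nil, M4.tr, M4.app, V4.dot, V4.sub, h4_add, h4_mul,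
    h4_sub, mul_one, mul_zero, add_zero, zero_add, mul_neg, sub_eq_add_neg]

theorem w3_enum {T : List V4} {A : M4} (h : ∀ v ∈ w3_six, A.app v ∈ pm T) : A ∈ enumL T := by
  rw [← h4_tr A] at h ⊢
  generalize A.tr = B at h ⊢
  obtain ⟨c0, c1, c2, c3⟩ := B
  have h' : ∀ w ∈ [c0, c1, c2, c3, c0.sub c1, c1.sub c2], w ∈ pm T := by
    rw [← w3_app]
    intro w hw
    obtain ⟨v, hv, rfl⟩ := List.mem_map.1 hw
    exact h v hv
  simp only [List.forall_mem_cons] at h'
  obtain ⟨h0, h1, h2, h3, h4, h5, -⟩ := h'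
  unfold enumL
  exact List.mem_flatMap.2 ⟨c0, h0, List.mem_flatMap.2 ⟨c1,
    List.mem_filter.2 ⟨h1, decide_eq_true h4⟩, List.mem_flatMap.2 ⟨c2,
      List.mem_filter.2 ⟨h2, decide_eq_true h5⟩, List.mem_map.2 ⟨c3, h3, rfl⟩⟩⟩⟩

theorem w3_mem {l T : List V4} (hl : (l.map V4.nrm).Nodup) (h6 : ∀ v ∈ w3_six, v ∈ l)
    (γ : GLz 4) (h : ip (ga γ (br (l.map V4.at))) (br (T.map V4.at)) ≠ 0) :
    ∃ A ∈ enumL T, A.toM = γ := by
  obtain ⟨A, hA⟩ := toM_surj γ
  refine ⟨A, w3_enum fun v hv => w3_pm ?_, hA⟩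
  have h1 := w3_img (M := {B | B ∈ T.map V4.at})
    (br_mem_Sup fun _ B hB => List.mem_toFinset.1 (Finset.mem_coe.1 hB)) (nodup_at hl) γ h v
    (h6 v hv)
  rw [at_app, hA]
  exact h1

theorem w3_sep {l T : List V4} (hl : (l.map V4.nrm).Nodup) (h6 : ∀ v ∈ w3_six, v ∈ l)
    (hs : br (l.map V4.at) ∈ Sup Spans) (k : ∀ A ∈ enumL T, ipl (l.map A.app) T = 0)
    (g : Pn 4) : Nm (br (l.map V4.at)) g (br (T.map V4.at)) = 0 := by
  refine w3_zero' hs (fun γ => ?_) g
  by_contra h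
  obtain ⟨A, hA, e⟩ := w3_mem hl h6 γ h
  rw [ga, ← e, act_br_at, ← ipl_eq, k A hA] at h
  exact h Int.cast_zero

theorem w3_nodup {T : List V4} (hl : (pm T).Nodup) : (enumL T).Nodup := by
  unfold enumL
  refine h4_nodup hl (fun A => A.tr.r0) (fun c0 => h4_nodup (hl.filter _) (fun A => A.tr.r1)
    (fun c1 => h4_nodup (hl.filter _) (fun A => A.tr.r2) (fun c2 =>
      hl.map fun c3 c3' h => congrArg (fun A => A.tr.r3) h) ?_) ?_) ?_
  all_goals
    intro x y hy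
    simp only [List.mem_flatMap, List.mem_map] at hy
  · obtain ⟨_, -, rfl⟩ := hy
    rfl
  · obtain ⟨_, -, _, -, rfl⟩ := hy
    rfl
  · obtain ⟨_, -, _, -, _, -, rfl⟩ := hy
    rfl

theorem nm_fan_s0 (g : Pn 4) : Nm (br (fanL.map V4.at)) g (br (s0L.map V4.at)) = 0 := by
  exact w3_sep (by decide) (by decide) fan_spans k_sep1 g

theorem nm_k0_s0 (g : Pn 4) : Nm (br (k0L.map V4.at)) g (br (s0L.map V4.at)) = 0 := by
  exact w3_sep (by decide) (by decide) k0_spans k_sep2 g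

theorem nm_k0_fan (g : Pn 4) : Nm (br (k0L.map V4.at)) g (br (fanL.map V4.at)) = 0 := by
  exact w3_sep (by decide) (by decide) k0_spans k_sep3 g

theorem nm_fan_fan (g : Pn 4) :
    Nm (br (fanL.map V4.at)) g (br (fanL.map V4.at)) = opR mF g := by
  have hnd : (enumL fanL).Nodup := w3_nodup (by decide)
  have hm := w3_mem (l := fanL) (T := fanL) (by decide) (by decide)
  rw [nm_apply fan_spans, mF]
  generalize enumL fanL = L at hnd hm ⊢
  refine (w3_sum (L := L.filter fun A => A.det * A.det == 1) (hnd.filter _)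
    (fun A hA => beq_iff_eq.1 (List.mem_filter.1 hA).2)
    (fun A : Mt => ip (act (cj A) (br (fanL.map V4.at))) (br (fanL.map V4.at)) • sub A g)
    ?_).trans ?_
  · intro γ hγ
    obtain ⟨A, hA, e⟩ := hm γ fun h0 => hγ (by
      rw [ga] at h0
      simp only [h0, zero_smul])
    refine ⟨A, List.mem_filter.2 ⟨hA, beq_iff_eq.2 ?_⟩, e⟩
    rw [← toM_det, e]
    exact g1_det_sq γ
  · rw [List.filter_comm, opR_filter, List.filter_map, opR_eq, List.map_map]
    congr 1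
    refine List.map_congr_left fun A _ => ?_
    simp only [Function.comp, act_br_at, ipl_eq]

end Pool.Agent.MP_cbe134_nt.V
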