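import Pool.Agent.MP_cbe134_nt.VW3
import Pool.Agent.MP_cbe134_nt.VW4
import Pool.Agent.MP_cbe134_nt.VL5
import Pool.Agent.MP_cbe134_nt.VK3
import Pool.Agent.MP_cbe134_nt.VK5
import Pool.Agent.MP_cbe134_nt.VK6

/- The cochain attached to an invariant of the facet stabiliser. -/

open Matrix Finsupp

namespace Pool.Agent.MP_cbe134_nt.V

variable {d : ℕ} {v : Pn 4}

theorem w5_chi (A : M4) : chi33M A.toM = chi33 A := by
  unfold chi33M chi33
  rw [← toM_pb, toM_det]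
  by_cases h : A.pb q1m = q1m
  · rw [if_pos h, if_pos (congrArg M4.toM h)]
  · rw [if_neg h, if_neg fun e => h (toM_inj e), Int.cast_neg]

theorem I33_sub (hv : v ∈ I33 d) {A : M4} (hA : A.pb q33 = q33) :
    sub A.toM v = (chi33 A : ℚ) • v := by
  rw [← w5_chi]
  exact hv.2 A.toM (List.mem_map.2 ⟨A, (mem_G33 A).2 hA, rfl⟩)

theorem w5_len {a : GR} {f : Pn 4} (h : ∀ p ∈ a, (p.1 : ℚ) • sub p.2.toM f = f) :
    opR a f = (a.length : ℚ) • f := by
  induction a with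
  | nil => rw [opR_nil, List.length_nil, Nat.cast_zero, zero_smul]
  | cons p a ih =>
    rw [opR_cons, h p List.mem_cons_self, ih fun q hq => h q (List.mem_cons_of_mem _ hq),
      List.length_cons, Nat.cast_succ, add_smul, one_smul, add_comm]

theorem w5_sq : (∀ p ∈ eps8, p.1 * p.1 = 1) ∧ ∀ p ∈ su, p.1 * p.1 = 1 := by decide +kernel

theorem w5_fix (hv : v ∈ I33 d) {p : ℤ × M4} (h1 : p.2.pb q33 = q33) (h2 : chi33 p.2 = p.1)
    (h3 : p.1 * p.1 = 1) : (p.1 : ℚ) • sub p.2.toM v = v := by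
  rw [I33_sub hv h1, h2, smul_smul, ← Int.cast_mul, h3, Int.cast_one, one_smul]

theorem w5_eps (hv : v ∈ I33 d) : opR eps8 v = (8 : ℚ) • v := by
  rw [w5_len fun p hp => w5_fix hv (k_eps8 p hp).1 (k_eps8 p hp).2.1 (w5_sq.1 p hp), k_lens.1,
    Nat.cast_ofNat]

theorem w5_su (hv : v ∈ I33 d) : opR su v = (9 : ℚ) • v := by
  rw [w5_len fun p hp => w5_fix hv (k_su p hp).1 (k_su p hp).2 (w5_sq.2 p hp), k_lens.2,
    Nat.cast_ofNat]

theorem w5_G {a b : GR} {c : ℤ} (h : chkG (a ++ gsm c b) = true) (hd : Even d) {f : Pn 4}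
    (hf : f ∈ Hd 4 d) : opR a f = (-c : ℚ) • opR b f := by
  have h1 := chkG_sound h hd hf
  rw [opR_append, opR_gsm] at h1
  rw [neg_smul, eq_neg_of_add_eq_zero_left h1]

theorem R5_mem_Y (hd : Even d) (hv : v ∈ I33 d) : opR R5 v ∈ Rsp shY1 d := by
  have h1 := w5_G k_m2'.1 hd hv.1
  have h2 := w5_G k_m2'.2.2.1 hd hv.1
  have h3 := w5_G k_m2'.2.2.2 hd hv.1
  rw [opR_gmul] at h1 h2 h3
  rw [w5_eps hv, map_smul] at h1
  simp only [Int.cast_neg, Int.cast_one, neg_neg, one_smul, Int.cast_ofNat] at h1 h2 h3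
  rw [← h2, ← h1, map_smul, map_smul] at h3
  refine ⟨(20 : ℚ)⁻¹ • opR R5 v, Submodule.smul_mem _ _ (opR_mem _ hv.1), ?_⟩
  rw [LinearMap.comp_apply, map_smul, map_smul]
  linear_combination (norm := module) (160 : ℚ)⁻¹ • h3

theorem w5_u0 : br (u0L.map V4.at) ∈ Sup Spans := Wc_le_spans (j := 8) (by norm_num) u0_mem

theorem w5_u0' : chn [(1, u0L)] ∈ Sup Spans := chn_one u0L ▸ w5_u0

theorem w5_k1' : chn [(1, k1L)] ∈ Sup Spans := chn_one k1L ▸ k1_spans

theorem w5_cs {x : Ch Mt} (hx : x ∈ Wc 9) : x ∈ Sup fun S => Cell S ∧ Spans S :=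
  Sup_mono (fun _ h => ⟨h.1, h.1.spans (by rw [h.2]; norm_num)⟩) hx

theorem w5_ssplit : bd (br (s33.map V4.at)) = chn (opC su [(1, u0L)]) := by
  have h := chkC_sound k_ssplit
  rw [chn_append, chn_csm, chn_bdL, chn_one s33] at h
  push_cast at h
  linear_combination (norm := module) h

theorem w5_zsplit : chn zL = chn (opC zu [(1, u0L)]) + chn (opC zk [(1, k1L)]) := by
  have h := chkC_sound k_zsplit
  rw [chn_append, chn_append, chn_csm, chn_csm] at h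
  push_cast at h
  linear_combination (norm := module) h

theorem w5_fsplit : bd (br ((e02 :: u0L).map V4.at)) =
    chn (opC fu [(1, u0L)]) + chn (opC fk [(1, k1L)]) := by
  have h := chkC_sound k_fsplit
  rw [chn_append, chn_append, chn_csm, chn_csm, chn_bdL, chn_one (e02 :: u0L)] at h
  push_cast at h
  linear_combination (norm := module) h

theorem w5_fan : chn psiL = chn (opC R5 [(1, fanL)]) := by
  have h := chkC_sound k_fan
  rw [chn_append, chn_csm] at h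
  push_cast at h
  linear_combination (norm := module) h

theorem w5_bs : bd (br (s33.map V4.at)) ∈ Sup Spans :=
  w5_ssplit ▸ opC_mem k_det2.2.2.2.2.1 w5_u0'

theorem w5_bf : bd (br ((e02 :: u0L).map V4.at)) ∈ Sup Spans :=
  w5_fsplit ▸ add_mem (opC_mem k_det2.2.2.1 w5_u0') (opC_mem k_det2.2.2.2.1 w5_k1')

theorem w5_nm_s (hv : v ∈ I33 d) (x : Ch Mt) : Nm (bd (br (s33.map V4.at))) v x =
    (9 : ℚ) • Nm (br (u0L.map V4.at)) v x := by
  rw [w5_ssplit, nm_opC k_det2.2.2.2.2.1 w5_u0', w5_su hv, nm_smul_right w5_u0', chn_one]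

theorem w5_nm_z (g : Pn 4) (x : Ch Mt) : Nm (chn zL) g x =
    Nm (br (u0L.map V4.at)) (opR zu g) x + Nm (br (k1L.map V4.at)) (opR zk g) x := by
  rw [w5_zsplit, nm_add_left (opC_mem k_det2.1 w5_u0') (opC_mem k_det2.2.1 w5_k1'),
    nm_opC k_det2.1 w5_u0', nm_opC k_det2.2.1 w5_k1', chn_one, chn_one]

theorem w5_nm_f (g : Pn 4) (x : Ch Mt) : Nm (bd (br ((e02 :: u0L).map V4.at))) g x =
    Nm (br (u0L.map V4.at)) (opR fu g) x + Nm (br (k1L.map V4.at)) (opR fk g) x := by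
  rw [w5_fsplit, nm_add_left (opC_mem k_det2.2.2.1 w5_u0') (opC_mem k_det2.2.2.2.1 w5_k1'),
    nm_opC k_det2.2.2.1 w5_u0', nm_opC k_det2.2.2.2.1 w5_k1', chn_one, chn_one]

theorem w5_min : (∀ p ∈ ([(1, u0L)] : CL), ∀ w ∈ p.2, w.nrm ∈ minA) ∧
    (∀ p ∈ ([(1, k1L)] : CL), ∀ w ∈ p.2, w.nrm ∈ minA) ∧
    ∀ p ∈ bdL [(1, e02 :: u0L)], ∀ w ∈ p.2, w.nrm ∈ minA := by decide +kernel

theorem w5_uu (hd : Even d) {f : Pn 4} (hf : f ∈ Hd 4 d) :
    Nm (br (u0L.map V4.at)) f (br (u0L.map V4.at)) = (2 : ℚ) • opR eps8 f := by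
  have h := nm_u0_gen w5_min.1 w5_u0' f
  rw [chn_one, w5_G k_mU_u0 hd hf] at h
  rw [h, Int.cast_neg, neg_neg, Int.cast_ofNat]

theorem w5_ku (f : Pn 4) : Nm (br (k1L.map V4.at)) f (br (u0L.map V4.at)) = 0 := by
  have h := nm_u0_gen w5_min.2.1 w5_k1' f
  rwa [chn_one, k_mU_k1, opR_nil] at h

theorem w5_fu (hd : Even d) {f : Pn 4} (hf : f ∈ Hd 4 d) :
    Nm (bd (br ((e02 :: u0L).map V4.at))) f (br (u0L.map V4.at)) = opR n0 f := by
  have e : chn (bdL [(1, e02 :: u0L)]) = bd (br ((e02 :: u0L).map V4.at)) := by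
    rw [chn_bdL, chn_one]
  have h := nm_u0_gen w5_min.2.2 (e ▸ w5_bf) f
  rw [e, w5_G k_mU_f hd hf] at h
  rw [h, Int.cast_neg, neg_neg, Int.cast_one, one_smul]

theorem w5_su0 (hd : Even d) (hv : v ∈ I33 d) :
    Nm (bd (br (s33.map V4.at))) v (br (u0L.map V4.at)) = (144 : ℚ) • v := by
  rw [w5_nm_s hv, w5_uu hd hv.1, w5_eps hv, smul_smul, smul_smul]
  norm_num

theorem nm_s33_u0 (hd : Even d) (hv : v ∈ I33 d) :
    Nm (br (s33.map V4.at)) v (del Cell (br (u0L.map V4.at))) = (144 : ℚ) • v := by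
  rw [nm_del (w5_cs s33_mem) w5_bs v w5_u0, w5_su0 hd hv]

theorem nm_s33_s33 (hd : Even d) (hv : v ∈ I33 d) :
    Nm (br (s33.map V4.at)) v (br (s33.map V4.at)) = (144 : ℚ) • v := by
  have h := nm_s33_u0 hd hv
  rwa [del_u0, map_add, map_add, nm_s33_f02, nm_s33_f13, zero_add, zero_add] at h

theorem w5_eps_m0 (g : Pn 4) : opR eps8 (opR m0 g) = (8 : ℚ) • opR m0 g := by
  rw [w5_len (a := eps8) fun p hp => ?_, k_lens.1, Nat.cast_ofNat]
  obtain ⟨γ, hγ⟩ := l1_GL (k_det2.2.2.2.2.2 p hp)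
  have h := chkC_sound (k_eps8 p hp).2.2
  rw [chn_cons, chn_cons, chn_nil, add_zero, Int.cast_one, one_smul, Int.cast_neg, neg_smul,
    add_neg_eq_zero, ← act_br_at] at h
  have h1 := nm_ga' zL_spans g γ (br (u0L.map V4.at))
  rwa [ga, hγ, h, map_smul, map_smul, nm_u0] at h1

theorem w5_bdz {g : Pn 4} (hg : g ∈ Rsp shY1 d) :
    Nm (chn zL) g (del Cell (br (s0L.map V4.at))) = 0 := by
  have hk : chn [(1, k0L)] ∈ Sup Spans := chn_one k0L ▸ k0_spans
  have hf : chn [(1, fanL)] ∈ Sup Spans := chn_one fanL ▸ fan_spans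
  have hR : ∀ p ∈ R5, p.2.det * p.2.det = 1 := fun p hp => by rw [k_det.2.2.2.2 p hp, mul_one]
  have ht := opC_mem k_det.2.2.2.1 hk
  have h1 := chkC_sound k_zetaD
  rw [zeta, chn_append, chn_append, chn_append, chn_csm, chn_csm, chn_csm, chn_csm, chn_bdL] at h1
  have h2 : bd (chn zL) = (10 : ℚ) • chn psiL + (-1 : ℚ) • chn (opC thc [(1, k0L)]) +
      (-1 : ℚ) • chn zetaD := by
    push_cast at h1
    linear_combination (norm := module) -h1
  rw [nm_del zL_mem bd_zL_spans g s0_spans, h2,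
    nm_add_left (add_mem (Submodule.smul_mem _ _ psi_spans) (Submodule.smul_mem _ _ ht))
      (Submodule.smul_mem _ _ zetaD_spans),
    nm_add_left (Submodule.smul_mem _ _ psi_spans) (Submodule.smul_mem _ _ ht),
    nm_smul_left psi_spans, nm_smul_left ht, nm_smul_left zetaD_spans, nm_zeta hg,
    nm_opC k_det.2.2.2.1 hk, w5_fan, nm_opC hR hf, chn_one, chn_one, nm_fan_s0, nm_k0_s0,
    smul_zero, smul_zero, add_zero, add_zero]

theorem w5_nd : (u0L.map V4.at).Nodup ∧ (k1L.map V4.at).Nodup :=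
  ⟨nodup_at (by decide +kernel), nodup_at (by decide +kernel)⟩

theorem w5_cert (hd : Even d) (hv : v ∈ I33 d) : ∃ a ∈ Hd 4 d,
    opR n0 a = (16000 : ℚ) • v + (80 : ℚ) • opR m0 (opR R5 v) := by
  have hy : (200 : ℚ) • v + opR m0 (opR R5 v) ∈ Hd 4 d :=
    add_mem (Submodule.smul_mem _ _ hv.1) (opR_mem _ (opR_mem _ hv.1))
  have h1 : opR R5 ((200 : ℚ) • v + opR m0 (opR R5 v)) = 0 := by
    rw [map_add, map_smul, recover hd (R5_mem_Y hd hv), neg_smul, add_neg_cancel]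
  have h2 : opR eps8 ((200 : ℚ) • v + opR m0 (opR R5 v)) =
      (8 : ℚ) • ((200 : ℚ) • v + opR m0 (opR R5 v)) := by
    rw [map_add, map_smul, w5_eps hv, w5_eps_m0, smul_add, smul_comm]
  have h3 := w5_G k_m2'.1 hd hy
  have h4 := w5_G k_cert hd hy
  rw [opR_gmul, h2, map_smul, h1, smul_zero, Int.cast_neg, neg_neg, Int.cast_one, one_smul] at h3
  rw [opR_append, opR_gmul, opR_gmul, opR_gmul, ← h3, map_zero, add_zero, h2, map_smul, map_smul,
    Int.cast_neg, neg_neg, Int.cast_ofNat] at h4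
  refine ⟨_, opR_mem bb hy, ?_⟩
  linear_combination (norm := module) (8 : ℚ)⁻¹ • h4

theorem delta_zero (hd : Even d) (hv : v ∈ I33 d) : ∃ a ∈ Hd 4 d, ∀ x ∈ Sup Spans,
    (16000 : ℚ) • Nm (br (s33.map V4.at)) v (del Cell x) +
      (11520 : ℚ) • Nm (chn zL) (opR R5 v) x =
      (144 : ℚ) • Nm (br ((e02 :: u0L).map V4.at)) a (del Cell x) := by
  obtain ⟨a, ha, h⟩ := w5_cert hd hv
  have hg := R5_mem_Y hd hv
  generalize opR R5 v = g at h hg ⊢
  have hD : ∀ x, (16000 : ℚ) • Nm (bd (br (s33.map V4.at))) v x +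
      (11520 : ℚ) • Nm (chn zL) g x + (-144 : ℚ) • Nm (bd (br ((e02 :: u0L).map V4.at))) a x =
      Nm (br (u0L.map V4.at)) ((144000 : ℚ) • v + (11520 : ℚ) • opR zu g +
        (-144 : ℚ) • opR fu a) x +
      Nm (br (k1L.map V4.at)) ((11520 : ℚ) • opR zk g + (-144 : ℚ) • opR fk a) x := fun x => by
    rw [w5_nm_s hv, w5_nm_z, w5_nm_f, nm_add_right w5_u0, nm_add_right w5_u0,
      nm_add_right k1_spans, nm_smul_right w5_u0, nm_smul_right w5_u0, nm_smul_right w5_u0,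
      nm_smul_right k1_spans, nm_smul_right k1_spans]
    module
  generalize (144000 : ℚ) • v + (11520 : ℚ) • opR zu g + (-144 : ℚ) • opR fu a = y1 at hD
  generalize (11520 : ℚ) • opR zk g + (-144 : ℚ) • opR fk a = y2 at hD
  have h1 : Nm (br (u0L.map V4.at)) y1 (br (u0L.map V4.at)) = 0 := by
    have h2 := hD (br (u0L.map V4.at))
    rw [w5_ku, add_zero, w5_su0 hd hv, nm_u0, w5_fu hd ha, h] at h2
    rw [← h2]
    module
  have h2 := nm_orbit w5_nd.1 (l4_spans w5_nd.1 w5_u0) y1 h1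
  have h3 : Nm (br (k1L.map V4.at)) y2 (br (k1L.map V4.at)) = 0 := by
    have h4 := hD (del Cell (br (s0L.map V4.at)))
    rw [h2, zero_add, nm_k1_del, ← nm_del (w5_cs s33_mem) w5_bs v (del_mem_spans s0_spans),
      ← nm_del (w5_cs fac02_mem) w5_bf a (del_mem_spans s0_spans), del_del_cell s0_spans,
      map_zero, map_zero, w5_bdz hg, smul_zero, smul_zero, smul_zero, add_zero, add_zero] at h4
    exact h4.symm
  have h4 := nm_orbit w5_nd.2 (l4_spans w5_nd.2 k1_spans) y2 h3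
  refine ⟨a, ha, fun x hx => ?_⟩
  have h5 := hD x
  rw [h2, h4, add_zero] at h5
  rw [nm_del (w5_cs s33_mem) w5_bs v hx, nm_del (w5_cs fac02_mem) w5_bf a hx]
  linear_combination (norm := module) h5

end Pool.Agent.MP_cbe134_nt.V
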