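import Pool.Agent.MP_cbe134_nt.VD1

/- The quasi-shuffle product of truncated sums and products in the depth filtration. -/

open Filter Asymptotics Topology

namespace Pool.Agent.MP_cbe134_nt.V

theorem z1_pos {a : ℕ} {u : List ℕ} : Pos (a :: u) ↔ 1 ≤ a ∧ Pos u := List.forall_mem_cons

theorem z1_mem {a b : ℕ} {u v w : List ℕ} : w ∈ stuf (a :: u) (b :: v) ↔
    (∃ x ∈ stuf u (b :: v), a :: x = w) ∨ (∃ x ∈ stuf (a :: u) v, b :: x = w) ∨
      ∃ x ∈ stuf u v, (a + b) :: x = w := by
  rw [stuf]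
  simp only [List.mem_append, List.mem_map, or_assoc]

theorem z1_len {u v w : List ℕ} (h : w ∈ stuf u v) : w.length ≤ u.length + v.length := by
  induction u, v using stuf.induct generalizing w with
  | case1 v => simp_all [stuf]
  | case2 a u => simp_all [stuf]
  | case3 a u b v ih1 ih2 ih3 =>
    rcases z1_mem.1 h with ⟨x, hx, rfl⟩ | ⟨x, hx, rfl⟩ | ⟨x, hx, rfl⟩
    · have := ih1 hx
      simp only [List.length_cons] at this ⊢
      omega
    · have := ih2 hx
      simp only [List.length_cons] at this ⊢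
      omega
    · have := ih3 hx
      simp only [List.length_cons]
      omega

theorem mem_shuf {β : Type} {u v w : List β} (h : w ∈ shuf u v) : w.Perm (u ++ v) := by
  induction u, v using shuf.induct generalizing w with
  | case1 v => simp_all [shuf]
  | case2 a u => simp_all [shuf]
  | case3 a u b v ih1 ih2 =>
    rw [shuf, List.mem_append, List.mem_map, List.mem_map] at h
    rcases h with ⟨x, hx, rfl⟩ | ⟨x, hx, rfl⟩
    · exact (ih1 hx).cons a
    · exact ((ih2 hx).cons b).trans List.perm_middle.symm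

theorem shuf_nil_right {β : Type} (u : List β) : shuf u [] = [u] := by
  cases u <;> simp [shuf]

theorem stuf_nil_right (u : List ℕ) : stuf u [] = [u] := by
  cases u <;> simp [stuf]

theorem mem_stuf {u v w : List ℕ} (hu : Pos u) (hv : Pos v) (h : w ∈ stuf u v) :
    Pos w ∧ w.sum = u.sum + v.sum ∧ w.length ≤ u.length + v.length := by
  induction u, v using stuf.induct generalizing w with
  | case1 v =>
    rw [stuf, List.mem_singleton] at h
    subst h
    exact ⟨hv, by simp, by simp⟩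
  | case2 a u =>
    rw [stuf, List.mem_singleton] at h
    subst h
    exact ⟨hu, by simp, by simp⟩
  | case3 a u b v ih1 ih2 ih3 =>
    obtain ⟨ha, hu'⟩ := z1_pos.1 hu
    obtain ⟨hb, hv'⟩ := z1_pos.1 hv
    rcases z1_mem.1 h with ⟨x, hx, rfl⟩ | ⟨x, hx, rfl⟩ | ⟨x, hx, rfl⟩
    · obtain ⟨h1, h2, h3⟩ := ih1 hu' hv hx
      simp only [List.sum_cons, List.length_cons] at h2 h3 ⊢
      exact ⟨z1_pos.2 ⟨ha, h1⟩, by omega, by omega⟩
    · obtain ⟨h1, h2, h3⟩ := ih2 hu hv' hx
      simp only [List.sum_cons, List.length_cons] at h2 h3 ⊢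
      exact ⟨z1_pos.2 ⟨hb, h1⟩, by omega, by omega⟩
    · obtain ⟨h1, h2, h3⟩ := ih3 hu' hv' hx
      simp only [List.sum_cons, List.length_cons] at h2 h3 ⊢
      exact ⟨z1_pos.2 ⟨by omega, h1⟩, by omega, by omega⟩

theorem stuf_perm (u v : List ℕ) : ∃ L : List (List ℕ), (stuf u v).Perm (shuf u v ++ L) ∧
    ∀ w ∈ L, w.length < u.length + v.length := by
  induction u, v using stuf.induct with
  | case1 v => exact ⟨[], by simp [stuf, shuf], by simp⟩
  | case2 a u => exact ⟨[], by simp [stuf, shuf], by simp⟩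
  | case3 a u b v ih1 ih2 _ =>
    obtain ⟨L1, p1, q1⟩ := ih1
    obtain ⟨L2, p2, q2⟩ := ih2
    refine ⟨L1.map (a :: ·) ++ L2.map (b :: ·) ++ (stuf u v).map ((a + b) :: ·), ?_, ?_⟩
    · rw [stuf, shuf, ← List.append_assoc]
      refine List.Perm.append_right _ (((p1.map _).append (p2.map _)).trans ?_)
      simp only [List.map_append, List.append_assoc]
      refine List.Perm.append_left _ ?_
      rw [← List.append_assoc, ← List.append_assoc]
      exact List.perm_append_comm.append_right _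
    · intro w hw
      simp only [List.mem_append, List.mem_map] at hw
      rcases hw with (⟨x, hx, rfl⟩ | ⟨x, hx, rfl⟩) | ⟨x, hx, rfl⟩
      · have := q1 x hx
        simp only [List.length_cons] at this ⊢
        omega
      · have := q2 x hx
        simp only [List.length_cons] at this ⊢
        omega
      · have := z1_len hx
        simp only [List.length_cons] at this ⊢
        omega

theorem adm_stuf {u v w : List ℕ} (hu : Adm u) (hv : Adm v) (h : w ∈ stuf u v) : Adm w := by
  refine ⟨(mem_stuf hu.1 hv.1 h).1, ?_⟩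
  cases u with
  | nil =>
    rw [stuf, List.mem_singleton] at h
    exact h ▸ hv.2
  | cons a u =>
    cases v with
    | nil =>
      rw [stuf, List.mem_singleton] at h
      exact h ▸ hu.2
    | cons b v =>
      have ha : 2 ≤ a := hu.2 a (by simp)
      have hb : 2 ≤ b := hv.2 b (by simp)
      rcases z1_mem.1 h with ⟨x, -, rfl⟩ | ⟨x, -, rfl⟩ | ⟨x, -, rfl⟩ <;> simp <;> omega

theorem Zt_stuf (u v : List ℕ) (N : ℕ) :
    Zt u N * Zt v N = ((stuf u v).map fun w => Zt w N).sum := by
  induction u, v using stuf.induct generalizing N with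
  | case1 v => simp [stuf, Zt_nil]
  | case2 a u => simp [stuf, Zt_nil]
  | case3 a u b v ih1 ih2 ih3 =>
    rw [stuf, List.map_append, List.map_append, List.sum_append, List.sum_append]
    induction N with
    | zero =>
      rw [sum_map_cons_zero, sum_map_cons_zero, sum_map_cons_zero, Zt_cons_zero]
      simp
    | succ N ihN =>
      rw [sum_map_cons_succ, sum_map_cons_succ, sum_map_cons_succ, ← ih1, ← ih2, ← ih3, Zt_succ,
        Zt_succ]
      linear_combination ihN

theorem ZR_stuf (u v : List ℕ) (N : ℕ) :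
    ZR u N * ZR v N = ((stuf u v).map fun w => ZR w N).sum := by
  simp only [ZR]
  rw [← Rat.cast_mul, Zt_stuf, Rat.cast_list_sum, List.map_map]
  rfl

theorem Fil_mul (p i q j : ℕ) : Fil p i * Fil q j ≤ Fil (p + q) (i + j) := by
  rw [Fil, Fil, Submodule.span_mul_span, Submodule.span_le]
  rintro _ ⟨_, ⟨u, hu, su, lu, rfl⟩, _, ⟨v, hv, sv, lv, rfl⟩, rfl⟩
  have h1 := (tendsto_Zt u hu).mul (tendsto_Zt v hv)
  have h2 := tendsto_list (stuf u v) fun w hw => adm_stuf hu hv hw
  have h3 : mzv u * mzv v = ((stuf u v).map mzv).sum :=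
    tendsto_nhds_unique h1 (h2.congr fun N => by rw [← Zt_stuf, Rat.cast_mul])
  show mzv u * mzv v ∈ Fil (p + q) (i + j)
  rw [h3]
  refine list_sum_mem fun x hx => ?_
  obtain ⟨w, hw, rfl⟩ := List.mem_map.1 hx
  obtain ⟨-, e1, e2⟩ := mem_stuf hu.1 hv.1 hw
  exact mzv_mem_Fil (adm_stuf hu hv hw) (by omega) (by omega)

theorem fin_Fil (r k : ℕ) : FiniteDimensional ℚ (Fil r k) := by
  refine FiniteDimensional.span_of_finite ℚ ?_
  refine (((List.finite_length_le (Fin (k + 1)) r).image (List.map Fin.val)).image mzv).subset ?_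
  rintro _ ⟨w, -, h2, h3, rfl⟩
  refine ⟨w, ⟨w.map fun a => Fin.ofNat (k + 1) a, by simpa using h3, ?_⟩, rfl⟩
  rw [List.map_map]
  conv_rhs => rw [← List.map_id w]
  refine List.map_congr_left fun a ha => ?_
  have := List.single_le_sum (fun _ _ => Nat.zero_le _) a ha
  exact Nat.mod_eq_of_lt (by omega)

theorem Dec_le (r k : ℕ) : Dec r k ≤ Fil r k := by
  refine sup_le ?_ ?_
  · cases r with
    | zero => exact bot_le
    | succ r => exact Fil_mono (Nat.le_succ r) k
  · simp only [iSup_le_iff]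
    rintro p q i j ⟨-, -, rfl, rfl⟩
    exact Fil_mul p i q j

theorem Fil_le_prev {r k : ℕ} (hr : 1 ≤ r) (h : k ≤ r) : Fil r k ≤ FilPrev r k := by
  obtain ⟨r, rfl⟩ : ∃ s, r = s + 1 := ⟨r - 1, by omega⟩
  refine Submodule.span_mono ?_
  rintro _ ⟨w, h1, h2, h3, rfl⟩
  refine ⟨w, h1, h2, ?_, rfl⟩
  cases w with
  | nil => simp
  | cons a w =>
    have ha : 2 ≤ a := h1.2 a (by simp)
    have := length_le_sum w fun b hb => h1.1 b (by simp [hb])
    simp only [List.sum_cons, List.length_cons] at h2 ⊢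
    omega

/-- the words of `1^m * w`: the word `1^m w` once, all others with fewer leading ones -/
theorem stuf_ones (m : ℕ) (w : List ℕ) (hw : Adm w) (hne : w ≠ []) :
    ∃ L : List (List ℕ), (stuf (ones m) w).Perm ((ones m ++ w) :: L) ∧
      ∀ x ∈ L, ∃ i < m, ∃ y, Adm y ∧ y ≠ [] ∧ x = ones i ++ y := by
  obtain ⟨b, v, rfl⟩ := List.exists_cons_of_ne_nil hne
  have hb : 2 ≤ b := hw.2 b (by simp)
  have hv : Pos v := (z1_pos.1 hw.1).2
  have ho : ∀ m, Pos (ones m) := fun m a ha => (List.eq_of_mem_replicate ha).ge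
  have hc : ∀ c x, 2 ≤ c → Pos x → Adm (c :: x) := fun c x h1 h2 =>
    ⟨z1_pos.2 ⟨by omega, h2⟩, by simpa using h1⟩
  induction m with
  | zero => exact ⟨[], by simp [ones, stuf], by simp⟩
  | succ m ih =>
    obtain ⟨L, p, q⟩ := ih
    have e : ∀ i, ones (i + 1) = 1 :: ones i := fun _ => rfl
    refine ⟨L.map (1 :: ·) ++ (stuf (1 :: ones m) v).map (b :: ·) ++
      (stuf (ones m) v).map ((1 + b) :: ·), ?_, ?_⟩
    · rw [e, stuf]
      exact ((p.map (1 :: ·)).append_right _).append_right _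
    · intro x hx
      simp only [List.mem_append, List.mem_map] at hx
      rcases hx with (⟨y, hy, rfl⟩ | ⟨y, hy, rfl⟩) | ⟨y, hy, rfl⟩
      · obtain ⟨i, hi, z, z1, z2, rfl⟩ := q y hy
        exact ⟨i + 1, by omega, z, z1, z2, rfl⟩
      · exact ⟨0, by omega, _, hc b y hb (mem_stuf (ho (m + 1)) hv hy).1, by simp, rfl⟩
      · exact ⟨0, by omega, _, hc (1 + b) y (by omega) (mem_stuf (ho m) hv hy).1, by simp, rfl⟩

theorem pos_split {w : List ℕ} (hw : Pos w) : ∃ m y, Adm y ∧ w = ones m ++ y := by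
  induction w with
  | nil => exact ⟨0, [], ⟨by simp, by simp⟩, rfl⟩
  | cons a w ih =>
    obtain ⟨ha, hw'⟩ := z1_pos.1 hw
    rcases ha.eq_or_lt with rfl | ha
    · obtain ⟨m, y, h1, rfl⟩ := ih hw'
      exact ⟨m + 1, y, h1, rfl⟩
    · exact ⟨0, a :: w, ⟨hw, by simpa using Nat.succ_le_of_lt ha⟩, rfl⟩

end Pool.Agent.MP_cbe134_nt.V
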