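import Pool.Agent.MP_cbe134_nt.VZ1

/- Asymptotic expansions of truncated sums. -/

open Filter Asymptotics Topology

namespace Pool.Agent.MP_cbe134_nt.V

theorem z2_rpow_mono {a b : ℝ} (h : a ≤ b) :
    (fun N : ℕ => (N : ℝ) ^ a) =O[atTop] fun N : ℕ => (N : ℝ) ^ b := by
  refine IsBigO.of_bound 1 ?_
  filter_upwards [eventually_ge_atTop 1] with N hN
  have h1 : (1 : ℝ) ≤ N := by exact_mod_cast hN
  have h0 : (0 : ℝ) ≤ N := by positivity
  rw [Real.norm_of_nonneg (Real.rpow_nonneg h0 _), Real.norm_of_nonneg (Real.rpow_nonneg h0 _),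
    one_mul]
  exact Real.rpow_le_rpow_of_exponent_le h1 h

theorem z2_rpow_mul (a b : ℝ) :
    (fun N : ℕ => (N : ℝ) ^ a * (N : ℝ) ^ b) =O[atTop] fun N : ℕ => (N : ℝ) ^ (a + b) := by
  refine IsBigO.of_bound 1 ?_
  filter_upwards [eventually_ge_atTop 1] with N hN
  have h1 : (0 : ℝ) < N := by exact_mod_cast hN
  rw [Real.rpow_add h1, one_mul]

theorem z2_cg {P : (ℕ → ℝ) → Prop} {s t : ℕ → ℝ} (hs : P s) (h : ∀ N, s N = t N) : P t :=
  (funext h : s = t) ▸ hs

theorem Small.add {s t : ℕ → ℝ} (hs : Small s) (ht : Small t) : Small fun N => s N + t N := by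
  obtain ⟨a, ha, h1⟩ := hs
  obtain ⟨b, hb, h2⟩ := ht
  refine ⟨min a b, lt_min ha hb, IsBigO.add ?_ ?_⟩
  · exact h1.trans (z2_rpow_mono (neg_le_neg (min_le_left a b)))
  · exact h2.trans (z2_rpow_mono (neg_le_neg (min_le_right a b)))

theorem Small.zero : Small fun _ => 0 :=
  ⟨1, one_pos, isBigO_zero _ _⟩

theorem Small.mul_slow {s t : ℕ → ℝ} (hs : Small s) (ht : Slow t) :
    Small fun N => s N * t N := by
  obtain ⟨a, ha, h1⟩ := hs
  refine ⟨a / 2, by positivity, ?_⟩
  have h2 := (h1.mul (ht (a / 2) (by positivity))).trans (z2_rpow_mul (-a) (a / 2))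
  have h3 : -a + a / 2 = -(a / 2) := by ring
  rwa [h3] at h2

theorem Small.slow {s : ℕ → ℝ} (hs : Small s) : Slow s := by
  obtain ⟨a, ha, h1⟩ := hs
  intro ε hε
  exact h1.trans (z2_rpow_mono (by linarith))

theorem Slow.const (c : ℝ) : Slow fun _ => c := by
  intro ε hε
  have h := z2_rpow_mono (a := 0) hε.le
  simp only [Real.rpow_zero] at h
  exact (isBigO_const_const c one_ne_zero atTop).trans h

theorem Slow.add {s t : ℕ → ℝ} (hs : Slow s) (ht : Slow t) : Slow fun N => s N + t N :=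
  fun ε hε => (hs ε hε).add (ht ε hε)

theorem Slow.mul {s t : ℕ → ℝ} (hs : Slow s) (ht : Slow t) : Slow fun N => s N * t N := by
  intro ε hε
  have h := ((hs (ε / 2) (by positivity)).mul (ht (ε / 2) (by positivity))).trans
    (z2_rpow_mul (ε / 2) (ε / 2))
  rwa [add_halves] at h

theorem z2_nonneg (w : List ℕ) (N : ℕ) : 0 ≤ ZR w N := by
  unfold ZR
  exact_mod_cast Zt_nonneg w N

theorem z2_succ (a : ℕ) (k : List ℕ) (N : ℕ) :
    ZR (a :: k) (N + 1) = ZR (a :: k) N + ((N : ℝ)⁻¹) ^ a * ZR k N := by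
  unfold ZR
  rw [Zt_succ]
  push_cast
  rfl

theorem z2_cons (a : ℕ) (k : List ℕ) (N : ℕ) :
    ZR (a :: k) N = ∑ n ∈ Finset.range N, ((n : ℝ)⁻¹) ^ a * ZR k n := by
  unfold ZR
  rw [Zt_cons]
  push_cast
  rfl

theorem z2_nil (N : ℕ) : ZR [] N = 1 := by
  unfold ZR
  rw [Zt_nil]
  simp

theorem z2_mono (w : List ℕ) : Monotone (ZR w) := by
  refine monotone_nat_of_le_succ fun N => ?_
  cases w with
  | nil => rw [z2_nil, z2_nil]
  | cons a k =>
    rw [z2_succ]
    have := z2_nonneg k N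
    have h : 0 ≤ ((N : ℝ)⁻¹) ^ a * ZR k N := by positivity
    linarith

theorem z2_slow_harm : Slow fun N => ∑ n ∈ Finset.range N, (n : ℝ)⁻¹ := by
  intro ε hε
  have h1 : (fun N : ℕ => Real.log N) =O[atTop] fun N : ℕ => (N : ℝ) ^ ε :=
    ((isLittleO_log_rpow_atTop hε).comp_tendsto tendsto_natCast_atTop_atTop).isBigO
  refine IsBigO.trans ?_ ((Slow.const 1 ε hε).add h1)
  refine IsBigO.of_bound 1 (Eventually.of_forall fun N => ?_)
  have h0 : 0 ≤ ∑ n ∈ Finset.range N, (n : ℝ)⁻¹ := Finset.sum_nonneg fun n _ => by positivity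
  have h2 : ∑ n ∈ Finset.range N, (n : ℝ)⁻¹ ≤ (harmonic N : ℝ) := by
    have h3 : ∑ n ∈ Finset.range (N + 1), (n : ℝ)⁻¹ = (harmonic N : ℝ) := by
      rw [Finset.sum_range_succ', harmonic]
      push_cast
      simp
    rw [← h3, Finset.sum_range_succ]
    have : (0 : ℝ) ≤ (N : ℝ)⁻¹ := by positivity
    linarith
  rw [Real.norm_of_nonneg h0, one_mul]
  exact (h2.trans (harmonic_le_one_add_log N)).trans (le_abs_self _)

theorem z2_inv_pow_le (n a b : ℕ) (h : b ≤ a) : ((n : ℝ)⁻¹) ^ a ≤ ((n : ℝ)⁻¹) ^ b := by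
  refine pow_le_pow_of_le_one (by positivity) ?_ h
  rcases Nat.eq_zero_or_pos n with rfl | hn
  · simp
  · exact inv_le_one_of_one_le₀ (by exact_mod_cast hn)

theorem slow_ZR {w : List ℕ} (hw : Pos w) : Slow (ZR w) := by
  induction w with
  | nil =>
    have : ZR [] = fun _ => 1 := funext z2_nil
    rw [this]
    exact Slow.const 1
  | cons a k ih =>
    have ha : 1 ≤ a := hw a List.mem_cons_self
    have hk := ih fun b hb => hw b (List.mem_cons_of_mem _ hb)
    intro ε hε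
    refine IsBigO.trans ?_ (z2_slow_harm.mul hk ε hε)
    refine IsBigO.of_bound 1 (Eventually.of_forall fun N => ?_)
    rw [Real.norm_of_nonneg (z2_nonneg _ _), one_mul]
    refine le_trans ?_ (le_abs_self _)
    rw [z2_cons, Finset.sum_mul]
    refine Finset.sum_le_sum fun n hn => ?_
    have h1 := z2_inv_pow_le n a 1 ha
    rw [pow_one] at h1
    exact mul_le_mul h1 (z2_mono k (Finset.mem_range.1 hn).le) (z2_nonneg _ _) (by positivity)

theorem z2_tele {x : ℝ} (hx : 1 ≤ x) :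
    (x⁻¹) ^ 2 * √x ≤ 6 * ((√x)⁻¹ - (√(x + 1))⁻¹) := by
  have hs : 1 ≤ √x := Real.one_le_sqrt.2 hx
  have hxx : √x ^ 2 = x := Real.sq_sqrt (by linarith)
  have htt : √(x + 1) ^ 2 = x + 1 := Real.sq_sqrt (by linarith)
  have hst : √x ≤ √(x + 1) := Real.sqrt_le_sqrt (by linarith)
  generalize √(x + 1) = t at htt hst
  generalize √x = s at hs hxx hst
  subst hxx
  have hs0 : 0 < s := by linarith
  have ht0 : 0 < t := by linarith
  have ht2 : t ≤ 2 * s := by nlinarith
  have h1 : s⁻¹ - t⁻¹ = (s * t * (s + t))⁻¹ := by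
    field_simp
    nlinarith
  have h2 : ((s ^ 2)⁻¹) ^ 2 * s = 6 * (6 * s ^ 3)⁻¹ := by
    field_simp
  rw [h1, h2]
  refine mul_le_mul_of_nonneg_left (inv_anti₀ (by positivity) ?_) (by norm_num)
  have h3 : s * t ≤ s * (2 * s) := mul_le_mul_of_nonneg_left ht2 hs0.le
  have h4 : s * t * (s + t) ≤ s * (2 * s) * (3 * s) :=
    mul_le_mul h3 (by linarith) (by positivity) (by positivity)
  nlinarith

theorem small_tail {w : List ℕ} (hw : Adm w) : Small fun N => ZR w N - mzv w := by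
  cases w with
  | nil =>
    have : (fun N => ZR [] N - mzv []) = fun _ => 0 := by
      funext N
      rw [z2_nil, mzv_nil, sub_self]
    rw [this]
    exact Small.zero
  | cons a k =>
    have ha : 2 ≤ a := hw.2 a (by simp)
    have hk : ∀ b ∈ k, 1 ≤ b := fun b hb => hw.1 b (List.mem_cons_of_mem _ hb)
    have hlim : Tendsto (ZR (a :: k)) atTop (𝓝 (mzv (a :: k))) := tendsto_Zt _ hw
    set K : ℝ := 6 * 2 ^ k.length with hK
    have hK0 : 0 ≤ K := by positivity
    have hstep : ∀ N : ℕ, 1 ≤ N → ZR (a :: k) (N + 1) + K * (√((N + 1 : ℕ) : ℝ))⁻¹ ≤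
        ZR (a :: k) N + K * (√(N : ℝ))⁻¹ := by
      intro N hN
      have h1 : (1 : ℝ) ≤ N := by exact_mod_cast hN
      have h2 := z2_tele h1
      have h3 : ZR k N ≤ 2 ^ k.length * √(N : ℝ) := Zt_le k hk N hN
      have h4 : ((N : ℝ)⁻¹) ^ a * ZR k N ≤ ((N : ℝ)⁻¹) ^ 2 * (2 ^ k.length * √(N : ℝ)) :=
        mul_le_mul (z2_inv_pow_le N a 2 ha) h3 (z2_nonneg _ _) (by positivity)
      have h5 := mul_le_mul_of_nonneg_left h2 (show (0 : ℝ) ≤ 2 ^ k.length by positivity)
      rw [z2_succ]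
      push_cast
      rw [hK]
      nlinarith
    have hup : ∀ N : ℕ, 1 ≤ N → mzv (a :: k) ≤ ZR (a :: k) N + K * (√(N : ℝ))⁻¹ := by
      intro N hN
      refine le_of_tendsto hlim ?_
      filter_upwards [eventually_ge_atTop N] with M hM
      have h : ZR (a :: k) M + K * (√(M : ℝ))⁻¹ ≤ ZR (a :: k) N + K * (√(N : ℝ))⁻¹ := by
        induction M, hM using Nat.le_induction with
        | base => exact le_rfl
        | succ M hM ih => exact (hstep M (hN.trans hM)).trans ih
      have h' : 0 ≤ K * (√(M : ℝ))⁻¹ := by positivity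
      linarith
    refine ⟨1 / 2, by norm_num, IsBigO.of_bound K ?_⟩
    filter_upwards [eventually_ge_atTop 1] with N hN
    have h0 : (0 : ℝ) ≤ N := by positivity
    have h1 : ZR (a :: k) N ≤ mzv (a :: k) := (z2_mono _).ge_of_tendsto hlim N
    rw [Real.norm_of_nonneg (Real.rpow_nonneg h0 _), Real.rpow_neg h0, ← Real.sqrt_eq_rpow,
      Real.norm_eq_abs, abs_sub_comm, abs_of_nonneg (by linarith)]
    have := hup N hN
    linarith

/-- the value of an expansion -/
noncomputable def z2V (N : ℕ) : (ℕ →₀ ℝ) →ₗ[ℝ] ℝ :=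
  Finsupp.linearCombination ℝ fun j => ZR (ones j) N

theorem z2V_eq (c : ℕ →₀ ℝ) (N : ℕ) : (c.sum fun j x => x * ZR (ones j) N) = z2V N c := by
  rw [z2V, Finsupp.linearCombination_apply]
  rfl

theorem z2_expn {a : ℕ → ℝ} {c : ℕ →₀ ℝ} : Expn a c ↔ Small fun N => a N - z2V N c := by
  unfold Expn
  simp only [z2V_eq]

theorem z2V_single (N m : ℕ) (x : ℝ) : z2V N (Finsupp.single m x) = x * ZR (ones m) N := by
  rw [z2V, Finsupp.linearCombination_single, smul_eq_mul]

theorem Expn.add {a b : ℕ → ℝ} {c e : ℕ →₀ ℝ} (ha : Expn a c) (hb : Expn b e) :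
    Expn (fun N => a N + b N) (c + e) := by
  rw [z2_expn] at ha hb ⊢
  have h := ha.add hb
  refine z2_cg h fun N => ?_
  rw [map_add]
  ring

theorem Expn.smul {a : ℕ → ℝ} {c : ℕ →₀ ℝ} (x : ℝ) (ha : Expn a c) :
    Expn (fun N => x * a N) (x • c) := by
  rw [z2_expn] at ha ⊢
  have h := ha.mul_slow (Slow.const x)
  refine z2_cg h fun N => ?_
  rw [map_smul, smul_eq_mul]
  ring

theorem expn_ones (m : ℕ) : Expn (ZR (ones m)) (Finsupp.single m 1) := by
  rw [z2_expn]
  refine z2_cg Small.zero fun N => ?_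
  rw [z2V_single]
  ring

theorem expn_adm {w : List ℕ} (hw : Adm w) : Expn (ZR w) (Finsupp.single 0 (mzv w)) := by
  rw [z2_expn]
  refine z2_cg (small_tail hw) fun N => ?_
  rw [z2V_single, show ones 0 = [] from rfl, z2_nil, mul_one]

theorem z2_pos_ones (m : ℕ) : Pos (ones m) := by
  intro a ha
  rw [List.eq_of_mem_replicate ha]

theorem z2_expn_zero : Expn (fun _ => 0) 0 := by
  rw [z2_expn]
  refine z2_cg Small.zero fun N => ?_
  rw [map_zero, sub_zero]

theorem z2_expn_list (L : List (List ℕ)) (e : List ℕ → ℕ →₀ ℝ)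
    (he : ∀ w ∈ L, Expn (ZR w) (e w)) :
    Expn (fun N => (L.map fun w => ZR w N).sum) (L.map e).sum := by
  induction L with
  | nil => simpa using z2_expn_zero
  | cons w L ih =>
    simp only [List.map_cons, List.sum_cons]
    exact (he w List.mem_cons_self).add (ih fun x hx => he x (List.mem_cons_of_mem _ hx))

theorem z2_list_good (L : List (List ℕ)) (r k : ℕ)
    (h : ∀ w ∈ L, ∃ c : ℕ →₀ ℝ, Expn (ZR w) c ∧
      ∀ j, (c j ≠ 0 → j ≤ r) ∧ c j ∈ Fil (r - j) (k - j)) :
    ∃ c : ℕ →₀ ℝ, Expn (fun N => (L.map fun w => ZR w N).sum) c ∧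
      ∀ j, (c j ≠ 0 → j ≤ r) ∧ c j ∈ Fil (r - j) (k - j) := by
  induction L with
  | nil => exact ⟨0, by simpa using z2_expn_zero, fun j => ⟨by simp, by simp⟩⟩
  | cons w L ih =>
    obtain ⟨c, hc, h1⟩ := h w List.mem_cons_self
    obtain ⟨e, he, h2⟩ := ih fun x hx => h x (List.mem_cons_of_mem _ hx)
    refine ⟨c + e, ?_, fun j => ⟨fun hj => ?_, ?_⟩⟩
    · simp only [List.map_cons, List.sum_cons]
      exact hc.add he
    · by_contra hr
      have h3 : c j = 0 := by_contra fun h => hr ((h1 j).1 h)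
      have h4 : e j = 0 := by_contra fun h => hr ((h2 j).1 h)
      exact hj (by rw [Finsupp.add_apply, h3, h4, add_zero])
    · rw [Finsupp.add_apply]
      exact add_mem (h1 j).2 (h2 j).2

theorem z2_single_good (m : ℕ) (y : List ℕ) (hy : Adm y) (j : ℕ) :
    ((Finsupp.single m (mzv y) : ℕ →₀ ℝ) j ≠ 0 → j ≤ (ones m ++ y).length) ∧
      (Finsupp.single m (mzv y) : ℕ →₀ ℝ) j ∈
        Fil ((ones m ++ y).length - j) ((ones m ++ y).sum - j) := by
  by_cases hj : m = j
  · subst hj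
    refine ⟨fun _ => by simp [ones], ?_⟩
    rw [Finsupp.single_eq_same]
    exact mzv_mem_Fil hy (by simp [ones]) (by simp [ones])
  · rw [Finsupp.single_eq_of_ne' hj]
    exact ⟨fun h => absurd rfl h, zero_mem _⟩

theorem z2_exists (m : ℕ) : ∀ y : List ℕ, Adm y → ∃ c : ℕ →₀ ℝ, Expn (ZR (ones m ++ y)) c ∧
    ∀ j, (c j ≠ 0 → j ≤ (ones m ++ y).length) ∧
      c j ∈ Fil ((ones m ++ y).length - j) ((ones m ++ y).sum - j) := by
  induction m using Nat.strong_induction_on with
  | _ m ih =>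
    intro y hy
    by_cases hne : y = []
    · subst hne
      refine ⟨Finsupp.single m 1, by simpa using expn_ones m, fun j => ?_⟩
      have h := z2_single_good m [] hy j
      rwa [mzv_nil] at h
    obtain ⟨L, hL, hlt⟩ := stuf_ones m y hy hne
    obtain ⟨c, hc, h1⟩ := z2_list_good L (ones m ++ y).length (ones m ++ y).sum (by
      intro x hx
      have hm := mem_stuf (z2_pos_ones m) hy.1 (hL.mem_iff.2 (List.mem_cons_of_mem _ hx))
      obtain ⟨i, hi, z, hz, -, rfl⟩ := hlt x hx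
      obtain ⟨c, hc, h1⟩ := ih i hi z hz
      rw [← List.length_append, ← List.sum_append] at hm
      refine ⟨c, hc, fun j => ⟨fun hj => ((h1 j).1 hj).trans hm.2.2, ?_⟩⟩
      rw [← hm.2.1]
      exact Fil_mono (Nat.sub_le_sub_right hm.2.2 j) _ (h1 j).2)
    have h2 : Expn (fun N => ZR (ones m) N * ZR y N) (Finsupp.single m (mzv y)) := by
      rw [z2_expn]
      refine z2_cg ((small_tail hy).mul_slow (slow_ZR (z2_pos_ones m))) fun N => ?_
      rw [z2V_single]
      ring
    refine ⟨Finsupp.single m (mzv y) + (-1 : ℝ) • c, ?_, fun j => ⟨fun hj => ?_, ?_⟩⟩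
    · refine z2_cg (P := fun s => Expn s _) (h2.add (hc.smul (-1))) fun N => ?_
      rw [ZR_stuf, (hL.map _).sum_eq, List.map_cons, List.sum_cons]
      ring
    · by_contra hr
      have h3 : (Finsupp.single m (mzv y) : ℕ →₀ ℝ) j = 0 :=
        by_contra fun h => hr ((z2_single_good m y hy j).1 h)
      have h4 : c j = 0 := by_contra fun h => hr ((h1 j).1 h)
      exact hj (by rw [Finsupp.add_apply, h3, Finsupp.smul_apply, h4, smul_zero, add_zero])
    · rw [Finsupp.add_apply, Finsupp.smul_apply, neg_one_smul]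
      exact add_mem (z2_single_good m y hy j).2 (neg_mem (h1 j).2)

theorem exists_expn {w : List ℕ} (hw : Pos w) : ∃ c : ℕ →₀ ℝ, Expn (ZR w) c ∧
    ∀ j, (c j ≠ 0 → j ≤ w.length) ∧ c j ∈ Fil (w.length - j) (w.sum - j) := by
  obtain ⟨m, y, hy, rfl⟩ := pos_split hw
  exact z2_exists m y hy

theorem z2_expn_sum {ι : Type} (s : Finset ι) (a : ι → ℕ → ℝ) (c : ι → ℕ →₀ ℝ)
    (h : ∀ i ∈ s, Expn (a i) (c i)) : Expn (fun N => ∑ i ∈ s, a i N) (∑ i ∈ s, c i) := by
  classical
  induction s using Finset.induction_on with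
  | empty => simpa using z2_expn_zero
  | insert i s hi ih =>
    simp only [Finset.sum_insert hi]
    exact (h i (Finset.mem_insert_self _ _)).add
      (ih fun x hx => h x (Finset.mem_insert_of_mem hx))

theorem z2_slow_V (c : ℕ →₀ ℝ) : Slow fun N => z2V N c := by
  induction c using Finsupp.induction_linear with
  | zero => simpa using Slow.const 0
  | add c e hc he => simpa using hc.add he
  | single m x =>
    simp only [z2V_single]
    exact (Slow.const x).mul (slow_ZR (z2_pos_ones m))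

/-- product of two expansions, given expansions `e w` of all words -/
theorem Expn.mul {a b : ℕ → ℝ} {c c' : ℕ →₀ ℝ} (ha : Expn a c) (hb : Expn b c')
    (e : List ℕ → ℕ →₀ ℝ) (he : ∀ w, Pos w → Expn (ZR w) (e w)) :
    Expn (fun N => a N * b N) (c.sum fun i x => c'.sum fun j y =>
      (x * y) • ((stuf (ones i) (ones j)).map e).sum) := by
  have h1 : Expn (fun N => z2V N c * z2V N c') (c.sum fun i x => c'.sum fun j y =>
      (x * y) • ((stuf (ones i) (ones j)).map e).sum) := by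
    have h := z2_expn_sum c.support _ _ fun i _ => z2_expn_sum c'.support _ _ fun j _ =>
      (z2_expn_list (stuf (ones i) (ones j)) e fun w hw =>
        he w (mem_stuf (z2_pos_ones i) (z2_pos_ones j) hw).1).smul (c i * c' j)
    refine z2_cg (P := fun s => Expn s _) h fun N => ?_
    rw [← z2V_eq, ← z2V_eq, Finsupp.sum, Finsupp.sum, Finset.sum_mul_sum]
    refine Finset.sum_congr rfl fun i _ => Finset.sum_congr rfl fun j _ => ?_
    rw [← ZR_stuf]
    ring
  rw [z2_expn] at ha hb h1 ⊢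
  have hsb : Slow b := by
    refine z2_cg (hb.slow.add (z2_slow_V c')) fun N => ?_
    ring
  refine z2_cg (((ha.mul_slow hsb).add (hb.mul_slow (z2_slow_V c))).add h1) fun N => ?_
  ring

end Pool.Agent.MP_cbe134_nt.V
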