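import Pool.Agent.MP_cbe134_nt.VD1

/- Abel regularisation. -/

open Filter Asymptotics Topology

namespace Pool.Agent.MP_cbe134_nt.V

theorem z3_ev : ∀ᶠ z in 𝓝[<] (1 : ℝ), 0 ≤ z ∧ z < 1 := Ico_mem_nhdsLT one_pos

theorem z3_norm (F : PowerSeries ℝ) {z : ℝ} (hz : 0 ≤ z) (n : ℕ) :
    ‖PowerSeries.coeff n F * z ^ n‖ = |PowerSeries.coeff n F| * z ^ n := by
  rw [Real.norm_eq_abs, abs_mul, abs_of_nonneg (pow_nonneg hz n)]

theorem z3_sum {F : PowerSeries ℝ} {z : ℝ} (hz : 0 ≤ z)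
    (h : Summable fun n => |PowerSeries.coeff n F| * z ^ n) :
    Summable fun n => ‖PowerSeries.coeff n F * z ^ n‖ := by
  simpa only [z3_norm F hz] using h

theorem z3_le {a b : ℝ} (h : a ≤ b) :
    (fun z : ℝ => (1 - z) ^ b) =O[𝓝[<] 1] fun z : ℝ => (1 - z) ^ a := by
  refine IsBigO.of_bound' (z3_ev.mono fun z hz => ?_)
  have h1 : 0 < 1 - z := by linarith [hz.2]
  rw [Real.norm_of_nonneg (by positivity), Real.norm_of_nonneg (by positivity)]
  exact Real.rpow_le_rpow_of_exponent_ge h1 (by linarith [hz.1]) h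

theorem z3_tend : Tendsto (fun z : ℝ => 1 - z) (𝓝[<] 1) (𝓝[>] 0) := by
  refine tendsto_nhdsWithin_iff.2 ⟨?_, z3_ev.mono fun z hz => sub_pos.2 hz.2⟩
  have h : Tendsto (fun z : ℝ => 1 - z) (𝓝 1) (𝓝 (1 - 1)) := tendsto_const_nhds.sub tendsto_id
  rw [sub_self] at h
  exact h.mono_left nhdsWithin_le_nhds

theorem z3_poly (P : Polynomial ℝ) {ε : ℝ} (hε : ε < 0) :
    (fun z : ℝ => P.eval (-Real.log (1 - z))) =O[𝓝[<] 1] fun z : ℝ => (1 - z) ^ ε := by
  induction P using Polynomial.induction_on' with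
  | add P Q hP hQ => simpa only [Polynomial.eval_add] using hP.add hQ
  | monomial n a =>
    simp only [Polynomial.eval_monomial]
    refine IsBigO.const_mul_left ?_ a
    have h := ((isLittleO_abs_log_rpow_rpow_nhdsGT_zero n hε).comp_tendsto z3_tend).isBigO
    refine IsBigO.of_norm_left (h.congr_left fun z => ?_)
    simp

theorem z3_anti (F G : PowerSeries ℝ) (z : ℝ) (n : ℕ) :
    ∑ p ∈ Finset.HasAntidiagonal.antidiagonal n,
      (PowerSeries.coeff p.1 F * z ^ p.1) * (PowerSeries.coeff p.2 G * z ^ p.2) =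
      PowerSeries.coeff n (F * G) * z ^ n := by
  rw [PowerSeries.coeff_mul, Finset.sum_mul]
  refine Finset.sum_congr rfl fun p hp => ?_
  rw [← Finset.HasAntidiagonal.mem_antidiagonal.1 hp]
  ring

theorem z3_mul {F G : PowerSeries ℝ} {z : ℝ} (hz : 0 ≤ z)
    (hF : Summable fun n => |PowerSeries.coeff n F| * z ^ n)
    (hG : Summable fun n => |PowerSeries.coeff n G| * z ^ n) :
    (Summable fun n => |PowerSeries.coeff n (F * G)| * z ^ n) ∧
      evS z (F * G) = evS z F * evS z G := by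
  constructor
  · have h := summable_norm_sum_mul_antidiagonal_of_summable_norm (z3_sum hz hF) (z3_sum hz hG)
    simpa only [z3_anti, z3_norm _ hz] using h
  · have h := tsum_mul_tsum_eq_tsum_sum_antidiagonal_of_summable_norm (z3_sum hz hF)
      (z3_sum hz hG)
    simp only [z3_anti] at h
    exact h.symm

theorem z3_lin (z : ℝ) :
    (Summable fun n => |PowerSeries.coeff n (1 - PowerSeries.X : PowerSeries ℝ)| * z ^ n) ∧
      evS z (1 - PowerSeries.X) = 1 - z := by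
  have h : ∀ n ∉ Finset.range 2, PowerSeries.coeff n (1 - PowerSeries.X : PowerSeries ℝ) = 0 := by
    intro n hn
    have h1 : n ≠ 0 := by rintro rfl; simp at hn
    have h2 : n ≠ 1 := by rintro rfl; simp at hn
    simp [PowerSeries.coeff_one, PowerSeries.coeff_X, h1, h2]
  refine ⟨summable_of_ne_finset_zero (s := Finset.range 2) fun n hn => by simp [h n hn], ?_⟩
  unfold evS
  rw [tsum_eq_sum (s := Finset.range 2) fun n hn => by rw [h n hn, zero_mul]]
  simp [Finset.sum_range_succ, PowerSeries.coeff_one, PowerSeries.coeff_X, sub_eq_add_neg]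

theorem z3_split {δ z : ℝ} (hδ : 0 < δ) (h0 : 0 ≤ z) (h1 : z < 1) :
    ∃ g : ℕ → ℝ, ∃ a : ℝ, HasSum g a ∧ (∀ n : ℕ, ((n + 1 : ℕ) : ℝ) ^ (-δ) * z ^ n ≤ g n) ∧
      (1 - z) * a ≤ (1 - z) ^ (1 / 2 : ℝ) + (1 - z) ^ (δ / 2) := by
  have hu : 0 < 1 - z := by linarith
  set t : ℝ := (1 - z) ^ (-(1 / 2) : ℝ) with ht
  have ht0 : 0 < t := by positivity
  have hs : HasSum (fun n : ℕ => if n ∈ Finset.range ⌊t⌋₊ then (1 : ℝ) else 0) ⌊t⌋₊ := by
    have h := hasSum_sum_of_ne_finset_zero (L := SummationFilter.unconditional ℕ)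
      (f := fun n : ℕ => if n ∈ Finset.range ⌊t⌋₊ then (1 : ℝ) else 0) (s := Finset.range ⌊t⌋₊)
      fun n hn => if_neg hn
    rwa [Finset.sum_congr rfl fun n hn => if_pos hn, Finset.sum_const, Finset.card_range,
      nsmul_eq_mul, mul_one] at h
  refine ⟨_, _, hs.add ((hasSum_geometric_of_lt_one h0 h1).mul_left (t ^ (-δ))), fun n => ?_, ?_⟩
  · have hz : 0 ≤ z ^ n := pow_nonneg h0 n
    split_ifs with hn
    · have a1 : ((n + 1 : ℕ) : ℝ) ^ (-δ) ≤ 1 :=
        Real.rpow_le_one_of_one_le_of_nonpos (by simp) (by linarith)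
      have a2 : z ^ n ≤ 1 := pow_le_one₀ h0 h1.le
      have a3 : 0 ≤ t ^ (-δ) * z ^ n := by positivity
      have a4 := mul_le_one₀ a1 hz a2
      linarith
    · rw [zero_add]
      refine mul_le_mul_of_nonneg_right (Real.rpow_le_rpow_of_nonpos ht0 ?_ (by linarith)) hz
      have a1 : (⌊t⌋₊ : ℝ) ≤ n := by exact_mod_cast not_lt.1 (mt Finset.mem_range.2 hn)
      have a2 := Nat.lt_floor_add_one t
      push_cast
      linarith
  · have a1 : (1 - z) * t = (1 - z) ^ (1 / 2 : ℝ) := by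
      rw [ht, ← Real.rpow_one_add' hu.le (by norm_num)]
      norm_num
    have a2 : t ^ (-δ) = (1 - z) ^ (δ / 2) := by
      rw [ht, ← Real.rpow_mul hu.le]
      congr 1
      ring
    have a3 := mul_le_mul_of_nonneg_left (Nat.floor_le ht0.le) hu.le
    rw [mul_add, ← a1, a2, mul_left_comm, mul_inv_cancel₀ hu.ne', mul_one]
    linarith

theorem Asy.add {F G : PowerSeries ℝ} {P Q : Polynomial ℝ} (hF : Asy F P) (hG : Asy G Q) :
    Asy (F + G) (P + Q) := by
  obtain ⟨hF, a, ha, hF'⟩ := hF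
  obtain ⟨hG, b, hb, hG'⟩ := hG
  refine ⟨fun z h0 h1 => Summable.of_nonneg_of_le (fun n => by positivity) (fun n => ?_)
    ((hF z h0 h1).add (hG z h0 h1)), min a b, lt_min ha hb, ?_⟩
  · rw [map_add, ← add_mul]
    exact mul_le_mul_of_nonneg_right (abs_add_le _ _) (pow_nonneg h0 n)
  · refine ((hF'.trans (z3_le (min_le_left a b))).add
      (hG'.trans (z3_le (min_le_right a b)))).congr' (z3_ev.mono fun z hz => ?_) .rfl
    have h := (z3_sum hz.1 (hF z hz.1 hz.2)).of_norm.tsum_add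
      (z3_sum hz.1 (hG z hz.1 hz.2)).of_norm
    simp only [evS, map_add, add_mul, Polynomial.eval_add, h]
    ring

theorem Asy.smul {F : PowerSeries ℝ} {P : Polynomial ℝ} (c : ℝ) (hF : Asy F P) :
    Asy (c • F) (c • P) := by
  obtain ⟨hF, a, ha, hF'⟩ := hF
  refine ⟨fun z h0 h1 => ((hF z h0 h1).mul_left |c|).congr fun n => ?_, a, ha,
    (hF'.const_mul_left c).congr_left fun z => ?_⟩
  · simp [abs_mul, mul_assoc]
  · simp only [evS, map_smul, smul_eq_mul, mul_assoc, tsum_mul_left, Polynomial.eval_smul]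
    ring

theorem Asy.zero : Asy 0 0 := by
  refine ⟨fun z _ _ => by simp, 1, one_pos, ?_⟩
  simpa [evS] using isBigO_zero _ _

theorem Asy.one : Asy 1 1 := by
  refine ⟨fun z _ _ => summable_of_ne_finset_zero (s := {0}) fun n hn => ?_, 1, one_pos, ?_⟩
  · simp [PowerSeries.coeff_one, Finset.notMem_singleton.1 hn]
  · refine (isBigO_zero _ _).congr_left fun z => ?_
    unfold evS
    rw [tsum_eq_single 0 fun n hn => by simp [PowerSeries.coeff_one, hn]]
    simp

theorem Asy.mul {F G : PowerSeries ℝ} {P Q : Polynomial ℝ} (hF : Asy F P) (hG : Asy G Q) :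
    Asy (F * G) (P * Q) := by
  obtain ⟨hF, a, ha, hF'⟩ := hF
  obtain ⟨hG, b, hb, hG'⟩ := hG
  have hd := lt_min ha hb
  refine ⟨fun z h0 h1 => (z3_mul h0 (hF z h0 h1) (hG z h0 h1)).1, min a b / 2, by linarith, ?_⟩
  have h1 := hF'.trans (z3_le (min_le_left a b))
  have h2 := hG'.trans (z3_le (min_le_right a b))
  have h3 : -(min a b / 2) < 0 := by linarith
  have h4 := (h2.trans (z3_le (a := -(min a b / 2)) (by linarith))).add (z3_poly Q h3)
  have h5 := (h1.mul h4).add (h2.mul (z3_poly P h3))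
  refine h5.congr' (z3_ev.mono fun z hz => ?_) (z3_ev.mono fun z hz => ?_)
  · simp only [(z3_mul hz.1 (hF z hz.1 hz.2) (hG z hz.1 hz.2)).2, Polynomial.eval_mul]
    ring
  · dsimp only
    rw [← Real.rpow_add (sub_pos.2 hz.2)]
    congr 1
    ring

theorem Asy.unique {F : PowerSeries ℝ} {P Q : Polynomial ℝ} (hP : Asy F P) (hQ : Asy F Q) :
    P = Q := by
  obtain ⟨-, a, ha, hP⟩ := hP
  obtain ⟨-, b, hb, hQ⟩ := hQ
  have h0 : ∀ c : ℝ, 0 < c → Tendsto (fun z : ℝ => (1 - z) ^ c) (𝓝[<] 1) (𝓝 0) := fun c hc => by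
    have h := (z3_tend.mono_right nhdsWithin_le_nhds).rpow_const (p := c) (Or.inr hc.le)
    rwa [Real.zero_rpow hc.ne'] at h
  have h1 : Tendsto (fun z : ℝ => (P - Q).eval (-Real.log (1 - z))) (𝓝[<] 1) (𝓝 0) := by
    have h := (hQ.trans_tendsto (h0 b hb)).sub (hP.trans_tendsto (h0 a ha))
    rw [sub_zero] at h
    refine h.congr fun z => ?_
    rw [Polynomial.eval_sub]
    ring
  have h2 : Tendsto (fun z : ℝ => -Real.log (1 - z)) (𝓝[<] 1) atTop :=
    tendsto_neg_atBot_atTop.comp (Real.tendsto_log_nhdsGT_zero.comp z3_tend)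
  have h3 : (P - Q).degree ≤ 0 := by
    by_contra h
    exact not_tendsto_nhds_of_tendsto_atTop
      (((P - Q).abs_tendsto_atTop (not_le.1 h)).comp h2) _ h1.abs
  rw [Polynomial.eq_C_of_degree_le_zero h3] at h1
  simp only [Polynomial.eval_C] at h1
  have h4 := tendsto_nhds_unique tendsto_const_nhds h1
  rw [← sub_eq_zero, Polynomial.eq_C_of_degree_le_zero h3, h4, map_zero]

theorem asy_small {s : ℕ → ℝ} (hs : Small s) : Asy (abel s) 0 := by
  obtain ⟨δ, hδ, hs⟩ := hs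
  obtain ⟨C, hC, hb⟩ := bound_of_isBigO_nat_atTop hs
  have h1 : ∀ n : ℕ, |s (n + 1)| ≤ C * ((n + 1 : ℕ) : ℝ) ^ (-δ) := fun n => by
    have h2 : 0 < ((n + 1 : ℕ) : ℝ) ^ (-δ) := by positivity
    have h3 := hb h2.ne'
    rwa [Real.norm_eq_abs, Real.norm_of_nonneg h2.le] at h3
  have h2 : ∀ z : ℝ, 0 ≤ z → z < 1 →
      (Summable fun n => |PowerSeries.coeff n (PowerSeries.mk fun n => s (n + 1))| * z ^ n) ∧
      (1 - z) * ‖evS z (PowerSeries.mk fun n => s (n + 1))‖ ≤
        C * ((1 - z) ^ (1 / 2 : ℝ) + (1 - z) ^ (δ / 2)) := by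
    intro z h0 hz
    obtain ⟨g, a, g1, g2, g3⟩ := z3_split hδ h0 hz
    have g4 : ∀ n, |PowerSeries.coeff n (PowerSeries.mk fun n => s (n + 1))| * z ^ n ≤ C * g n := by
      intro n
      rw [PowerSeries.coeff_mk]
      refine (mul_le_mul_of_nonneg_right (h1 n) (pow_nonneg h0 n)).trans ?_
      rw [mul_assoc]
      exact mul_le_mul_of_nonneg_left (g2 n) hC.le
    refine ⟨Summable.of_nonneg_of_le (fun n => by positivity) g4 (g1.mul_left C).summable, ?_⟩
    have g5 : ‖evS z (PowerSeries.mk fun n => s (n + 1))‖ ≤ C * a :=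
      tsum_of_norm_bounded (g1.mul_left C) fun n => by rw [z3_norm _ h0]; exact g4 n
    refine (mul_le_mul_of_nonneg_left g5 (sub_pos.2 hz).le).trans ?_
    rw [mul_left_comm]
    exact mul_le_mul_of_nonneg_left g3 hC.le
  refine ⟨fun z h0 hz => (z3_mul h0 (z3_lin z).1 (h2 z h0 hz).1).1, min (1 / 2) (δ / 2),
    lt_min (by norm_num) (by linarith), IsBigO.trans ?_
      ((z3_le (min_le_left _ _)).add (z3_le (min_le_right _ _)))⟩
  refine IsBigO.of_bound C (z3_ev.mono fun z hz => ?_)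
  have hu := sub_pos.2 hz.2
  rw [abel, (z3_mul hz.1 (z3_lin z).1 (h2 z hz.1 hz.2).1).2, (z3_lin z).2, Polynomial.eval_zero,
    sub_zero, norm_mul, Real.norm_of_nonneg hu.le, Real.norm_of_nonneg (by positivity :
      0 ≤ (1 - z) ^ (1 / 2 : ℝ) + (1 - z) ^ (δ / 2))]
  exact (h2 z hz.1 hz.2).2

theorem asy_log : Asy (abel (ZR [1])) Polynomial.X := by
  have h1 : ∀ n : ℕ, PowerSeries.coeff n (abel (ZR [1])) = (n : ℝ)⁻¹ := by
    intro n
    rw [abel, sub_mul, one_mul, map_sub, PowerSeries.coeff_mk]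
    cases n with
    | zero => simp [ZR, Zt]
    | succ n =>
      rw [PowerSeries.coeff_succ_X_mul, PowerSeries.coeff_mk, ZR, ZR, Zt_succ 1 [] (n + 1)]
      simp [Zt_nil]
  have h2 : ∀ z : ℝ, 0 ≤ z → z < 1 →
      HasSum (fun n : ℕ => (n : ℝ)⁻¹ * z ^ n) (-Real.log (1 - z)) := by
    intro z h0 hz
    have h := Real.hasSum_pow_div_log_of_abs_lt_one (x := z) (by rwa [abs_of_nonneg h0])
    refine (hasSum_nat_add_iff' 1).1 ?_
    simpa [div_eq_inv_mul] using h
  refine ⟨fun z h0 hz => (h2 z h0 hz).summable.congr fun n => ?_, 1, one_pos,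
    (isBigO_zero _ _).congr' (z3_ev.mono fun z hz => ?_) .rfl⟩
  · rw [h1, abs_of_nonneg (by positivity)]
  · simp only [evS, h1, (h2 z hz.1 hz.2).tsum_eq, Polynomial.eval_X, sub_self]

theorem abel_ZR (w : List ℕ) :
    abel (ZR w) = PowerSeries.map (algebraMap ℚ ℝ) (LiS w) := by
  rw [abel, LiS, map_mul, map_sub, map_one, PowerSeries.map_X]
  congr 1

end Pool.Agent.MP_cbe134_nt.V
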