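import Pool.Agent.MP_cbe134_nt.VZ1

/- Generating sums and the formal shuffle product of multiple polylogarithms. -/

open Finset

namespace Pool.Agent.MP_cbe134_nt.V

variable {E E' : Type} [AddCommGroup E] [Module ℚ E] [AddCommGroup E'] [Module ℚ E']

theorem gen_map (φ : E →ₗ[ℚ] E') (t : List ℚ) (F : List ℕ → E) (d : ℕ) :
    φ (gen t F d) = gen t (fun w => φ (F w)) d := by
  induction t generalizing F d with
  | nil => simp only [gen]; split_ifs <;> simp
  | cons a t ih => simp only [gen, map_sum, map_smul, ih]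

theorem z4_pos_cons {k : ℕ} {w : List ℕ} (h : Pos w) : Pos ((k + 1) :: w) := by
  intro a ha
  rcases List.mem_cons.1 ha with rfl | ha
  · omega
  · exact h a ha

theorem z4_rel (R : E → E' → Prop) (h0 : R 0 0)
    (hadd : ∀ a b a' b', R a a' → R b b' → R (a + b) (a' + b'))
    (hsmul : ∀ (c : ℚ) a a', R a a' → R (c • a) (c • a')) (t : List ℚ) (F : List ℕ → E)
    (F' : List ℕ → E') (d : ℕ)
    (h : ∀ w, Pos w → w.length = t.length → w.sum = d + t.length → R (F w) (F' w)) :
    R (gen t F d) (gen t F' d) := by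
  induction t generalizing F F' d with
  | nil =>
    simp only [gen]
    split_ifs with hd
    · exact h [] (fun _ h => by simp at h) rfl (by simp [hd])
    · exact h0
  | cons a t ih =>
    simp only [gen]
    refine Finset.sum_hom_rel h0 (fun p b c hbc => ?_) |> fun h' => by
      rw [← Finset.sum_coe_sort (HasAntidiagonal.antidiagonal d),
        ← Finset.sum_coe_sort (HasAntidiagonal.antidiagonal d)]
      exact h'
    refine hadd _ _ _ _ (hsmul _ _ _ (ih _ _ _ fun w hw h1 h2 => h _ (z4_pos_cons hw) ?_ ?_)) hbc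
    · simp [h1]
    · have := HasAntidiagonal.mem_antidiagonal.1 p.2
      simp only [List.sum_cons, List.length_cons]
      omega

theorem gen_congr (t : List ℚ) {F F' : List ℕ → E} (d : ℕ)
    (h : ∀ w, Pos w → w.length = t.length → w.sum = d + t.length → F w = F' w) :
    gen t F d = gen t F' d :=
  z4_rel (· = ·) rfl (fun _ _ _ _ h h' => by rw [h, h']) (fun _ _ _ h => by rw [h]) t F F' d h

theorem gen_mem (D : Submodule ℚ E) (t : List ℚ) (F : List ℕ → E) (d : ℕ)
    (h : ∀ w, Pos w → w.length = t.length → w.sum = d + t.length → F w ∈ D) :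
    gen t F d ∈ D :=
  z4_rel (fun a (_ : E) => a ∈ D) D.zero_mem (fun _ _ _ _ h h' => D.add_mem h h')
    (fun c _ _ h => D.smul_mem c h) t F F d h

/-- a relation between two families passes to the generating sums -/
theorem gen_rel (R : E → E' → Prop) (h0 : R 0 0)
    (hadd : ∀ a b a' b', R a a' → R b b' → R (a + b) (a' + b'))
    (hsmul : ∀ (c : ℚ) a a', R a a' → R (c • a) (c • a')) (t : List ℚ) (F : List ℕ → E)
    (F' : List ℕ → E') (h : ∀ w, Pos w → R (F w) (F' w)) (d : ℕ) :
    R (gen t F d) (gen t F' d) :=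
  z4_rel R h0 hadd hsmul t F F' d fun w hw _ _ => h w hw

theorem z4_add (t : List ℚ) (F F' : List ℕ → E) (d : ℕ) :
    gen t (fun w => F w + F' w) d = gen t F d + gen t F' d := by
  induction t generalizing F F' d with
  | nil => simp only [gen]; split_ifs <;> simp
  | cons a t ih => simp only [gen, ih, smul_add, sum_add_distrib]

theorem z4_smul (c : ℚ) (t : List ℚ) (F : List ℕ → E) (d : ℕ) :
    gen t (fun w => c • F w) d = c • gen t F d :=
  (gen_map (c • (LinearMap.id : E →ₗ[ℚ] E)) t F d).symm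

theorem z4_zero (t : List ℚ) (d : ℕ) : gen t (fun _ => (0 : E)) d = 0 := by
  simpa using z4_smul 0 t (fun _ => (0 : E)) d

theorem z4_sum {ι : Type} (s : Finset ι) (t : List ℚ) (F : ι → List ℕ → E) (d : ℕ) :
    gen t (fun w => ∑ i ∈ s, F i w) d = ∑ i ∈ s, gen t (F i) d := by
  classical
  induction s using Finset.induction_on with
  | empty => simpa using z4_zero t d
  | insert i s hi ih => simp only [sum_insert hi, z4_add, ih]

omit [Module ℚ E] in
theorem z4_assoc (f : ℕ → ℕ → ℕ → E) (d : ℕ) :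
    ∑ p ∈ HasAntidiagonal.antidiagonal d, ∑ q ∈ HasAntidiagonal.antidiagonal p.1, f q.1 q.2 p.2 =
      ∑ p ∈ HasAntidiagonal.antidiagonal d, ∑ q ∈ HasAntidiagonal.antidiagonal p.2,
        f p.1 q.1 q.2 := by
  simp only [Finset.sum_sigma']
  apply Finset.sum_nbij' (fun ⟨⟨_i, j⟩, ⟨k, l⟩⟩ ↦ ⟨(k, l + j), (l, j)⟩)
    (fun ⟨⟨i, _j⟩, ⟨k, l⟩⟩ ↦ ⟨(i + k, l), (i, k)⟩) <;> aesop (add simp [add_assoc])

omit [Module ℚ E] in
theorem z4_assoc' (f : ℕ → ℕ → ℕ → E) (d : ℕ) :
    ∑ p ∈ HasAntidiagonal.antidiagonal d, ∑ q ∈ HasAntidiagonal.antidiagonal p.2, f p.1 q.1 q.2 =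
      ∑ p ∈ HasAntidiagonal.antidiagonal d, ∑ q ∈ HasAntidiagonal.antidiagonal p.2,
        f q.1 p.1 q.2 := by
  rw [← z4_assoc f, ← z4_assoc fun a b c => f b a c]
  exact sum_congr rfl fun p _ =>
    (Finset.Nat.sum_antidiagonal_swap (f := fun q => f q.1 q.2 p.2)).symm

/-- the double generating sum -/
def z4_G2 (H : List ℕ → List ℕ → E) (t t' : List ℚ) (d : ℕ) : E :=
  ∑ p ∈ HasAntidiagonal.antidiagonal d, gen t (fun u => gen t' (fun v => H u v) p.2) p.1

theorem z4_left (H : List ℕ → List ℕ → E) (a : ℚ) (t t' : List ℚ) (d : ℕ) :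
    z4_G2 H (a :: t) t' d = ∑ p ∈ HasAntidiagonal.antidiagonal d,
      a ^ p.1 • z4_G2 (fun u v => H ((p.1 + 1) :: u) v) t t' p.2 := by
  simp only [z4_G2, gen, smul_sum]
  exact z4_assoc (fun k l j => a ^ k • gen t (fun u => gen t' (fun v => H ((k + 1) :: u) v) j) l) d

theorem z4_right (H : List ℕ → List ℕ → E) (b : ℚ) (t t' : List ℚ) (d : ℕ) :
    z4_G2 H t (b :: t') d = ∑ p ∈ HasAntidiagonal.antidiagonal d,
      b ^ p.1 • z4_G2 (fun u v => H u ((p.1 + 1) :: v)) t t' p.2 := by
  simp only [z4_G2, gen, smul_sum, z4_sum, z4_smul]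
  exact z4_assoc' (fun i k l => b ^ k • gen t (fun u => gen t' (fun v => H u ((k + 1) :: v)) l) i) d

theorem z4_cons_sum (a : ℚ) (L : List (List ℚ)) (F : List ℕ → E) (d : ℕ) :
    ((L.map (a :: ·)).map fun σ => gen σ F d).sum = ∑ p ∈ HasAntidiagonal.antidiagonal d,
      a ^ p.1 • (L.map fun σ => gen σ (fun w => F ((p.1 + 1) :: w)) p.2).sum := by
  induction L with
  | nil => simp
  | cons σ L ih => simp only [List.map_cons, List.sum_cons, ih, smul_add, sum_add_distrib, gen]

theorem gen_shuf (t t' : List ℚ) (F : List ℕ → E) (d : ℕ) :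
    ((shuf t t').map fun σ => gen σ F d).sum =
      ∑ p ∈ HasAntidiagonal.antidiagonal d,
        gen t (fun u => gen t' (fun v => ((shuf u v).map F).sum) p.2) p.1 := by
  induction t, t' using shuf.induct generalizing F d with
  | case1 v =>
    rw [sum_eq_single_of_mem (0, d) (by simp)]
    · simp [shuf, gen]
    · intro p hp hne
      have := HasAntidiagonal.mem_antidiagonal.1 hp
      exact if_neg fun h => hne (Prod.ext h (by dsimp only; omega))
  | case2 a u =>
    rw [sum_eq_single_of_mem (d, 0) (by simp)]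
    · simp [shuf_nil_right, gen]
    · intro p hp hne
      have := HasAntidiagonal.mem_antidiagonal.1 hp
      have h0 : p.2 ≠ 0 := fun h => hne (Prod.ext (by dsimp only; omega) h)
      simp only [gen.eq_1, if_neg h0, z4_zero]
  | case3 a u b v ih1 ih2 =>
    rw [shuf, List.map_append, List.sum_append, z4_cons_sum, z4_cons_sum]
    simp only [ih1, ih2]
    refine (congrArg₂ (· + ·)
      (z4_left (fun x y => ((shuf x.tail y).map fun w => F (x.headD 0 :: w)).sum) a u (b :: v) d)
      (z4_right (fun x y => ((shuf x y.tail).map fun w => F (y.headD 0 :: w)).sum) b (a :: u) v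
        d)).symm.trans ?_
    rw [z4_G2, z4_G2, ← sum_add_distrib]
    refine sum_congr rfl fun p _ => ?_
    rw [← z4_add]
    refine gen_congr _ _ fun x _ hx _ => ?_
    rw [← z4_add]
    refine gen_congr _ _ fun y _ hy _ => ?_
    obtain ⟨k, x, rfl⟩ := List.exists_cons_of_length_eq_add_one hx
    obtain ⟨l, y, rfl⟩ := List.exists_cons_of_length_eq_add_one hy
    simp [shuf, Function.comp_def]

theorem gen_shuf_mem (D : Submodule ℚ E) (t t' : List ℚ) (F : List ℕ → E) (d : ℕ)
    (h : ∀ u v, Pos u → Pos v → u.length = t.length → v.length = t'.length →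
      u.sum + v.sum = d + (t.length + t'.length) → ((shuf u v).map F).sum ∈ D) :
    ((shuf t t').map fun σ => gen σ F d).sum ∈ D := by
  rw [gen_shuf]
  refine D.sum_mem fun p hp => gen_mem D _ _ _ fun u hu h1 h2 => gen_mem D _ _ _
    fun v hv h3 h4 => h u v hu hv h1 h3 ?_
  have := HasAntidiagonal.mem_antidiagonal.1 hp
  omega

theorem gen_ofFn (r : ℕ) (x : Fin r → ℚ) (F : List ℕ → E) (d : ℕ) :
    gen (List.ofFn x) F d = ∑ a ∈ Finset.Nat.antidiagonalTuple r d,
      (∏ i, x i ^ a i) • F (List.ofFn fun i => a i + 1) := by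
  induction r generalizing F d with
  | zero => cases d <;> simp [gen]
  | succ r ih =>
    rw [List.ofFn_succ, gen]
    simp only [ih, smul_sum, sum_sigma']
    refine sum_nbij' (fun p => Fin.cons p.1.1 p.2)
      (fun a => ⟨(a 0, ∑ i : Fin r, a i.succ), fun i => a i.succ⟩) ?_ ?_ ?_ ?_ ?_
    · rintro ⟨⟨i, j⟩, a⟩ h
      simp only [mem_sigma, HasAntidiagonal.mem_antidiagonal,
        Finset.Nat.mem_antidiagonalTuple] at h ⊢
      rw [Fin.sum_cons, h.2, h.1]
    · intro a h
      simp only [mem_sigma, HasAntidiagonal.mem_antidiagonal,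
        Finset.Nat.mem_antidiagonalTuple, and_true] at h ⊢
      rw [← h, Fin.sum_univ_succ]
    · rintro ⟨⟨i, j⟩, a⟩ h
      simp only [mem_sigma, HasAntidiagonal.mem_antidiagonal,
        Finset.Nat.mem_antidiagonalTuple] at h
      simp [h.2]
    · intro a _
      exact Fin.cons_self_tail a
    · rintro ⟨⟨i, j⟩, a⟩ _
      simp [Fin.prod_univ_succ, List.ofFn_succ, mul_smul]

theorem psum_length (s : List ℚ) : (psum s).length = s.length := by
  induction s with
  | nil => rfl
  | cons a s ih => simp [psum, ih]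

section Li

open PowerSeries

/-- the Euler operator -/
noncomputable def z4_th : ℚ⟦X⟧ →ₗ[ℚ] ℚ⟦X⟧ :=
  LinearMap.mulLeft ℚ X ∘ₗ (PowerSeries.derivative ℚ).toLinearMap

theorem z4_th_apply (f : ℚ⟦X⟧) : z4_th f = X * PowerSeries.derivative ℚ f := rfl

theorem z4_th_coeff (f : ℚ⟦X⟧) (n : ℕ) : coeff n (z4_th f) = n * coeff n f := by
  rw [z4_th_apply]
  cases n with
  | zero => simp
  | succ n => rw [coeff_succ_X_mul, coeff_derivative]; push_cast; ring

theorem z4_th_mul (f g : ℚ⟦X⟧) : z4_th (f * g) = z4_th f * g + f * z4_th g := by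
  simp only [z4_th_apply, Derivation.leibniz, smul_eq_mul]
  ring

theorem z4_th_inj {f : ℚ⟦X⟧} (h : z4_th f = 0) (h0 : constantCoeff f = 0) : f = 0 := by
  ext n
  cases n with
  | zero => simpa using h0
  | succ n =>
    have := z4_th_coeff f (n + 1)
    rw [h, map_zero] at this
    exact (mul_eq_zero.1 this.symm).resolve_left (by positivity)

theorem z4_Li_coeff (a : ℕ) (w : List ℕ) (n : ℕ) :
    coeff n (LiS (a :: w)) = ((n : ℚ)⁻¹) ^ a * Zt w n := by
  rw [LiS, sub_mul, one_mul, map_sub]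
  cases n with
  | zero =>
    rw [coeff_zero_X_mul, coeff_mk, Zt_succ, Zt_cons, sum_range_zero, zero_add, sub_zero]
  | succ n => rw [coeff_succ_X_mul, coeff_mk, coeff_mk, Zt_succ a w (n + 1), add_sub_cancel_left]

theorem z4_Li_nil : LiS [] = 1 := by
  rw [LiS, mul_comm]
  exact mk_one_mul_one_sub_eq_one ℚ

theorem z4_Li_const (a : ℕ) (w : List ℕ) : constantCoeff (LiS ((a + 1) :: w)) = 0 := by
  rw [← coeff_zero_eq_constantCoeff_apply, z4_Li_coeff]
  simp

theorem z4_th_one (w : List ℕ) : z4_th (LiS (1 :: w)) = X * PowerSeries.mk 1 * LiS w := by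
  have e : (X * PowerSeries.mk 1 * LiS w : ℚ⟦X⟧) = X * PowerSeries.mk fun n => Zt w (n + 1) := by
    rw [LiS, ← mul_assoc, mul_assoc X, mk_one_mul_one_sub_eq_one, mul_one]
  rw [e]
  ext n
  rw [z4_th_coeff, z4_Li_coeff]
  cases n with
  | zero => simp
  | succ n =>
    rw [coeff_succ_X_mul, coeff_mk, pow_one, mul_inv_cancel_left₀ (by positivity)]

theorem z4_th_succ (a : ℕ) (w : List ℕ) : z4_th (LiS ((a + 1 + 1) :: w)) = LiS ((a + 1) :: w) := by
  ext n
  rw [z4_th_coeff, z4_Li_coeff, z4_Li_coeff]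
  cases n with
  | zero => simp
  | succ n => rw [pow_succ', mul_assoc, mul_inv_cancel_left₀ (by positivity)]

/-- the generating series -/
noncomputable def z4_A (t : List ℚ) : ℚ⟦X⟧⟦X⟧ := PowerSeries.mk fun d => gen t LiS d

/-- the Euler operator on coefficients -/
noncomputable def z4_Th : ℚ⟦X⟧⟦X⟧ →+ ℚ⟦X⟧⟦X⟧ :=
  AddMonoidHom.mk' (fun f => PowerSeries.mk fun d => z4_th (coeff d f)) fun f g => by
    ext1 d
    simp only [coeff_mk, map_add]

theorem z4_Th_coeff (f : ℚ⟦X⟧⟦X⟧) (d : ℕ) : coeff d (z4_Th f) = z4_th (coeff d f) :=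
  coeff_mk d fun d => z4_th (coeff d f)

theorem z4_Th_mul (f g : ℚ⟦X⟧⟦X⟧) : z4_Th (f * g) = z4_Th f * g + f * z4_Th g := by
  ext1 d
  simp only [z4_Th_coeff, map_add, coeff_mul, map_sum, z4_th_mul, sum_add_distrib]

theorem z4_Th_inj {f : ℚ⟦X⟧⟦X⟧} {c : ℚ⟦X⟧} (h : z4_Th f = C c * (X * f))
    (h0 : PowerSeries.map constantCoeff f = 0) : f = 0 := by
  have h1 : ∀ d, constantCoeff (coeff d f) = 0 := fun d => by
    rw [← coeff_map, h0, map_zero]
  ext1 d
  induction d with
  | zero => exact z4_th_inj (by rw [← z4_Th_coeff, h]; simp) (h1 0)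
  | succ d ih =>
    refine z4_th_inj ?_ (h1 _)
    rw [← z4_Th_coeff, h, coeff_C_mul, coeff_succ_X_mul, ih, map_zero, mul_zero]

theorem z4_A_nil : z4_A [] = 1 := by
  ext1 d
  rw [z4_A, coeff_mk, gen, z4_Li_nil, coeff_one]

theorem z4_A_const (a : ℚ) (t : List ℚ) : PowerSeries.map constantCoeff (z4_A (a :: t)) = 0 := by
  ext1 d
  rw [coeff_map, z4_A, coeff_mk, map_zero, ← coeff_zero_eq_constantCoeff_apply, gen_map, gen]
  simp only [coeff_zero_eq_constantCoeff_apply, z4_Li_const, z4_zero, smul_zero, sum_const_zero]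

theorem z4_Th_A (a : ℚ) (t : List ℚ) :
    z4_Th (z4_A (a :: t)) = C (X * PowerSeries.mk 1) * z4_A t + C (C a) * (X * z4_A (a :: t)) := by
  have e : ∀ d, gen t (fun w => X * PowerSeries.mk 1 * LiS w) d = X * PowerSeries.mk 1 * gen t LiS d := fun d =>
    (gen_map (LinearMap.mulLeft ℚ (X * PowerSeries.mk 1 : ℚ⟦X⟧)) t LiS d).symm
  ext1 d
  rw [z4_Th_coeff, map_add, coeff_C_mul, coeff_C_mul, z4_A, z4_A, coeff_mk, coeff_mk, gen_map, gen]
  cases d with
  | zero => simp [z4_th_one, e]
  | succ d =>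
    rw [Finset.Nat.sum_antidiagonal_succ, coeff_succ_X_mul, coeff_mk, gen, mul_sum]
    simp only [zero_add, z4_th_one, e, pow_zero, one_smul, z4_th_succ, pow_succ', mul_smul,
      smul_eq_C_mul]

theorem z4_Th_sum (a c : ℚ) (L : List (List ℚ)) (h : ∀ σ ∈ L, a + σ.sum = c) :
    z4_Th ((L.map (a :: ·)).map fun σ => z4_A (psum σ)).sum =
      C (X * PowerSeries.mk 1) * (L.map fun σ => z4_A (psum σ)).sum +
        C (C c) * (X * ((L.map (a :: ·)).map fun σ => z4_A (psum σ)).sum) ∧
    PowerSeries.map constantCoeff ((L.map (a :: ·)).map fun σ => z4_A (psum σ)).sum = 0 := by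
  induction L with
  | nil => simp
  | cons σ L ih =>
    obtain ⟨h1, h2⟩ := ih fun σ hσ => h σ (List.mem_cons_of_mem _ hσ)
    simp only [List.map_cons, List.sum_cons, map_add]
    rw [h1, h2, psum, z4_Th_A, z4_A_const, h σ List.mem_cons_self]
    exact ⟨by ring, add_zero _⟩

theorem z4_shuf (s s' : List ℚ) :
    ((shuf s s').map fun σ => z4_A (psum σ)).sum = z4_A (psum s) * z4_A (psum s') := by
  induction s, s' using shuf.induct with
  | case1 v => simp [shuf, psum, z4_A_nil]
  | case2 a u => simp [shuf, psum.eq_1, z4_A_nil]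
  | case3 a u b v ih1 ih2 =>
    obtain ⟨h1, h2⟩ := z4_Th_sum a (a + u.sum + (b + v.sum)) (shuf u (b :: v)) fun σ hσ => by
      rw [(mem_shuf hσ).sum_eq, List.sum_append, List.sum_cons]; ring
    obtain ⟨h3, h4⟩ := z4_Th_sum b (a + u.sum + (b + v.sum)) (shuf (a :: u) v) fun σ hσ => by
      rw [(mem_shuf hσ).sum_eq, List.sum_append, List.sum_cons]; ring
    rw [shuf, List.map_append, List.sum_append, ← sub_eq_zero]
    refine z4_Th_inj (c := C (a + u.sum + (b + v.sum))) ?_ ?_
    · rw [map_sub, map_add, h1, h3, ih1, ih2, z4_Th_mul, psum, psum, z4_Th_A, z4_Th_A]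
      simp only [map_add]
      ring
    · rw [map_sub, map_add, h2, h4, map_mul, psum, z4_A_const]
      simp

end Li

theorem LiS_shuf (s s' : List ℚ) (d : ℕ) :
    ((shuf s s').map fun σ => gen (psum σ) LiS d).sum =
      ∑ p ∈ HasAntidiagonal.antidiagonal d, gen (psum s) LiS p.1 * gen (psum s') LiS p.2 := by
  have := congrArg (PowerSeries.coeff d) (z4_shuf s s')
  rw [map_list_sum, List.map_map, PowerSeries.coeff_mul] at this
  simpa only [z4_A, Function.comp_def, PowerSeries.coeff_mk] using this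

theorem LiS_ones (j : ℕ) : (j.factorial : ℚ) • LiS (ones j) = LiS [1] ^ j := by
  have h1 : z4_th (LiS [1]) = PowerSeries.X * PowerSeries.mk 1 := by
    rw [z4_th_one, z4_Li_nil, mul_one]
  have h2 : ∀ j : ℕ, z4_th (LiS [1] ^ (j + 1)) =
      ((j : ℚ) + 1) • (PowerSeries.X * PowerSeries.mk 1 * LiS [1] ^ j) := by
    intro j
    induction j with
    | zero => simp [h1]
    | succ j ih =>
      rw [pow_succ, z4_th_mul, ih, h1, Nat.cast_succ, add_smul ((j : ℚ) + 1), one_smul,
        smul_mul_assoc]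
      congr 1
      · rw [pow_succ, mul_assoc]
      · ring
  induction j with
  | zero => simp [ones, z4_Li_nil]
  | succ j ih =>
    have e : ones (j + 1) = 1 :: ones j := rfl
    rw [← sub_eq_zero]
    refine z4_th_inj ?_ ?_
    · rw [map_sub, map_smul, e, z4_th_one, h2, ← ih, mul_smul_comm, smul_smul, Nat.factorial_succ]
      push_cast
      exact sub_self _
    · have h3 := z4_Li_const 0 (ones j)
      have h4 := z4_Li_const 0 []
      rw [zero_add] at h3 h4
      rw [map_sub, map_pow, h4, PowerSeries.smul_eq_C_mul, map_mul, e, h3]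
      simp

end Pool.Agent.MP_cbe134_nt.V
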