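import Pool.Agent.MP_cbe134_nt.VZ2
import Pool.Agent.MP_cbe134_nt.VZ3
import Pool.Agent.MP_cbe134_nt.VZ4

/- The regularised values satisfy both shuffle relations modulo lower depth and products. -/

namespace Pool.Agent.MP_cbe134_nt.V

theorem z5_abel_add (a b : ℕ → ℝ) : abel (fun N => a N + b N) = abel a + abel b := by
  rw [abel, abel, abel, ← mul_add]
  congr 1

theorem z5_abel_smul (x : ℝ) (a : ℕ → ℝ) : abel (fun N => x * a N) = x • abel a := by
  rw [abel, abel, ← mul_smul_comm]
  congr 1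

theorem z5_abel_zero : abel (fun _ => 0) = 0 := by
  have := z5_abel_smul 0 fun _ => 0
  simpa using this

theorem z5_map_smul (c : ℚ) (F : PowerSeries ℚ) :
    PowerSeries.map (algebraMap ℚ ℝ) (c • F) = (c : ℝ) • PowerSeries.map (algebraMap ℚ ℝ) F := by
  ext n
  simp

theorem z5_pow {F : PowerSeries ℝ} {P : Polynomial ℝ} (h : Asy F P) (j : ℕ) :
    Asy (F ^ j) (P ^ j) := by
  induction j with
  | zero => simpa using Asy.one
  | succ j ih =>
    rw [pow_succ, pow_succ]
    exact ih.mul h

theorem z5_ones (j : ℕ) (x : ℝ) :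
    Asy (abel fun N => x * ZR (ones j) N) (Polynomial.monomial j (x / j.factorial)) := by
  have hj : (j.factorial : ℝ) ≠ 0 := by exact_mod_cast j.factorial_ne_zero
  have h1 : (j.factorial : ℝ) • abel (ZR (ones j)) = abel (ZR [1]) ^ j := by
    rw [abel_ZR, abel_ZR, ← map_pow, ← LiS_ones, z5_map_smul, Rat.cast_natCast]
  have h2 := (z5_pow asy_log j).smul (x / j.factorial)
  rw [← h1, smul_smul, div_mul_cancel₀ _ hj, Polynomial.X_pow_eq_monomial,
    Polynomial.smul_monomial, smul_eq_mul, mul_one] at h2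
  rwa [z5_abel_smul]

theorem z5_sum {ι : Type} (s : Finset ι) (a : ι → ℕ → ℝ) (P : ι → Polynomial ℝ)
    (h : ∀ i, Asy (abel (a i)) (P i)) : Asy (abel fun N => ∑ i ∈ s, a i N) (∑ i ∈ s, P i) := by
  classical
  induction s using Finset.induction_on with
  | empty =>
    simp only [Finset.sum_empty, z5_abel_zero]
    exact Asy.zero
  | insert i s hi ih =>
    simp only [Finset.sum_insert hi, z5_abel_add]
    exact (h i).add ih

theorem z5_coeff (c : ℕ →₀ ℝ) (i : ℕ) :
    (c.sum fun j x => Polynomial.monomial j (x / (j.factorial : ℝ))).coeff i =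
      c i / i.factorial := by
  rw [Finsupp.sum, Polynomial.finsetSum_coeff, Finset.sum_eq_single i]
  · rw [Polynomial.coeff_monomial, if_pos rfl]
  · intro j _ hj
    rw [Polynomial.coeff_monomial, if_neg hj]
  · intro hi
    rw [Finsupp.notMem_support_iff.1 hi, zero_div, map_zero, Polynomial.coeff_zero]

theorem Expn.asy {a : ℕ → ℝ} {c : ℕ →₀ ℝ} (h : Expn a c) :
    Asy (abel a) (c.sum fun j x => Polynomial.monomial j (x / j.factorial)) := by
  have h1 := (asy_small h).add (z5_sum c.support (fun j N => c j * ZR (ones j) N) _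
    fun j => z5_ones j (c j))
  rw [← z5_abel_add, zero_add] at h1
  simpa only [Finsupp.sum, sub_add_cancel] using h1

theorem Expn.unique {a : ℕ → ℝ} {c c' : ℕ →₀ ℝ} (h : Expn a c) (h' : Expn a c') : c = c' := by
  ext i
  have h1 := congrArg (Polynomial.coeff · i) (h.asy.unique h'.asy)
  simp only [z5_coeff] at h1
  have hj : (i.factorial : ℝ) ≠ 0 := by exact_mod_cast i.factorial_ne_zero
  exact (div_left_inj' hj).1 h1

theorem z5_prev {r r' k : ℕ} (h : r < r') : Fil r k ≤ Dec r' k := by
  obtain ⟨n, rfl⟩ : ∃ n, r' = n + 1 := ⟨r' - 1, by omega⟩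
  exact (Fil_mono (by omega) k).trans le_sup_left

theorem z5_dec {p q i j : ℕ} (hp : 1 ≤ p) (hq : 1 ≤ q) {x y : ℝ} (hx : x ∈ Fil p i)
    (hy : y ∈ Fil q j) : x * y ∈ Dec (p + q) (i + j) := by
  refine Submodule.mem_sup_right ?_
  refine Submodule.mem_iSup_of_mem p (Submodule.mem_iSup_of_mem q (Submodule.mem_iSup_of_mem i
    (Submodule.mem_iSup_of_mem j (Submodule.mem_iSup_of_mem ⟨hp, hq, rfl, rfl⟩ ?_))))
  exact Submodule.mul_mem_mul hx hy

theorem z5_len {w : List ℕ} (hw : Pos w) :
    w.length ≤ w.sum ∧ (w.sum ≤ w.length → w = ones w.length) := by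
  induction w with
  | nil => exact ⟨le_rfl, fun _ => rfl⟩
  | cons a w ih =>
    have ha : 1 ≤ a := hw a (by simp)
    obtain ⟨h1, h2⟩ := ih fun b hb => hw b (by simp [hb])
    simp only [List.length_cons, List.sum_cons]
    refine ⟨by omega, fun h => ?_⟩
    rw [ones, List.replicate_succ, ← ones, ← h2 (by omega), show a = 1 by omega]

theorem z5_pos_ones (j : ℕ) : Pos (ones j) := fun a ha => by
  rw [List.eq_of_mem_replicate ha]

theorem z5_list (e : List ℕ → ℕ →₀ ℝ) (L : List (List ℕ)) (h : ∀ w ∈ L, Expn (ZR w) (e w)) :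
    Expn (fun N => (L.map fun w => ZR w N).sum) (L.map e).sum := by
  induction L with
  | nil => simpa [Expn] using Small.zero
  | cons w L ih =>
    simp only [List.map_cons, List.sum_cons]
    exact (h w (by simp)).add (ih fun x hx => h x (by simp [hx]))

theorem z5_apply (e : List ℕ → ℕ →₀ ℝ) (L : List (List ℕ)) :
    (L.map e).sum 0 = (L.map fun w => e w 0).sum := by
  induction L with
  | nil => rfl
  | cons w L ih => simp only [List.map_cons, List.sum_cons, Finsupp.add_apply, ih]

theorem z5_mem (D : Submodule ℚ ℝ) {β : Type} (f : β → ℝ) (L : List β) (h : ∀ w ∈ L, f w ∈ D) :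
    (L.map f).sum ∈ D :=
  list_sum_mem fun x hx => by
    obtain ⟨w, hw, rfl⟩ := List.mem_map.1 hx
    exact h w hw

section

variable {e : List ℕ → ℕ →₀ ℝ} (he : ∀ w, Pos w → Expn (ZR w) (e w))
  (hf : ∀ w, Pos w → ∀ j, (e w j ≠ 0 → j ≤ w.length) ∧ e w j ∈ Fil (w.length - j) (w.sum - j))

include he hf

theorem z5_oo {i j : ℕ} (h : 1 ≤ i + j) :
    ((stuf (ones i) (ones j)).map fun w => e w 0).sum ∈ Fil (i + j - 1) (i + j) := by
  refine z5_mem _ _ _ fun w hw => ?_
  obtain ⟨h1, h2, h3⟩ := mem_stuf (z5_pos_ones i) (z5_pos_ones j) hw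
  simp only [ones, List.sum_replicate, smul_eq_mul, mul_one, List.length_replicate] at h2 h3
  rcases h3.lt_or_eq with h3 | h3
  · have := (hf w h1 0).2
    rw [Nat.sub_zero, Nat.sub_zero, h2] at this
    exact Fil_mono (by omega) _ this
  · have h4 := (z5_len h1).2 (by omega)
    rw [h3] at h4
    rw [h4, (he _ (z5_pos_ones _)).unique (expn_ones _), Finsupp.single_eq_of_ne (by omega)]
    exact zero_mem _

theorem z5_stuf {u v : List ℕ} (hu : Pos u) (hv : Pos v) (hu' : 1 ≤ u.length)
    (hv' : 1 ≤ v.length) :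
    ((stuf u v).map fun w => e w 0).sum ∈ Dec (u.length + v.length) (u.sum + v.sum) := by
  have h1 := z5_list e (stuf u v) fun w hw => he w (mem_stuf hu hv hw).1
  have h2 := (he u hu).mul (he v hv) e he
  simp only [ZR_stuf] at h2
  rw [← z5_apply, h1.unique h2, Finsupp.sum, Finsupp.finsetSum_apply]
  refine Submodule.sum_mem _ fun i hi => ?_
  rw [Finsupp.sum, Finsupp.finsetSum_apply]
  refine Submodule.sum_mem _ fun j hj => ?_
  rw [Finsupp.smul_apply, z5_apply, smul_eq_mul]
  obtain ⟨a1, a2⟩ := hf u hu i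
  obtain ⟨b1, b2⟩ := hf v hv j
  have a3 := a1 (Finsupp.mem_support_iff.1 hi)
  have b3 := b1 (Finsupp.mem_support_iff.1 hj)
  have a4 := (z5_len hu).1
  have b4 := (z5_len hv).1
  rcases Nat.eq_zero_or_pos (i + j) with h | h
  · obtain rfl : i = 0 := by omega
    obtain rfl : j = 0 := by omega
    have h0 : e [] 0 = 1 := by
      rw [(he [] (z5_pos_ones 0)).unique (expn_ones 0), Finsupp.single_eq_same]
    have : ((stuf (ones 0) (ones 0)).map fun w => e w 0).sum = 1 := by
      simp [ones, stuf, h0]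
    rw [this, mul_one]
    exact z5_dec hu' hv' a2 b2
  · have h3 := Fil_mul _ _ _ _ (Submodule.mul_mem_mul (Fil_mul _ _ _ _
      (Submodule.mul_mem_mul a2 b2)) (z5_oo he hf h))
    rw [show u.sum - i + (v.sum - j) + (i + j) = u.sum + v.sum by omega] at h3
    exact z5_prev (by omega) h3

theorem z5_shuf {u v : List ℕ} (hu : Pos u) (hv : Pos v) (hu' : 1 ≤ u.length)
    (hv' : 1 ≤ v.length) :
    ((shuf u v).map fun w => e w 0).sum ∈ Dec (u.length + v.length) (u.sum + v.sum) := by
  obtain ⟨L, h1, h2⟩ := stuf_perm u v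
  have h3 := z5_stuf he hf hu hv hu' hv'
  rw [(h1.map _).sum_eq, List.map_append, List.sum_append] at h3
  refine (Submodule.add_mem_iff_left _ (z5_mem _ _ _ fun w hw => ?_)).1 h3
  obtain ⟨a1, a2, -⟩ := mem_stuf hu hv (h1.symm.subset (List.mem_append_right _ hw))
  have := (hf w a1 0).2
  rw [Nat.sub_zero, Nat.sub_zero, a2] at this
  exact z5_prev (h2 w hw) this

omit hf in
theorem z5_gen (t : List ℚ) (d : ℕ) :
    Asy (PowerSeries.map (algebraMap ℚ ℝ) (gen t LiS d))
      (gen t (fun w => (e w).sum fun j x => Polynomial.monomial j (x / (j.factorial : ℝ))) d) := by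
  refine gen_rel (fun F P => Asy (PowerSeries.map (algebraMap ℚ ℝ) F) P) ?_ ?_ ?_ t _ _ ?_ d
  · rw [map_zero]
    exact Asy.zero
  · intro a b a' b' h h'
    rw [map_add]
    exact h.add h'
  · intro c a a' h
    rw [z5_map_smul, ← Rat.cast_smul_eq_qsmul ℝ]
    exact h.smul _
  · intro w hw
    rw [← abel_ZR]
    exact (he w hw).asy

omit hf in
theorem z5_psum (u v : List ℚ) (d : ℕ) :
    ((shuf u v).map fun σ => gen (psum σ) (fun w => e w 0) d).sum =
      ∑ p ∈ Finset.HasAntidiagonal.antidiagonal d,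
        gen (psum u) (fun w => e w 0) p.1 * gen (psum v) (fun w => e w 0) p.2 := by
  set P : List ℕ → Polynomial ℝ :=
    fun w => (e w).sum fun j x => Polynomial.monomial j (x / (j.factorial : ℝ)) with hP
  have h1 : ∀ L : List (List ℚ), Asy (PowerSeries.map (algebraMap ℚ ℝ)
      (L.map fun σ => gen (psum σ) LiS d).sum) (L.map fun σ => gen (psum σ) P d).sum := by
    intro L
    induction L with
    | nil => simpa using Asy.zero
    | cons σ L ih =>
      simp only [List.map_cons, List.sum_cons, map_add]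
      exact (z5_gen he _ _).add ih
  have h2 : ∀ s : Finset (ℕ × ℕ), Asy (PowerSeries.map (algebraMap ℚ ℝ)
      (∑ p ∈ s, gen (psum u) LiS p.1 * gen (psum v) LiS p.2))
      (∑ p ∈ s, gen (psum u) P p.1 * gen (psum v) P p.2) := by
    intro s
    induction s using Finset.induction_on with
    | empty => simpa using Asy.zero
    | insert p s hp ih =>
      simp only [Finset.sum_insert hp, map_add, map_mul]
      exact ((z5_gen he _ _).mul (z5_gen he _ _)).add ih
  have h3 := h1 (shuf u v)
  rw [LiS_shuf] at h3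
  have h4 := congrArg (Polynomial.coeff · 0) (h3.unique (h2 _))
  have h5 : ∀ t d, (gen t P d).coeff 0 = gen t (fun w => e w 0) d := fun t d => by
    have := gen_map ((Polynomial.lcoeff ℝ 0).restrictScalars ℚ) t P d
    simpa [hP, z5_coeff] using this
  simp only [Polynomial.finsetSum_coeff, Polynomial.mul_coeff_zero, h5] at h4
  rw [← h4]
  induction shuf u v with
  | nil => simp
  | cons σ L ih => simp only [List.map_cons, List.sum_cons, Polynomial.coeff_add, h5, ih]

end

theorem exists_reg : ∃ reg : List ℕ → ℝ, (∀ w, Adm w → reg w = mzv w) ∧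
    (∀ w, Pos w → reg w ∈ Fil w.length w.sum) ∧
    ∀ (u v : List ℚ) (d : ℕ), u ≠ [] → v ≠ [] →
      ((shuf u v).map fun σ => gen σ reg d).sum ∈
        Dec (u.length + v.length) (d + (u.length + v.length)) ∧
      ((shuf u v).map fun σ => gen (psum σ) reg d).sum ∈
        Dec (u.length + v.length) (d + (u.length + v.length)) := by
  have h0 : ∀ w, ∃ c : ℕ →₀ ℝ, Pos w → Expn (ZR w) c ∧
      ∀ j, (c j ≠ 0 → j ≤ w.length) ∧ c j ∈ Fil (w.length - j) (w.sum - j) := fun w => by
    by_cases hw : Pos w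
    · obtain ⟨c, hc⟩ := exists_expn hw
      exact ⟨c, fun _ => hc⟩
    · exact ⟨0, fun h => absurd h hw⟩
  choose e h using h0
  have he := fun w hw => (h w hw).1
  have hf := fun w hw => (h w hw).2
  refine ⟨fun w => e w 0, fun w hw => ?_, fun w hw => (hf w hw 0).2, fun u v d hu hv => ?_⟩
  · change e w 0 = _
    rw [(he w hw.1).unique (expn_adm hw), Finsupp.single_eq_same]
  have hu' : 1 ≤ u.length := List.length_pos_iff.2 hu
  have hv' : 1 ≤ v.length := List.length_pos_iff.2 hv
  refine ⟨gen_shuf_mem _ _ _ _ _ fun a b ha hb h1 h2 h3 => ?_, ?_⟩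
  · rw [← h3, ← h1, ← h2]
    exact z5_shuf he hf ha hb (h1 ▸ hu') (h2 ▸ hv')
  · have hg : ∀ (t : List ℚ) (i : ℕ),
        gen (psum t) (fun w => e w 0) i ∈ Fil t.length (i + t.length) := fun t i =>
      gen_mem _ _ _ _ fun w hw h1 h2 => by
        rw [psum_length] at h1 h2
        rw [← h2, ← h1]
        exact (hf w hw 0).2
    rw [z5_psum he]
    refine Submodule.sum_mem _ fun p hp => ?_
    have := z5_dec hu' hv' (hg u p.1) (hg v p.2)
    rwa [show p.1 + u.length + (p.2 + v.length) = d + (u.length + v.length) by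
      have := Finset.HasAntidiagonal.mem_antidiagonal.1 hp
      omega] at this

end Pool.Agent.MP_cbe134_nt.V
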